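import Pool.Agent.P.MP_ecb9f8_pr.Defs2

open MeasureTheory ProbabilityTheory Set Filter

noncomputable section

namespace Pool.Agent.FPP

open Classical in
/-- the map that lowers the weights in `S` -/
def lowS (lam : ℝ → ℝ) (S : Finset E) (ω : Env) : Env := fun e => if e ∈ S then lam (ω e) else ω e

theorem measurable_lowS {lam : ℝ → ℝ} (h : Measurable lam) (S : Finset E) :
    Measurable (lowS lam S) :=
  MW3_meas h S

/-- Mermin-Wagner estimate for preimages under a lowering map -/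
theorem mw_low (G : Measure ℝ) [IsProbabilityMeasure G] {Sg : Set ℝ} {δ : ℝ}
    {lam J : ℝ → ℝ → ℝ} (h : LowF G Sg δ lam J) {τ : ℝ} (h0 : 0 ≤ τ) (h1 : τ ≤ 1 / 2) {k : ℕ}
    (hk : ((k + 1 : ℕ) : ℝ) * τ ≤ 1) (S : Finset E) {A : Set Env} (mA : MeasurableSet A) :
    PP G A ^ (k + 1) ≤ PP G (lowS (lam τ) S ⁻¹' A) ^ k *
      ENNReal.ofReal (1 + ((k + 1 : ℕ) : ℝ) ^ 2 * τ ^ 2) ^ S.card := by
  classical
  have mθ := h.mlam τ
  have mJ := h.mJ τ
  have hJ := h.nonneg τ h0 h1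
  have mj : Measurable fun x => ENNReal.ofReal (J τ x) := mJ.ennreal_ofReal
  have mq : Measurable fun x => ENNReal.ofReal (J τ x ^ (k + 1)) :=
    (mJ.pow_const _).ennreal_ofReal
  have mB : MeasurableSet (lowS (lam τ) S ⁻¹' A) := measurable_lowS mθ S mA
  have hk0 : (0 : ℝ) < ((k + 1 : ℕ) : ℝ) := by positivity
  have e1 := ENNReal.lintegral_mul_norm_pow_le (μ := PP G)
    (f := (lowS (lam τ) S ⁻¹' A).indicator 1)
    (g := fun ω => ∏ e ∈ S, ENNReal.ofReal (J τ (ω e) ^ (k + 1)))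
    (measurable_one.indicator mB).aemeasurable
    (Finset.measurable_prod S fun e _ => mq.comp (measurable_pi_apply e)).aemeasurable
    (p := k / ((k + 1 : ℕ) : ℝ)) (q := ((k + 1 : ℕ) : ℝ)⁻¹) (by positivity) (by positivity)
    (by rw [inv_eq_one_div, ← add_div, div_eq_one_iff_eq hk0.ne', Nat.cast_succ])
  rw [lintegral_prod_edges G S mq, lintegral_indicator_one mB] at e1
  have e2 : PP G A ≤ PP G (lowS (lam τ) S ⁻¹' A) ^ (k / ((k + 1 : ℕ) : ℝ)) *
      ((∫⁻ x, ENNReal.ofReal (J τ x ^ (k + 1)) ∂G) ^ S.card) ^ ((k + 1 : ℕ) : ℝ)⁻¹ := by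
    refine le_trans ?_ e1
    rw [← lintegral_indicator_one mA,
      ← MW3_key G mθ mj (h.map τ h0 h1) S (measurable_one.indicator mA)]
    refine lintegral_mono fun ω => ?_
    change (∏ e ∈ S, ENNReal.ofReal (J τ (ω e))) * A.indicator 1 (lowS (lam τ) S ω) ≤ _
    by_cases hω : lowS (lam τ) S ω ∈ A
    · refine le_of_eq ?_
      simp only [ENNReal.ofReal_pow (hJ _)]
      rw [Set.indicator_of_mem hω, Set.indicator_of_mem (Set.mem_preimage.2 hω), Pi.one_apply,
        Pi.one_apply, mul_one, ENNReal.one_rpow, one_mul, Finset.prod_pow,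
        ENNReal.pow_rpow_inv_natCast (Nat.succ_ne_zero k)]
    · rw [Set.indicator_of_notMem hω, mul_zero]
      exact zero_le
  refine (pow_le_pow_left' e2 (k + 1)).trans ?_
  rw [mul_pow, ← ENNReal.rpow_natCast _ (k + 1), ← ENNReal.rpow_natCast _ (k + 1),
    ← ENNReal.rpow_mul, ← ENNReal.rpow_mul, div_mul_cancel₀ _ hk0.ne', inv_mul_cancel₀ hk0.ne',
    ENNReal.rpow_natCast, ENNReal.rpow_one]
  exact mul_le_mul_right (pow_le_pow_left' (h.mom τ h0 h1 _ hk) _) _

end Pool.Agent.FPP
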