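import Pool.Agent.P.MP_ecb9f8_pr.Defs2

open MeasureTheory ProbabilityTheory Set Filter

noncomputable section

namespace Pool.Agent.FPP

theorem d_mono {ω ω' : Env} (h : ∀ e, ω e ≤ ω' e) (x y : V) : d ω x y ≤ d ω' x y := by
  refine le_d ω' (fun p k hp h0 hk => ?_)
  have := d_le_W ω hp (Nat.zero_le k) le_rfl
  rw [h0, hk] at this
  exact le_trans this (AttProb_W_le h p 0 k)

theorem On.left {ω : Env} (x y : V) : On ω x x y := by
  unfold On
  rw [d_self, zero_add]

theorem On.right {ω : Env} (x y : V) : On ω x y y := by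
  unfold On
  rw [d_self, add_zero]

theorem On.trans_left {ω : Env} {x a b y : V} (h1 : On ω x a b) (h2 : On ω x b y) :
    On ω x a y ∧ On ω a b y := by
  unfold On at *
  have a1 := d_triangle ω x a y
  have a2 := d_triangle ω a b y
  constructor <;> linarith

theorem On.trans_right {ω : Env} {x a b y : V} (h1 : On ω x a y) (h2 : On ω a b y) :
    On ω x a b ∧ On ω x b y := by
  unfold On at *
  have a1 := d_triangle ω x a b
  have a2 := d_triangle ω x b y
  constructor <;> linarith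

/-- two points of the same geodesic are ordered -/
theorem Nice.order {ω : Env} (hn : Nice ω) {x a b y : V} (h1 : On ω x a y) (h2 : On ω x b y) :
    On ω x a b ∨ On ω x b a := by
  obtain ⟨p, k, hp, rfl, rfl⟩ := hn.2.1 x y
  obtain ⟨i, hi, rfl⟩ := (hn.on_iff hp a).1 h1
  obtain ⟨j, hj, rfl⟩ := (hn.on_iff hp b).1 h2
  rcases le_total i j with h | h
  · exact Or.inl (hp.add (Nat.zero_le i) h hj)
  · exact Or.inr (hp.add (Nat.zero_le j) h hi)

/-- two geodesics coincide between common points, in the same or in the opposite direction -/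
theorem Nice.seg {ω : Env} (hn : Nice ω) {p q : ℕ → V} {k l : ℕ} (hp : Geo ω p k)
    (hq : Geo ω q l) :
    ∀ i i' j j' : ℕ, i ≤ i' → i' ≤ k → j ≤ l → j' ≤ l → p i = q j → p i' = q j' →
      (j ≤ j' ∧ j' - j = i' - i ∧ ∀ t ≤ i' - i, p (i + t) = q (j + t)) ∨
      (j' ≤ j ∧ j - j' = i' - i ∧ ∀ t ≤ i' - i, p (i + t) = q (j - t)) := by
  intro i i' j j' hi hi' hj hj' e1 e2
  have gp := hp.shift hi hi'
  have a1 : i + (i' - i) = i' := by omega
  rcases le_total j j' with h | h
  · have gq := hq.shift h hj'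
    have a2 : j + (j' - j) = j' := by omega
    obtain ⟨b1, b2⟩ := hn.2.2 _ _ _ _ gp gq (by simpa using e1) (by simp only [a1, a2]; exact e2)
    exact Or.inl ⟨h, b1.symm, b2⟩
  · have gq := (hq.shift h hj).rev
    have a2 : j' + (j - j') = j := by omega
    obtain ⟨b1, b2⟩ := hn.2.2 _ _ _ _ gp gq (by simp only [Nat.sub_zero, a2, add_zero]; exact e1)
      (by simp only [a1, Nat.sub_self, add_zero]; exact e2)
    refine Or.inr ⟨h, b1.symm, fun t ht => ?_⟩
    have a3 : j' + (j - j' - t) = j - t := by omega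
    have := b2 t ht
    simp only [a3] at this
    exact this

/-- the coalescence point for the target `o'` is also one for the target `o` -/
theorem on_core {ω : Env} (hn : Nice ω) {x x' o o' m₀ m₁ m₂ m₃ : V}
    (a1 : On ω x m₀ o') (a2 : On ω x' m₀ o') (b1 : On ω x m₁ o) (b2 : On ω x m₁ o')
    (c1 : On ω x m₂ o) (c2 : On ω x' m₂ o) (d1 : On ω x' m₃ o') (e : On ω x m₂ m₃)
    (n1 : ¬ On ω x m₁ m₀) (n2 : ¬ On ω x m₂ m₀) (n3 : ¬ On ω x' m₃ m₀) :
    On ω x m₀ o ∧ On ω x' m₀ o := by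
  have s1 : On ω x m₀ m₁ := (hn.order a1 b2).resolve_right n1
  have s2 : On ω x m₀ o := (s1.trans_left b1).1
  have s3 : On ω x m₀ m₂ := (hn.order s2 c1).resolve_right n2
  have s4 : On ω m₀ m₂ m₃ := (s3.trans_left e).2
  have s5 : On ω x' m₀ m₃ := (hn.order a2 d1).resolve_right n3
  have s6 : On ω x' m₀ m₂ := (s5.trans_right s4).1
  exact ⟨s2, (s6.trans_left c2).1⟩

theorem LBA.on {ω : Env} (hn : Nice ω) {Λ z K : ℕ} {u x a b : V} (h : LBA Λ z u ω)
    (hb : On ω x b a) (hz : z ≤ K) (hx : nm (x - u) ≤ (K : ℤ)) (ha : nm (a - u) ≤ (K : ℤ)) :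
    nm (b - x) ≤ (Λ : ℤ) * K := by
  obtain ⟨p, k, hp, rfl, rfl⟩ := hn.2.1 x a
  obtain ⟨i, hi, rfl⟩ := (hn.on_iff hp b).1 hb
  have h1 := h p k K hp hz hx ha
  have h2 := hp.1.nm_le (Nat.zero_le i) hi
  have h3 : (i : ℤ) ≤ (Λ : ℤ) * K := by exact_mod_cast le_trans hi h1
  simp only [Nat.cast_zero, sub_zero] at h2
  linarith

theorem measurableSet_NM (x x' o u : V) (R : ℤ) : MeasurableSet {ω : Env | NM ω x x' o u R} := by
  have : {ω : Env | NM ω x x' o u R} =
      (⋃ m : V, ({ω | On ω x m o} ∩ ({ω | On ω x' m o} ∩ {_ω | nm (m - u) ≤ R})))ᶜ := by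
    ext ω
    simp [NM]
  rw [this]
  exact (MeasurableSet.iUnion fun m => (measurableSet_On _ _ _).inter
    ((measurableSet_On _ _ _).inter (MeasurableSet.const _))).compl

theorem measurableSet_NoRun (Kc : Finset ℝ) (s s' : ℤ) (x o : V) :
    MeasurableSet {ω : Env | NoRun Kc s s' ω x o} := by
  have : {ω : Env | NoRun Kc s s' ω x o} = ⋂ y : V, ({ω | On ω x y o}ᶜ ∪
      {_ω | s ≤ nm (y - x) → nm (y - x) ≤ s' → ¬ NearC Kc (y - x)}) := by
    ext ω
    simp only [NoRun, mem_ofPred_eq, mem_iInter, mem_union, mem_compl_iff]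
    exact forall_congr' fun y => imp_iff_not_or
  rw [this]
  exact MeasurableSet.iInter fun y => (measurableSet_On _ _ _).compl.union (MeasurableSet.const _)

theorem measurableSet_ConeO (N : Seminorm ℝ (ℝ × ℝ)) (φ : ℝ × ℝ) (K : ℤ) (x o : V) :
    MeasurableSet {ω : Env | ConeO N φ K ω x o} := by
  have : {ω : Env | ConeO N φ K ω x o} = ⋂ y : V, ({ω | On ω x y o}ᶜ ∪
      {_ω | nm (y - x) ≤ K ∨ N (rv (y - x)) = lin φ (rv (y - x))}) := by
    ext ω
    simp only [ConeO, mem_ofPred_eq, mem_iInter, mem_union, mem_compl_iff]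
    exact forall_congr' fun y => imp_iff_not_or
  rw [this]
  exact MeasurableSet.iInter fun y => (measurableSet_On _ _ _).compl.union (MeasurableSet.const _)

theorem measurableSet_CEv (N : Seminorm ℝ (ℝ × ℝ)) (z : ℕ) (n h : ℤ) (x : V) :
    MeasurableSet {ω : Env | CEv N z n h x ω} := by
  exact (measurableSet_NM _ _ _ _ _).inter ((measurableSet_ConeO _ _ _ _ _).inter
    ((measurableSet_ConeO _ _ _ _ _).inter ((measurableSet_ConeO _ _ _ _ _).inter
      (measurableSet_ConeO _ _ _ _ _))))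

theorem CEv_shift (N : Seminorm ℝ (ℝ × ℝ)) (z : ℕ) (n h : ℤ) (x : V) (ω : Env) :
    CEv N z n h 0 (pull (sh x) ω) ↔ CEv N z n h x ω := by
  have c1 : ∀ (φ : ℝ × ℝ) (K : ℤ) (a b : V),
      ConeO N φ K (pull (sh x) ω) a b ↔ ConeO N φ K ω (x + a) (x + b) := by
    intro φ K a b
    unfold ConeO
    simp only [On_pull _ (sh_adj x), sh_apply]
    constructor
    · intro H y hy
      have := H (y - x) (by rw [sub_add_cancel, add_comm a, add_comm b]; exact hy)
      rwa [show y - x - a = y - (x + a) by abel] at this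
    · intro H y hy
      have := H (y + x) (by rw [add_comm x a, add_comm x b]; exact hy)
      rwa [show y + x - (x + a) = y - a by abel] at this
  have c2 : ∀ (a a' b : V) (R : ℤ),
      NM (pull (sh x) ω) a a' b 0 R ↔ NM ω (x + a) (x + a') (x + b) x R := by
    intro a a' b R
    unfold NM
    simp only [On_pull _ (sh_adj x), sh_apply]
    refine not_congr ⟨?_, ?_⟩
    · rintro ⟨m, h1, h2, h3⟩
      refine ⟨m + x, by rwa [add_comm x a, add_comm x b], by rwa [add_comm x a', add_comm x b], ?_⟩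
      rwa [add_sub_cancel_right, ← sub_zero m]
    · rintro ⟨m, h1, h2, h3⟩
      refine ⟨m - x, by rwa [sub_add_cancel, add_comm a, add_comm b],
        by rwa [sub_add_cancel, add_comm a', add_comm b], by rwa [sub_zero]⟩
  unfold CEv
  simp only [c1, c2, zero_add, add_zero]

/-- geodesics with a common start that meet near their ends differ in few edges -/
theorem sdc_lt_of_on {ω : Env} (hn : Nice ω) {Λ z K : ℕ} {u m : V} (h : LBA Λ z u ω)
    {p q : ℕ → V} {k l : ℕ} (hp : Geo ω p k) (hq : Geo ω q l) (h0 : p 0 = q 0)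
    (h1 : On ω (p 0) m (p k)) (h2 : On ω (q 0) m (q l)) (hz : z ≤ K)
    (hm : nm (m - u) ≤ (K : ℤ)) (hk : nm (p k - u) ≤ (K : ℤ)) (hl : nm (q l - u) ≤ (K : ℤ)) :
    sdc p k q l ≤ 2 * Λ * K := by
  obtain ⟨i, hi, ei⟩ := (hn.on_iff hp m).1 h1
  obtain ⟨j, hj, ej⟩ := (hn.on_iff hq m).1 h2
  have s1 := hn.sdc_le hp hq h0 hi hj (by rw [ei, ej])
  have a1 : i + (k - i) = k := by omega
  have a2 : j + (l - j) = l := by omega
  have l1 := h _ _ K (hp.shift hi le_rfl) hz (by simp only [add_zero, ei]; exact hm)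
    (by simp only [a1]; exact hk)
  have l2 := h _ _ K (hq.shift hj le_rfl) hz (by simp only [add_zero, ej]; exact hm)
    (by simp only [a2]; exact hl)
  have : 2 * Λ * K = Λ * K + Λ * K := by ring
  omega

end Pool.Agent.FPP
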