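import Pool.Agent.P.MP_ecb9f8_pr.LowFam
import Pool.Agent.P.MP_ecb9f8_pr.MW4
import Pool.Agent.P.MP_ecb9f8_pr.OnL

open MeasureTheory ProbabilityTheory Set Filter

noncomputable section

namespace Pool.Agent.FPP

theorem measurableSet_ACev (Y : Finset ℤ) (T : ℤ → Finset E) (St : ℤ → Finset V)
    (lab : (ℕ → V) → ℤ) (x o : V) (L b : ℕ) (w : ℝ) :
    MeasurableSet {ω : Env | ACev Y T St lab x o L b w ω} := by
  classical
  have h1 : ∀ y : ℤ, MeasurableSet {ω : Env | ∃ (q : ℕ → V) (l : ℕ), Chain q l ∧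
      ω ∈ {ω : Env | (q 0 = x ∧ q l = o ∧ lab (fun t => q (min t l)) = y ∧
        ∀ j < l, ed q j ∉ T y) ∧ W ω q 0 l = d ω x o}} := by
    intro y
    refine measurableSet_exists_chain _ (fun p k => ?_) ?_
    · exact (MeasurableSet.const _).inter
        (measurableSet_eq_fun (measurable_W p 0 k) (measurable_d x o))
    · rintro p q k h ω ⟨⟨a1, a2, a3, a4⟩, a5⟩
      refine ⟨⟨(h 0 (Nat.zero_le _)).symm.trans a1, (h k le_rfl).symm.trans a2, ?_, ?_⟩, ?_⟩
      · rw [← a3]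
        congr 1
        funext t
        exact (h _ (min_le_right _ _)).symm
      · intro j hj
        have := a4 j hj
        rwa [ed, h j hj.le, h (j + 1) hj] at this
      · rw [← W_congr ω h, a5]
  have h2 : ∀ y : ℤ, MeasurableSet {ω : Env | ∃ (r : ℕ → V) (m : ℕ), Chain r m ∧
      ω ∈ {ω : Env | (SA r m ∧ r 0 ∈ St y ∧ m ≤ L * b ∧
        b ≤ ((Finset.range m).filter (fun j => ed r j ∈ T y)).card) ∧
        d ω x (r 0) + W ω r 0 m + d ω (r m) o ≤ d ω x o + w}} := by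
    intro y
    refine measurableSet_exists_chain _ (fun p k => ?_) ?_
    · exact (MeasurableSet.const _).inter
        (measurableSet_le (((measurable_d _ _).add (measurable_W p 0 k)).add (measurable_d _ _))
          ((measurable_d x o).add_const w))
    · rintro p q k h ω ⟨⟨a1, a2, a3, a4⟩, a5⟩
      refine ⟨⟨fun i hi j hj e => a1 i hi j hj (by rw [h i hi, h j hj, e]),
        h 0 (Nat.zero_le _) ▸ a2, a3, ?_⟩, ?_⟩
      · refine a4.trans (le_of_eq ?_)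
        congr 1
        refine Finset.filter_congr fun j hj => ?_
        have hj' := Finset.mem_range.1 hj
        rw [ed, ed, h j hj'.le, h (j + 1) hj']
      · rw [← W_congr ω h, ← h 0 (Nat.zero_le _), ← h k le_rfl]
        exact a5
  have h3 := Finset.measurableSet_biUnion Y fun y _ => (h1 y).inter (h2 y)
  convert h3 using 1
  ext ω
  simp only [ACev, mem_ofPred_eq, mem_iUnion, mem_inter_iff, exists_prop]
  refine exists_congr fun y => and_congr Iff.rfl (and_congr ?_ ?_)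
  · refine exists_congr fun q => exists_congr fun l => ?_
    constructor
    · rintro ⟨⟨a0, a1⟩, a2, a3, a4, a5⟩
      exact ⟨a0, ⟨a2, a3, a4, a5⟩, by rw [a1, a2, a3]⟩
    · rintro ⟨a0, ⟨a2, a3, a4, a5⟩, a1⟩
      exact ⟨⟨a0, by rw [a1, a2, a3]⟩, a2, a3, a4, a5⟩
  · refine exists_congr fun r => exists_congr fun m => ?_
    constructor
    · rintro ⟨a0, a1, a2, a3, a4, a5⟩
      exact ⟨a0, ⟨a1, a2, a3, by convert a4⟩, a5⟩
    · rintro ⟨a0, ⟨a1, a2, a3, a4⟩, a5⟩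
      exact ⟨a0, a1, a2, a3, by convert a4, a5⟩

theorem ACgen_le {f : ℝ → ℝ} (hf : ∀ x, f x ≤ x) (S : Finset E) (ω : Env) (e : E) :
    lowS f S ω e ≤ ω e := by
  unfold lowS
  split_ifs
  · exact hf _
  · exact le_rfl

theorem ACgen_geo {f : ℝ → ℝ} (hf : ∀ x, f x ≤ x) (S : Finset E) (ω : Env) {q : ℕ → V} {l : ℕ}
    (hq : Geo (lowS f S ω) q l) (ha : ∀ j < l, ed q j ∉ S) :
    Geo ω q l ∧ d (lowS f S ω) (q 0) (q l) = d ω (q 0) (q l) := by
  have h1 : W (lowS f S ω) q 0 l = W ω q 0 l := by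
    rw [W_range, W_range]
    refine Finset.sum_congr rfl fun j hj => ?_
    simp only [wt, lowS, if_neg (ha j (Finset.mem_range.1 hj))]
  have h2 := d_mono (ACgen_le hf S ω) (q 0) (q l)
  have h3 := d_le_W ω hq.1 (Nat.zero_le l) le_rfl
  have h4 := hq.2
  exact ⟨⟨hq.1, by linarith⟩, by linarith⟩

open Classical in
theorem ACgen_gain {Sg Bd : Set ℝ} (hB : Bd = Sgᶜ) (hS : Sg ⊆ Ici 0) {f f' : ℝ → ℝ} {γ : ℝ} (hγ : 0 ≤ γ)
    (h1 : ∀ x, f' x ≤ f x) (h2 : ∀ x, f' x ∈ Sg → f' x + γ ≤ f x) (S : Finset E) (ω : Env)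
    (q : ℕ → V) (l : ℕ) :
    W (lowS f' S ω) q 0 l + γ * (((Finset.range l).filter (fun j => ed q j ∈ S)).card -
      ((Finset.range l).filter (fun j => lowS f' S ω (ed q j) ∈ Bd)).card) ≤
        W (lowS f S ω) q 0 l := by
  rw [W_range, W_range, Finset.card_filter, Finset.card_filter]
  push_cast
  rw [← Finset.sum_sub_distrib, Finset.mul_sum, ← Finset.sum_add_distrib]
  refine Finset.sum_le_sum fun j _ => ?_
  simp only [wt, lowS]
  by_cases a : ed q j ∈ S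
  · by_cases b : f' (ω (ed q j)) ∈ Sg
    · have := h2 _ b
      have h0 : 0 ≤ f' (ω (ed q j)) := hS b
      have b' : f' (ω (ed q j)) ∉ Bd := by rw [hB]; exact fun h => h b
      simp only [a, if_true, b', if_false, max_eq_left h0]
      linarith [le_max_left (f (ω (ed q j))) 0]
    · have b' : f' (ω (ed q j)) ∈ Bd := by rw [hB]; exact b
      simp only [a, if_true, b', sub_self, mul_zero, add_zero]
      exact max_le_max (h1 _) le_rfl
  · simp only [a, if_false]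
    split_ifs <;> nlinarith

theorem ACgen_dich {A B θ : ℝ} (hA : 0 ≤ A) (hB : 0 ≤ B) (hθ : 0 < θ) (k : ℕ)
    (h : A ^ (k + 1) ≤ B ^ k * 2) : A ≤ 2 * θ ^ k + θ⁻¹ * B := by
  rcases le_or_gt (θ * A) B with h1 | h1
  · have : A ≤ θ⁻¹ * B := by rwa [le_inv_mul_iff₀ hθ]
    have : 0 ≤ θ ^ k := by positivity
    linarith
  · have hA' : 0 < A := by nlinarith
    have h2 : B ^ k ≤ (θ * A) ^ k := pow_le_pow_left₀ hB h1.le k
    rw [mul_pow] at h2
    have h3 : A ^ k * A ≤ A ^ k * (2 * θ ^ k) := by rw [← pow_succ]; nlinarith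
    have h4 := le_of_mul_le_mul_left h3 (pow_pos hA' k)
    have : 0 ≤ θ⁻¹ * B := by positivity
    linarith

theorem ACgen_two {t : ℝ} (ht : 0 ≤ t) {n : ℕ} (h : (n : ℝ) * t ≤ 1 / 2) : (1 + t) ^ n ≤ 2 := by
  have h1 : (1 + t) ^ n ≤ Real.exp t ^ n :=
    pow_le_pow_left₀ (by positivity) (by linarith [Real.add_one_le_exp t]) n
  refine h1.trans ?_
  rw [← Real.exp_nat_mul]
  refine (Real.exp_le_exp.2 h).trans ?_
  have h3 : Real.exp (1 / 2) * Real.exp (1 / 2) = Real.exp 1 := by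
    rw [← Real.exp_add]; norm_num
  nlinarith [Real.exp_one_lt_d9, Real.exp_pos (1 / 2)]

theorem ACgen_pc (L b : ℕ) :
    (((L * b : ℕ) : ℝ) + 1) * 8 ^ (L * b) / ((16 : ℝ) ^ (2 * L + 2)) ^ ((b + 1) / 2) ≤
      ((16 : ℝ) ^ b)⁻¹ := by
  have h1 : ((L * b : ℕ) : ℝ) + 1 ≤ 2 ^ (L * b) := by
    exact_mod_cast Nat.lt_two_pow_self
  have h2 : L * b + b ≤ (2 * L + 2) * ((b + 1) / 2) := by
    have : b ≤ 2 * ((b + 1) / 2) := by omega
    nlinarith
  rw [← pow_mul, div_le_iff₀ (by positivity), inv_mul_eq_div, le_div_iff₀ (by positivity)]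
  calc _ ≤ 2 ^ (L * b) * 8 ^ (L * b) * (16 : ℝ) ^ b := by gcongr
    _ = 16 ^ (L * b + b) := by rw [← mul_pow, pow_add]; norm_num
    _ ≤ _ := pow_le_pow_right₀ (by norm_num) h2

theorem ACgen_ev (k : ℕ) : ∀ᶠ ζ : ℕ in atTop, (ζ : ℝ) ^ k ≤ 16 ^ ζ := by
  filter_upwards [(tendsto_pow_const_div_const_pow_of_one_lt k
    (by norm_num : (1 : ℝ) < 16)).eventually (ge_mem_nhds one_pos)] with ζ h
  exact (div_le_one (by positivity)).1 h

/-- the preimages under the lowering maps are disjoint -/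
theorem ACgen_disj {G : Measure ℝ} {Sg Bd : Set ℝ} {δ : ℝ} {lam Jf : ℝ → ℝ → ℝ} (hB : Bd = Sgᶜ)
    (hS : Sg ⊆ Ici 0) (hδ : 0 < δ) (h : LowF G Sg δ lam Jf) {T : ℤ → Finset E} {St : ℤ → Finset V}
    {lab : (ℕ → V) → ℤ} {x o : V} {L b : ℕ} {w : ℝ} (hw : 0 < w) {ω : Env} (hn : Nice ω)
    {y y' : ℤ} {τ τ' : ℝ} (h0 : 0 ≤ τ) (h1 : τ ≤ 1 / 2) (h0' : 0 ≤ τ') (h1' : τ' ≤ 1 / 2)
    (a : ACev {y} T St lab x o L b w (lowS (lam τ) (T y) ω))
    (a' : ACev {y'} T St lab x o L b w (lowS (lam τ') (T y') ω)) :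
    y = y' ∧ (3 * w ≤ δ * (τ' - τ) * b → open Classical in
      ∃ v ∈ St y', ∃ (p : ℕ → V) (k : ℕ), k ≤ L * b ∧ Chain p k ∧ SA p k ∧ p 0 = v ∧
        (b + 1) / 2 ≤
          ((Finset.range k).filter (fun i => lowS (lam τ') (T y') ω (ed p i) ∈ Bd)).card) := by
  classical
  obtain ⟨z, hz, ⟨q, l, g, q0, ql, lq, av⟩, r, m, c1, c2, c3, c4, c5, c6⟩ := a
  obtain ⟨z', hz', ⟨q', l', g', q0', ql', lq', av'⟩, -⟩ := a'
  obtain rfl := Finset.mem_singleton.1 hz
  obtain rfl := Finset.mem_singleton.1 hz'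
  obtain ⟨g1, e1⟩ := ACgen_geo (h.le τ h0 h1) _ ω g av
  obtain ⟨g2, e2⟩ := ACgen_geo (h.le τ' h0' h1') _ ω g' av'
  obtain ⟨rfl, hq⟩ := hn.2.2 q l q' l' g1 g2 (q0.trans q0'.symm) (ql.trans ql'.symm)
  have hy : z = z' := by
    rw [← lq, ← lq']
    congr 1
    funext t
    exact hq _ (min_le_right _ _)
  subst hy
  refine ⟨rfl, fun hγ => ⟨r 0, c3, r, m, c4, c1, c2, rfl, ?_⟩⟩
  by_contra hlt
  rw [q0, ql] at e1
  rw [q0', ql'] at e2
  have hb : (0 : ℝ) ≤ b := Nat.cast_nonneg b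
  have hτ : τ ≤ τ' := by
    by_contra hc
    have : δ * (τ' - τ) * b ≤ 0 :=
      mul_nonpos_of_nonpos_of_nonneg (mul_nonpos_of_nonneg_of_nonpos hδ.le (by linarith)) hb
    linarith
  have hγ0 : 0 ≤ δ * (τ' - τ) := mul_nonneg hδ.le (by linarith)
  have k1 := ACgen_gain hB hS hγ0 (h.anti τ τ' h0 hτ h1') (h.sep τ τ' h0 hτ h1') (T z) ω r m
  have mono : ∀ e, lowS (lam τ') (T z) ω e ≤ lowS (lam τ) (T z) ω e := by
    intro e
    unfold lowS
    split_ifs
    · exact h.anti τ τ' h0 hτ h1' _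
    · exact le_rfl
  have k2 := d_mono mono x (r 0)
  have k3 := d_mono mono (r m) o
  have k4 := d_triangle (lowS (lam τ') (T z) ω) x (r 0) o
  have k5 := d_triangle (lowS (lam τ') (T z) ω) (r 0) (r m) o
  have k6 := d_le_W (lowS (lam τ') (T z) ω) c1 (Nat.zero_le m) le_rfl
  set n1 := ((Finset.range m).filter (fun j => ed r j ∈ T z)).card with hn1
  set n2 := ((Finset.range m).filter
    (fun i => lowS (lam τ') (T z) ω (ed r i) ∈ Bd)).card with hn2
  have c5' : b ≤ n1 := by convert c5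
  have k7 : b + 2 * n2 ≤ 2 * n1 := by omega
  have k8 : (b : ℝ) + 2 * n2 ≤ 2 * n1 := by exact_mod_cast k7
  have k9 : δ * (τ' - τ) * (b / 2) ≤ δ * (τ' - τ) * ((n1 : ℝ) - n2) :=
    mul_le_mul_of_nonneg_left (by linarith) hγ0
  nlinarith

/-- anti-concentration: a geodesic rarely has an almost optimal rival in a region it avoids -/
theorem ac_gen (G : Measure ℝ) [IsProbabilityMeasure G] (hG : Law G) (L a : ℕ) :
    ∀ᶠ ζ : ℕ in atTop, ∀ (Y : Finset ℤ) (T : ℤ → Finset E) (St : ℤ → Finset V)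
      (lab : (ℕ → V) → ℤ) (x o : V) (b J M : ℕ) (w θ : ℝ), ζ ≤ b → 1 ≤ J → 1 ≤ M → 0 < w →
      0 < θ → Y.card ≤ ζ ^ a → (∀ y ∈ Y, (St y).card ≤ ζ ^ a ∧ (T y).card ≤ M) →
      ((J : ℝ) * w * ζ) ^ 2 * M ≤ (b : ℝ) ^ 2 →
      PP G {ω | ACev Y T St lab x o L b w ω} ≤
        ENNReal.ofReal (2 * Y.card * θ ^ 1000 + ((J : ℝ) * θ)⁻¹ + ((ζ : ℝ) ^ 5000)⁻¹) := by
  classical
  have hΘ : (1 : ℝ) ≤ 16 ^ (2 * L + 2) := one_le_pow₀ (by norm_num)
  obtain ⟨Sg, δ, lam, Jf, mS, hS, hε, hδ, hL⟩ := exists_lowF G hG.2.2 hG.1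
    (ε := ((16 : ℝ) ^ (2 * L + 2))⁻¹) (by positivity)
  filter_upwards [ACgen_ev (a + a + 5000), eventually_ge_atTop 1,
    tendsto_natCast_atTop_atTop.eventually_ge_atTop (6006 / δ)] with ζ he hζ hζ' Y T St lab x o
    b J M w θ hb hJ hM hw hθ hY hST hnum
  have hζ0 : (0 : ℝ) < ζ := by exact_mod_cast hζ
  have hb0 : (0 : ℝ) < b := by exact_mod_cast lt_of_lt_of_le hζ hb
  have hJ0 : (0 : ℝ) < J := by exact_mod_cast hJ
  have hM1 : (1 : ℝ) ≤ M := by exact_mod_cast hM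
  obtain ⟨Bd, hBd⟩ : ∃ Bd, Bd = Sgᶜ := ⟨_, rfl⟩
  set N0 : ℤ → Set Env := fun y => ⋃ v ∈ St y, {ω | ∃ (p : ℕ → V) (k : ℕ), k ≤ L * b ∧
    Chain p k ∧ SA p k ∧ p 0 = v ∧
      (b + 1) / 2 ≤ ((Finset.range k).filter (fun i => ω (ed p i) ∈ Bd)).card} with hN0
  set A : ℤ → Set Env := fun y =>
    {ω | ACev {y} T St lab x o L b w ω} \ toMeasurable (PP G) (N0 y) with hA
  have mA : ∀ y, MeasurableSet (A y) := fun y =>
    (measurableSet_ACev _ _ _ _ _ _ _ _ _).diff (measurableSet_toMeasurable _ _)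
  set τ : ℕ → ℝ := fun j => 3 * j * w / (δ * b) with hτ
  have τ0 : ∀ j, 0 ≤ τ j := fun j => by positivity
  have τM : ∀ j < J, (M : ℝ) * (2002 * τ j) ^ 2 ≤ 1 := by
    intro j hj
    have h1 : (j : ℝ) ≤ J := by exact_mod_cast hj.le
    have h2 : 2002 * τ j ≤ J * w * ζ / b := by
      rw [hτ, le_div_iff₀ hb0]
      have e : 2002 * (3 * (j : ℝ) * w / (δ * b)) * b = j * w * (6006 / δ) := by
        field_simp
        ring
      rw [e]
      gcongr
    have h3 : (2002 * τ j) ^ 2 ≤ (J * w * ζ / b) ^ 2 :=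
      pow_le_pow_left₀ (by have := τ0 j; positivity) h2 2
    refine (mul_le_mul_of_nonneg_left h3 (by positivity)).trans ?_
    rw [div_pow, ← mul_div_assoc, div_le_one (by positivity), mul_comm]
    exact hnum
  have τ1 : ∀ j < J, 2002 * τ j ≤ 1 := by
    intro j hj
    have h1 := τM j hj
    have h2 := τ0 j
    nlinarith [mul_le_mul_of_nonneg_right hM1 (sq_nonneg (2002 * τ j))]
  have τh : ∀ j < J, τ j ≤ 1 / 2 := fun j hj => by linarith [τ1 j hj, τ0 j]
  set B : ℤ × ℕ → Set Env := fun z => lowS (lam (τ z.2)) (T z.1) ⁻¹' A z.1 with hB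
  have mB : ∀ z, MeasurableSet (B z) := fun z => measurable_lowS (hL.mlam _) _ (mA _)
  have hAB : ∀ y ∈ Y, ∀ j < J,
      (PP G).real (A y) ≤ 2 * θ ^ 1000 + θ⁻¹ * (PP G).real (B (y, j)) := by
    intro y hy j hj
    refine ACgen_dich measureReal_nonneg measureReal_nonneg hθ 1000 ?_
    have h1 := mw_low G hL (τ0 j) (τh j hj) (k := 1000)
      (by push_cast; linarith [τ1 j hj, τ0 j]) (T y) (mA y)
    have h2 := ENNReal.toReal_mono (by finiteness) h1
    rw [ENNReal.toReal_pow, ENNReal.toReal_mul, ENNReal.toReal_pow, ENNReal.toReal_pow,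
      ENNReal.toReal_ofReal (by positivity)] at h2
    refine h2.trans (mul_le_mul_of_nonneg_left (ACgen_two (by positivity) ?_)
      (pow_nonneg measureReal_nonneg _))
    have h3 : ((T y).card : ℝ) ≤ M := by exact_mod_cast (hST y hy).2
    refine (mul_le_mul_of_nonneg_right h3 (by positivity)).trans ?_
    have h4 := τM j hj
    push_cast
    nlinarith
  have hdisj : ∑ z ∈ Y ×ˢ Finset.range J, (PP G).real (B z) ≤ 1 := by
    have key : ∀ z ∈ Y ×ˢ Finset.range J, ∀ z' ∈ Y ×ˢ Finset.range J, z.2 ≤ z'.2 → z ≠ z' →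
        AEDisjoint (PP G) (B z) (B z') := by
      rintro ⟨y, j⟩ hz ⟨y', j'⟩ hz' hle hne
      have hj := Finset.mem_range.1 (Finset.mem_product.1 hz).2
      have hj' := Finset.mem_range.1 (Finset.mem_product.1 hz').2
      refine measure_mono_null ?_ (ae_iff.1 (ae_nice G hG))
      rintro ω ⟨⟨a1, -⟩, a2, a3⟩ hn
      obtain ⟨e, hh⟩ := ACgen_disj hBd hS hδ hL hw hn (τ0 j) (τh j hj) (τ0 j') (τh j' hj') a1 a2
      have hlt : j + 1 ≤ j' := lt_of_le_of_ne hle fun e' => hne (Prod.ext e e')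
      have hlt' : (j : ℝ) + 1 ≤ j' := by exact_mod_cast hlt
      obtain ⟨v, hv, hp⟩ := hh (by
        have e : δ * (τ j' - τ j) * b = 3 * w * (j' - j) := by
          simp only [hτ]
          field_simp
        rw [e]
        nlinarith)
      exact a3 (subset_toMeasurable _ _ (mem_biUnion hv hp))
    have h1 := measure_biUnion_finset₀ (μ := PP G) (s := Y ×ˢ Finset.range J) (f := B)
      (fun z hz z' hz' hne => (le_total z.2 z'.2).elim (fun h => key z hz z' hz' h hne)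
        fun h => (key z' hz' z hz h hne.symm).symm) (fun z _ => (mB z).nullMeasurableSet)
    have h2 : ∑ z ∈ Y ×ˢ Finset.range J, (PP G).real (B z) =
        (PP G).real (⋃ z ∈ Y ×ˢ Finset.range J, B z) := by
      simp only [Measure.real]
      rw [h1, ENNReal.toReal_sum fun z _ => measure_ne_top _ _]
    rw [h2]
    exact measureReal_le_one
  have hsum : ∑ y ∈ Y, (PP G).real (A y) ≤ 2 * Y.card * θ ^ 1000 + ((J : ℝ) * θ)⁻¹ := by
    have h1 : ∑ z ∈ Y ×ˢ Finset.range J, (PP G).real (A z.1) ≤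
        ∑ z ∈ Y ×ˢ Finset.range J, (2 * θ ^ 1000 + θ⁻¹ * (PP G).real (B z)) :=
      Finset.sum_le_sum fun z hz => hAB z.1 (Finset.mem_product.1 hz).1 z.2
        (Finset.mem_range.1 (Finset.mem_product.1 hz).2)
    rw [Finset.sum_add_distrib, ← Finset.mul_sum _ _ θ⁻¹, Finset.sum_const, Finset.card_product,
      Finset.card_range, Finset.sum_product] at h1
    simp only [Finset.sum_const, Finset.card_range, nsmul_eq_mul, ← Finset.mul_sum] at h1
    have h2 : θ⁻¹ * ∑ z ∈ Y ×ˢ Finset.range J, (PP G).real (B z) ≤ θ⁻¹ :=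
      mul_le_of_le_one_right (by positivity) hdisj
    generalize θ ^ 1000 = t at *
    refine le_of_mul_le_mul_left ?_ hJ0
    have e : (J : ℝ) * (2 * Y.card * t + ((J : ℝ) * θ)⁻¹) = Y.card * J * (2 * t) + θ⁻¹ := by
      field_simp
    rw [e]
    push_cast at h1
    linarith
  have hN : ∀ y ∈ Y, (PP G).real (N0 y) ≤ (ζ : ℝ) ^ a * ((16 : ℝ) ^ ζ)⁻¹ := by
    intro y hy
    refine (measureReal_biUnion_finset_le _ _).trans
      ((Finset.sum_le_card_nsmul _ _ (((16 : ℝ) ^ ζ)⁻¹) fun v _ => ?_).trans ?_)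
    · refine ENNReal.toReal_le_of_le_ofReal (by positivity)
        ((pathcount G (Bd := Bd) (hBd ▸ mS.compl) hΘ (hBd ▸ hε) v (L * b) ((b + 1) / 2)).trans
          (ENNReal.ofReal_le_ofReal ((ACgen_pc L b).trans ?_)))
      exact inv_anti₀ (by positivity) (pow_le_pow_right₀ (by norm_num) hb)
    · rw [nsmul_eq_mul]
      have : ((St y).card : ℝ) ≤ (ζ : ℝ) ^ a := by exact_mod_cast (hST y hy).1
      gcongr
  have hNs : ∑ y ∈ Y, (PP G).real (N0 y) ≤ ((ζ : ℝ) ^ 5000)⁻¹ := by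
    refine (Finset.sum_le_card_nsmul _ _ _ hN).trans ?_
    have : (Y.card : ℝ) ≤ (ζ : ℝ) ^ a := by exact_mod_cast hY
    rw [nsmul_eq_mul]
    refine (mul_le_mul_of_nonneg_right this (by positivity)).trans ?_
    rw [pow_add, pow_add] at he
    have h5 : (0 : ℝ) < (ζ : ℝ) ^ 5000 := pow_pos hζ0 _
    generalize (ζ : ℝ) ^ 5000 = t at *
    rw [← mul_assoc, ← div_eq_mul_inv, div_le_iff₀ (by positivity), inv_mul_eq_div,
      le_div_iff₀ h5]
    exact he
  have hsub : {ω | ACev Y T St lab x o L b w ω} ⊆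
      ⋃ y ∈ Y, (A y ∪ toMeasurable (PP G) (N0 y)) := by
    rintro ω ⟨y, hy, hh⟩
    exact mem_biUnion hy (subset_sdiff_union _ _ ⟨y, Finset.mem_singleton_self y, hh⟩)
  rw [← ofReal_measureReal (measure_ne_top _ _)]
  refine ENNReal.ofReal_le_ofReal ((measureReal_mono hsub (measure_ne_top _ _)).trans
    ((measureReal_biUnion_finset_le _ _).trans ?_))
  refine (Finset.sum_le_sum (g := fun y => (PP G).real (A y) + (PP G).real (N0 y))
    fun y _ => (measureReal_union_le _ _).trans (le_of_eq ?_)).trans ?_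
  · simp only [Measure.real, measure_toMeasurable]
  · rw [Finset.sum_add_distrib]
    exact add_le_add hsum hNs

end Pool.Agent.FPP
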