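import Pool.Agent.P.MP_ecb9f8_pr.Defs

open MeasureTheory ProbabilityTheory Set Filter

noncomputable section

namespace Pool.Agent.FPP

theorem AS_int {Ω : Type*} [MeasurableSpace Ω] (μ : Measure Ω) [IsProbabilityMeasure μ]
    {Y : Ω → ℝ} (mY : Measurable Y) {B : ℝ} (hB : ∀ ω, |Y ω| ≤ B) (l : ℝ) :
    Integrable (fun ω => Real.exp (l * Y ω)) μ := by
  refine Integrable.of_bound (C := Real.exp (|l| * B)) (by fun_prop) (ae_of_all _ fun ω => ?_)
  rw [Real.norm_eq_abs, Real.abs_exp, Real.exp_le_exp]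
  refine (le_abs_self _).trans ?_
  rw [abs_mul]
  exact mul_le_mul_of_nonneg_left (hB ω) (abs_nonneg _)

theorem AS_small {Ω : Type*} [MeasurableSpace Ω] (μ : Measure Ω) [IsProbabilityMeasure μ]
    {Y : Ω → ℝ} (mY : Measurable Y) {B : ℝ} (hB : ∀ ω, |Y ω| ≤ B) (h0 : ∫ ω, Y ω ∂μ = 0) {s : ℝ}
    (hs : |s| * B ≤ 1) : ∫ ω, Real.exp (s * Y ω) ∂μ ≤ 1 + s ^ 2 * B ^ 2 := by
  have iY : Integrable Y μ :=
    Integrable.of_bound (C := B) mY.aestronglyMeasurable (ae_of_all _ fun ω => hB ω)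
  have i1 : Integrable (fun ω => (1 + s ^ 2 * B ^ 2) + s * Y ω) μ :=
    (integrable_const _).add (iY.const_mul s)
  have h1 : ∫ ω, Real.exp (s * Y ω) ∂μ ≤ ∫ ω, ((1 + s ^ 2 * B ^ 2) + s * Y ω) ∂μ := by
    refine integral_mono (AS_int μ mY hB s) i1 fun ω => ?_
    have e1 : |s * Y ω| ≤ |s| * B := by
      rw [abs_mul]
      exact mul_le_mul_of_nonneg_left (hB ω) (abs_nonneg _)
    have e2 := (le_abs_self _).trans (Real.abs_exp_sub_one_sub_id_le (e1.trans hs))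
    have e3 : (s * Y ω) ^ 2 ≤ s ^ 2 * B ^ 2 := by
      rw [← sq_abs (s * Y ω), ← sq_abs s, ← mul_pow]
      exact pow_le_pow_left₀ (abs_nonneg _) e1 2
    change Real.exp (s * Y ω) ≤ (1 + s ^ 2 * B ^ 2) + s * Y ω
    linarith
  rw [integral_add (integrable_const _) (iY.const_mul s), integral_const_mul, h0] at h1
  simpa using h1

theorem AS_iter {M : ℝ → ℝ} (hM : ∀ l, 0 < M l) {κ l₀ : ℝ} (hκ : 0 ≤ κ)
    (h : ∀ l : ℝ, |l| ≤ l₀ → M l - M (l / 2) ^ 2 ≤ κ * l ^ 2 * M l) (j : ℕ) :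
    ∀ l : ℝ, |l| ≤ l₀ → κ * l ^ 2 ≤ 1 / 4 →
      Real.log (M l) ≤ 2 ^ j * Real.log (M (l / 2 ^ j)) + 8 / 3 * (κ * l ^ 2) := by
  induction j with
  | zero =>
    intro l _ _
    have : 0 ≤ κ * l ^ 2 := by positivity
    simp only [pow_zero, div_one, one_mul]
    linarith
  | succ j ih =>
    intro l hl hl2
    have ha : 0 ≤ κ * l ^ 2 := by positivity
    have e0 : κ * (l / 2) ^ 2 = κ * l ^ 2 / 4 := by ring
    have e1 := ih (l / 2) (by
      rw [abs_div, abs_two]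
      linarith [abs_nonneg l]) (by linarith)
    have e2 : l / 2 / 2 ^ j = l / 2 ^ (j + 1) := by
      rw [div_div, pow_succ']
    rw [e2, e0] at e1
    have e3 := h l hl
    generalize κ * l ^ 2 = a at *
    have e4 : (1 - a) * M l ≤ M (l / 2) ^ 2 := by linarith
    have e5 : 0 < 1 - a := by linarith
    have e6 := Real.log_le_log (mul_pos e5 (hM l)) e4
    rw [Real.log_mul e5.ne' (hM l).ne', Real.log_pow] at e6
    have e7 : -(4 / 3 * a) ≤ Real.log (1 - a) := by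
      refine le_trans ?_ (Real.one_sub_inv_le_log_of_pos e5)
      have : (1 - a)⁻¹ ≤ 1 + 4 / 3 * a := by
        rw [inv_le_iff_one_le_mul₀ e5]
        nlinarith
      linarith
    generalize Real.log (M (l / 2 ^ (j + 1))) = c at *
    rw [pow_succ]
    push_cast at e6
    linarith

/-- from a variance bound for exponentials to an exponential moment -/
theorem aida_stroock {Ω : Type*} [MeasurableSpace Ω] (μ : Measure Ω) [IsProbabilityMeasure μ]
    {X : Ω → ℝ} (mX : Measurable X) {b : ℝ} (hb : ∀ ω, |X ω| ≤ b) {κ l₀ : ℝ} (hκ : 0 ≤ κ)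
    (h : ∀ l : ℝ, |l| ≤ l₀ →
      ∫ ω, Real.exp (l * X ω) ∂μ - (∫ ω, Real.exp (l / 2 * X ω) ∂μ) ^ 2 ≤
        κ * l ^ 2 * ∫ ω, Real.exp (l * X ω) ∂μ)
    {l : ℝ} (hl : |l| ≤ l₀) (hl2 : κ * l ^ 2 ≤ 1 / 4) :
    ∫ ω, Real.exp (l * (X ω - ∫ ω', X ω' ∂μ)) ∂μ ≤ 3 := by
  set m := ∫ ω', X ω' ∂μ with hm
  have iX : Integrable X μ :=
    Integrable.of_bound (C := b) mX.aestronglyMeasurable (ae_of_all _ fun ω => hb ω)
  have mY : Measurable fun ω => X ω - m := mX.sub_const m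
  have hB : ∀ ω, |X ω - m| ≤ b + |m| := fun ω => (abs_sub _ _).trans (by linarith [hb ω])
  have h0 : ∫ ω, (X ω - m) ∂μ = 0 := by
    rw [integral_sub iX (integrable_const _)]
    simp [hm]
  let M : ℝ → ℝ := fun s => ∫ ω, Real.exp (s * (X ω - m)) ∂μ
  have hM : ∀ s, 0 < M s := fun s => integral_exp_pos (AS_int μ mY hB s)
  have hMe : ∀ s, M s = Real.exp (-(s * m)) * ∫ ω, Real.exp (s * X ω) ∂μ := by
    intro s
    rw [← integral_const_mul]
    refine integral_congr_ae (ae_of_all _ fun ω => ?_)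
    simp only [← Real.exp_add]
    congr 1
    ring
  have hrec : ∀ s : ℝ, |s| ≤ l₀ → M s - M (s / 2) ^ 2 ≤ κ * s ^ 2 * M s := by
    intro s hs
    have e1 := mul_le_mul_of_nonneg_left (h s hs) (Real.exp_pos (-(s * m))).le
    have e2 : Real.exp (-(s / 2 * m)) ^ 2 = Real.exp (-(s * m)) := by
      rw [sq, ← Real.exp_add]
      congr 1
      ring
    rw [hMe, hMe, mul_pow, e2]
    linarith
  set B := b + |m| with hBd
  obtain ⟨j, hj⟩ := pow_unbounded_of_one_lt (|l| * B + 3 * (l ^ 2 * B ^ 2) + |(|l| * B)|)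
    (one_lt_two (α := ℝ))
  have hp : (0 : ℝ) < 2 ^ j := by positivity
  have hq : 0 ≤ l ^ 2 * B ^ 2 := by positivity
  have e1 := AS_iter hM hκ hrec j l hl hl2
  have e2 : M (l / 2 ^ j) ≤ 1 + (l / 2 ^ j) ^ 2 * B ^ 2 := by
    refine AS_small μ mY hB h0 ?_
    rw [abs_div, abs_of_pos hp, div_mul_eq_mul_div, div_le_one hp]
    linarith [abs_nonneg (|l| * B)]
  have e3 : Real.log (M (l / 2 ^ j)) ≤ (l / 2 ^ j) ^ 2 * B ^ 2 := by
    linarith [Real.log_le_sub_one_of_pos (hM (l / 2 ^ j))]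
  have e4 : 2 ^ j * ((l / 2 ^ j) ^ 2 * B ^ 2) ≤ 1 / 3 := by
    have : (2 : ℝ) ^ j * ((l / 2 ^ j) ^ 2 * B ^ 2) = l ^ 2 * B ^ 2 / 2 ^ j := by
      field_simp
    rw [this, div_le_iff₀ hp]
    linarith [neg_abs_le (|l| * B)]
  have e5 : Real.log (M l) ≤ 1 := by
    have := mul_le_mul_of_nonneg_left e3 hp.le
    linarith
  have e6 : M l ≤ Real.exp 1 := by
    rwa [← Real.log_le_iff_le_exp (hM l)]
  exact e6.trans (Real.exp_one_lt_d9.le.trans (by norm_num))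

theorem aida_stroock_tail {Ω : Type*} [MeasurableSpace Ω] (μ : Measure Ω) [IsProbabilityMeasure μ]
    {X : Ω → ℝ} (mX : Measurable X) {b : ℝ} (hb : ∀ ω, |X ω| ≤ b) {κ l₀ : ℝ} (hκ : 0 ≤ κ)
    (h : ∀ l : ℝ, |l| ≤ l₀ →
      ∫ ω, Real.exp (l * X ω) ∂μ - (∫ ω, Real.exp (l / 2 * X ω) ∂μ) ^ 2 ≤
        κ * l ^ 2 * ∫ ω, Real.exp (l * X ω) ∂μ)
    {l : ℝ} (h0 : 0 ≤ l) (hl : l ≤ l₀) (hl2 : κ * l ^ 2 ≤ 1 / 4) (t : ℝ) :
    μ {ω | t ≤ |X ω - ∫ ω', X ω' ∂μ|} ≤ ENNReal.ofReal (6 * Real.exp (-(l * t))) := by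
  have a1 := aida_stroock μ mX hb hκ h (l := l) (by rwa [abs_of_nonneg h0]) hl2
  have a2 := aida_stroock μ mX hb hκ h (l := -l) (by rwa [abs_neg, abs_of_nonneg h0])
    (by rwa [neg_sq])
  set m := ∫ ω', X ω' ∂μ with hm
  have mY : Measurable fun ω => X ω - m := mX.sub_const m
  have hB : ∀ ω, |X ω - m| ≤ b + |m| := fun ω => (abs_sub _ _).trans (by linarith [hb ω])
  have b1 := measure_ge_le_exp_mul_mgf (μ := μ) (X := fun ω => X ω - m) t h0 (AS_int μ mY hB l)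
  have b2 := measure_le_le_exp_mul_mgf (μ := μ) (X := fun ω => X ω - m) (-t) (neg_nonpos.2 h0)
    (AS_int μ mY hB (-l))
  have hsub : {ω | t ≤ |X ω - m|} ⊆ {ω | t ≤ X ω - m} ∪ {ω | X ω - m ≤ -t} := by
    intro ω hω
    rcases le_abs.1 (show t ≤ |X ω - m| from hω) with e | e
    · exact Or.inl e
    · exact Or.inr (show X ω - m ≤ -t by linarith)
  have c1 : μ.real {ω | t ≤ |X ω - m|} ≤ 6 * Real.exp (-(l * t)) := by
    refine (measureReal_mono hsub).trans ((measureReal_union_le _ _).trans ?_)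
    have e1 : -l * t = -(l * t) := by ring
    have e2 : - -l * -t = -(l * t) := by ring
    rw [e1] at b1
    rw [e2] at b2
    have hE := Real.exp_pos (-(l * t))
    have d1 := mul_le_mul_of_nonneg_left a1 hE.le
    have d2 := mul_le_mul_of_nonneg_left a2 hE.le
    simp only [mgf] at b1 b2
    linarith
  rw [← ofReal_measureReal]
  exact ENNReal.ofReal_le_ofReal c1

end Pool.Agent.FPP
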