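import Pool.Agent.P.MP_ecb9f8_pr.Defs2

open MeasureTheory ProbabilityTheory Set Filter

noncomputable section

namespace Pool.Agent.FPP

variable (G : Measure ℝ) [IsProbabilityMeasure G]

theorem LBAp_sdc (p : ℕ → V) (k : ℕ) (q : ℕ → V) (l : ℕ) : sdc p k q l ≤ k + l := by
  classical
  unfold sdc
  refine le_trans (Finset.card_le_card (symmDiff_le_sup)) ?_
  refine le_trans (Finset.card_union_le _ _) (add_le_add ?_ ?_)
  · exact le_trans Finset.card_image_le (by simp)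
  · exact le_trans Finset.card_image_le (by simp)

/-- pairs of points of the box of radius `K` -/
def LBAp_box (K : ℕ) : Finset (V × V) :=
  (Finset.Icc (-(K : ℤ)) K ×ˢ Finset.Icc (-(K : ℤ)) K) ×ˢ
    (Finset.Icc (-(K : ℤ)) K ×ˢ Finset.Icc (-(K : ℤ)) K)

theorem LBAp_mem {K : ℕ} {x y : V} : (x, y) ∈ LBAp_box K ↔ nm x ≤ (K : ℤ) ∧ nm y ≤ (K : ℤ) := by
  simp only [LBAp_box, Finset.mem_product, Finset.mem_Icc, nm_le_iff, abs_le]

theorem LBAp_card (K : ℕ) : (LBAp_box K).card = (2 * K + 1) ^ 4 := by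
  have h : (Finset.Icc (-(K : ℤ)) K).card = 2 * K + 1 := by
    rw [Int.card_Icc]
    omega
  rw [LBAp_box, Finset.card_product, Finset.card_product, h]
  ring

theorem LBAp_exp (C : ℝ) (k : ℕ) :
    ∀ᶠ z : ℕ in atTop, C * ((2 : ℝ) ^ z)⁻¹ ≤ ((z : ℝ) ^ k)⁻¹ := by
  filter_upwards [ev_exp (Real.log_pos one_lt_two) C k] with z hz
  rwa [Real.exp_neg, mul_comm (Real.log 2), Real.exp_nat_mul, Real.exp_log two_pos] at hz

theorem LBAp_poly : ∀ᶠ K : ℕ in atTop, (((2 * K + 1) ^ 4 : ℕ) : ℝ) ≤ 2 ^ K := by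
  filter_upwards [LBAp_exp 81 4, eventually_ge_atTop 1] with K hK h1
  have h1' : (1 : ℝ) ≤ K := by exact_mod_cast h1
  rw [← div_eq_mul_inv, ← one_div, div_le_div_iff₀ (by positivity) (by positivity), one_mul] at hK
  refine le_trans ?_ hK
  push_cast
  calc (2 * (K : ℝ) + 1) ^ 4 ≤ (3 * K) ^ 4 := pow_le_pow_left₀ (by positivity) (by linarith) 4
    _ = 81 * (K : ℝ) ^ 4 := by ring

theorem sp_lba (hG : Law G) :
    ∃ Λ₀ : ℕ, ∀ Λ : ℕ, Λ₀ ≤ Λ → ∀ k : ℕ, ∀ᶠ z : ℕ in atTop, ∀ u : V,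
      PP G {ω | ¬ LBA Λ z u ω} ≤ ENNReal.ofReal (((z : ℝ) ^ k)⁻¹) := by
  obtain ⟨L, β, hL, -, hl⟩ := len_pt G hG
  obtain ⟨K₀, hK₀⟩ := eventually_atTop.1 LBAp_poly
  refine ⟨2 * L, fun Λ hΛ k => ?_⟩
  filter_upwards [LBAp_exp 4 k, eventually_ge_atTop K₀] with z hz hz0 u
  have m0 : PP G {ω | ¬ ∀ e, 0 < ω e} = 0 := ae_iff.1 (ae_pos G hG)
  have hsub : {ω | ¬ LBA Λ z u ω} ⊆ {ω | ¬ ∀ e, 0 < ω e} ∪ ⋃ j : ℕ, ⋃ i ∈ LBAp_box (z + j),
      {ω | ¬ LenOK ω (i.1 + u) (i.2 + u) (L * (2 * (z + j))) ((β : ℝ) * (2 * (z + j) : ℕ))} := by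
    intro ω hω
    by_contra hn
    rw [mem_union, not_or] at hn
    refine hω fun p m K hg h1 h2 h3 => ?_
    obtain ⟨j, rfl⟩ := Nat.exists_eq_add_of_le h1
    have h4 : LenOK ω (p 0) (p m) (L * (2 * (z + j))) ((β : ℝ) * (2 * (z + j) : ℕ)) := by
      by_contra h4
      refine hn.2 (mem_iUnion.2 ⟨j, mem_iUnion₂.2 ⟨(p 0 - u, p m - u), LBAp_mem.2 ⟨h2, h3⟩, ?_⟩⟩)
      simpa only [sub_add_cancel, mem_ofPred_eq] using h4
    have h5 := nm_sub_le (p m - u) (p 0 - u)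
    rw [sub_sub_sub_cancel_right] at h5
    have h6 := abs_fst_le_nm (p m - p 0)
    have h7 := abs_snd_le_nm (p m - p 0)
    rw [Prod.fst_sub] at h6
    rw [Prod.snd_sub] at h7
    have h8 : 2 * (2 * (z + j)) ≤ L * (2 * (z + j)) := Nat.mul_le_mul_right _ hL
    have h9 := LenOK.len_lt h4 (by omega) (not_not.1 hn.1) hg
    refine h9.le.trans ?_
    rw [← mul_assoc, mul_comm L]
    exact Nat.mul_le_mul_right _ hΛ
  have hs : HasSum (fun j : ℕ => 2 * ((2 : ℝ) ^ z)⁻¹ * (1 / 2) ^ j) (2 * ((2 : ℝ) ^ z)⁻¹ * 2) :=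
    hasSum_geometric_two.mul_left _
  refine (measure_mono hsub).trans ((measure_union_le _ _).trans ?_)
  rw [m0, zero_add]
  refine (measure_iUnion_le _).trans (le_trans (ENNReal.tsum_le_tsum (g := fun j : ℕ =>
    ENNReal.ofReal (2 * ((2 : ℝ) ^ z)⁻¹ * (1 / 2) ^ j)) fun j => ?_) ?_)
  · refine (measure_biUnion_finset_le _ _).trans ((Finset.sum_le_card_nsmul _ _
      (ENNReal.ofReal (2 * ((2 : ℝ) ^ (2 * (z + j)))⁻¹)) fun i hi => hl _ _ _ ?_).trans ?_)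
    · obtain ⟨h1, h2⟩ := LBAp_mem.1 hi
      have h3 := nm_sub_le i.2 i.1
      rw [add_sub_add_right_eq_sub]
      omega
    · rw [nsmul_eq_mul, ← ENNReal.ofReal_natCast, ← ENNReal.ofReal_mul (Nat.cast_nonneg _),
        LBAp_card]
      refine ENNReal.ofReal_le_ofReal ?_
      refine (mul_le_mul_of_nonneg_right (hK₀ (z + j) (by omega)) (by positivity)).trans_eq ?_
      rw [two_mul (z + j), pow_add (2 : ℝ) (z + j), pow_add, one_div, inv_pow]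
      field_simp
  · rw [← ENNReal.ofReal_tsum_of_nonneg (fun j => by positivity) hs.summable, hs.tsum_eq]
    exact ENNReal.ofReal_le_ofReal (by linarith)

theorem short_gen (hG : Law G) (k : ℕ) :
    ∀ᶠ z : ℕ in atTop, ∀ (x y : V) (K : ℕ), z ^ 2 ≤ K → nm (y - x) ≤ (K : ℤ) →
      PP G {ω | (z : ℝ) * K < d ω x y} ≤ ENNReal.ofReal (((z : ℝ) ^ k)⁻¹) := by
  obtain ⟨c, C, hc, -, h⟩ := conc G hG
  obtain ⟨M, hM, -, hm⟩ := moment_d G hG
  filter_upwards [ev_exp hc C k, tendsto_natCast_atTop_atTop.eventually_ge_atTop (M + 2)]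
    with z hz hzM x y K h1 h2
  have h3 : z ≤ Nat.sqrt K := Nat.le_sqrt'.2 h1
  have h4 : K < (Nat.sqrt K + 1) ^ 2 := Nat.lt_succ_sqrt' K
  have h5 : Nat.sqrt K ^ 2 ≤ K := Nat.sqrt_le' K
  have h6 : z * (Nat.sqrt K + 1) ≤ 2 * K := by
    have a1 : z * Nat.sqrt K ≤ Nat.sqrt K ^ 2 := by
      rw [sq]
      exact Nat.mul_le_mul_right _ h3
    have a2 : z ≤ z ^ 2 := Nat.le_self_pow two_ne_zero z
    rw [mul_add]
    omega
  have h7 : nm (y - x) ≤ ((Nat.sqrt K + 1 : ℕ) : ℤ) ^ 2 := h2.trans (by exact_mod_cast h4.le)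
  refine le_trans (measure_mono fun ω hω => ?_) ((h _ x y h7 z (Nat.cast_nonneg _)
    (by exact_mod_cast h3.trans (Nat.le_succ _))).trans (ENNReal.ofReal_le_ofReal hz))
  have a1 : (z : ℝ) * K < d ω x y := hω
  have a2 : (z : ℝ) * (Nat.sqrt K + 1 : ℕ) ≤ 2 * K := by exact_mod_cast h6
  have a3 : (nm (y - x) : ℝ) ≤ K := by exact_mod_cast h2
  have a4 := (hm (y - x)).trans (mul_le_mul_of_nonneg_left a3 (by linarith))
  have a5 := mul_le_mul_of_nonneg_right hzM (Nat.cast_nonneg (α := ℝ) K)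
  show (z : ℝ) * (Nat.sqrt K + 1 : ℕ) < |d ω x y - g G (y - x)|
  refine lt_of_lt_of_le ?_ (le_abs_self _)
  linarith

/-- the small lengths, for a general exponent -/
theorem far_small2 (hG : Law G) (A : ℕ) (hA : 1 ≤ A) :
    ∀ᶠ h : ℕ in atTop, ∀ n : ℕ, n ≤ h ^ A →
      PP G {ω | Far n h (h ^ (A + 1)) ω} ≤ ENNReal.ofReal (10 * (h : ℝ)⁻¹) := by
  obtain ⟨Λ, β, hΛ, -, hl⟩ := len_pt G hG
  filter_upwards [eventually_ge_atTop (2 * Λ)] with h hh n hn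
  have hK : h ≤ h ^ A := Nat.le_self_pow (by omega) _
  have hR : h ^ (A + 1) = h * h ^ A := pow_succ' h A
  rw [hR]
  generalize h ^ A = K at *
  have hn' : (n : ℤ) ≤ K := by exact_mod_cast hn
  have hK' : (h : ℤ) ≤ K := by exact_mod_cast hK
  have hΛ' : (2 : ℤ) ≤ Λ := by exact_mod_cast hΛ
  have m1 := hl K 0 ((n : ℤ), 0) (by simp [nm, hn])
  have m2 := hl K 0 ((n : ℤ), (h : ℤ)) (by simp [nm, hn, hK])
  have m0 : PP G {ω | ¬ ∀ e, 0 < ω e} = 0 := ae_iff.1 (ae_pos G hG)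
  have hsub : {ω | Far n h (h * K) ω} ⊆ {ω | ¬ ∀ e, 0 < ω e} ∪
      {ω | ¬ LenOK ω 0 ((n : ℤ), 0) (Λ * K) ((β : ℝ) * K)} ∪
      {ω | ¬ LenOK ω 0 ((n : ℤ), (h : ℤ)) (Λ * K) ((β : ℝ) * K)} := by
    intro ω hω
    by_contra hcon
    simp only [mem_union, mem_ofPred_eq, not_or, not_not] at hcon
    obtain ⟨⟨g1, g2⟩, g3⟩ := hcon
    obtain ⟨p, k, q, l, hp, hq, p0, q0, pk, ql, hR⟩ := hω
    have hK0 : (0 : ℤ) ≤ K := by positivity
    have l1 : k < Λ * K := by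
      refine LenOK.len_lt (by rw [p0, pk]; exact g2) ?_ g1 hp
      rw [p0, pk]; simp; nlinarith
    have l2 : l < Λ * K := by
      refine LenOK.len_lt (by rw [q0, ql]; exact g3) ?_ g1 hq
      rw [q0, ql]; simp; nlinarith
    have s1 := LBAp_sdc p k q l
    have : 2 * Λ * K ≤ h * K := Nat.mul_le_mul_right _ hh
    nlinarith
  have hh0 : (0 : ℝ) < h := by exact_mod_cast (by omega : 0 < h)
  have h2 : ((2 : ℝ) ^ K)⁻¹ ≤ (h : ℝ)⁻¹ := by
    apply inv_anti₀ hh0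
    have : h < 2 ^ K := lt_of_le_of_lt hK Nat.lt_two_pow_self
    exact_mod_cast this.le
  calc PP G {ω | Far n h (h * K) ω} ≤ _ := measure_mono hsub
    _ ≤ PP G {ω | ¬ ∀ e, 0 < ω e} +
          PP G {ω | ¬ LenOK ω 0 ((n : ℤ), 0) (Λ * K) ((β : ℝ) * K)} +
          PP G {ω | ¬ LenOK ω 0 ((n : ℤ), (h : ℤ)) (Λ * K) ((β : ℝ) * K)} := by
        refine le_trans (measure_union_le _ _) (add_le_add ?_ le_rfl)
        exact measure_union_le _ _
    _ ≤ 0 + ENNReal.ofReal (2 * ((2 : ℝ) ^ K)⁻¹) + ENNReal.ofReal (2 * ((2 : ℝ) ^ K)⁻¹) := by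
        rw [m0]; gcongr
    _ ≤ ENNReal.ofReal (10 * (h : ℝ)⁻¹) := by
        rw [zero_add, ← ENNReal.ofReal_add (by positivity) (by positivity)]
        apply ENNReal.ofReal_le_ofReal
        have : (0 : ℝ) ≤ (h : ℝ)⁻¹ := by positivity
        linarith

end Pool.Agent.FPP
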