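import Pool.Agent.P.MP_ecb9f8_pr.NRF

open MeasureTheory ProbabilityTheory Set Filter

noncomputable section

namespace Pool.Agent.FPP

theorem TCex_norm (v : V) : ‖rv v‖ = (nm v : ℝ) := by
  simp [rv, nm, Prod.norm_def]

theorem TCex_rv_add (u v : V) : rv (u + v) = rv u + rv v := by
  simp [rv]

theorem TCex_rv_sub (u v : V) : rv (u - v) = rv u - rv v := by
  simp [rv]

theorem TCex_rv_neg (v : V) : rv (-v) = -rv v := by
  simp [rv]

theorem TCex_rv_smul (k : ℕ) (v : V) : rv (k • v) = (k : ℝ) • rv v := by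
  simp [rv]

/-- an even subadditive function of linear growth -/
structure TCexSub (f : V → ℝ) (C : ℝ) : Prop where
  nonneg : ∀ v, 0 ≤ f v
  add : ∀ u v, f (u + v) ≤ f u + f v
  neg : ∀ v, f (-v) = f v
  le : ∀ v, f v ≤ C * ‖rv v‖
  pos : 0 ≤ C

/-- the competitors -/
def TCexVal (f : V → ℝ) (C : ℝ) (x : ℝ × ℝ) (p : ℕ+ × V) : ℝ :=
  f p.2 / (p.1 : ℕ) + C * ‖x - ((p.1 : ℕ) : ℝ)⁻¹ • rv p.2‖

/-- the homogenisation -/
def TCexN (f : V → ℝ) (C : ℝ) (x : ℝ × ℝ) : ℝ := ⨅ p, TCexVal f C x p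

namespace TCexSub

variable {f : V → ℝ} {C : ℝ} (h : TCexSub f C)
include h

theorem zero : f 0 = 0 := le_antisymm (by simpa [rv] using h.le 0) (h.nonneg 0)

theorem smul (k : ℕ) (v : V) : f (k • v) ≤ k * f v := by
  induction k with
  | zero => simp [h.zero]
  | succ k ih =>
    rw [succ_nsmul]
    have := h.add (k • v) v
    push_cast
    linarith

theorem val_nonneg (x : ℝ × ℝ) (p : ℕ+ × V) : 0 ≤ TCexVal f C x p :=
  add_nonneg (div_nonneg (h.nonneg _) (Nat.cast_nonneg _)) (mul_nonneg h.pos (norm_nonneg _))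

theorem N_le (x : ℝ × ℝ) (p : ℕ+ × V) : TCexN f C x ≤ TCexVal f C x p :=
  ciInf_le ⟨0, by rintro _ ⟨p, rfl⟩; exact h.val_nonneg x p⟩ p

theorem N_nonneg (x : ℝ × ℝ) : 0 ≤ TCexN f C x := le_ciInf (h.val_nonneg x)

theorem N_norm (x : ℝ × ℝ) : TCexN f C x ≤ C * ‖x‖ := by
  simpa [TCexVal, h.zero, rv, Prod.mk_zero_zero] using h.N_le x (1, 0)

theorem N_add (x y : ℝ × ℝ) : TCexN f C (x + y) ≤ TCexN f C x + TCexN f C y := by
  refine le_ciInf_add_ciInf fun p q => ?_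
  obtain ⟨k, z⟩ := p
  obtain ⟨l, w⟩ := q
  refine (h.N_le _ (k * l, (l : ℕ) • z + (k : ℕ) • w)).trans ?_
  have hk : (0 : ℝ) < (k : ℕ) := by exact_mod_cast k.pos
  have hl : (0 : ℝ) < (l : ℕ) := by exact_mod_cast l.pos
  have h1 : f ((l : ℕ) • z + (k : ℕ) • w) / ((k : ℕ) * (l : ℕ)) ≤ f z / (k : ℕ) + f w / (l : ℕ) := by
    rw [div_add_div _ _ hk.ne' hl.ne']
    refine div_le_div_of_nonneg_right ?_ (by positivity)
    have := h.add ((l : ℕ) • z) ((k : ℕ) • w)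
    have := h.smul l z
    have := h.smul k w
    linarith
  have h2 : x + y - (((k : ℕ) : ℝ) * (l : ℕ))⁻¹ • rv ((l : ℕ) • z + (k : ℕ) • w) =
      (x - ((k : ℕ) : ℝ)⁻¹ • rv z) + (y - ((l : ℕ) : ℝ)⁻¹ • rv w) := by
    rw [TCex_rv_add, TCex_rv_smul, TCex_rv_smul, smul_add, smul_smul, smul_smul,
      show (((k : ℕ) : ℝ) * (l : ℕ))⁻¹ * (l : ℕ) = ((k : ℕ) : ℝ)⁻¹ by field_simp,
      show (((k : ℕ) : ℝ) * (l : ℕ))⁻¹ * (k : ℕ) = ((l : ℕ) : ℝ)⁻¹ by field_simp]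
    abel
  have h3 := mul_le_mul_of_nonneg_left
    (norm_add_le (x - ((k : ℕ) : ℝ)⁻¹ • rv z) (y - ((l : ℕ) : ℝ)⁻¹ • rv w)) h.pos
  simp only [TCexVal, PNat.mul_coe, Nat.cast_mul, h2]
  linarith

theorem N_neg_le (x : ℝ × ℝ) : TCexN f C (-x) ≤ TCexN f C x := by
  refine le_ciInf fun p => (h.N_le _ (p.1, -p.2)).trans_eq ?_
  simp only [TCexVal, h.neg, TCex_rv_neg, smul_neg]
  rw [← neg_sub', norm_neg]

theorem N_zero : TCexN f C 0 = 0 := le_antisymm (by simpa using h.N_norm 0) (h.N_nonneg 0)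

theorem N_nat (k : ℕ) (x : ℝ × ℝ) : TCexN f C ((k : ℝ) • x) ≤ k * TCexN f C x := by
  induction k with
  | zero => simp [h.N_zero]
  | succ k ih =>
    push_cast
    rw [add_smul, one_smul]
    have := h.N_add ((k : ℝ) • x) x
    linarith

theorem N_inv (m : ℕ+) (x : ℝ × ℝ) :
    (m : ℕ) * TCexN f C (((m : ℕ) : ℝ)⁻¹ • x) ≤ TCexN f C x := by
  have hm : (0 : ℝ) < (m : ℕ) := by exact_mod_cast m.pos
  refine le_ciInf fun p => ?_
  obtain ⟨k, z⟩ := p
  have hk : (0 : ℝ) < (k : ℕ) := by exact_mod_cast k.pos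
  refine (mul_le_mul_of_nonneg_left (h.N_le _ (m * k, z)) hm.le).trans_eq ?_
  simp only [TCexVal, PNat.mul_coe, Nat.cast_mul]
  rw [mul_inv, mul_smul, ← smul_sub, norm_smul, Real.norm_eq_abs, abs_of_pos (inv_pos.2 hm)]
  field_simp

theorem N_cont : Continuous (TCexN f C) := by
  refine (LipschitzWith.of_le_add_mul ⟨C, h.pos⟩ fun x y => ?_).continuous
  have h1 := h.N_add y (x - y)
  have h2 := h.N_norm (x - y)
  rw [add_sub_cancel] at h1
  rw [dist_eq_norm]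
  exact h1.trans (add_le_add le_rfl h2)

theorem N_rat (q : ℚ) (hq : 0 ≤ q) (x : ℝ × ℝ) :
    TCexN f C ((q : ℝ) • x) ≤ q * TCexN f C x := by
  obtain ⟨a, ha⟩ := Int.eq_ofNat_of_zero_le (Rat.num_nonneg.2 hq)
  have hd : (0 : ℝ) < q.den := by exact_mod_cast q.den_pos
  have h1 := h.N_nat a (((q.den : ℕ) : ℝ)⁻¹ • x)
  have h2 : (q.den : ℝ) * TCexN f C (((q.den : ℕ) : ℝ)⁻¹ • x) ≤ TCexN f C x :=
    h.N_inv ⟨q.den, q.den_pos⟩ x
  have e : (q : ℝ) = a * (q.den : ℝ)⁻¹ := by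
    rw [Rat.cast_def, ha, div_eq_mul_inv, Int.cast_natCast]
  rw [e, mul_smul, mul_assoc]
  refine h1.trans (mul_le_mul_of_nonneg_left ?_ (Nat.cast_nonneg a))
  rwa [le_inv_mul_iff₀ hd]

theorem N_smul (r : ℝ) (x : ℝ × ℝ) : TCexN f C (r • x) ≤ ‖r‖ * TCexN f C x := by
  refine Rat.denseRange_cast.induction_on r (isClosed_le ?_ ?_) fun q => ?_
  · exact h.N_cont.comp (by fun_prop)
  · fun_prop
  · rcases le_total 0 q with hq | hq
    · rw [Real.norm_eq_abs, abs_of_nonneg (by exact_mod_cast hq)]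
      exact h.N_rat q hq x
    · have h1 := h.N_rat (-q) (neg_nonneg.2 hq) x
      have h2 := h.N_neg_le (((-q : ℚ) : ℝ) • x)
      rw [Real.norm_eq_abs, abs_of_nonpos (by exact_mod_cast hq)]
      rw [Rat.cast_neg] at h1 h2
      rw [neg_smul, neg_neg, ← neg_smul] at h2
      exact h2.trans h1

theorem tendsto (v : V) :
    Tendsto (fun k : ℕ => f (k • v) / (k : ℝ)) atTop (nhds (TCexN f C (rv v))) := by
  refine tendsto_order.2 ⟨fun a ha => ?_, fun a ha => ?_⟩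
  · filter_upwards [eventually_gt_atTop 0] with k hk
    refine ha.trans_le ((h.N_le _ (⟨k, hk⟩, k • v)).trans_eq ?_)
    have hk' : (k : ℝ) ≠ 0 := by exact_mod_cast hk.ne'
    simp only [TCexVal, PNat.mk_coe, TCex_rv_smul, inv_smul_smul₀ hk', sub_self, norm_zero,
      mul_zero, add_zero]
  · obtain ⟨⟨l, z⟩, hp⟩ := exists_lt_of_ciInf_lt ha
    have hl : (0 : ℝ) < (l : ℕ) := by exact_mod_cast l.pos
    have ht := (tendsto_const_div_atTop_nhds_zero_nat ((l : ℕ) * f v)).const_add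
      (TCexVal f C (rv v) (l, z))
    rw [add_zero] at ht
    filter_upwards [eventually_gt_atTop 0, ht.eventually (gt_mem_nhds hp)] with k hk hlt
    refine lt_of_le_of_lt ?_ hlt
    have hk' : (0 : ℝ) < k := by exact_mod_cast hk
    have e : k • v = (k / l) • (z + ((l : ℕ) • v - z)) + (k % l) • v := by
      rw [add_sub_cancel, smul_smul, ← add_smul, Nat.div_add_mod']
    have h1 := h.add ((k / l) • (z + ((l : ℕ) • v - z))) ((k % l) • v)
    have h2 := h.smul (k / l) (z + ((l : ℕ) • v - z))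
    have h3 := h.smul (k % l) v
    have h4 := h.add z ((l : ℕ) • v - z)
    have h5 := h.le ((l : ℕ) • v - z)
    have h6 : ‖rv ((l : ℕ) • v - z)‖ = (l : ℕ) * ‖rv v - ((l : ℕ) : ℝ)⁻¹ • rv z‖ := by
      rw [TCex_rv_sub, TCex_rv_smul, ← Real.norm_of_nonneg hl.le, ← norm_smul,
        Real.norm_of_nonneg hl.le, smul_sub, smul_inv_smul₀ hl.ne']
    have h7 : f (z + ((l : ℕ) • v - z)) ≤ (l : ℕ) * TCexVal f C (rv v) (l, z) := by
      simp only [TCexVal]
      rw [mul_add, mul_div_cancel₀ _ hl.ne']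
      rw [h6] at h5
      linarith
    have h8 : ((k / l : ℕ) : ℝ) * (l : ℕ) ≤ k := by exact_mod_cast Nat.div_mul_le_self k l
    have h9 : ((k % l : ℕ) : ℝ) ≤ (l : ℕ) := by exact_mod_cast (Nat.mod_lt k l.pos).le
    have h10 := mul_le_mul_of_nonneg_left h7 (Nat.cast_nonneg (α := ℝ) (k / l))
    have h11 := mul_le_mul_of_nonneg_right h8 (h.val_nonneg (rv v) (l, z))
    have h12 := mul_le_mul_of_nonneg_right h9 (h.nonneg v)
    rw [← e] at h1
    rw [div_le_iff₀ hk', add_mul, div_mul_cancel₀ _ hk'.ne']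
    linarith

end TCexSub

/-- the time constant exists -/
theorem exists_tc (G : Measure ℝ) [IsProbabilityMeasure G] (hG : Law G) :
    ∃ N : Seminorm ℝ (ℝ × ℝ), IsTC G N := by
  obtain ⟨C, hC, -, h1⟩ := moment_d G hG
  have h : TCexSub (g G) C := by
    refine ⟨g_nonneg G, g_add_le G hG, fun v => ?_, fun v => by rw [TCex_norm]; exact h1 v,
      by linarith⟩
    exact (g_refl G (-v.1) v.2).trans (((g_swap G v.2 (-v.1)).trans (g_refl G v.2 v.1)).trans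
      (g_swap G v.1 v.2))
  exact ⟨Seminorm.ofSMulLE (TCexN (g G) C) h.N_zero h.N_add h.N_smul, h.tendsto⟩

theorem tc_le_g (G : Measure ℝ) [IsProbabilityMeasure G] (hG : Law G)
    {N : Seminorm ℝ (ℝ × ℝ)} (hN : IsTC G N) (v : V) : N (rv v) ≤ g G v := by
  refine le_of_tendsto (hN v) (eventually_atTop.mpr ⟨1, fun k hk => ?_⟩)
  have h1 := g_sum_le G hG (Finset.range k) fun _ => v
  simp only [Finset.sum_const, Finset.card_range] at h1
  rw [div_le_iff₀ (by exact_mod_cast hk), mul_comm, ← nsmul_eq_mul]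
  exact h1

end Pool.Agent.FPP
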