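import Pool.Agent.P.MP_ecb9f8_pr.Defs2
import Pool.Agent.P.MP_ecb9f8_pr.TCex

open MeasureTheory ProbabilityTheory Set Filter

noncomputable section

namespace Pool.Agent.FPP

variable (G : Measure ℝ) [IsProbabilityMeasure G]

/-- pairs of points of the box of radius `z ^ a` -/
def MGp_box (a z : ℕ) : Finset (V × V) :=
  (Finset.Icc (-(z : ℤ) ^ a) ((z : ℤ) ^ a) ×ˢ Finset.Icc (-(z : ℤ) ^ a) ((z : ℤ) ^ a)) ×ˢ
    (Finset.Icc (-(z : ℤ) ^ a) ((z : ℤ) ^ a) ×ˢ Finset.Icc (-(z : ℤ) ^ a) ((z : ℤ) ^ a))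

theorem MGp_mem {a z : ℕ} {x y : V} (hx : nm x ≤ (z : ℤ) ^ a) (hy : nm y ≤ (z : ℤ) ^ a) :
    (x, y) ∈ MGp_box a z := by
  rw [nm_le_iff, abs_le, abs_le] at hx hy
  simp only [MGp_box, Finset.mem_product, Finset.mem_Icc]
  exact ⟨hx, hy⟩

theorem MGp_card (a : ℕ) : ∀ᶠ z : ℕ in atTop, (MGp_box a z).card ≤ z ^ (4 * a + 4) := by
  filter_upwards [eventually_ge_atTop 3] with z hz
  have h1 : (Finset.Icc (-(z : ℤ) ^ a) ((z : ℤ) ^ a)).card ≤ z ^ (a + 1) := by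
    have h2 : 1 ≤ z ^ a := Nat.one_le_pow _ _ (by omega)
    have h3 : 3 * z ^ a ≤ z ^ (a + 1) := by
      rw [pow_succ' z a]
      exact Nat.mul_le_mul_right _ hz
    rw [Int.card_Icc, ← Nat.cast_pow]
    generalize z ^ a = u at *
    generalize z ^ (a + 1) = b at *
    omega
  have h4 : z ^ (4 * a + 4) = z ^ (a + 1) * z ^ (a + 1) * (z ^ (a + 1) * z ^ (a + 1)) := by
    ring
  rw [MGp_box, Finset.card_product, Finset.card_product, h4]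
  exact Nat.mul_le_mul (Nat.mul_le_mul h1 h1) (Nat.mul_le_mul h1 h1)

theorem MGp_con (hG : Law G) (a : ℕ) : SP G (fun z => {ω | ¬ ∀ x y : V, nm x ≤ (z : ℤ) ^ a →
    nm y ≤ (z : ℤ) ^ a → ∀ ρ : ℕ, z ≤ ρ → nm (y - x) ≤ (ρ : ℤ) ^ 2 →
    |d ω x y - g G (y - x)| ≤ (z : ℝ) * ρ}) := by
  obtain ⟨c, C, hc, -, h⟩ := conc G hG
  have hr : ∀ (z : ℕ) (v : V), {ρ : ℕ | z ≤ ρ ∧ nm v ≤ (ρ : ℤ) ^ 2}.Nonempty := fun z v => by
    refine ⟨max z (nm v).toNat, le_max_left _ _, ?_⟩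
    have h1 : nm v ≤ ((max z (nm v).toNat : ℕ) : ℤ) := by omega
    exact h1.trans (Int.le_self_sq _)
  refine (SP.biUnion (MGp_box a) (fun z i => {ω | (z : ℝ) *
    (sInf {ρ : ℕ | z ≤ ρ ∧ nm (i.2 - i.1) ≤ (ρ : ℤ) ^ 2} : ℕ) < |d ω i.1 i.2 - g G (i.2 - i.1)|})
    (4 * a + 4) (MGp_card a) fun k => ?_).mono (Eventually.of_forall fun z ω hω => ?_)
  · filter_upwards [ev_exp hc C k] with z hz i _
    obtain ⟨h1, h2⟩ := Nat.sInf_mem (hr z (i.2 - i.1))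
    exact (h _ i.1 i.2 h2 z (Nat.cast_nonneg _) (by exact_mod_cast h1)).trans
      (ENNReal.ofReal_le_ofReal hz)
  · by_contra hn
    refine hω fun x y hx hy ρ h1 h2 => ?_
    have h3 : |d ω x y - g G (y - x)| ≤
        (z : ℝ) * (sInf {ρ : ℕ | z ≤ ρ ∧ nm (y - x) ≤ (ρ : ℤ) ^ 2} : ℕ) :=
      not_lt.1 fun h4 => hn (mem_iUnion₂.2 ⟨(x, y), MGp_mem hx hy, h4⟩)
    refine h3.trans (mul_le_mul_of_nonneg_left ?_ (Nat.cast_nonneg _))
    exact_mod_cast Nat.sInf_le (show ρ ∈ {ρ : ℕ | z ≤ ρ ∧ nm (y - x) ≤ (ρ : ℤ) ^ 2} from ⟨h1, h2⟩)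

theorem MGp_len (hG : Law G) : ∃ Λ : ℕ, ∀ a : ℕ, SP G (fun z => {ω | ¬ ∀ (p : ℕ → V) (k : ℕ),
    Geo ω p k → nm (p 0) ≤ (z : ℤ) ^ a → nm (p k) ≤ (z : ℤ) ^ a →
    ∀ K : ℕ, z ≤ K → nm (p k - p 0) ≤ (K : ℤ) → k ≤ Λ * K}) := by
  obtain ⟨Λ, β, hΛ, -, h⟩ := len_pt G hG
  refine ⟨Λ, fun a => ((SP.of_ae (ae_pos G hG)).union (SP.biUnion (MGp_box a)
    (fun z i => {ω | ¬ LenOK ω i.1 i.2 (Λ * max z (nm (i.2 - i.1)).toNat)
      ((β : ℝ) * (max z (nm (i.2 - i.1)).toNat : ℕ))})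
    (4 * a + 4) (MGp_card a) fun k => ?_)).mono (Eventually.of_forall fun z ω hω => ?_)⟩
  · filter_upwards [ev_exp (Real.log_pos one_lt_two) 2 k] with z hz i _
    refine (h _ i.1 i.2 (by omega)).trans (ENNReal.ofReal_le_ofReal (le_trans ?_ hz))
    rw [Real.exp_neg, mul_comm (Real.log 2), Real.exp_nat_mul, Real.exp_log two_pos]
    exact mul_le_mul_of_nonneg_left (inv_anti₀ (by positivity)
      (pow_le_pow_right₀ one_le_two (le_max_left _ _))) zero_le_two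
  · by_contra hn
    rw [mem_union, not_or] at hn
    refine hω fun p k hg hx hy K h1 h2 => ?_
    have h3 : LenOK ω (p 0) (p k) (Λ * max z (nm (p k - p 0)).toNat)
        ((β : ℝ) * (max z (nm (p k - p 0)).toNat : ℕ)) :=
      not_not.1 fun h4 => hn.2 (mem_iUnion₂.2 ⟨(p 0, p k), MGp_mem hx hy, h4⟩)
    have h4 := abs_fst_le_nm (p k - p 0)
    have h5 := abs_snd_le_nm (p k - p 0)
    rw [Prod.fst_sub] at h4
    rw [Prod.snd_sub] at h5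
    have h6 : 2 * max z (nm (p k - p 0)).toNat ≤ Λ * max z (nm (p k - p 0)).toNat :=
      Nat.mul_le_mul_right _ hΛ
    have h7 := LenOK.len_lt h3 (by omega) (not_not.1 hn.1) hg
    exact h7.le.trans (Nat.mul_le_mul_left _ (by omega))

theorem MGp_sqrt {z K : ℕ} (hz : 3 ≤ z) (hK : z ^ 2 ≤ K) :
    z ≤ Nat.sqrt K + 1 ∧ K ≤ (Nat.sqrt K + 1) ^ 2 ∧ 2 * (Nat.sqrt K + 1) ≤ K := by
  have h1 : z ≤ Nat.sqrt K := Nat.le_sqrt'.2 hK
  have h2 := Nat.sqrt_le K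
  refine ⟨by omega, (Nat.lt_succ_sqrt' K).le, ?_⟩
  have h3 : 3 * Nat.sqrt K ≤ Nat.sqrt K * Nat.sqrt K := Nat.mul_le_mul_right _ (by omega)
  omega

theorem sp_mg (hG : Law G) {N : Seminorm ℝ (ℝ × ℝ)} (hN : IsTC G N) :
    ∃ Λ₀ : ℕ, ∀ Λ : ℕ, Λ₀ ≤ Λ → ∀ a : ℕ, SP G (fun z => {ω | ¬ MG N G Λ z ((z : ℤ) ^ a) ω}) := by
  obtain ⟨Λ₀, hlen⟩ := MGp_len G hG
  obtain ⟨C, hC, h⟩ := nrf G hG hN
  obtain ⟨x₀, h⟩ := eventually_atTop.mp h
  obtain ⟨D, hD, -, hgD⟩ := moment_d G hG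
  refine ⟨Λ₀, fun Λ hΛ a => (((SP.of_ae (ae_nice G hG)).union (MGp_con G hG a)).union
    (hlen a)).mono ?_⟩
  filter_upwards [eventually_ge_atTop x₀, eventually_ge_atTop 3,
    tendsto_natCast_atTop_atTop.eventually_ge_atTop (2 * C),
    tendsto_natCast_atTop_atTop.eventually_ge_atTop (2 * D)] with z h1 h2 h3 h3' ω hω
  by_contra hn
  rw [mem_union, mem_union, not_or, not_or] at hn
  have hc := not_not.1 hn.1.2
  have hl := not_not.1 hn.2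
  have hz : (0 : ℝ) ≤ z := Nat.cast_nonneg z
  refine hω ⟨not_not.1 hn.1.1, hc, fun p k hg hx hy K hK hk =>
    (hl p k hg hx hy K hK hk).trans (Nat.mul_le_mul_right _ hΛ),
    fun x y hx hy X hX hxy => ?_, fun x y hx hy K hK hxy => ?_, fun x y hx hy ρ hρ hxy => ?_⟩
  · have h4 := hc x y hx hy (X ^ 4) (hX.trans (Nat.le_self_pow (by norm_num) X))
      (by push_cast; rwa [← pow_mul])
    obtain ⟨h5, h6⟩ := h X (h1.trans hX) _ hxy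
    have hX2 : (2 : ℝ) ≤ X := by exact_mod_cast (show 2 ≤ X by omega)
    have h7 : 2 * (X : ℝ) ^ 4 ≤ (X : ℝ) ^ 6 := by
      have : (X : ℝ) ^ 6 = X ^ 2 * X ^ 4 := by ring
      rw [this]
      exact mul_le_mul_of_nonneg_right (by nlinarith) (by positivity)
    have h8 := mul_le_mul_of_nonneg_left h7 hz
    have h9 := mul_le_mul_of_nonneg_right h3 (show 0 ≤ (X : ℝ) ^ 6 by positivity)
    push_cast at h4
    rw [abs_le] at h4 ⊢
    constructor <;> nlinarith [h4.1, h4.2]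
  · obtain ⟨s1, s2, s3⟩ := MGp_sqrt h2 hK
    have h4 := (abs_le.1 (hc x y hx hy _ s1 (hxy.trans (by exact_mod_cast s2)))).2
    have h5 : (nm (y - x) : ℝ) ≤ K := by exact_mod_cast hxy
    have h6 := (hgD (y - x)).trans (mul_le_mul_of_nonneg_left h5 (by linarith))
    have h7 : 2 * ((Nat.sqrt K + 1 : ℕ) : ℝ) ≤ K := by exact_mod_cast s3
    have h8 := mul_le_mul_of_nonneg_left h7 hz
    have h9 := mul_le_mul_of_nonneg_right h3' (Nat.cast_nonneg (α := ℝ) K)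
    nlinarith
  · have h4 := (abs_le.1 (hc x y hx hy ρ hρ hxy)).1
    have h5 := tc_le_g G hG hN (y - x)
    linarith

end Pool.Agent.FPP
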