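import Pool.Agent.P.MP_ecb9f8_pr.Defs2

open MeasureTheory ProbabilityTheory Set Filter

noncomputable section

namespace Pool.Agent.FPP

/-- the probability of a small p-value -/
theorem pval {Ω : Type*} [MeasurableSpace Ω] (μ : Measure Ω) (A : ℤ → Set Ω) (hA : Antitone A)
    (q : ENNReal) : μ {ω | ∃ n : ℤ, ω ∈ A n ∧ μ (A n) < q} ≤ q := by
  have e : {ω | ∃ n : ℤ, ω ∈ A n ∧ μ (A n) < q} = ⋃ n ∈ {n : ℤ | μ (A n) < q}, A n := by
    ext ω
    simp only [Set.mem_ofPred_eq, Set.mem_iUnion, exists_prop]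
    exact ⟨fun ⟨n, h1, h2⟩ => ⟨n, h2, h1⟩, fun ⟨n, h1, h2⟩ => ⟨n, h2, h1⟩⟩
  rw [e, measure_biUnion_eq_iSup (Set.to_countable _)]
  · exact iSup₂_le fun n hn => le_of_lt hn
  · intro a ha b hb
    rcases le_total a b with h | h
    · exact ⟨a, ha, le_rfl, hA h⟩
    · exact ⟨b, hb, hA h, le_rfl⟩

variable (G : Measure ℝ) [IsProbabilityMeasure G]

open Classical in
/-- upper tail for the number of independent unlikely events that occur -/
theorem ch_upper {ι : Type*} (I : Finset ι) (R : ι → Set E)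
    (hR : ∀ i ∈ I, ∀ j ∈ I, i ≠ j → Disjoint (R i) (R j)) (B : ι → Set Env)
    (mB : ∀ i ∈ I, MeasurableSet (B i))
    (hdep : ∀ i ∈ I, ∀ ω ω' : Env, (∀ e ∈ R i, ω e = ω' e) → ω ∈ B i → ω' ∈ B i) (q : ENNReal)
    (hq : ∀ i ∈ I, PP G (B i) ≤ q) (j : ℕ) :
    PP G {ω | j ≤ (I.filter (fun i => ω ∈ B i)).card} ≤ 2 ^ I.card * q ^ j := by
  have h1 : {ω | j ≤ (I.filter (fun i => ω ∈ B i)).card} ⊆
      ⋃ J ∈ I.powersetCard j, {ω | ∀ i ∈ J, ω ∈ B i} := by
    intro ω hω
    obtain ⟨J, hJ, hc⟩ := Finset.exists_subset_card_eq hω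
    simp only [Set.mem_iUnion, exists_prop]
    exact ⟨J, Finset.mem_powersetCard.2 ⟨hJ.trans (Finset.filter_subset _ _), hc⟩,
      fun i hi => (Finset.mem_filter.1 (hJ hi)).2⟩
  have h2 : ∀ J ∈ I.powersetCard j, PP G {ω | ∀ i ∈ J, ω ∈ B i} ≤ q ^ j := by
    intro J hJ
    obtain ⟨hJ, hc⟩ := Finset.mem_powersetCard.1 hJ
    have a1 := lintegral_prod_dep G J R (fun i hi k hk => hR i (hJ hi) k (hJ hk))
      (fun i => (B i).indicator 1) (fun i hi => measurable_one.indicator (mB i (hJ hi)))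
      (fun i hi ω ω' h => by
        have : ω ∈ B i ↔ ω' ∈ B i :=
          ⟨hdep i (hJ hi) ω ω' h, hdep i (hJ hi) ω' ω fun e he => (h e he).symm⟩
        simp only [Set.indicator, this, Pi.one_apply])
    have ms : MeasurableSet {ω : Env | ∀ i ∈ J, ω ∈ B i} := by
      have : {ω : Env | ∀ i ∈ J, ω ∈ B i} = ⋂ i ∈ J, B i := by ext; simp
      rw [this]
      exact Finset.measurableSet_biInter J fun i hi => mB i (hJ hi)
    calc PP G {ω | ∀ i ∈ J, ω ∈ B i}
        = ∫⁻ ω, ({ω : Env | ∀ i ∈ J, ω ∈ B i}).indicator 1 ω ∂(PP G) :=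
          (lintegral_indicator_one ms).symm
      _ ≤ ∫⁻ ω, ∏ i ∈ J, (B i).indicator 1 ω ∂(PP G) := by
          refine lintegral_mono fun ω => Set.indicator_apply_le' (fun hω => ?_) fun _ => zero_le
          rw [Finset.prod_eq_one fun i hi => Set.indicator_of_mem (hω i hi) _]
          exact le_rfl
      _ = ∏ i ∈ J, PP G (B i) := by
          rw [a1]
          exact Finset.prod_congr rfl fun i hi => lintegral_indicator_one (mB i (hJ hi))
      _ ≤ q ^ j := by
          rw [← hc]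
          exact Finset.prod_le_pow_card _ _ _ fun i hi => hq i (hJ hi)
  refine (measure_mono h1).trans ((measure_biUnion_finset_le _ _).trans ?_)
  refine (Finset.sum_le_card_nsmul _ _ _ h2).trans ?_
  rw [nsmul_eq_mul, Finset.card_powersetCard]
  refine mul_le_mul_left ?_ _
  exact_mod_cast Nat.choose_le_two_pow _ _

open Classical in
/-- lower tail for one-dependent events -/
theorem chernoff2 (n : ℕ) (R : ℕ → Set E)
    (hR : ∀ i < n, ∀ j < n, i + 2 ≤ j → Disjoint (R i) (R j)) (B : ℕ → Set Env)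
    (mB : ∀ i < n, MeasurableSet (B i))
    (hdep : ∀ i < n, ∀ ω ω' : Env, (∀ e ∈ R i, ω e = ω' e) → ω ∈ B i → ω' ∈ B i) (m : ℕ)
    (hm : 8 * (m : ℝ) ≤ ∑ i ∈ Finset.range n, (PP G (B i)).toReal) :
    PP G {ω | ((Finset.range n).filter (fun i => ω ∈ B i)).card < m} ≤
      ENNReal.ofReal (Real.exp (-(m : ℝ))) := by
  have key : ∀ I : Finset ℕ, I ⊆ Finset.range n → (∀ i ∈ I, ∀ j ∈ I, i % 2 = j % 2) →
      4 * (m : ℝ) ≤ ∑ i ∈ I, (PP G (B i)).toReal →
      PP G {ω | ((Finset.range n).filter (fun i => ω ∈ B i)).card < m} ≤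
        ENNReal.ofReal (Real.exp (-(m : ℝ))) := by
    intro I hI hp hs
    have hn : ∀ i ∈ I, i < n := fun i hi => Finset.mem_range.1 (hI hi)
    refine le_trans (measure_mono fun ω hω => ?_) (chernoff G I R (fun i hi j hj hij => ?_) B
      (fun i hi => mB i (hn i hi)) (fun i hi => hdep i (hn i hi)) m hs)
    · exact lt_of_le_of_lt (Finset.card_le_card (Finset.filter_subset_filter _ hI)) hω
    · have := hp i hi j hj
      rcases lt_or_gt_of_ne hij with h | h
      · exact hR i (hn i hi) j (hn j hj) (by omega)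
      · exact (hR j (hn j hj) i (hn i hi) (by omega)).symm
  rw [← Finset.sum_filter_add_sum_filter_not (Finset.range n) (fun i => i % 2 = 0)] at hm
  by_cases h : 4 * (m : ℝ) ≤
      ∑ i ∈ (Finset.range n).filter (fun i => i % 2 = 0), (PP G (B i)).toReal
  · refine key _ (Finset.filter_subset _ _) (fun i hi j hj => ?_) h
    rw [(Finset.mem_filter.1 hi).2, (Finset.mem_filter.1 hj).2]
  · refine key ((Finset.range n).filter (fun i => ¬ i % 2 = 0)) (Finset.filter_subset _ _)
      (fun i hi j hj => ?_) (by linarith [not_le.1 h])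
    have h1 := (Finset.mem_filter.1 hi).2
    have h2 := (Finset.mem_filter.1 hj).2
    omega

open Classical in
/-- first moment bound -/
theorem measure_count_le {Ω ι : Type*} [MeasurableSpace Ω] (μ : Measure Ω) (I : Finset ι)
    (A : ι → Set Ω) (mA : ∀ i ∈ I, MeasurableSet (A i)) (B : Set Ω) (m n : ℕ)
    (h : ∀ ω ∈ B, m ≤ n * (I.filter (fun i => ω ∈ A i)).card) :
    (m : ENNReal) * μ B ≤ (n : ENNReal) * ∑ i ∈ I, μ (A i) := by
  have mf : Measurable fun ω => (n : ENNReal) * ∑ i ∈ I, (A i).indicator (1 : Ω → ENNReal) ω :=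
    (Finset.measurable_sum I fun i hi => measurable_one.indicator (mA i hi)).const_mul _
  have h1 := mul_meas_ge_le_lintegral (μ := μ) mf m
  rw [lintegral_const_mul _ (Finset.measurable_sum I fun i hi =>
    measurable_one.indicator (mA i hi)), lintegral_finset_sum I fun i hi =>
    measurable_one.indicator (mA i hi),
    Finset.sum_congr rfl fun i hi => lintegral_indicator_one (mA i hi)] at h1
  refine le_trans (mul_le_mul_right (measure_mono fun ω hω => ?_) _) h1
  have e : ∑ i ∈ I, (A i).indicator (1 : Ω → ENNReal) ω =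
      ((I.filter (fun i => ω ∈ A i)).card : ENNReal) := by
    rw [Finset.card_filter]
    push_cast
    refine Finset.sum_congr rfl fun i _ => ?_
    simp [Set.indicator]
  simp only [Set.mem_ofPred_eq, e]
  exact_mod_cast h ω hω

theorem ProbT_geo (θ : ℝ) (h0 : 0 ≤ θ) (h1 : θ < 1) (N : ℕ) :
    ∑ z ∈ Finset.Icc (-(N : ℤ)) N, θ ^ z.natAbs ≤ (1 + θ - 2 * θ ^ (N + 1)) / (1 - θ) := by
  have hp : 0 < 1 - θ := by linarith
  rw [le_div_iff₀ hp]
  induction N with
  | zero => simp; linarith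
  | succ N ih =>
    have e : Finset.Icc (-((N + 1 : ℕ) : ℤ)) ((N + 1 : ℕ) : ℤ) =
        insert (-((N + 1 : ℕ) : ℤ)) (insert ((N + 1 : ℕ) : ℤ) (Finset.Icc (-(N : ℤ)) N)) := by
      ext z
      simp only [Finset.mem_Icc, Finset.mem_insert]
      omega
    rw [e, Finset.sum_insert, Finset.sum_insert, Int.natAbs_neg, Int.natAbs_natCast]
    · have : θ ^ (N + 1 + 1) = θ ^ (N + 1) * θ := pow_succ _ _
      rw [this]
      nlinarith
    · simp only [Finset.mem_Icc]; omega
    · simp only [Finset.mem_Icc, Finset.mem_insert]; omega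

/-- integer points of an `l1` ball -/
theorem l1ball (n B : ℕ) (hB : 1 ≤ B) :
    ∃ S : Finset (Fin n → ℤ), S.card ≤ (9 * B) ^ n ∧
      ∀ x : Fin n → ℤ, ∑ i, |x i| ≤ (n : ℤ) * B → x ∈ S := by
  classical
  set T : Finset (Fin n → ℤ) := Fintype.piFinset fun _ => Finset.Icc (-((n * B : ℕ) : ℤ)) (n * B : ℕ)
    with hT
  refine ⟨T.filter fun x => ∑ i, |x i| ≤ (n : ℤ) * B, ?_, fun x hx => ?_⟩
  · have hB' : (1 : ℝ) ≤ B := by exact_mod_cast hB
    set θ : ℝ := B / (B + 1) with hθ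
    have h0 : 0 < θ := by positivity
    have h1 : θ < 1 := by rw [hθ, div_lt_one (by positivity)]; linarith
    have a1 : ∑ z ∈ Finset.Icc (-((n * B : ℕ) : ℤ)) (n * B : ℕ), θ ^ z.natAbs ≤ 2 * B + 1 := by
      refine (ProbT_geo θ h0.le h1 _).trans ?_
      rw [div_le_iff₀ (by linarith)]
      have : (2 * (B : ℝ) + 1) * (1 - θ) = 1 + θ := by rw [hθ]; field_simp; ring
      rw [this]
      have := pow_pos h0 (n * B + 1)
      linarith
    have a2 : ((T.filter fun x => ∑ i, |x i| ≤ (n : ℤ) * B).card : ℝ) * θ ^ (n * B) ≤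
        (2 * B + 1) ^ n := by
      calc ((T.filter fun x => ∑ i, |x i| ≤ (n : ℤ) * B).card : ℝ) * θ ^ (n * B)
          = ∑ _x ∈ T.filter fun x => ∑ i, |x i| ≤ (n : ℤ) * B, θ ^ (n * B) := by
            rw [Finset.sum_const, nsmul_eq_mul]
        _ ≤ ∑ x ∈ T.filter fun x => ∑ i, |x i| ≤ (n : ℤ) * B, ∏ i, θ ^ (x i).natAbs := by
            refine Finset.sum_le_sum fun x hx => ?_
            rw [Finset.prod_pow_eq_pow_sum]
            refine pow_le_pow_of_le_one h0.le h1.le ?_
            have := (Finset.mem_filter.1 hx).2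
            have e : ((∑ i, (x i).natAbs : ℕ) : ℤ) = ∑ i, |x i| := by push_cast; rfl
            have : ((∑ i, (x i).natAbs : ℕ) : ℤ) ≤ ((n * B : ℕ) : ℤ) := by
              rw [e]; push_cast; exact this
            exact_mod_cast this
        _ ≤ ∑ x ∈ T, ∏ i, θ ^ (x i).natAbs :=
            Finset.sum_le_sum_of_subset_of_nonneg (Finset.filter_subset _ _)
              fun x _ _ => by positivity
        _ = ∏ _i : Fin n, ∑ z ∈ Finset.Icc (-((n * B : ℕ) : ℤ)) (n * B : ℕ), θ ^ z.natAbs := by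
            rw [hT, Finset.prod_univ_sum]
        _ ≤ (2 * B + 1) ^ n := by
            rw [Finset.prod_const, Finset.card_univ, Fintype.card_fin]
            exact pow_le_pow_left₀ (Finset.sum_nonneg fun _ _ => by positivity) a1 n
    have a3 : 1 ≤ 3 * θ ^ B := by
      have b1 : (1 + 1 / (B : ℝ)) ^ B ≤ Real.exp 1 := by
        calc (1 + 1 / (B : ℝ)) ^ B ≤ Real.exp (1 / B) ^ B :=
              pow_le_pow_left₀ (by positivity) (by linarith [Real.add_one_le_exp (1 / (B : ℝ))]) B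
          _ = Real.exp 1 := by rw [← Real.exp_nat_mul]; congr 1; field_simp
      have b2 : (1 + 1 / (B : ℝ)) ^ B * θ ^ B = 1 := by
        rw [← mul_pow, hθ]
        have : (1 + 1 / (B : ℝ)) * (B / (B + 1)) = 1 := by field_simp
        rw [this, one_pow]
      have b3 := Real.exp_one_lt_d9
      have b4 := pow_pos h0 B
      nlinarith
    have a4 : ((T.filter fun x => ∑ i, |x i| ≤ (n : ℤ) * B).card : ℝ) ≤ (9 * B) ^ n := by
      have c1 : (1 : ℝ) ≤ 3 ^ n * θ ^ (n * B) := by
        rw [mul_comm n B, pow_mul, ← mul_pow]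
        exact one_le_pow₀ a3
      have c2 : (3 : ℝ) ^ n * (2 * B + 1) ^ n ≤ (9 * B) ^ n := by
        rw [← mul_pow]
        exact pow_le_pow_left₀ (by positivity) (by linarith) n
      calc ((T.filter fun x => ∑ i, |x i| ≤ (n : ℤ) * B).card : ℝ)
          ≤ ((T.filter fun x => ∑ i, |x i| ≤ (n : ℤ) * B).card : ℝ) * (3 ^ n * θ ^ (n * B)) :=
            le_mul_of_one_le_right (by positivity) c1
        _ = 3 ^ n * (((T.filter fun x => ∑ i, |x i| ≤ (n : ℤ) * B).card : ℝ) * θ ^ (n * B)) := by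
            ring
        _ ≤ 3 ^ n * (2 * B + 1) ^ n := mul_le_mul_of_nonneg_left a2 (by positivity)
        _ ≤ _ := c2
    exact_mod_cast a4
  · refine Finset.mem_filter.2 ⟨Fintype.mem_piFinset.2 fun i => ?_, hx⟩
    have := (Finset.single_le_sum (f := fun i => |x i|) (fun i _ => abs_nonneg _)
      (Finset.mem_univ i)).trans hx
    rw [Finset.mem_Icc, ← abs_le]
    push_cast
    exact this

end Pool.Agent.FPP
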