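import Pool.Agent.P.MP_ecb9f8_pr.Defs2

open MeasureTheory ProbabilityTheory Set Filter

noncomputable section

namespace Pool.Agent.FPP

theorem measurableSet_fam_le {C : (ℕ → V) → ℕ → Prop} (hC : Fam C) (θ : ℝ) :
    MeasurableSet {ω : Env | ∀ q l, C q l → θ ≤ W ω q 0 l} := by
  have e : {ω : Env | ∀ q l, C q l → θ ≤ W ω q 0 l} = {ω : Env | ∃ (q : ℕ → V) (l : ℕ), Chain q l ∧
      ω ∈ {ω : Env | C q l ∧ W ω q 0 l < θ}}ᶜ := by
    ext ω
    simp only [mem_ofPred_eq, mem_compl_iff]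
    constructor
    · rintro h ⟨q, l, -, h1, h3⟩
      exact absurd (h q l h1) (not_le.2 h3)
    · intro h q l h1
      exact not_lt.1 fun h3 => h ⟨q, l, hC.1 q l h1, h1, h3⟩
  rw [e]
  refine (measurableSet_exists_chain _ (fun p k => ?_) ?_).compl
  · exact (MeasurableSet.const _).inter (measurableSet_lt (measurable_W p 0 k) measurable_const)
  · rintro p q k h ω ⟨h1, h4⟩
    exact ⟨hC.2 p q k h h1, W_congr ω h ▸ h4⟩

theorem measurableSet_AttrG {C : (ℕ → V) → ℕ → Prop} (hC : Fam C) (Φ : Set E) {θ : Env → ℝ}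
    (mθ : Measurable θ) : MeasurableSet {ω : Env | AttrG C Φ (θ ω) ω} := by
  have e : {ω : Env | AttrG C Φ (θ ω) ω} = {ω : Env | ∃ (q : ℕ → V) (l : ℕ), Chain q l ∧
      ω ∈ {ω : Env | (C q l ∧ ∀ j < l, ed q j ∉ Φ) ∧ W ω q 0 l ≤ θ ω}}ᶜ := by
    ext ω
    simp only [mem_ofPred_eq, mem_compl_iff]
    constructor
    · rintro h ⟨q, l, -, ⟨h1, h2⟩, h3⟩
      exact absurd (h q l h1 h2) (not_lt.2 h3)
    · intro h q l h1 h2
      exact not_le.1 fun h3 => h ⟨q, l, hC.1 q l h1, ⟨h1, h2⟩, h3⟩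
  rw [e]
  refine (measurableSet_exists_chain _ (fun p k => ?_) ?_).compl
  · exact (MeasurableSet.const _).inter (measurableSet_le (measurable_W p 0 k) mθ)
  · rintro p q k h ω ⟨⟨h1, h2⟩, h4⟩
    have he : ∀ j < k, ed p j = ed q j := fun j hj => by rw [ed, ed, h j hj.le, h (j + 1) hj]
    exact ⟨⟨hC.2 p q k h h1, fun j hj => he j hj ▸ h2 j hj⟩, W_congr ω h ▸ h4⟩

theorem ShiftG_pc (L : ℕ) {z m : ℕ} (hz : z ≤ m) :
    (((L * m : ℕ) : ℝ) + 1) * 8 ^ (L * m) / ((16 : ℝ) ^ (4 * L + 4)) ^ ((m + 3) / 4) ≤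
      1 * Real.exp (-(1 * z)) := by
  have h1 : ((L * m : ℕ) : ℝ) + 1 ≤ 2 ^ (L * m) := by
    exact_mod_cast Nat.lt_two_pow_self
  have h2 : L * m + z ≤ (4 * L + 4) * ((m + 3) / 4) := by
    have : m ≤ 4 * ((m + 3) / 4) := by omega
    nlinarith
  have h3 : Real.exp z ≤ 16 ^ z := by
    rw [← Real.exp_one_pow]
    exact pow_le_pow_left₀ (Real.exp_pos 1).le (by linarith [Real.exp_one_lt_d9]) z
  rw [one_mul, one_mul, Real.exp_neg, ← pow_mul, div_le_iff₀ (by positivity), inv_mul_eq_div,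
    le_div_iff₀ (Real.exp_pos _)]
  calc _ ≤ 2 ^ (L * m) * 8 ^ (L * m) * (16 : ℝ) ^ z := by gcongr
    _ = 16 ^ (L * m + z) := by rw [← mul_pow, pow_add]; norm_num
    _ ≤ _ := pow_le_pow_right₀ (by norm_num) h2

theorem ShiftG_two {τ : ℝ} {n : ℕ} (hn : τ ^ 2 * n ≤ 1 / 4) : (1 + 2 * τ ^ 2) ^ n ≤ 2 := by
  have h1 : (1 + 2 * τ ^ 2) ^ n ≤ Real.exp (2 * τ ^ 2) ^ n :=
    pow_le_pow_left₀ (by positivity) (by linarith [Real.add_one_le_exp (2 * τ ^ 2)]) n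
  refine h1.trans ?_
  rw [← Real.exp_nat_mul]
  refine (Real.exp_le_exp.2 (show _ ≤ 1 / 2 by linarith)).trans ?_
  have h3 : Real.exp (1 / 2) * Real.exp (1 / 2) = Real.exp 1 := by
    rw [← Real.exp_add]; norm_num
  nlinarith [Real.exp_one_lt_d9, Real.exp_pos (1 / 2)]

theorem ShiftG_tau {δ s z m M : ℝ} (hδ : 0 < δ) (hm : 0 < m) (hM : 0 ≤ M) (hz : 8 ≤ δ * z)
    (h : (s * z) ^ 2 * M ≤ m ^ 2) : (4 * s / (δ * m)) ^ 2 * M ≤ 1 / 4 := by
  have h1 : 64 ≤ (δ * z) ^ 2 := by nlinarith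
  have h2 := mul_le_mul_of_nonneg_left h1 (mul_nonneg (sq_nonneg s) hM)
  have h3 := mul_le_mul_of_nonneg_left h (sq_nonneg δ)
  rw [div_pow, div_mul_eq_mul_div, div_le_iff₀ (by positivity)]
  nlinarith

open Classical in
/-- Mermin-Wagner shift for a family of competitors that use many edges of a small set -/
theorem shift_gen (G : Measure ℝ) [IsProbabilityMeasure G] (hG : Law G) (L a k : ℕ) :
    ∀ᶠ z : ℕ in atTop, ∀ (C : (ℕ → V) → ℕ → Prop) (St : Finset V) (Tb : Finset E) (m M : ℕ)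
      (θ s a₀ : ℝ), Fam C → z ≤ m → St.card ≤ z ^ a → Tb.card ≤ M → 1 ≤ M → 0 < s →
      (s * z) ^ 2 * M ≤ (m : ℝ) ^ 2 →
      (∀ q l, C q l → SA q l ∧ q 0 ∈ St ∧ l ≤ L * m ∧
        m ≤ 2 * ((Finset.range l).filter (fun j => ed q j ∈ Tb)).card) →
      0 ≤ a₀ → a₀ + ((z : ℝ) ^ k)⁻¹ ≤ (PP G {ω | ∀ q l, C q l → θ ≤ W ω q 0 l}).toReal →
      a₀ ^ 3 ≤ 2 * (PP G {ω | ∀ q l, C q l → θ + s ≤ W ω q 0 l}).toReal ^ 2 := by
  have hθ : (1 : ℝ) ≤ 16 ^ (4 * L + 4) := one_le_pow₀ (by norm_num)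
  obtain ⟨Sg, δ, mS, hS, hε, hδ, ht⟩ := exists_tilt G hG.2.2 hG.1
    (ε := ((16 : ℝ) ^ (4 * L + 4))⁻¹) (by positivity)
  obtain ⟨Bd, hBd⟩ : ∃ Bd, Bd = Sgᶜ := ⟨_, rfl⟩
  filter_upwards [ev_exp one_pos 1 (a + k), eventually_ge_atTop 1,
    tendsto_natCast_atTop_atTop.eventually_ge_atTop (8 / δ)] with z he hz hz' C St Tb m M θ s a₀
    hC hzm hSt hTb hM hs hsm hq ha h
  have hz0 : (0 : ℝ) < z := by exact_mod_cast hz
  have hm0 : (0 : ℝ) < m := by exact_mod_cast hz.trans hzm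
  have hM1 : (1 : ℝ) ≤ M := by exact_mod_cast hM
  have hτ := ShiftG_tau hδ hm0 (by positivity) (by rwa [div_le_iff₀' hδ] at hz') hsm
  have hτ0 : 0 < 4 * s / (δ * m) := by positivity
  have hγ : δ * (4 * s / (δ * m)) * (m / 4) = s := by field_simp
  generalize 4 * s / (δ * m) = τ at hτ hτ0 hγ
  obtain ⟨ϑ, J, hT⟩ := ht τ hτ0 (by nlinarith [mul_le_mul_of_nonneg_left hM1 (sq_nonneg τ)])
  set B : V → Set Env := fun v =>
    {ω | ∃ (p : ℕ → V) (l : ℕ), l ≤ L * m ∧ Chain p l ∧ SA p l ∧ p 0 = v ∧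
      (m + 3) / 4 ≤ ((Finset.range l).filter (fun j => ω (ed p j) ∈ Bd)).card} with hB
  have hBy : ∀ v ∈ St, PP G (B v) ≤ ENNReal.ofReal (((z : ℝ) ^ (a + k))⁻¹) := fun v _ =>
    (pathcount G (Bd := Bd) (hBd ▸ mS.compl) hθ (hBd ▸ hε) v (L * m) ((m + 3) / 4)).trans
      (ENNReal.ofReal_le_ofReal ((ShiftG_pc L hzm).trans he))
  have hU : PP G (⋃ v ∈ St, B v) ≤ ENNReal.ofReal (((z : ℝ) ^ k)⁻¹) := by
    refine (measure_biUnion_finset_le _ _).trans ((Finset.sum_le_card_nsmul _ _ _ hBy).trans ?_)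
    rw [nsmul_eq_mul, ← ENNReal.ofReal_natCast, ← ENNReal.ofReal_mul (by positivity)]
    refine ENNReal.ofReal_le_ofReal ?_
    have h1 : (St.card : ℝ) ≤ (z : ℝ) ^ a := by exact_mod_cast hSt
    refine (mul_le_mul_of_nonneg_right h1 (by positivity)).trans_eq ?_
    rw [pow_add]
    field_simp
  set A0 := {ω : Env | ∀ q l, C q l → θ ≤ W ω q 0 l} with hA0
  have hA : a₀ ≤ (PP G (A0 \ ⋃ v ∈ St, B v)).toReal := by
    have h1 : PP G A0 ≤ PP G (A0 \ ⋃ v ∈ St, B v) + ENNReal.ofReal (((z : ℝ) ^ k)⁻¹) :=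
      (measure_mono (subset_sdiff_union _ _)).trans ((measure_union_le _ _).trans
        (add_le_add le_rfl hU))
    have h2 := ENNReal.toReal_mono (by finiteness) h1
    rw [ENNReal.toReal_add (by finiteness) (by finiteness),
      ENNReal.toReal_ofReal (by positivity)] at h2
    linarith
  have key := mw_prod G hT Tb (A := A0 \ ⋃ v ∈ St, B v) (measurableSet_fam_le hC (θ + s)) (by
    rintro ω ⟨h0, hn⟩ q l hql
    obtain ⟨c1, c2, c3, c4⟩ := hq q l hql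
    simp only [mem_iUnion, not_exists] at hn
    have n3 : ((Finset.range l).filter (fun j => ω (ed q j) ∈ Bd)).card < (m + 3) / 4 :=
      lt_of_not_ge fun hh => hn _ c2 ⟨q, l, c3, hC.1 q l hql, c1, rfl, hh⟩
    have g1 := Fresh1_gain hBd hS (γ := δ * τ) (by positivity) hT.2.2.2.1 hT.2.2.2.2.1 Tb ω q l
    have g2 : (m : ℝ) / 4 ≤ (((Finset.range l).filter (fun j => ed q j ∈ Tb)).card : ℝ) -
        ((Finset.range l).filter (fun j => ω (ed q j) ∈ Bd)).card := by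
      have a1 : 4 * ((Finset.range l).filter (fun j => ω (ed q j) ∈ Bd)).card ≤ m := by omega
      have a2 : (4 : ℝ) * ((Finset.range l).filter (fun j => ω (ed q j) ∈ Bd)).card ≤ m := by
        exact_mod_cast a1
      have a3 : (m : ℝ) ≤ 2 * ((Finset.range l).filter (fun j => ed q j ∈ Tb)).card := by
        exact_mod_cast c4
      linarith
    have g3 := mul_le_mul_of_nonneg_left g2 (show 0 ≤ δ * τ by positivity)
    linarith [h0 q l hql])
  have h2 : ENNReal.ofReal (1 + 2 * τ ^ 2) ^ Tb.card ≤ 2 := by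
    rw [← ENNReal.ofReal_pow (by positivity), ← ENNReal.ofReal_ofNat]
    exact ENNReal.ofReal_le_ofReal (ShiftG_two ((mul_le_mul_of_nonneg_left
      (by exact_mod_cast hTb) (sq_nonneg τ)).trans hτ))
  have h3 := ENNReal.toReal_mono (by finiteness) (key.trans (mul_le_mul_right h2 _))
  rw [ENNReal.toReal_pow, ENNReal.toReal_mul, ENNReal.toReal_pow, ENNReal.toReal_ofNat] at h3
  linarith [pow_le_pow_left₀ ha hA 3]

end Pool.Agent.FPP
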