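import Pool.Agent.P.MP_ecb9f8_pr.BandL
import Pool.Agent.P.MP_ecb9f8_pr.ShiftG
import Pool.Agent.P.MP_ecb9f8_pr.ProbT

open MeasureTheory ProbabilityTheory Set Filter

noncomputable section

namespace Pool.Agent.FPP

/-- union bound over the coarse routes of small variation -/
theorem Ent_union {Ω : Type*} [MeasurableSpace Ω] (μ : Measure Ω) (n B M : ℕ) (hB : 1 ≤ B)
    (c0 : ℤ) (F : (ℕ → ℤ) → (ℕ → ℤ) → Set Ω)
    (hF : ∀ H k H' k' : ℕ → ℤ, (∀ i < n, k i = k' i ∧ H (i + 1) = H' (i + 1)) → F H k ⊆ F H' k')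
    (b : ENNReal) (hb : ∀ H k, μ (F H k) ≤ b) :
    μ {ω | ∃ H k : ℕ → ℤ, |H 0| ≤ (M : ℤ) ∧
      ∑ i ∈ Finset.range n, (|k i - H i| + |H (i + 1) - k i - c0|) ≤ (n : ℤ) * B ∧ ω ∈ F H k} ≤
      (((2 * M + 1) * (9 * B) ^ n * (9 * B) ^ n : ℕ) : ENNReal) * b := by
  classical
  obtain ⟨S, hS, hmem⟩ := l1ball n B hB
  let T : Finset (ℤ × (Fin n → ℤ) × (Fin n → ℤ)) := Finset.Icc (-(M : ℤ)) M ×ˢ (S ×ˢ S)
  let F' : ℤ × (Fin n → ℤ) × (Fin n → ℤ) → Set Ω := fun t =>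
    {ω | ∃ H k : ℕ → ℤ, H 0 = t.1 ∧ (∀ i : Fin n, k i - H i = t.2.1 i) ∧
      (∀ i : Fin n, H (i + 1) - k i - c0 = t.2.2 i) ∧ ω ∈ F H k}
  have hF' : ∀ t, μ (F' t) ≤ b := by
    intro t
    by_cases hne : (F' t).Nonempty
    · obtain ⟨ω0, H', k', h0', h1', h2', -⟩ := hne
      refine le_trans (measure_mono ?_) (hb H' k')
      rintro ω ⟨H, k, h0, h1, h2, hω⟩
      refine hF H k H' k' ?_ hω
      have key : ∀ i ≤ n, H i = H' i := by
        intro i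
        induction i with
        | zero => intro _; rw [h0, h0']
        | succ i ih =>
          intro hi
          have e0 := ih (by omega)
          have e1 := h1 ⟨i, by omega⟩
          have e1' := h1' ⟨i, by omega⟩
          have e2 := h2 ⟨i, by omega⟩
          have e2' := h2' ⟨i, by omega⟩
          simp only at e1 e1' e2 e2'
          omega
      intro i hi
      have e0 := key i hi.le
      have e1 := h1 ⟨i, hi⟩
      have e1' := h1' ⟨i, hi⟩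
      simp only at e1 e1'
      exact ⟨by omega, key (i + 1) hi⟩
    · rw [Set.not_nonempty_iff_eq_empty.1 hne]
      simp
  have hsub : {ω | ∃ H k : ℕ → ℤ, |H 0| ≤ (M : ℤ) ∧
      ∑ i ∈ Finset.range n, (|k i - H i| + |H (i + 1) - k i - c0|) ≤ (n : ℤ) * B ∧ ω ∈ F H k} ⊆
      ⋃ t ∈ T, F' t := by
    rintro ω ⟨H, k, h0, hs, hω⟩
    simp only [Set.mem_iUnion]
    rw [Finset.sum_add_distrib] at hs
    have p1 : 0 ≤ ∑ i ∈ Finset.range n, |k i - H i| :=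
      Finset.sum_nonneg (fun i _ => abs_nonneg _)
    have p2 : 0 ≤ ∑ i ∈ Finset.range n, |H (i + 1) - k i - c0| :=
      Finset.sum_nonneg (fun i _ => abs_nonneg _)
    refine ⟨(H 0, fun i : Fin n => k i - H i, fun i : Fin n => H (i + 1) - k i - c0), ?_,
      H, k, rfl, fun _ => rfl, fun _ => rfl, hω⟩
    simp only [T, Finset.mem_product, Finset.mem_Icc]
    refine ⟨abs_le.1 h0, hmem _ ?_, hmem _ ?_⟩
    · rw [Fin.sum_univ_eq_sum_range (fun i => |k i - H i|) n]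
      omega
    · rw [Fin.sum_univ_eq_sum_range (fun i => |H (i + 1) - k i - c0|) n]
      omega
  have hT : T.card ≤ (2 * M + 1) * (9 * B) ^ n * (9 * B) ^ n := by
    simp only [T, Finset.card_product, Int.card_Icc]
    have e : ((M : ℤ) + 1 - -(M : ℤ)).toNat = 2 * M + 1 := by omega
    rw [e, mul_assoc]
    exact Nat.mul_le_mul_left _ (Nat.mul_le_mul hS hS)
  calc _ ≤ μ (⋃ t ∈ T, F' t) := measure_mono hsub
    _ ≤ ∑ t ∈ T, μ (F' t) := measure_biUnion_finset_le _ _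
    _ ≤ ∑ _t ∈ T, b := Finset.sum_le_sum (fun t _ => hF' t)
    _ = (T.card : ENNReal) * b := by rw [Finset.sum_const, nsmul_eq_mul]
    _ ≤ _ := by
      gcongr

theorem Ent_mGE (ζ o i : ℕ) (k k' n : ℤ) : MeasurableSet (GE ζ o i k k' n) :=
  measurableSet_fam_le (fam_conf _ _ _) (n : ℝ)

theorem Ent_mLow (G : Measure ℝ) (ζ o i : ℕ) (k k' : ℤ) :
    MeasurableSet {ω : Env | LowP G ζ o i k k' ω} := by
  have e : {ω : Env | LowP G ζ o i k k' ω} = ⋃ n : ℤ, (GE ζ o i k k' n ∩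
      {_ω | PP G (GE ζ o i k k' n) < ENNReal.ofReal ((ζ : ℝ) ^ 510)⁻¹}) := by
    ext ω
    simp only [LowP, Set.mem_setOf_eq, Set.mem_iUnion, Set.mem_inter_iff]
  rw [e]
  exact MeasurableSet.iUnion (fun n => (Ent_mGE ζ o i k k' n).inter (MeasurableSet.const _))

theorem Ent_anti (ζ o i : ℕ) (k k' : ℤ) : Antitone (GE ζ o i k k') := by
  intro n n' h ω hω q l hq
  exact le_trans (by exact_mod_cast h) (hω q l hq)

theorem Ent_two {ζ : ℕ} (hz : 2 ≤ ζ) : (2 : ℤ) ≤ (ζ : ℤ) ^ 30000 := by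
  have h1 : (ζ : ℤ) ^ 1 ≤ (ζ : ℤ) ^ 30000 :=
    pow_le_pow_right₀ (by exact_mod_cast (by omega : 1 ≤ ζ)) (by norm_num)
  rw [pow_one] at h1
  have h2 : (2 : ℤ) ≤ ζ := by exact_mod_cast hz
  exact h2.trans h1

theorem Ent_dep {ζ : ℕ} (hz : 2 ≤ ζ) (o i : ℕ) (k k' n : ℤ) (ω ω' : Env)
    (h : ∀ e ∈ Reg (aR ζ o i) (aR ζ o (i + 1)), ω e = ω' e) (hω : ω ∈ GE ζ o i k k' n) :
    ω' ∈ GE ζ o i k k' n := by
  intro q l hq
  have h1 := hω q l hq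
  have e : W ω' q 0 l = W ω q 0 l := by
    unfold W
    refine Finset.sum_congr rfl (fun t ht => ?_)
    have hm := hq.edge_mem (by
      show aR ζ o i + 2 ≤ aR ζ o (i + 1)
      rw [aR_succ]
      have := Ent_two hz
      omega) (Finset.mem_Ico.1 ht).2
    unfold wt
    rw [h _ hm]
  rw [e]
  exact h1

theorem Ent_mono (ζ o : ℕ) {i j : ℕ} (h : i ≤ j) : aR ζ o i ≤ aR ζ o j := by
  unfold aR
  have h1 : (0 : ℤ) ≤ (ζ : ℤ) ^ 30000 := by positivity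
  have h2 : (i : ℤ) ≤ j := by exact_mod_cast h
  have := mul_le_mul_of_nonneg_right h2 h1
  omega

open Classical in
theorem Ent_one (G : Measure ℝ) [IsProbabilityMeasure G] {ζ : ℕ} (hz : 2 ≤ ζ) (o n : ℕ)
    (H k : ℕ → ℤ) :
    PP G {ω | 100 * ((Finset.range n).filter
      (fun i => ¬ LowP G ζ o i (k i) (H (i + 1)) ω)).card < n} ≤
      2 ^ n * ENNReal.ofReal ((ζ : ℝ) ^ 510)⁻¹ ^ (n - n / 100) := by
  have h := ch_upper G (Finset.range n) (fun i => Reg (aR ζ o i) (aR ζ o (i + 1)))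
    (by
      intro i _ j _ hij
      rcases lt_or_gt_of_ne hij with h | h
      · exact reg_disjoint (Ent_mono ζ o h)
      · exact (reg_disjoint (Ent_mono ζ o h)).symm)
    (fun i => {ω | LowP G ζ o i (k i) (H (i + 1)) ω})
    (fun i _ => Ent_mLow G ζ o i _ _)
    (by
      rintro i _ ω ω' he ⟨m, hm, hp⟩
      exact ⟨m, Ent_dep hz o i _ _ m ω ω' he hm, hp⟩)
    (ENNReal.ofReal ((ζ : ℝ) ^ 510)⁻¹)
    (fun i _ => pval (PP G) (GE ζ o i (k i) (H (i + 1))) (Ent_anti ζ o i _ _) _)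
    (n - n / 100)
  rw [Finset.card_range] at h
  refine le_trans (measure_mono ?_) h
  intro ω hω
  simp only [Set.mem_setOf_eq] at hω ⊢
  have e := Finset.card_filter_add_card_filter_not (s := Finset.range n)
    (fun i => LowP G ζ o i (k i) (H (i + 1)) ω)
  rw [Finset.card_range] at e
  omega

theorem Ent_nat {ζ n j K A : ℕ} (hz : 9 ≤ ζ) (hA : A * ζ ^ K ≤ ζ ^ n) (hj : 99 * n ≤ 100 * j) :
    A * (9 * (2 * ζ ^ 250)) ^ n * (9 * (2 * ζ ^ 250)) ^ n * 2 ^ n * ζ ^ K ≤ (ζ ^ 510) ^ j := by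
  have h1 : 9 * (2 * ζ ^ 250) * (9 * (2 * ζ ^ 250)) * 2 ≤ ζ ^ 503 := by
    have e1 : ζ ^ 503 = ζ ^ 3 * (ζ ^ 250 * ζ ^ 250) := by rw [← pow_add, ← pow_add]
    have e2 : 9 ^ 3 ≤ ζ ^ 3 := Nat.pow_le_pow_left hz 3
    rw [e1]
    generalize ζ ^ 250 = X
    generalize ζ ^ 3 = Y at *
    nlinarith [Nat.zero_le (X * X)]
  calc A * (9 * (2 * ζ ^ 250)) ^ n * (9 * (2 * ζ ^ 250)) ^ n * 2 ^ n * ζ ^ K
      = (A * ζ ^ K) * (9 * (2 * ζ ^ 250) * (9 * (2 * ζ ^ 250)) * 2) ^ n := by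
        rw [mul_pow (9 * (2 * ζ ^ 250) * (9 * (2 * ζ ^ 250))) 2 n,
          mul_pow (9 * (2 * ζ ^ 250)) (9 * (2 * ζ ^ 250)) n]
        generalize (9 * (2 * ζ ^ 250)) ^ n = X
        ring
    _ ≤ ζ ^ n * (ζ ^ 503) ^ n := Nat.mul_le_mul hA (Nat.pow_le_pow_left h1 n)
    _ = ζ ^ (504 * n) := by
        rw [← pow_mul, ← pow_add]
        congr 1
        omega
    _ ≤ ζ ^ (510 * j) := Nat.pow_le_pow_right (by omega) (by omega)
    _ = (ζ ^ 510) ^ j := by rw [pow_mul]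

theorem Ent_fin {ζ N j K : ℕ} (hz : 1 ≤ ζ) (h : N * ζ ^ K ≤ (ζ ^ 510) ^ j) :
    (N : ENNReal) * ENNReal.ofReal ((ζ : ℝ) ^ 510)⁻¹ ^ j ≤ ENNReal.ofReal (((ζ : ℝ) ^ K)⁻¹) := by
  have hz' : (0 : ℝ) < ζ := by exact_mod_cast hz
  rw [← ENNReal.ofReal_pow (by positivity), ← ENNReal.ofReal_natCast,
    ← ENNReal.ofReal_mul (by positivity)]
  apply ENNReal.ofReal_le_ofReal
  have h' : (N : ℝ) * (ζ : ℝ) ^ K ≤ ((ζ : ℝ) ^ 510) ^ j := by exact_mod_cast h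
  rw [inv_pow, ← div_eq_mul_inv, div_le_iff₀ (by positivity), inv_mul_eq_div,
    le_div_iff₀ (by positivity)]
  exact h'

theorem Ent_A {ζ K : ℕ} (hz : 9 ≤ ζ) (hK : 150002 + K ≤ ζ) :
    ζ ^ 30000 * (2 * ζ ^ 120001 + 1) * ζ ^ K ≤ ζ ^ (ζ ^ 90000) := by
  have h1 : 2 * ζ ^ 120001 + 1 ≤ ζ ^ 120002 := by
    have e : ζ ^ 120002 = ζ ^ 120001 * ζ := by rw [← pow_succ]
    have p : 1 ≤ ζ ^ 120001 := Nat.one_le_pow _ _ (by omega)
    rw [e]
    generalize ζ ^ 120001 = X at *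
    nlinarith
  have h2 : ζ ≤ ζ ^ 90000 := Nat.le_self_pow (by norm_num) ζ
  calc ζ ^ 30000 * (2 * ζ ^ 120001 + 1) * ζ ^ K ≤ ζ ^ 30000 * ζ ^ 120002 * ζ ^ K :=
        Nat.mul_le_mul_right _ (Nat.mul_le_mul_left _ h1)
    _ = ζ ^ (150002 + K) := by rw [← pow_add, ← pow_add]
    _ ≤ ζ ^ (ζ ^ 90000) := Nat.pow_le_pow_right (by omega) (hK.trans h2)

theorem sp_ent (G : Measure ℝ) [IsProbabilityMeasure G] (κ : ℝ) :
    SP G (fun ζ => {ω | ¬ ENT G κ ζ ω}) := by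
  classical
  intro K
  filter_upwards [eventually_ge_atTop (150002 + K)] with ζ hK
  have hz : 9 ≤ ζ := by omega
  have hB : 1 ≤ 2 * ζ ^ 250 := by
    have : 1 ≤ ζ ^ 250 := Nat.one_le_pow _ _ (by omega)
    omega
  have hU := fun o : ℕ => Ent_union (PP G) (ζ ^ 90000) (2 * ζ ^ 250) (ζ ^ 120001) hB
    ⌊κ * (ζ : ℝ) ^ 18010⌋
    (fun H k => {ω | 100 * ((Finset.range (ζ ^ 90000)).filter
      (fun i => ¬ LowP G ζ o i (k i) (H (i + 1)) ω)).card < ζ ^ 90000})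
    (by
      intro H k H' k' h ω hω
      simp only [Set.mem_setOf_eq] at hω ⊢
      have e : (Finset.range (ζ ^ 90000)).filter (fun i => ¬ LowP G ζ o i (k' i) (H' (i + 1)) ω) =
          (Finset.range (ζ ^ 90000)).filter (fun i => ¬ LowP G ζ o i (k i) (H (i + 1)) ω) := by
        refine Finset.filter_congr (fun i hi => ?_)
        obtain ⟨e1, e2⟩ := h i (Finset.mem_range.1 hi)
        rw [e1, e2]
      rw [e]
      exact hω)
    _ (fun H k => Ent_one G (by omega) o (ζ ^ 90000) H k)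
  have hsub : {ω | ¬ ENT G κ ζ ω} ⊆ ⋃ o ∈ Finset.range (ζ ^ 30000),
      {ω | ∃ H k : ℕ → ℤ, |H 0| ≤ ((ζ ^ 120001 : ℕ) : ℤ) ∧
      ∑ i ∈ Finset.range (ζ ^ 90000), (|k i - H i| + |H (i + 1) - k i - ⌊κ * (ζ : ℝ) ^ 18010⌋|) ≤
        ((ζ ^ 90000 : ℕ) : ℤ) * ((2 * ζ ^ 250 : ℕ) : ℤ) ∧
        ω ∈ {ω | 100 * ((Finset.range (ζ ^ 90000)).filter
          (fun i => ¬ LowP G ζ o i (k i) (H (i + 1)) ω)).card < ζ ^ 90000}} := by
    intro ω hω
    simp only [Set.mem_setOf_eq, ENT, not_forall, not_le] at hω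
    obtain ⟨o, ho, H, k, h0, hs, hc⟩ := hω
    simp only [Set.mem_iUnion, Finset.mem_range]
    refine ⟨o, ho, H, k, ?_, ?_, hc⟩
    · rw [Nat.cast_pow]
      exact h0
    · have e : ((ζ ^ 90000 : ℕ) : ℤ) * ((2 * ζ ^ 250 : ℕ) : ℤ) = 2 * (ζ : ℤ) ^ 90250 := by
        have e1 : (ζ : ℤ) ^ 90250 = (ζ : ℤ) ^ 90000 * (ζ : ℤ) ^ 250 := by rw [← pow_add]
        rw [e1, Nat.cast_mul, Nat.cast_pow, Nat.cast_pow, Nat.cast_ofNat]
        generalize (ζ : ℤ) ^ 90000 = X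
        generalize (ζ : ℤ) ^ 250 = Y
        ring
      rw [e]
      exact hs
  refine le_trans (measure_mono hsub) (le_trans (measure_biUnion_finset_le _ _) ?_)
  refine le_trans (Finset.sum_le_sum (fun o _ => hU o)) ?_
  rw [Finset.sum_const, nsmul_eq_mul, Finset.card_range]
  have hn := Ent_nat (ζ := ζ) (n := ζ ^ 90000) (j := ζ ^ 90000 - ζ ^ 90000 / 100) (K := K)
    (A := ζ ^ 30000 * (2 * ζ ^ 120001 + 1)) hz (Ent_A hz hK) (by
      generalize ζ ^ 90000 = X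
      omega)
  refine le_trans (le_of_eq ?_) (Ent_fin (by omega) hn)
  generalize ENNReal.ofReal ((ζ : ℝ) ^ 510)⁻¹ ^ (ζ ^ 90000 - ζ ^ 90000 / 100) = Q
  generalize (9 * (2 * ζ ^ 250)) ^ (ζ ^ 90000) = X
  generalize ζ ^ 90000 = n
  generalize ζ ^ 30000 = l
  generalize 2 * ζ ^ 120001 + 1 = M
  push_cast
  ring

end Pool.Agent.FPP
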