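import Pool.Agent.P.MP_ecb9f8_pr.BandL
import Pool.Agent.P.MP_ecb9f8_pr.ShiftG
import Pool.Agent.P.MP_ecb9f8_pr.ProbT

open MeasureTheory ProbabilityTheory Set Filter

noncomputable section

namespace Pool.Agent.FPP

theorem FreshE_alg1 {u P : ℝ} (hP : 0 ≤ P) (hu : 0 ≤ u) (h : (u ^ 2 / 2) ^ 3 ≤ 2 * P ^ 2) :
    u ^ 3 / 4 ≤ P := by
  have h1 : (u ^ 3 / 4) ^ 2 ≤ P ^ 2 := by nlinarith
  exact (abs_le_of_sq_le_sq' h1 hP).2

theorem FreshE_aR_mono (ζ o : ℕ) {i j : ℕ} (h : i ≤ j) : aR ζ o i ≤ aR ζ o j := by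
  unfold aR
  have h1 : (i : ℤ) ≤ j := by exact_mod_cast h
  have h2 := mul_le_mul_of_nonneg_right h1 (pow_nonneg (Int.natCast_nonneg ζ) 30000)
  linarith

theorem FreshE_num1 {x : ℝ} (hx : 100 ≤ x) :
    (x ^ 11993 * x) ^ 2 * (x ^ 30000 * (3 * x ^ 6000)) ≤ (x ^ 30000) ^ 2 := by
  have h1 : (1 : ℝ) ≤ x := by linarith
  have e1 : (x ^ 11993 * x) ^ 2 * (x ^ 30000 * (3 * x ^ 6000)) = 3 * x ^ 59988 := by
    rw [← pow_succ, ← pow_mul, mul_left_comm (x ^ 30000), ← pow_add, mul_left_comm, ← pow_add]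
  have e2 : (x ^ 30000) ^ 2 = x * x ^ 59999 := by rw [← pow_mul, ← pow_succ']
  have l1 : x ^ 59988 ≤ x ^ 59999 := pow_le_pow_right₀ h1 (by norm_num)
  have l2 : 0 ≤ x ^ 59988 := by positivity
  rw [e1, e2]
  exact mul_le_mul (by linarith) l1 l2 (by linarith)

theorem FreshE_num2 {x : ℝ} (hx : 100 ≤ x) :
    ((x ^ 255)⁻¹) ^ 2 / 2 + (x ^ 600)⁻¹ ≤ (x ^ 510)⁻¹ := by
  have h1 : (1 : ℝ) ≤ x := by linarith
  have h0 : (0 : ℝ) < x := by linarith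
  have e1 : ((x ^ 255)⁻¹) ^ 2 = (x ^ 510)⁻¹ := by rw [inv_pow, ← pow_mul]
  have l1 : 2 * x ^ 510 ≤ x ^ 600 := by
    have l2 : x ^ 511 ≤ x ^ 600 := pow_le_pow_right₀ h1 (by norm_num)
    have l3 : 2 * x ^ 510 ≤ x * x ^ 510 := mul_le_mul_of_nonneg_right (by linarith) (by positivity)
    rw [← pow_succ'] at l3
    exact l3.trans l2
  have l4 : (x ^ 600)⁻¹ ≤ (2 * x ^ 510)⁻¹ := inv_anti₀ (by positivity) l1
  rw [mul_inv] at l4
  rw [e1]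
  linarith

theorem FreshE_num3 {x : ℝ} (hx : 100 ≤ x) : 2 * x ^ 6001 < x ^ 11993 - x ^ 11992 := by
  have h1 : (1 : ℝ) ≤ x := by linarith
  have l1 : x ^ 6001 ≤ x ^ 11992 := pow_le_pow_right₀ h1 (by norm_num)
  have l2 : 100 * x ^ 11992 ≤ x * x ^ 11992 := mul_le_mul_of_nonneg_right hx (by positivity)
  have l3 : 0 < x ^ 11992 := by positivity
  rw [pow_succ' x 11992]
  linarith

theorem FreshE_num4 {x n : ℝ} (hx : 100 ≤ x) (h : x ^ 90000 ≤ 200 * n) :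
    4 * x ^ 89233 ≤ n * (((x ^ 255)⁻¹) ^ 3 / 4) := by
  have h0 : (0 : ℝ) < x := by linarith
  have e1 : ((x ^ 255)⁻¹) ^ 3 = (x ^ 765)⁻¹ := by rw [inv_pow, ← pow_mul]
  have e2 : x ^ 90000 = x ^ 2 * x ^ 89233 * x ^ 765 := by rw [← pow_add, ← pow_add]
  have p1 : 0 < x ^ 765 := by positivity
  have p2 : 0 < x ^ 89233 := by positivity
  rw [e1]
  rw [e2] at h
  have l1 : 10000 ≤ x ^ 2 := by nlinarith
  generalize x ^ 765 = A at *
  generalize x ^ 89233 = B at *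
  generalize x ^ 2 = D at *
  have l2 : 10000 * (B * A) ≤ D * (B * A) := mul_le_mul_of_nonneg_right l1 (by positivity)
  have l3 : 16 * B * A ≤ n := by nlinarith [mul_pos p2 p1]
  have l4 : 16 * B ≤ n * A⁻¹ := by
    rw [← div_eq_mul_inv, le_div_iff₀ p1]; exact l3
  linarith

open Classical in
theorem FreshE_one (G : Measure ℝ) [IsProbabilityMeasure G] (hG : Law G) (L : ℕ) :
    ∀ᶠ ζ : ℕ in atTop, ∀ (p : ℕ → V) (o i : ℕ) (θ : ℝ),
      ENNReal.ofReal ((ζ : ℝ) ^ 510)⁻¹ ≤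
        PP G {ω' | ∀ q l, Comp3 true L ζ ((ζ : ℤ) ^ 6000) o p i q l →
          θ - (ζ : ℝ) ^ 11992 ≤ W ω' q 0 l} →
      (((ζ : ℝ) ^ 255)⁻¹) ^ 3 / 4 ≤
        (PP G {ω | AttrG (Comp3 true L ζ ((ζ : ℤ) ^ 6000) o p i) ∅
          (θ + 2 * (ζ : ℝ) ^ 6001) ω}).toReal := by
  filter_upwards [shift_gen G hG L 6001 600, eventually_ge_atTop 100] with ζ h1 hz p o i θ h
  have hx : (100 : ℝ) ≤ ζ := by exact_mod_cast hz
  have hz0 : 0 < ζ := by omega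
  have hw : (1 : ℤ) ≤ (ζ : ℤ) ^ 6000 := one_le_pow₀ (by exact_mod_cast hz0)
  have hw' : 1 ≤ ζ ^ 6000 := Nat.one_le_pow _ _ hz0
  have hm' : 1 ≤ ζ ^ 30000 := Nat.one_le_pow _ _ hz0
  have key := h1 (Comp3 true L ζ ((ζ : ℤ) ^ 6000) o p i)
    ((Finset.Icc ((p (sR ζ o p i)).2 - (ζ : ℤ) ^ 6000) ((p (sR ζ o p i)).2 + (ζ : ℤ) ^ 6000)).image
      (fun y => (((p (sR ζ o p i)).1, y) : V)))
    (TubeH (aR ζ o i) (aR ζ o (i + 1)) (fun x => ht p x - (ζ : ℤ) ^ 6000)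
      (fun x => ht p x + (ζ : ℤ) ^ 6000))
    (ζ ^ 30000) (ζ ^ 30000 * (3 * ζ ^ 6000)) (θ - (ζ : ℝ) ^ 11992) ((ζ : ℝ) ^ 11993)
    ((((ζ : ℝ) ^ 255)⁻¹) ^ 2 / 2) (fam_comp3 _ _ _ _ _ _ _) (Nat.le_self_pow (by norm_num) ζ)
    ?_ ?_ ?_ (by positivity) ?_ ?_ (by positivity) ?_
  · refine (FreshE_alg1 ENNReal.toReal_nonneg (by positivity) key).trans ?_
    refine ENNReal.toReal_mono (measure_ne_top _ _) (measure_mono ?_)
    intro ω hω q l hq _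
    have h2 := hω q l hq
    have h3 := FreshE_num3 hx
    linarith
  · refine Finset.card_image_le.trans ?_
    rw [Int.card_Icc]
    have e1 : (p (sR ζ o p i)).2 + (ζ : ℤ) ^ 6000 + 1 - ((p (sR ζ o p i)).2 - (ζ : ℤ) ^ 6000) =
        ((2 * ζ ^ 6000 + 1 : ℕ) : ℤ) := by
      rw [Nat.cast_add, Nat.cast_mul, Nat.cast_pow]
      generalize (ζ : ℤ) ^ 6000 = A
      push_cast
      ring
    rw [e1, Int.toNat_natCast, pow_succ' ζ 6000]
    have e2 : 100 * ζ ^ 6000 ≤ ζ * ζ ^ 6000 := Nat.mul_le_mul_right _ hz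
    generalize ζ ^ 6000 = A at *
    omega
  · refine card_tubeH_le ?_ ?_
    · rw [aR_succ, Nat.cast_pow]
      linarith
    · intro x
      rw [Nat.cast_mul, Nat.cast_pow]
      have : ((3 : ℕ) : ℤ) = 3 := rfl
      rw [this]
      linarith
  · exact Nat.mul_pos hm' (Nat.mul_pos (by norm_num) hw')
  · have := FreshE_num1 hx
    rw [Nat.cast_mul, Nat.cast_mul, Nat.cast_pow, Nat.cast_pow]
    exact this
  · intro q l hq
    obtain ⟨c1, c2, c3, c4⟩ := hq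
    refine ⟨c2, ?_, c1, c4 rfl⟩
    obtain ⟨-, d1, d2, -⟩ := c3
    refine Finset.mem_image.2 ⟨(q 0).2, Finset.mem_Icc.2 ?_, ?_⟩
    · have := abs_le.1 d2
      constructor <;> linarith [this.1, this.2]
    · rw [← d1]
  · refine (FreshE_num2 hx).trans ?_
    exact (ENNReal.ofReal_le_iff_le_toReal (measure_ne_top _ _)).1 h

theorem FreshE_chern (G : Measure ℝ) [IsProbabilityMeasure G] {ζ : ℕ} (hz : 100 ≤ ζ) (tb : Bool)
    (L : ℕ) (r : ℤ) {κ : ℝ} {p : ℕ → V} {k o : ℕ} (ho : o < ζ ^ 30000) (hc : Cls3 κ ζ p k)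
    (θ : ℕ → ℝ) (m : ℕ)
    (hsum : 4 * (m : ℝ) ≤ ∑ i ∈ Tame ζ o p,
      (PP G {ω | AttrG (Comp3 tb L ζ r o p i) ∅ (θ i) ω}).toReal) :
    PP G {ω | BadG (Tame ζ o p) (Comp3 tb L ζ r o p) ∅ θ m ω} ≤
      ENNReal.ofReal (Real.exp (-(m : ℝ))) := by
  have hz0 : 0 < ζ := by omega
  refine chernoff G (Tame ζ o p) (fun i => Reg (aR ζ o i) (aR ζ o (i + 1))) ?_
    (fun i => {ω | AttrG (Comp3 tb L ζ r o p i) ∅ (θ i) ω})
    (fun i _ => measurableSet_AttrG (fam_comp3 _ _ _ _ _ _ _) ∅ measurable_const) ?_ m hsum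
  · intro i _ j _ hij
    rcases lt_or_gt_of_ne hij with h | h
    · exact reg_disjoint (FreshE_aR_mono ζ o (Nat.succ_le_of_lt h))
    · exact (reg_disjoint (FreshE_aR_mono ζ o (Nat.succ_le_of_lt h))).symm
  · intro i hi ω ω' he hω q l hq hΦ
    have hi' : i < ζ ^ 90000 := Finset.mem_range.1 (Finset.mem_filter.1 hi).1
    obtain ⟨-, -, -, -, -, s1, s2, -⟩ :=
      piece_spec (by omega) ho hi' (mem_paths.1 hc.1).1 hc.2.1 hc.2.2.1
    have s3 : (p (eR ζ o p i)).1 = aR ζ o (i + 1) := by rw [s2]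
    have hw : (ζ : ℤ) ≤ (ζ : ℤ) ^ 30000 := le_self_pow₀ (by exact_mod_cast hz0) (by norm_num)
    have hzi : (100 : ℤ) ≤ ζ := by exact_mod_cast hz
    have huv : (p (sR ζ o p i)).1 + 2 ≤ (p (eR ζ o p i)).1 := by
      rw [s1, s3, aR_succ]
      linarith
    have e : W ω' q 0 l = W ω q 0 l := by
      rw [W_range, W_range]
      refine Finset.sum_congr rfl fun t ht => ?_
      have hm := hq.2.2.1.edge_mem huv (Finset.mem_range.1 ht)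
      rw [s1, s3] at hm
      unfold wt
      rw [he _ hm]
    rw [e]
    exact hω q l hq hΦ

open Classical in
theorem freshE (G : Measure ℝ) [IsProbabilityMeasure G] (hG : Law G) (L a : ℕ) :
    ∀ᶠ ζ : ℕ in atTop, ∀ (κ : ℝ) (p : ℕ → V) (k o : ℕ) (lam : ℕ → ℝ), o < ζ ^ 30000 →
      Cls3 κ ζ p k →
      ζ ^ 90000 ≤ 200 * ((Tame ζ o p).filter (fun i => ENNReal.ofReal ((ζ : ℝ) ^ 510)⁻¹ ≤
        PP G {ω' | ∀ q l, Comp3 true L ζ ((ζ : ℤ) ^ 6000) o p i q l →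
          lam i - (ζ : ℝ) ^ 11992 ≤ W ω' q 0 l})).card →
      PP G {ω | BadG (Tame ζ o p) (Comp3 true L ζ ((ζ : ℤ) ^ 6000) o p) ∅
        (fun i => lam i + 2 * (ζ : ℝ) ^ 6001) (ζ ^ 89233) ω} ≤
        ENNReal.ofReal (((ζ : ℝ) ^ a)⁻¹) := by
  filter_upwards [FreshE_one G hG L, eventually_ge_atTop 100, ev_exp one_pos 1 a]
    with ζ h1 hz h4 κ p k o lam ho hc hcard
  have hx : (100 : ℝ) ≤ ζ := by exact_mod_cast hz
  have hsum : 4 * ((ζ ^ 89233 : ℕ) : ℝ) ≤ ∑ i ∈ Tame ζ o p,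
      (PP G {ω | AttrG (Comp3 true L ζ ((ζ : ℤ) ^ 6000) o p i) ∅
        (lam i + 2 * (ζ : ℝ) ^ 6001) ω}).toReal := by
    have hc' := (Nat.cast_le (α := ℝ)).2 hcard
    rw [Nat.cast_pow, Nat.cast_mul] at hc'
    rw [Nat.cast_pow]
    refine (FreshE_num4 hx hc').trans ?_
    refine le_trans ?_ (Finset.sum_le_sum_of_subset_of_nonneg (Finset.filter_subset
      (fun i => ENNReal.ofReal ((ζ : ℝ) ^ 510)⁻¹ ≤
        PP G {ω' | ∀ q l, Comp3 true L ζ ((ζ : ℤ) ^ 6000) o p i q l →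
          lam i - (ζ : ℝ) ^ 11992 ≤ W ω' q 0 l}) _) fun _ _ _ => ENNReal.toReal_nonneg)
    rw [← nsmul_eq_mul]
    exact Finset.card_nsmul_le_sum _ _ _ fun i hi => h1 p o i (lam i) (Finset.mem_filter.1 hi).2
  refine le_trans (FreshE_chern G hz true L _ ho hc _ _ hsum)
    (ENNReal.ofReal_le_ofReal (le_trans ?_ h4))
  rw [one_mul, one_mul, Real.exp_le_exp, neg_le_neg_iff]
  exact Nat.cast_le.2 (Nat.le_self_pow (by norm_num) ζ)

end Pool.Agent.FPP
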