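import Pool.Agent.P.MP_ecb9f8_pr.LBAp
import Pool.Agent.P.MP_ecb9f8_pr.ShiftG

open MeasureTheory ProbabilityTheory Set Filter

noncomputable section

namespace Pool.Agent.FPP

variable (G : Measure ℝ) [IsProbabilityMeasure G]

/-- the mean against the probability of exceeding a threshold -/
theorem mean_gen (hG : Law G) (a : ℕ) :
    ∀ᶠ z : ℕ in atTop, ∀ (x y : V) (ρ : ℕ) (θ U : ℝ), z ≤ ρ → ρ ≤ z ^ a →
      nm (y - x) ≤ (ρ : ℤ) ^ 2 → (z : ℝ) * ρ ≤ U → g G (y - x) - θ ≤ U →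
      g G (y - x) - θ ≤ 2 * U * (PP G {ω | θ < d ω x y}).toReal + 1 := by
  obtain ⟨c, C, hc, -, H⟩ := conc G hG
  obtain ⟨C₁, -, H₁, -⟩ := moment_d G hG
  filter_upwards [ev_exp (half_pos hc) C (4 * a + 1),
    tendsto_natCast_atTop_atTop.eventually_ge_atTop C₁, eventually_ge_atTop 1]
    with z h1 h2 h3 x y ρ θ U h4 h5 h6 h7 h8
  have z1 : (1 : ℝ) ≤ z := by exact_mod_cast h3
  have z0 : (0 : ℝ) < z := by linarith
  have r1 : (z : ℝ) ≤ ρ := by exact_mod_cast h4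
  have r2 : (ρ : ℝ) ≤ (z : ℝ) ^ a := by exact_mod_cast h5
  have r0 : 0 ≤ (z : ℝ) * ρ := by positivity
  rw [← integral_d G x y] at h8 ⊢
  have key := Fresh2_core (PP G) (measurable_d x y) (memLp_d G hG x y) (fun ω => d_nonneg ω x y)
    (lam := θ + U / 3) (T := U / 3) (U := 2 * U / 3) (M := (z : ℝ) ^ (4 * a + 1))
    (by linarith) (by linarith) (pow_pos z0 _) (by linarith) ((H₁ x y).trans ?_) ?_
  · rw [add_sub_cancel_right, measureReal_def] at key
    linarith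
  · have n0 : (0 : ℝ) ≤ nm (y - x) := by exact_mod_cast le_max_of_le_left (abs_nonneg _)
    have n1 : (nm (y - x) : ℝ) ≤ (ρ : ℝ) ^ 2 := by exact_mod_cast h6
    rw [show (z : ℝ) ^ (4 * a + 1) = z * (((z : ℝ) ^ a) ^ 2) ^ 2 by ring]
    exact mul_le_mul h2 (pow_le_pow_left₀ n0 (n1.trans (pow_le_pow_left₀ (by positivity) r2 2)) 2)
      (sq_nonneg _) z0.le
  · have h9 := H ρ x y h6 (z / 2) (by positivity) (by linarith)
    rw [← integral_d G x y, show c * ((z : ℝ) / 2) = c / 2 * z by ring] at h9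
    refine ENNReal.toReal_le_of_le_ofReal (by positivity)
      (((measure_mono fun ω hω => ?_).trans h9).trans (ENNReal.ofReal_le_ofReal h1))
    exact lt_of_le_of_lt (show (z : ℝ) / 2 * ρ ≤ 2 * U / 3 by linarith) hω

/-- walks between neighbourhoods of `u` and `v` are not much lighter than `d u v` -/
theorem comp_ge (hG : Law G) (a k : ℕ) :
    ∀ᶠ z : ℕ in atTop, ∀ (C : (ℕ → V) → ℕ → Prop) (u v : V) (A B : Finset V) (K : ℕ) (θ : ℝ),
      z ^ 2 ≤ K → A.card ≤ z ^ a → B.card ≤ z ^ a → (∀ x ∈ A, nm (x - u) ≤ (K : ℤ)) →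
      (∀ y ∈ B, nm (y - v) ≤ (K : ℤ)) → (∀ q l, C q l → Chain q l ∧ q 0 ∈ A ∧ q l ∈ B) →
      (PP G {ω | θ < d ω u v}).toReal ≤
        (PP G {ω | ∀ q l, C q l → θ - 2 * ((z : ℝ) * K) < W ω q 0 l}).toReal +
          ((z : ℝ) ^ k)⁻¹ := by
  filter_upwards [short_gen G hG (k + a + 1), eventually_ge_atTop 2]
    with z H h2 C u v A B K θ hK hA hB hu hv hC
  have z2 : (2 : ℝ) ≤ z := by exact_mod_cast h2
  have z0 : (0 : ℝ) < z := by linarith
  have hsub : {ω | θ < d ω u v} ⊆ {ω | ∀ q l, C q l → θ - 2 * ((z : ℝ) * K) < W ω q 0 l} ∪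
      ((⋃ x ∈ A, {ω | (z : ℝ) * K < d ω u x}) ∪ ⋃ y ∈ B, {ω | (z : ℝ) * K < d ω v y}) := by
    intro ω hω
    by_contra hn
    simp only [mem_union, mem_iUnion, mem_ofPred_eq, not_or, not_exists, not_lt] at hn hω
    obtain ⟨h3, h4, h5⟩ := hn
    refine h3 fun q l hq => ?_
    obtain ⟨c1, c2, c3⟩ := hC q l hq
    have e1 := d_triangle ω u (q 0) v
    have e2 := d_triangle ω (q 0) (q l) v
    have e3 := d_le_W ω c1 (Nat.zero_le l) le_rfl
    have e4 := h4 _ c2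
    have e5 := h5 _ c3
    rw [d_comm] at e5
    linarith
  have hb : ∀ (S : Finset V) (w : V), S.card ≤ z ^ a → (∀ x ∈ S, nm (x - w) ≤ (K : ℤ)) →
      (PP G).real (⋃ x ∈ S, {ω | (z : ℝ) * K < d ω w x}) ≤ ((z : ℝ) ^ k)⁻¹ / 2 := by
    intro S w h3 h4
    refine (measureReal_biUnion_finset_le _ _).trans ?_
    refine (Finset.sum_le_card_nsmul _ _ (((z : ℝ) ^ (k + a + 1))⁻¹) fun x hx =>
      ENNReal.toReal_le_of_le_ofReal (by positivity) (H w x K hK (h4 x hx))).trans ?_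
    have h5 : (S.card : ℝ) ≤ (z : ℝ) ^ a := by exact_mod_cast h3
    rw [nsmul_eq_mul]
    calc (S.card : ℝ) * ((z : ℝ) ^ (k + a + 1))⁻¹ ≤ (z : ℝ) ^ a * ((z : ℝ) ^ (k + a + 1))⁻¹ :=
          mul_le_mul_of_nonneg_right h5 (by positivity)
      _ = ((z : ℝ) ^ k)⁻¹ / z := by
          field_simp
          ring
      _ ≤ ((z : ℝ) ^ k)⁻¹ / 2 := div_le_div_of_nonneg_left (by positivity) two_pos z2
  have h6 := (measureReal_mono (μ := PP G) hsub).trans (measureReal_union_le _ _)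
  have h7 := measureReal_union_le (μ := PP G) (⋃ x ∈ A, {ω | (z : ℝ) * K < d ω u x})
    (⋃ y ∈ B, {ω | (z : ℝ) * K < d ω v y})
  have h8 := hb A u hA hu
  have h9 := hb B v hB hv
  change (PP G).real _ ≤ (PP G).real _ + _
  linarith

end Pool.Agent.FPP
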