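import Pool.Agent.P.MP_ecb9f8_pr.BandL
import Pool.Agent.P.MP_ecb9f8_pr.MeanG
import Pool.Agent.P.MP_ecb9f8_pr.ProbT
import Pool.Agent.P.MP_ecb9f8_pr.FreshE

open MeasureTheory ProbabilityTheory Set Filter

noncomputable section

namespace Pool.Agent.FPP

/-- the vertical segment of half-length `r` about `u` -/
def FreshF_seg (u : V) (r : ℤ) : Finset V :=
  (Finset.Icc (u.2 - r) (u.2 + r)).image (fun y => ((u.1, y) : V))

theorem FreshF_mem {u x : V} {r : ℤ} (h1 : x.1 = u.1) (h2 : |x.2 - u.2| ≤ r) :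
    x ∈ FreshF_seg u r := by
  refine Finset.mem_image.2 ⟨x.2, Finset.mem_Icc.2 ?_, ?_⟩
  · have := abs_le.1 h2
    constructor <;> linarith [this.1, this.2]
  · rw [← h1]

theorem FreshF_nm {u x : V} {r : ℤ} (h : x ∈ FreshF_seg u r) : nm (x - u) ≤ r := by
  obtain ⟨y, hy, rfl⟩ := Finset.mem_image.1 h
  obtain ⟨h1, h2⟩ := Finset.mem_Icc.1 hy
  refine nm_le_iff.2 ⟨?_, ?_⟩
  · simp only [Prod.fst_sub, sub_self, abs_zero]
    linarith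
  · simp only [Prod.snd_sub]
    exact abs_le.2 ⟨by linarith, by linarith⟩

theorem FreshF_card (u : V) (r : ℕ) : (FreshF_seg u r).card ≤ 2 * r + 1 := by
  refine Finset.card_image_le.trans ?_
  rw [Int.card_Icc]
  have e1 : u.2 + (r : ℤ) + 1 - (u.2 - (r : ℤ)) = ((2 * r + 1 : ℕ) : ℤ) := by
    push_cast
    ring
  rw [e1, Int.toNat_natCast]

theorem FreshF_one (G : Measure ℝ) [IsProbabilityMeasure G] (hG : Law G) (L : ℕ) :
    ∀ᶠ ζ : ℕ in atTop, ∀ (p : ℕ → V) (o i : ℕ) (θ : ℝ), i ∈ Tame ζ o p →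
      g G (p (eR ζ o p i) - p (sR ζ o p i)) - θ ≤ (ζ : ℝ) ^ 15002 →
      g G (p (eR ζ o p i) - p (sR ζ o p i)) - θ ≤
        2 * (ζ : ℝ) ^ 15002 * (PP G {ω | AttrG (Comp3 false L ζ ((ζ : ℤ) ^ 12236) o p i) ∅
          (θ + 2 * (ζ : ℝ) ^ 12237) ω}).toReal + 7 * (ζ : ℝ) ^ 12237 := by
  filter_upwards [mean_gen G hG 15001, comp_ge G hG 12237 3000, eventually_ge_atTop 100]
    with ζ h1 h2 hz p o i θ hi hD
  have hx : (100 : ℝ) ≤ ζ := by exact_mod_cast hz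
  have hx1 : (1 : ℝ) ≤ ζ := by linarith
  have hz0 : 0 < ζ := by omega
  have hT : nm (p (eR ζ o p i) - p (sR ζ o p i)) ≤ 3 * (ζ : ℤ) ^ 30000 :=
    (Finset.mem_filter.1 hi).2
  have p0 : (0 : ℝ) < (ζ : ℝ) ^ 12237 := by positivity
  have k1 := h1 (p (sR ζ o p i)) (p (eR ζ o p i)) (2 * ζ ^ 15000) (θ + 4 * (ζ : ℝ) ^ 12237)
    ((ζ : ℝ) ^ 15002) ?_ ?_ ?_ ?_ (by linarith)
  rotate_left
  · have := Nat.le_self_pow (n := 15000) (by norm_num) ζ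
    generalize ζ ^ 15000 = A at *
    omega
  · rw [pow_succ' ζ 15000]
    exact Nat.mul_le_mul_right _ (by omega)
  · have c1 : ((ζ : ℤ) ^ 15000) ^ 2 = (ζ : ℤ) ^ 30000 := by rw [← pow_mul]
    have c2 : ((2 : ℕ) : ℤ) ^ 2 = 4 := by norm_num
    have p1 : (0 : ℤ) ≤ (ζ : ℤ) ^ 30000 := by positivity
    rw [Nat.cast_mul, Nat.cast_pow, mul_pow, c1, c2]
    linarith
  · rw [Nat.cast_mul, Nat.cast_pow, mul_left_comm, ← pow_succ', pow_succ' (ζ : ℝ) 15001]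
    exact mul_le_mul_of_nonneg_right (by push_cast; linarith) (by positivity)
  have hcard : ∀ u : V, (FreshF_seg u ((ζ ^ 12236 : ℕ) : ℤ)).card ≤ ζ ^ 12237 := by
    intro u
    refine (FreshF_card u _).trans ?_
    rw [pow_succ' ζ 12236]
    have e1 : 1 ≤ ζ ^ 12236 := Nat.one_le_pow _ _ hz0
    have e2 : 100 * ζ ^ 12236 ≤ ζ * ζ ^ 12236 := Nat.mul_le_mul_right _ hz
    generalize ζ ^ 12236 = A at *
    omega
  have k2 := h2 (Comp3 false L ζ ((ζ : ℤ) ^ 12236) o p i) (p (sR ζ o p i)) (p (eR ζ o p i))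
    (FreshF_seg (p (sR ζ o p i)) ((ζ ^ 12236 : ℕ) : ℤ))
    (FreshF_seg (p (eR ζ o p i)) ((ζ ^ 12236 : ℕ) : ℤ)) (ζ ^ 12236) (θ + 4 * (ζ : ℝ) ^ 12237)
    (Nat.pow_le_pow_right hz0 (by norm_num)) (hcard _) (hcard _) (fun x hx => FreshF_nm hx)
    (fun x hx => FreshF_nm hx) (by
      intro q l hq
      obtain ⟨c1, c2, c3, c4, c5, -⟩ := hq.2.2.1
      rw [Nat.cast_pow]
      exact ⟨c1, FreshF_mem c2 c3, FreshF_mem c4 c5⟩)
  have k3 : (PP G {ω | ∀ q l, Comp3 false L ζ ((ζ : ℤ) ^ 12236) o p i q l →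
      θ + 4 * (ζ : ℝ) ^ 12237 - 2 * ((ζ : ℝ) * ((ζ ^ 12236 : ℕ) : ℝ)) < W ω q 0 l}).toReal ≤
      (PP G {ω | AttrG (Comp3 false L ζ ((ζ : ℤ) ^ 12236) o p i) ∅
          (θ + 2 * (ζ : ℝ) ^ 12237) ω}).toReal := by
    refine ENNReal.toReal_mono (measure_ne_top _ _) (measure_mono ?_)
    intro ω hω q l hq _
    have h3 := hω q l hq
    have c1 : (ζ : ℝ) * (ζ : ℝ) ^ 12236 = (ζ : ℝ) ^ 12237 := (pow_succ' _ _).symm
    rw [Nat.cast_pow, c1] at h3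
    linarith
  have e1 : (ζ : ℝ) ^ 15002 * ((ζ : ℝ) ^ 3000)⁻¹ = (ζ : ℝ) ^ 12002 := by
    rw [mul_inv_eq_iff_eq_mul₀ (by positivity), ← pow_add]
  have l1 : (ζ : ℝ) ^ 12002 ≤ (ζ : ℝ) ^ 12237 := pow_le_pow_right₀ hx1 (by norm_num)
  have l2 : (1 : ℝ) ≤ (ζ : ℝ) ^ 12237 := one_le_pow₀ hx1
  have p2 : (0 : ℝ) ≤ 2 * (ζ : ℝ) ^ 15002 := by positivity
  have k4 := mul_le_mul_of_nonneg_left (k2.trans (add_le_add k3 le_rfl)) p2
  rw [mul_add, mul_assoc 2 _ (((ζ : ℝ) ^ 3000)⁻¹), e1] at k4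
  linarith

theorem FreshF_num {x n Q : ℝ} (hx : 100 ≤ x) (hn : n ≤ x ^ 90000)
    (h : x ^ 102239 ≤ 2 * x ^ 15002 * Q + n * (7 * x ^ 12237)) : 4 * x ^ 87234 ≤ Q := by
  have h0 : (0 : ℝ) < x := by linarith
  have h1 : (1 : ℝ) ≤ x := by linarith
  have l1 : n * (7 * x ^ 12237) ≤ 7 * x ^ 102237 := by
    have := mul_le_mul_of_nonneg_right hn (show 0 ≤ 7 * x ^ 12237 by positivity)
    rwa [mul_left_comm (x ^ 90000), ← pow_add] at this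
  have l2 : x ^ 102236 ≤ x ^ 102237 := pow_le_pow_right₀ h1 (by norm_num)
  have l3 : 100 * x ^ 102237 ≤ x ^ 102239 := by
    have l4 : 100 * x ^ 102237 ≤ x * x ^ 102237 := mul_le_mul_of_nonneg_right hx (by positivity)
    rw [← pow_succ'] at l4
    exact l4.trans (pow_le_pow_right₀ h1 (by norm_num))
  have e1 : 2 * x ^ 15002 * (4 * x ^ 87234) = 8 * x ^ 102236 := by
    rw [mul_mul_mul_comm, ← pow_add]
    have : (2 : ℝ) * 4 = 8 := by norm_num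
    rw [this]
  have p1 : 0 < x ^ 102237 := by positivity
  have l5 : 2 * x ^ 15002 * (4 * x ^ 87234) ≤ 2 * x ^ 15002 * Q := by
    rw [e1]
    linarith
  exact le_of_mul_le_mul_left l5 (by positivity)

theorem freshF (G : Measure ℝ) [IsProbabilityMeasure G] (hG : Law G) (L a : ℕ) :
    ∀ᶠ ζ : ℕ in atTop, ∀ (κ : ℝ) (p : ℕ → V) (k o : ℕ) (lam : ℕ → ℝ), o < ζ ^ 30000 →
      Cls3 κ ζ p k →
      (∀ i ∈ Tame ζ o p, g G (p (eR ζ o p i) - p (sR ζ o p i)) - lam i ≤ (ζ : ℝ) ^ 15002) →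
      (ζ : ℝ) ^ 102239 ≤ ∑ i ∈ Tame ζ o p, (g G (p (eR ζ o p i) - p (sR ζ o p i)) - lam i) →
      PP G {ω | BadG (Tame ζ o p) (Comp3 false L ζ ((ζ : ℤ) ^ 12236) o p) ∅
        (fun i => lam i + 2 * (ζ : ℝ) ^ 12237) (ζ ^ 87234) ω} ≤
        ENNReal.ofReal (((ζ : ℝ) ^ a)⁻¹) := by
  filter_upwards [FreshF_one G hG L, eventually_ge_atTop 100, ev_exp one_pos 1 a]
    with ζ h1 hz h4 κ p k o lam ho hc t1 t2
  have hx : (100 : ℝ) ≤ ζ := by exact_mod_cast hz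
  have hsum : 4 * ((ζ ^ 87234 : ℕ) : ℝ) ≤ ∑ i ∈ Tame ζ o p,
      (PP G {ω | AttrG (Comp3 false L ζ ((ζ : ℤ) ^ 12236) o p i) ∅
        (lam i + 2 * (ζ : ℝ) ^ 12237) ω}).toReal := by
    have s1 := Finset.sum_le_sum (s := Tame ζ o p) fun i hi => h1 p o i (lam i) hi (t1 i hi)
    rw [Finset.sum_add_distrib, ← Finset.mul_sum, Finset.sum_const, nsmul_eq_mul] at s1
    have hn : (Tame ζ o p).card ≤ ζ ^ 90000 :=
      (Finset.card_filter_le _ _).trans (Finset.card_range _).le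
    have hn' := (Nat.cast_le (α := ℝ)).2 hn
    rw [Nat.cast_pow] at hn'
    rw [Nat.cast_pow]
    exact FreshF_num hx hn' (t2.trans s1)
  refine le_trans (FreshE_chern G hz false L _ ho hc _ _ hsum)
    (ENNReal.ofReal_le_ofReal (le_trans ?_ h4))
  rw [one_mul, one_mul, Real.exp_le_exp, neg_le_neg_iff]
  exact Nat.cast_le.2 (Nat.le_self_pow (by norm_num) ζ)

end Pool.Agent.FPP
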