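import Pool.Agent.P.MP_ecb9f8_pr.ShiftG

open MeasureTheory ProbabilityTheory Set Filter

noncomputable section

namespace Pool.Agent.FPP

theorem HarG_bad_of {I : Finset ℕ} {C : ℕ → (ℕ → V) → ℕ → Prop} {Φ Φ' : Set E} {θ θ' : ℕ → ℝ}
    {m : ℕ} {ω ω' : Env} (h : ∀ i ∈ I, AttrG (C i) Φ' (θ' i) ω' → AttrG (C i) Φ (θ i) ω)
    (hb : BadG I C Φ θ m ω) : BadG I C Φ' θ' m ω' := by
  classical
  unfold BadG at hb ⊢
  refine lt_of_le_of_lt (Finset.card_le_card ?_) hb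
  intro i hi
  rw [Finset.mem_filter] at hi ⊢
  exact ⟨hi.1, h i hi.1 hi.2⟩

theorem HarG_meas (I : Finset ℕ) {C : ℕ → (ℕ → V) → ℕ → Prop} (hC : ∀ i, Fam (C i)) (Φ : Set E)
    {θ : Env → ℕ → ℝ} (mθ : ∀ i, Measurable fun ω => θ ω i) (m : ℕ) :
    MeasurableSet {ω : Env | BadG I C Φ (θ ω) m ω} := by
  classical
  unfold BadG
  simp only [Finset.card_filter]
  refine measurableSet_lt (Finset.measurable_sum _ fun i _ => ?_) measurable_const
  exact Measurable.ite (measurableSet_AttrG (hC i) Φ (mθ i)) measurable_const measurable_const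

theorem HarG_box (B : ℤ) : ∃ T : Finset E, ∀ u v : V, nm u ≤ B → nm v ≤ B → s(u, v) ∈ T := by
  classical
  refine ⟨((Finset.Icc (-B) B ×ˢ Finset.Icc (-B) B) ×ˢ (Finset.Icc (-B) B ×ˢ Finset.Icc (-B) B)).image
    fun a : V × V => s(a.1, a.2), fun u v hu hv => Finset.mem_image.2 ⟨(u, v), ?_, rfl⟩⟩
  rw [nm_le_iff, abs_le, abs_le] at hu hv
  simp only [Finset.mem_product, Finset.mem_Icc]
  exact ⟨hu, hv⟩

theorem HarG_upd_le {ω : Env} {e : E} {x : ℝ} (hx : x ≤ ω e) (q : ℕ → V) (i j : ℕ) :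
    W (Function.update ω e x) q i j ≤ W ω q i j := by
  refine AttProb_W_le (fun e' => ?_) q i j
  by_cases h : e' = e
  · subst h; simpa using hx
  · rw [Function.update_of_ne h]

theorem HarG_le_upd {ω : Env} {e : E} {x : ℝ} (hx : ω e ≤ x) (q : ℕ → V) (i j : ℕ) :
    W ω q i j ≤ W (Function.update ω e x) q i j := by
  refine AttProb_W_le (fun e' => ?_) q i j
  by_cases h : e' = e
  · subst h; simpa using hx
  · rw [Function.update_of_ne h]

/-- Harris step for one walk -/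
theorem HarG_one (G : Measure ℝ) [IsProbabilityMeasure G] (I : Finset ℕ)
    {C : ℕ → (ℕ → V) → ℕ → Prop} (hC : ∀ i, Fam (C i)) (s e : ℕ → ℕ) (w : ℝ) (m : ℕ)
    {p : ℕ → V} {k : ℕ} (he : ∀ i ∈ I, e i ≤ k) {B : ℤ}
    (hB : ∀ i ∈ I, ∀ q l, C i q l → ∀ j ≤ l, nm (q j) ≤ B) :
    PP G ({ω | Best p k ω} ∩
        {ω | BadG I C (edges p k) (fun i => W ω p (s i) (e i) + w) m ω}) ≤
      ∫⁻ ω in {ω | Best p k ω},
        PP G {ω' | BadG I C ∅ (fun i => W ω p (s i) (e i) + w) m ω'} ∂(PP G) := by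
  classical
  obtain ⟨T, hT⟩ := HarG_box B
  set S' : Finset E := T.filter (fun f => f ∉ edges p k) with hS'
  have hno : ∀ t < k, ed p t ∉ S' := fun t ht h => (Finset.mem_filter.1 h).2 ⟨t, ht, rfl⟩
  have hup : ∀ (ω : Env) (f : E) (x : ℝ), f ∈ S' → ∀ a b, b ≤ k →
      W (Function.update ω f x) p a b = W ω p a b := fun ω f x hf a b hb =>
    AttProb_W_congr fun t _ ht =>
      Function.update_of_ne (fun h => hno t (by omega) (by rw [h]; exact hf)) _ _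
  refine le_trans (harris G S' (AttProb_meas_best p k)
    (HarG_meas I hC _ (θ := fun ω i => W ω p (s i) (e i) + w)
      (fun i => (measurable_W p _ _).add_const w) m) ?_ ?_) ?_
  · intro ω hω f hf x hx q l hq hl hne
    rw [hup ω f x hf 0 k le_rfl]
    exact lt_of_lt_of_le (hω q l hq hl hne) (HarG_le_upd hx q 0 l)
  · intro ω hω f hf x hx
    simp only [mem_setOf_eq] at hω ⊢
    refine HarG_bad_of (fun i hi ha q l hq hΦ => ?_) hω
    have h1 := ha q l hq hΦ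
    simp only [hup ω f x hf _ _ (he i hi)] at h1
    exact lt_of_lt_of_le h1 (HarG_upd_le hx q 0 l)
  · refine lintegral_mono (fun ω => measure_mono (fun ω' hω' => ?_))
    simp only [mem_setOf_eq] at hω' ⊢
    refine HarG_bad_of (fun i hi ha q l hq hΦ => ?_) hω'
    have h1 : W (mix (S' : Set E) ω ω') p (s i) (e i) = W ω p (s i) (e i) := by
      refine AttProb_W_congr (fun t _ ht => ?_)
      unfold mix
      rw [if_neg (by simpa using hno t (lt_of_lt_of_le ht (he i hi)))]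
    have h2 : W (mix (S' : Set E) ω ω') q 0 l = W ω' q 0 l := by
      refine AttProb_W_congr (fun j _ hj => ?_)
      unfold mix
      rw [if_pos]
      exact Finset.mem_coe.2 (Finset.mem_filter.2
        ⟨hT _ _ (hB i hi q l hq j hj.le) (hB i hi q l hq (j + 1) hj), hΦ j hj⟩)
    simp only [h1, h2]
    exact ha q l hq (fun _ _ h => h)

/-- the bound for fixed end points -/
theorem HarG_ends (G : Measure ℝ) [IsProbabilityMeasure G]
    (Cl : (ℕ → V) → ℕ → Prop) (Bd : (ℕ → V) → ℕ → Set Env) (F : (ℕ → V) → Env → ENNReal)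
    (Gd : Set Env) (ε : ENNReal) (hCl : ∀ p k, Cl p k → p ∈ paths (p 0) k)
    (h1 : ∀ p k, Cl p k →
      PP G ({ω | Best p k ω} ∩ Bd p k) ≤ ∫⁻ ω in {ω | Best p k ω}, F p ω ∂(PP G))
    (hF : ∀ p ω, F p ω ≤ 1) (hfr : ∀ ω ∈ Gd, ∀ p k, Cl p k → Geo ω p k → F p ω ≤ ε) (x y : V) :
    PP G {ω | ∃ (p : ℕ → V) (k : ℕ), Cl p k ∧ p 0 = x ∧ p k = y ∧ Best p k ω ∧ ω ∈ Bd p k} ≤
      PP G Gdᶜ + ε := by
  classical
  set J : Set (ℕ × (ℕ → V)) := {a | Cl a.2 a.1 ∧ a.2 0 = x ∧ a.2 a.1 = y} with hJ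
  have hJc : J.Countable := by
    refine Set.Countable.mono (s₂ := ⋃ k : ℕ, (fun p => (k, p)) '' (paths x k : Set (ℕ → V))) ?_
      (Set.countable_iUnion (fun k => (Finset.countable_toSet _).image _))
    rintro ⟨k, p⟩ ⟨h1, h2, -⟩
    refine mem_iUnion.2 ⟨k, p, ?_, rfl⟩
    have := hCl _ _ h1
    simp only at h2 this
    rw [h2] at this
    exact this
  set C : Set Env := toMeasurable (PP G) Gdᶜ with hC
  have mC : MeasurableSet C := measurableSet_toMeasurable _ _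
  have hsub : {ω | ∃ (p : ℕ → V) (k : ℕ), Cl p k ∧ p 0 = x ∧ p k = y ∧ Best p k ω ∧ ω ∈ Bd p k} ⊆
      ⋃ a ∈ J, ({ω | Best a.2 a.1 ω} ∩ Bd a.2 a.1) := by
    rintro ω ⟨p, k, h1, h2, h3, h4, h5⟩
    exact mem_biUnion (x := (k, p)) ⟨h1, h2, h3⟩ ⟨h4, h5⟩
  have hdisj : J.PairwiseDisjoint (fun a => {ω | Best a.2 a.1 ω}) := by
    rintro ⟨k, p⟩ ⟨h1, h2, h3⟩ ⟨l, q⟩ ⟨g1, g2, g3⟩ hne
    refine Set.disjoint_left.2 (fun ω ha hb => ?_)
    simp only [mem_setOf_eq] at ha hb h1 h2 h3 g1 g2 g3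
    have hne1 : l ≠ k ∨ q ≠ p := by
      by_contra h
      push Not at h
      exact hne (by rw [h.1, h.2])
    have hne2 : k ≠ l ∨ p ≠ q := hne1.imp Ne.symm Ne.symm
    have a1 := ha q l (by rw [h2, ← g2]; exact hCl _ _ g1) (by rw [g3, h3]) hne1
    have a2 := hb p k (by rw [g2, ← h2]; exact hCl _ _ h1) (by rw [g3, h3]) hne2
    exact lt_asymm a1 a2
  refine le_trans (measure_mono hsub) (le_trans (measure_biUnion_le _ hJc _) ?_)
  have hstep : ∀ a : J, PP G ({ω | Best a.1.2 a.1.1 ω} ∩ Bd a.1.2 a.1.1) ≤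
      ∫⁻ ω in {ω | Best a.1.2 a.1.1 ω}, (C.indicator 1 ω + ε) ∂(PP G) := by
    rintro ⟨⟨k, p⟩, g1, g2, g3⟩
    simp only at g1 g2 g3 ⊢
    refine le_trans (h1 p k g1) (setLIntegral_mono' (AttProb_meas_best p k) ?_)
    intro ω hω
    by_cases hc : ω ∈ C
    · rw [Set.indicator_of_mem hc]
      exact le_trans (hF p ω) le_self_add
    · have hcon : ω ∈ Gd := by
        by_contra h
        exact hc (subset_toMeasurable _ _ h)
      have hg : Geo ω p k := AttProb_geo_of_best (mem_paths.1 (hCl _ _ g1)).1 hω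
      exact le_trans (hfr ω hcon p k g1 hg) le_add_self
  refine le_trans (ENNReal.tsum_le_tsum hstep) ?_
  rw [← lintegral_biUnion hJc (fun a _ => AttProb_meas_best a.2 a.1) hdisj]
  refine le_trans (setLIntegral_le_lintegral _ _) ?_
  rw [lintegral_add_right _ measurable_const, lintegral_indicator_one mC, lintegral_const,
    measure_univ, mul_one, hC, measure_toMeasurable]

/-- Harris inequality and a union over the end points -/
theorem har_gen (G : Measure ℝ) [IsProbabilityMeasure G] (hG : Law G)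
    (Cl : (ℕ → V) → ℕ → Prop) (I : (ℕ → V) → Finset ℕ)
    (C : (ℕ → V) → ℕ → (ℕ → V) → ℕ → Prop) (s e : (ℕ → V) → ℕ → ℕ) (w : ℝ) (m : ℕ)
    (Ends : Finset (V × V)) (Gd : Set Env) (ε : ENNReal)
    (hC : ∀ p i, Fam (C p i))
    (hCl : ∀ p k, Cl p k → p ∈ paths (p 0) k ∧ (p 0, p k) ∈ Ends ∧ (∀ i ∈ I p, e p i ≤ k) ∧
      ∃ B : ℤ, ∀ i ∈ I p, ∀ q l, C p i q l → ∀ j ≤ l, nm (q j) ≤ B)
    (hfr : ∀ ω ∈ Gd, ∀ p k, Cl p k → Geo ω p k →
      PP G {ω' | BadG (I p) (C p) ∅ (fun i => W ω p (s p i) (e p i) + w) m ω'} ≤ ε) :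
    PP G {ω | ∃ p k, Cl p k ∧ Geo ω p k ∧
        BadG (I p) (C p) (edges p k) (fun i => W ω p (s p i) (e p i) + w) m ω} ≤
      (Ends.card : ENNReal) * (PP G Gdᶜ + ε) := by
  have key := HarG_ends G Cl
    (fun p k => {ω | BadG (I p) (C p) (edges p k) (fun i => W ω p (s p i) (e p i) + w) m ω})
    (fun p ω => PP G {ω' | BadG (I p) (C p) ∅ (fun i => W ω p (s p i) (e p i) + w) m ω'}) Gd ε
    (fun p k h => (hCl p k h).1)
    (fun p k h => by
      obtain ⟨-, -, h3, B, h4⟩ := hCl p k h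
      exact HarG_one G (I p) (hC p) (s p) (e p) w m h3 h4)
    (fun p ω => prob_le_one) hfr
  refine le_trans (measure_mono_ae (t := ⋃ a ∈ Ends, {ω | ∃ (p : ℕ → V) (k : ℕ), Cl p k ∧
    p 0 = a.1 ∧ p k = a.2 ∧ Best p k ω ∧ ω ∈ {ω | BadG (I p) (C p) (edges p k)
      (fun i => W ω p (s p i) (e p i) + w) m ω}}) ?_) ?_
  · filter_upwards [ae_nice G hG] with ω hn
    rintro ⟨p, k, h1, h2, h3⟩
    exact mem_biUnion (x := (p 0, p k)) (hCl p k h1).2.1
      ⟨p, k, h1, rfl, rfl, AttProb_best_of_geo hn (hCl p k h1).1 h2, h3⟩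
  · refine le_trans (measure_biUnion_finset_le _ _) ?_
    refine le_trans (Finset.sum_le_card_nsmul _ _ _ fun a _ => key a.1 a.2) ?_
    rw [nsmul_eq_mul]

end Pool.Agent.FPP
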