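import Pool.Agent.P.MP_ecb9f8_pr.Defs2

open MeasureTheory ProbabilityTheory Set Filter

noncomputable section

namespace Pool.Agent.FPP

theorem frm_apply (t : Fr) (v : V) : frm t v = fr t v := rfl

theorem frm_symm_apply (t : Fr) (v : V) : (frm t).symm v = fri t v := rfl

theorem aff_apply (t : Fr) (u v : V) : aff t u v = fr t v + u := rfl

theorem aff_symm_apply (t : Fr) (u v : V) : (aff t u).symm v = fri t (v - u) := by
  rw [Equiv.symm_apply_eq, aff_apply]
  have : fr t (fri t (v - u)) = v - u := (frm t).apply_symm_apply (v - u)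
  rw [this, sub_add_cancel]

theorem fr_fri {α : Type} [InvolutiveNeg α] (t : Fr) (v : α × α) : fr t (fri t v) = v := by
  obtain ⟨a, b, c⟩ := t
  cases a <;> cases b <;> cases c <;> simp [fr, fri]

theorem fri_fr {α : Type} [InvolutiveNeg α] (t : Fr) (v : α × α) : fri t (fr t v) = v := by
  obtain ⟨a, b, c⟩ := t
  cases a <;> cases b <;> cases c <;> simp [fr, fri]

theorem fr_add {α : Type} [AddCommGroup α] (t : Fr) (u v : α × α) :
    fr t (u + v) = fr t u + fr t v := by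
  obtain ⟨a, b, c⟩ := t
  cases a <;> cases b <;> cases c <;> ext <;> simp [fr, add_comm]

theorem fr_sub {α : Type} [AddCommGroup α] (t : Fr) (u v : α × α) :
    fr t (u - v) = fr t u - fr t v := by
  obtain ⟨a, b, c⟩ := t
  cases a <;> cases b <;> cases c <;> ext <;> simp [fr, sub_eq_add_neg, add_comm]

theorem fri_add {α : Type} [AddCommGroup α] (t : Fr) (u v : α × α) :
    fri t (u + v) = fri t u + fri t v := by
  obtain ⟨a, b, c⟩ := t
  cases a <;> cases b <;> cases c <;> ext <;> simp [fri, add_comm]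

theorem fri_sub {α : Type} [AddCommGroup α] (t : Fr) (u v : α × α) :
    fri t (u - v) = fri t u - fri t v := by
  obtain ⟨a, b, c⟩ := t
  cases a <;> cases b <;> cases c <;> ext <;> simp [fri, sub_eq_add_neg, add_comm]

theorem fr_zero {α : Type} [AddCommGroup α] (t : Fr) : fr t (0 : α × α) = 0 := by
  obtain ⟨a, b, c⟩ := t
  cases a <;> cases b <;> cases c <;> simp [fr]

theorem fri_zero {α : Type} [AddCommGroup α] (t : Fr) : fri t (0 : α × α) = 0 := by
  obtain ⟨a, b, c⟩ := t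
  cases a <;> cases b <;> cases c <;> simp [fri]

theorem fr_smul (t : Fr) (a : ℝ) (v : ℝ × ℝ) : fr t (a • v) = a • fr t v := by
  obtain ⟨x, b, c⟩ := t
  cases x <;> cases b <;> cases c <;> ext <;> simp [fr]

theorem fri_smul (t : Fr) (a : ℝ) (v : ℝ × ℝ) : fri t (a • v) = a • fri t v := by
  obtain ⟨x, b, c⟩ := t
  cases x <;> cases b <;> cases c <;> ext <;> simp [fri]

theorem exists_fri_eq_fr (t : Fr) :
    ∃ t' : Fr, (∀ v : ℝ × ℝ, fri t v = fr t' v) ∧ ∀ v : V, fri t v = fr t' v := by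
  obtain ⟨a, b, c⟩ := t
  refine ⟨(a, if a then c else b, if a then b else c), fun v => ?_, fun v => ?_⟩ <;>
  cases a <;> cases b <;> cases c <;> simp [fr, fri]

theorem frm_adj (t : Fr) (a b : V) : Adj (frm t a) (frm t b) ↔ Adj a b := by
  obtain ⟨x, y, z⟩ := t
  cases x <;> cases y <;> cases z <;> simp only [frm_apply, fr, Adj, if_true, if_false, Bool.false_eq_true,
    neg_sub_neg, abs_sub_comm b.1 a.1, abs_sub_comm b.2 a.2, add_comm |a.2 - b.2|]

theorem aff_adj (t : Fr) (u a b : V) : Adj (aff t u a) (aff t u b) ↔ Adj a b := by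
  rw [← frm_adj t a b]
  exact sh_adj u _ _

theorem nm_fr (t : Fr) (v : V) : nm (fr t v) = nm v := by
  obtain ⟨a, b, c⟩ := t
  cases a <;> cases b <;> cases c <;> simp [fr, nm, max_comm]

theorem nm_fri (t : Fr) (v : V) : nm (fri t v) = nm v := by
  obtain ⟨a, b, c⟩ := t
  cases a <;> cases b <;> cases c <;> simp [fri, nm, max_comm]

theorem rv_fr (t : Fr) (v : V) : rv (fr t v) = fr t (rv v) := by
  obtain ⟨a, b, c⟩ := t
  cases a <;> cases b <;> cases c <;> simp [fr, rv]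

theorem rv_fri (t : Fr) (v : V) : rv (fri t v) = fri t (rv v) := by
  obtain ⟨a, b, c⟩ := t
  cases a <;> cases b <;> cases c <;> simp [fri, rv]

theorem norm_fr (t : Fr) (v : ℝ × ℝ) : ‖fr t v‖ = ‖v‖ := by
  obtain ⟨a, b, c⟩ := t
  cases a <;> cases b <;> cases c <;> simp [fr, Prod.norm_def, max_comm]

theorem norm_fri (t : Fr) (v : ℝ × ℝ) : ‖fri t v‖ = ‖v‖ := by
  obtain ⟨a, b, c⟩ := t
  cases a <;> cases b <;> cases c <;> simp [fri, Prod.norm_def, max_comm]

theorem lin_fr (t : Fr) (φ v : ℝ × ℝ) : lin φ (fr t v) = lin (fri t φ) v := by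
  obtain ⟨a, b, c⟩ := t
  cases a <;> cases b <;> cases c <;> simp [fr, fri, lin, add_comm]

theorem lin_fri (t : Fr) (φ v : ℝ × ℝ) : lin (fri t φ) (fri t v) = lin φ v := by
  rw [← lin_fr, fr_fri]

theorem lin_add (φ u v : ℝ × ℝ) : lin φ (u + v) = lin φ u + lin φ v := by
  simp only [lin, Prod.fst_add, Prod.snd_add]; ring

theorem lin_sub (φ u v : ℝ × ℝ) : lin φ (u - v) = lin φ u - lin φ v := by
  simp only [lin, Prod.fst_sub, Prod.snd_sub]; ring

theorem lin_neg (φ v : ℝ × ℝ) : lin φ (-v) = -lin φ v := by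
  simp only [lin, Prod.fst_neg, Prod.snd_neg]; ring

theorem lin_smul (φ : ℝ × ℝ) (a : ℝ) (v : ℝ × ℝ) : lin φ (a • v) = a * lin φ v := by
  simp only [lin, Prod.smul_fst, Prod.smul_snd, smul_eq_mul]; ring

theorem lat_add (κ : ℝ) (u v : ℝ × ℝ) : lat κ (u + v) = lat κ u + lat κ v := by
  simp only [lat, Prod.fst_add, Prod.snd_add]; ring

theorem lat_sub (κ : ℝ) (u v : ℝ × ℝ) : lat κ (u - v) = lat κ u - lat κ v := by
  simp only [lat, Prod.fst_sub, Prod.snd_sub]; ring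

/-- a seminorm with the two basic symmetries is invariant under all frames -/
theorem sym_of_refl_swap (N : Seminorm ℝ (ℝ × ℝ)) (h1 : ∀ x y : ℝ, N (x, -y) = N (x, y))
    (h2 : ∀ x y : ℝ, N (y, x) = N (x, y)) (t : Fr) (v : ℝ × ℝ) : N (fr t v) = N v := by
  have h3 : ∀ x y : ℝ, N (-x, y) = N (x, y) := fun x y => by rw [h2, h1, h2]
  obtain ⟨x, y⟩ := v
  obtain ⟨a, b, c⟩ := t
  cases a <;> cases b <;> cases c <;>
    simp only [fr, if_true, if_false, Bool.false_eq_true, h1, h3, h2 x y]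

theorem sym_fri {N : Seminorm ℝ (ℝ × ℝ)} (h : ∀ (t : Fr) (v : ℝ × ℝ), N (fr t v) = N v) (t : Fr)
    (v : ℝ × ℝ) : N (fri t v) = N v := by
  rw [← h t (fri t v), fr_fri]

/-- every vector can be moved to the first octant -/
theorem exists_frame (v : ℝ × ℝ) :
    ∃ t : Fr, (fri t v).1 = ‖v‖ ∧ 0 ≤ (fri t v).2 ∧ (fri t v).2 ≤ (fri t v).1 := by
  obtain ⟨x, y⟩ := v
  rcases le_total |y| |x| with h | h
  · refine ⟨(false, decide (x < 0), decide (y < 0)), ?_⟩
    rw [Prod.norm_def]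
    simp only [Real.norm_eq_abs, max_eq_left h, fri, Bool.false_eq_true, if_false, decide_eq_true_eq]
    rcases abs_cases x with h1 | h1 <;> rcases abs_cases y with h2 | h2 <;> split_ifs <;>
      refine ⟨by linarith, by linarith, by linarith⟩
  · refine ⟨(true, decide (x < 0), decide (y < 0)), ?_⟩
    rw [Prod.norm_def]
    simp only [Real.norm_eq_abs, max_eq_right h, fri, if_true, decide_eq_true_eq]
    rcases abs_cases x with h1 | h1 <;> rcases abs_cases y with h2 | h2 <;> split_ifs <;>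
      refine ⟨by linarith, by linarith, by linarith⟩

theorem Nice.pull {ω : Env} (hn : Nice ω) (φ : V ≃ V) (hφ : ∀ a b, Adj (φ a) (φ b) ↔ Adj a b) :
    Nice (pull φ ω) := by
  refine ⟨fun e => hn.1 _, fun x y => ?_, fun p k q l hp hq h0 he => ?_⟩
  · obtain ⟨p, k, hp, h0, hk⟩ := hn.2.1 (φ x) (φ y)
    refine ⟨fun t => φ.symm (p t), k, ?_, by simp [h0], by simp [hk]⟩
    rw [Geo_pull φ hφ]
    simpa using hp
  · rw [Geo_pull φ hφ] at hp hq
    obtain ⟨e1, e2⟩ := hn.2.2 _ _ _ _ hp hq (by simp [h0]) (by simp [he])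
    exact ⟨e1, fun i hi => φ.injective (e2 i hi)⟩

/-- two functionals that agree with `N` on a common ball are equal -/
theorem FaceAt.eq {N : Seminorm ℝ (ℝ × ℝ)} {φ φ' : ℝ × ℝ} {Y : V} (h : FaceAt N φ Y 1)
    (h' : FaceAt N φ' Y 1) : φ = φ' := by
  have a0 := h (rv Y) (by simp)
  have b0 := h' (rv Y) (by simp)
  have a1 := h (rv Y + (1, 0)) (by simp [Prod.norm_def])
  have b1 := h' (rv Y + (1, 0)) (by simp [Prod.norm_def])
  have a2 := h (rv Y + (0, 1)) (by simp [Prod.norm_def])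
  have b2 := h' (rv Y + (0, 1)) (by simp [Prod.norm_def])
  rw [lin_add] at a1 b1 a2 b2
  have e1 : lin φ (1, 0) = lin φ' (1, 0) := by linarith
  have e2 : lin φ (0, 1) = lin φ' (0, 1) := by linarith
  simp only [lin, mul_one, mul_zero, add_zero, zero_add] at e1 e2
  exact Prod.ext e1 e2

theorem FaceAt.mono {N : Seminorm ℝ (ℝ × ℝ)} {φ : ℝ × ℝ} {Y Y' : V} {ρ ρ' : ℝ}
    (h : FaceAt N φ Y ρ) (hρ : (nm (Y' - Y) : ℝ) + ρ' ≤ ρ) : FaceAt N φ Y' ρ' := by
  intro x hx
  refine h x ?_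
  have e : x - rv Y = (x - rv Y') + rv (Y' - Y) := by rw [rv_sub]; abel
  rw [e]
  refine le_trans (norm_add_le _ _) ?_
  rw [norm_rv]
  linarith

theorem FaceAt.self {N : Seminorm ℝ (ℝ × ℝ)} {φ : ℝ × ℝ} {Y : V} {ρ : ℝ}
    (h : FaceAt N φ Y ρ) (hρ : 0 ≤ ρ) : N (rv Y) = lin φ (rv Y) := by
  exact h _ (by simpa using hρ)

theorem Sz.hundred {N : Seminorm ℝ (ℝ × ℝ)} {c : ℝ} {Λ z : ℕ} (h : Sz N c Λ z) : 100 ≤ z := by
  have h1 := h.one
  have h2 := h.lam
  omega

theorem Sz.pos {N : Seminorm ℝ (ℝ × ℝ)} {c : ℝ} {Λ z : ℕ} (h : Sz N c Λ z) : 0 < c := by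
  by_contra hc
  have h1 := h.cz
  have h2 : c * z ≤ 0 := mul_nonpos_of_nonpos_of_nonneg (not_lt.1 hc) (Nat.cast_nonneg z)
  linarith

theorem eventually_sz (N : Seminorm ℝ (ℝ × ℝ)) {c : ℝ} (hc : 0 < c) {Λ : ℕ} (hΛ : 1 ≤ Λ) :
    ∀ᶠ z : ℕ in atTop, Sz N c Λ z := by
  obtain ⟨C, -, hC⟩ := seminorm_le N
  filter_upwards [eventually_ge_atTop (100 * Λ),
    tendsto_natCast_atTop_atTop.eventually_ge_atTop (100 / c),
    tendsto_natCast_atTop_atTop.eventually_ge_atTop C] with z h1 h2 h3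
  refine ⟨hΛ, h1, ?_, fun v => le_trans (hC v) (mul_le_mul_of_nonneg_right h3 (norm_nonneg v))⟩
  rw [div_le_iff₀ hc] at h2
  linarith

/-- the face of the positive horizontal direction -/
theorem Poly.frameE_axis {N : Seminorm ℝ (ℝ × ℝ)} {Kc : Finset ℝ} {Φ : Finset (ℝ × ℝ)} {c : ℝ}
    (h : Poly N Kc Φ c) : FrameE N c (N (1, 0), 0) 0 := by
  have h0 : 0 ≤ N (1, 0) := apply_nonneg _ _
  have key : ∀ v : ℝ × ℝ, lin (N (1, 0), 0) v = N (1, 0) * v.1 := fun v => by simp [lin]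
  refine ⟨Or.inl rfl, fun v => ?_, fun v => ?_⟩
  · rw [key]
    refine le_trans (mul_le_mul_of_nonneg_left ?_ h0) (h.low v)
    exact le_trans (le_abs_self _) (norm_fst_le v)
  · rw [key]
    have h1 : v.1 ≤ ‖v‖ := le_trans (le_abs_self _) (norm_fst_le v)
    have h2 : |v.2| ≤ ‖v‖ := norm_snd_le v
    have h3 := h.low v
    have h4 : c * (|v.2| - v.1) ≤ c * (‖v‖ - v.1) :=
      mul_le_mul_of_nonneg_left (by linarith) h.pos.le
    have h5 : c * (‖v‖ - v.1) ≤ N (1, 0) * (‖v‖ - v.1) :=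
      mul_le_mul_of_nonneg_right h.c_le (by linarith)
    simp only [dev, if_true]
    nlinarith

end Pool.Agent.FPP
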