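import Pool.Agent.P.MP_ecb9f8_pr.BandL
import Pool.Agent.P.MP_ecb9f8_pr.FrameL

open MeasureTheory ProbabilityTheory Set Filter

noncomputable section

namespace Pool.Agent.FPP

theorem ThrE_div {M : ℤ} (hM : 0 < M) (x : ℤ) : M * (x / M) ≤ x ∧ x ≤ M * (x / M) + M := by
  have h1 := Int.mul_ediv_add_emod x M
  have h2 := Int.emod_nonneg x hM.ne'
  have h3 := Int.emod_lt_of_pos x hM
  constructor <;> linarith

theorem ThrE_term {M : ℤ} (hM : 0 < M) (h y h' : ℤ) (κ D : ℝ) :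
    (M : ℝ) * ((|y / M - h / M| + |h' / M - y / M - ⌊κ * D⌋| : ℤ) : ℝ) ≤
      |((h' : ℝ) - y) - κ * (M * D)| + |((y - h : ℤ) : ℝ)| + 3 * M := by
  obtain ⟨a1, a2⟩ := ThrE_div hM h
  obtain ⟨b1, b2⟩ := ThrE_div hM y
  obtain ⟨c1, c2⟩ := ThrE_div hM h'
  have hM' : (0 : ℝ) < M := by exact_mod_cast hM
  have d1 := mul_le_mul_of_nonneg_left (Int.floor_le (κ * D)) hM'.le
  have d2 := mul_le_mul_of_nonneg_left (Int.lt_floor_add_one (κ * D)).le hM'.le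
  generalize h / M = a at a1 a2 ⊢
  generalize y / M = b at b1 b2 ⊢
  generalize h' / M = c at c1 c2 ⊢
  generalize ⌊κ * D⌋ = f at d1 d2 ⊢
  have a1' : (M : ℝ) * a ≤ h := by exact_mod_cast a1
  have a2' : (h : ℝ) ≤ M * a + M := by exact_mod_cast a2
  have b1' : (M : ℝ) * b ≤ y := by exact_mod_cast b1
  have b2' : (y : ℝ) ≤ M * b + M := by exact_mod_cast b2
  have c1' : (M : ℝ) * c ≤ h' := by exact_mod_cast c1
  have c2' : (h' : ℝ) ≤ M * c + M := by exact_mod_cast c2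
  push_cast
  have e1 : (M : ℝ) * |(b : ℝ) - a| ≤ |(y : ℝ) - h| + M := by
    rw [← abs_of_pos hM', ← abs_mul, abs_of_pos hM']
    have u1 := le_abs_self ((y : ℝ) - h)
    have u2 := neg_abs_le ((y : ℝ) - h)
    exact abs_le.2 ⟨by linarith, by linarith⟩
  have e2 : (M : ℝ) * |(c : ℝ) - b - f| ≤ |((h' : ℝ) - y) - κ * (M * D)| + 2 * M := by
    rw [← abs_of_pos hM', ← abs_mul, abs_of_pos hM']
    have u1 := le_abs_self (((h' : ℝ) - y) - κ * (M * D))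
    have u2 := neg_abs_le (((h' : ℝ) - y) - κ * (M * D))
    exact abs_le.2 ⟨by linarith, by linarith⟩
  linarith

theorem ThrE_conf {a b y y' u u' r r' : ℤ} {q : ℕ → V} {l : ℕ} (h : Conf (a, y) (b, y') r q l)
    (h1 : |y - u| + r ≤ r') (h2 : |y' - u'| + r ≤ r') : Conf (a, u) (b, u') r' q l := by
  obtain ⟨c1, c2, c3, c4, c5, c6⟩ := h
  refine ⟨c1, c2, ?_, c4, ?_, c6⟩
  · have := abs_sub_le (q 0).2 y u
    exact this.trans (by linarith)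
  · have := abs_sub_le (q l).2 y' u'
    exact this.trans (by linarith)

theorem ThrE_near {M : ℤ} (hM : 0 < M) (x : ℤ) : |x - M * (x / M)| ≤ M := by
  obtain ⟨h1, h2⟩ := ThrE_div hM x
  exact abs_le.2 ⟨by linarith, by linarith⟩

theorem ThrE_nm {u v : V} {r : ℤ} (h1 : u.1 = v.1) (h2 : |u.2 - v.2| ≤ r) : nm (u - v) ≤ r := by
  refine nm_le_iff.2 ⟨?_, h2⟩
  rw [Prod.fst_sub, h1, sub_self, abs_zero]
  exact (abs_nonneg _).trans h2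

theorem ThrE_upb {N : Seminorm ℝ (ℝ × ℝ)} {G : Measure ℝ} {Λ ζ : ℕ}
    (hz : 100 ≤ ζ) {ω : Env} (hg : MG N G Λ ζ ((ζ : ℤ) ^ 120010) ω) {x y : V}
    (hx : nm x ≤ 4 * TT ζ) (hy : nm (y - x) ≤ 3 * (ζ : ℤ) ^ 11990) :
    d ω x y ≤ 3 * (ζ : ℝ) ^ 11991 := by
  have hz1 : 1 ≤ ζ := by omega
  have h1 : (ζ : ℤ) ^ 11990 ≤ (ζ : ℤ) ^ 120000 := ThrL_pow_le hz1 (by norm_num)
  have h2 : 7 * (ζ : ℤ) ^ 120000 ≤ (ζ : ℤ) ^ 120010 :=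
    ThrL_mul_pow_le hz1 (by omega) (by norm_num)
  have h3 : (0 : ℤ) ≤ (ζ : ℤ) ^ 120000 := pow_nonneg (Int.natCast_nonneg ζ) _
  have h4 : nm y ≤ nm x + nm (y - x) := by
    have := nm_add_le x (y - x)
    rwa [add_sub_cancel] at this
  have h5 : ζ ^ 2 ≤ 3 * ζ ^ 11990 :=
    (Nat.pow_le_pow_right hz1 (by norm_num)).trans (Nat.le_mul_of_pos_left _ (by norm_num))
  have h6 : ((3 * ζ ^ 11990 : ℕ) : ℤ) = 3 * (ζ : ℤ) ^ 11990 := by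
    rw [Nat.cast_mul, Nat.cast_pow, Nat.cast_ofNat]
  have h7 : ((3 * ζ ^ 11990 : ℕ) : ℝ) = 3 * (ζ : ℝ) ^ 11990 := by
    rw [Nat.cast_mul, Nat.cast_pow, Nat.cast_ofNat]
  rw [TT] at hx
  have h8 := hg.upb x y (by linarith) (by linarith) _ h5 (h6 ▸ hy)
  rw [h7, mul_left_comm, ← pow_succ'] at h8
  exact h8

theorem ThrE_good {N : Seminorm ℝ (ℝ × ℝ)} {κ : ℝ} {G : Measure ℝ} {Λ ζ : ℕ}
    (hz : 100 ≤ ζ) {ω : Env} (hg : MG N G Λ ζ ((ζ : ℤ) ^ 120010) ω)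
    {p : ℕ → V} {k o : ℕ} (ho : o < ζ ^ 30000) (hc : Cls3 κ ζ p k)
    (hp : Geo ω p k) (L : ℕ) {i : ℕ} (hi : i < ζ ^ 90000)
    (h : ¬ LowP G ζ o i ((p (sR ζ o p i)).2 / (ζ : ℤ) ^ 11990)
      (ht p (aR ζ o (i + 1)) / (ζ : ℤ) ^ 11990) ω) :
    ENNReal.ofReal ((ζ : ℝ) ^ 510)⁻¹ ≤
      PP G {ω' | ∀ q l, Comp3 true L ζ ((ζ : ℤ) ^ 6000) o p i q l →
        lam3 ζ o ω p i - (ζ : ℝ) ^ 11992 ≤ W ω' q 0 l} := by
  have hz1 : 1 ≤ ζ := by omega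
  obtain ⟨-, hc2, hc3, -, hc5⟩ := hc
  obtain ⟨-, s2, s3, s4, -, s6, s7, -⟩ := piece_spec (by omega : 2 ≤ ζ) ho hi hp.1 hc2 hc3
  have hM : (0 : ℤ) < (ζ : ℤ) ^ 11990 := pow_pos (by omega) _
  have n1 := ThrE_near hM (p (sR ζ o p i)).2
  have n2 := ThrE_near hM (ht p (aR ζ o (i + 1)))
  have s8 : p (sR ζ o p i) = (aR ζ o i, (p (sR ζ o p i)).2) := Prod.ext s6 rfl
  have hin : ω ∈ GE ζ o i ((p (sR ζ o p i)).2 / (ζ : ℤ) ^ 11990)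
      (ht p (aR ζ o (i + 1)) / (ζ : ℤ) ^ 11990) ⌊lam3 ζ o ω p i - 6 * (ζ : ℝ) ^ 11991⌋ := by
    intro q l hq
    have hq' : Conf (aR ζ o i, (p (sR ζ o p i)).2) (aR ζ o (i + 1), ht p (aR ζ o (i + 1)))
        (3 * (ζ : ℤ) ^ 11990) q l :=
      ThrE_conf hq (by rw [abs_sub_comm]; linarith) (by rw [abs_sub_comm]; linarith)
    rw [← s8, ← s7] at hq'
    obtain ⟨c1, c2, c3, c4, c5, -⟩ := hq'
    have d1 := ThrE_upb hz hg (hc5 _ (s2.le.trans (s3.trans s4))).2 (ThrE_nm c2 c3)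
    have d2 := ThrE_upb hz hg (hc5 _ (s3.trans s4)).2 (ThrE_nm c4 c5)
    have d3 := d_le_W ω c1 (Nat.zero_le l) le_rfl
    have d4 : lam3 ζ o ω p i = d ω (p (sR ζ o p i)) (p (eR ζ o p i)) :=
      hp.sub s2.le (s3.trans s4)
    have d5 := d_triangle ω (p (sR ζ o p i)) (q 0) (p (eR ζ o p i))
    have d6 := d_triangle ω (q 0) (q l) (p (eR ζ o p i))
    rw [d_comm] at d2
    refine (Int.floor_le _).trans ?_
    linarith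
  refine (not_lt.1 fun h1 => h ⟨_, hin, h1⟩).trans (measure_mono fun ω' hω' q l hq => ?_)
  have hq1 := hq.2.2.1
  rw [s8, s7] at hq1
  have e1 : (ζ : ℤ) ^ 6000 ≤ (ζ : ℤ) ^ 11990 := ThrL_pow_le hz1 (by norm_num)
  have h2 := hω' q l (ThrE_conf hq1 (by linarith) (by linarith))
  have h3 := Int.lt_floor_add_one (lam3 ζ o ω p i - 6 * (ζ : ℝ) ^ 11991)
  have hz2 : (100 : ℝ) ≤ ζ := by exact_mod_cast hz
  have h4 : 7 * (ζ : ℝ) ^ 11991 ≤ (ζ : ℝ) ^ 11992 :=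
    ThrL_rmul_pow_le hz1 (by linarith) (by norm_num)
  have h5 : (1 : ℝ) ≤ (ζ : ℝ) ^ 11991 := one_le_pow₀ (by linarith)
  linarith

theorem ThrE_lat {κ : ℝ} {ζ o i : ℕ} {u v : V} {y : ℤ} (hu : u.1 = aR ζ o i)
    (hv : v = (aR ζ o (i + 1), y)) : (v - u).1 = (ζ : ℤ) ^ 30000 ∧ (v - u).2 = y - u.2 ∧
    lat κ (rv (v - u)) = ((y : ℝ) - u.2) - κ * (ζ : ℝ) ^ 30000 := by
  have h1 : (v - u).1 = (ζ : ℤ) ^ 30000 := by
    rw [Prod.fst_sub, hu, hv, aR_succ, add_sub_cancel_left]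
  have h2 : (v - u).2 = y - u.2 := by rw [Prod.snd_sub, hv]
  refine ⟨h1, h2, ?_⟩
  have h3 : lat κ (rv (v - u)) = (((v - u).2 : ℤ) : ℝ) - κ * (((v - u).1 : ℤ) : ℝ) := rfl
  rw [h3, h1, h2, Int.cast_sub, Int.cast_pow, Int.cast_natCast]

theorem ThrE_sum {κ : ℝ} {ζ : ℕ} (hz : 100 ≤ ζ) {p : ℕ → V} {k o : ℕ} (ho : o < ζ ^ 30000)
    (hc : Cls3 κ ζ p k) (hO : OscS κ ζ o p ≤ (ζ : ℝ) ^ 102240) (hp : Chain p k) :
    ∑ i ∈ Finset.range (ζ ^ 90000),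
      (|(p (sR ζ o p i)).2 / (ζ : ℤ) ^ 11990 - ht p (aR ζ o i) / (ζ : ℤ) ^ 11990| +
        |ht p (aR ζ o (i + 1)) / (ζ : ℤ) ^ 11990 - (p (sR ζ o p i)).2 / (ζ : ℤ) ^ 11990 -
          ⌊κ * (ζ : ℝ) ^ 18010⌋|) ≤ 2 * (ζ : ℤ) ^ 90250 := by
  have hz1 : 1 ≤ ζ := by omega
  have hz2 : (100 : ℝ) ≤ ζ := by exact_mod_cast hz
  obtain ⟨-, hc2, hc3, -, -⟩ := hc
  have hM : (0 : ℤ) < (ζ : ℤ) ^ 11990 := pow_pos (by omega) _
  have hM' : (0 : ℝ) < (ζ : ℝ) ^ 11990 := pow_pos (by linarith) _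
  have e0 : (((ζ : ℤ) ^ 11990 : ℤ) : ℝ) = (ζ : ℝ) ^ 11990 := by
    rw [Int.cast_pow, Int.cast_natCast]
  have e1 : (ζ : ℝ) ^ 11990 * (ζ : ℝ) ^ 18010 = (ζ : ℝ) ^ 30000 := by rw [← pow_add]
  have e2 : (ζ : ℝ) ^ 102240 = (ζ : ℝ) ^ 11990 * (ζ : ℝ) ^ 90250 := by rw [← pow_add]
  have e3 : 3 * (ζ : ℝ) ^ 90000 ≤ (ζ : ℝ) ^ 90250 :=
    ThrL_rmul_pow_le hz1 (by linarith) (by norm_num)
  rw [← Int.cast_le (R := ℝ), Int.cast_sum, Int.cast_mul, Int.cast_pow, Int.cast_natCast,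
    Int.cast_ofNat]
  refine le_of_mul_le_mul_left ?_ hM'
  rw [Finset.mul_sum]
  refine (Finset.sum_le_sum (g := fun i => Osc κ ζ o p i + 3 * (ζ : ℝ) ^ 11990) ?_).trans ?_
  · intro i hi
    obtain ⟨-, -, -, -, -, s6, s7, -⟩ :=
      piece_spec (by omega : 2 ≤ ζ) ho (Finset.mem_range.1 hi) hp hc2 hc3
    have h1 := ThrE_term hM (ht p (aR ζ o i)) (p (sR ζ o p i)).2 (ht p (aR ζ o (i + 1))) κ
      ((ζ : ℝ) ^ 18010)
    rw [e0, e1, ← (ThrE_lat (κ := κ) s6 s7).2.2] at h1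
    exact h1
  · rw [Finset.sum_add_distrib, Finset.sum_const, Finset.card_range, nsmul_eq_mul, Nat.cast_pow]
    have h2 := mul_le_mul_of_nonneg_left e3 hM'.le
    rw [OscS, e2] at hO
    generalize (ζ : ℝ) ^ 11990 = A at *
    generalize (ζ : ℝ) ^ 90250 = B at *
    generalize (ζ : ℝ) ^ 90000 = C at *
    linarith

theorem ThrE_wild {κ : ℝ} (hκ : |κ| ≤ 1) {ζ : ℕ} (hz : 100 ≤ ζ) {p : ℕ → V} {k o : ℕ}
    (ho : o < ζ ^ 30000) (hc : Cls3 κ ζ p k) (hO : OscS κ ζ o p ≤ (ζ : ℝ) ^ 102240)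
    (hp : Chain p k) : (Finset.range (ζ ^ 90000) \ Tame ζ o p).card ≤ ζ ^ 72240 := by
  have hz2 : (100 : ℝ) ≤ ζ := by exact_mod_cast hz
  obtain ⟨-, hc2, hc3, -, -⟩ := hc
  have hl : (0 : ℝ) < (ζ : ℝ) ^ 30000 := pow_pos (by linarith) _
  have hl' : (0 : ℤ) < (ζ : ℤ) ^ 30000 := pow_pos (by omega) _
  have e1 : (ζ : ℝ) ^ 102240 = (ζ : ℝ) ^ 72240 * (ζ : ℝ) ^ 30000 := by rw [← pow_add]
  have h1 : ∀ i ∈ Finset.range (ζ ^ 90000) \ Tame ζ o p, (ζ : ℝ) ^ 30000 ≤ Osc κ ζ o p i := by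
    intro i hi
    obtain ⟨h2, h3⟩ := Finset.mem_sdiff.1 hi
    obtain ⟨-, -, -, -, -, s6, s7, -⟩ :=
      piece_spec (by omega : 2 ≤ ζ) ho (Finset.mem_range.1 h2) hp hc2 hc3
    obtain ⟨l1, l2, l3⟩ := ThrE_lat (κ := κ) s6 s7
    have h4 : 3 * (ζ : ℤ) ^ 30000 ≤ |ht p (aR ζ o (i + 1)) - (p (sR ζ o p i)).2| := by
      by_contra h4
      refine h3 (Finset.mem_filter.2 ⟨h2, nm_le_iff.2 ⟨?_, ?_⟩⟩)
      · rw [l1, abs_of_pos hl']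
        linarith
      · rw [l2]
        exact (not_le.1 h4).le
    rw [← Int.cast_le (R := ℝ), Int.cast_mul, Int.cast_pow, Int.cast_natCast, Int.cast_ofNat,
      Int.cast_abs, Int.cast_sub] at h4
    have h5 := abs_sub_abs_le_abs_sub ((ht p (aR ζ o (i + 1)) : ℝ) - (p (sR ζ o p i)).2)
      (κ * (ζ : ℝ) ^ 30000)
    rw [abs_mul, abs_of_pos hl, ← l3] at h5
    have h6 := mul_le_mul_of_nonneg_right hκ hl.le
    refine le_trans ?_ (le_add_of_nonneg_right (abs_nonneg _))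
    linarith
  have h2 := Finset.card_nsmul_le_sum _ _ _ h1
  have h3 : ∑ i ∈ Finset.range (ζ ^ 90000) \ Tame ζ o p, Osc κ ζ o p i ≤ OscS κ ζ o p :=
    Finset.sum_le_sum_of_subset_of_nonneg Finset.sdiff_subset
      fun i _ _ => add_nonneg (abs_nonneg _) (abs_nonneg _)
  rw [nsmul_eq_mul] at h2
  rw [← Nat.cast_le (α := ℝ), Nat.cast_pow]
  exact le_of_mul_le_mul_right (h2.trans (h3.trans (hO.trans e1.le))) hl

open Classical in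
/-- a geodesic with small oscillation has many pieces that are not exceptionally slow -/
theorem thrE {N : Seminorm ℝ (ℝ × ℝ)} {κ : ℝ} (hκ : |κ| ≤ 1) {G : Measure ℝ} {Λ ζ : ℕ}
    (hz : 100 ≤ ζ) {ω : Env} (hg : MG N G Λ ζ ((ζ : ℤ) ^ 120010) ω) (he : ENT G κ ζ ω)
    {p : ℕ → V} {k o : ℕ} (ho : o < ζ ^ 30000) (hc : Cls3 κ ζ p k)
    (hO : OscS κ ζ o p ≤ (ζ : ℝ) ^ 102240) (hp : Geo ω p k) (L : ℕ) :
    ζ ^ 90000 ≤ 200 * ((Tame ζ o p).filter (fun i => ENNReal.ofReal ((ζ : ℝ) ^ 510)⁻¹ ≤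
      PP G {ω' | ∀ q l, Comp3 true L ζ ((ζ : ℤ) ^ 6000) o p i q l →
        lam3 ζ o ω p i - (ζ : ℝ) ^ 11992 ≤ W ω' q 0 l})).card := by
  have hz1 : 1 ≤ ζ := by omega
  have h0 : |ht p (aR ζ o 0) / (ζ : ℤ) ^ 11990| ≤ (ζ : ℤ) ^ 120001 := by
    obtain ⟨s1, s2, s3, s4, -⟩ :=
      piece_spec (by omega : 2 ≤ ζ) ho (pow_pos (by omega) _) hp.1 hc.2.1 hc.2.2.1
    have h1 := (hc.2.2.2.2 _ (s1.trans (s2.le.trans (s3.trans s4)))).2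
    have h2 : 4 * (ζ : ℤ) ^ 120000 ≤ (ζ : ℤ) ^ 120001 :=
      ThrL_mul_pow_le hz1 (by omega) (by norm_num)
    exact (Int.abs_ediv_le_abs _ _).trans ((abs_snd_le_nm _).trans (h1.trans h2))
  have h1 := he o ho (fun i => ht p (aR ζ o i) / (ζ : ℤ) ^ 11990)
    (fun i => (p (sR ζ o p i)).2 / (ζ : ℤ) ^ 11990) h0 (ThrE_sum hz ho hc hO hp.1)
  have h2 := ThrE_wild hκ hz ho hc hO hp.1
  have h3 : (Finset.range (ζ ^ 90000)).filter (fun i => ¬ LowP G ζ o i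
      ((p (sR ζ o p i)).2 / (ζ : ℤ) ^ 11990) (ht p (aR ζ o (i + 1)) / (ζ : ℤ) ^ 11990) ω) ⊆
      (Tame ζ o p).filter (fun i => ENNReal.ofReal ((ζ : ℝ) ^ 510)⁻¹ ≤
        PP G {ω' | ∀ q l, Comp3 true L ζ ((ζ : ℤ) ^ 6000) o p i q l →
          lam3 ζ o ω p i - (ζ : ℝ) ^ 11992 ≤ W ω' q 0 l}) ∪
        (Finset.range (ζ ^ 90000) \ Tame ζ o p) := by
    intro i hi
    obtain ⟨h4, h5⟩ := Finset.mem_filter.1 hi
    by_cases h6 : i ∈ Tame ζ o p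
    · exact Finset.mem_union_left _ (Finset.mem_filter.2
        ⟨h6, ThrE_good hz hg ho hc hp L (Finset.mem_range.1 h4) h5⟩)
    · exact Finset.mem_union_right _ (Finset.mem_sdiff.2 ⟨h4, h6⟩)
  have h4 := h1.trans (Nat.mul_le_mul_left 100 ((Finset.card_le_card h3).trans
    ((Finset.card_union_le _ _).trans (Nat.add_le_add_left h2 _))))
  have h5 : 200 * ζ ^ 72240 ≤ ζ ^ 90000 := by
    have h6 : 200 ≤ ζ ^ 2 := le_trans (by norm_num) (Nat.pow_le_pow_left hz 2)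
    refine (Nat.mul_le_mul_right _ h6).trans ?_
    rw [← pow_add]
    exact Nat.pow_le_pow_right hz1 (by norm_num)
  generalize ζ ^ 72240 = A at h4 h5
  generalize Finset.card _ = C at h4 ⊢
  generalize ζ ^ 90000 = B at h4 h5 ⊢
  omega

end Pool.Agent.FPP
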