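import Pool.Agent.P.MP_ecb9f8_pr.ThrF
import Pool.Agent.P.MP_ecb9f8_pr.FreshF
import Pool.Agent.P.MP_ecb9f8_pr.Ent
import Pool.Agent.P.MP_ecb9f8_pr.ThrE
import Pool.Agent.P.MP_ecb9f8_pr.FreshE
import Pool.Agent.P.MP_ecb9f8_pr.HarG
import Pool.Agent.P.MP_ecb9f8_pr.TCex

open MeasureTheory ProbabilityTheory Set Filter

noncomputable section

namespace Pool.Agent.FPP

variable (G : Measure ℝ) [IsProbabilityMeasure G]

/-- pairs of points of the box of radius `B` -/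
def NoBad3_box (B : ℤ) : Finset (V × V) :=
  (Finset.Icc (-B) B ×ˢ Finset.Icc (-B) B) ×ˢ (Finset.Icc (-B) B ×ˢ Finset.Icc (-B) B)

theorem NoBad3_mem {B : ℤ} {x y : V} (hx : nm x ≤ B) (hy : nm y ≤ B) :
    (x, y) ∈ NoBad3_box B := by
  rw [nm_le_iff, abs_le, abs_le] at hx hy
  simp only [NoBad3_box, Finset.mem_product, Finset.mem_Icc]
  exact ⟨hx, hy⟩

theorem NoBad3_card {z : ℕ} (hz : 9 ≤ z) : (NoBad3_box (4 * TT z)).card ≤ z ^ 480004 := by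
  have h1 : (Finset.Icc (-(4 * TT z)) (4 * TT z)).card ≤ z ^ 120001 := by
    have h2 : 1 ≤ z ^ 120000 := Nat.one_le_pow _ _ (by omega)
    have h3 : 9 * z ^ 120000 ≤ z ^ 120001 := by
      rw [pow_succ' z 120000]
      exact Nat.mul_le_mul_right _ hz
    rw [Int.card_Icc, TT, ← Nat.cast_pow]
    generalize z ^ 120000 = a at *
    generalize z ^ 120001 = b at *
    omega
  have h4 : z ^ 480004 = z ^ 120001 * z ^ 120001 * (z ^ 120001 * z ^ 120001) := by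
    rw [← pow_add, ← pow_add]
  rw [NoBad3_box, Finset.card_product, Finset.card_product, h4]
  exact Nat.mul_le_mul (Nat.mul_le_mul h1 h1) (Nat.mul_le_mul h1 h1)

theorem NoBad3_num {z : ℕ} (hz : 2 ≤ z) (n a k : ℕ) (hn : n ≤ z ^ a) :
    (n : ENNReal) * (ENNReal.ofReal (((z : ℝ) ^ (a + (k + 1)))⁻¹) +
      ENNReal.ofReal (((z : ℝ) ^ (a + (k + 1)))⁻¹)) ≤ ENNReal.ofReal (((z : ℝ) ^ k)⁻¹) := by
  have hz' : (2 : ℝ) ≤ z := by exact_mod_cast hz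
  have h0 : (0 : ℝ) < z := by linarith
  rw [← ENNReal.ofReal_add (by positivity) (by positivity), ← ENNReal.ofReal_natCast,
    ← ENNReal.ofReal_mul (Nat.cast_nonneg _)]
  refine ENNReal.ofReal_le_ofReal ?_
  have h3 : (n : ℝ) ≤ (z : ℝ) ^ a := by exact_mod_cast hn
  have hA : (0 : ℝ) < (z : ℝ) ^ a := by positivity
  have hK : (0 : ℝ) < (z : ℝ) ^ k := by positivity
  rw [pow_add, pow_succ]
  generalize (z : ℝ) ^ a = A at *
  generalize (z : ℝ) ^ k = K at *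
  calc (n : ℝ) * ((A * (K * z))⁻¹ + (A * (K * z))⁻¹)
      ≤ A * ((A * (K * z))⁻¹ + (A * (K * z))⁻¹) :=
        mul_le_mul_of_nonneg_right h3 (by positivity)
    _ = K⁻¹ * (2 / z) := by field_simp; ring
    _ ≤ K⁻¹ := by
        refine mul_le_of_le_one_right (by positivity) ?_
        rw [div_le_one h0]; exact hz'

theorem NoBad3_gen (hG : Law G) (κ : ℝ) (tb : Bool) (L : ℕ) (r : ℕ → ℤ)
    (Q : ℕ → ℕ → (ℕ → V) → Prop) (w : ℕ → ℝ) (m : ℕ → ℕ) (Gd : ℕ → Set Env)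
    (hGd : SP G (fun ζ => (Gd ζ)ᶜ))
    (hfr : ∀ a : ℕ, ∀ᶠ ζ : ℕ in atTop, ∀ o < ζ ^ 30000, ∀ ω ∈ Gd ζ, ∀ (p : ℕ → V) (k : ℕ),
      Cls3 κ ζ p k → Q ζ o p → Geo ω p k →
      PP G {ω' | BadG (Tame ζ o p) (Comp3 tb L ζ (r ζ) o p) ∅
        (fun i => lam3 ζ o ω p i + w ζ) (m ζ) ω'} ≤ ENNReal.ofReal (((ζ : ℝ) ^ a)⁻¹)) :
    SP G (fun ζ => ⋃ o ∈ Finset.range (ζ ^ 30000), {ω | ∃ (p : ℕ → V) (k : ℕ),
      (Cls3 κ ζ p k ∧ Q ζ o p) ∧ Geo ω p k ∧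
      BadG (Tame ζ o p) (Comp3 tb L ζ (r ζ) o p) (edges p k)
        (fun i => lam3 ζ o ω p i + w ζ) (m ζ) ω}) := by
  refine SP.biUnion (fun ζ => Finset.range (ζ ^ 30000)) _ 30000
    (Eventually.of_forall fun ζ => (Finset.card_range _).le) fun k0 => ?_
  filter_upwards [hGd (480004 + (k0 + 1)), hfr (480004 + (k0 + 1)), eventually_ge_atTop 9]
    with ζ h1 h2 hz o ho
  have ho' : o < ζ ^ 30000 := Finset.mem_range.1 ho
  have key := har_gen G hG (fun p k => Cls3 κ ζ p k ∧ Q ζ o p) (Tame ζ o)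
    (Comp3 tb L ζ (r ζ) o) (sR ζ o) (eR ζ o) (w ζ) (m ζ) (NoBad3_box (4 * TT ζ)) (Gd ζ)
    (ENNReal.ofReal (((ζ : ℝ) ^ (480004 + (k0 + 1)))⁻¹))
    (fun p i => fam_comp3 tb L ζ (r ζ) o p i) ?_ ?_
  · refine key.trans (le_trans ?_ (NoBad3_num (by omega) _ 480004 k0 (NoBad3_card hz)))
    gcongr
  · rintro p k ⟨⟨c1, c2, c3, c4, c5⟩, -⟩
    have hp : Chain p k := (mem_paths.1 c1).1
    have hps : ∀ i ∈ Tame ζ o p, sR ζ o p i < eR ζ o p i ∧ eR ζ o p i ≤ k := by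
      intro i hi
      have hi' : i < ζ ^ 30000 * ζ ^ 60000 := by
        rw [← pow_add]
        exact Finset.mem_range.1 (Finset.mem_filter.1 hi).1
      rw [← pow_add] at hi'
      obtain ⟨-, a2, a3, a4, -⟩ := piece_spec (by omega) ho' hi' hp c2 c3
      exact ⟨a2, a3.trans a4⟩
    refine ⟨c1, NoBad3_mem (c5 0 (Nat.zero_le k)).2 (c5 k le_rfl).2, fun i hi => (hps i hi).2,
      4 * TT ζ + r ζ + ((L * ζ ^ 30000 : ℕ) : ℤ), ?_⟩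
    intro i hi q l hq j hj
    obtain ⟨b1, -, ⟨b2, b3, b4, -⟩, -⟩ := hq
    have hs : sR ζ o p i ≤ k := ((hps i hi).1.le).trans (hps i hi).2
    have e1 := (c5 _ hs).2
    have e2 := b2.nm_le (Nat.zero_le j) hj
    have hr : 0 ≤ r ζ := (abs_nonneg _).trans b4
    have e3 : nm (q 0 - p (sR ζ o p i)) ≤ r ζ := by
      rw [nm_le_iff, Prod.fst_sub, Prod.snd_sub, b3, sub_self, abs_zero]
      exact ⟨hr, b4⟩
    have e4 : nm (q j) ≤ nm (q j - q 0) + (nm (q 0 - p (sR ζ o p i)) + nm (p (sR ζ o p i))) := by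
      have x1 := nm_add_le (q j - q 0) (q 0 - p (sR ζ o p i) + p (sR ζ o p i))
      have x2 := nm_add_le (q 0 - p (sR ζ o p i)) (p (sR ζ o p i))
      have x3 : q j - q 0 + (q 0 - p (sR ζ o p i) + p (sR ζ o p i)) = q j := by abel
      rw [x3] at x1
      linarith
    have e5 : (j : ℤ) ≤ ((L * ζ ^ 30000 : ℕ) : ℤ) := Int.ofNat_le.2 (hj.trans b1)
    have e6 : nm (q j - q 0) ≤ (j : ℤ) := by simpa using e2
    linarith
  · rintro ω hω p k ⟨c1, c2⟩ hp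
    exact h2 o ho' ω hω p k c1 c2 hp

theorem sp_nobadF (hG : Law G) {N : Seminorm ℝ (ℝ × ℝ)} (hN : IsTC G N) {κ c : ℝ} {φ : ℝ × ℝ}
    (hc : 0 < c) (hC : Corner N κ c φ) {Λ : ℕ} (hΛ : 1 ≤ Λ)
    (hmg : SP G (fun ζ => {ω | ¬ MG N G Λ ζ ((ζ : ℤ) ^ 120010) ω})) (L : ℕ) :
    SP G (fun ζ => {ω | ¬ NoBadF κ L ζ ω}) := by
  refine (NoBad3_gen G hG κ false L (fun ζ => (ζ : ℤ) ^ 12236)
    (fun ζ o p => (ζ : ℝ) ^ 102240 ≤ OscS κ ζ o p) (fun ζ => 2 * (ζ : ℝ) ^ 12237)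
    (fun ζ => ζ ^ 87234) (fun ζ => {ω | MG N G Λ ζ ((ζ : ℤ) ^ 120010) ω}) hmg fun a => ?_).mono
    (Eventually.of_forall fun ζ ω hω => ?_)
  · filter_upwards [freshF G hG L a, eventually_sz N hc hΛ] with ζ h1 h2 o ho ω hω p k c1 c2 hp
    obtain ⟨t1, t2⟩ := thrF hC (tc_le_g G hG hN) h2 hω ho c1 c2 hp
    exact h1 κ p k o (lam3 ζ o ω p) ho c1 t1 t2
  · by_contra hn
    refine hω fun o ho p k c1 c2 hp hb => hn ?_
    exact mem_iUnion₂.2 ⟨o, Finset.mem_range.2 ho, p, k, ⟨c1, c2⟩, hp, hb⟩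

theorem sp_nobadE (hG : Law G) {N : Seminorm ℝ (ℝ × ℝ)} {κ : ℝ} (hκ : |κ| ≤ 1) {Λ : ℕ}
    (hmg : SP G (fun ζ => {ω | ¬ MG N G Λ ζ ((ζ : ℤ) ^ 120010) ω})) (L : ℕ) :
    SP G (fun ζ => {ω | ¬ NoBadE κ L ζ ω}) := by
  have hGd : SP G (fun ζ => {ω | MG N G Λ ζ ((ζ : ℤ) ^ 120010) ω ∧ ENT G κ ζ ω}ᶜ) := by
    refine (hmg.union (sp_ent G κ)).mono (Eventually.of_forall fun ζ ω hω => ?_)
    exact not_and_or.1 hω
  refine (NoBad3_gen G hG κ true L (fun ζ => (ζ : ℤ) ^ 6000)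
    (fun ζ o p => OscS κ ζ o p ≤ (ζ : ℝ) ^ 102240) (fun ζ => 2 * (ζ : ℝ) ^ 6001)
    (fun ζ => ζ ^ 89233) (fun ζ => {ω | MG N G Λ ζ ((ζ : ℤ) ^ 120010) ω ∧ ENT G κ ζ ω})
    hGd fun a => ?_).mono (Eventually.of_forall fun ζ ω hω => ?_)
  · filter_upwards [freshE G hG L a, eventually_ge_atTop 100] with ζ h1 h2 o ho ω hω p k c1 c2 hp
    exact h1 κ p k o (lam3 ζ o ω p) ho c1 (thrE hκ h2 hω.1 hω.2 ho c1 c2 hp L)
  · by_contra hn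
    refine hω fun o ho p k c1 c2 hp hb => hn ?_
    exact mem_iUnion₂.2 ⟨o, Finset.mem_range.2 ho, p, k, ⟨c1, c2⟩, hp, hb⟩

end Pool.Agent.FPP
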