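import Pool.Agent.P.MP_ecb9f8_pr.BandL

open MeasureTheory ProbabilityTheory Set Filter

noncomputable section

namespace Pool.Agent.FPP

theorem NonClose_pow {z : ℕ} (hz : 100 ≤ z) {a b : ℕ} (h : a < b) :
    100 * (z : ℤ) ^ a ≤ (z : ℤ) ^ b := by
  have hz' : (100 : ℤ) ≤ z := by exact_mod_cast hz
  calc 100 * (z : ℤ) ^ a ≤ z * (z : ℤ) ^ a :=
        mul_le_mul_of_nonneg_right hz' (pow_nonneg (by omega) _)
    _ = (z : ℤ) ^ (a + 1) := (pow_succ' _ a).symm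
    _ ≤ (z : ℤ) ^ b := pow_le_pow_right₀ (by omega) h

theorem NonClose_T {ζ : ℕ} (hz : 100 ≤ ζ) : (ζ : ℤ) < TT ζ ∧ (ζ : ℤ) ^ 30000 ≤ TT ζ ∧
    4 * TT ζ ≤ (ζ : ℤ) ^ 120010 ∧ (0 : ℤ) < (ζ : ℤ) ^ 30000 := by
  have h1 := NonClose_pow hz (by norm_num : 1 < 120000)
  have h2 := NonClose_pow hz (by norm_num : 30000 < 120000)
  have h3 := NonClose_pow hz (by norm_num : 120000 < 120010)
  have h4 : (0 : ℤ) < (ζ : ℤ) ^ 30000 := pow_pos (by omega) _
  rw [pow_one] at h1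
  unfold TT
  generalize (ζ : ℤ) ^ 120000 = A at *
  generalize (ζ : ℤ) ^ 120010 = B at *
  generalize (ζ : ℤ) ^ 30000 = C at *
  omega

theorem NonClose_nm {u v : V} {r : ℤ} (h1 : u.1 = v.1) (h2 : ¬ r < |u.2 - v.2|) :
    nm (u - v) ≤ r ∧ nm (v - u) ≤ r := by
  have h : nm (u - v) ≤ r := by
    rw [nm_le_iff, Prod.fst_sub, Prod.snd_sub, h1, sub_self, abs_zero]
    exact ⟨(abs_nonneg _).trans (not_lt.1 h2), not_lt.1 h2⟩
  exact ⟨h, by rwa [nm_sub_comm]⟩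

open Classical in
theorem NonClose_count {L n : ℕ} (hL : 1 ≤ L) {T U : ℤ} (a : ℕ → ℕ → ℤ)
    (ha : ∀ o i, a o i = T + o + i * L) (hU : ∀ o < L, ∀ i ≤ n, T ≤ a o i ∧ a o i ≤ U)
    (F : ℤ → Prop) (O : Finset ℕ) (m : ℕ) (hO : ∀ o ∈ O, o < L) (hc : L ≤ 2 * O.card)
    (h : ∀ o ∈ O, m ≤ ((Finset.range n).filter (fun i => F (a o i) ∨
      F (a o (i + 1)) ∨ L ≤ 2 * ((Finset.Ioc (a o i) (a o (i + 1))).filter F).card)).card) :
    m * L ≤ 8 * ((Finset.Icc T U).filter F).card := by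
  generalize hM : ((Finset.Icc T U).filter F).card = M
  have hA : ∀ c ≤ 1, ∑ o ∈ O, ((Finset.range n).filter (fun i => F (a o (i + c)))).card ≤ M := by
    intro c hc1
    rw [← Finset.card_sigma, ← hM]
    refine Finset.card_le_card_of_injOn (fun x => a x.1 (x.2 + c)) ?_ ?_
    · rintro ⟨o, i⟩ hx
      simp only [Finset.coe_sigma, Set.mem_sigma_iff, Finset.mem_coe, Finset.mem_filter,
        Finset.mem_range] at hx
      exact Finset.mem_coe.2 (Finset.mem_filter.2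
        ⟨Finset.mem_Icc.2 (hU o (hO o hx.1) (i + c) (by omega)), hx.2.2⟩)
    · rintro ⟨o, i⟩ hx ⟨o', i'⟩ hx' e
      simp only [Finset.coe_sigma, Set.mem_sigma_iff, Finset.mem_coe] at hx hx'
      have e1 : o + (i + c) * L = o' + (i' + c) * L := by
        simp only [ha] at e
        have e2 : ((o + (i + c) * L : ℕ) : ℤ) = ((o' + (i' + c) * L : ℕ) : ℤ) := by
          push_cast at e ⊢
          linarith
        exact_mod_cast e2
      have e3 : o = o' := by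
        have e4 := congrArg (· % L) e1
        simp only [Nat.add_mul_mod_self_right] at e4
        rwa [Nat.mod_eq_of_lt (hO o hx.1), Nat.mod_eq_of_lt (hO o' hx'.1)] at e4
      subst e3
      have e5 : i + c = i' + c := Nat.eq_of_mul_eq_mul_right hL (Nat.add_left_cancel e1)
      have e6 : i = i' := by omega
      rw [e6]
  have hlt : ∀ o i j, a o i < a o (j + 1) → i ≤ j := by
    intro o i j hij
    rw [ha, ha] at hij
    have h1 : (i : ℤ) * L < ((j + 1 : ℕ) : ℤ) * L := by linarith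
    have h2 := lt_of_mul_lt_mul_right h1 (Nat.cast_nonneg L)
    omega
  have hC : ∀ o ∈ O, L * ((Finset.range n).filter (fun i =>
      L ≤ 2 * ((Finset.Ioc (a o i) (a o (i + 1))).filter F).card)).card ≤ 2 * M := by
    intro o ho
    have h1 : ∑ i ∈ Finset.range n, ((Finset.Ioc (a o i) (a o (i + 1))).filter F).card ≤ M := by
      rw [← Finset.card_sigma, ← hM]
      refine Finset.card_le_card_of_injOn (fun x => x.2) ?_ ?_
      · rintro ⟨i, x⟩ hx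
        simp only [Finset.coe_sigma, Set.mem_sigma_iff, Finset.mem_coe, Finset.mem_filter,
          Finset.mem_range, Finset.mem_Ioc] at hx
        exact Finset.mem_coe.2 (Finset.mem_filter.2 ⟨Finset.mem_Icc.2
          ⟨(hU o (hO o ho) i hx.1.le).1.trans hx.2.1.1.le,
            hx.2.1.2.trans (hU o (hO o ho) _ hx.1).2⟩, hx.2.2⟩)
      · rintro ⟨i, x⟩ hx ⟨j, y⟩ hy e
        simp only [Finset.coe_sigma, Set.mem_sigma_iff, Finset.mem_coe, Finset.mem_filter,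
          Finset.mem_range, Finset.mem_Ioc] at hx hy
        have e' : x = y := e
        subst e'
        have e1 : i = j := le_antisymm (hlt o i j (hx.2.1.1.trans_le hy.2.1.2))
          (hlt o j i (hy.2.1.1.trans_le hx.2.1.2))
        rw [e1]
    rw [mul_comm L, ← smul_eq_mul, ← Finset.sum_const]
    refine (Finset.sum_le_sum fun i hi => (Finset.mem_filter.1 hi).2).trans ?_
    rw [← Finset.mul_sum]
    exact Nat.mul_le_mul_left 2
      ((Finset.sum_le_sum_of_subset (Finset.filter_subset _ _)).trans h1)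
  have h1 : ∀ o ∈ O, m * L ≤ L * ((Finset.range n).filter (fun i => F (a o (i + 0)))).card +
      L * ((Finset.range n).filter (fun i => F (a o (i + 1)))).card + 2 * M := by
    intro o ho
    have h2 := h o ho
    rw [Finset.filter_or, Finset.filter_or] at h2
    have h3 := h2.trans ((Finset.card_union_le _ _).trans
      (Nat.add_le_add_left (Finset.card_union_le _ _) _))
    have h4 := Nat.mul_le_mul_left L h3
    have h5 := hC o ho
    simp only [add_zero]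
    rw [mul_add, mul_add, mul_comm L m] at h4
    omega
  have h2 := Finset.sum_le_sum h1
  rw [Finset.sum_const, Finset.sum_add_distrib, Finset.sum_const, Finset.sum_add_distrib,
    ← Finset.mul_sum, ← Finset.mul_sum, smul_eq_mul, smul_eq_mul] at h2
  have h3 := Nat.mul_le_mul_left L (hA 0 zero_le_one)
  have h4 := Nat.mul_le_mul_left L (hA 1 le_rfl)
  have h5 := Nat.mul_le_mul_right M hc
  have h6 : 0 < O.card := by omega
  refine Nat.le_of_mul_le_mul_left ?_ h6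
  nlinarith

theorem NonClose_fin {ζ : ℕ} (hz : 100 ≤ ζ) {a b c M : ℕ} (e : c + (a + 30000) = 120000)
    (hb : c < b) (h : ζ ^ a * ζ ^ 30000 ≤ 8 * M) : ζ ^ 120000 ≤ ζ ^ b * M := by
  have h1 : 8 * ζ ^ c ≤ ζ ^ b :=
    calc 8 * ζ ^ c ≤ ζ * ζ ^ c := Nat.mul_le_mul_right _ (by omega)
      _ = ζ ^ (c + 1) := (pow_succ' _ c).symm
      _ ≤ ζ ^ b := Nat.pow_le_pow_right (by omega) hb
  calc ζ ^ 120000 = ζ ^ c * (ζ ^ a * ζ ^ 30000) := by rw [← pow_add, ← pow_add, e]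
    _ ≤ ζ ^ c * (8 * M) := Nat.mul_le_mul_left _ h
    _ = 8 * ζ ^ c * M := by rw [← mul_assoc, mul_comm (ζ ^ c)]
    _ ≤ ζ ^ b * M := Nat.mul_le_mul_right _ h1

open Classical in
/-- over an attractive interval the second geodesic is not close to the first -/
theorem nonclose {N : Seminorm ℝ (ℝ × ℝ)} {G : Measure ℝ} {Λ ζ : ℕ} (hz : 100 ≤ ζ) {ω : Env}
    (hg : MG N G Λ ζ ((ζ : ℤ) ^ 120010) ω) {κ : ℝ} {p q : ℕ → V} {k l : ℕ} (hc : Cls3 κ ζ p k)
    (hp : Geo ω p k) (hq : Geo ω q l) (tq : Tube3 κ ζ q l)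
    (hd : ∀ i ≤ k, ∀ j ≤ k3 ζ q, TT ζ ≤ (p i).1 → p i ≠ q j) (tb : Bool) {R : ℕ} (hR : 2 ≤ R)
    (hR' : R ≤ 30000) {o i : ℕ} (ho : o < ζ ^ 30000) (hi : i ∈ Tame ζ o p)
    (ha : AttrG (Comp3 tb (5 * Λ) ζ ((ζ : ℤ) ^ R) o p i) (edges p k)
      (lam3 ζ o ω p i + 2 * (ζ : ℝ) ^ (R + 1)) ω) :
    FarC ((ζ : ℤ) ^ R) p k q (k3 ζ q) (aR ζ o i) ∨
      FarC ((ζ : ℤ) ^ R) p k q (k3 ζ q) (aR ζ o (i + 1)) ∨
      ζ ^ 30000 ≤ 2 * ((Finset.Ioc (aR ζ o i) (aR ζ o (i + 1))).filter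
        (fun x => FarC ((ζ : ℤ) ^ R) p k q (k3 ζ q) x)).card := by
  by_contra hcon
  rw [not_or, not_or, not_le] at hcon
  obtain ⟨n1, n2, n3⟩ := hcon
  obtain ⟨hi1, hi2⟩ := Finset.mem_filter.1 hi
  rw [Finset.mem_range] at hi1
  obtain ⟨t1, t2, t3, t4⟩ := NonClose_T hz
  obtain ⟨-, c2, c3, c4, c5⟩ := hc
  obtain ⟨-, p2, p3, -, -, p6, p7, -⟩ := piece_spec (by omega) ho hi1 hp.1 c2 c3
  obtain ⟨-, q2, q3, -, -, q6, q7, q8⟩ :=
    piece_spec (by omega) ho hi1 (tq.chain.mono tq.le) tq.start tq.col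
  rw [c4] at p3
  have r1 := (aR_range ho hi1.le).1
  have r2 := (aR_range ho (Nat.succ_le_of_lt hi1)).2
  have r3 := aR_succ ζ o i
  have hr : (ζ : ℤ) ^ R ≤ (ζ : ℤ) ^ 30000 := pow_le_pow_right₀ (by omega) hR'
  have p7' := congrArg Prod.fst p7
  have q7' := congrArg Prod.fst q7
  simp only at p7' q7'
  obtain ⟨d1, d1'⟩ := NonClose_nm (p6.trans q6.symm)
    fun h => n1 ⟨_, p2.le.trans p3, _, q2.le.trans q3, p6, q6, h⟩
  obtain ⟨d2, d2'⟩ := NonClose_nm (p7'.trans q7'.symm)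
    fun h => n2 ⟨_, p3, _, q3, p7', q7', h⟩
  have bp : ∀ j ≤ k, nm (p j) ≤ (ζ : ℤ) ^ 120010 := fun j hj => (c5 j hj).2.trans t3
  have bq : ∀ j ≤ k3 ζ q, nm (q j) ≤ (ζ : ℤ) ^ 120010 := fun j hj => (tq.tube j hj).2.trans t3
  have g1 := hq.shift q2.le (q3.trans tq.le)
  have e1 : sR ζ o q i + (eR ζ o q i - sR ζ o q i) = eR ζ o q i := Nat.add_sub_cancel' q2.le
  have hK : ((ζ ^ R : ℕ) : ℤ) = (ζ : ℤ) ^ R := Nat.cast_pow _ _
  have hK2 : ζ ^ 2 ≤ ζ ^ R := Nat.pow_le_pow_right (by omega) hR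
  have hlen : eR ζ o q i - sR ζ o q i ≤ 5 * Λ * ζ ^ 30000 := by
    have h1 := hg.len _ _ g1 (bq _ (q2.le.trans q3)) (by simp only [e1]; exact bq _ q3)
      (5 * ζ ^ 30000)
      ((Nat.le_self_pow (by norm_num) ζ).trans (Nat.le_mul_of_pos_left _ (by norm_num)))
      (by
        simp only [e1, add_zero]
        have k1 := nm_tri (q (sR ζ o q i)) (p (sR ζ o p i)) (q (eR ζ o q i))
        have k2 := nm_tri (p (sR ζ o p i)) (p (eR ζ o p i)) (q (eR ζ o q i))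
        rw [Nat.cast_mul, Nat.cast_pow, Nat.cast_ofNat]
        linarith only [k1, k2, hi2, hr, d1, d2'])
    rwa [← mul_assoc, mul_comm Λ] at h1
  have hcomp : Comp3 tb (5 * Λ) ζ ((ζ : ℤ) ^ R) o p i (fun t => q (sR ζ o q i + t))
      (eR ζ o q i - sR ζ o q i) := by
    refine ⟨hlen, g1.sa hg.nice.1, ⟨g1.1, q6.trans p6.symm, (nm_le_iff.1 d1').2, ?_, ?_,
      fun j j0 j1 => ?_⟩, fun _ => ?_⟩
    · simp only [e1]
      exact q7'.trans p7'.symm
    · simp only [e1]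
      exact (nm_le_iff.1 d2').2
    · rw [p6, p7']
      exact q8 _ (by omega) (by omega)
    · have k0 : aR ζ o (i + 1) ≤ (q (sR ζ o q i + (eR ζ o q i - sR ζ o q i))).1 := by
        rw [e1, q7']
      have k1 := tube_count g1.1 (le_of_eq q6) k0 (fun x => ht p x - (ζ : ℤ) ^ R)
        (fun x => ht p x + (ζ : ℤ) ^ R)
      have k2 := Finset.card_filter_add_card_filter_not
        (s := Finset.Ioc (aR ζ o i) (aR ζ o (i + 1)))
        (fun x => FarC ((ζ : ℤ) ^ R) p k q (k3 ζ q) x)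
      have k4 : (aR ζ o (i + 1) - aR ζ o i).toNat = ζ ^ 30000 := by
        rw [r3, add_sub_cancel_left, ← Nat.cast_pow, Int.toNat_natCast]
      rw [Int.card_Ioc, k4] at k2
      have k3' : ((Finset.Ioc (aR ζ o i) (aR ζ o (i + 1))).filter
          (fun x => ¬ FarC ((ζ : ℤ) ^ R) p k q (k3 ζ q) x)).card ≤ _ :=
        le_trans (Finset.card_le_card fun x hx => ?_) k1
      · generalize ζ ^ 30000 = A at *
        omega
      obtain ⟨x1, x2⟩ := Finset.mem_filter.1 hx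
      refine Finset.mem_filter.2 ⟨x1, ?_⟩
      rw [Finset.mem_Ioc] at x1
      have x3 : (p 0).1 < x := by
        linarith only [le_abs_self (p 0).1, abs_fst_le_nm (p 0), c2, t1, r1, x1.1]
      have x4 : x ≤ (p k).1 := by linarith only [x1.2, r2, t2, c3]
      obtain ⟨f1, -, f2, -⟩ := hp.1.fi_spec x3 x4
      obtain ⟨f3, -, f4, -⟩ := g1.1.fi_spec (a := x) (lt_of_eq_of_lt q6 x1.1) (x1.2.trans k0)
      have x5 : ¬ (ζ : ℤ) ^ R < |ht p x - ht (fun t => q (sR ζ o q i + t)) x| := fun h =>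
        x2 ⟨_, f1, sR ζ o q i + fi (fun t => q (sR ζ o q i + t)) x, by omega,
          congrArg Prod.fst f2, congrArg Prod.fst f4, h⟩
      obtain ⟨x6, x7⟩ := abs_le.1 (not_lt.1 x5)
      constructor <;> linarith only [x6, x7]
  have hav : ∀ j < eR ζ o q i - sR ζ o q i, ed (fun t => q (sR ζ o q i + t)) j ∉ edges p k := by
    rintro j hj ⟨j', hj', e⟩
    have k1 : TT ζ ≤ (q (sR ζ o q i + j)).1 := by
      rcases Nat.eq_zero_or_pos j with rfl | j0
      · exact r1.trans (le_of_eq q6.symm)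
      · exact r1.trans (q8 _ (by omega) (by omega)).1.le
    have k2 : sR ζ o q i + j ≤ k3 ζ q := by omega
    rcases Sym2.eq_iff.1 e with ⟨h, -⟩ | ⟨h, -⟩
    · exact hd j' hj'.le _ k2 (h ▸ k1) h.symm
    · exact hd (j' + 1) hj' _ k2 (h ▸ k1) h.symm
  have w1 := ha _ _ hcomp hav
  rw [W_shift, hq.sub q2.le (q3.trans tq.le)] at w1
  have w2 := hg.upb _ _ (bq _ (q2.le.trans q3)) (bp _ (p2.le.trans p3)) _ hK2 (hK ▸ d1)
  have w3 := hg.upb _ _ (bp _ p3) (bq _ q3) _ hK2 (hK ▸ d2')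
  have w4 := d_le_W ω hp.1 p2.le p3
  have w5 := d_triangle ω (q (sR ζ o q i)) (p (sR ζ o p i)) (q (eR ζ o q i))
  have w6 := d_triangle ω (p (sR ζ o p i)) (p (eR ζ o p i)) (q (eR ζ o q i))
  rw [Nat.cast_pow, ← pow_succ'] at w2 w3
  unfold lam3 at w1
  linarith only [w1, w2, w3, w4, w5, w6]

open Classical in
/-- averaging over the offsets -/
theorem farcount {ζ : ℕ} (hz : 1 ≤ ζ) (F : ℤ → Prop) (O : Finset ℕ) (m : ℕ)
    (hO : ∀ o ∈ O, o < ζ ^ 30000) (hc : ζ ^ 30000 ≤ 2 * O.card)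
    (h : ∀ o ∈ O, m ≤ ((Finset.range (ζ ^ 90000)).filter (fun i => F (aR ζ o i) ∨
      F (aR ζ o (i + 1)) ∨ ζ ^ 30000 ≤
        2 * ((Finset.Ioc (aR ζ o i) (aR ζ o (i + 1))).filter F).card)).card) :
    m * ζ ^ 30000 ≤
      8 * ((Finset.Icc (TT ζ) (2 * TT ζ + (ζ : ℤ) ^ 30000)).filter F).card := by
  exact NonClose_count (Nat.one_le_pow _ _ hz) (aR ζ) (fun o i => by rw [aR, Nat.cast_pow])
    (fun o ho i hi => aR_range ho hi) F O m hO hc h

theorem far_det {N : Seminorm ℝ (ℝ × ℝ)} {G : Measure ℝ} {Λ ζ : ℕ} (hz : 100 ≤ ζ) {ω : Env}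
    (hg : MG N G Λ ζ ((ζ : ℤ) ^ 120010) ω) {κ : ℝ} (hF : NoBadF κ (5 * Λ) ζ ω)
    (hE : NoBadE κ (5 * Λ) ζ ω) {p q : ℕ → V} {k l : ℕ} (hp : Geo ω p k) (hq : Geo ω q l)
    (tp : Tube3 κ ζ p k) (tq : Tube3 κ ζ q l)
    (hd : ∀ i ≤ k3 ζ p, ∀ j ≤ k3 ζ q, TT ζ ≤ (p i).1 → p i ≠ q j) :
    ζ ^ 120000 ≤ ζ ^ 2770 * FarN ζ ((ζ : ℤ) ^ 12236) p q ∨
      ζ ^ 120000 ≤ ζ ^ 770 * FarN ζ ((ζ : ℤ) ^ 6000) p q := by
  classical
  obtain ⟨t1, t2, -, t4⟩ := NonClose_T hz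
  have hm : ∀ t ≤ k3 ζ p, p t = (fun t => p (min t (k3 ζ p))) t := fun t ht => by
    simp only [min_eq_left ht]
  have hch := tp.chain.mono tp.le
  have hmem := norm_mem_paths hch
  have h0 : (p 0).1 < 3 * TT ζ := by
    linarith only [le_abs_self (p 0).1, abs_fst_le_nm (p 0), tp.start, t1, t2, t4]
  have hk := (fi_congr hch hm h0 tp.col.ge).1
  generalize (fun t => p (min t (k3 ζ p))) = p' at hm hmem hk
  have hc : Cls3 κ ζ p' (k3 ζ p) := by
    refine ⟨?_, ?_, ?_, hk, fun j hj => ?_⟩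
    · rwa [← hm 0 (Nat.zero_le _)]
    · rw [← hm 0 (Nat.zero_le _)]
      exact tp.start
    · rw [← hm _ le_rfl]
      exact tp.col
    · rw [← hm j hj]
      exact tp.tube j hj
  have hp' : Geo ω p' (k3 ζ p) := (hp.mono tp.le).congr hm
  have hd' : ∀ i ≤ k3 ζ p, ∀ j ≤ k3 ζ q, TT ζ ≤ (p' i).1 → p' i ≠ q j := fun i hi => by
    rw [← hm i hi]
    exact hd i hi
  have hf : ∀ r x, FarC r p' (k3 ζ p) q (k3 ζ q) x → FarC r p (k3 ζ p) q (k3 ζ q) x := by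
    rintro r x ⟨i, hi, h⟩
    rw [← hm i hi] at h
    exact ⟨i, hi, h⟩
  have key : ∀ (tb : Bool) (R m : ℕ) (O : Finset ℕ), 2 ≤ R → R ≤ 30000 →
      (∀ o ∈ O, o < ζ ^ 30000) → ζ ^ 30000 ≤ 2 * O.card →
      (∀ o ∈ O, ¬ BadG (Tame ζ o p') (Comp3 tb (5 * Λ) ζ ((ζ : ℤ) ^ R) o p') (edges p' (k3 ζ p))
        (fun i => lam3 ζ o ω p' i + 2 * (ζ : ℝ) ^ (R + 1)) m ω) →
      m * ζ ^ 30000 ≤ 8 * FarN ζ ((ζ : ℤ) ^ R) p q := by
    intro tb R m O hR hR' hO hcard hb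
    refine (farcount (by omega) (fun x => FarC ((ζ : ℤ) ^ R) p' (k3 ζ p) q (k3 ζ q) x) O m hO hcard
      fun o ho => ?_).trans (Nat.mul_le_mul_left 8 (Finset.card_le_card fun x hx => ?_))
    · refine (not_lt.1 (hb o ho)).trans (Finset.card_le_card fun i hi => ?_)
      obtain ⟨i1, i2⟩ := Finset.mem_filter.1 hi
      exact Finset.mem_filter.2 ⟨(Finset.mem_filter.1 i1).1,
        nonclose hz hg hc hp' hq tq hd' tb hR hR' (hO o ho) i1 i2⟩
    · obtain ⟨x1, x2⟩ := Finset.mem_filter.1 hx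
      exact Finset.mem_filter.2 ⟨x1, hf _ _ x2⟩
  have hs := Finset.card_filter_add_card_filter_not (s := Finset.range (ζ ^ 30000))
    (fun o => (ζ : ℝ) ^ 102240 ≤ OscS κ ζ o p')
  rw [Finset.card_range] at hs
  have hor : ζ ^ 30000 ≤ 2 * ((Finset.range (ζ ^ 30000)).filter
      (fun o => (ζ : ℝ) ^ 102240 ≤ OscS κ ζ o p')).card ∨
      ζ ^ 30000 ≤ 2 * ((Finset.range (ζ ^ 30000)).filter
        (fun o => ¬ (ζ : ℝ) ^ 102240 ≤ OscS κ ζ o p')).card := by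
    generalize ((Finset.range (ζ ^ 30000)).filter
      (fun o => (ζ : ℝ) ^ 102240 ≤ OscS κ ζ o p')).card = A at hs ⊢
    generalize ((Finset.range (ζ ^ 30000)).filter
      (fun o => ¬ (ζ : ℝ) ^ 102240 ≤ OscS κ ζ o p')).card = B at hs ⊢
    generalize ζ ^ 30000 = C at hs ⊢
    omega
  rcases hor with h | h
  · refine Or.inl (NonClose_fin hz (a := 87234) (c := 2766) rfl (by norm_num) ?_)
    refine key false 12236 _ _ (by norm_num) (by norm_num)
      (fun o ho => Finset.mem_range.1 (Finset.mem_filter.1 ho).1) h fun o ho => ?_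
    obtain ⟨o1, o2⟩ := Finset.mem_filter.1 ho
    exact hF o (Finset.mem_range.1 o1) p' _ hc o2 hp'
  · refine Or.inr (NonClose_fin hz (a := 89233) (c := 767) rfl (by norm_num) ?_)
    refine key true 6000 _ _ (by norm_num) (by norm_num)
      (fun o ho => Finset.mem_range.1 (Finset.mem_filter.1 ho).1) h fun o ho => ?_
    obtain ⟨o1, o2⟩ := Finset.mem_filter.1 ho
    exact hE o (Finset.mem_range.1 o1) p' _ hc (not_le.1 o2).le hp'

end Pool.Agent.FPP
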