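import Pool.Agent.P.MP_ecb9f8_pr.SlotProb
import Pool.Agent.P.MP_ecb9f8_pr.NoBad3
import Pool.Agent.P.MP_ecb9f8_pr.NonClose
import Pool.Agent.P.MP_ecb9f8_pr.MGp
import Pool.Agent.P.MP_ecb9f8_pr.LBAp

open MeasureTheory ProbabilityTheory Set Filter

noncomputable section

namespace Pool.Agent.FPP

theorem Acr_arith {z : ℝ} (hz : 100 ≤ z) :
    (z ^ 5)⁻¹ + (z ^ 5)⁻¹ + (z ^ 5)⁻¹ + (z ^ 10)⁻¹ + (z ^ 5)⁻¹ + (z ^ 5)⁻¹ + (z ^ 5)⁻¹ +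
      (z ^ 5)⁻¹ ≤ (z ^ 3)⁻¹ := by
  have h0 : (0 : ℝ) < z := by linarith
  have h1 : (z ^ 10)⁻¹ ≤ (z ^ 5)⁻¹ :=
    inv_anti₀ (by positivity) (pow_le_pow_right₀ (by linarith) (by norm_num))
  have h2 : 8 * (z ^ 5)⁻¹ ≤ (z ^ 3)⁻¹ := by
    have h3 : (z ^ 3)⁻¹ = z ^ 2 * (z ^ 5)⁻¹ := by field_simp
    rw [h3]
    exact mul_le_mul_of_nonneg_right (by nlinarith) (by positivity)
  linarith

theorem Acr_union {μ : Measure Env} {A B : Set Env} {a b : ℝ} (ha : 0 ≤ a) (hb : 0 ≤ b)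
    (hA : μ A ≤ ENNReal.ofReal a) (hB : μ B ≤ ENNReal.ofReal b) :
    μ (A ∪ B) ≤ ENNReal.ofReal (a + b) := by
  rw [ENNReal.ofReal_add ha hb]
  exact (measure_union_le _ _).trans (add_le_add hA hB)

/-- anchored corner runs force coalescence -/
theorem acr (G : Measure ℝ) [IsProbabilityMeasure G] (hG : Law G) {N : Seminorm ℝ (ℝ × ℝ)}
    (hN : IsTC G N) {κ c : ℝ} {φ : ℝ × ℝ} (hc : 0 < c) (hC : Corner N κ c φ) :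
    ∀ᶠ ζ : ℕ in atTop, ∀ xP oP xQ oQ : V, nm xP ≤ (ζ : ℤ) → nm xQ ≤ (ζ : ℤ) →
      nm (oQ - oP) ≤ (ζ : ℤ) →
      PP G {ω | RunEv κ ζ ω xP oP xQ oQ} ≤ ENNReal.ofReal (((ζ : ℝ) ^ 3)⁻¹) := by
  obtain ⟨Λ₀, hΛ₀⟩ := sp_mg G hG hN
  have hΛ : 1 ≤ Λ₀ + 1 := by omega
  have hmg := hΛ₀ (Λ₀ + 1) (by omega) 120010
  have hF := sp_nobadF G hG hN hc hC hΛ hmg (5 * (Λ₀ + 1))
  have hE := sp_nobadE G hG hC.1 hmg (5 * (Λ₀ + 1))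
  have s1 := slot_prob G hG hc hC hΛ (R := 6118) (A := 3000) (Mx := 2770) (by norm_num)
    (by norm_num) (by norm_num) (by norm_num)
  have s2 := slot_prob G hG hc hC hΛ (R := 3000) (A := 1000) (Mx := 770) (by norm_num)
    (by norm_num) (by norm_num) (by norm_num)
  filter_upwards [hmg 5, hF 5, hE 5, s1, s2, short_gen G hG 5, ac0_prob G hG (Λ₀ + 1),
    eventually_sz N hc hΛ, eventually_ge_atTop 100] with ζ h1 h2 h3 h4 h5 h6 h7 hz h100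
  intro xP oP xQ oQ a1 a2 a3
  have hz' : (100 : ℝ) ≤ ζ := by exact_mod_cast h100
  have hzi : (100 : ℤ) ≤ ζ := by exact_mod_cast h100
  have p5 : (0 : ℝ) ≤ ((ζ : ℝ) ^ 5)⁻¹ := by positivity
  have p10 : (0 : ℝ) ≤ ((ζ : ℝ) ^ 10)⁻¹ := by positivity
  have n1 : nm (xQ - xP) ≤ ((ζ ^ 2 : ℕ) : ℤ) := by
    have := nm_sub_le xQ xP
    push_cast
    nlinarith
  have n2 : nm (oQ - oP) ≤ ((ζ ^ 2 : ℕ) : ℤ) := by
    push_cast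
    nlinarith
  have b1 := h6 xP xQ (ζ ^ 2) le_rfl n1
  have b2 := h6 oP oQ (ζ ^ 2) le_rfl n2
  have u := Acr_union (by positivity) p5 (Acr_union (by positivity) p5 (Acr_union (by positivity) p5
    (Acr_union (by positivity) p5 (Acr_union (by positivity) p10 (Acr_union (by positivity) p5
      (Acr_union p5 p5 h1 b1) b2) (h7 κ xQ oQ)) h2) h3) (h4 xP oP xQ oQ)) (h5 xP oP xQ oQ)
  refine le_trans (measure_mono ?_) (u.trans (ENNReal.ofReal_le_ofReal (Acr_arith hz')))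
  intro ω hr
  by_contra hn
  simp only [mem_union, mem_setOf_eq, not_or, not_not, not_lt] at hn
  obtain ⟨⟨⟨⟨⟨⟨⟨g1, g2⟩, g3⟩, g4⟩, g5⟩, g6⟩, g7⟩, g8⟩ := hn
  have e3 : (ζ : ℝ) * ((ζ ^ 2 : ℕ) : ℝ) = (ζ : ℝ) ^ 3 := by push_cast; ring
  rw [e3] at g2 g3
  obtain ⟨p, k, q, l, hp, hq, c1, c2, c3, c4, tp, tq, hd⟩ :=
    ac0_det hC hz g1 a1 a2 g2 g3 hr g4
  rcases far_det h100 g1 g5 g6 hp hq tp tq hd with h | h
  · exact g7 ⟨g1, g2, g3, p, k, q, l, hp, hq, c1, c2, c3, c4, tp, tq, h⟩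
  · exact g8 ⟨g1, g2, g3, p, k, q, l, hp, hq, c1, c2, c3, c4, tp, tq, h⟩

end Pool.Agent.FPP
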