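import Pool.Agent.P.MP_ecb9f8_pr.Path1

open MeasureTheory ProbabilityTheory Set Filter

noncomputable section

namespace Pool.Agent.FPP

theorem nm_nonneg (v : V) : 0 ≤ nm v := le_max_of_le_left (abs_nonneg _)

theorem nm_add_le (u v : V) : nm (u + v) ≤ nm u + nm v :=   max_le ((abs_add_le _ _).trans (add_le_add (le_max_left _ _) (le_max_left _ _)))
    ((abs_add_le _ _).trans (add_le_add (le_max_right _ _) (le_max_right _ _)))

theorem nm_sub_le (u v : V) : nm (u - v) ≤ nm u + nm v :=   max_le ((abs_sub _ _).trans (add_le_add (le_max_left _ _) (le_max_left _ _)))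
    ((abs_sub _ _).trans (add_le_add (le_max_right _ _) (le_max_right _ _)))

theorem nm_neg (v : V) : nm (-v) = nm v := by simp [nm]

theorem nm_sub_comm (u v : V) : nm (u - v) = nm (v - u) := by rw [← nm_neg, neg_sub]

theorem nm_tri (a b c : V) : nm (c - a) ≤ nm (b - a) + nm (c - b) := by
  rw [show c - a = b - a + (c - b) by abel]
  exact nm_add_le _ _

theorem abs_fst_le_nm (v : V) : |v.1| ≤ nm v := le_max_left _ _

theorem abs_snd_le_nm (v : V) : |v.2| ≤ nm v := le_max_right _ _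

theorem nm_le_iff {v : V} {a : ℤ} : nm v ≤ a ↔ |v.1| ≤ a ∧ |v.2| ≤ a := max_le_iff

theorem norm_rv (v : V) : ‖rv v‖ = (nm v : ℝ) := by simp [rv, nm, Prod.norm_def]

theorem rv_add (u v : V) : rv (u + v) = rv u + rv v := by simp [rv]

theorem rv_sub (u v : V) : rv (u - v) = rv u - rv v := by simp [rv]

theorem rv_neg (v : V) : rv (-v) = -rv v := by simp [rv]

theorem rv_nsmul (k : ℕ) (v : V) : rv (k • v) = (k : ℝ) • rv v := by simp [rv]

theorem Adj.nm_le {a b : V} (h : Adj a b) : nm (b - a) ≤ 1 := by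
  have h1 := abs_nonneg (a.1 - b.1)
  have h2 := abs_nonneg (a.2 - b.2)
  rw [Adj] at h
  rw [nm_sub_comm, nm_le_iff, Prod.fst_sub, Prod.snd_sub]
  constructor <;> linarith

theorem Chain.nm_le {p : ℕ → V} {k i j : ℕ} (h : Chain p k) (hij : i ≤ j) (hjk : j ≤ k) :
    nm (p j - p i) ≤ (j : ℤ) - (i : ℤ) := by
  induction j, hij using Nat.le_induction with
  | base => simp [nm]
  | succ j hij ih =>
    have h1 := nm_tri (p i) (p j) (p (j + 1))
    have h2 := (h j hjk).nm_le
    have h3 := ih (by omega)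
    push_cast
    linarith

/-- discrete intermediate value theorem along a walk, first passage version -/
theorem Chain.ivt {p : ℕ → V} {k i j : ℕ} (h : Chain p k) (F : V → ℤ)
    (hF : ∀ a b, Adj a b → F b ≤ F a + 1) (hij : i ≤ j) (hjk : j ≤ k) {a : ℤ}
    (h1 : F (p i) ≤ a) (h2 : a ≤ F (p j)) :
    ∃ t, i ≤ t ∧ t ≤ j ∧ F (p t) = a ∧ ∀ s, i ≤ s → s < t → F (p s) < a := by
  classical
  have hex : ∃ t, i ≤ t ∧ a ≤ F (p t) := ⟨j, hij, h2⟩
  have h3 := Nat.find_spec hex
  have h4 : Nat.find hex ≤ j := Nat.find_min' hex ⟨hij, h2⟩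
  have h5 : ∀ s, i ≤ s → s < Nat.find hex → F (p s) < a := fun s hs hs' =>
    not_le.1 fun h' => Nat.find_min hex hs' ⟨hs, h'⟩
  refine ⟨_, h3.1, h4, le_antisymm ?_ h3.2, h5⟩
  generalize Nat.find hex = t at *
  rcases h3.1.eq_or_lt with rfl | h6
  · exact h1
  · obtain ⟨s, rfl⟩ : ∃ s, t = s + 1 := ⟨t - 1, by omega⟩
    have h7 := hF _ _ (h s (by omega))
    have h8 := h5 s (by omega) (by omega)
    omega

theorem Path3_fi_eq {p : ℕ → V} {a : ℤ} {t : ℕ} (h : (p t).1 = a) (h' : ∀ s < t, (p s).1 < a) :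
    fi p a = t :=
  le_antisymm (Nat.sInf_le h) (not_lt.1 fun h1 =>
    (h' _ h1).ne (Nat.sInf_mem (s := {i : ℕ | (p i).1 = a}) ⟨t, h⟩))

theorem Chain.fi_spec {p : ℕ → V} {k : ℕ} (h : Chain p k) {a : ℤ} (h1 : (p 0).1 < a)
    (h2 : a ≤ (p k).1) :
    fi p a ≤ k ∧ 0 < fi p a ∧ p (fi p a) = (a, ht p a) ∧ p (fi p a - 1) = (a - 1, ht p a) ∧
      ∀ i < fi p a, (p i).1 < a := by
  obtain ⟨t, -, h3, h4, h5⟩ := h.ivt Prod.fst (fun a b hab => by
    have := le_abs_self (b.1 - a.1)
    have := abs_nonneg (a.2 - b.2)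
    rw [Adj, abs_sub_comm a.1] at hab
    linarith) (Nat.zero_le k) le_rfl h1.le h2
  have h6 : ∀ s < t, (p s).1 < a := fun s hs => h5 s (Nat.zero_le s) hs
  rw [ht, Path3_fi_eq h4 h6]
  obtain ⟨s, rfl⟩ : ∃ s, t = s + 1 := by
    cases t with
    | zero => exact absurd h4 h1.ne
    | succ s => exact ⟨s, rfl⟩
  have h7 := h s h3
  have h8 := h6 s (by omega)
  simp only [Adj, abs_eq_max_neg] at h7
  refine ⟨h3, by omega, Prod.ext h4 rfl, Prod.ext ?_ ?_, h6⟩ <;> simp only [Nat.add_sub_cancel] <;>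
    omega

theorem Chain.fi_lt {p : ℕ → V} {k : ℕ} (h : Chain p k) {a b : ℤ} (h1 : (p 0).1 < a)
    (hab : a < b) (h2 : b ≤ (p k).1) : fi p a < fi p b := by
  obtain ⟨-, -, a3, -, a5⟩ := h.fi_spec h1 (hab.le.trans h2)
  obtain ⟨-, -, b3, -, -⟩ := h.fi_spec (h1.trans hab) h2
  have a6 : (p (fi p a)).1 = a := congrArg Prod.fst a3
  have b6 : (p (fi p b)).1 = b := congrArg Prod.fst b3
  by_contra h3
  rcases (not_lt.1 h3).eq_or_lt with h4 | h4
  · rw [h4] at b6
    omega
  · have := a5 _ h4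
    omega

/-- `fi` and `ht` only depend on the walk up to a time at which column `a` has been reached -/
theorem fi_congr {p q : ℕ → V} {k : ℕ} (h : Chain p k) (hq : ∀ t ≤ k, p t = q t) {a : ℤ}
    (h1 : (p 0).1 < a) (h2 : a ≤ (p k).1) : fi q a = fi p a ∧ ht q a = ht p a := by
  obtain ⟨a1, -, a3, -, a5⟩ := h.fi_spec h1 h2
  have e : fi q a = fi p a := Path3_fi_eq (by rw [← hq _ a1, a3]) fun s hs => by
    rw [← hq s (hs.le.trans a1)]
    exact a5 s hs
  exact ⟨e, by rw [ht, ht, e, hq _ a1]⟩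

theorem mem_nbrs {a b : V} : b ∈ nbrs a ↔ Adj a b := by
  simp only [nbrs, Adj, Finset.mem_insert, Finset.mem_singleton, Prod.ext_iff, abs_eq_max_neg]
  omega

theorem mem_paths {v : V} {k : ℕ} {p : ℕ → V} :
    p ∈ paths v k ↔ Chain p k ∧ p 0 = v ∧ ∀ i, k ≤ i → p i = p k := by
  induction k generalizing p with
  | zero =>
    simp only [paths, Finset.mem_singleton]
    refine ⟨?_, fun h => funext fun i => (h.2.2 i (Nat.zero_le i)).trans h.2.1⟩
    rintro rfl
    exact ⟨fun i hi => absurd hi (Nat.not_lt_zero i), rfl, fun _ _ => rfl⟩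
  | succ k ih =>
    simp only [paths, Finset.mem_biUnion, Finset.mem_image, ih, mem_nbrs]
    constructor
    · rintro ⟨q, ⟨h1, h2, -⟩, w, hw, rfl⟩
      refine ⟨fun i hi => ?_, by simpa using h2, fun i hi => ?_⟩
      · beta_reduce
        rw [if_pos (by omega)]
        split_ifs with h3
        · exact h1 i h3
        · rwa [show i = k by omega]
      · beta_reduce
        rw [if_neg (by omega), if_neg (by omega)]
    · rintro ⟨h1, h2, h3⟩
      refine ⟨fun t => p (min t k), ⟨fun i hi => ?_, by simpa using h2, fun i hi => ?_⟩, p (k + 1),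
        ?_, funext fun i => ?_⟩
      · beta_reduce
        rw [min_eq_left hi.le, min_eq_left hi]
        exact h1 i (by omega)
      · beta_reduce
        rw [min_eq_right hi, min_self]
      · beta_reduce
        rw [min_self]
        exact h1 k (by omega)
      · beta_reduce
        split_ifs with h4
        · rw [min_eq_left h4]
        · exact (h3 i (by omega)).symm

theorem card_paths (v : V) (k : ℕ) : (paths v k).card ≤ 4 ^ k := by
  classical
  induction k with
  | zero => simp [paths]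
  | succ k ih =>
    rw [paths, pow_succ]
    exact (Finset.card_biUnion_le_card_mul _ _ 4 fun p _ =>
      Finset.card_image_le.trans Finset.card_le_four).trans (Nat.mul_le_mul_right 4 ih)

theorem norm_mem_paths {p : ℕ → V} {k : ℕ} (h : Chain p k) :
    (fun t => p (min t k)) ∈ paths (p 0) k := by
  refine mem_paths.2 ⟨fun i hi => ?_, by simp, fun i hi => ?_⟩
  · beta_reduce
    rw [min_eq_left hi.le, min_eq_left hi]
    exact h i hi
  · rw [min_eq_right hi, min_self]

theorem SA.ed_inj {p : ℕ → V} {k : ℕ} (h : SA p k) {i j : ℕ} (hi : i < k) (hj : j < k)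
    (he : ed p i = ed p j) : i = j := by
  rcases Sym2.eq_iff.1 he with h1 | h1
  · exact h i hi.le j hj.le h1.1
  · have h2 := h i hi.le (j + 1) hj h1.1
    have h3 := h (i + 1) hi j hj.le h1.2
    omega

/-- a self-avoiding walk is determined by its end points and a set containing its edges -/
theorem SA.eq_of_edges {p q : ℕ → V} {k l : ℕ} (sp : SA p k) (sq : SA q l) (h0 : p 0 = q 0)
    (he : p k = q l) (h : ∀ i < k, ∃ j < l, ed p i = ed q j) :
    k = l ∧ ∀ i ≤ k, p i = q i := by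
  have key : ∀ i ≤ k, i ≤ l ∧ ∀ t ≤ i, p t = q t := by
    intro i
    induction i with
    | zero => exact fun _ => ⟨Nat.zero_le l, fun t ht => by rwa [Nat.le_zero.1 ht]⟩
    | succ i ih =>
      intro hi
      obtain ⟨h1, h2⟩ := ih (by omega)
      obtain ⟨j, hj, e⟩ := h i hi
      rcases Sym2.eq_iff.1 e with h3 | h3
      · obtain rfl : i = j := sq i h1 j hj.le ((h2 i le_rfl).symm.trans h3.1)
        refine ⟨hj, fun t ht => ?_⟩
        rcases ht.eq_or_lt with rfl | h4
        · exact h3.2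
        · exact h2 t (by omega)
      · have h4 := sq i h1 (j + 1) hj ((h2 i le_rfl).symm.trans h3.1)
        have h5 := sp (i + 1) hi j (by omega) (h3.2.trans (h2 j (by omega)).symm)
        omega
  obtain ⟨h1, h2⟩ := key k le_rfl
  exact ⟨sq k h1 l le_rfl ((h2 k le_rfl).symm.trans he), h2⟩

theorem Dir.mono {S s : ℤ} {p : ℕ → V} {k j : ℕ} (h : Dir S s p k) (hj : j ≤ k) :
    Dir S s p j := fun a b hab hb => h a b hab (hb.trans hj)

theorem Dir.back {S s : ℤ} {p : ℕ → V} {k i j : ℕ} (h : Dir S s p k) (hS : 1 ≤ S) (hs : 0 ≤ s)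
    (hij : i ≤ j) (hj : j ≤ k) : (p i).1 - s ≤ (p j).1 := by
  have h1 := (abs_nonneg _).trans (h i j hij hj)
  rcases le_total 0 ((p j).1 - (p i).1) with h2 | h2
  · linarith
  · nlinarith

/-- the reversed walk reflected in the vertical axis is directed -/
theorem Dir.rev {S s : ℤ} {p : ℕ → V} {k : ℕ} (h : Dir S s p k) :
    Dir S s (fun t => (-(p (k - t)).1, (p (k - t)).2)) k := fun i j hij _ => by
  have h1 := h (k - j) (k - i) (by omega) (by omega)
  rw [abs_sub_comm] at h1
  refine h1.trans (le_of_eq ?_)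
  ring

end Pool.Agent.FPP
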