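import Pool.Agent.P.MP_ecb9f8_pr.Path2
import Pool.Agent.P.MP_ecb9f8_pr.Path3

open MeasureTheory ProbabilityTheory Set Filter

noncomputable section

namespace Pool.Agent.FPP

open Classical in
/-- the two height functions are close over the `i`-th interval -/
def Close (z : ℕ) (f f' : ℤ → ℤ) (i : ℕ) : Prop :=
  |f (bC z i) - f' (bC z i)| ≤ (z : ℤ) ^ 240 ∧
  |f (aC z (i + 1)) - f' (aC z (i + 1))| ≤ (z : ℤ) ^ 240 ∧
  z ^ 760 ≤ 2 * ((Finset.Ioc (bC z i) (aC z (i + 1))).filter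
    (fun a => |f a - f' a| ≤ (z : ℤ) ^ 240)).card

theorem AttDet_succ (z i : ℕ) : aC z (i + 1) = aC z i + (z : ℤ) ^ 760 := by
  simp only [aC]
  generalize (z : ℤ) ^ 760 = M
  push_cast
  ring

theorem AttDet_mono (z : ℕ) {i j : ℕ} (h : i ≤ j) : aC z i ≤ aC z j := by
  have h1 : (0 : ℤ) ≤ (z : ℤ) ^ 760 := by positivity
  have h2 : (i : ℤ) ≤ j := by exact_mod_cast h
  simp only [aC]
  generalize (z : ℤ) ^ 760 = M at h1 ⊢
  nlinarith

theorem AttDet_zero (z : ℕ) : aC z 0 = cA z := by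
  simp only [aC, Nat.cast_zero, zero_mul, add_zero]

theorem AttDet_last (z : ℕ) : aC z (z ^ 260) = cB z := by
  have h : (z : ℤ) ^ 260 * (z : ℤ) ^ 760 = (z : ℤ) ^ 1020 := by rw [← pow_add]
  simp only [aC, cA, cB, Nat.cast_pow, h]
  generalize (z : ℤ) ^ 1020 = M
  ring

theorem AttDet_ab (z i : ℕ) : aC z i < bC z i := by
  have h1 : (0 : ℤ) ≤ (z : ℤ) ^ 40 := by positivity
  simp only [bC]
  omega

theorem AttDet_pow {z : ℕ} (hz : 100 ≤ z) {a b : ℕ} (h : a < b) :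
    100 * (z : ℤ) ^ a ≤ (z : ℤ) ^ b := by
  have hz' : (100 : ℤ) ≤ z := by exact_mod_cast hz
  have h1 : (z : ℤ) ^ (a + 1) ≤ (z : ℤ) ^ b := pow_le_pow_right₀ (by omega) h
  have h2 : (0 : ℤ) ≤ (z : ℤ) ^ a := by positivity
  rw [pow_succ'] at h1
  nlinarith

theorem AttDet_one {z : ℕ} (hz : 100 ≤ z) (a : ℕ) : 1 ≤ (z : ℤ) ^ a :=
  one_le_pow₀ (by exact_mod_cast (by omega : 1 ≤ z))

theorem AttDet_ba {z : ℕ} (hz : 100 ≤ z) (i : ℕ) : bC z i < aC z (i + 1) := by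
  have h1 := AttDet_pow hz (show 40 < 760 by norm_num)
  have h2 := AttDet_one hz 40
  rw [AttDet_succ]
  simp only [bC]
  omega

theorem AttDet_range {z : ℕ} (hz : 100 ≤ z) {i : ℕ} (hi : i < z ^ 260) :
    cA z ≤ aC z i ∧ aC z i < bC z i ∧ bC z i < aC z (i + 1) ∧ aC z (i + 1) ≤ cB z :=
  ⟨AttDet_zero z ▸ AttDet_mono z (Nat.zero_le i), AttDet_ab z i, AttDet_ba hz i,
    AttDet_last z ▸ AttDet_mono z hi⟩

theorem AttDet_term {z : ℕ} (hz : 100 ≤ z) (f f' : ℤ → ℤ) (i : ℕ) (h : ¬ Close z f f' i) :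
    (z : ℤ) ^ 999 ≤ ∑ a ∈ Finset.Ioc (bC z i) (aC z (i + 1)), |f a - f' a| +
      (z : ℤ) ^ 760 * (|f (bC z i) - f' (bC z i)| + |f (aC z (i + 1)) - f' (aC z (i + 1))|) := by
  classical
  have s0 : 0 ≤ ∑ a ∈ Finset.Ioc (bC z i) (aC z (i + 1)), |f a - f' a| :=
    Finset.sum_nonneg fun _ _ => abs_nonneg _
  have e1 : (z : ℤ) ^ 999 = (z : ℤ) ^ 759 * (z : ℤ) ^ 240 := by rw [← pow_add]
  have p1 := AttDet_pow hz (show 759 < 760 by norm_num)
  have p2 := AttDet_pow hz (show 40 < 759 by norm_num)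
  have p3 := AttDet_one hz 40
  have p4 := AttDet_one hz 240
  have a1 := abs_nonneg (f (bC z i) - f' (bC z i))
  have a2 := abs_nonneg (f (aC z (i + 1)) - f' (aC z (i + 1)))
  by_cases h1 : |f (bC z i) - f' (bC z i)| ≤ (z : ℤ) ^ 240 ∧
      |f (aC z (i + 1)) - f' (aC z (i + 1))| ≤ (z : ℤ) ^ 240
  · have h2 : 2 * ((Finset.Ioc (bC z i) (aC z (i + 1))).filter
        (fun a => |f a - f' a| ≤ (z : ℤ) ^ 240)).card < z ^ 760 := by
      by_contra hc
      exact h ⟨h1.1, h1.2, not_lt.1 hc⟩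
    have h3 := Finset.card_filter_add_card_filter_not (s := Finset.Ioc (bC z i) (aC z (i + 1)))
      (fun a => |f a - f' a| ≤ (z : ℤ) ^ 240)
    have h4 : ((Finset.Ioc (bC z i) (aC z (i + 1))).card : ℤ) = aC z (i + 1) - bC z i :=
      Int.card_Ioc_of_le _ _ (AttDet_ba hz i).le
    have h5 := Finset.card_nsmul_le_sum ((Finset.Ioc (bC z i) (aC z (i + 1))).filter
      (fun a => ¬ |f a - f' a| ≤ (z : ℤ) ^ 240)) (fun a => |f a - f' a|) ((z : ℤ) ^ 240)
      fun a ha => (not_le.1 (Finset.mem_filter.1 ha).2).le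
    have h6 := Finset.sum_le_sum_of_subset_of_nonneg (f := fun a => |f a - f' a|)
      (Finset.filter_subset (fun a => ¬ |f a - f' a| ≤ (z : ℤ) ^ 240)
        (Finset.Ioc (bC z i) (aC z (i + 1)))) fun _ _ _ => abs_nonneg _
    have h7 : aC z (i + 1) - bC z i = (z : ℤ) ^ 760 - (z : ℤ) ^ 40 - 1 := by
      rw [AttDet_succ]
      simp only [bC]
      omega
    rw [nsmul_eq_mul] at h5
    have h2' : 2 * (((Finset.Ioc (bC z i) (aC z (i + 1))).filter
        (fun a => |f a - f' a| ≤ (z : ℤ) ^ 240)).card : ℤ) < (z : ℤ) ^ 760 := by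
      have h11 := Int.ofNat_lt.2 h2
      rwa [Nat.cast_mul, Nat.cast_pow, Nat.cast_ofNat] at h11
    have h8 : (z : ℤ) ^ 759 ≤ (((Finset.Ioc (bC z i) (aC z (i + 1))).filter
        (fun a => ¬ |f a - f' a| ≤ (z : ℤ) ^ 240)).card : ℤ) := by omega
    have h9 := mul_le_mul_of_nonneg_right h8 (le_trans zero_le_one p4)
    have h10 : 0 ≤ (z : ℤ) ^ 760 *
        (|f (bC z i) - f' (bC z i)| + |f (aC z (i + 1)) - f' (aC z (i + 1))|) :=
      mul_nonneg (by omega) (add_nonneg a1 a2)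
    omega
  · have h2 : (z : ℤ) ^ 240 ≤
        |f (bC z i) - f' (bC z i)| + |f (aC z (i + 1)) - f' (aC z (i + 1))| := by omega
    have h3 : (z : ℤ) ^ 759 * (z : ℤ) ^ 240 ≤ (z : ℤ) ^ 760 *
        (|f (bC z i) - f' (bC z i)| + |f (aC z (i + 1)) - f' (aC z (i + 1))|) :=
      mul_le_mul (by omega) h2 (by omega) (by omega)
    omega

open Classical in
/-- many intervals that are not close force a large gap -/
theorem gap_of_not_close {z : ℕ} (hz : 100 ≤ z) (f f' : ℤ → ℤ)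
    (h : z ^ 67 ≤ ((Finset.range (z ^ 260)).filter (fun i => ¬ Close z f f' i)).card) :
    (z : ℤ) ^ 1066 ≤ gap z f f' := by
  have h1 : ∑ i ∈ Finset.range (z ^ 260), ∑ a ∈ Finset.Ioc (bC z i) (aC z (i + 1)), |f a - f' a| ≤
      ∑ a ∈ Finset.Icc (cA z) (cB z), |f a - f' a| := by
    rw [← Finset.sum_biUnion]
    · refine Finset.sum_le_sum_of_subset_of_nonneg (fun a ha => ?_) fun _ _ _ => abs_nonneg _
      obtain ⟨i, hi, ha⟩ := Finset.mem_biUnion.1 ha
      have := AttDet_range hz (Finset.mem_range.1 hi)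
      have := Finset.mem_Ioc.1 ha
      exact Finset.mem_Icc.2 ⟨by omega, by omega⟩
    · intro i _ j _ hij
      refine Finset.disjoint_left.2 fun a hi hj => ?_
      have h1 := Finset.mem_Ioc.1 hi
      have h2 := Finset.mem_Ioc.1 hj
      have h3 := AttDet_ab z i
      have h4 := AttDet_ab z j
      rcases lt_or_gt_of_ne hij with h | h
      · have := AttDet_mono z (show i + 1 ≤ j from h)
        omega
      · have := AttDet_mono z (show j + 1 ≤ i from h)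
        omega
  have h2 := Finset.card_nsmul_le_sum
    ((Finset.range (z ^ 260)).filter (fun i => ¬ Close z f f' i))
    (fun i => ∑ a ∈ Finset.Ioc (bC z i) (aC z (i + 1)), |f a - f' a| +
      (z : ℤ) ^ 760 * (|f (bC z i) - f' (bC z i)| + |f (aC z (i + 1)) - f' (aC z (i + 1))|))
    ((z : ℤ) ^ 999) fun i hi => AttDet_term hz f f' i (Finset.mem_filter.1 hi).2
  have h3 := Finset.sum_le_sum_of_subset_of_nonneg
    (f := fun i => ∑ a ∈ Finset.Ioc (bC z i) (aC z (i + 1)), |f a - f' a| +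
      (z : ℤ) ^ 760 * (|f (bC z i) - f' (bC z i)| + |f (aC z (i + 1)) - f' (aC z (i + 1))|))
    (Finset.filter_subset (fun i => ¬ Close z f f' i) (Finset.range (z ^ 260)))
    fun _ _ _ => add_nonneg (Finset.sum_nonneg fun _ _ => abs_nonneg _) (by positivity)
  rw [Finset.sum_add_distrib (s := Finset.range (z ^ 260)), ← Finset.mul_sum] at h3
  rw [nsmul_eq_mul] at h2
  have h4 : (z : ℤ) ^ 67 ≤
      (((Finset.range (z ^ 260)).filter (fun i => ¬ Close z f f' i)).card : ℤ) := by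
    exact_mod_cast h
  have h5 := mul_le_mul_of_nonneg_right h4 (show (0 : ℤ) ≤ (z : ℤ) ^ 999 by positivity)
  rw [← pow_add] at h5
  exact h5.trans (h2.trans (h3.trans (add_le_add h1 le_rfl)))

/-- if every column contributes at most `H` then the gaps add up to at most `4 z^1020 H` -/
theorem sum_gap_le {z : ℕ} (hz : 100 ≤ z) {ι : Type*} (I : Finset ι) (f f' : ι → ℤ → ℤ) {H : ℤ}
    (h : ∀ a, cA z ≤ a → a ≤ cB z → ∑ i ∈ I, |f i a - f' i a| ≤ H) :
    ∑ i ∈ I, gap z (f i) (f' i) ≤ 4 * (z : ℤ) ^ 1020 * H := by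
  have p1 := AttDet_one hz 1020
  have hAB : cB z = cA z + (z : ℤ) ^ 1020 := by
    simp only [cA, cB]
    omega
  have hH : 0 ≤ H :=
    (Finset.sum_nonneg fun _ _ => abs_nonneg _).trans (h (cA z) le_rfl (by omega))
  have h1 : ∑ i ∈ I, ∑ a ∈ Finset.Icc (cA z) (cB z), |f i a - f' i a| ≤
      ((z : ℤ) ^ 1020 + 1) * H := by
    rw [Finset.sum_comm]
    have h2 := Finset.sum_le_card_nsmul (Finset.Icc (cA z) (cB z))
      (fun a => ∑ i ∈ I, |f i a - f' i a|) H fun a ha =>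
        h a (Finset.mem_Icc.1 ha).1 (Finset.mem_Icc.1 ha).2
    rw [nsmul_eq_mul, Int.card_Icc_of_le _ _ (by omega)] at h2
    rwa [show cB z + 1 - cA z = (z : ℤ) ^ 1020 + 1 by omega] at h2
  have h2 : ∑ i ∈ I, ∑ j ∈ Finset.range (z ^ 260), (|f i (bC z j) - f' i (bC z j)| +
      |f i (aC z (j + 1)) - f' i (aC z (j + 1))|) ≤ (z : ℤ) ^ 260 * (2 * H) := by
    rw [Finset.sum_comm]
    have h3 := Finset.sum_le_card_nsmul (Finset.range (z ^ 260))
      (fun j => ∑ i ∈ I, (|f i (bC z j) - f' i (bC z j)| +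
        |f i (aC z (j + 1)) - f' i (aC z (j + 1))|)) (2 * H) fun j hj => by
      have := AttDet_range hz (Finset.mem_range.1 hj)
      have h4 := h (bC z j) (by omega) (by omega)
      have h5 := h (aC z (j + 1)) (by omega) (by omega)
      rw [Finset.sum_add_distrib]
      omega
    rwa [nsmul_eq_mul, Finset.card_range, Nat.cast_pow] at h3
  have h3 := mul_le_mul_of_nonneg_left h2 (show (0 : ℤ) ≤ (z : ℤ) ^ 760 by positivity)
  rw [← mul_assoc, ← pow_add] at h3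
  simp only [gap]
  rw [Finset.sum_add_distrib, ← Finset.mul_sum]
  refine (add_le_add h1 h3).trans ?_
  change ((z : ℤ) ^ 1020 + 1) * H + (z : ℤ) ^ 1020 * (2 * H) ≤ _
  generalize (z : ℤ) ^ 1020 = M at p1 ⊢
  nlinarith

theorem AttDet_ht {S z : ℕ} (hz : 100 * (S + 1) ≤ z) {q : ℕ → V} {l : ℕ}
    (hq : Chain q l) (dq : Dir S ((z : ℤ) ^ 40) q l) (iq : InS z (q 0)) (eq : cB z ≤ (q l).1)
    {a : ℤ} (h1 : cA z ≤ a) (h2 : a ≤ cB z) : 2 * |ht q a| ≤ (z : ℤ) ^ 1022 := by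
  have hz0 : 100 ≤ z := by omega
  obtain ⟨f1, -, f2, -, -⟩ := hq.fi_spec (a := a) (iq.2.trans_le h1) (h2.trans eq)
  have h3 := dq 0 _ (Nat.zero_le _) f1
  rw [f2] at h3
  obtain ⟨h4, h5⟩ := nm_le_iff.1 iq.1
  have p1 := AttDet_pow hz0 (show 1020 < 1021 by norm_num)
  have p2 := AttDet_pow hz0 (show 40 < 1021 by norm_num)
  have p3 := AttDet_one hz0 40
  have p4 := AttDet_one hz0 1020
  have e : (z : ℤ) ^ 1022 = z * (z : ℤ) ^ 1021 := pow_succ' _ _
  have hz' : 100 * ((S : ℤ) + 1) ≤ z := by exact_mod_cast hz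
  have hS : (0 : ℤ) ≤ S := Nat.cast_nonneg _
  simp only [cB] at h2
  have h6 := abs_le.1 h4
  have h7 : |ht q a| ≤ |ht q a - (q 0).2| + |(q 0).2| := by
    have := abs_add_le (ht q a - (q 0).2) (q 0).2
    rwa [sub_add_cancel] at this
  have h8 : (S : ℤ) * (a - (q 0).1) ≤ S * (2 * (z : ℤ) ^ 1021) :=
    mul_le_mul_of_nonneg_left (by omega) hS
  have h9 := mul_le_mul_of_nonneg_right hz' (show (0 : ℤ) ≤ (z : ℤ) ^ 1021 by positivity)
  have h10 : (0 : ℤ) ≤ S * (z : ℤ) ^ 1021 := by positivity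
  rw [e]
  simp only at h3
  generalize (z : ℤ) ^ 1021 = D at *
  generalize (z : ℤ) ^ 40 = B at *
  nlinarith

theorem AttDet_nm {S z : ℕ} (hz : 100 * (S + 1) ≤ z) {q : ℕ → V} {l : ℕ}
    (hq : Chain q l) (dq : Dir S ((z : ℤ) ^ 40) q l) (iq : InS z (q 0)) (eq : cB z ≤ (q l).1)
    {a : ℤ} (h1 : cA z ≤ a) (h2 : a ≤ cB z) : nm (a, ht q a) ≤ (z : ℤ) ^ 1024 := by
  have hz0 : 100 ≤ z := by omega
  have h3 := AttDet_ht hz hq dq iq eq h1 h2
  have p1 := AttDet_pow hz0 (show 1020 < 1024 by norm_num)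
  have p2 := AttDet_pow hz0 (show 1022 < 1024 by norm_num)
  have p3 := AttDet_one hz0 1020
  have p4 := abs_nonneg (ht q a)
  simp only [cA, cB] at h1 h2
  exact nm_le_iff.2 ⟨abs_le.2 ⟨by simp only; omega, by simp only; omega⟩, by simp only; omega⟩

theorem AttDet_fi_le {p : ℕ → V} {k : ℕ} (h : Chain p k) {a b : ℤ} (h1 : (p 0).1 < a)
    (hab : a ≤ b) (h2 : b ≤ (p k).1) : fi p a ≤ fi p b := by
  rcases hab.eq_or_lt with rfl | h3
  · exact le_rfl
  · exact (h.fi_lt h1 h3 h2).le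

/-- the piece of a directed geodesic `q` over an interval on which it is close is a competitor -/
theorem comp_of_close {S Λ z : ℕ} (hS : 1 ≤ S) (hz : 100 * (S + 1) ≤ z) {ω : Env}
    (hpos : ∀ e, 0 < ω e) (hl : LEN Λ z ω) {q : ℕ → V} {l : ℕ} (hq : Geo ω q l)
    (dq : Dir S ((z : ℤ) ^ 40) q l) (iq : InS z (q 0)) (eq : cB z ≤ (q l).1) {f : ℤ → ℤ} {i : ℕ}
    (hi : i < z ^ 260) (hc : Close z f (ht q) i) :
    Comp (Λ * (S + 1)) z f i (fun t => q (fi q (bC z i) + t))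
      (fi q (aC z (i + 1)) - fi q (bC z i)) := by
  classical
  have hz0 : 100 ≤ z := by omega
  obtain ⟨r1, r2, r3, r4⟩ := AttDet_range hz0 hi
  have i0 := iq.2
  obtain ⟨s1, -, s2, -, -⟩ := hq.1.fi_spec (a := bC z i) (by omega) (by omega)
  obtain ⟨t1, -, t2, -, t3⟩ := hq.1.fi_spec (a := aC z (i + 1)) (by omega) (by omega)
  have hst : fi q (bC z i) < fi q (aC z (i + 1)) := hq.1.fi_lt (by omega) r3 (by omega)
  have hg := hq.shift hst.le t1
  have e0 : fi q (bC z i) + (fi q (aC z (i + 1)) - fi q (bC z i)) = fi q (aC z (i + 1)) := by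
    omega
  have p1 := AttDet_pow hz0 (show 40 < 760 by norm_num)
  have p2 := AttDet_one hz0 40
  have hS' : (1 : ℤ) ≤ S := by exact_mod_cast hS
  have e1 : aC z (i + 1) - bC z i = (z : ℤ) ^ 760 - (z : ℤ) ^ 40 - 1 := by
    rw [AttDet_succ]
    simp only [bC]
    omega
  refine ⟨?_, hg.1, hg.sa hpos, ?_, ?_, ?_, ?_, ?_, ?_⟩
  · rw [mul_assoc]
    refine hl _ _ hg ?_ ?_ _ ?_ ?_
    · simp only [add_zero, s2]
      exact AttDet_nm hz hq.1 dq iq eq (by omega) (by omega)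
    · simp only [e0, t2]
      exact AttDet_nm hz hq.1 dq iq eq (by omega) r4
    · exact (Nat.le_self_pow (by norm_num) z).trans (Nat.le_mul_of_pos_left _ S.succ_pos)
    · have h1 := dq _ _ hst.le t1
      simp only [add_zero, e0]
      rw [s2, t2] at h1 ⊢
      simp only at h1
      have h2 : (S : ℤ) * (aC z (i + 1) - bC z i) ≤ S * (z : ℤ) ^ 760 :=
        mul_le_mul_of_nonneg_left (by omega) (by omega)
      have h3 : (0 : ℤ) ≤ S * (z : ℤ) ^ 760 := by positivity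
      have h4 : (((S + 1) * z ^ 760 : ℕ) : ℤ) = S * (z : ℤ) ^ 760 + (z : ℤ) ^ 760 := by
        rw [Nat.cast_mul, Nat.cast_pow, Nat.cast_add, Nat.cast_one, add_mul, one_mul]
      rw [h4]
      refine nm_le_iff.2 ⟨?_, ?_⟩
      · rw [Prod.fst_sub]
        exact abs_le.2 ⟨by simp only; omega, by simp only; omega⟩
      · rw [Prod.snd_sub]
        simp only
        omega
  · simp only [add_zero, s2]
  · simp only [add_zero, s2]
    rw [abs_sub_comm]
    exact hc.1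
  · simp only [e0, t2]
  · simp only [e0, t2]
    rw [abs_sub_comm]
    exact hc.2.1
  · intro j hj
    have h1 := dq.back hS' (by omega) (Nat.le_add_right (fi q (bC z i)) j) (by omega)
    rw [s2] at h1
    refine ⟨?_, ?_⟩
    · simp only [bC] at h1 ⊢
      omega
    · rcases hj.eq_or_lt with rfl | hj
      · simp only [e0, t2, le_refl]
      · exact (t3 _ (by omega)).le
  · refine hc.2.2.trans (Nat.mul_le_mul_left 2 ?_)
    have key : ∀ a ∈ (Finset.Ioc (bC z i) (aC z (i + 1))).filter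
        (fun a => |f a - ht q a| ≤ (z : ℤ) ^ 240), fi q (bC z i) < fi q a ∧
          fi q a ≤ fi q (aC z (i + 1)) ∧ q (fi q a) = (a, ht q a) ∧
            q (fi q a - 1) = (a - 1, ht q a) := by
      intro a ha
      obtain ⟨a1, a2⟩ := Finset.mem_Ioc.1 (Finset.mem_filter.1 ha).1
      obtain ⟨-, -, u1, u2, -⟩ := hq.1.fi_spec (a := a) (by omega) (by omega)
      exact ⟨hq.1.fi_lt (by omega) a1 (by omega), AttDet_fi_le hq.1 (by omega) a2 (by omega),
        u1, u2⟩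
    refine Finset.card_le_card_of_injOn (fun a => fi q a - 1 - fi q (bC z i)) ?_ ?_
    · intro a ha
      obtain ⟨k1, k2, k3, k4⟩ := key a ha
      obtain ⟨a1, a2⟩ := Finset.mem_filter.1 ha
      refine Finset.mem_filter.2 ⟨Finset.mem_range.2 (by simp only; omega), ?_⟩
      have e2 : fi q (bC z i) + (fi q a - 1 - fi q (bC z i)) = fi q a - 1 := by omega
      have e3 : fi q (bC z i) + (fi q a - 1 - fi q (bC z i) + 1) = fi q a := by omega
      simp only [ed, e2, e3, k3, k4]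
      have a3 := abs_le.1 a2
      exact Finset.mem_biUnion.2 ⟨a, a1, Finset.mem_image.2
        ⟨ht q a, Finset.mem_Icc.2 ⟨by omega, by omega⟩, rfl⟩⟩
    · intro a ha b hb hab
      obtain ⟨k1, -, k3, -⟩ := key a ha
      obtain ⟨m1, -, m3, -⟩ := key b hb
      have e2 : fi q a = fi q b := by
        simp only at hab
        omega
      rw [e2, m3] at k3
      exact (congrArg Prod.fst k3).symm

/-- heights of first visits stay in the box -/
theorem ht_bound {S z : ℕ} (hS : 1 ≤ S) (hz : 100 * (S + 1) ≤ z) {q : ℕ → V} {l : ℕ}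
    (hq : Chain q l) (dq : Dir S ((z : ℤ) ^ 40) q l) (iq : InS z (q 0)) (eq : cB z ≤ (q l).1)
    {a : ℤ} (h1 : cA z ≤ a) (h2 : a ≤ cB z) : 2 * |ht q a| ≤ (z : ℤ) ^ 1022 :=
  AttDet_ht hz hq dq iq eq h1 h2

theorem AttDet_gap_congr {z : ℕ} (hz : 100 ≤ z) {f₁ f₂ : ℤ → ℤ} (f' : ℤ → ℤ)
    (h : ∀ a, cA z ≤ a → a ≤ cB z → f₁ a = f₂ a) : gap z f₁ f' = gap z f₂ f' := by
  have h1 : ∑ a ∈ Finset.Icc (cA z) (cB z), |f₁ a - f' a| =
      ∑ a ∈ Finset.Icc (cA z) (cB z), |f₂ a - f' a| :=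
    Finset.sum_congr rfl fun a ha => by rw [h a (Finset.mem_Icc.1 ha).1 (Finset.mem_Icc.1 ha).2]
  have h2 : ∑ i ∈ Finset.range (z ^ 260),
      (|f₁ (bC z i) - f' (bC z i)| + |f₁ (aC z (i + 1)) - f' (aC z (i + 1))|) =
      ∑ i ∈ Finset.range (z ^ 260),
      (|f₂ (bC z i) - f' (bC z i)| + |f₂ (aC z (i + 1)) - f' (aC z (i + 1))|) :=
    Finset.sum_congr rfl fun i hi => by
      have := AttDet_range hz (Finset.mem_range.1 hi)
      rw [h (bC z i) (by omega) (by omega), h (aC z (i + 1)) (by omega) (by omega)]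
  simp only [gap]
  rw [h1, h2]

theorem AttDet_not_close {S Λ z : ℕ} (hS : 1 ≤ S) (hz : 100 * (S + 1) ≤ z) {ω : Env}
    (hpos : ∀ e, 0 < ω e) (hl : LEN Λ z ω)
    (hw : ∀ x y : V, nm x ≤ (z : ℤ) ^ 1024 → nm y ≤ (z : ℤ) ^ 1024 →
      nm (y - x) ≤ (z : ℤ) ^ 240 → d ω x y ≤ (z : ℝ) ^ 241)
    {p q : ℕ → V} {k l : ℕ} (hp : Chain p k) (hq : Geo ω q l)
    (dp : Dir S ((z : ℤ) ^ 40) p k) (dq : Dir S ((z : ℤ) ^ 40) q l) (ip : InS z (p 0))
    (iq : InS z (q 0)) (ep : cB z ≤ (p k).1) (eq : cB z ≤ (q l).1)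
    (hd : ∀ i ≤ k, ∀ j ≤ fi q (cB z), p i ≠ q j) {i : ℕ} (hi : i < z ^ 260)
    (ha : Attr (Λ * (S + 1)) z (ht p) {e | ∃ j < k, e = ed p j} (lamOf z ω p i) i ω) :
    ¬ Close z (ht p) (ht q) i := by
  intro hc
  have hz0 : 100 ≤ z := by omega
  obtain ⟨r1, r2, r3, r4⟩ := AttDet_range hz0 hi
  have i0 := iq.2
  have j0 := ip.2
  obtain ⟨s1, -, s2, -, -⟩ := hq.1.fi_spec (a := bC z i) (by omega) (by omega)
  obtain ⟨t1, -, t2, -, -⟩ := hq.1.fi_spec (a := aC z (i + 1)) (by omega) (by omega)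
  obtain ⟨u1, -, u2, -, -⟩ := hp.fi_spec (a := bC z i) (by omega) (by omega)
  obtain ⟨v1, -, v2, -, -⟩ := hp.fi_spec (a := aC z (i + 1)) (by omega) (by omega)
  have hst : fi q (bC z i) < fi q (aC z (i + 1)) := hq.1.fi_lt (by omega) r3 (by omega)
  have huv : fi p (bC z i) < fi p (aC z (i + 1)) := hp.fi_lt (by omega) r3 (by omega)
  have htc : fi q (aC z (i + 1)) ≤ fi q (cB z) := AttDet_fi_le hq.1 (by omega) r4 eq
  have h1 := ha _ _ (comp_of_close hS hz hpos hl hq dq iq eq hi hc) (by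
    rintro j hj ⟨j', hj', he⟩
    simp only [ed, Sym2.eq_iff] at he
    rcases he with he | he
    · exact hd j' hj'.le _ (by omega) he.1.symm
    · exact hd (j' + 1) hj' _ (by omega) he.1.symm)
  rw [W_shift, hq.sub hst.le t1, s2, t2] at h1
  have h2 := d_le_W ω hp huv.le v1
  rw [u2, v2] at h2
  have p1 := AttDet_one hz0 240
  have h3 := hw (bC z i, ht q (bC z i)) (bC z i, ht p (bC z i))
    (AttDet_nm hz hq.1 dq iq eq (by omega) (by omega))
    (AttDet_nm hz hp dp ip ep (by omega) (by omega))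
    (nm_le_iff.2 ⟨by simp only [Prod.fst_sub, sub_self, abs_zero]; omega, hc.1⟩)
  have h4 := hw (aC z (i + 1), ht q (aC z (i + 1))) (aC z (i + 1), ht p (aC z (i + 1)))
    (AttDet_nm hz hq.1 dq iq eq (by omega) r4) (AttDet_nm hz hp dp ip ep (by omega) r4)
    (nm_le_iff.2 ⟨by simp only [Prod.fst_sub, sub_self, abs_zero]; omega, hc.2.1⟩)
  rw [d_comm] at h4
  have h5 := d_triangle ω (bC z i, ht q (bC z i)) (bC z i, ht p (bC z i))
    (aC z (i + 1), ht q (aC z (i + 1)))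
  have h6 := d_triangle ω (bC z i, ht p (bC z i)) (aC z (i + 1), ht p (aC z (i + 1)))
    (aC z (i + 1), ht q (aC z (i + 1)))
  simp only [lamOf] at h1
  generalize (z : ℝ) ^ 241 = T at h1 h3 h4
  linarith

theorem att_det {S Λ z : ℕ} (hS : 1 ≤ S) (hz : 100 * (S + 1) ≤ z) {ω : Env}
    (hpos : ∀ e, 0 < ω e) (hl : LEN Λ z ω)
    (hw : ∀ x y : V, nm x ≤ (z : ℤ) ^ 1024 → nm y ≤ (z : ℤ) ^ 1024 →
      nm (y - x) ≤ (z : ℤ) ^ 240 → d ω x y ≤ (z : ℝ) ^ 241)
    (hb : NoBad S (Λ * (S + 1)) z ω) : ATT S z ω := by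
  classical
  intro p k q l gp gq dp dq ip iq ep eq hd
  have hz0 : 100 ≤ z := by omega
  have p1 := AttDet_one hz0 1020
  have hAB : cA z ≤ cB z := by
    simp only [cA, cB]
    omega
  have j0 := ip.2
  obtain ⟨s1, -, s2, -, -⟩ := gp.1.fi_spec (a := cB z) (by omega) ep
  have hc : ∀ t ≤ fi p (cB z), p t = p (min t (fi p (cB z))) := fun t ht => by
    rw [min_eq_left ht]
  have g1 : Geo ω (fun t => p (min t (fi p (cB z)))) (fi p (cB z)) := (gp.mono s1).congr hc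
  have d1 : Dir S ((z : ℤ) ^ 40) (fun t => p (min t (fi p (cB z)))) (fi p (cB z)) := by
    intro i j hij hj
    simp only [min_eq_left hj, min_eq_left (hij.trans hj)]
    exact dp i j hij (hj.trans s1)
  have i1 : InS z (p (min 0 (fi p (cB z)))) := by rwa [Nat.zero_min]
  have e1 : (p (min (fi p (cB z)) (fi p (cB z)))).1 = cB z := by rw [min_self, s2]
  have hf : ∀ a, cA z ≤ a → a ≤ cB z → fi (fun t => p (min t (fi p (cB z)))) a = fi p a ∧
      ht (fun t => p (min t (fi p (cB z)))) a = ht p a := fun a h1 h2 =>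
    fi_congr (gp.1.mono s1) hc (by omega) (by rw [s2]; exact h2)
  have hcls : Cls S z (fun t => p (min t (fi p (cB z)))) (fi p (cB z)) := by
    refine ⟨?_, d1, i1, e1, (hf _ hAB le_rfl).1⟩
    simp only [Nat.zero_min]
    exact norm_mem_paths (gp.1.mono s1)
  have h1 := not_lt.1 (hb _ _ hcls g1)
  rw [← AttDet_gap_congr hz0 (ht q) fun a h1 h2 => (hf a h1 h2).2]
  refine gap_of_not_close hz0 _ _ (h1.trans (Finset.card_le_card fun i hi => ?_))
  obtain ⟨a1, a2⟩ := Finset.mem_filter.1 hi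
  refine Finset.mem_filter.2 ⟨a1, AttDet_not_close hS hz hpos hl hw g1.1 gq d1 dq i1 iq e1.ge eq
    (fun i hi j hj => ?_) (Finset.mem_range.1 a1) a2⟩
  simp only [min_eq_left hi]
  exact hd i hi j hj

end Pool.Agent.FPP
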