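import Pool.Agent.P.MP_ecb9f8_pr.ColB

open MeasureTheory ProbabilityTheory Set Filter

noncomputable section

namespace Pool.Agent.FPP

open Classical in
/-- the two height functions are close over the `i`-th interval -/
def AttDet2_Close (z : ℕ) (f f' : ℤ → ℤ) (i : ℕ) : Prop :=
  |f (a2 z i) - f' (a2 z i)| ≤ (z : ℤ) ^ 200 ∧
  |f (a2 z (i + 1)) - f' (a2 z (i + 1))| ≤ (z : ℤ) ^ 200 ∧
  z ^ 800 ≤ 2 * ((Finset.Ioc (a2 z i) (a2 z (i + 1))).filter
    (fun a => |f a - f' a| ≤ (z : ℤ) ^ 200)).card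

theorem AttDet2_succ (z i : ℕ) : a2 z (i + 1) = a2 z i + (z : ℤ) ^ 800 := by
  simp only [a2]
  generalize (z : ℤ) ^ 800 = M
  push_cast
  ring

theorem AttDet2_mono (z : ℕ) {i j : ℕ} (h : i ≤ j) : a2 z i ≤ a2 z j := by
  have h1 : (0 : ℤ) ≤ (z : ℤ) ^ 800 := by positivity
  have h2 : (i : ℤ) ≤ j := by exact_mod_cast h
  simp only [a2]
  generalize (z : ℤ) ^ 800 = M at h1 ⊢
  nlinarith

theorem AttDet2_zero (z : ℕ) : a2 z 0 = cA2 z := by
  simp only [a2, Nat.cast_zero, zero_mul, add_zero]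

theorem AttDet2_last (z : ℕ) : a2 z (z ^ 220) = cB2 z := by
  have h : (z : ℤ) ^ 220 * (z : ℤ) ^ 800 = (z : ℤ) ^ 1020 := by rw [← pow_add]
  simp only [a2, cA2, cB2, Nat.cast_pow, h]
  generalize (z : ℤ) ^ 1020 = M
  ring

theorem AttDet2_range {z : ℕ} (hz : 100 ≤ z) {i : ℕ} (hi : i < z ^ 220) :
    cA2 z ≤ a2 z i ∧ a2 z i < a2 z (i + 1) ∧ a2 z (i + 1) ≤ cB2 z := by
  refine ⟨AttDet2_zero z ▸ AttDet2_mono z (Nat.zero_le i), ?_, AttDet2_last z ▸ AttDet2_mono z hi⟩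
  have h1 := AttDet_one hz 800
  rw [AttDet2_succ]
  omega

theorem AttDet2_term {z : ℕ} (hz : 100 ≤ z) (f f' : ℤ → ℤ) (i : ℕ)
    (h : ¬ AttDet2_Close z f f' i) :
    (z : ℤ) ^ 999 ≤ ∑ a ∈ Finset.Ioc (a2 z i) (a2 z (i + 1)), |f a - f' a| +
      (z : ℤ) ^ 800 * (|f (a2 z i) - f' (a2 z i)| + |f (a2 z (i + 1)) - f' (a2 z (i + 1))|) := by
  classical
  have s0 : 0 ≤ ∑ a ∈ Finset.Ioc (a2 z i) (a2 z (i + 1)), |f a - f' a| :=
    Finset.sum_nonneg fun _ _ => abs_nonneg _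
  have e1 : (z : ℤ) ^ 999 = (z : ℤ) ^ 799 * (z : ℤ) ^ 200 := by rw [← pow_add]
  have p1 := AttDet_pow hz (show 799 < 800 by norm_num)
  have p3 := AttDet_one hz 799
  have p4 := AttDet_one hz 200
  have a1 := abs_nonneg (f (a2 z i) - f' (a2 z i))
  have a3 := abs_nonneg (f (a2 z (i + 1)) - f' (a2 z (i + 1)))
  have h7 := AttDet2_succ z i
  by_cases h1 : |f (a2 z i) - f' (a2 z i)| ≤ (z : ℤ) ^ 200 ∧
      |f (a2 z (i + 1)) - f' (a2 z (i + 1))| ≤ (z : ℤ) ^ 200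
  · have h2 : 2 * ((Finset.Ioc (a2 z i) (a2 z (i + 1))).filter
        (fun a => |f a - f' a| ≤ (z : ℤ) ^ 200)).card < z ^ 800 := by
      by_contra hc
      exact h ⟨h1.1, h1.2, not_lt.1 hc⟩
    have h3 := Finset.card_filter_add_card_filter_not (s := Finset.Ioc (a2 z i) (a2 z (i + 1)))
      (fun a => |f a - f' a| ≤ (z : ℤ) ^ 200)
    have h4 : ((Finset.Ioc (a2 z i) (a2 z (i + 1))).card : ℤ) = a2 z (i + 1) - a2 z i :=
      Int.card_Ioc_of_le _ _ (AttDet2_mono z i.le_succ)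
    have h5 := Finset.card_nsmul_le_sum ((Finset.Ioc (a2 z i) (a2 z (i + 1))).filter
      (fun a => ¬ |f a - f' a| ≤ (z : ℤ) ^ 200)) (fun a => |f a - f' a|) ((z : ℤ) ^ 200)
      fun a ha => (not_le.1 (Finset.mem_filter.1 ha).2).le
    have h6 := Finset.sum_le_sum_of_subset_of_nonneg (f := fun a => |f a - f' a|)
      (Finset.filter_subset (fun a => ¬ |f a - f' a| ≤ (z : ℤ) ^ 200)
        (Finset.Ioc (a2 z i) (a2 z (i + 1)))) fun _ _ _ => abs_nonneg _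
    rw [nsmul_eq_mul] at h5
    have h2' : 2 * (((Finset.Ioc (a2 z i) (a2 z (i + 1))).filter
        (fun a => |f a - f' a| ≤ (z : ℤ) ^ 200)).card : ℤ) < (z : ℤ) ^ 800 := by
      have h11 := Int.ofNat_lt.2 h2
      rwa [Nat.cast_mul, Nat.cast_pow, Nat.cast_ofNat] at h11
    have h8 : (z : ℤ) ^ 799 ≤ (((Finset.Ioc (a2 z i) (a2 z (i + 1))).filter
        (fun a => ¬ |f a - f' a| ≤ (z : ℤ) ^ 200)).card : ℤ) := by omega
    have h9 := mul_le_mul_of_nonneg_right h8 (le_trans zero_le_one p4)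
    have h10 : 0 ≤ (z : ℤ) ^ 800 *
        (|f (a2 z i) - f' (a2 z i)| + |f (a2 z (i + 1)) - f' (a2 z (i + 1))|) :=
      mul_nonneg (by omega) (add_nonneg a1 a3)
    omega
  · have h2 : (z : ℤ) ^ 200 ≤
        |f (a2 z i) - f' (a2 z i)| + |f (a2 z (i + 1)) - f' (a2 z (i + 1))| := by omega
    have h3 : (z : ℤ) ^ 799 * (z : ℤ) ^ 200 ≤ (z : ℤ) ^ 800 *
        (|f (a2 z i) - f' (a2 z i)| + |f (a2 z (i + 1)) - f' (a2 z (i + 1))|) :=
      mul_le_mul (by omega) h2 (by omega) (by omega)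
    omega

open Classical in
/-- many intervals that are not close force a large gap -/
theorem AttDet2_gap {z : ℕ} (hz : 100 ≤ z) (f f' : ℤ → ℤ)
    (h : z ^ 57 ≤ ((Finset.range (z ^ 220)).filter (fun i => ¬ AttDet2_Close z f f' i)).card) :
    (z : ℤ) ^ 1056 ≤ gap2 z f f' := by
  have h1 : ∑ i ∈ Finset.range (z ^ 220), ∑ a ∈ Finset.Ioc (a2 z i) (a2 z (i + 1)), |f a - f' a| ≤
      ∑ a ∈ Finset.Icc (cA2 z) (cB2 z), |f a - f' a| := by
    rw [← Finset.sum_biUnion]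
    · refine Finset.sum_le_sum_of_subset_of_nonneg (fun a ha => ?_) fun _ _ _ => abs_nonneg _
      obtain ⟨i, hi, ha⟩ := Finset.mem_biUnion.1 ha
      have := AttDet2_range hz (Finset.mem_range.1 hi)
      have := Finset.mem_Ioc.1 ha
      exact Finset.mem_Icc.2 ⟨by omega, by omega⟩
    · intro i _ j _ hij
      refine Finset.disjoint_left.2 fun a hi hj => ?_
      have h1 := Finset.mem_Ioc.1 hi
      have h2 := Finset.mem_Ioc.1 hj
      rcases lt_or_gt_of_ne hij with h | h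
      · have := AttDet2_mono z (show i + 1 ≤ j from h)
        omega
      · have := AttDet2_mono z (show j + 1 ≤ i from h)
        omega
  have h2 := Finset.card_nsmul_le_sum
    ((Finset.range (z ^ 220)).filter (fun i => ¬ AttDet2_Close z f f' i))
    (fun i => ∑ a ∈ Finset.Ioc (a2 z i) (a2 z (i + 1)), |f a - f' a| +
      (z : ℤ) ^ 800 * (|f (a2 z i) - f' (a2 z i)| + |f (a2 z (i + 1)) - f' (a2 z (i + 1))|))
    ((z : ℤ) ^ 999) fun i hi => AttDet2_term hz f f' i (Finset.mem_filter.1 hi).2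
  have h3 := Finset.sum_le_sum_of_subset_of_nonneg
    (f := fun i => ∑ a ∈ Finset.Ioc (a2 z i) (a2 z (i + 1)), |f a - f' a| +
      (z : ℤ) ^ 800 * (|f (a2 z i) - f' (a2 z i)| + |f (a2 z (i + 1)) - f' (a2 z (i + 1))|))
    (Finset.filter_subset (fun i => ¬ AttDet2_Close z f f' i) (Finset.range (z ^ 220)))
    fun _ _ _ => add_nonneg (Finset.sum_nonneg fun _ _ => abs_nonneg _) (by positivity)
  rw [Finset.sum_add_distrib (s := Finset.range (z ^ 220)), ← Finset.mul_sum] at h3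
  rw [nsmul_eq_mul] at h2
  have h4 : (z : ℤ) ^ 57 ≤
      (((Finset.range (z ^ 220)).filter (fun i => ¬ AttDet2_Close z f f' i)).card : ℤ) := by
    exact_mod_cast h
  have h5 := mul_le_mul_of_nonneg_right h4 (show (0 : ℤ) ≤ (z : ℤ) ^ 999 by positivity)
  rw [← pow_add] at h5
  exact h5.trans (h2.trans (h3.trans (add_le_add h1 le_rfl)))

theorem sum_gap2_le {z : ℕ} (hz : 100 ≤ z) {ι : Type*} (I : Finset ι) (f f' : ι → ℤ → ℤ) {H : ℤ}
    (h : ∀ a, cA2 z ≤ a → a ≤ cB2 z → ∑ i ∈ I, |f i a - f' i a| ≤ H) :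
    ∑ i ∈ I, gap2 z (f i) (f' i) ≤ 4 * (z : ℤ) ^ 1020 * H := by
  have p1 := AttDet_one hz 1020
  have hAB : cB2 z = cA2 z + (z : ℤ) ^ 1020 := by
    simp only [cA2, cB2]
    omega
  have hH : 0 ≤ H :=
    (Finset.sum_nonneg fun _ _ => abs_nonneg _).trans (h (cA2 z) le_rfl (by omega))
  have h1 : ∑ i ∈ I, ∑ a ∈ Finset.Icc (cA2 z) (cB2 z), |f i a - f' i a| ≤
      ((z : ℤ) ^ 1020 + 1) * H := by
    rw [Finset.sum_comm]
    have h2 := Finset.sum_le_card_nsmul (Finset.Icc (cA2 z) (cB2 z))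
      (fun a => ∑ i ∈ I, |f i a - f' i a|) H fun a ha =>
        h a (Finset.mem_Icc.1 ha).1 (Finset.mem_Icc.1 ha).2
    rw [nsmul_eq_mul, Int.card_Icc_of_le _ _ (by omega)] at h2
    rwa [show cB2 z + 1 - cA2 z = (z : ℤ) ^ 1020 + 1 by omega] at h2
  have h2 : ∑ i ∈ I, ∑ j ∈ Finset.range (z ^ 220), (|f i (a2 z j) - f' i (a2 z j)| +
      |f i (a2 z (j + 1)) - f' i (a2 z (j + 1))|) ≤ (z : ℤ) ^ 220 * (2 * H) := by
    rw [Finset.sum_comm]
    have h3 := Finset.sum_le_card_nsmul (Finset.range (z ^ 220))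
      (fun j => ∑ i ∈ I, (|f i (a2 z j) - f' i (a2 z j)| +
        |f i (a2 z (j + 1)) - f' i (a2 z (j + 1))|)) (2 * H) fun j hj => by
      have := AttDet2_range hz (Finset.mem_range.1 hj)
      have h4 := h (a2 z j) (by omega) (by omega)
      have h5 := h (a2 z (j + 1)) (by omega) (by omega)
      rw [Finset.sum_add_distrib]
      omega
    rwa [nsmul_eq_mul, Finset.card_range, Nat.cast_pow] at h3
  have h3 := mul_le_mul_of_nonneg_left h2 (show (0 : ℤ) ≤ (z : ℤ) ^ 800 by positivity)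
  rw [← mul_assoc, ← pow_add] at h3
  simp only [gap2]
  rw [Finset.sum_add_distrib, ← Finset.mul_sum]
  refine (add_le_add h1 h3).trans ?_
  change ((z : ℤ) ^ 1020 + 1) * H + (z : ℤ) ^ 1020 * (2 * H) ≤ _
  generalize (z : ℤ) ^ 1020 = M at p1 ⊢
  nlinarith

theorem htb_bound {b : ℤ} (hb : b = 0 ∨ b = 1) {z : ℕ} (hz : 100 ≤ z) {q : ℕ → V} {l : ℕ}
    (hq : Chain q l) (dq : Dirb b ((z : ℤ) ^ 772) q l) (iq : InS2 b z (q 0))
    (eq : cB2 z ≤ colb b (q l)) {a : ℤ} (h1 : cA2 z ≤ a) (h2 : a ≤ cB2 z) :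
    |htb b q a| ≤ 11 * (z : ℤ) ^ 1020 := by
  obtain ⟨f1, -, f2, -, -⟩ := hq.fib_spec hb (a := a) (iq.2.trans_le h1) (h2.trans eq)
  have h3 := dq 0 _ (Nat.zero_le _) f1
  rw [f2, colb_pt] at h3
  obtain ⟨h4, h5⟩ := nm_le_iff.1 iq.1
  have p2 := AttDet_pow hz (show 772 < 1020 by norm_num)
  have p3 := AttDet_one hz 772
  simp only [cB2] at h2
  have h6 := abs_le.1 h4
  have h7 := abs_le.1 h5
  have h8 : -(4 * (z : ℤ) ^ 1020) ≤ colb b (q 0) := by
    rcases hb with rfl | rfl <;> simp only [colb] <;> omega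
  have h9 : (pt b a (htb b q a)).2 = htb b q a := rfl
  rw [h9] at h3
  have h10 := abs_le.1 h3
  exact abs_le.2 ⟨by omega, by omega⟩

theorem AttDet2_nm_pt {b : ℤ} (hb : b = 0 ∨ b = 1) {a a' y y' r s : ℤ} (h1 : |a' - a| ≤ r)
    (h2 : |y' - y| ≤ s) : nm (pt b a' y' - pt b a y) ≤ r + s := by
  have h3 := abs_le.1 h1
  have h4 := abs_le.1 h2
  refine nm_le_iff.2 ⟨abs_le.2 ?_, abs_le.2 ?_⟩ <;> rcases hb with rfl | rfl <;>
    simp only [pt, Prod.fst_sub, Prod.snd_sub] <;> omega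

theorem AttDet2_nm {b : ℤ} (hb : b = 0 ∨ b = 1) {z : ℕ} (hz : 100 ≤ z) {q : ℕ → V} {l : ℕ}
    (hq : Chain q l) (dq : Dirb b ((z : ℤ) ^ 772) q l) (iq : InS2 b z (q 0))
    (eq : cB2 z ≤ colb b (q l)) {a : ℤ} (h1 : cA2 z ≤ a) (h2 : a ≤ cB2 z) :
    nm (pt b a (htb b q a)) ≤ (z : ℤ) ^ 1310 := by
  have h3 := abs_le.1 (htb_bound hb hz hq dq iq eq h1 h2)
  have p1 := AttDet_pow hz (show 1020 < 1310 by norm_num)
  have p3 := AttDet_one hz 1020
  simp only [cA2, cB2] at h1 h2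
  refine nm_le_iff.2 ⟨abs_le.2 ?_, abs_le.2 ?_⟩ <;> rcases hb with rfl | rfl <;>
    simp only [pt] <;> omega

theorem AttDet2_fib_le {b : ℤ} (hb : b = 0 ∨ b = 1) {p : ℕ → V} {k : ℕ} (h : Chain p k)
    {a a' : ℤ} (h1 : colb b (p 0) < a) (hab : a ≤ a') (h2 : a' ≤ colb b (p k)) :
    fib b p a ≤ fib b p a' := by
  rcases hab.eq_or_lt with rfl | h3
  · exact le_rfl
  · exact (h.fib_lt hb h1 h3 h2).le

/-- the piece of a directed geodesic `q` over an interval on which it is close is a competitor -/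
theorem AttDet2_comp {b : ℤ} (hb : b = 0 ∨ b = 1) {N : Seminorm ℝ (ℝ × ℝ)} {G : Measure ℝ}
    {Λ z : ℕ} (hz : 100 ≤ z) {ω : Env} (hm : MG N G Λ z ((z : ℤ) ^ 1310) ω) {q : ℕ → V} {l : ℕ}
    (hq : Geo ω q l) (dq : Dirb b ((z : ℤ) ^ 772) q l) (iq : InS2 b z (q 0))
    (eq : cB2 z ≤ colb b (q l)) {f : ℤ → ℤ} {i : ℕ} (hi : i < z ^ 220)
    (hc : AttDet2_Close z f (htb b q) i) :
    Comp2 b (3 * Λ) z f i (fun t => q (fib b q (a2 z i) + t))
      (fib b q (a2 z (i + 1)) - fib b q (a2 z i)) := by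
  classical
  obtain ⟨r1, r3, r4⟩ := AttDet2_range hz hi
  have i0 := iq.2
  obtain ⟨s1, -, s2, -, -⟩ := hq.1.fib_spec hb (a := a2 z i) (by omega) (by omega)
  obtain ⟨t1, -, t2, -, t3⟩ := hq.1.fib_spec hb (a := a2 z (i + 1)) (by omega) (by omega)
  have hst : fib b q (a2 z i) < fib b q (a2 z (i + 1)) := hq.1.fib_lt hb (by omega) r3 (by omega)
  have hg := hq.shift hst.le t1
  have e0 : fib b q (a2 z i) + (fib b q (a2 z (i + 1)) - fib b q (a2 z i)) =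
      fib b q (a2 z (i + 1)) := by omega
  have p1 := AttDet_pow hz (show 772 < 800 by norm_num)
  have p2 := AttDet_one hz 772
  have e1 := AttDet2_succ z i
  have e2 : ∀ a y, (pt b a y).2 = y := fun _ _ => rfl
  refine ⟨?_, hg.1, hg.sa hm.nice.1, ?_, ?_, ?_, ?_, ?_, ?_⟩
  · rw [mul_comm 3 Λ, mul_assoc]
    refine hm.len _ _ hg ?_ ?_ _ ?_ ?_
    · simp only [add_zero, s2]
      exact AttDet2_nm hb hz hq.1 dq iq eq (by omega) (by omega)
    · simp only [e0, t2]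
      exact AttDet2_nm hb hz hq.1 dq iq eq (by omega) r4
    · exact (Nat.le_self_pow (by norm_num) z).trans (Nat.le_mul_of_pos_left _ (by norm_num))
    · have h1 := dq _ _ hst.le t1
      simp only [add_zero, e0]
      rw [s2, t2] at h1 ⊢
      rw [colb_pt, colb_pt, e2, e2] at h1
      have h4 : ((3 * z ^ 800 : ℕ) : ℤ) = 3 * (z : ℤ) ^ 800 := by
        rw [Nat.cast_mul, Nat.cast_pow, Nat.cast_ofNat]
      rw [h4]
      refine (AttDet2_nm_pt hb (r := (z : ℤ) ^ 800) (abs_le.2 ⟨by omega, by omega⟩) h1).trans ?_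
      omega
  · simp only [add_zero, s2, colb_pt]
  · simp only [add_zero, s2, e2]
    rw [abs_sub_comm]
    exact hc.1
  · simp only [e0, t2, colb_pt]
  · simp only [e0, t2, e2]
    rw [abs_sub_comm]
    exact hc.2.1
  · intro j hj
    have h1 := (abs_nonneg _).trans (dq _ _ (Nat.le_add_right (fib b q (a2 z i)) j) (by omega))
    rw [s2, colb_pt] at h1
    refine ⟨?_, ?_⟩
    · simp only
      omega
    · rcases hj.eq_or_lt with rfl | hj
      · simp only [e0, t2, colb_pt, le_refl]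
      · exact (t3 _ (by omega)).le
  · refine hc.2.2.trans (Nat.mul_le_mul_left 2 ?_)
    have key : ∀ a ∈ (Finset.Ioc (a2 z i) (a2 z (i + 1))).filter
        (fun a => |f a - htb b q a| ≤ (z : ℤ) ^ 200), fib b q (a2 z i) < fib b q a ∧
          fib b q a ≤ fib b q (a2 z (i + 1)) ∧ q (fib b q a) = pt b a (htb b q a) ∧
            (q (fib b q a - 1) = pt b a (htb b q a) - (1, 0) ∨
              q (fib b q a - 1) = pt b a (htb b q a) - (0, 1)) := by
      intro a ha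
      obtain ⟨a1, a3⟩ := Finset.mem_Ioc.1 (Finset.mem_filter.1 ha).1
      obtain ⟨-, -, u1, u2, -⟩ := hq.1.fib_spec hb (a := a) (by omega) (by omega)
      exact ⟨hq.1.fib_lt hb (by omega) a1 (by omega),
        AttDet2_fib_le hb hq.1 (by omega) a3 (by omega), u1, u2⟩
    refine Finset.card_le_card_of_injOn (fun a => fib b q a - 1 - fib b q (a2 z i)) ?_ ?_
    · intro a ha
      obtain ⟨k1, k2, k4, k5⟩ := key a ha
      obtain ⟨a1, a4⟩ := Finset.mem_filter.1 ha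
      refine Finset.mem_filter.2 ⟨Finset.mem_range.2 (by simp only; omega), ?_⟩
      have e3 : fib b q (a2 z i) + (fib b q a - 1 - fib b q (a2 z i)) = fib b q a - 1 := by omega
      have e4 : fib b q (a2 z i) + (fib b q a - 1 - fib b q (a2 z i) + 1) = fib b q a := by omega
      simp only [ed, e3, e4, k4]
      have a3 := abs_le.1 a4
      refine Finset.mem_biUnion.2 ⟨a, a1, Finset.mem_biUnion.2
        ⟨htb b q a, Finset.mem_Icc.2 ⟨by omega, by omega⟩, ?_⟩⟩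
      rcases k5 with k5 | k5 <;> rw [k5]
      · exact Finset.mem_insert_self _ _
      · exact Finset.mem_insert_of_mem (Finset.mem_singleton_self _)
    · intro a ha a' ha' hab
      obtain ⟨k1, -, k4, -⟩ := key a ha
      obtain ⟨m1, -, m3, -⟩ := key a' ha'
      have e3 : fib b q a = fib b q a' := by
        simp only at hab
        omega
      rw [e3, m3] at k4
      have e4 := congrArg (colb b) k4
      rw [colb_pt, colb_pt] at e4
      exact e4.symm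

theorem AttDet2_gap_congr {z : ℕ} (hz : 100 ≤ z) {f₁ f₂ : ℤ → ℤ} (f' : ℤ → ℤ)
    (h : ∀ a, cA2 z ≤ a → a ≤ cB2 z → f₁ a = f₂ a) : gap2 z f₁ f' = gap2 z f₂ f' := by
  have h1 : ∑ a ∈ Finset.Icc (cA2 z) (cB2 z), |f₁ a - f' a| =
      ∑ a ∈ Finset.Icc (cA2 z) (cB2 z), |f₂ a - f' a| :=
    Finset.sum_congr rfl fun a ha => by rw [h a (Finset.mem_Icc.1 ha).1 (Finset.mem_Icc.1 ha).2]
  have h2 : ∑ i ∈ Finset.range (z ^ 220),
      (|f₁ (a2 z i) - f' (a2 z i)| + |f₁ (a2 z (i + 1)) - f' (a2 z (i + 1))|) =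
      ∑ i ∈ Finset.range (z ^ 220),
      (|f₂ (a2 z i) - f' (a2 z i)| + |f₂ (a2 z (i + 1)) - f' (a2 z (i + 1))|) :=
    Finset.sum_congr rfl fun i hi => by
      have := AttDet2_range hz (Finset.mem_range.1 hi)
      rw [h (a2 z i) (by omega) (by omega), h (a2 z (i + 1)) (by omega) (by omega)]
  simp only [gap2]
  rw [h1, h2]

theorem AttDet2_upb {b : ℤ} (hb : b = 0 ∨ b = 1) {N : Seminorm ℝ (ℝ × ℝ)} {G : Measure ℝ}
    {Λ z : ℕ} (hz : 100 ≤ z) {ω : Env} (hm : MG N G Λ z ((z : ℤ) ^ 1310) ω) {a y y' : ℤ}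
    (h1 : nm (pt b a y) ≤ (z : ℤ) ^ 1310) (h2 : nm (pt b a y') ≤ (z : ℤ) ^ 1310)
    (h3 : |y' - y| ≤ (z : ℤ) ^ 200) : d ω (pt b a y) (pt b a y') ≤ (z : ℝ) ^ 201 := by
  have h4 := AttDet2_nm_pt hb (a := a) (a' := a) (r := 0) (by simp) h3
  rw [zero_add] at h4
  have h5 := hm.upb _ _ h1 h2 (z ^ 200) (Nat.pow_le_pow_right (by omega) (by norm_num))
    (by rwa [Nat.cast_pow])
  rwa [Nat.cast_pow, ← pow_succ'] at h5

theorem AttDet2_not_close {b : ℤ} (hb : b = 0 ∨ b = 1) {N : Seminorm ℝ (ℝ × ℝ)} {G : Measure ℝ}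
    {Λ z : ℕ} (hz : 100 ≤ z) {ω : Env} (hm : MG N G Λ z ((z : ℤ) ^ 1310) ω)
    {p q : ℕ → V} {k l : ℕ} (hp : Chain p k) (hq : Geo ω q l)
    (dp : Dirb b ((z : ℤ) ^ 772) p k) (dq : Dirb b ((z : ℤ) ^ 772) q l) (ip : InS2 b z (p 0))
    (iq : InS2 b z (q 0)) (ep : cB2 z ≤ colb b (p k)) (eq : cB2 z ≤ colb b (q l))
    (hd : ∀ i ≤ k, ∀ j ≤ fib b q (cB2 z), p i ≠ q j) {i : ℕ} (hi : i < z ^ 220)
    (ha : AttrG (Comp2 b (3 * Λ) z (htb b p) i) (edges p k)
      (lam2 b z ω p i + 2 * (z : ℝ) ^ 201) ω) :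
    ¬ AttDet2_Close z (htb b p) (htb b q) i := by
  intro hc
  obtain ⟨r1, r3, r4⟩ := AttDet2_range hz hi
  have i0 := iq.2
  have j0 := ip.2
  obtain ⟨s1, -, s2, -, -⟩ := hq.1.fib_spec hb (a := a2 z i) (by omega) (by omega)
  obtain ⟨t1, -, t2, -, -⟩ := hq.1.fib_spec hb (a := a2 z (i + 1)) (by omega) (by omega)
  obtain ⟨u1, -, u2, -, -⟩ := hp.fib_spec hb (a := a2 z i) (by omega) (by omega)
  obtain ⟨v1, -, v2, -, -⟩ := hp.fib_spec hb (a := a2 z (i + 1)) (by omega) (by omega)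
  have hst : fib b q (a2 z i) < fib b q (a2 z (i + 1)) := hq.1.fib_lt hb (by omega) r3 (by omega)
  have huv : fib b p (a2 z i) < fib b p (a2 z (i + 1)) := hp.fib_lt hb (by omega) r3 (by omega)
  have htc : fib b q (a2 z (i + 1)) ≤ fib b q (cB2 z) := AttDet2_fib_le hb hq.1 (by omega) r4 eq
  have h1 := ha _ _ (AttDet2_comp hb hz hm hq dq iq eq hi hc) (by
    rintro j hj ⟨j', hj', he⟩
    simp only [ed, Sym2.eq_iff] at he
    rcases he with he | he
    · exact hd j' hj'.le _ (by omega) he.1.symm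
    · exact hd (j' + 1) hj' _ (by omega) he.1.symm)
  rw [W_shift, hq.sub hst.le t1, s2, t2] at h1
  have h2 := d_le_W ω hp huv.le v1
  rw [u2, v2] at h2
  have h3 := AttDet2_upb hb hz hm (AttDet2_nm hb hz hq.1 dq iq eq r1 (by omega))
    (AttDet2_nm hb hz hp dp ip ep r1 (by omega)) hc.1
  have h4 := AttDet2_upb hb hz hm (AttDet2_nm hb hz hq.1 dq iq eq (by omega) r4)
    (AttDet2_nm hb hz hp dp ip ep (by omega) r4) hc.2.1
  rw [d_comm] at h4
  have h5 := d_triangle ω (pt b (a2 z i) (htb b q (a2 z i))) (pt b (a2 z i) (htb b p (a2 z i)))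
    (pt b (a2 z (i + 1)) (htb b q (a2 z (i + 1))))
  have h6 := d_triangle ω (pt b (a2 z i) (htb b p (a2 z i)))
    (pt b (a2 z (i + 1)) (htb b p (a2 z (i + 1)))) (pt b (a2 z (i + 1)) (htb b q (a2 z (i + 1))))
  simp only [lam2] at h1
  generalize (z : ℝ) ^ 201 = T at h1 h3 h4
  linarith

theorem att2_det {b : ℤ} (hb : b = 0 ∨ b = 1) {N : Seminorm ℝ (ℝ × ℝ)} {G : Measure ℝ} {Λ z : ℕ}
    (hz : 100 ≤ z) {ω : Env} (hg : MG N G Λ z ((z : ℤ) ^ 1310) ω)
    (hbad : NoBad2 b (3 * Λ) z ω) : ATT2 b z ω := by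
  classical
  intro p k q l gp gq dp dq ip iq ep eq hd
  have p1 := AttDet_one hz 1020
  have hAB : cA2 z ≤ cB2 z := by
    simp only [cA2, cB2]
    omega
  have j0 := ip.2
  obtain ⟨s1, -, s2, -, -⟩ := gp.1.fib_spec hb (a := cB2 z) (by omega) ep
  have hc : ∀ t ≤ fib b p (cB2 z), p t = p (min t (fib b p (cB2 z))) := fun t ht => by
    rw [min_eq_left ht]
  have g1 : Geo ω (fun t => p (min t (fib b p (cB2 z)))) (fib b p (cB2 z)) := (gp.mono s1).congr hc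
  have d1 : Dirb b ((z : ℤ) ^ 772) (fun t => p (min t (fib b p (cB2 z)))) (fib b p (cB2 z)) := by
    intro i j hij hj
    simp only [min_eq_left hj, min_eq_left (hij.trans hj)]
    exact dp i j hij (hj.trans s1)
  have i1 : InS2 b z (p (min 0 (fib b p (cB2 z)))) := by rwa [Nat.zero_min]
  have e1 : colb b (p (min (fib b p (cB2 z)) (fib b p (cB2 z)))) = cB2 z := by
    rw [min_self, s2, colb_pt]
  have hf : ∀ a, cA2 z ≤ a → a ≤ cB2 z →
      fib b (fun t => p (min t (fib b p (cB2 z)))) a = fib b p a ∧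
      htb b (fun t => p (min t (fib b p (cB2 z)))) a = htb b p a := fun a h1 h2 =>
    fib_congr hb (gp.1.mono s1) hc (by omega) (by rw [s2, colb_pt]; exact h2)
  have hcls : Cls2 b z (fun t => p (min t (fib b p (cB2 z)))) (fib b p (cB2 z)) := by
    refine ⟨?_, d1, i1, e1, (hf _ hAB le_rfl).1⟩
    simp only [Nat.zero_min]
    exact norm_mem_paths (gp.1.mono s1)
  have h1 := not_lt.1 (hbad _ _ hcls g1)
  rw [← AttDet2_gap_congr hz (htb b q) fun a h1 h2 => (hf a h1 h2).2]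
  refine AttDet2_gap hz _ _ (h1.trans (Finset.card_le_card fun i hi => ?_))
  obtain ⟨a1, a3⟩ := Finset.mem_filter.1 hi
  refine Finset.mem_filter.2 ⟨a1, AttDet2_not_close hb hz hg g1.1 gq d1 dq i1 iq e1.ge eq
    (fun i hi j hj => ?_) (Finset.mem_range.1 a1) a3⟩
  simp only [min_eq_left hi]
  exact hd i hi j hj

end Pool.Agent.FPP
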