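import Pool.Agent.P.MP_ecb9f8_pr.PathCount

open MeasureTheory ProbabilityTheory Set Filter

noncomputable section

namespace Pool.Agent.FPP

variable (G : Measure ℝ) [IsProbabilityMeasure G]

omit [IsProbabilityMeasure G] in
theorem NiceAE_ne (hG : Law G) (c : ℝ) : ∀ᵐ x ∂G, x ≠ c :=
  hG.2.2.ae_le (Measure.ae_ne volume c)

omit [IsProbabilityMeasure G] in
theorem NiceAE_pos (hG : Law G) : ∀ᵐ x ∂G, 0 < x := by
  have h1 : ∀ᵐ x ∂G, x ∉ Iio (0 : ℝ) := measure_eq_zero_iff_ae_notMem.1 hG.1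
  filter_upwards [h1, NiceAE_ne G hG 0] with x h1 h2
  exact lt_of_le_of_ne (not_lt.1 h1) h2.symm

theorem ae_pos (hG : Law G) : ∀ᵐ ω ∂(PP G), ∀ e, 0 < ω e :=
  ae_all_iff.2 fun e => (mp_eval G e).quasiMeasurePreserving.ae (NiceAE_pos G hG)

/-- two self-avoiding walks, one of which has an edge the other has not, have different weights -/
theorem ae_W_ne (hG : Law G) {p q : ℕ → V} {k l i : ℕ} (sp : SA p k) (hi : i < k)
    (h : ∀ j < l, ed p i ≠ ed q j) : ∀ᵐ ω ∂(PP G), W ω p 0 k ≠ W ω q 0 l := by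
  classical
  have mA : MeasurableSet {ω : Env | W ω p 0 k ≠ W ω q 0 l} :=
    (measurableSet_eq_fun (measurable_W p 0 k) (measurable_W q 0 l)).compl
  have mp := mp_upd G (ed p i)
  rw [← mp.map_eq, ae_map_iff mp.measurable.aemeasurable mA]
  refine (Measure.ae_prod_iff_ae_ae (mp.measurable mA)).2 (.of_forall fun ω => ?_)
  filter_upwards [NiceAE_pos G hG, NiceAE_ne G hG
    (W ω q 0 l - ∑ t ∈ (Finset.range k).erase i, wt ω (ed p t))] with x h1 h2
  have e1 : W (Function.update ω (ed p i) x) q 0 l = W ω q 0 l := by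
    rw [W_range, W_range]
    refine Finset.sum_congr rfl fun j hj => ?_
    unfold wt
    rw [Function.update_of_ne (h j (Finset.mem_range.1 hj)).symm]
  have e2 : W (Function.update ω (ed p i) x) p 0 k =
      x + ∑ t ∈ (Finset.range k).erase i, wt ω (ed p t) := by
    rw [W_range, ← Finset.add_sum_erase _ _ (Finset.mem_range.2 hi)]
    congr 1
    · unfold wt
      rw [Function.update_self, max_eq_left h1.le]
    · refine Finset.sum_congr rfl fun j hj => ?_
      obtain ⟨j1, j2⟩ := Finset.mem_erase.1 hj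
      unfold wt
      rw [Function.update_of_ne fun e => j1 (sp.ed_inj (Finset.mem_range.1 j2) hi e)]
  intro e
  exact h2 (eq_sub_of_add_eq (e2.symm.trans (e.trans e1)))

theorem NiceAE_exists (hG : Law G) (x y : V) :
    ∀ᵐ ω ∂(PP G), ∃ (p : ℕ → V) (k : ℕ), Geo ω p k ∧ p 0 = x ∧ p k = y := by
  obtain ⟨Λ, β, hΛ, -, h⟩ := len_pt G hG
  rw [ae_iff, ← nonpos_iff_eq_zero]
  have t1 : Tendsto (fun K : ℕ => ENNReal.ofReal (2 * ((2 : ℝ) ^ K)⁻¹)) atTop (nhds 0) := by
    have := ((tendsto_pow_atTop_atTop_of_one_lt (one_lt_two (α := ℝ))).inv_tendsto_atTop).const_mul 2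
    simpa using ENNReal.tendsto_ofReal this
  refine ge_of_tendsto t1 ?_
  filter_upwards [eventually_ge_atTop (nm (y - x)).toNat] with K hK
  have hK' : nm (y - x) ≤ (K : ℤ) := Int.toNat_le.1 hK
  refine le_trans (measure_mono fun ω hω hL => hω (LenOK.exists_geo hL ?_)) (h K x y hK')
  obtain ⟨h1, h2⟩ := nm_le_iff.1 hK'
  have h3 : (2 : ℤ) ≤ Λ := by exact_mod_cast hΛ
  have h4 : (0 : ℤ) ≤ K := by positivity
  simp only [Prod.fst_sub, Prod.snd_sub] at h1 h2
  push_cast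
  nlinarith

theorem NiceAE_pairs (hG : Law G) : ∀ᵐ ω ∂(PP G), ∀ (v : V) (k l : ℕ), ∀ p ∈ paths v k,
    ∀ q ∈ paths v l, SA p k → W ω p 0 k = W ω q 0 l → ∀ i < k, ∃ j < l, ed p i = ed q j := by
  refine ae_all_iff.2 fun v => ae_all_iff.2 fun k => ae_all_iff.2 fun l => ?_
  refine (eventually_all_finset _).2 fun p _ => (eventually_all_finset _).2 fun q _ => ?_
  by_cases sp : SA p k
  · by_cases h : ∀ i < k, ∃ j < l, ed p i = ed q j
    · exact .of_forall fun _ _ _ => h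
    · push Not at h
      obtain ⟨i, hi, h⟩ := h
      filter_upwards [ae_W_ne G hG sp hi h] with ω hω _ e
      exact absurd e hω
  · exact .of_forall fun _ h => absurd h sp

theorem ae_nice (hG : Law G) : ∀ᵐ ω ∂(PP G), Nice ω := by
  filter_upwards [ae_pos G hG, ae_all_iff.2 fun x => ae_all_iff.2 fun y => NiceAE_exists G hG x y,
    NiceAE_pairs G hG] with ω h1 h2 h3
  refine ⟨h1, h2, fun p k q l hp hq h0 he => ?_⟩
  have c1 : ∀ t ≤ k, p t = p (min t k) := fun t ht => by rw [min_eq_left ht]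
  have c2 : ∀ t ≤ l, q t = q (min t l) := fun t ht => by rw [min_eq_left ht]
  have h4 := h3 (p 0) k l _ (norm_mem_paths hp.1) _ (h0 ▸ norm_mem_paths hq.1)
    ((hp.congr c1).sa h1) (by rw [← W_congr ω c1, ← W_congr ω c2, hp.2, hq.2, h0, he])
  refine (hp.sa h1).eq_of_edges (hq.sa h1) h0 he fun i hi => ?_
  obtain ⟨j, hj, e⟩ := h4 i hi
  refine ⟨j, hj, ?_⟩
  unfold ed at e ⊢
  rw [c1 i hi.le, c1 (i + 1) hi, c2 j hj.le, c2 (j + 1) hj]
  exact e

end Pool.Agent.FPP
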