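import Pool.Agent.P.MP_ecb9f8_pr.Conc2
import Pool.Agent.P.MP_ecb9f8_pr.NiceAE

open MeasureTheory ProbabilityTheory Set Filter

noncomputable section

namespace Pool.Agent.FPP

variable {G : Measure ℝ} [IsProbabilityMeasure G]

theorem SP.mono {A B : ℕ → Set Env} (h : SP G B) (hAB : ∀ᶠ z : ℕ in atTop, A z ⊆ B z) :
    SP G A := by
  intro k
  filter_upwards [h k, hAB] with z h1 h2 using (measure_mono h2).trans h1

theorem SP.union {A B : ℕ → Set Env} (hA : SP G A) (hB : SP G B) :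
    SP G (fun z => A z ∪ B z) := by
  intro k
  filter_upwards [hA (k + 1), hB (k + 1), eventually_ge_atTop 2] with z h1 h2 hz
  have hz' : (2 : ℝ) ≤ z := by exact_mod_cast hz
  have h0 : (0 : ℝ) < z := by linarith
  refine (measure_union_le _ _).trans ((add_le_add h1 h2).trans ?_)
  rw [← ENNReal.ofReal_add (by positivity) (by positivity)]
  refine ENNReal.ofReal_le_ofReal ?_
  rw [← two_mul, pow_succ, mul_inv, mul_comm, mul_assoc]
  refine mul_le_of_le_one_right (by positivity) ?_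
  rw [inv_mul_le_iff₀ h0]
  linarith

theorem SP.of_ae {Q : Env → Prop} (h : ∀ᵐ ω ∂(PP G), Q ω) : SP G (fun _ => {ω | ¬ Q ω}) := by
  intro k
  refine Eventually.of_forall fun z => ?_
  rw [ae_iff.1 h]
  exact zero_le

/-- polynomially many uniformly unlikely events -/
theorem SP.biUnion {ι : Type*} (I : ℕ → Finset ι) (A : ℕ → ι → Set Env) (a : ℕ)
    (hI : ∀ᶠ z : ℕ in atTop, (I z).card ≤ z ^ a)
    (h : ∀ k : ℕ, ∀ᶠ z : ℕ in atTop, ∀ i ∈ I z,
      PP G (A z i) ≤ ENNReal.ofReal (((z : ℝ) ^ k)⁻¹)) :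
    SP G (fun z => ⋃ i ∈ I z, A z i) := by
  intro k
  filter_upwards [hI, h (a + k), eventually_ge_atTop 1] with z h1 h2 hz
  have h0 : (0 : ℝ) < z := by exact_mod_cast hz
  refine (measure_biUnion_finset_le _ _).trans ((Finset.sum_le_card_nsmul _ _ _ h2).trans ?_)
  rw [nsmul_eq_mul, ← ENNReal.ofReal_natCast, ← ENNReal.ofReal_mul (Nat.cast_nonneg _)]
  refine ENNReal.ofReal_le_ofReal ?_
  have h3 : ((I z).card : ℝ) ≤ (z : ℝ) ^ a := by exact_mod_cast h1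
  calc ((I z).card : ℝ) * ((z : ℝ) ^ (a + k))⁻¹ ≤ (z : ℝ) ^ a * ((z : ℝ) ^ (a + k))⁻¹ :=
        mul_le_mul_of_nonneg_right h3 (by positivity)
    _ = ((z : ℝ) ^ k)⁻¹ := by rw [pow_add, mul_inv, mul_inv_cancel_left₀ (by positivity)]

theorem ev_exp {c : ℝ} (hc : 0 < c) (C : ℝ) (k : ℕ) :
    ∀ᶠ z : ℕ in atTop, C * Real.exp (-(c * z)) ≤ ((z : ℝ) ^ k)⁻¹ := by
  have h1 := ((tendsto_rpow_mul_exp_neg_mul_atTop_nhds_zero k c hc).comp
    tendsto_natCast_atTop_atTop).const_mul C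
  rw [mul_zero] at h1
  filter_upwards [h1.eventually (eventually_le_nhds zero_lt_one), eventually_ge_atTop 1]
    with z h2 hz
  have h0 : (0 : ℝ) < z := by exact_mod_cast hz
  simp only [Function.comp, Real.rpow_natCast, neg_mul] at h2
  rw [← one_div, le_div_iff₀ (by positivity)]
  linarith

theorem SP.nonempty {A : ℕ → Set Env} (h : SP G A) : ∀ᶠ z : ℕ in atTop, ∃ ω, ω ∉ A z := by
  filter_upwards [h 1, eventually_ge_atTop 2] with z h1 hz
  by_contra hn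
  have h2 : A z = univ := eq_univ_of_forall fun ω => not_not.1 fun h3 => hn ⟨ω, h3⟩
  have hz' : (2 : ℝ) ≤ z := by exact_mod_cast hz
  rw [h2, measure_univ, ENNReal.one_le_ofReal, pow_one, one_le_inv₀ (by linarith)] at h1
  linarith

/-- pairs of points of the box of radius `z ^ 1024` -/
def Events_box (z : ℕ) : Finset (V × V) :=
  (Finset.Icc (-(z : ℤ) ^ 1024) ((z : ℤ) ^ 1024) ×ˢ Finset.Icc (-(z : ℤ) ^ 1024) ((z : ℤ) ^ 1024)) ×ˢ
    (Finset.Icc (-(z : ℤ) ^ 1024) ((z : ℤ) ^ 1024) ×ˢ Finset.Icc (-(z : ℤ) ^ 1024) ((z : ℤ) ^ 1024))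

theorem Events_mem {z : ℕ} {x y : V} (hx : nm x ≤ (z : ℤ) ^ 1024) (hy : nm y ≤ (z : ℤ) ^ 1024) :
    (x, y) ∈ Events_box z := by
  rw [nm_le_iff, abs_le, abs_le] at hx hy
  simp only [Events_box, Finset.mem_product, Finset.mem_Icc]
  exact ⟨hx, hy⟩

theorem Events_card : ∀ᶠ z : ℕ in atTop, (Events_box z).card ≤ z ^ 4100 := by
  filter_upwards [eventually_ge_atTop 3] with z hz
  have h1 : (Finset.Icc (-(z : ℤ) ^ 1024) ((z : ℤ) ^ 1024)).card ≤ z ^ 1025 := by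
    have h2 : 1 ≤ z ^ 1024 := Nat.one_le_pow _ _ (by omega)
    have h3 : 3 * z ^ 1024 ≤ z ^ 1025 := by
      rw [pow_succ' z 1024]
      exact Nat.mul_le_mul_right _ hz
    rw [Int.card_Icc, ← Nat.cast_pow]
    generalize z ^ 1024 = a at *
    generalize z ^ 1025 = b at *
    omega
  have h4 : z ^ 4100 = z ^ 1025 * z ^ 1025 * (z ^ 1025 * z ^ 1025) := by
    rw [← pow_add, ← pow_add]
  rw [Events_box, Finset.card_product, Finset.card_product, h4]
  exact Nat.mul_le_mul (Nat.mul_le_mul h1 h1) (Nat.mul_le_mul h1 h1)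

theorem sp_con (hG : Law G) : SP G (fun z => {ω | ¬ CON G z ω}) := by
  obtain ⟨c, C, hc, -, h⟩ := conc G hG
  have hr : ∀ (z : ℕ) (v : V), {ρ : ℕ | z ≤ ρ ∧ nm v ≤ (ρ : ℤ) ^ 2}.Nonempty := fun z v => by
    refine ⟨max z (nm v).toNat, le_max_left _ _, ?_⟩
    have h1 : nm v ≤ ((max z (nm v).toNat : ℕ) : ℤ) := by omega
    exact h1.trans (Int.le_self_sq _)
  refine (SP.biUnion Events_box (fun z i => {ω | (z : ℝ) *
    (sInf {ρ : ℕ | z ≤ ρ ∧ nm (i.2 - i.1) ≤ (ρ : ℤ) ^ 2} : ℕ) < |d ω i.1 i.2 - g G (i.2 - i.1)|})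
    4100 Events_card fun k => ?_).mono (Eventually.of_forall fun z ω hω => ?_)
  · filter_upwards [ev_exp hc C k] with z hz i _
    obtain ⟨h1, h2⟩ := Nat.sInf_mem (hr z (i.2 - i.1))
    exact (h _ i.1 i.2 h2 z (Nat.cast_nonneg _) (by exact_mod_cast h1)).trans
      (ENNReal.ofReal_le_ofReal hz)
  · by_contra hn
    refine hω fun x y hx hy ρ h1 h2 => ?_
    have h3 : |d ω x y - g G (y - x)| ≤
        (z : ℝ) * (sInf {ρ : ℕ | z ≤ ρ ∧ nm (y - x) ≤ (ρ : ℤ) ^ 2} : ℕ) :=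
      not_lt.1 fun h4 => hn (mem_iUnion₂.2 ⟨(x, y), Events_mem hx hy, h4⟩)
    refine h3.trans (mul_le_mul_of_nonneg_left ?_ (Nat.cast_nonneg _))
    exact_mod_cast Nat.sInf_le (show ρ ∈ {ρ : ℕ | z ≤ ρ ∧ nm (y - x) ≤ (ρ : ℤ) ^ 2} from ⟨h1, h2⟩)

theorem sp_len (hG : Law G) : ∃ Λ : ℕ, 1 ≤ Λ ∧ SP G (fun z => {ω | ¬ LEN Λ z ω}) := by
  obtain ⟨Λ, β, hΛ, -, h⟩ := len_pt G hG
  refine ⟨Λ, by omega, ((SP.of_ae (ae_pos G hG)).union (SP.biUnion Events_box
    (fun z i => {ω | ¬ LenOK ω i.1 i.2 (Λ * max z (nm (i.2 - i.1)).toNat)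
      ((β : ℝ) * (max z (nm (i.2 - i.1)).toNat : ℕ))})
    4100 Events_card fun k => ?_)).mono (Eventually.of_forall fun z ω hω => ?_)⟩
  · filter_upwards [ev_exp (Real.log_pos one_lt_two) 2 k] with z hz i _
    refine (h _ i.1 i.2 (by omega)).trans (ENNReal.ofReal_le_ofReal (le_trans ?_ hz))
    rw [Real.exp_neg, mul_comm (Real.log 2), Real.exp_nat_mul, Real.exp_log two_pos]
    exact mul_le_mul_of_nonneg_left (inv_anti₀ (by positivity)
      (pow_le_pow_right₀ one_le_two (le_max_left _ _))) zero_le_two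
  · by_contra hn
    rw [mem_union, not_or] at hn
    refine hω fun p k hg hx hy K h1 h2 => ?_
    have h3 : LenOK ω (p 0) (p k) (Λ * max z (nm (p k - p 0)).toNat)
        ((β : ℝ) * (max z (nm (p k - p 0)).toNat : ℕ)) :=
      not_not.1 fun h4 => hn.2 (mem_iUnion₂.2 ⟨(p 0, p k), Events_mem hx hy, h4⟩)
    have h4 := abs_fst_le_nm (p k - p 0)
    have h5 := abs_snd_le_nm (p k - p 0)
    rw [Prod.fst_sub] at h4
    rw [Prod.snd_sub] at h5
    have h6 : 2 * max z (nm (p k - p 0)).toNat ≤ Λ * max z (nm (p k - p 0)).toNat :=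
      Nat.mul_le_mul_right _ hΛ
    have h7 := LenOK.len_lt h3 (by omega) (not_not.1 hn.1) hg
    exact h7.le.trans (Nat.mul_le_mul_left _ (by omega))

end Pool.Agent.FPP
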