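import Pool.Agent.P.MP_ecb9f8_pr.Mix

open MeasureTheory ProbabilityTheory Set Filter

noncomputable section

namespace Pool.Agent.FPP

theorem Harris_mix_one (e : E) (w w' : Env) :
    mix ({e} : Set E) w w' = Function.update w e (w' e) := by
  funext f
  by_cases h : f = e
  · subst h; simp [mix]
  · simp [mix, h]

theorem Harris_mix_a {T : Set E} {e : E} (he : e ∉ T) (w w' : Env) :
    mix T (mix {e} w w') (mix {e} w' w) = mix (insert e T) w w' := by
  funext f
  by_cases h : f = e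
  · subst h; simp [mix, he]
  · by_cases hT : f ∈ T <;> simp [mix, h, hT]

theorem Harris_mix_b {T : Set E} {e : E} (he : e ∉ T) (w w' : Env) :
    mix (insert e T) (mix {e} w w') (mix {e} w' w) = mix T w w' := by
  funext f
  by_cases h : f = e
  · subst h; simp [mix, he]
  · by_cases hT : f ∈ T <;> simp [mix, h, hT]

theorem Harris_upd_a {T : Set E} {e : E} (he : e ∉ T) (w w' : Env) :
    Function.update (mix (insert e T) w w') e (w e) = mix T w w' := by
  funext f
  by_cases h : f = e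
  · subst h; simp [mix, he]
  · by_cases hT : f ∈ T <;> simp [mix, h, hT]

theorem Harris_upd_b (T : Set E) (e : E) (w w' : Env) :
    Function.update (mix T w w') e (w' e) = mix (insert e T) w w' := by
  funext f
  by_cases h : f = e
  · subst h; simp [mix]
  · by_cases hT : f ∈ T <;> simp [mix, h, hT]

theorem Harris_upd_c (e : E) (w w' : Env) :
    Function.update (mix {e} w w') e (w e) = w := by
  funext f
  by_cases h : f = e
  · subst h; simp
  · simp [mix, h]

theorem Harris_meas {A B : Set Env} (mA : MeasurableSet A) (mB : MeasurableSet B) (T : Set E) :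
    MeasurableSet {x : Env × Env | x.1 ∈ A ∧ mix T x.1 x.2 ∈ B} :=
  (measurable_fst mA).inter (measurable_mix T mB)

theorem Harris_step (G : Measure ℝ) [IsProbabilityMeasure G] {A B : Set Env}
    (mA : MeasurableSet A) (mB : MeasurableSet B) {T : Set E} {e : E} (he : e ∉ T)
    (hA : ∀ ω ∈ A, ∀ x : ℝ, ω e ≤ x → Function.update ω e x ∈ A)
    (hB : ∀ ω ∈ B, ∀ x : ℝ, x ≤ ω e → Function.update ω e x ∈ B) :
    ((PP G).prod (PP G)) {x : Env × Env | x.1 ∈ A ∧ mix T x.1 x.2 ∈ B} ≤
      ((PP G).prod (PP G)) {x : Env × Env | x.1 ∈ A ∧ mix (insert e T) x.1 x.2 ∈ B} := by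
  set μ := (PP G).prod (PP G) with hμ
  set X1 : Set (Env × Env) := {x | x.1 ∈ A ∧ mix T x.1 x.2 ∈ B} with hX1
  set Y1 : Set (Env × Env) := {x | x.1 ∈ A ∧ mix (insert e T) x.1 x.2 ∈ B} with hY1
  have mX : MeasurableSet X1 := Harris_meas mA mB T
  have mY : MeasurableSet Y1 := Harris_meas mA mB (insert e T)
  have hσ := mp_swap G ({e} : Set E)
  set σ : Env × Env → Env × Env := fun x => (mix {e} x.1 x.2, mix {e} x.2 x.1) with hσd
  have hX2 : μ (σ ⁻¹' X1) = μ X1 := hσ.measure_preimage mX.nullMeasurableSet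
  have hY2 : μ (σ ⁻¹' Y1) = μ Y1 := hσ.measure_preimage mY.nullMeasurableSet
  have memX2 : ∀ x : Env × Env, x ∈ σ ⁻¹' X1 ↔
      mix {e} x.1 x.2 ∈ A ∧ mix (insert e T) x.1 x.2 ∈ B := by
    intro x
    simp only [hσd, hX1, mem_preimage, mem_ofPred_eq, Harris_mix_a he]
  have memY2 : ∀ x : Env × Env, x ∈ σ ⁻¹' Y1 ↔
      mix {e} x.1 x.2 ∈ A ∧ mix T x.1 x.2 ∈ B := by
    intro x
    simp only [hσd, hY1, mem_preimage, mem_ofPred_eq, Harris_mix_b he]
  have hu : X1 ∪ σ ⁻¹' X1 ⊆ Y1 ∪ σ ⁻¹' Y1 := by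
    intro x hx
    rcases le_total (x.1 e) (x.2 e) with h | h
    · right
      rw [memY2]
      rcases hx with hx | hx
      · refine ⟨?_, hx.2⟩
        rw [Harris_mix_one]
        exact hA _ hx.1 _ h
      · rw [memX2] at hx
        refine ⟨hx.1, ?_⟩
        rw [← Harris_upd_a he]
        refine hB _ hx.2 _ ?_
        simpa [mix] using h
    · left
      rcases hx with hx | hx
      · refine ⟨hx.1, ?_⟩
        rw [← Harris_upd_b]
        refine hB _ hx.2 _ ?_
        simpa [mix, he] using h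
      · rw [memX2] at hx
        refine ⟨?_, hx.2⟩
        have := hA _ hx.1 (x.1 e) (by simpa [mix] using h)
        rwa [Harris_upd_c] at this
  have hi : X1 ∩ σ ⁻¹' X1 ⊆ Y1 ∩ σ ⁻¹' Y1 := by
    rintro x ⟨h1, h2⟩
    rw [memX2] at h2
    exact ⟨⟨h1.1, h2.2⟩, (memY2 x).2 ⟨h2.1, h1.2⟩⟩
  have e1 := measure_union_add_inter (μ := μ) X1 (hσ.measurable mX)
  have e2 := measure_union_add_inter (μ := μ) Y1 (hσ.measurable mY)
  have h2 : μ X1 + μ X1 ≤ μ Y1 + μ Y1 := by
    calc μ X1 + μ X1 = μ (X1 ∪ σ ⁻¹' X1) + μ (X1 ∩ σ ⁻¹' X1) := by rw [e1, hX2]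
      _ ≤ μ (Y1 ∪ σ ⁻¹' Y1) + μ (Y1 ∩ σ ⁻¹' Y1) := add_le_add (measure_mono hu) (measure_mono hi)
      _ = μ Y1 + μ Y1 := by rw [e2, hY2]
  by_contra hlt
  push Not at hlt
  exact absurd h2 (not_le.2 (ENNReal.add_lt_add hlt hlt))

/-- Harris inequality, two-copy form -/
theorem harris (G : Measure ℝ) [IsProbabilityMeasure G] (S : Finset E) {A B : Set Env}
    (mA : MeasurableSet A) (mB : MeasurableSet B)
    (hA : ∀ ω ∈ A, ∀ e ∈ S, ∀ x : ℝ, ω e ≤ x → Function.update ω e x ∈ A)
    (hB : ∀ ω ∈ B, ∀ e ∈ S, ∀ x : ℝ, x ≤ ω e → Function.update ω e x ∈ B) :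
    PP G (A ∩ B) ≤ ∫⁻ ω in A, PP G {ω' | mix (S : Set E) ω ω' ∈ B} ∂(PP G) := by
  classical
  have key : ∀ T : Finset E, T ⊆ S → PP G (A ∩ B) ≤
      ((PP G).prod (PP G)) {x : Env × Env | x.1 ∈ A ∧ mix (T : Set E) x.1 x.2 ∈ B} := by
    intro T
    induction T using Finset.induction_on with
    | empty =>
      intro _
      have : {x : Env × Env | x.1 ∈ A ∧ mix ((∅ : Finset E) : Set E) x.1 x.2 ∈ B} =
          (A ∩ B) ×ˢ (univ : Set Env) := by
        ext x
        have hm : mix ((∅ : Finset E) : Set E) x.1 x.2 = x.1 := by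
          funext f; simp [mix]
        simp only [mem_ofPred_eq, hm, mem_prod, mem_inter_iff, mem_univ, and_true]
      rw [this, Measure.prod_prod]
      simp
    | insert e T he ih =>
      intro hs
      have heS : e ∈ S := hs (Finset.mem_insert_self e T)
      refine (ih (fun f hf => hs (Finset.mem_insert_of_mem hf))).trans ?_
      rw [Finset.coe_insert]
      exact Harris_step G mA mB (by simpa using he) (fun ω h x hx => hA ω h e heS x hx)
        (fun ω h x hx => hB ω h e heS x hx)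
  refine (key S subset_rfl).trans (le_of_eq ?_)
  rw [Measure.prod_apply (Harris_meas mA mB _), ← lintegral_indicator mA]
  refine lintegral_congr fun ω => ?_
  by_cases h : ω ∈ A
  · rw [indicator_of_mem h]
    congr 1
    ext ω'
    simp [h]
  · rw [indicator_of_notMem h]
    have : Prod.mk ω ⁻¹' {x : Env × Env | x.1 ∈ A ∧ mix (S : Set E) x.1 x.2 ∈ B} = ∅ := by
      ext ω'
      simp [h]
    rw [this, measure_empty]

end Pool.Agent.FPP
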