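import Pool.Agent.P.MP_ecb9f8_pr.Defs

open MeasureTheory ProbabilityTheory Set Filter

noncomputable section

namespace Pool.Agent.FPP

variable (G : Measure ℝ) [IsProbabilityMeasure G]

theorem measurable_mix (S : Set E) : Measurable (fun x : Env × Env => mix S x.1 x.2) := by
  refine measurable_pi_lambda _ fun e => ?_
  unfold mix
  split_ifs
  · exact (measurable_pi_apply e).comp measurable_snd
  · exact (measurable_pi_apply e).comp measurable_fst

theorem measurable_pull (φ : V → V) : Measurable (pull φ) := by
  exact measurable_pi_lambda _ fun e => measurable_pi_apply _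

theorem Mix_meas_join : Measurable (fun x : Env × Env => (Sum.elim x.1 x.2 : E ⊕ E → ℝ)) := by
  refine measurable_pi_lambda _ fun i => ?_
  rcases i with i | i
  · exact (measurable_pi_apply i).comp measurable_fst
  · exact (measurable_pi_apply i).comp measurable_snd

theorem Mix_join : MeasurePreserving (fun x : Env × Env => (Sum.elim x.1 x.2 : E ⊕ E → ℝ))
    ((PP G).prod (PP G)) (Measure.infinitePi fun _ : E ⊕ E => G) := by
  refine ⟨Mix_meas_join, Measure.eq_infinitePi _ fun s t ht => ?_⟩
  have e : (fun x : Env × Env => (Sum.elim x.1 x.2 : E ⊕ E → ℝ)) ⁻¹' (Set.pi s t) =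
      Set.pi s.toLeft (fun i => t (.inl i)) ×ˢ Set.pi s.toRight (fun i => t (.inr i)) := by
    ext x
    simp [Set.mem_pi]
  rw [Measure.map_apply Mix_meas_join (.pi s.countable_toSet fun i _ => ht i), e,
    Measure.prod_prod, PP, Measure.infinitePi_pi _ fun i _ => ht _,
    Measure.infinitePi_pi _ fun i _ => ht _, Finset.prod_sum_eq_prod_toLeft_mul_prod_toRight]

theorem Mix_inj {α ι : Type} {f : α → ι} (hf : Function.Injective f) :
    MeasurePreserving (fun (ω : ι → ℝ) (i : α) => ω (f i)) (Measure.infinitePi fun _ : ι => G)
      (Measure.infinitePi fun _ : α => G) :=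
  ⟨measurable_pi_lambda _ fun i => measurable_pi_apply (f i),
    Measure.map_infinitePi_infinitePi_of_inj (P := fun _ : ι => G) hf⟩

theorem Mix_split : MeasurePreserving
    (fun ω : E ⊕ E → ℝ => ((fun e => ω (.inl e), fun e => ω (.inr e)) : Env × Env))
    (Measure.infinitePi fun _ : E ⊕ E => G) ((PP G).prod (PP G)) := by
  have hm : Measurable
      (fun ω : E ⊕ E → ℝ => ((fun e => ω (.inl e), fun e => ω (.inr e)) : Env × Env)) :=
    (measurable_pi_lambda _ fun i => measurable_pi_apply _).prodMk
      (measurable_pi_lambda _ fun i => measurable_pi_apply _)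
  refine ⟨hm, ?_⟩
  rw [← (Mix_join G).map_eq, Measure.map_map hm Mix_meas_join]
  exact Measure.map_id

theorem mp_mix (S : Set E) :
    MeasurePreserving (fun x : Env × Env => mix S x.1 x.2) ((PP G).prod (PP G)) (PP G) := by
  classical
  have hf : Function.Injective fun e : E => (if e ∈ S then .inr e else .inl e : E ⊕ E) :=
    Function.LeftInverse.injective (g := Sum.elim id id) fun e => by
      split_ifs <;> rfl
  have h : MeasurePreserving _ _ (PP G) := (Mix_inj G hf).comp (Mix_join G)
  convert h using 1
  funext x e
  simp only [mix, Function.comp]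
  split_ifs <;> rfl

theorem mp_upd (e : E) :
    MeasurePreserving (fun x : Env × ℝ => Function.update x.1 e x.2) ((PP G).prod G) (PP G) := by
  have hm : Measurable (fun x : Env × ℝ => Function.update x.1 e x.2) := measurable_update'
  have h1 : MeasurePreserving (Prod.map id fun ω : Env => ω e) ((PP G).prod (PP G))
      ((PP G).prod G) :=
    (MeasurePreserving.id _).prod (measurePreserving_eval_infinitePi (fun _ : E => G) e)
  refine ⟨hm, ?_⟩
  rw [← h1.map_eq, Measure.map_map hm h1.measurable]
  refine Eq.trans ?_ (mp_mix G {e}).map_eq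
  congr 1
  funext x i
  simp only [mix, Function.comp, Prod.map, id, Function.update_apply, Set.mem_singleton_iff]
  split_ifs with h
  · rw [h]
  · rfl

theorem mp_swap (S : Set E) :
    MeasurePreserving (fun x : Env × Env => (mix S x.1 x.2, mix S x.2 x.1))
      ((PP G).prod (PP G)) ((PP G).prod (PP G)) := by
  classical
  have hf : Function.Injective (Sum.elim (fun e : E => (if e ∈ S then .inr e else .inl e : E ⊕ E))
      (fun e : E => (if e ∈ S then .inl e else .inr e : E ⊕ E))) := by
    refine Function.Involutive.injective ?_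
    rintro (e | e) <;> by_cases h : e ∈ S <;> simp [h]
  have h := (Mix_split G).comp ((Mix_inj G hf).comp (Mix_join G))
  convert h using 1
  funext x
  refine Prod.ext (funext fun e => ?_) (funext fun e => ?_)
  · simp only [mix, Function.comp, Sum.elim_inl]
    split_ifs <;> rfl
  · simp only [mix, Function.comp, Sum.elim_inr]
    split_ifs <;> rfl

theorem mp_pull (φ : V ≃ V) : MeasurePreserving (pull φ) (PP G) (PP G) := by
  exact Mix_inj G (Sym2.map.injective φ.injective)

theorem mp_eval (e : E) : MeasurePreserving (fun ω : Env => ω e) (PP G) G := by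
  exact measurePreserving_eval_infinitePi (fun _ : E => G) e

/-- also for sets that are not known to be measurable -/
theorem measure_pull_le (φ : V ≃ V) (A : Set Env) : PP G {ω | pull φ ω ∈ A} ≤ PP G A := by
  have h := Measure.le_map_apply (μ := PP G) (measurable_pull φ).aemeasurable A
  rwa [(mp_pull G φ).map_eq] at h

theorem ae_pull (φ : V ≃ V) {Q : Env → Prop} (h : ∀ᵐ ω ∂(PP G), Q ω) :
    ∀ᵐ ω ∂(PP G), Q (pull φ ω) := by
  exact (mp_pull G φ).quasiMeasurePreserving.ae h

end Pool.Agent.FPP
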