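import Pool.Agent.P.MP_ecb9f8_pr.Path4
import Pool.Agent.P.MP_ecb9f8_pr.Mix

open MeasureTheory ProbabilityTheory Set Filter

noncomputable section

namespace Pool.Agent.FPP

variable (G : Measure ℝ) [IsProbabilityMeasure G]

omit [IsProbabilityMeasure G] in
theorem Mean_aux1 (hG : Law G) : MemLp (fun x : ℝ => max x 0) 2 G := by
  obtain ⟨-, ⟨a, ha, hi⟩, -⟩ := hG
  have hm : Measurable (fun x : ℝ => max x 0) := by fun_prop
  rw [memLp_two_iff_integrable_sq hm.aestronglyMeasurable]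
  refine (hi.const_mul (2 / a ^ 2)).mono' (hm.pow_const 2).aestronglyMeasurable
    (Eventually.of_forall fun x => ?_)
  rw [Real.norm_eq_abs, abs_of_nonneg (sq_nonneg _)]
  rcases le_total x 0 with hx | hx
  · rw [max_eq_right hx, zero_pow two_ne_zero]
    positivity
  · rw [max_eq_left hx]
    have h1 := Real.quadratic_le_exp_of_nonneg (mul_nonneg ha.le hx)
    have h2 : 0 ≤ a * x := mul_nonneg ha.le hx
    rw [div_mul_eq_mul_div, le_div_iff₀ (by positivity)]
    nlinarith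

theorem Mean_aux2 (hG : Law G) (e : E) : MemLp (fun ω : Env => wt ω e) 2 (PP G) :=
  (Mean_aux1 G hG).comp_measurePreserving (mp_eval G e)

theorem Mean_aux3 (f : ℝ → ℝ) (hf : Measurable f) (e : E) :
    ∫ ω : Env, f (ω e) ∂(PP G) = ∫ x, f x ∂G := by
  have h := mp_eval G e
  conv_rhs => rw [← h.map_eq]
  rw [integral_map h.measurable.aemeasurable hf.aestronglyMeasurable]

theorem Mean_aux4 (φ : V ≃ V) (hφ : ∀ a b, Adj (φ a) (φ b) ↔ Adj a b) (x y : V) :
    ∫ ω, d ω (φ x) (φ y) ∂(PP G) = ∫ ω, d ω x y ∂(PP G) := by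
  have h := mp_pull G φ
  conv_rhs => rw [← h.map_eq]
  rw [integral_map h.measurable.aemeasurable (measurable_d x y).aestronglyMeasurable]
  simp only [d_pull φ hφ]

theorem memLp_W (hG : Law G) (p : ℕ → V) (i j : ℕ) :
    MemLp (fun ω => W ω p i j) 2 (PP G) :=
  memLp_finsetSum (Finset.Ico i j) fun t _ => Mean_aux2 G hG (ed p t)

theorem memLp_d (hG : Law G) (x y : V) : MemLp (fun ω => d ω x y) 2 (PP G) := by
  obtain ⟨p, k, hc, -, h0, hk, -⟩ := exists_straight x y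
  refine (memLp_W G hG p 0 k).mono' (measurable_d x y).aestronglyMeasurable
    (Eventually.of_forall fun ω => ?_)
  rw [Real.norm_eq_abs, abs_of_nonneg (d_nonneg ω x y), ← h0, ← hk]
  exact d_le_W ω hc (Nat.zero_le k) le_rfl

theorem integrable_d (hG : Law G) (x y : V) : Integrable (fun ω => d ω x y) (PP G) :=
  (memLp_d G hG x y).integrable one_le_two

theorem Mean_aux5 (x y : V) : ∃ (p : ℕ → V) (k : ℕ), (k : ℝ) ≤ 2 * (nm (y - x) : ℝ) ∧
    ∀ ω, d ω x y ≤ ∑ t ∈ Finset.range k, wt ω (ed p t) := by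
  obtain ⟨p, k, hc, -, h0, hk, hl⟩ := exists_straight x y
  refine ⟨p, k, ?_, fun ω => ?_⟩
  · have h1 := abs_fst_le_nm (y - x)
    have h2 := abs_snd_le_nm (y - x)
    rw [Prod.fst_sub] at h1
    rw [Prod.snd_sub] at h2
    have h3 : (k : ℤ) ≤ 2 * nm (y - x) := by omega
    exact_mod_cast h3
  · rw [← W_range, ← h0, ← hk]
    exact d_le_W ω hc (Nat.zero_le k) le_rfl

theorem moment_d (hG : Law G) :
    ∃ C : ℝ, 1 ≤ C ∧ (∀ x y : V, ∫ ω, (d ω x y) ^ 2 ∂(PP G) ≤ C * (nm (y - x) : ℝ) ^ 2) ∧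
      ∀ v : V, g G v ≤ C * (nm v : ℝ) := by
  have hM : 0 ≤ ∫ x : ℝ, (max x 0) ^ 2 ∂G := integral_nonneg fun x => sq_nonneg _
  have hm : 0 ≤ ∫ x : ℝ, max x 0 ∂G := integral_nonneg fun x => le_max_right _ _
  have e2 : ∀ e : E, ∫ ω : Env, wt ω e ^ 2 ∂(PP G) = ∫ x : ℝ, (max x 0) ^ 2 ∂G := fun e =>
    Mean_aux3 G (fun x => (max x 0) ^ 2) (by fun_prop) e
  have e1 : ∀ e : E, ∫ ω : Env, wt ω e ∂(PP G) = ∫ x : ℝ, max x 0 ∂G := fun e =>
    Mean_aux3 G (fun x => max x 0) (by fun_prop) e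
  generalize ∫ x : ℝ, (max x 0) ^ 2 ∂G = M at hM e2
  generalize ∫ x : ℝ, max x 0 ∂G = m at hm e1
  refine ⟨1 + 4 * M + 2 * m, by linarith, fun x y => ?_, fun v => ?_⟩
  · obtain ⟨p, k, hk, hd⟩ := Mean_aux5 x y
    have hi : ∀ t ∈ Finset.range k, Integrable (fun ω : Env => wt ω (ed p t) ^ 2) (PP G) :=
      fun t _ => (Mean_aux2 G hG (ed p t)).integrable_sq
    have h1 : ∫ ω, (d ω x y) ^ 2 ∂(PP G) ≤
        ∫ ω, (k : ℝ) * ∑ t ∈ Finset.range k, wt ω (ed p t) ^ 2 ∂(PP G) := by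
      refine integral_mono (memLp_d G hG x y).integrable_sq
        ((integrable_finsetSum _ hi).const_mul _) fun ω => ?_
      have h2 := sq_sum_le_card_mul_sum_sq (s := Finset.range k) (f := fun t => wt ω (ed p t))
      rw [Finset.card_range] at h2
      exact (pow_le_pow_left₀ (d_nonneg ω x y) (hd ω) 2).trans h2
    rw [integral_const_mul, integral_finsetSum _ hi] at h1
    simp only [e2, Finset.sum_const, Finset.card_range, nsmul_eq_mul] at h1
    have h3 : (k : ℝ) ^ 2 ≤ (2 * (nm (y - x) : ℝ)) ^ 2 := pow_le_pow_left₀ (Nat.cast_nonneg k) hk 2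
    have h4 := mul_le_mul_of_nonneg_left h3 hM
    have h5 := sq_nonneg (nm (y - x) : ℝ)
    have h6 := mul_nonneg hm h5
    nlinarith
  · obtain ⟨p, k, hk, hd⟩ := Mean_aux5 0 v
    rw [sub_zero] at hk
    have hi : ∀ t ∈ Finset.range k, Integrable (fun ω : Env => wt ω (ed p t)) (PP G) :=
      fun t _ => (Mean_aux2 G hG (ed p t)).integrable one_le_two
    have h1 : g G v ≤ ∫ ω, ∑ t ∈ Finset.range k, wt ω (ed p t) ∂(PP G) :=
      integral_mono (integrable_d G hG 0 v) (integrable_finsetSum _ hi) hd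
    rw [integral_finsetSum _ hi] at h1
    simp only [e1, Finset.sum_const, Finset.card_range, nsmul_eq_mul] at h1
    have h5 : (0 : ℝ) ≤ nm v := by exact_mod_cast nm_nonneg v
    have h4 := mul_le_mul_of_nonneg_left hk hm
    have h6 := mul_nonneg hM h5
    nlinarith

theorem integral_d (x y : V) : ∫ ω, d ω x y ∂(PP G) = g G (y - x) := by
  have h := Mean_aux4 G (Equiv.addRight x) (fun a b => by simp [Adj]) 0 (y - x)
  simpa [g] using h

theorem g_nonneg (v : V) : 0 ≤ g G v := integral_nonneg fun ω => d_nonneg ω 0 v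

theorem g_zero : g G 0 = 0 := by simp [g, d_self]

theorem g_add_le (hG : Law G) (u v : V) : g G (u + v) ≤ g G u + g G v := by
  have h := integral_d G u (u + v)
  rw [add_sub_cancel_left] at h
  rw [← h, g, g, ← integral_add (integrable_d G hG _ _) (integrable_d G hG _ _)]
  exact integral_mono (integrable_d G hG _ _)
    ((integrable_d G hG _ _).add (integrable_d G hG _ _)) fun ω => d_triangle ω 0 u (u + v)

theorem g_sum_le (hG : Law G) {ι : Type*} (I : Finset ι) (v : ι → V) :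
    g G (∑ i ∈ I, v i) ≤ ∑ i ∈ I, g G (v i) :=
  Finset.le_sum_of_subadditive (g G) (g_zero G).le (g_add_le G hG) I v

theorem g_refl (x y : ℤ) : g G (x, -y) = g G (x, y) := by
  have h := Mean_aux4 G ((Equiv.refl ℤ).prodCongr (Equiv.neg ℤ)) (fun a b => by
    have e : -a.2 - -b.2 = -(a.2 - b.2) := by ring
    simp only [Adj, Equiv.prodCongr_apply, Prod.map_fst, Prod.map_snd, Equiv.refl_apply,
      Equiv.neg_apply, e, abs_neg]) 0 (x, y)
  have e0 : ((Equiv.refl ℤ).prodCongr (Equiv.neg ℤ)) (0 : V) = 0 := rfl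
  rw [e0] at h
  exact h

theorem g_swap (x y : ℤ) : g G (y, x) = g G (x, y) := by
  have h := Mean_aux4 G (Equiv.prodComm ℤ ℤ) (fun a b => by
    simp only [Adj, Equiv.prodComm_apply, Prod.fst_swap, Prod.snd_swap, add_comm]) 0 (x, y)
  exact h

end Pool.Agent.FPP
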