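import Pool.Agent.P.MP_ecb9f8_pr.Path2
import Pool.Agent.P.MP_ecb9f8_pr.Path3
import Pool.Agent.P.MP_ecb9f8_pr.Mean

open MeasureTheory ProbabilityTheory Set Filter

noncomputable section

namespace Pool.Agent.FPP

theorem ThrL_pow_le {z : ℕ} (hz : 1 ≤ z) {a b : ℕ} (hab : a ≤ b) : (z : ℤ) ^ a ≤ (z : ℤ) ^ b :=
  pow_le_pow_right₀ (by exact_mod_cast hz) hab

theorem ThrL_mul_pow_le {z : ℕ} (hz : 1 ≤ z) {c : ℤ} (hc : c ≤ z) {a b : ℕ} (hab : a + 1 ≤ b) :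
    c * (z : ℤ) ^ a ≤ (z : ℤ) ^ b := by
  have h0 : (0 : ℤ) ≤ (z : ℤ) ^ a := by positivity
  calc c * (z : ℤ) ^ a ≤ (z : ℤ) * (z : ℤ) ^ a := mul_le_mul_of_nonneg_right hc h0
    _ = (z : ℤ) ^ (a + 1) := (pow_succ' _ _).symm
    _ ≤ (z : ℤ) ^ b := ThrL_pow_le hz hab

theorem ThrL_rpow_le {z : ℕ} (hz : 1 ≤ z) {a b : ℕ} (hab : a ≤ b) : (z : ℝ) ^ a ≤ (z : ℝ) ^ b :=
  pow_le_pow_right₀ (by exact_mod_cast hz) hab

theorem ThrL_rmul_pow_le {z : ℕ} (hz : 1 ≤ z) {c : ℝ} (hc : c ≤ z) {a b : ℕ} (hab : a + 1 ≤ b) :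
    c * (z : ℝ) ^ a ≤ (z : ℝ) ^ b := by
  have h0 : (0 : ℝ) ≤ (z : ℝ) ^ a := by positivity
  calc c * (z : ℝ) ^ a ≤ (z : ℝ) * (z : ℝ) ^ a := mul_le_mul_of_nonneg_right hc h0
    _ = (z : ℝ) ^ (a + 1) := (pow_succ' _ _).symm
    _ ≤ (z : ℝ) ^ b := ThrL_rpow_le hz hab

theorem ThrL_nat_le_pow {z : ℕ} (hz : 1 ≤ z) {a : ℕ} (ha : 1 ≤ a) : z ≤ z ^ a := by
  calc z = z ^ 1 := (pow_one z).symm
    _ ≤ z ^ a := Nat.pow_le_pow_right hz ha

/-- concentration with a power of `z` as radius -/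
theorem ThrL_con {G : Measure ℝ} {z : ℕ} {ω : Env} (hz : 1 ≤ z) (h : CON G z ω) {x y : V}
    (hx : nm x ≤ (z : ℤ) ^ 1024) (hy : nm y ≤ (z : ℤ) ^ 1024) {a b : ℕ} (ha : 1 ≤ a)
    (hb : b ≤ a * 2) (hxy : nm (y - x) ≤ (z : ℤ) ^ b) :
    |d ω x y - g G (y - x)| ≤ (z : ℝ) ^ (a + 1) := by
  have h1 := h x y hx hy (z ^ a) (ThrL_nat_le_pow hz ha) (by
    rw [Nat.cast_pow, ← pow_mul]
    exact hxy.trans (ThrL_pow_le hz hb))
  rw [Nat.cast_pow, ← pow_succ'] at h1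
  exact h1

theorem ThrL_aC_zero (z : ℕ) : aC z 0 = cA z := by
  unfold aC
  rw [Nat.cast_zero, zero_mul, add_zero]

theorem ThrL_aC_succ (z i : ℕ) : aC z (i + 1) = aC z i + (z : ℤ) ^ 760 := by
  unfold aC
  rw [Nat.cast_succ, add_mul, one_mul, add_assoc]

theorem ThrL_aC_top (z : ℕ) : aC z (z ^ 260) = cB z := by
  unfold aC cA cB
  rw [Nat.cast_pow, ← pow_add]
  change 2 * (z : ℤ) ^ 1020 + (z : ℤ) ^ 1020 = 3 * (z : ℤ) ^ 1020
  generalize (z : ℤ) ^ 1020 = A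
  ring

theorem ThrL_aC_mono (z : ℕ) {i j : ℕ} (hij : i ≤ j) : aC z i ≤ aC z j := by
  unfold aC
  have h0 : (0 : ℤ) ≤ (z : ℤ) ^ 760 := by positivity
  have h1 : (i : ℤ) ≤ (j : ℤ) := by exact_mod_cast hij
  have h2 := mul_le_mul_of_nonneg_right h1 h0
  linarith

theorem ThrL_aC_mem (z : ℕ) {i : ℕ} (hi : i ≤ z ^ 260) : cA z ≤ aC z i ∧ aC z i ≤ cB z :=
  ⟨(ThrL_aC_zero z) ▸ ThrL_aC_mono z (Nat.zero_le i), (ThrL_aC_top z) ▸ ThrL_aC_mono z hi⟩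

theorem ThrL_bC {z : ℕ} (hz : 2 ≤ z) (i : ℕ) : aC z i ≤ bC z i ∧ bC z i ≤ aC z (i + 1) := by
  have hz1 : 1 ≤ z := by omega
  have h0 : (1 : ℤ) ≤ (z : ℤ) ^ 40 := one_le_pow₀ (by exact_mod_cast hz1)
  have h1 : (2 : ℤ) * (z : ℤ) ^ 40 ≤ (z : ℤ) ^ 760 :=
    ThrL_mul_pow_le hz1 (by exact_mod_cast hz) (by norm_num)
  rw [ThrL_aC_succ]
  unfold bC
  constructor <;> linarith

/-- first visits of two columns of the strip -/
theorem ThrL_two {S z : ℕ} {p : ℕ → V} {k : ℕ} (hc : Cls S z p k) {a b : ℤ} (h1 : cA z ≤ a)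
    (hab : a ≤ b) (h2 : b ≤ cB z) :
    fi p a ≤ fi p b ∧ fi p b ≤ k ∧ p (fi p a) = (a, ht p a) ∧ p (fi p b) = (b, ht p b) ∧
      |ht p b - ht p a| ≤ (S : ℤ) * (b - a) + (z : ℤ) ^ 40 := by
  obtain ⟨hp, hD, hI, hk, -⟩ := hc
  have hch : Chain p k := (mem_paths.1 hp).1
  have ha0 : (p 0).1 < a := lt_of_lt_of_le hI.2 h1
  have hb0 : (p 0).1 < b := lt_of_lt_of_le ha0 hab
  have hbk : b ≤ (p k).1 := hk ▸ h2
  have hak : a ≤ (p k).1 := hab.trans hbk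
  obtain ⟨-, -, e1, -, -⟩ := hch.fi_spec ha0 hak
  obtain ⟨l2, -, e2, -, -⟩ := hch.fi_spec hb0 hbk
  have hle : fi p a ≤ fi p b := by
    rcases hab.eq_or_lt with h | h
    · rw [h]
    · exact (hch.fi_lt ha0 h hbk).le
  refine ⟨hle, l2, e1, e2, ?_⟩
  have h3 := hD _ _ hle l2
  rw [e1, e2] at h3
  exact h3

/-- first visits of columns of the strip are in the big box -/
theorem ThrL_box {S z : ℕ} {p : ℕ → V} {k : ℕ} (hz : 4 * S + 4 ≤ z) (hc : Cls S z p k) {a : ℤ}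
    (h1 : cA z ≤ a) (h2 : a ≤ cB z) : nm ((a, ht p a) : V) ≤ (z : ℤ) ^ 1024 := by
  obtain ⟨-, l2, e1, -, -⟩ := ThrL_two hc h1 le_rfl h2
  obtain ⟨hp, hD, hI, hk, -⟩ := hc
  have hz1 : 1 ≤ z := by omega
  have h3 := hD 0 _ (Nat.zero_le _) l2
  rw [e1] at h3
  have h4 := nm_le_iff.1 hI.1
  have hzz : (4 : ℤ) * S + 4 ≤ z := by exact_mod_cast hz
  have hS0 : (0 : ℤ) ≤ S := Int.natCast_nonneg S
  have b1 : (3 : ℤ) * (z : ℤ) ^ 1020 ≤ (z : ℤ) ^ 1021 :=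
    ThrL_mul_pow_le hz1 (by linarith) (by norm_num)
  have b2 : (z : ℤ) ^ 40 ≤ (z : ℤ) ^ 1021 := ThrL_pow_le hz1 (by norm_num)
  have b3 : (2 * (S : ℤ) + 2) * (z : ℤ) ^ 1021 ≤ (z : ℤ) ^ 1024 :=
    ThrL_mul_pow_le hz1 (by linarith) (by norm_num)
  have b4 : (0 : ℤ) ≤ (z : ℤ) ^ 1020 := by positivity
  have b5 : (z : ℤ) ^ 1021 ≤ (z : ℤ) ^ 1024 := ThrL_pow_le hz1 (by norm_num)
  unfold cA at h1
  unfold cB at h2
  rw [nm_le_iff]
  dsimp only at h3 ⊢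
  generalize (z : ℤ) ^ 1020 = A at *
  generalize (z : ℤ) ^ 1021 = B at *
  generalize (z : ℤ) ^ 1024 = D at *
  generalize (z : ℤ) ^ 40 = s at *
  obtain ⟨h5, h6⟩ := h4
  rw [abs_le] at h5 h6 h3
  have h7 : (S : ℤ) * (a - (p 0).1) ≤ (S : ℤ) * (2 * B) :=
    mul_le_mul_of_nonneg_left (by linarith [h5.1]) hS0
  constructor
  · rw [abs_le]
    constructor <;> linarith
  · rw [abs_le]
    constructor <;> linarith [h3.1, h3.2, h6.1, h6.2]

theorem ThrL_tel (F : ℕ → V) (n : ℕ) :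
    ∑ i ∈ Finset.range n, (F (i + 1) - F i) = F n - F 0 := Finset.sum_range_sub F n

theorem ThrL_W_tel (ω : Env) (p : ℕ → V) (t : ℕ → ℕ) (n : ℕ) (h : ∀ i < n, t i ≤ t (i + 1)) :
    t 0 ≤ t n ∧ ∑ i ∈ Finset.range n, W ω p (t i) (t (i + 1)) = W ω p (t 0) (t n) := by
  induction n with
  | zero => exact ⟨le_rfl, by simp [W]⟩
  | succ n ih =>
    obtain ⟨h1, h2⟩ := ih (fun i hi => h i (Nat.lt_succ_of_lt hi))
    have h3 := h n (Nat.lt_succ_self n)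
    exact ⟨h1.trans h3, by rw [Finset.sum_range_succ, h2, W_add ω p h1 h3]⟩

/-- the weights of a directed geodesic over the intervals are admissible thresholds -/
theorem thr_of_con (G : Measure ℝ) [IsProbabilityMeasure G] (hG : Law G) (S : ℕ) (hS : 1 ≤ S) :
    ∀ᶠ z : ℕ in atTop, ∀ (ω : Env) (p : ℕ → V) (k : ℕ), CON G z ω → Cls S z p k → Geo ω p k →
      Thr G z (ht p) (lamOf z ω p) := by
  obtain ⟨C, hC1, -, hC⟩ := moment_d G hG
  obtain ⟨C', hC'⟩ := exists_nat_ge C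
  filter_upwards [eventually_ge_atTop (4 * S + 4), eventually_ge_atTop C'] with z hz hzC ω p k
    hcon hc hgeo
  have hz1 : 1 ≤ z := by omega
  have hz2 : 2 ≤ z := by omega
  have hzz : (4 : ℤ) * S + 4 ≤ z := by exact_mod_cast hz
  have hS0 : (0 : ℤ) ≤ S := Int.natCast_nonneg S
  have hS1 : (1 : ℤ) ≤ S := by exact_mod_cast hS
  have hCz : C ≤ (z : ℝ) := hC'.trans (by exact_mod_cast hzC)
  have s1 : (1 : ℤ) ≤ (z : ℤ) ^ 40 := one_le_pow₀ (by exact_mod_cast hz1)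
  have hA : ∀ i, i ≤ z ^ 260 → cA z ≤ aC z i ∧ aC z i ≤ cB z := fun i hi => ThrL_aC_mem z hi
  have hB : ∀ i, i < z ^ 260 → cA z ≤ bC z i ∧ bC z i ≤ cB z := fun i hi =>
    ⟨(hA i hi.le).1.trans (ThrL_bC hz2 i).1, (ThrL_bC hz2 i).2.trans (hA (i + 1) hi).2⟩
  have part1 : ∀ i < z ^ 260, |ht p (aC z (i + 1)) - ht p (bC z i)| ≤ (z : ℤ) ^ 761 := by
    intro i hi
    obtain ⟨-, -, -, -, h⟩ := ThrL_two hc (hB i hi).1 (ThrL_bC hz2 i).2 (hA (i + 1) hi).2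
    have b1 : (S : ℤ) * (z : ℤ) ^ 760 ≤ (z : ℤ) ^ 761 :=
      ThrL_mul_pow_le hz1 (by linarith) (by norm_num)
    have e : aC z (i + 1) - bC z i = (z : ℤ) ^ 760 - (z : ℤ) ^ 40 - 1 := by
      rw [ThrL_aC_succ]
      unfold bC
      generalize (z : ℤ) ^ 760 = A
      generalize (z : ℤ) ^ 40 = s
      ring
    rw [e] at h
    refine h.trans (le_trans ?_ b1)
    generalize (z : ℤ) ^ 760 = A at *
    generalize (z : ℤ) ^ 40 = s at *
    have : s ≤ (S : ℤ) * s := le_mul_of_one_le_left (by linarith) hS1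
    linarith
  refine ⟨part1, ?_, ?_⟩
  · intro i hi
    obtain ⟨l1, l2, e1, e2, -⟩ := ThrL_two hc (hB i hi).1 (ThrL_bC hz2 i).2 (hA (i + 1) hi).2
    have hl : lamOf z ω p i = d ω (uL z (ht p) i) (uR z (ht p) i) := by
      unfold lamOf uL uR
      rw [hgeo.sub l1 l2, e1, e2]
    have hn : nm (uR z (ht p) i - uL z (ht p) i) ≤ (z : ℤ) ^ 761 := by
      rw [nm_le_iff]
      refine ⟨?_, part1 i hi⟩
      change |aC z (i + 1) - bC z i| ≤ _
      have b1 : (z : ℤ) ^ 760 ≤ (z : ℤ) ^ 761 := ThrL_pow_le hz1 (by norm_num)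
      have b2 := ThrL_bC hz2 i
      have b3 := ThrL_aC_succ z i
      rw [abs_of_nonneg (by linarith [b2.2])]
      linarith [b2.1]
    have h := ThrL_con hz1 hcon (x := uL z (ht p) i) (y := uR z (ht p) i)
      (ThrL_box hz hc (hB i hi).1 (hB i hi).2)
      (ThrL_box hz hc (hA (i + 1) hi).1 (hA (i + 1) hi).2) (a := 381) (by norm_num)
      (by norm_num) hn
    rw [hl]
    have h' := (abs_le.1 h).1
    change -(z : ℝ) ^ 382 ≤ _ at h'
    linarith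
  · set P : ℕ → V := fun i => (aC z i, ht p (aC z i)) with hP
    have hmono : ∀ i < z ^ 260, fi p (aC z i) ≤ fi p (aC z (i + 1)) := fun i hi =>
      (ThrL_two hc (hA i hi.le).1 (ThrL_aC_mono z (Nat.le_succ i)) (hA (i + 1) hi).2).1
    obtain ⟨-, hW⟩ := ThrL_W_tel ω p (fun i => fi p (aC z i)) (z ^ 260) hmono
    obtain ⟨l1, l2, e1, e2, hd⟩ := ThrL_two hc (hA 0 (Nat.zero_le _)).1
      (ThrL_aC_mono z (Nat.zero_le (z ^ 260))) (hA _ le_rfl).2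
    have hlam : ∑ i ∈ Finset.range (z ^ 260), lamOf z ω p i ≤ d ω (P 0) (P (z ^ 260)) := by
      have e3 : d ω (P 0) (P (z ^ 260)) = W ω p (fi p (aC z 0)) (fi p (aC z (z ^ 260))) := by
        rw [hgeo.sub l1 l2, e1, e2]
      rw [e3, ← hW]
      refine Finset.sum_le_sum fun i hi => ?_
      have hi' := Finset.mem_range.1 hi
      exact W_mono ω p (ThrL_two hc (hA i hi'.le).1 (ThrL_bC hz2 i).1 (hB i hi').2).1 le_rfl
    have hn : nm (P (z ^ 260) - P 0) ≤ (z : ℤ) ^ 1022 := by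
      have e : aC z (z ^ 260) - aC z 0 = (z : ℤ) ^ 1020 := by
        rw [ThrL_aC_top, ThrL_aC_zero]
        unfold cA cB
        generalize (z : ℤ) ^ 1020 = A
        ring
      have b1 : (z : ℤ) ^ 40 ≤ (z : ℤ) ^ 1020 := ThrL_pow_le hz1 (by norm_num)
      have b2 : ((S : ℤ) + 1) * (z : ℤ) ^ 1020 ≤ (z : ℤ) ^ 1022 :=
        ThrL_mul_pow_le hz1 (by linarith) (by norm_num)
      have b3 : (z : ℤ) ^ 1020 ≤ (z : ℤ) ^ 1022 := ThrL_pow_le hz1 (by norm_num)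
      have b4 : (0 : ℤ) ≤ (z : ℤ) ^ 1020 := by positivity
      rw [e] at hd
      rw [nm_le_iff]
      constructor
      · change |aC z (z ^ 260) - aC z 0| ≤ _
        rw [e, abs_of_nonneg b4]
        exact b3
      · change |ht p (aC z (z ^ 260)) - ht p (aC z 0)| ≤ _
        refine hd.trans (le_trans ?_ b2)
        rw [add_mul, one_mul]
        linarith
    have h := ThrL_con hz1 hcon (x := P 0) (y := P (z ^ 260))
      (ThrL_box hz hc (hA 0 (Nat.zero_le _)).1 (hA 0 (Nat.zero_le _)).2)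
      (ThrL_box hz hc (hA _ le_rfl).1 (hA _ le_rfl).2) (a := 511) (by norm_num)
      (by norm_num) hn
    have h' := (abs_le.1 h).2
    change _ ≤ (z : ℝ) ^ 512 at h'
    have hg1 : g G (P (z ^ 260) - P 0) ≤ ∑ i ∈ Finset.range (z ^ 260), g G (P (i + 1) - P i) := by
      rw [← ThrL_tel P (z ^ 260)]
      exact g_sum_le G hG _ _
    have hg2 : ∀ i ∈ Finset.range (z ^ 260), g G (P (i + 1) - P i) ≤
        g G (uR z (ht p) i - uL z (ht p) i) + (z : ℝ) ^ 42 := by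
      intro i hi
      have hi' := Finset.mem_range.1 hi
      have e : P (i + 1) - P i = (uR z (ht p) i - uL z (ht p) i) + (uL z (ht p) i - P i) := by
        change P (i + 1) - P i = (P (i + 1) - uL z (ht p) i) + (uL z (ht p) i - P i)
        rw [sub_add_sub_cancel]
      have hn2 : nm (uL z (ht p) i - P i) ≤ (z : ℤ) ^ 41 := by
        obtain ⟨-, -, -, -, h5⟩ := ThrL_two hc (hA i hi'.le).1 (ThrL_bC hz2 i).1 (hB i hi').2
        have e4 : bC z i - aC z i = (z : ℤ) ^ 40 + 1 := by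
          unfold bC
          generalize (z : ℤ) ^ 40 = s
          ring
        have b1 : (2 * (S : ℤ) + 1) * (z : ℤ) ^ 40 ≤ (z : ℤ) ^ 41 :=
          ThrL_mul_pow_le hz1 (by linarith) (by norm_num)
        have b2 : (2 : ℤ) * (z : ℤ) ^ 40 ≤ (z : ℤ) ^ 41 :=
          ThrL_mul_pow_le hz1 (by linarith) (by norm_num)
        rw [e4] at h5
        rw [nm_le_iff]
        constructor
        · change |bC z i - aC z i| ≤ _
          rw [e4, abs_of_nonneg (by linarith)]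
          linarith
        · change |ht p (bC z i) - ht p (aC z i)| ≤ _
          refine h5.trans (le_trans ?_ b1)
          generalize (z : ℤ) ^ 40 = s at *
          have : (S : ℤ) * 1 ≤ (S : ℤ) * s := mul_le_mul_of_nonneg_left s1 hS0
          linarith
      have hn3 : (nm (uL z (ht p) i - P i) : ℝ) ≤ (z : ℝ) ^ 41 := by exact_mod_cast hn2
      have b3 : C * (z : ℝ) ^ 41 ≤ (z : ℝ) ^ 42 := ThrL_rmul_pow_le hz1 hCz (by norm_num)
      have b4 := mul_le_mul_of_nonneg_left hn3 (by linarith : (0 : ℝ) ≤ C)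
      rw [e]
      refine (g_add_le G hG _ _).trans ?_
      have b5 := hC (uL z (ht p) i - P i)
      linarith
    have hg3 := Finset.sum_le_sum hg2
    rw [Finset.sum_add_distrib, Finset.sum_const, Finset.card_range, nsmul_eq_mul, Nat.cast_pow,
      ← pow_add] at hg3
    have b6 : (z : ℝ) ^ (260 + 42) ≤ (z : ℝ) ^ 512 := ThrL_rpow_le hz1 (by norm_num)
    have b7 : (2 : ℝ) * (z : ℝ) ^ 512 ≤ (z : ℝ) ^ 514 :=
      ThrL_rmul_pow_le hz1 (by exact_mod_cast hz2) (by norm_num)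
    rw [Finset.sum_sub_distrib]
    generalize (z : ℝ) ^ (260 + 42) = A at *
    generalize (z : ℝ) ^ 512 = B at *
    generalize (z : ℝ) ^ 514 = D at *
    linarith

/-- short distances -/
theorem short_of_con (G : Measure ℝ) [IsProbabilityMeasure G] (hG : Law G) :
    ∀ᶠ z : ℕ in atTop, ∀ ω : Env, CON G z ω → ∀ x y : V, nm x ≤ (z : ℤ) ^ 1024 →
      nm y ≤ (z : ℤ) ^ 1024 → nm (y - x) ≤ (z : ℤ) ^ 240 → d ω x y ≤ (z : ℝ) ^ 241 := by
  obtain ⟨C, hC1, -, hC⟩ := moment_d G hG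
  obtain ⟨C', hC'⟩ := exists_nat_ge (C + 1)
  filter_upwards [eventually_ge_atTop 1, eventually_ge_atTop C'] with z hz1 hzC ω hcon x y hx hy hxy
  have hCz : C + 1 ≤ (z : ℝ) := hC'.trans (by exact_mod_cast hzC)
  have h := ThrL_con hz1 hcon hx hy (a := 120) (by norm_num) (by norm_num) hxy
  have h' := (abs_le.1 h).2
  have b1 : (z : ℝ) ^ (120 + 1) ≤ (z : ℝ) ^ 240 := ThrL_rpow_le hz1 (by norm_num)
  have b2 : (C + 1) * (z : ℝ) ^ 240 ≤ (z : ℝ) ^ 241 := ThrL_rmul_pow_le hz1 hCz (by norm_num)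
  have b3 : (nm (y - x) : ℝ) ≤ (z : ℝ) ^ 240 := by exact_mod_cast hxy
  have b4 := mul_le_mul_of_nonneg_left b3 (by linarith : (0 : ℝ) ≤ C)
  have b5 := hC (y - x)
  rw [add_mul, one_mul] at b2
  linarith

end Pool.Agent.FPP
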