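import Pool.Agent.P.MP_ecb9f8_pr.Fresh3
import Pool.Agent.P.MP_ecb9f8_pr.ThrL
import Pool.Agent.P.MP_ecb9f8_pr.Harris
import Pool.Agent.P.MP_ecb9f8_pr.Events

open MeasureTheory ProbabilityTheory Set Filter

noncomputable section

namespace Pool.Agent.FPP

/-- `p` is strictly better than every other normalised walk with the same ends -/
def Best (p : ℕ → V) (k : ℕ) (ω : Env) : Prop :=
  ∀ (q : ℕ → V) (l : ℕ), q ∈ paths (p 0) l → q l = p k → (l ≠ k ∨ q ≠ p) → W ω p 0 k < W ω q 0 l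

theorem AttProb_W_congr {ω ω' : Env} {p : ℕ → V} {i j : ℕ}
    (h : ∀ t, i ≤ t → t < j → ω (ed p t) = ω' (ed p t)) : W ω p i j = W ω' p i j := by
  unfold W wt
  refine Finset.sum_congr rfl (fun t ht => ?_)
  rw [Finset.mem_Ico] at ht
  rw [h t ht.1 ht.2]

theorem AttProb_W_le {ω ω' : Env} (h : ∀ e, ω e ≤ ω' e) (p : ℕ → V) (i j : ℕ) :
    W ω p i j ≤ W ω' p i j := by
  unfold W wt
  exact Finset.sum_le_sum (fun t _ => max_le_max (h _) le_rfl)

theorem AttProb_lam_congr {ω ω' : Env} {p : ℕ → V} (z : ℕ)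
    (h : ∀ t, ω (ed p t) = ω' (ed p t)) : lamOf z ω p = lamOf z ω' p := by
  funext i
  unfold lamOf
  exact AttProb_W_congr (fun t _ _ => h t)

theorem AttProb_bad_of {L z : ℕ} {f : ℤ → ℤ} {Φ Φ' : Set E} {lam : ℕ → ℝ} {ω ω' : Env}
    (h : ∀ i < z ^ 260, Attr L z f Φ' (lam i) i ω' → Attr L z f Φ (lam i) i ω)
    (hb : Bad L z f Φ lam ω) : Bad L z f Φ' lam ω' := by
  classical
  unfold Bad at hb ⊢
  refine lt_of_le_of_lt (Finset.card_le_card ?_) hb
  intro i hi
  rw [Finset.mem_filter] at hi ⊢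
  exact ⟨hi.1, h i (Finset.mem_range.1 hi.1) hi.2⟩

theorem AttProb_meas_best (p : ℕ → V) (k : ℕ) : MeasurableSet {ω | Best p k ω} := by
  have : {ω | Best p k ω} = ⋂ l : ℕ, ⋂ q ∈ paths (p 0) l,
      {ω | q l = p k → (l ≠ k ∨ q ≠ p) → W ω p 0 k < W ω q 0 l} := by
    ext ω
    simp only [Best, mem_setOf_eq, mem_iInter]
    exact ⟨fun h l q hq => h q l hq, fun h q l hq => h l q hq⟩
  rw [this]
  refine MeasurableSet.iInter (fun l => ?_)
  refine Finset.measurableSet_biInter _ (fun q _ => ?_)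
  by_cases h1 : q l = p k
  · by_cases h2 : l ≠ k ∨ q ≠ p
    · simp only [h1, h2, forall_true_left]
      exact measurableSet_lt (measurable_W p 0 k) (measurable_W q 0 l)
    · simp [h2]
  · simp [h1]

theorem AttProb_edges (L z : ℕ) (f : ℤ → ℤ) :
    ∃ T : Finset E, ∀ i < z ^ 260, ∀ (q : ℕ → V) (l : ℕ), Comp L z f i q l → ∀ j < l,
      ed q j ∈ T := by
  classical
  refine ⟨(Finset.range (z ^ 260)).biUnion (fun i =>
    (Finset.Icc (f (bC z i) - (z : ℤ) ^ 240) (f (bC z i) + (z : ℤ) ^ 240)).biUnion (fun y =>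
      (Finset.range (L * z ^ 760 + 1)).biUnion (fun l =>
        (paths (bC z i, y) l).biUnion (fun q => (Finset.range l).image (ed q))))), ?_⟩
  intro i hi q l hq j hj
  obtain ⟨h1, h2, -, h4, h5, -⟩ := hq
  simp only [Finset.mem_biUnion, Finset.mem_range, Finset.mem_Icc, Finset.mem_image]
  refine ⟨i, hi, (q 0).2, ?_, l, by omega, fun t => q (min t l), ?_, j, hj, ?_⟩
  · rw [abs_le] at h5
    constructor <;> linarith [h5.1, h5.2]
  · have := norm_mem_paths h2
    rwa [show q 0 = (bC z i, (q 0).2) from Prod.ext h4 rfl] at this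
  · unfold ed
    simp only
    rw [min_eq_left hj.le, min_eq_left (by omega : j + 1 ≤ l)]

theorem AttProb_ne_diag {q : ℕ → V} {l j : ℕ} (hq : Chain q l) (hj : j < l) (v : V) :
    ed q j ≠ s(v, v) := by
  intro h
  have ha := hq j hj
  unfold ed at h
  have h1 : q j = v ∧ q (j + 1) = v := by
    rcases Sym2.eq_iff.1 h with h | h
    · exact h
    · exact h
  unfold Adj at ha
  rw [h1.1, h1.2] at ha
  simp at ha

theorem AttProb_geo_of_best {p : ℕ → V} {k : ℕ} {ω : Env} (hc : Chain p k) (hb : Best p k ω) :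
    Geo ω p k := by
  refine ⟨hc, le_antisymm ?_ (d_le_W ω hc (Nat.zero_le k) le_rfl)⟩
  refine le_d ω (fun q l hq h0 hl => ?_)
  have hm := norm_mem_paths hq
  have hW : W ω (fun t => q (min t l)) 0 l = W ω q 0 l :=
    W_congr ω (fun t ht => by simp only [min_eq_left ht])
  rw [← hW]
  by_cases h : l ≠ k ∨ (fun t => q (min t l)) ≠ p
  · exact (hb _ l (h0 ▸ hm) (by simpa using hl) h).le
  · push Not at h
    obtain ⟨h1, h2⟩ := h
    subst h1
    rw [h2]

theorem AttProb_best_of_geo {p : ℕ → V} {k : ℕ} {ω : Env} (hn : Nice ω)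
    (hp : p ∈ paths (p 0) k) (hg : Geo ω p k) : Best p k ω := by
  intro q l hq hl hne
  obtain ⟨c1, c2, c3⟩ := mem_paths.1 hq
  obtain ⟨-, -, b3⟩ := mem_paths.1 hp
  have h1 : d ω (q 0) (q l) ≤ W ω q 0 l := d_le_W ω c1 (Nat.zero_le l) le_rfl
  rw [c2, hl, ← hg.2] at h1
  refine lt_of_le_of_ne h1 (fun he => ?_)
  have hgq : Geo ω q l := ⟨c1, by rw [c2, hl, ← hg.2, he]⟩
  obtain ⟨e1, e2⟩ := hn.2.2 p k q l hg hgq c2.symm hl.symm
  subst e1
  rcases hne with h | h
  · exact h rfl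
  · apply h
    funext t
    rcases le_total t k with ht | ht
    · exact (e2 t ht).symm
    · rw [c3 t ht, b3 t ht, hl]

/-- Harris step for one walk -/
theorem best_bad_le (G : Measure ℝ) [IsProbabilityMeasure G] {S L z : ℕ} (hz : 2 ≤ z)
    {p : ℕ → V} {k : ℕ} (hp : Cls S z p k) :
    PP G ({ω | Best p k ω} ∩ {ω | Bad L z (ht p) {e | ∃ j < k, e = ed p j} (lamOf z ω p) ω}) ≤
      ∫⁻ ω in {ω | Best p k ω}, PP G {ω' | Bad L z (ht p) ∅ (lamOf z ω p) ω'} ∂(PP G) := by
  classical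
  obtain ⟨T, hT⟩ := AttProb_edges L z (ht p)
  obtain ⟨c1, -, c3⟩ := mem_paths.1 hp.1
  set S' : Finset E := T.filter (fun e => ∀ t, e ≠ ed p t) with hS'
  have hno : ∀ t, ed p t ∉ S' := fun t h => (Finset.mem_filter.1 h).2 t rfl
  refine le_trans (harris G S' (AttProb_meas_best p k) (measurableSet_Bad L z (ht p) _ p) ?_ ?_) ?_
  · intro ω hω e he x hx q l hq hl hne
    have h1 : W (Function.update ω e x) p 0 k = W ω p 0 k :=
      AttProb_W_congr (fun t _ _ => Function.update_of_ne (fun h => hno t (by rw [h]; exact he)) _ _)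
    have h2 : W ω q 0 l ≤ W (Function.update ω e x) q 0 l := by
      refine AttProb_W_le (fun e' => ?_) q 0 l
      by_cases h : e' = e
      · subst h; simpa using hx
      · rw [Function.update_of_ne h]
    rw [h1]
    exact lt_of_lt_of_le (hω q l hq hl hne) h2
  · intro ω hω e he x hx
    simp only [mem_setOf_eq] at hω ⊢
    have h1 : lamOf z (Function.update ω e x) p = lamOf z ω p :=
      AttProb_lam_congr z (fun t => Function.update_of_ne (fun h => hno t (by rw [h]; exact he)) _ _)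
    rw [h1]
    refine AttProb_bad_of (fun i _ ha q l hq hΦ => lt_of_lt_of_le (ha q l hq hΦ) ?_) hω
    refine AttProb_W_le (fun e' => ?_) q 0 l
    by_cases h : e' = e
    · subst h; simpa using hx
    · rw [Function.update_of_ne h]
  · refine lintegral_mono (fun ω => measure_mono (fun ω' hω' => ?_))
    simp only [mem_setOf_eq] at hω' ⊢
    have h1 : lamOf z (mix (S' : Set E) ω ω') p = lamOf z ω p := by
      refine AttProb_lam_congr z (fun t => ?_)
      unfold mix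
      rw [if_neg (by simpa using hno t)]
    rw [h1] at hω'
    refine AttProb_bad_of (fun i hi ha q l hq hΦ => ?_) hω'
    have h2 : W (mix (S' : Set E) ω ω') q 0 l = W ω' q 0 l := by
      refine AttProb_W_congr (fun j _ hj => ?_)
      unfold mix
      rw [if_pos]
      refine Finset.mem_coe.2 (Finset.mem_filter.2 ⟨hT i hi q l hq j hj, fun t h => ?_⟩)
      rcases lt_or_ge t k with ht | ht
      · exact hΦ j hj ⟨t, ht, h⟩
      · refine AttProb_ne_diag hq.2.1 hj (p k) ?_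
        rw [h]
        unfold ed
        rw [c3 t ht, c3 (t + 1) (by omega)]
    rw [h2]
    exact ha q l hq (fun _ _ h => h)

/-- the bound for fixed end points -/
theorem AttProb_ends (G : Measure ℝ) [IsProbabilityMeasure G] {S L z : ℕ} (hz : 2 ≤ z)
    (ε : ENNReal)
    (hthr : ∀ (ω : Env) (p : ℕ → V) (k : ℕ), CON G z ω → Cls S z p k → Geo ω p k →
      Thr G z (ht p) (lamOf z ω p))
    (hfr : ∀ (f : ℤ → ℤ) (lam : ℕ → ℝ), Thr G z f lam → PP G {ω | Bad L z f ∅ lam ω} ≤ ε)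
    (x y : V) :
    PP G {ω | ∃ (p : ℕ → V) (k : ℕ), Cls S z p k ∧ p 0 = x ∧ p k = y ∧ Best p k ω ∧
      Bad L z (ht p) {e | ∃ j < k, e = ed p j} (lamOf z ω p) ω} ≤
      PP G {ω | ¬ CON G z ω} + ε := by
  classical
  set J : Set (ℕ × (ℕ → V)) := {a | Cls S z a.2 a.1 ∧ a.2 0 = x ∧ a.2 a.1 = y} with hJ
  have hJc : J.Countable := by
    refine Set.Countable.mono (s₂ := ⋃ k : ℕ, (fun p => (k, p)) '' (paths x k : Set (ℕ → V))) ?_
      (Set.countable_iUnion (fun k => (Finset.countable_toSet _).image _))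
    rintro ⟨k, p⟩ ⟨h1, h2, -⟩
    refine mem_iUnion.2 ⟨k, p, ?_, rfl⟩
    have := h1.1
    simp only at h2 this
    rw [h2] at this
    exact this
  set C : Set Env := toMeasurable (PP G) {ω | ¬ CON G z ω} with hC
  have mC : MeasurableSet C := measurableSet_toMeasurable _ _
  have hsub : {ω | ∃ (p : ℕ → V) (k : ℕ), Cls S z p k ∧ p 0 = x ∧ p k = y ∧ Best p k ω ∧
      Bad L z (ht p) {e | ∃ j < k, e = ed p j} (lamOf z ω p) ω} ⊆
      ⋃ a ∈ J, ({ω | Best a.2 a.1 ω} ∩
        {ω | Bad L z (ht a.2) {e | ∃ j < a.1, e = ed a.2 j} (lamOf z ω a.2) ω}) := by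
    rintro ω ⟨p, k, h1, h2, h3, h4, h5⟩
    exact mem_biUnion (x := (k, p)) ⟨h1, h2, h3⟩ ⟨h4, h5⟩
  have hdisj : J.PairwiseDisjoint (fun a => {ω | Best a.2 a.1 ω}) := by
    rintro ⟨k, p⟩ ⟨h1, h2, h3⟩ ⟨l, q⟩ ⟨g1, g2, g3⟩ hne
    refine Set.disjoint_left.2 (fun ω ha hb => ?_)
    simp only [mem_setOf_eq] at ha hb h1 h2 h3 g1 g2 g3
    have hne1 : l ≠ k ∨ q ≠ p := by
      by_contra h
      push Not at h
      exact hne (by rw [h.1, h.2])
    have hne2 : k ≠ l ∨ p ≠ q := hne1.imp Ne.symm Ne.symm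
    have a1 := ha q l (by rw [h2, ← g2]; exact g1.1) (by rw [g3, h3]) hne1
    have a2 := hb p k (by rw [g2, ← h2]; exact h1.1) (by rw [g3, h3]) hne2
    exact lt_asymm a1 a2
  refine le_trans (measure_mono hsub) (le_trans (measure_biUnion_le _ hJc _) ?_)
  have hstep : ∀ a : J, PP G ({ω | Best a.1.2 a.1.1 ω} ∩
        {ω | Bad L z (ht a.1.2) {e | ∃ j < a.1.1, e = ed a.1.2 j} (lamOf z ω a.1.2) ω}) ≤
      ∫⁻ ω in {ω | Best a.1.2 a.1.1 ω}, (C.indicator 1 ω + ε) ∂(PP G) := by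
    rintro ⟨⟨k, p⟩, h1, h2, h3⟩
    simp only at h1 h2 h3 ⊢
    refine le_trans (best_bad_le G hz h1) (setLIntegral_mono' (AttProb_meas_best p k) ?_)
    intro ω hω
    by_cases hc : ω ∈ C
    · rw [Set.indicator_of_mem hc]
      exact le_trans prob_le_one le_self_add
    · have hcon : CON G z ω := by
        by_contra h
        exact hc (subset_toMeasurable _ _ h)
      have hg : Geo ω p k := AttProb_geo_of_best (mem_paths.1 h1.1).1 hω
      exact le_trans (hfr _ _ (hthr ω p k hcon h1 hg)) le_add_self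
  refine le_trans (ENNReal.tsum_le_tsum hstep) ?_
  rw [← lintegral_biUnion hJc (fun a _ => AttProb_meas_best a.2 a.1) hdisj]
  refine le_trans (setLIntegral_le_lintegral _ _) ?_
  rw [lintegral_add_right _ measurable_const, lintegral_indicator_one mC, lintegral_const,
    measure_univ, mul_one, hC, measure_toMeasurable]


theorem sp_nobad (G : Measure ℝ) [IsProbabilityMeasure G] (hG : Law G) (S L : ℕ) (hS : 1 ≤ S) :
    SP G (fun z => {ω | ¬ NoBad S L z ω}) := by
  classical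
  have key : SP G (fun z => ⋃ a ∈ ((Finset.Icc (-(z : ℤ) ^ 1022) ((z : ℤ) ^ 1022) ×ˢ
        Finset.Icc (-(z : ℤ) ^ 1022) ((z : ℤ) ^ 1022)) ×ˢ
      (Finset.Icc (-(z : ℤ) ^ 1022) ((z : ℤ) ^ 1022) ×ˢ
        Finset.Icc (-(z : ℤ) ^ 1022) ((z : ℤ) ^ 1022)) : Finset (V × V)),
      {ω | ∃ (p : ℕ → V) (k : ℕ), Cls S z p k ∧ p 0 = a.1 ∧ p k = a.2 ∧ Best p k ω ∧
        Bad L z (ht p) {e | ∃ j < k, e = ed p j} (lamOf z ω p) ω}) := by
    refine SP.biUnion _ _ (1023 * 4) ?_ ?_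
    · filter_upwards [eventually_ge_atTop 3] with z hz
      have h1 : (Finset.Icc (-(z : ℤ) ^ 1022) ((z : ℤ) ^ 1022)).card ≤ z ^ 1023 := by
        rw [Int.card_Icc]
        have h2 : z ^ 1023 = z * z ^ 1022 := by rw [pow_succ']
        have h3 : 1 ≤ z ^ 1022 := Nat.one_le_pow _ _ (by omega)
        rw [h2, ← Nat.cast_pow]
        generalize z ^ 1022 = A at h3 ⊢
        have : 3 * A ≤ z * A := Nat.mul_le_mul_right _ hz
        omega
      rw [Finset.card_product, Finset.card_product, pow_mul]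
      generalize (Finset.Icc (-(z : ℤ) ^ 1022) ((z : ℤ) ^ 1022)).card = c at h1 ⊢
      generalize z ^ 1023 = B at h1 ⊢
      calc c * c * (c * c) = c ^ 4 := by ring
        _ ≤ B ^ 4 := Nat.pow_le_pow_left h1 4
    · intro k
      filter_upwards [eventually_ge_atTop 2, thr_of_con G hG S hS, fresh G hG L (k + 1),
        sp_con hG (k + 1)] with z hz hthr hfr hcon
      intro a _
      refine le_trans (AttProb_ends G hz _ hthr hfr a.1 a.2) ?_
      refine le_trans (add_le_add hcon le_rfl) ?_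
      have hz0 : (0 : ℝ) < z := by exact_mod_cast (by omega : 0 < z)
      have hz2 : (2 : ℝ) ≤ z := by exact_mod_cast hz
      rw [← ENNReal.ofReal_add (by positivity) (by positivity)]
      refine ENNReal.ofReal_le_ofReal ?_
      have hk : (0 : ℝ) < (z : ℝ) ^ k := by positivity
      rw [pow_succ]
      generalize (z : ℝ) ^ k = A at hk ⊢
      rw [← two_mul, ← div_eq_mul_inv, ← one_div, div_le_div_iff₀ (by positivity) hk]
      nlinarith
  refine SP.mono (SP.union (SP.of_ae (ae_nice G hG)) key) ?_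
  filter_upwards [eventually_ge_atTop (4 * S + 6)] with z hz
  intro ω hω
  by_cases hn : Nice ω
  · right
    simp only [mem_setOf_eq, NoBad] at hω
    push Not at hω
    obtain ⟨p, k, h1, h2, h3⟩ := hω
    refine mem_biUnion (x := (p 0, p k)) ?_
      ⟨p, k, h1, rfl, rfl, AttProb_best_of_geo hn h1.1 h2, h3⟩
    obtain ⟨-, hd, ⟨hs1, -⟩, hb, -⟩ := h1
    have hd' := hd 0 k (Nat.zero_le k) le_rfl
    rw [nm_le_iff] at hs1
    have hz1 : (1 : ℤ) ≤ z := by exact_mod_cast (by omega : 1 ≤ z)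
    have hzS : (4 * S + 6 : ℤ) ≤ z := by exact_mod_cast hz
    have e1 : (z : ℤ) ^ 1022 = z * (z : ℤ) ^ 1021 := by rw [pow_succ']
    have e2 : (z : ℤ) ^ 1021 = z * (z : ℤ) ^ 1020 := by rw [pow_succ']
    have e3 : (z : ℤ) ^ 40 ≤ (z : ℤ) ^ 1021 := pow_le_pow_right₀ hz1 (by norm_num)
    have e4 : (0 : ℤ) ≤ (z : ℤ) ^ 1020 := by positivity
    have hS0 : (0 : ℤ) ≤ S := by positivity
    unfold cB at hb
    rw [hb] at hd'
    simp only [Finset.coe_product, Finset.coe_Icc, mem_prod, mem_Icc, ← abs_le]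
    rw [hb]
    generalize (z : ℤ) ^ 1022 = A at e1 ⊢
    generalize (z : ℤ) ^ 1021 = B at e1 e2 e3 hs1
    generalize (z : ℤ) ^ 1020 = D at e2 e4 hd' ⊢
    generalize (z : ℤ) ^ 40 = F at e3 hd'
    have f1 : 3 * D ≤ B := by nlinarith
    have f2 : (4 * S + 6) * B ≤ A := by nlinarith
    have f0 : 0 ≤ B := by linarith
    have f3 : 0 ≤ S * B := mul_nonneg hS0 f0
    have f4 : (S : ℤ) * (3 * D - (p 0).1) ≤ S * (2 * B) :=
      mul_le_mul_of_nonneg_left (by linarith [(abs_le.1 hs1.1).1]) hS0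
    have f5 : |(p k).2| ≤ |(p k).2 - (p 0).2| + |(p 0).2| := by
      simpa using abs_add_le ((p k).2 - (p 0).2) (p 0).2
    refine ⟨⟨by nlinarith [hs1.1], by nlinarith [hs1.2]⟩, ?_, by nlinarith [hs1.2]⟩
    rw [abs_of_nonneg (by linarith)]
    nlinarith
  · left
    exact hn

end Pool.Agent.FPP
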