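import Pool.Agent.P.MP_ecb9f8_pr.Defs2

open MeasureTheory ProbabilityTheory Set Filter

noncomputable section

namespace Pool.Agent.FPP

theorem mem_tubeH {a b : ℤ} {lo hi : ℤ → ℤ} {e : E} :
    e ∈ TubeH a b lo hi ↔ ∃ x y : ℤ, a < x ∧ x ≤ b ∧ lo x ≤ y ∧ y ≤ hi x ∧
      e = s(((x - 1, y) : V), ((x, y) : V)) := by
  simp only [TubeH, Finset.mem_biUnion, Finset.mem_image, Finset.mem_Ioc, Finset.mem_Icc]
  exact ⟨fun ⟨x, ⟨h1, h2⟩, y, ⟨h3, h4⟩, h5⟩ => ⟨x, y, h1, h2, h3, h4, h5.symm⟩,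
    fun ⟨x, y, h1, h2, h3, h4, h5⟩ => ⟨x, ⟨h1, h2⟩, y, ⟨h3, h4⟩, h5.symm⟩⟩

theorem mem_band {κ : ℝ} {a b : ℤ} {lo hi : ℝ} {e : E} :
    e ∈ Band κ a b lo hi ↔ ∃ x y : ℤ, a < x ∧ x ≤ b ∧ lo ≤ lat κ (rv (x, y)) ∧
      lat κ (rv (x, y)) ≤ hi ∧ e = s(((x - 1, y) : V), ((x, y) : V)) := by
  simp only [Band, mem_tubeH, Int.ceil_le, Int.le_floor, lat, rv, le_sub_iff_add_le',
    sub_le_iff_le_add']

theorem mem_seg {κ : ℝ} {a : ℤ} {lo hi : ℝ} {v : V} :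
    v ∈ Seg κ a lo hi ↔ v.1 = a ∧ lo ≤ lat κ (rv v) ∧ lat κ (rv v) ≤ hi := by
  simp only [Seg, Finset.mem_image, Finset.mem_Icc, Int.ceil_le, Int.le_floor, lat, rv,
    le_sub_iff_add_le', sub_le_iff_le_add']
  constructor
  · rintro ⟨y, h, rfl⟩
    exact ⟨rfl, h⟩
  · rintro ⟨rfl, h⟩
    exact ⟨v.2, h, rfl⟩

theorem card_tubeH_le {a b : ℤ} {lo hi : ℤ → ℤ} {n w : ℕ} (hn : b - a ≤ (n : ℤ))
    (hw : ∀ x, hi x - lo x + 1 ≤ (w : ℤ)) : (TubeH a b lo hi).card ≤ n * w := by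
  classical
  unfold TubeH
  refine (Finset.card_biUnion_le_card_mul _ _ w fun x _ => Finset.card_image_le.trans ?_).trans
    (Nat.mul_le_mul_right w ?_)
  · rw [Int.card_Icc]
    have := hw x
    omega
  · rw [Int.card_Ioc]
    omega

theorem card_band_le {κ : ℝ} {a b : ℤ} {lo hi : ℝ} {n w : ℕ} (hn : b - a ≤ (n : ℤ))
    (hw : hi - lo + 1 ≤ (w : ℝ)) : (Band κ a b lo hi).card ≤ n * w := by
  refine card_tubeH_le hn fun x => ?_
  have h1 := Int.floor_le (κ * x + hi)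
  have h2 := Int.le_ceil (κ * x + lo)
  have h3 : ((⌊κ * x + hi⌋ - ⌈κ * x + lo⌉ + 1 : ℤ) : ℝ) ≤ ((w : ℤ) : ℝ) := by
    push_cast
    linarith
  exact_mod_cast h3

theorem card_seg_le {κ : ℝ} {a : ℤ} {lo hi : ℝ} {w : ℕ} (hw : hi - lo + 1 ≤ (w : ℝ)) :
    (Seg κ a lo hi).card ≤ w := by
  refine Finset.card_image_le.trans ?_
  have h1 := Int.floor_le (κ * a + hi)
  have h2 := Int.le_ceil (κ * a + lo)
  have h3 : ((⌊κ * a + hi⌋ - ⌈κ * a + lo⌉ + 1 : ℤ) : ℝ) ≤ ((w : ℤ) : ℝ) := by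
    push_cast
    linarith
  have h4 : ⌊κ * a + hi⌋ - ⌈κ * a + lo⌉ + 1 ≤ (w : ℤ) := by exact_mod_cast h3
  rw [Int.card_Icc]
  omega

open Classical in
/-- the first visits give different edges of the tube -/
theorem tube_count {q : ℕ → V} {l : ℕ} (hq : Chain q l) {a b : ℤ} (h0 : (q 0).1 ≤ a)
    (hl : b ≤ (q l).1) (lo hi : ℤ → ℤ) :
    ((Finset.Ioc a b).filter (fun x => lo x ≤ ht q x ∧ ht q x ≤ hi x)).card ≤
      ((Finset.range l).filter (fun j => ed q j ∈ TubeH a b lo hi)).card := by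
  refine Finset.card_le_card_of_injOn (fun x => fi q x - 1) (fun x hx => ?_) fun x hx y hy e => ?_
  · obtain ⟨h1, h2, h3⟩ := Finset.mem_filter.1 hx
    obtain ⟨h4, h5⟩ := Finset.mem_Ioc.1 h1
    obtain ⟨a1, a2, a3, a4, -⟩ := hq.fi_spec (h0.trans_lt h4) (h5.trans hl)
    refine Finset.mem_filter.2 ⟨Finset.mem_range.2 (by show fi q x - 1 < l; omega),
      mem_tubeH.2 ⟨x, ht q x, h4, h5, h2, h3, ?_⟩⟩
    rw [ed, Nat.sub_add_cancel a2, a3, a4]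
  · obtain ⟨h4, h5⟩ := Finset.mem_Ioc.1 (Finset.mem_filter.1 hx).1
    obtain ⟨h6, h7⟩ := Finset.mem_Ioc.1 (Finset.mem_filter.1 hy).1
    have a4 := (hq.fi_spec (h0.trans_lt h4) (h5.trans hl)).2.2.2.1
    have b4 := (hq.fi_spec (h0.trans_lt h6) (h7.trans hl)).2.2.2.1
    have e' : fi q x - 1 = fi q y - 1 := e
    rw [e', b4] at a4
    have := congrArg Prod.fst a4
    simp only at this
    omega

open Classical in
/-- the window of a walk between the first visits to the columns `a` and `a + n` -/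
theorem band_window {κ : ℝ} {p : ℕ → V} {k : ℕ} (hp : Chain p k) {a : ℤ} {n : ℕ}
    (h0 : (p 0).1 < a) (hk : a + n ≤ (p k).1) {lo hi : ℝ}
    (h : ∀ j ≤ fi p (a + n), a ≤ (p j).1 → lo ≤ lat κ (rv (p j)) ∧ lat κ (rv (p j)) ≤ hi) :
    fi p a ≤ fi p (a + n) ∧ fi p (a + n) ≤ k ∧ p (fi p a) ∈ Seg κ a lo hi ∧
      n ≤ ((Finset.range (fi p (a + n) - fi p a)).filter
        (fun j => ed (fun t => p (fi p a + t)) j ∈ Band κ a (a + n) lo hi)).card := by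
  have m : ∀ x y, a ≤ x → x ≤ y → y ≤ a + n → fi p x ≤ fi p y := fun x y h1 h2 h3 => by
    rcases h2.eq_or_lt with rfl | h4
    · exact le_rfl
    · exact (hp.fi_lt (h0.trans_le h1) h4 (h3.trans hk)).le
  have hn : a ≤ a + n := by omega
  have a3 := (hp.fi_spec h0 (hn.trans hk)).2.2.1
  have a6 : (p (fi p a)).1 = a := congrArg Prod.fst a3
  refine ⟨m _ _ le_rfl hn le_rfl, (hp.fi_spec (h0.trans_le hn) hk).1,
    mem_seg.2 ⟨a6, h _ (m _ _ le_rfl hn le_rfl) a6.ge⟩, ?_⟩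
  have hc : (Finset.Ioc a (a + n)).card = n := by
    rw [Int.card_Ioc]
    omega
  refine hc.ge.trans (Finset.card_le_card_of_injOn (fun x => fi p x - 1 - fi p a)
    (fun x hx => ?_) fun x hx y hy e => ?_)
  · obtain ⟨h4, h5⟩ := Finset.mem_Ioc.1 hx
    obtain ⟨-, -, b3, b4, -⟩ := hp.fi_spec (h0.trans h4) (h5.trans hk)
    have b5 := hp.fi_lt h0 h4 (h5.trans hk)
    have b6 := m _ _ h4.le h5 le_rfl
    have b7 := h _ b6 (by rw [b3]; exact h4.le)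
    rw [b3] at b7
    refine Finset.mem_filter.2 ⟨Finset.mem_range.2
      (by show fi p x - 1 - fi p a < fi p (a + n) - fi p a; omega),
      mem_band.2 ⟨x, ht p x, h4, h5, b7.1, b7.2, ?_⟩⟩
    show s(p (fi p a + (fi p x - 1 - fi p a)), p (fi p a + (fi p x - 1 - fi p a + 1))) = _
    rw [show fi p a + (fi p x - 1 - fi p a) = fi p x - 1 by omega,
      show fi p a + (fi p x - 1 - fi p a + 1) = fi p x by omega, b3, b4]
  · obtain ⟨h4, h5⟩ := Finset.mem_Ioc.1 hx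
    obtain ⟨h6, h7⟩ := Finset.mem_Ioc.1 hy
    have b3 := (hp.fi_spec (h0.trans h4) (h5.trans hk)).2.2.1
    have c3 := (hp.fi_spec (h0.trans h6) (h7.trans hk)).2.2.1
    have b5 := hp.fi_lt h0 h4 (h5.trans hk)
    have c5 := hp.fi_lt h0 h6 (h7.trans hk)
    have e' : fi p x - 1 - fi p a = fi p y - 1 - fi p a := e
    rw [show fi p x = fi p y by omega, c3] at b3
    exact (congrArg Prod.fst b3).symm

theorem Chain.la_spec {p : ℕ → V} {k : ℕ} (hp : Chain p k) {a b : ℤ} (h0 : (p 0).1 < a)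
    (hab : a < b) (hk : b ≤ (p k).1) :
    fi p a ≤ la p a b ∧ la p a b < fi p b ∧ (p (la p a b)).1 = a ∧
      ∀ j, la p a b < j → j < fi p b → a < (p j).1 ∧ (p j).1 < b := by
  classical
  have a3 := (hp.fi_spec h0 (hab.le.trans hk)).2.2.1
  obtain ⟨b1, -, b3, -, b5⟩ := hp.fi_spec (h0.trans hab) hk
  have a6 : (p (fi p a)).1 = a := congrArg Prod.fst a3
  have b6 : (p (fi p b)).1 = b := congrArg Prod.fst b3
  have c1 := (hp.fi_lt h0 hab hk).le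
  have c2 : ∀ t ≤ fi p b, (p t).1 = a → t ≤ la p a b := fun t h1 h2 => by
    unfold la
    exact Nat.le_findGreatest h1 h2
  have c3 : (p (la p a b)).1 = a := by
    unfold la
    exact Nat.findGreatest_spec (P := fun j => (p j).1 = a) c1 a6
  have c4 : la p a b ≤ fi p b := by
    unfold la
    exact Nat.findGreatest_le _
  refine ⟨c2 _ c1 a6, lt_of_le_of_ne c4 fun e => ?_, c3, fun j h1 h2 => ⟨?_, b5 j h2⟩⟩
  · rw [e, b6] at c3
    exact hab.ne' c3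
  · by_contra h3
    obtain ⟨t, t1, t2, t3, -⟩ := hp.ivt Prod.fst (fun u v huv => by
      have := (abs_fst_le_nm _).trans huv.nm_le
      rw [Prod.fst_sub] at this
      linarith [le_abs_self (v.1 - u.1)]) h2.le b1 (not_lt.1 h3) (by rw [b6]; exact hab.le)
    have := c2 t t2 t3
    omega

theorem la_congr {p q : ℕ → V} {k : ℕ} (hp : Chain p k) (hq : ∀ t ≤ k, p t = q t) {a b : ℤ}
    (h0 : (p 0).1 < b) (hk : b ≤ (p k).1) : la q a b = la p a b := by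
  classical
  have key : ∀ n ≤ k, Nat.findGreatest (fun j => (q j).1 = a) n =
      Nat.findGreatest (fun j => (p j).1 = a) n := fun n hn => by
    induction n with
    | zero => rfl
    | succ n ih => rw [Nat.findGreatest_succ, Nat.findGreatest_succ, ih (by omega), hq _ hn]
  unfold la
  rw [(fi_congr hp hq h0 hk).1]
  convert key _ (hp.fi_spec h0 hk).1

theorem aR_succ (ζ o i : ℕ) : aR ζ o (i + 1) = aR ζ o i + (ζ : ℤ) ^ 30000 := by
  unfold aR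
  generalize (ζ : ℤ) ^ 30000 = A
  push_cast
  ring

theorem aR_range {ζ o i : ℕ} (ho : o < ζ ^ 30000) (hi : i ≤ ζ ^ 90000) :
    TT ζ ≤ aR ζ o i ∧ aR ζ o i ≤ 2 * TT ζ + (ζ : ℤ) ^ 30000 := by
  have h1 : (o : ℤ) < (ζ : ℤ) ^ 30000 := by
    rw [← Nat.cast_pow]
    exact Nat.cast_lt.2 ho
  have h2 : (i : ℤ) ≤ (ζ : ℤ) ^ 90000 := by
    rw [← Nat.cast_pow]
    exact Nat.cast_le.2 hi
  have h3 : TT ζ = (ζ : ℤ) ^ 90000 * (ζ : ℤ) ^ 30000 := by rw [← pow_add]; rfl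
  have h4 : (0 : ℤ) ≤ (ζ : ℤ) ^ 30000 := pow_nonneg (Nat.cast_nonneg ζ) _
  have h5 := mul_le_mul_of_nonneg_right h2 h4
  have h6 := mul_nonneg (Nat.cast_nonneg i : (0 : ℤ) ≤ i) h4
  have h7 : (0 : ℤ) ≤ o := Nat.cast_nonneg o
  rw [← h3] at h5
  unfold aR
  generalize (ζ : ℤ) ^ 30000 = A at *
  constructor <;> linarith

/-- the pieces of a walk that reaches column `3 T` -/
theorem piece_spec {ζ o i : ℕ} (hz : 2 ≤ ζ) (ho : o < ζ ^ 30000) (hi : i < ζ ^ 90000)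
    {p : ℕ → V} {k : ℕ} (hp : Chain p k) (h0 : nm (p 0) ≤ (ζ : ℤ)) (hk : (p k).1 = 3 * TT ζ) :
    fi p (aR ζ o i) ≤ sR ζ o p i ∧ sR ζ o p i < eR ζ o p i ∧ eR ζ o p i ≤ k3 ζ p ∧ k3 ζ p ≤ k ∧
      p (fi p (aR ζ o i)) = (aR ζ o i, ht p (aR ζ o i)) ∧
      (p (sR ζ o p i)).1 = aR ζ o i ∧
      p (eR ζ o p i) = (aR ζ o (i + 1), ht p (aR ζ o (i + 1))) ∧
      ∀ j, sR ζ o p i < j → j < eR ζ o p i → aR ζ o i < (p j).1 ∧ (p j).1 < aR ζ o (i + 1) := by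
  have z1 : (1 : ℤ) < ζ := by exact_mod_cast hz
  have z2 : (ζ : ℤ) ^ 1 < TT ζ := pow_lt_pow_right₀ z1 (by norm_num : 1 < 120000)
  have z3 : (ζ : ℤ) ^ 30000 ≤ TT ζ := pow_le_pow_right₀ z1.le (by norm_num : 30000 ≤ 120000)
  have z4 : (0 : ℤ) < (ζ : ℤ) ^ 30000 := pow_pos (zero_lt_one.trans z1) _
  rw [pow_one] at z2
  have r1 := (aR_range ho hi.le).1
  have r2 := (aR_range ho (Nat.succ_le_of_lt hi)).2
  have r3 := aR_succ ζ o i
  have p0 : (p 0).1 ≤ ζ := (le_abs_self _).trans ((abs_fst_le_nm _).trans h0)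
  have q1 : (p 0).1 < aR ζ o i := (p0.trans_lt z2).trans_le r1
  have q2 : aR ζ o i < aR ζ o (i + 1) := r3 ▸ lt_add_of_pos_right _ z4
  have q3 : aR ζ o (i + 1) ≤ 3 * TT ζ := by
    refine r2.trans ?_
    generalize (ζ : ℤ) ^ 30000 = A at z3
    linarith
  have q4 := q3.trans hk.ge
  obtain ⟨l1, l2, l3, l4⟩ := hp.la_spec q1 q2 q4
  refine ⟨l1, l2, ?_, (hp.fi_spec ((q1.trans q2).trans_le q3) hk.ge).1,
    (hp.fi_spec q1 (q2.le.trans q4)).2.2.1, l3, (hp.fi_spec (q1.trans q2) q4).2.2.1, l4⟩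
  rcases q3.eq_or_lt with e | e
  · exact (congrArg (fi p) e).le
  · exact (hp.fi_lt (q1.trans q2) e hk.ge).le

theorem Conf.edge_mem {u v : V} {r : ℤ} {q : ℕ → V} {l : ℕ} (h : Conf u v r q l)
    (huv : u.1 + 2 ≤ v.1) {j : ℕ} (hj : j < l) : ed q j ∈ Reg u.1 v.1 := by
  obtain ⟨h1, h2, -, h4, -, h6⟩ := h
  have a : ∀ t ≤ l, u.1 ≤ (q t).1 ∧ (q t).1 ≤ v.1 := fun t ht => by
    rcases Nat.eq_zero_or_pos t with rfl | h7
    · omega
    rcases ht.eq_or_lt with rfl | h8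
    · omega
    · have := h6 t h7 h8
      omega
  refine ⟨fun w hw => ?_, ?_⟩
  · rcases Sym2.mem_iff.1 hw with rfl | rfl
    · exact a j hj.le
    · exact a (j + 1) hj
  rcases Nat.eq_zero_or_pos j with rfl | h7
  · refine ⟨q 1, Sym2.mem_mk_right _ _, h6 1 one_pos (lt_of_le_of_ne hj fun e => ?_)⟩
    subst e
    have := (abs_fst_le_nm _).trans (h1 0 one_pos).nm_le
    rw [Prod.fst_sub, h2, zero_add, h4] at this
    linarith [le_abs_self (v.1 - u.1)]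
  · exact ⟨q j, Sym2.mem_mk_left _ _, h6 j h7 hj⟩

theorem reg_disjoint {a b a' b' : ℤ} (h : b ≤ a') : Disjoint (Reg a b) (Reg a' b') := by
  refine Set.disjoint_left.2 fun e h1 h2 => ?_
  obtain ⟨v, hv, -, h3⟩ := h1.2
  have := (h2.1 v hv).1
  omega

theorem fam_conf (u v : V) (r : ℤ) : Fam (Conf u v r) := by
  refine ⟨fun q l h => h.1, fun q q' l e ⟨h1, h2, h3, h4, h5, h6⟩ => ?_⟩
  rw [e 0 (Nat.zero_le l)] at h2 h3
  rw [e l le_rfl] at h4 h5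
  refine ⟨fun i hi => ?_, h2, h3, h4, h5, fun j a b => ?_⟩
  · rw [← e i hi.le, ← e (i + 1) hi]
    exact h1 i hi
  · rw [← e j b.le]
    exact h6 j a b

theorem fam_comp3 (tb : Bool) (L ζ : ℕ) (r : ℤ) (o : ℕ) (p : ℕ → V) (i : ℕ) :
    Fam (Comp3 tb L ζ r o p i) := by
  refine ⟨fun q l h => h.2.2.1.1, fun q q' l e ⟨h1, h2, h3, h4⟩ =>
    ⟨h1, fun a ha b hb h => ?_, (fam_conf _ _ _).2 q q' l e h3, fun ht => (h4 ht).trans ?_⟩⟩
  · exact h2 a ha b hb (by rw [e a ha, e b hb, h])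
  · refine Nat.mul_le_mul_left 2 (Finset.card_le_card fun j hj => ?_)
    obtain ⟨a, b⟩ := Finset.mem_filter.1 hj
    have c := Finset.mem_range.1 a
    refine Finset.mem_filter.2 ⟨a, ?_⟩
    rwa [ed, ← e j c.le, ← e (j + 1) c]

end Pool.Agent.FPP
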