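import Pool.Agent.P.MP_ecb9f8_pr.Path2
import Pool.Agent.P.MP_ecb9f8_pr.Path3

open MeasureTheory ProbabilityTheory Set Filter

noncomputable section

namespace Pool.Agent.FPP

/-- one step: a piece of a piece in the cone `j` lies in the cone `j + 1` -/
theorem cone_step {N : Seminorm ℝ (ℝ × ℝ)} {c : ℝ} {σ : ℕ → ℝ} (hc : Cone N c σ) {j : ℕ}
    (hj : j < 130) {u a v : ℝ × ℝ} {r : ℝ} (hY : |(u + a + v).2| ≤ σ j * (u + a + v).1)
    (hex : N u + N a + N v - N (u + a + v) < c * r) (h1 : r ≤ ‖a‖) (h2 : r ≤ ‖u + a + v‖) :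
    |a.2| ≤ σ (j + 1) * a.1 := by
  by_contra hcon
  push Not at hcon
  obtain ⟨hc0, -, -, hcone⟩ := hc
  have h3 := hcone j hj (u + a + v) a hY hcon.le
  have h4 : N (u + v) ≤ N u + N v := map_add_le_add N u v
  have h5 : N ((u + a + v + a) + (u + v)) ≤ N (u + a + v + a) + N (u + v) := map_add_le_add N _ _
  have h6 : (u + a + v + a) + (u + v) = (2 : ℝ) • (u + a + v) := by
    rw [two_smul]; abel
  have h7 : N ((2 : ℝ) • (u + a + v)) = 2 * N (u + a + v) := by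
    rw [map_smul_eq_mul]; norm_num
  rw [h6, h7] at h5
  have h8 : r ≤ min ‖u + a + v‖ ‖a‖ := le_min h2 h1
  have h9 : c * r ≤ c * min ‖u + a + v‖ ‖a‖ := mul_le_mul_of_nonneg_left h8 hc0.le
  linarith

theorem DirL_z_ge {N : Seminorm ℝ (ℝ × ℝ)} {c : ℝ} {σ : ℕ → ℝ} {S Λ z : ℕ}
    (hP : Par N c σ S Λ z) : 200 ≤ z ∧ S + 1 ≤ z ∧ 100 * Λ ≤ z := by
  obtain ⟨-, -, hS, hL, hz, -, -⟩ := hP
  refine ⟨?_, ?_, ?_⟩
  · nlinarith
  · nlinarith
  · nlinarith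

/-- excess of three consecutive pieces of a geodesic -/
theorem DirL_exc {N : Seminorm ℝ (ℝ × ℝ)} {z : ℕ} {ω : Env} (happ : APP N z ω) {p : ℕ → V}
    {k : ℕ} (hg : Geo ω p k) (hbox : ∀ i ≤ k, nm (p i) ≤ (z : ℤ) ^ 1024)
    {i' i j j' X : ℕ} (h1 : i' ≤ i) (h2 : i ≤ j) (h3 : j ≤ j') (h4 : j' ≤ k) (hX : z ≤ X)
    (b1 : nm (p i - p i') ≤ (X : ℤ) ^ 8) (b2 : nm (p j - p i) ≤ (X : ℤ) ^ 8)
    (b3 : nm (p j' - p j) ≤ (X : ℤ) ^ 8) (b4 : nm (p j' - p i') ≤ (X : ℤ) ^ 8) :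
    N (rv (p i - p i')) + N (rv (p j - p i)) + N (rv (p j' - p j)) - N (rv (p j' - p i'))
      ≤ 4 * ((z : ℝ) * (X : ℝ) ^ 6) := by
  have e1 := abs_le.1 (happ (p i') (p i) (hbox _ (by omega)) (hbox _ (by omega)) X hX b1)
  have e2 := abs_le.1 (happ (p i) (p j) (hbox _ (by omega)) (hbox _ (by omega)) X hX b2)
  have e3 := abs_le.1 (happ (p j) (p j') (hbox _ (by omega)) (hbox _ (by omega)) X hX b3)
  have e4 := abs_le.1 (happ (p i') (p j') (hbox _ (by omega)) (hbox _ (by omega)) X hX b4)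
  have o1 : On ω (p i') (p i) (p j') := hg.add h1 (by omega) h4
  have o2 : On ω (p i) (p j) (p j') := hg.add h2 h3 h4
  unfold On at o1 o2
  linarith [e1.1, e2.1, e3.1, e4.2]

theorem DirL_sum (a b c e : V) : rv (b - a) + rv (c - b) + rv (e - c) = rv (e - a) := by
  rw [← rv_add, ← rv_add]; congr 1; abel

/-- the cone step along a geodesic -/
theorem DirL_step {N : Seminorm ℝ (ℝ × ℝ)} {c : ℝ} {σ : ℕ → ℝ} (hc : Cone N c σ) {z : ℕ}
    {ω : Env} (happ : APP N z ω) {p : ℕ → V}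
    {k : ℕ} (hg : Geo ω p k) (hbox : ∀ i ≤ k, nm (p i) ≤ (z : ℤ) ^ 1024)
    {i' i j j' X : ℕ} (h1 : i' ≤ i) (h2 : i ≤ j) (h3 : j ≤ j') (h4 : j' ≤ k) (hX : z ≤ X)
    (b1 : nm (p i - p i') ≤ (X : ℤ) ^ 8) (b2 : nm (p j - p i) ≤ (X : ℤ) ^ 8)
    (b3 : nm (p j' - p j) ≤ (X : ℤ) ^ 8) (b4 : nm (p j' - p i') ≤ (X : ℤ) ^ 8)
    {n : ℕ} (hn : n < 130) {r : ℤ} (hr : 4 * ((z : ℝ) * (X : ℝ) ^ 6) < c * (r : ℝ))
    (r1 : r ≤ nm (p j - p i)) (r2 : r ≤ nm (p j' - p i'))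
    (hY : |(rv (p j' - p i')).2| ≤ σ n * (rv (p j' - p i')).1) :
    |(rv (p j - p i)).2| ≤ σ (n + 1) * (rv (p j - p i)).1 := by
  have hs := DirL_sum (p i') (p i) (p j) (p j')
  have hexc := DirL_exc happ hg hbox h1 h2 h3 h4 hX b1 b2 b3 b4
  refine cone_step (u := rv (p i - p i')) (v := rv (p j' - p j)) (r := (r : ℝ)) hc hn ?_ ?_ ?_ ?_
  · rw [hs]; exact hY
  · rw [hs]; linarith
  · rw [norm_rv]; exact_mod_cast r1
  · rw [hs, norm_rv]; exact_mod_cast r2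

/-- enlarging an interval of a walk to a prescribed displacement -/
theorem DirL_enlarge {p : ℕ → V} {k : ℕ} (hc : Chain p k) {L : ℤ} (hL : L ≤ nm (p k - p 0))
    {i j : ℕ} (hij : i ≤ j) (hjk : j ≤ k) (hs : nm (p j - p i) < L) :
    ∃ i' j', i' ≤ i ∧ j ≤ j' ∧ j' ≤ k ∧ nm (p j' - p i') = L ∧ nm (p i - p i') ≤ 2 * L ∧
      nm (p j' - p j) ≤ 2 * L := by
  have hL0 : 0 ≤ L := le_trans (nm_nonneg _) hs.le
  by_cases hA : L ≤ nm (p k - p i)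
  · obtain ⟨t, ht1, ht2, ht3, -⟩ := hc.ivt (fun v => nm (v - p i))
      (fun a b hab => by
        have := nm_tri (p i) a b
        have := hab.nm_le
        linarith) hjk le_rfl hs.le hA
    refine ⟨i, t, le_rfl, ht1, ht2, ht3, ?_, ?_⟩
    · have : nm (p i - p i) = 0 := by simp [nm]
      linarith
    · have h1 := nm_tri (p j) (p i) (p t)
      rw [nm_sub_comm (p i) (p j)] at h1
      linarith
  · push Not at hA
    have hk : k - (k - i) = i := by omega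
    obtain ⟨t, ht1, ht2, ht3, -⟩ := hc.rev.ivt (fun v => nm (p k - v))
      (fun a b hab => by
        have h1 := nm_tri b a (p k)
        have h2 := hab.nm_le
        rw [nm_sub_comm a b] at h1
        linarith) (i := k - i) (j := k) (a := L) (by omega) le_rfl
      (by simp only [hk]; exact hA.le) (by simpa using hL)
    refine ⟨k - t, k, by omega, hjk, le_rfl, ht3, ?_, ?_⟩
    · have h1 := nm_tri (p (k - t)) (p k) (p i)
      rw [nm_sub_comm (p i) (p k)] at h1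
      linarith
    · have h1 := nm_tri (p j) (p i) (p k)
      rw [nm_sub_comm (p i) (p j)] at h1
      linarith

theorem DirL_err {c : ℝ} {z : ℕ} (hz : 200 ≤ z) (hcz : 100 ≤ c * z) {a b e : ℕ}
    (h : 6 * a + 1 ≤ e) (hb : b = e + 1) :
    4 * ((z : ℝ) * (((z ^ a : ℕ) : ℝ)) ^ 6) < c * (((z : ℤ) ^ b : ℤ) : ℝ) := by
  subst hb
  push_cast
  have hz1 : (1 : ℝ) ≤ z := by exact_mod_cast (by omega : 1 ≤ z)
  have e1 : (z : ℝ) * ((z : ℝ) ^ a) ^ 6 = (z : ℝ) ^ (6 * a + 1) := by ring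
  have e2 : (z : ℝ) ^ (6 * a + 1) ≤ (z : ℝ) ^ e := pow_le_pow_right₀ hz1 h
  have e3 : c * (z : ℝ) ^ (e + 1) = (c * z) * (z : ℝ) ^ e := by ring
  have e4 : (0 : ℝ) < (z : ℝ) ^ e := by positivity
  rw [e1, e3]
  nlinarith

theorem DirL_mono {N : Seminorm ℝ (ℝ × ℝ)} {c : ℝ} {σ : ℕ → ℝ} (hc : Cone N c σ) {a : ℝ × ℝ}
    {n m : ℕ} (hnm : n ≤ m) (h : |a.2| ≤ σ n * a.1) : |a.2| ≤ σ m * a.1 ∧ 0 ≤ a.1 := by
  obtain ⟨-, h0, hm, -⟩ := hc
  have h1 : 1 ≤ σ n := h0 ▸ hm (Nat.zero_le n)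
  have h2 : 0 ≤ a.1 := by
    by_contra hneg
    push Not at hneg
    have : σ n * a.1 < 0 := mul_neg_of_pos_of_neg (by linarith) hneg
    linarith [abs_nonneg a.2]
  exact ⟨le_trans h (mul_le_mul_of_nonneg_right (hm hnm) h2), h2⟩

theorem DirL_claim {N : Seminorm ℝ (ℝ × ℝ)} {c : ℝ} {σ : ℕ → ℝ} {S Λ z : ℕ}
    (hP : Par N c σ S Λ z) {ω : Env} (happ : APP N z ω) {p : ℕ → V} {k : ℕ} (hg : Geo ω p k)
    (hbox : ∀ i ≤ k, 2 * nm (p i) ≤ (z : ℤ) ^ 1024)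
    (hY : |(rv (p k - p 0)).2| ≤ σ 1 * (rv (p k - p 0)).1)
    (hlen : (z : ℤ) ^ 1015 ≤ nm (p k - p 0)) :
    ∀ n t : ℕ, n + t = 122 → ∀ i j : ℕ, i ≤ j → j ≤ k →
      (z : ℤ) ^ (8 * t + 39) ≤ nm (p j - p i) →
      |(rv (p j - p i)).2| ≤ σ (n + 2) * (rv (p j - p i)).1 := by
  obtain ⟨hz, -, -⟩ := DirL_z_ge hP
  obtain ⟨hc, -, -, -, -, hcz, -⟩ := hP
  have hz1 : (1 : ℤ) ≤ z := by exact_mod_cast (by omega : 1 ≤ z)
  have hz2 : (2 : ℤ) ≤ z := by exact_mod_cast (by omega : 2 ≤ z)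
  have hbox' : ∀ i ≤ k, nm (p i) ≤ (z : ℤ) ^ 1024 := fun i hi => by
    have := hbox i hi
    have := nm_nonneg (p i)
    linarith
  have hzX : ∀ a : ℕ, z ≤ z ^ (a + 1) := fun a =>
    Nat.le_self_pow (by omega) z
  intro n
  induction n with
  | zero =>
    intro t ht i j hij hjk hs
    have ht' : t = 122 := by omega
    subst ht'
    have hdiff : ∀ a ≤ k, ∀ b ≤ k, nm (p a - p b) ≤ (((z ^ (127 + 1) : ℕ) : ℤ)) ^ 8 := by
      intro a ha b hb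
      have h1 := nm_sub_le (p a) (p b)
      have h2 := hbox a ha
      have h3 := hbox b hb
      have h4 : (((z ^ (127 + 1) : ℕ) : ℤ)) ^ 8 = (z : ℤ) ^ 1024 := by
        rw [Nat.cast_pow, ← pow_mul]
      rw [h4]
      linarith
    exact DirL_step hc happ hg hbox' (i' := 0) (j' := k) (X := z ^ (127 + 1)) (Nat.zero_le i) hij
      hjk le_rfl (hzX 127) (hdiff _ (by omega) _ (by omega)) (hdiff _ (by omega) _ (by omega))
      (hdiff _ (by omega) _ (by omega)) (hdiff _ (by omega) _ (by omega)) (n := 1) (by norm_num)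
      (r := (z : ℤ) ^ 1015) (DirL_err hz hcz (e := 1014) (by norm_num) (by norm_num)) hs hlen hY
  | succ n ih =>
    intro t ht i j hij hjk hs
    have ih' := ih (t + 1) (by omega)
    by_cases hbig : (z : ℤ) ^ (8 * (t + 1) + 39) ≤ nm (p j - p i)
    · exact (DirL_mono hc (by omega) (ih' i j hij hjk hbig)).1
    · push Not at hbig
      have hL : (z : ℤ) ^ (8 * (t + 1) + 39) ≤ nm (p k - p 0) :=
        le_trans (pow_le_pow_right₀ hz1 (by omega)) hlen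
      obtain ⟨i', j', hi', hj', hjk', e1, e2, e3⟩ := DirL_enlarge hg.1 hL hij hjk hbig
      have hX8 : 2 * (z : ℤ) ^ (8 * (t + 1) + 39) ≤ (((z ^ (t + 5 + 1) : ℕ) : ℤ)) ^ 8 := by
        rw [Nat.cast_pow, ← pow_mul]
        have h1 : (z : ℤ) ^ ((t + 5 + 1) * 8) = z * (z : ℤ) ^ (8 * (t + 1) + 39) := by ring
        have h2 : (0 : ℤ) ≤ (z : ℤ) ^ (8 * (t + 1) + 39) := by positivity
        rw [h1]
        exact mul_le_mul_of_nonneg_right hz2 h2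
      have hpos : (0 : ℤ) ≤ (z : ℤ) ^ (8 * (t + 1) + 39) := by positivity
      have hr2 : (z : ℤ) ^ (8 * t + 39) ≤ nm (p j' - p i') := by
        rw [e1]; exact pow_le_pow_right₀ hz1 (by omega)
      exact DirL_step hc happ hg hbox' (X := z ^ (t + 5 + 1)) hi' hij hj' hjk' (hzX (t + 5))
        (by linarith) (by linarith) (by linarith) (by linarith) (n := n + 2) (by omega)
        (r := (z : ℤ) ^ (8 * t + 39))
        (DirL_err hz hcz (e := 8 * t + 38) (by omega) (by omega)) hs hr2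
        (ih' i' j' (by omega) hjk' e1.ge)

/-- a long geodesic in the box whose displacement points to the right is almost directed -/
theorem dir_of_app {N : Seminorm ℝ (ℝ × ℝ)} {c : ℝ} {σ : ℕ → ℝ} {S Λ z : ℕ}
    (hP : Par N c σ S Λ z) {ω : Env} (happ : APP N z ω) {p : ℕ → V} {k : ℕ} (hg : Geo ω p k)
    (hbox : ∀ i ≤ k, 2 * nm (p i) ≤ (z : ℤ) ^ 1024)
    (hY : |(rv (p k - p 0)).2| ≤ σ 1 * (rv (p k - p 0)).1)
    (hlen : (z : ℤ) ^ 1015 ≤ nm (p k - p 0)) : Dir S ((z : ℤ) ^ 40) p k := by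
  have hcl := DirL_claim hP happ hg hbox hY hlen 122 0 rfl
  obtain ⟨hz, hSz, -⟩ := DirL_z_ge hP
  obtain ⟨hc, hσ, -, -, -, -, -⟩ := hP
  intro i j hij hjk
  have hpos : (0 : ℤ) ≤ (z : ℤ) ^ 39 := by positivity
  have h40 : (z : ℤ) ^ 40 = z * (z : ℤ) ^ 39 := by ring
  have hSz' : (S : ℤ) + 1 ≤ z := by exact_mod_cast hSz
  have hS0 : (0 : ℤ) ≤ S := by positivity
  by_cases hbig : (z : ℤ) ^ (8 * 0 + 39) ≤ nm (p j - p i)
  · obtain ⟨h1, h2⟩ := DirL_mono hc (by norm_num : 122 + 2 ≤ 130) (hcl i j hij hjk hbig)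
    have h3 : |(rv (p j - p i)).2| ≤ (S : ℝ) * (rv (p j - p i)).1 :=
      le_trans h1 (mul_le_mul_of_nonneg_right hσ h2)
    simp only [rv, Prod.fst_sub, Prod.snd_sub] at h3
    have h4 : |(p j).2 - (p i).2| ≤ (S : ℤ) * ((p j).1 - (p i).1) := by exact_mod_cast h3
    have h5 : (0 : ℤ) ≤ (z : ℤ) ^ 40 := by positivity
    linarith
  · push Not at hbig
    have hb : nm (p j - p i) ≤ (z : ℤ) ^ 39 := hbig.le
    obtain ⟨h1, h2⟩ := nm_le_iff.1 hb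
    simp only [Prod.fst_sub, Prod.snd_sub] at h1 h2
    have h3 := (abs_le.1 h1).1
    rw [h40]
    generalize (z : ℤ) ^ 39 = A at *
    nlinarith

/-- the version used later: the box condition follows from the length bound -/
theorem dir_of_len {N : Seminorm ℝ (ℝ × ℝ)} {c : ℝ} {σ : ℕ → ℝ} {S Λ z : ℕ}
    (hP : Par N c σ S Λ z) {ω : Env} (happ : APP N z ω) (hl : LEN Λ z ω) {p : ℕ → V} {k : ℕ}
    (hg : Geo ω p k) (h0 : nm (p 0) ≤ (z : ℤ) ^ 1022) (hk : nm (p k) ≤ (z : ℤ) ^ 1022)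
    (hY : |(rv (p k - p 0)).2| ≤ σ 1 * (rv (p k - p 0)).1)
    (hlen : (z : ℤ) ^ 1015 ≤ nm (p k - p 0)) : Dir S ((z : ℤ) ^ 40) p k := by
  refine dir_of_app hP happ hg ?_ hY hlen
  obtain ⟨hz, -, hΛ⟩ := DirL_z_ge hP
  have hz1 : (1 : ℤ) ≤ z := by exact_mod_cast (by omega : 1 ≤ z)
  have hz2 : (200 : ℤ) ≤ z := by exact_mod_cast hz
  have hΛ' : 100 * (Λ : ℤ) ≤ z := by exact_mod_cast hΛ
  have h24 : (z : ℤ) ^ 1022 ≤ (z : ℤ) ^ 1024 := pow_le_pow_right₀ hz1 (by norm_num)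
  have hK : z ≤ 2 * z ^ 1022 := by
    have : z ≤ z ^ 1022 := Nat.le_self_pow (by norm_num) z
    generalize z ^ 1022 = B at *
    omega
  have hKc : ((2 * z ^ 1022 : ℕ) : ℤ) = 2 * (z : ℤ) ^ 1022 := by
    rw [Nat.cast_mul, Nat.cast_pow]; rfl
  have hd : nm (p k - p 0) ≤ ((2 * z ^ 1022 : ℕ) : ℤ) := by
    rw [hKc]
    have := nm_sub_le (p k) (p 0)
    linarith
  have hkl := hl p k hg (h0.trans h24) (hk.trans h24) (2 * z ^ 1022) hK hd
  have hkl' : (k : ℤ) ≤ (Λ : ℤ) * (2 * (z : ℤ) ^ 1022) := by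
    rw [← hKc, ← Nat.cast_mul]
    exact Int.ofNat_le.2 hkl
  intro i hi
  have h1 := hg.1.nm_le (Nat.zero_le i) hi
  have h2 : nm (p i) ≤ nm (p 0) + nm (p i - p 0) := by
    have := nm_add_le (p 0) (p i - p 0)
    rwa [add_sub_cancel] at this
  have h3 : (i : ℤ) ≤ k := by exact_mod_cast hi
  have h4 : (z : ℤ) ^ 1024 = z * (z * (z : ℤ) ^ 1022) := by ring
  have h5 : (0 : ℤ) ≤ (z : ℤ) ^ 1022 := by positivity
  rw [h4]
  simp only [Nat.cast_zero, sub_zero] at h1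
  generalize (z : ℤ) ^ 1022 = A at *
  have h6 : 100 * (Λ : ℤ) * A ≤ z * A := mul_le_mul_of_nonneg_right hΛ' h5
  have h7 : 200 * A ≤ z * A := mul_le_mul_of_nonneg_right hz2 h5
  have h8 : 1 * (z * A) ≤ z * (z * A) := mul_le_mul_of_nonneg_right hz1 (by linarith)
  nlinarith

end Pool.Agent.FPP
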