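import Pool.Agent.P.MP_ecb9f8_pr.Path3

open MeasureTheory ProbabilityTheory Set Filter

noncomputable section

namespace Pool.Agent.FPP

theorem Strip_adj {a b : V} (h : Adj a b) : (b.1 = a.1 + 1 ∧ b.2 = a.2) ∨
    (b.1 = a.1 - 1 ∧ b.2 = a.2) ∨ (b.1 = a.1 ∧ b.2 = a.2 + 1) ∨ (b.1 = a.1 ∧ b.2 = a.2 - 1) := by
  unfold Adj at h
  rcases abs_cases (a.1 - b.1) with h1 | h1 <;> rcases abs_cases (a.2 - b.2) with h2 | h2 <;> omega

/-- signed crossing of the half line below `(x + 1/2, y + 1/2)` by the step from `u` to `w` -/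
def Strip_s (x y : ℤ) (u w : V) : ℤ :=
  (if u.1 = x ∧ w.1 = x + 1 ∧ u.2 ≤ y then 1 else 0) -
    if w.1 = x ∧ u.1 = x + 1 ∧ u.2 ≤ y then 1 else 0

/-- crossing number of the walk extended by its west and east rays -/
def Strip_c (p : ℕ → V) (k : ℕ) (x y : ℤ) : ℤ :=
  (if x < (p 0).1 ∧ (p 0).2 ≤ y then 1 else 0) +
    ∑ i ∈ Finset.range k, Strip_s x y (p i) (p (i + 1)) +
      if (p k).1 ≤ x ∧ (p k).2 ≤ y then 1 else 0

theorem Strip_hor {p : ℕ → V} {k : ℕ} (hp : Chain p k) {x y : ℤ}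
    (h : ∀ i ≤ k, ¬ ((p i).1 = x + 1 ∧ (p i).2 = y)) : Strip_c p k x y = Strip_c p k (x + 1) y := by
  have e : ∑ i ∈ Finset.range k, Strip_s (x + 1) y (p i) (p (i + 1)) -
      ∑ i ∈ Finset.range k, Strip_s x y (p i) (p (i + 1)) =
        (if (p 0).1 = x + 1 ∧ (p 0).2 ≤ y then 1 else 0) -
          if (p k).1 = x + 1 ∧ (p k).2 ≤ y then 1 else 0 := by
    rw [← Finset.sum_sub_distrib, ← Finset.sum_range_sub'
      (fun i => if (p i).1 = x + 1 ∧ (p i).2 ≤ y then (1 : ℤ) else 0)]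
    refine Finset.sum_congr rfl fun i hi => ?_
    rw [Finset.mem_range] at hi
    have h1 := h i hi.le
    have h2 := h (i + 1) hi
    have h3 := Strip_adj (hp i hi)
    unfold Strip_s
    split_ifs <;> omega
  unfold Strip_c
  split_ifs at e ⊢ <;> omega

theorem Strip_ver {p : ℕ → V} {k : ℕ} (hp : Chain p k) {x y : ℤ}
    (h : ∀ i ≤ k, ¬ ((p i).1 = x ∧ (p i).2 = y + 1)) (h0 : (p 0).2 = y + 1 → (p 0).1 < x)
    (hk : x ≤ (p k).1) : Strip_c p k x y = Strip_c p k x (y + 1) := by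
  have e : ∑ i ∈ Finset.range k, Strip_s x y (p i) (p (i + 1)) =
      ∑ i ∈ Finset.range k, Strip_s x (y + 1) (p i) (p (i + 1)) := by
    refine Finset.sum_congr rfl fun i hi => ?_
    rw [Finset.mem_range] at hi
    have h1 := h i hi.le
    have h2 := h (i + 1) hi
    have h3 := Strip_adj (hp i hi)
    unfold Strip_s
    split_ifs <;> omega
  have h1 := h k le_rfl
  unfold Strip_c
  rw [e]
  split_ifs <;> omega

theorem Strip_start {p : ℕ → V} {k : ℕ} (hp : Chain p k) {x y : ℤ}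
    (h : ∀ i ≤ k, (p i).2 = y → x < (p i).1) (h0 : (p 0).2 ≤ y) : Strip_c p k x y = 1 := by
  have e : ∑ i ∈ Finset.range k, Strip_s x y (p i) (p (i + 1)) =
      (if (p 0).1 ≤ x ∧ (p 0).2 ≤ y then 1 else 0) -
        if (p k).1 ≤ x ∧ (p k).2 ≤ y then 1 else 0 := by
    rw [← Finset.sum_range_sub' (fun i => if (p i).1 ≤ x ∧ (p i).2 ≤ y then (1 : ℤ) else 0)]
    refine Finset.sum_congr rfl fun i hi => ?_
    rw [Finset.mem_range] at hi
    have h1 := h i hi.le
    have h2 := h (i + 1) hi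
    have h3 := Strip_adj (hp i hi)
    unfold Strip_s
    split_ifs <;> omega
  unfold Strip_c
  rw [e]
  split_ifs <;> omega

theorem Strip_end {p : ℕ → V} {k : ℕ} {x y : ℤ} (h : ∀ i ≤ k, (p i).1 ≤ x)
    (hc : Strip_c p k x y = 1) : (p k).2 ≤ y := by
  have e : ∑ i ∈ Finset.range k, Strip_s x y (p i) (p (i + 1)) = 0 := by
    refine Finset.sum_eq_zero fun i hi => ?_
    rw [Finset.mem_range] at hi
    have h1 := h i hi.le
    have h2 := h (i + 1) hi
    unfold Strip_s
    split_ifs <;> omega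
  have h1 := h 0 (Nat.zero_le _)
  unfold Strip_c at hc
  rw [e] at hc
  split_ifs at hc <;> omega

/-- planarity: two disjoint walks that end in column `a` keep their vertical order -/
theorem strip {p q : ℕ → V} {k l : ℕ} {a : ℤ} (hp : Chain p k) (hq : Chain q l)
    (hpa : ∀ i ≤ k, (p i).1 ≤ a) (hqa : ∀ j ≤ l, (q j).1 ≤ a) (hpk : (p k).1 = a)
    (hql : (q l).1 = a) (h0 : (p 0).2 < (q 0).2)
    (hray1 : ∀ i ≤ k, (p i).2 = (q 0).2 → (q 0).1 < (p i).1)
    (hray2 : ∀ j ≤ l, (q j).2 = (p 0).2 → (p 0).1 < (q j).1)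
    (hd : ∀ i ≤ k, ∀ j ≤ l, p i ≠ q j) : (p k).2 < (q l).2 := by
  have off : ∀ j ≤ l, ∀ {x y : ℤ}, (q j).1 = x → (q j).2 = y →
      ∀ i ≤ k, ¬ ((p i).1 = x ∧ (p i).2 = y) := fun j hj x y hx hy i hi h =>
    hd i hi j hj (Prod.ext (h.1.trans hx.symm) (h.2.trans hy.symm))
  have key : ∀ j ≤ l, Strip_c p k (q j).1 (q j).2 = 1 := by
    intro j hj
    induction j with
    | zero => exact Strip_start hp hray1 h0.le
    | succ j ih =>
      have hj' : j ≤ l := by omega
      rw [← ih hj']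
      have r1 := hray2 j hj'
      have r2 := hray2 (j + 1) hj
      have a1 := hqa j hj'
      rcases Strip_adj (hq j hj) with h | h | h | h
      · rw [h.1, h.2]
        exact (Strip_hor hp (off (j + 1) hj h.1 h.2)).symm
      · have e : (q j).1 = (q (j + 1)).1 + 1 := by omega
        rw [e, h.2]
        exact Strip_hor hp (off j hj' e rfl)
      · rw [h.1, h.2]
        exact (Strip_ver hp (off (j + 1) hj h.1 h.2) (by omega) (by omega)).symm
      · have e : (q j).2 = (q (j + 1)).2 + 1 := by omega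
        rw [e, h.1]
        exact Strip_ver hp (off j hj' rfl e) (by omega) (by omega)
  have h1 := Strip_end (fun i hi => (hpa i hi).trans hql.ge) (key l le_rfl)
  exact lt_of_le_of_ne h1 fun h => hd k le_rfl l le_rfl (Prod.ext (hpk.trans hql.symm) h)

/-- directed walks that stay together after meeting have ordered first-visit heights -/
theorem ord {S s : ℤ} {p q : ℕ → V} {k l : ℕ} (hS : 0 ≤ S) (hp : Chain p k) (hq : Chain q l)
    (dp : Dir S s p k) (dq : Dir S s q l)
    (hm : ∀ i ≤ k, ∀ j ≤ l, p i = q j → ∀ t, i + t ≤ k → j + t ≤ l → p (i + t) = q (j + t))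
    (hgap : S * |(q 0).1 - (p 0).1| + s < (q 0).2 - (p 0).2) {a : ℤ}
    (h1 : (p 0).1 < a) (h2 : (q 0).1 < a) (h3 : a ≤ (p k).1) (h4 : a ≤ (q l).1) :
    ht p a ≤ ht q a := by
  obtain ⟨p1, -, p2, -, p3⟩ := hp.fi_spec h1 h3
  obtain ⟨q1, -, q2, -, q3⟩ := hq.fi_spec h2 h4
  have pa : (p (fi p a)).1 = a := by rw [p2]
  have qa : (q (fi q a)).1 = a := by rw [q2]
  by_cases hx : ∃ i ≤ fi p a, ∃ j ≤ fi q a, p i = q j
  · obtain ⟨i, hi, j, hj, e⟩ := hx
    have e1 : p (fi p a) = q (fi q a) := by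
      rcases le_total (fi p a - i) (fi q a - j) with h | h
      · have e2 := hm i (by omega) j (by omega) e (fi p a - i) (by omega) (by omega)
        rw [show i + (fi p a - i) = fi p a by omega] at e2
        have : ¬ j + (fi p a - i) < fi q a := fun hh => by
          have := q3 _ hh
          rw [← e2] at this
          omega
        rwa [show j + (fi p a - i) = fi q a by omega] at e2
      · have e2 := hm i (by omega) j (by omega) e (fi q a - j) (by omega) (by omega)
        rw [show j + (fi q a - j) = fi q a by omega] at e2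
        have : ¬ i + (fi q a - j) < fi p a := fun hh => by
          have := p3 _ hh
          rw [e2] at this
          omega
        rwa [show i + (fi q a - j) = fi p a by omega] at e2
    exact (congrArg Prod.snd e1).le
  · have hs : 0 ≤ s := by simpa using dp 0 0 le_rfl (Nat.zero_le _)
    have m1 := mul_le_mul_of_nonneg_left (le_abs_self ((q 0).1 - (p 0).1)) hS
    have m2 := mul_le_mul_of_nonneg_left (neg_le_abs ((q 0).1 - (p 0).1)) hS
    have m3 := mul_nonneg hS (abs_nonneg ((q 0).1 - (p 0).1))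
    refine (strip (a := a) (hp.mono p1) (hq.mono q1) (fun i hi => ?_) (fun j hj => ?_) pa qa
      (by omega) (fun i hi e => ?_) (fun j hj e => ?_) fun i hi j hj e => hx ⟨i, hi, j, hj, e⟩).le
    · rcases hi.eq_or_lt with rfl | hi
      · exact pa.le
      · exact (p3 i hi).le
    · rcases hj.eq_or_lt with rfl | hj
      · exact qa.le
      · exact (q3 j hj).le
    · by_contra hc
      have d1 := (le_abs_self _).trans (dp 0 i (Nat.zero_le _) (hi.trans p1))
      have d2 := mul_le_mul_of_nonneg_left (sub_le_sub_right (not_lt.1 hc) (p 0).1) hS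
      omega
    · by_contra hc
      have d1 := (neg_le_abs _).trans (dq 0 j (Nat.zero_le _) (hj.trans q1))
      have d2 := mul_le_mul_of_nonneg_left (sub_le_sub_right (not_lt.1 hc) (q 0).1) hS
      rw [neg_sub] at m2
      omega

theorem Strip_rev {p : ℕ → V} {k : ℕ} (hp : Chain p k) :
    Chain (fun t => (-(p (k - t)).1, (p (k - t)).2)) k := fun i hi => by
  have h := hp.rev i hi
  unfold Adj at h ⊢
  dsimp only at h ⊢
  rwa [neg_sub_neg, abs_sub_comm]

theorem Strip_last {S s : ℤ} {p : ℕ → V} {k : ℕ} (hp : Chain p k) (dp : Dir S s p k) {a : ℤ}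
    (h1 : (p 0).1 < a) (h3 : a < (p k).1) :
    |ht (fun t => (-(p (k - t)).1, (p (k - t)).2)) (-a) - ht p a| ≤ s := by
  obtain ⟨-, -, p2, -, p3⟩ := hp.fi_spec h1 h3.le
  obtain ⟨-, -, q2, -, -⟩ := (Strip_rev hp).fi_spec (a := -a) (by simpa using h3)
    (by simpa using h1.le)
  generalize fi (fun t => (-(p (k - t)).1, (p (k - t)).2)) (-a) = i at q2
  rw [Prod.mk.injEq, neg_inj] at q2
  have h4 : ¬ k - i < fi p a := fun h => (p3 _ h).ne q2.1
  have h5 := dp (fi p a) (k - i) (not_lt.1 h4) (Nat.sub_le _ _)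
  rwa [q2.1, q2.2, p2, sub_self, mul_zero, zero_add] at h5

/-- the same for walks with a common start and ordered ends, up to the slack `s` -/
theorem ord_rev {S s : ℤ} {p q : ℕ → V} {k l : ℕ} (hS : 0 ≤ S) (hp : Chain p k) (hq : Chain q l)
    (dp : Dir S s p k) (dq : Dir S s q l)
    (hm : ∀ i ≤ k, ∀ j ≤ l, p i = q j → ∀ t, t ≤ i → t ≤ j → p (i - t) = q (j - t))
    (hgap : S * |(q l).1 - (p k).1| + s < (q l).2 - (p k).2) {a : ℤ}
    (h1 : (p 0).1 < a) (h2 : (q 0).1 < a) (h3 : a < (p k).1) (h4 : a < (q l).1) :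
    ht p a ≤ ht q a + 2 * s := by
  have e1 := abs_le.1 (Strip_last hp dp h1 h3)
  have e2 := abs_le.1 (Strip_last hq dq h2 h4)
  have e3 := ord (a := -a) hS (Strip_rev hp) (Strip_rev hq) dp.rev dq.rev
    (fun i hi j hj e t ht ht' => by
      rw [Prod.mk.injEq, neg_inj] at e
      rw [Nat.sub_add_eq, Nat.sub_add_eq, hm (k - i) (Nat.sub_le _ _) (l - j) (Nat.sub_le _ _)
        (Prod.ext e.1 e.2) t (by omega) (by omega)])
    (by simpa only [Nat.sub_zero, neg_sub_neg, abs_sub_comm] using hgap) (by simpa using h3)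
    (by simpa using h4) (by simpa using h1.le) (by simpa using h2.le)
  omega

end Pool.Agent.FPP
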