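import Pool.Agent.P.MP_ecb9f8_pr.Path2
import Pool.Agent.P.MP_ecb9f8_pr.Strip
import Pool.Agent.P.MP_ecb9f8_pr.DirL
import Pool.Agent.P.MP_ecb9f8_pr.AttDet

open MeasureTheory ProbabilityTheory Set Filter

noncomputable section

namespace Pool.Agent.FPP

theorem Base_z {N : Seminorm ℝ (ℝ × ℝ)} {c : ℝ} {σ : ℕ → ℝ} {S Λ z : ℕ}
    (hP : Par N c σ S Λ z) : 100 * (S + 1) ≤ z ∧ 100 ≤ z := by
  obtain ⟨-, -, h1, h2, h3, -⟩ := hP
  have h4 : 100 * (S + 1) * 1 ≤ 100 * (S + 1) * Λ := Nat.mul_le_mul_left _ h2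
  omega

theorem Base_pow {z : ℤ} (hz : 100 ≤ z) {a b : ℕ} (h : a < b) : 100 * z ^ a ≤ z ^ b := by
  calc 100 * z ^ a ≤ z * z ^ a := mul_le_mul_of_nonneg_right hz (pow_nonneg (by omega) _)
    _ = z ^ (a + 1) := (pow_succ' z a).symm
    _ ≤ z ^ b := pow_le_pow_right₀ (by omega) h

/-- the geodesic from a point near the left side to a point of column `n` is a directed ray -/
theorem ray_of_far {N : Seminorm ℝ (ℝ × ℝ)} {c : ℝ} {σ : ℕ → ℝ} {S Λ z : ℕ}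
    (hP : Par N c σ S Λ z) {ω : Env} (hn : Nice ω) (happ : APP N z ω) (hl : LEN Λ z ω) {n : ℤ}
    (h1 : (z : ℤ) ^ 1021 ≤ n) (h2 : n ≤ (z : ℤ) ^ 1022) {x w : V} (hx1 : |x.1| ≤ (z : ℤ))
    (hx2 : |x.2| ≤ 3 * (z : ℤ) ^ 1020) (hw1 : w.1 = n) (hw2 : |w.2| ≤ 3 * (z : ℤ) ^ 1020) :
    ∃ (p : ℕ → V) (k : ℕ), Geo ω p k ∧ Dir S ((z : ℤ) ^ 40) p k ∧ p 0 = x ∧ p k = w := by
  obtain ⟨p, k, hg, h0, hk⟩ := hn.2.1 x w
  have hz : (100 : ℤ) ≤ z := by exact_mod_cast (Base_z hP).2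
  have e1 := Base_pow hz (by norm_num : 1 < 1015)
  have e2 := Base_pow hz (by norm_num : 1015 < 1020)
  have e3 := Base_pow hz (by norm_num : 1020 < 1021)
  have e4 := Base_pow hz (by norm_num : 1021 < 1022)
  rw [pow_one] at e1
  have hσ : 1 ≤ σ 1 := by
    rw [← hP.1.2.1]
    exact hP.1.2.2.1 (Nat.zero_le 1)
  have a1 := abs_le.1 hx1
  have a2 := abs_le.1 hx2
  have a3 := abs_le.1 hw2
  have k1 : |(w - x).2| ≤ (w - x).1 := by
    rw [Prod.fst_sub, Prod.snd_sub, abs_le]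
    constructor <;> linarith
  have k2 : (z : ℤ) ^ 1015 ≤ (w - x).1 := by
    rw [Prod.fst_sub]
    linarith
  refine ⟨p, k, hg, dir_of_len hP happ hl hg ?_ ?_ ?_ ?_, h0, hk⟩
  · rw [h0, nm_le_iff]
    constructor <;> linarith
  · rw [hk, nm_le_iff, hw1, abs_le]
    refine ⟨⟨?_, h2⟩, ?_⟩ <;> linarith
  · rw [h0, hk]
    have k3 : |(((w - x).2 : ℤ) : ℝ)| ≤ (((w - x).1 : ℤ) : ℝ) := by exact_mod_cast k1
    exact k3.trans (le_mul_of_one_le_left ((abs_nonneg _).trans k3) hσ)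
  · rw [h0, hk]
    exact k2.trans ((le_abs_self _).trans (abs_fst_le_nm _))

theorem Base_xs {z : ℕ} (hz : (100 : ℤ) ≤ z) {j : ℕ} (hj : j ≤ z ^ 979 + 1) :
    |(xs z j).2| ≤ 3 * (z : ℤ) ^ 1020 := by
  have hj' : (j : ℤ) ≤ (z : ℤ) ^ 979 + 1 := by exact_mod_cast hj
  have e1 := Base_pow hz (by norm_num : 41 < 1020)
  have e2 : (z : ℤ) ^ 1020 = (z : ℤ) ^ 979 * (z : ℤ) ^ 41 := by rw [← pow_add]
  have e3 : (0 : ℤ) ≤ (z : ℤ) ^ 41 := by positivity
  have e4 := mul_le_mul_of_nonneg_right hj' e3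
  have e5 : (0 : ℤ) ≤ (j : ℤ) * (z : ℤ) ^ 41 := by positivity
  rw [add_mul, ← e2] at e4
  have e6 : (xs z j).2 = 2 * ((j : ℤ) * (z : ℤ) ^ 41) - (z : ℤ) ^ 41 := by
    unfold xs
    ring
  rw [e6, abs_le]
  constructor <;> linarith

theorem Base_ws {z : ℕ} (hz : (100 : ℤ) ≤ z) (n : ℤ) {η : ℤ} (hη : |η| ≤ (z : ℤ)) {j : ℕ}
    (hj : j ≤ z ^ 979) : |(ws z n η j).2| ≤ 3 * (z : ℤ) ^ 1020 := by
  have hj' : (j : ℤ) ≤ (z : ℤ) ^ 979 := by exact_mod_cast hj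
  have e1 := Base_pow hz (by norm_num : 1 < 1020)
  rw [pow_one] at e1
  have e2 : (z : ℤ) ^ 1020 = (z : ℤ) ^ 979 * (z : ℤ) ^ 41 := by rw [← pow_add]
  have e3 : (0 : ℤ) ≤ (z : ℤ) ^ 41 := by positivity
  have e4 := mul_le_mul_of_nonneg_right hj' e3
  have e5 : (0 : ℤ) ≤ (j : ℤ) * (z : ℤ) ^ 41 := by positivity
  rw [← e2] at e4
  have e6 : (ws z n η j).2 = 2 * ((j : ℤ) * (z : ℤ) ^ 41) + η := by
    unfold ws
    ring
  have e7 := abs_le.1 hη
  rw [e6, abs_le]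
  constructor <;> linarith

theorem Base_InS {z : ℕ} (hz : (100 : ℤ) ≤ z) {j : ℕ} (hj : j ≤ z ^ 979 + 1) :
    InS z (xs z j) := by
  have e1 := Base_xs hz hj
  have e2 := Base_pow hz (by norm_num : 1020 < 1021)
  have e3 : (0 : ℤ) < (z : ℤ) ^ 1020 := pow_pos (by omega) _
  have e4 : (xs z j).1 = 0 := rfl
  refine ⟨nm_le_iff.2 ⟨?_, by linarith⟩, ?_⟩
  · rw [e4, abs_zero]
    linarith
  · rw [e4, cA]
    linarith

theorem Base_tele (M : ℕ) (a b : ℕ → ℤ) (s : ℤ) (h1 : ∀ j < M, a j ≤ b j)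
    (h2 : ∀ j < M, b j ≤ a (j + 1) + s) :
    ∑ j ∈ Finset.range M, |a j - b j| ≤ a M - a 0 + M * s := by
  induction M with
  | zero => simp
  | succ m ih =>
    have h3 := ih (fun j hj => h1 j (by omega)) fun j hj => h2 j (by omega)
    have h4 := h1 m (by omega)
    have h5 := h2 m (by omega)
    rw [Finset.sum_range_succ, abs_of_nonpos (by linarith)]
    push_cast
    linarith

open Classical in
theorem base_count {N : Seminorm ℝ (ℝ × ℝ)} {c : ℝ} {σ : ℕ → ℝ} {S Λ z : ℕ}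
    (hP : Par N c σ S Λ z) {ω : Env} (hg : Good N S Λ z ω) {n η : ℤ}
    (h1 : (z : ℤ) ^ 1021 ≤ n) (h2 : n ≤ (z : ℤ) ^ 1022) (hη : |η| ≤ (z : ℤ)) :
    ((Finset.range (z ^ 979)).filter (fun j => NoMerge z ω n η j)).card ≤ z ^ 978 := by
  obtain ⟨hn, happ, hl, hatt⟩ := hg
  obtain ⟨hz1, hz2⟩ := Base_z hP
  have hz : (100 : ℤ) ≤ z := by exact_mod_cast hz2
  have hx0 : ∀ j, |(xs z j).1| ≤ (z : ℤ) := fun j => by
    have e4 : (xs z j).1 = 0 := rfl
    rw [e4, abs_zero]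
    omega
  have hp : ∀ j : ℕ, ∃ (p : ℕ → V) (k : ℕ), j ≤ z ^ 979 → Geo ω p k ∧ Dir S ((z : ℤ) ^ 40) p k ∧
      p 0 = xs z j ∧ p k = ws z n η j := fun j => by
    by_cases hj : j ≤ z ^ 979
    · obtain ⟨p, k, h⟩ := ray_of_far hP hn happ hl h1 h2 (hx0 j) (Base_xs hz (Nat.le_succ_of_le hj))
        (w := ws z n η j) rfl (Base_ws hz n hη hj)
      exact ⟨p, k, fun _ => h⟩
    · exact ⟨fun _ => 0, 0, fun h => absurd h hj⟩
  have hq : ∀ j : ℕ, ∃ (p : ℕ → V) (k : ℕ), j ≤ z ^ 979 → Geo ω p k ∧ Dir S ((z : ℤ) ^ 40) p k ∧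
      p 0 = xs z (j + 1) ∧ p k = ws z n η j := fun j => by
    by_cases hj : j ≤ z ^ 979
    · obtain ⟨p, k, h⟩ := ray_of_far hP hn happ hl h1 h2 (hx0 (j + 1))
        (Base_xs hz (Nat.succ_le_succ hj)) (w := ws z n η j) rfl (Base_ws hz n hη hj)
      exact ⟨p, k, fun _ => h⟩
    · exact ⟨fun _ => 0, 0, fun h => absurd h hj⟩
  choose p k hp using hp
  choose q l hq using hq
  have e1 := Base_pow hz (by norm_num : 40 < 41)
  have e2 := Base_pow hz (by norm_num : 1020 < 1021)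
  have e3 := Base_pow hz (by norm_num : 1019 < 1022)
  have e4 : (0 : ℤ) < (z : ℤ) ^ 1020 := pow_pos (by omega) _
  have e5 : (0 : ℤ) < (z : ℤ) ^ 40 := pow_pos (by omega) _
  have e6 : (0 : ℤ) < (z : ℤ) ^ 1019 := pow_pos (by omega) _
  have hA : 0 < cA z := by
    rw [cA]
    linarith
  have hB : cB z < n := by
    rw [cB]
    linarith
  have hB0 : 0 < cB z := by
    rw [cB]
    linarith
  have hS : (0 : ℤ) ≤ S := Int.natCast_nonneg S
  have hx : ∀ j, (xs z j).1 = 0 := fun _ => rfl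
  have hw : ∀ j, (ws z n η j).1 = n := fun _ => rfl
  have hx2 : ∀ j, (xs z (j + 1)).2 - (xs z j).2 = 2 * (z : ℤ) ^ 41 := fun j => by
    unfold xs
    push_cast
    ring
  have hw2 : ∀ j, (ws z n η (j + 1)).2 - (ws z n η j).2 = 2 * (z : ℤ) ^ 41 := fun j => by
    unfold ws
    push_cast
    ring
  have hsum : ∀ a, cA z ≤ a → a ≤ cB z →
      ∑ j ∈ (Finset.range (z ^ 979)).filter (fun j => NoMerge z ω n η j),
        |ht (p j) a - ht (q j) a| ≤ 2 * (z : ℤ) ^ 1022 := by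
    intro a ha1 ha2
    refine (Finset.sum_le_sum_of_subset_of_nonneg (Finset.filter_subset _ _)
      fun _ _ _ => abs_nonneg _).trans ?_
    have t1 := Base_tele (z ^ 979) (fun j => ht (p j) a) (fun j => ht (q j) a) (2 * (z : ℤ) ^ 40)
      (fun j hj => by
        obtain ⟨g1, d1, s1, f1⟩ := hp j hj.le
        obtain ⟨g2, d2, s2, f2⟩ := hq j hj.le
        refine ord hS g1.1 g2.1 d1 d2 (fun i hi i' hi' he t ht _ =>
          (hn.merge g1 g2 (f1.trans f2.symm) hi hi' he).2 t ht) ?_ ?_ ?_ ?_ ?_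
        · rw [s1, s2, hx, hx, hx2, sub_zero, abs_zero, mul_zero]
          linarith
        · rw [s1, hx]
          linarith
        · rw [s2, hx]
          linarith
        · rw [f1, hw]
          linarith
        · rw [f2, hw]
          linarith)
      (fun j hj => by
        obtain ⟨g1, d1, s1, f1⟩ := hq j hj.le
        obtain ⟨g2, d2, s2, f2⟩ := hp (j + 1) hj
        refine ord_rev hS g1.1 g2.1 d1 d2 (fun i hi i' hi' he t _ _ => ?_) ?_ ?_ ?_ ?_ ?_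
        · obtain ⟨rfl, u2⟩ := hn.2.2 _ _ _ _ (g1.mono hi) (g2.mono hi') (s1.trans s2.symm) he
          exact u2 _ (Nat.sub_le _ _)
        · rw [f1, f2, hw, hw, hw2, sub_self, abs_zero, mul_zero]
          linarith
        · rw [s1, hx]
          linarith
        · rw [s2, hx]
          linarith
        · rw [f1, hw]
          linarith
        · rw [f2, hw]
          linarith)
    have t2 : ∀ j ≤ z ^ 979, 2 * |ht (p j) a| ≤ (z : ℤ) ^ 1022 := fun j hj => by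
      obtain ⟨g1, d1, s1, f1⟩ := hp j hj
      refine ht_bound hP.2.2.1 hz1 g1.1 d1 ?_ ?_ ha1 ha2
      · rw [s1]
        exact Base_InS hz (Nat.le_succ_of_le hj)
      · rw [f1, hw]
        exact hB.le
    have t3 := t2 _ le_rfl
    have t4 := t2 0 (Nat.zero_le _)
    have t5 := le_abs_self (ht (p (z ^ 979)) a)
    have t6 := neg_abs_le (ht (p 0) a)
    have t7 : ((z ^ 979 : ℕ) : ℤ) * (2 * (z : ℤ) ^ 40) = 2 * (z : ℤ) ^ 1019 := by
      rw [Nat.cast_pow, mul_left_comm, ← pow_add]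
    rw [t7] at t1
    linarith
  have hgap := sum_gap_le hz2 _ (fun j => ht (p j)) (fun j => ht (q j)) hsum
  have hlow : ∀ j ∈ (Finset.range (z ^ 979)).filter (fun j => NoMerge z ω n η j),
      (z : ℤ) ^ 1066 ≤ gap z (ht (p j)) (ht (q j)) := by
    intro j hj
    obtain ⟨hj1, hj2⟩ := Finset.mem_filter.1 hj
    have hj3 := (Finset.mem_range.1 hj1).le
    obtain ⟨g1, d1, s1, f1⟩ := hp j hj3
    obtain ⟨g2, d2, s2, f2⟩ := hq j hj3
    have b1 : cB z ≤ (p j (k j)).1 := by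
      rw [f1, hw]
      exact hB.le
    have b2 : cB z ≤ (q j (l j)).1 := by
      rw [f2, hw]
      exact hB.le
    refine hatt _ _ _ _ g1 g2 d1 d2 ?_ ?_ b1 b2 fun i hi i' hi' he => hj2 ⟨p j i, ?_, ?_, ?_⟩
    · rw [s1]
      exact Base_InS hz (Nat.le_succ_of_le hj3)
    · rw [s2]
      exact Base_InS hz (Nat.succ_le_succ hj3)
    · obtain ⟨-, -, c1, -, c2⟩ := g1.1.fi_spec (a := cB z) (by rw [s1, hx]; exact hB0) b1
      rcases hi.lt_or_eq with hi | rfl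
      · exact (c2 i hi).le
      · rw [c1]
    · have c1 := (g1.1.fi_spec (a := cB z) (by rw [s1, hx]; exact hB0) b1).1
      rw [← s1, ← f1]
      exact g1.add (Nat.zero_le _) (hi.trans c1) le_rfl
    · have c1 := (g2.1.fi_spec (a := cB z) (by rw [s2, hx]; exact hB0) b2).1
      rw [← s2, ← f2, he]
      exact g2.add (Nat.zero_le _) (hi'.trans c1) le_rfl
  have hc := (Finset.card_nsmul_le_sum _ _ _ hlow).trans hgap
  rw [nsmul_eq_mul] at hc
  have e7 : 4 * (z : ℤ) ^ 1020 * (2 * (z : ℤ) ^ 1022) = (8 * (z : ℤ) ^ 976) * (z : ℤ) ^ 1066 := by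
    have u1 : (z : ℤ) ^ 1020 * (z : ℤ) ^ 1022 = (z : ℤ) ^ 976 * (z : ℤ) ^ 1066 := by
      rw [← pow_add, ← pow_add]
    rw [mul_mul_mul_comm, u1, mul_assoc (8 : ℤ)]
    rfl
  rw [e7] at hc
  have e8 := le_of_mul_le_mul_right hc (pow_pos (by omega) _)
  have e9 := Base_pow hz (by norm_num : 976 < 978)
  have e10 : (0 : ℤ) < (z : ℤ) ^ 976 := pow_pos (by omega) _
  have e11 : ((((Finset.range (z ^ 979)).filter (fun j => NoMerge z ω n η j)).card : ℕ) : ℤ) ≤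
      ((z ^ 978 : ℕ) : ℤ) := by
    rw [Nat.cast_pow]
    linarith
  exact Int.ofNat_le.1 e11

end Pool.Agent.FPP
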