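import Pool.Agent.P.MP_ecb9f8_pr.Base

open MeasureTheory ProbabilityTheory Set Filter

noncomputable section

namespace Pool.Agent.FPP

/-- two directed geodesics that have met well to the left of column `a` have the same first
visit to that column -/
theorem Trap_ht {ω : Env} (hn : Nice ω) {S s : ℤ} (hS : 1 ≤ S) (hs : 0 ≤ s) {p q : ℕ → V}
    {k l i j : ℕ} (hp : Geo ω p k) (hq : Geo ω q l) (dp : Dir S s p k) (dq : Dir S s q l)
    (he : p k = q l) (hi : i ≤ k) (hj : j ≤ l) (h : p i = q j) {a : ℤ} (ha : (p i).1 + s < a)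
    (hk : a ≤ (p k).1) : ht p a = ht q a := by
  have hp0 := dp.back hS hs (Nat.zero_le i) hi
  have hq0 := dq.back hS hs (Nat.zero_le j) hj
  obtain ⟨p1, -, p2, -, p3⟩ := hp.1.fi_spec (a := a) (by omega) hk
  obtain ⟨q1, -, q2, -, q3⟩ := hq.1.fi_spec (a := a) (by rw [← h] at hq0; omega) (he ▸ hk)
  obtain ⟨m1, m2⟩ := hn.merge hp hq he hi hj h
  have e1 : (p (fi p a)).1 = a := by rw [p2]
  have e2 : (q (fi q a)).1 = a := by rw [q2]
  have hi' : i ≤ fi p a := by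
    by_contra hc
    have := dp.back hS hs (le_of_lt (not_le.1 hc)) hi
    omega
  have hj' : j ≤ fi q a := by
    by_contra hc
    have := dq.back hS hs (le_of_lt (not_le.1 hc)) hj
    rw [← h] at this
    omega
  obtain ⟨t, ht1⟩ := Nat.exists_eq_add_of_le hi'
  obtain ⟨u, hu1⟩ := Nat.exists_eq_add_of_le hj'
  have h1 : u ≤ t := by
    by_contra hc
    have h2 := q3 (j + t) (by omega)
    rw [← m2 t (by omega), ← ht1] at h2
    omega
  have h2 : t ≤ u := by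
    by_contra hc
    have h2 := p3 (i + u) (by omega)
    rw [m2 u (by omega), ← hu1] at h2
    omega
  have h3 : p (fi p a) = q (fi q a) := by
    rw [ht1, hu1, m2 t (by omega), le_antisymm h2 h1]
  exact congrArg Prod.snd h3

theorem Trap_merge {ω : Env} (hn : Nice ω) {p q : ℕ → V} {k l : ℕ} (hp : Geo ω p k)
    (hq : Geo ω q l) (he : p k = q l) :
    ∀ i ≤ k, ∀ j ≤ l, p i = q j → ∀ t, i + t ≤ k → j + t ≤ l → p (i + t) = q (j + t) :=
  fun _ hi _ hj h t ht _ => (hn.merge hp hq he hi hj h).2 t ht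

/-- if the two outer geodesics meet then all geodesics from the small box agree far out -/
theorem trap {N : Seminorm ℝ (ℝ × ℝ)} {c : ℝ} {σ : ℕ → ℝ} {S Λ z : ℕ}
    (hP : Par N c σ S Λ z) {ω : Env} (hg : Good N S Λ z ω) {n η : ℤ}
    (h1 : (z : ℤ) ^ 1021 ≤ n) (h2 : n ≤ (z : ℤ) ^ 1022) (hη : |η| ≤ (z : ℤ))
    (hm : ¬ NoMerge z ω n η 0) {x x' w : V} (hx : nm x ≤ (z : ℤ)) (hx' : nm x' ≤ (z : ℤ))
    (hw : 5 * (z : ℤ) ^ 1020 ≤ w.1) (h : On ω x w (n, η)) : On ω x' w (n, η) := by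
  obtain ⟨hn, happ, hl, -⟩ := hg
  have hS : 1 ≤ S := hP.2.2.1
  have hz : 100 * (S + 1) ≤ z :=
    le_trans (Nat.le_mul_of_pos_right _ hP.2.2.2.1) hP.2.2.2.2.1
  have hS' : (1 : ℤ) ≤ S := by exact_mod_cast hS
  have hz' : 100 * ((S : ℤ) + 1) ≤ z := by exact_mod_cast hz
  have hz1 : (1 : ℤ) ≤ z := by omega
  have n1 : (z : ℤ) ^ 41 ≤ (z : ℤ) ^ 1020 := pow_le_pow_right₀ hz1 (by norm_num)
  have n2 : (z : ℤ) * z ≤ (z : ℤ) ^ 40 := by
    rw [← pow_two]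
    exact pow_le_pow_right₀ hz1 (by norm_num)
  have n3 : (z : ℤ) ^ 41 = z * (z : ℤ) ^ 40 := pow_succ' _ _
  have n4 : (z : ℤ) ^ 1021 = z * (z : ℤ) ^ 1020 := pow_succ' _ _
  have hcB : cB z = 3 * (z : ℤ) ^ 1020 := rfl
  have e0 : xs z 0 = (0, -(z : ℤ) ^ 41) := by simp [xs]
  have e1 : xs z (0 + 1) = (0, (z : ℤ) ^ 41) := by
    simp only [xs, zero_add, Nat.cast_one]
    norm_num
  have e2 : ws z n η 0 = (n, η) := by simp [ws]
  simp only [NoMerge, not_not, e0, e1, e2] at hm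
  obtain ⟨u, hu, hu0, hu1⟩ := hm
  obtain ⟨hx1, hx2⟩ := nm_le_iff.1 hx
  obtain ⟨hy1, hy2⟩ := nm_le_iff.1 hx'
  have key : ∀ y : V, |y.1| ≤ (z : ℤ) → |y.2| ≤ (z : ℤ) ^ 41 →
      ∃ (p : ℕ → V) (k : ℕ), Geo ω p k ∧ Dir S ((z : ℤ) ^ 40) p k ∧ p 0 = y ∧ p k = (n, η) := by
    intro y a1 a2
    generalize (z : ℤ) ^ 41 = A at n1 n3 a2
    refine ray_of_far hP hn happ hl h1 h2 a1 ?_ rfl ?_
    · have : 0 ≤ |y.2| := abs_nonneg _
      omega
    · have h5 : (z : ℤ) ≤ z * z := by nlinarith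
      have h6 : (z : ℤ) ^ 40 ≤ z * (z : ℤ) ^ 40 := by nlinarith
      change |η| ≤ _
      omega
  have h41 : (0 : ℤ) ≤ (z : ℤ) ^ 41 := by positivity
  have h40 : (0 : ℤ) ≤ (z : ℤ) ^ 40 := by positivity
  generalize hA : (z : ℤ) ^ 41 = A at *
  generalize hB : (z : ℤ) ^ 40 = B at *
  generalize hC : (z : ℤ) ^ 1020 = C at *
  generalize hD : (z : ℤ) ^ 1021 = D at *
  have hzz : (z : ℤ) ≤ z * z := by nlinarith
  have hSz : (S : ℤ) * z ≤ z * z := by nlinarith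
  have hAB : 200 * B ≤ A := by nlinarith
  have hCD : 200 * C ≤ D := by nlinarith
  have hzz' : 200 * (z : ℤ) ≤ z * z := by nlinarith
  obtain ⟨P, kP, gP, dP, P0, P1⟩ := key (0, -A) (by simp) (by simp [abs_of_nonneg h41])
  obtain ⟨Q, kQ, gQ, dQ, Q0, Q1⟩ := key (0, A) (by simp) (by simp [abs_of_nonneg h41])
  obtain ⟨i, hi, hPi⟩ := (hn.on_iff gP u).1 (by rw [P0, P1]; exact hu0)
  obtain ⟨j, hj, hQj⟩ := (hn.on_iff gQ u).1 (by rw [Q0, Q1]; exact hu1)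
  have hPQ : ht P (cB z + B + 1) = ht Q (cB z + B + 1) :=
    Trap_ht hn hS' h40 gP gQ dP dQ (P1.trans Q1.symm) hi hj (hPi.trans hQj.symm)
      (by rw [hPi]; omega) (by rw [P1]; simp only; omega)
  have mid : ∀ y : V, |y.1| ≤ (z : ℤ) → |y.2| ≤ (z : ℤ) →
      ∃ (p : ℕ → V) (k : ℕ), Geo ω p k ∧ p 0 = y ∧ p k = (n, η) ∧ fi p (cB z + B + 1) ≤ k ∧
        p (fi p (cB z + B + 1)) = (cB z + B + 1, ht P (cB z + B + 1)) ∧
        ∀ i < fi p (cB z + B + 1), (p i).1 < cB z + B + 1 := by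
    intro y a1 a2
    obtain ⟨p, k, gp, dp, p0, p1⟩ := key y a1 (by omega)
    have b1 := abs_le.1 a1
    have b2 := abs_le.1 a2
    have b3 : (S : ℤ) * |y.1| ≤ S * z := mul_le_mul_of_nonneg_left a1 (by omega)
    have c0 : (p 0).1 < cB z + B + 1 := by rw [p0]; omega
    have c1 : cB z + B + 1 ≤ (p k).1 := by rw [p1]; simp only; omega
    have o1 : ht P (cB z + B + 1) ≤ ht p (cB z + B + 1) :=
      ord (by omega) gP.1 gp.1 dP dp (Trap_merge hn gP gp (P1.trans p1.symm))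
        (by rw [P0, p0]; simp only [sub_zero]; omega) (by rw [P0]; simp only; omega) c0
        (by rw [P1]; simp only; omega) c1
    have o2 : ht p (cB z + B + 1) ≤ ht Q (cB z + B + 1) :=
      ord (by omega) gp.1 gQ.1 dp dQ (Trap_merge hn gp gQ (p1.trans Q1.symm))
        (by rw [Q0, p0]; simp only [zero_sub, abs_neg]; omega) c0 (by rw [Q0]; simp only; omega)
        c1 (by rw [Q1]; simp only; omega)
    obtain ⟨f1, -, f2, -, f3⟩ := gp.1.fi_spec c0 c1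
    refine ⟨p, k, gp, p0, p1, f1, ?_, f3⟩
    rw [f2, show ht p (cB z + B + 1) = ht P (cB z + B + 1) by omega]
  obtain ⟨r, k, gr, r0, r1, r2, r3, r4⟩ := mid x hx1 hx2
  obtain ⟨q, l, gq, q0, q1, q2, q3, -⟩ := mid x' hy1 hy2
  obtain ⟨m, hm1, hm2⟩ := (hn.on_iff gr w).1 (by rw [r0, r1]; exact h)
  have hm3 : fi r (cB z + B + 1) ≤ m := by
    by_contra hc
    have := r4 m (not_le.1 hc)
    rw [hm2] at this
    omega
  obtain ⟨t, rfl⟩ := Nat.exists_eq_add_of_le hm3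
  obtain ⟨m1, m2⟩ := hn.merge gr gq (r1.trans q1.symm) r2 q2 (r3.trans q3.symm)
  have := (hn.on_iff gq w).2 ⟨fi q (cB z + B + 1) + t, by omega, by rw [← m2 t hm1, hm2]⟩
  rwa [q0, q1] at this

end Pool.Agent.FPP
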