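import Pool.Agent.P.MP_ecb9f8_pr.GoodP
import Pool.Agent.P.MP_ecb9f8_pr.Trap

open MeasureTheory ProbabilityTheory Set Filter

noncomputable section

namespace Pool.Agent.FPP

/-- translation -/
def sh (t : V) : V ≃ V := Equiv.addRight t

theorem sh_apply (t a : V) : sh t a = a + t := rfl

theorem sh_adj (t a b : V) : Adj (sh t a) (sh t b) ↔ Adj a b := by
  simp [Adj, sh_apply]

theorem Par.hundred {N : Seminorm ℝ (ℝ × ℝ)} {c : ℝ} {σ : ℕ → ℝ} {S Λ z : ℕ}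
    (hP : Par N c σ S Λ z) : 100 ≤ z := by
  obtain ⟨-, -, hS, hΛ, hz, -⟩ := hP
  nlinarith

theorem nomerge_shift (z : ℕ) (n η : ℤ) (j : ℕ) (ω : Env) :
    NoMerge z (pull (sh (0, 2 * (j : ℤ) * (z : ℤ) ^ 41)) ω) n η 0 ↔ NoMerge z ω n η j := by
  have e1 : sh (0, 2 * (j : ℤ) * (z : ℤ) ^ 41) (xs z 0) = xs z j := by
    simp only [sh_apply, xs]; ext
    · simp
    · simp only [Prod.snd_add]; push_cast; ring
  have e2 : sh (0, 2 * (j : ℤ) * (z : ℤ) ^ 41) (xs z (0 + 1)) = xs z (j + 1) := by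
    simp only [sh_apply, xs]; ext
    · simp
    · simp only [Prod.snd_add]; push_cast; ring
  have e3 : sh (0, 2 * (j : ℤ) * (z : ℤ) ^ 41) (ws z n η 0) = ws z n η j := by
    simp only [sh_apply, ws]; ext
    · simp
    · simp only [Prod.snd_add]; push_cast; ring
  unfold NoMerge
  apply not_congr
  constructor
  · rintro ⟨w, hw, h1, h2⟩
    rw [On_pull _ (sh_adj _), e1, e3] at h1
    rw [On_pull _ (sh_adj _), e2, e3] at h2
    exact ⟨_, by simpa [sh_apply] using hw, h1, h2⟩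
  · rintro ⟨w, hw, h1, h2⟩
    refine ⟨(sh (0, 2 * (j : ℤ) * (z : ℤ) ^ 41)).symm w, ?_, ?_, ?_⟩
    · simpa [sh] using hw
    · rw [On_pull _ (sh_adj _), e1, e3, Equiv.apply_symm_apply]; exact h1
    · rw [On_pull _ (sh_adj _), e2, e3, Equiv.apply_symm_apply]; exact h2

theorem avg_bound {P B : ENNReal} {J m : ℕ} {z : ℝ} (hz : 0 < z) (hJ : 0 < J)
    (hB : B ≤ ENNReal.ofReal z⁻¹) (hm : (m : ℝ) * z ≤ J)
    (h : (J : ENNReal) * P ≤ (J : ENNReal) * B + (m : ENNReal)) :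
    P ≤ ENNReal.ofReal (2 * z⁻¹) := by
  have h1 : (m : ENNReal) ≤ (J : ENNReal) * ENNReal.ofReal z⁻¹ := by
    rw [← ENNReal.ofReal_natCast m, ← ENNReal.ofReal_natCast J,
      ← ENNReal.ofReal_mul (by positivity)]
    apply ENNReal.ofReal_le_ofReal
    rw [← div_eq_mul_inv, le_div_iff₀ hz]; exact hm
  have h2 : (J : ENNReal) * P ≤ (J : ENNReal) * ENNReal.ofReal (2 * z⁻¹) := by
    calc (J : ENNReal) * P ≤ (J : ENNReal) * B + (m : ENNReal) := h
      _ ≤ (J : ENNReal) * ENNReal.ofReal z⁻¹ + (J : ENNReal) * ENNReal.ofReal z⁻¹ := by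
          gcongr
      _ = (J : ENNReal) * ENNReal.ofReal (2 * z⁻¹) := by
          rw [← mul_add, ← ENNReal.ofReal_add (by positivity) (by positivity), two_mul]
  exact (ENNReal.mul_le_mul_iff_right (by exact_mod_cast hJ.ne') (ENNReal.natCast_ne_top J)).1 h2

theorem nomerge_prob (G : Measure ℝ) [IsProbabilityMeasure G]
    {N : Seminorm ℝ (ℝ × ℝ)} {c : ℝ} {σ : ℕ → ℝ} {S Λ z : ℕ} (hP : Par N c σ S Λ z)
    (hg : PP G {ω | ¬ Good4 N S Λ z ω} ≤ ENNReal.ofReal ((z : ℝ)⁻¹)) {n η : ℤ}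
    (h1 : (z : ℤ) ^ 1021 ≤ n) (h2 : n ≤ (z : ℤ) ^ 1022) (hη : |η| ≤ (z : ℤ)) :
    PP G {ω | NoMerge z ω n η 0} ≤ ENNReal.ofReal (2 * (z : ℝ)⁻¹) := by
  classical
  have hz := hP.hundred
  have hz0 : 0 < z := by omega
  have key : ∀ j : ℕ, PP G {ω | NoMerge z ω n η j} = PP G {ω | NoMerge z ω n η 0} := by
    intro j
    have : {ω | NoMerge z ω n η j} =
        pull (sh (0, 2 * (j : ℤ) * (z : ℤ) ^ 41)) ⁻¹' {ω | NoMerge z ω n η 0} := by
      ext ω; exact (nomerge_shift z n η j ω).symm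
    rw [this]
    exact (mp_pull G _).measure_preimage (measurableSet_NoMerge z n η 0).nullMeasurableSet
  have hs := sum_measure_le G (Finset.range (z ^ 979)) (fun j => {ω | NoMerge z ω n η j})
    (fun j _ => measurableSet_NoMerge z n η j) {ω | ¬ Good4 N S Λ z ω} (z ^ 978) (by
      intro ω hω J hJ hA
      have hω' : Good4 N S Λ z ω := by simpa using hω
      refine le_trans (Finset.card_le_card ?_) (base_count hP hω'.1 h1 h2 hη)
      intro j hj
      exact Finset.mem_filter.2 ⟨hJ hj, hA j hj⟩)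
  simp only [key, Finset.sum_const, Finset.card_range, nsmul_eq_mul] at hs
  refine avg_bound (J := z ^ 979) (m := z ^ 978) (by exact_mod_cast hz0) (pow_pos hz0 _) hg ?_ hs
  push_cast
  rw [← pow_succ]

/-- the geodesics from `x` to `(n, 0)` and `(n, h)` do not meet near `(n, 0)` -/
def Deep2 (n : ℤ) (h : ℕ) (x : V) (ω : Env) : Prop :=
  ¬ ∃ w : V, nm (w - (n, 0)) ≤ 2 * (h : ℤ) ^ 1022 ∧ On ω x w (n, 0) ∧ On ω x w (n, (h : ℤ))

theorem mem_box {z : ℕ} {u : V} : u ∈ box z ↔ nm u ≤ (z : ℤ) ^ 1020 := by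
  simp only [box, Finset.mem_product, Finset.mem_Icc, nm_le_iff, abs_le]

theorem card_box (z : ℕ) : z ^ 2040 ≤ (box z).card := by
  have h : (Finset.Icc (-(z : ℤ) ^ 1020) ((z : ℤ) ^ 1020)).card = 2 * z ^ 1020 + 1 := by
    rw [Int.card_Icc]
    have : (z : ℤ) ^ 1020 + 1 - -(z : ℤ) ^ 1020 = ((2 * z ^ 1020 + 1 : ℕ) : ℤ) := by
      push_cast; ring
    rw [this, Int.toNat_natCast]
  rw [box, Finset.card_product, h]
  have : z ^ 2040 = z ^ 1020 * z ^ 1020 := by rw [← pow_add]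
  rw [this]
  exact Nat.mul_le_mul (by omega) (by omega)

theorem deep2_sub {n : ℤ} {h : ℕ} (hh : 1 ≤ h) {u : V} (hu : u ∈ box h) {ω : Env}
    (hd : Deep2 n h (-u) ω) :
    Deep h (pull (sh (-u + (n, 0))) ω) (-(n, 0)) u (0, (h : ℤ)) := by
  rintro ⟨w, hw, h1, h2⟩
  rw [On_pull _ (sh_adj _)] at h1 h2
  have e1 : sh (-u + (n, 0)) u = (n, 0) := by rw [sh_apply]; abel
  have e2 : sh (-u + (n, 0)) (-(n, 0)) = -u := by rw [sh_apply]; abel
  have e3 : sh (-u + (n, 0)) (u + (0, (h : ℤ))) = (n, (h : ℤ)) := by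
    rw [sh_apply]; ext <;> simp
  rw [e1, e2] at h1
  rw [e3, e2] at h2
  refine hd ⟨_, ?_, h1.symm, h2.symm⟩
  have e4 : sh (-u + (n, 0)) w - (n, 0) = w - u := by rw [sh_apply]; abel
  rw [e4]
  have h3 := nm_sub_le w u
  have h4 := mem_box.1 hu
  have h5 : (h : ℤ) ^ 1020 ≤ (h : ℤ) ^ 1022 :=
    pow_le_pow_right₀ (by exact_mod_cast hh) (by norm_num)
  linarith

theorem deep2_avg (G : Measure ℝ) [IsProbabilityMeasure G]
    {N : Seminorm ℝ (ℝ × ℝ)} {c : ℝ} {σ : ℕ → ℝ} {S Λ h : ℕ} (hP : Par N c σ S Λ h)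
    (hg : PP G {ω | ¬ Good4 N S Λ h ω} ≤ ENNReal.ofReal ((h : ℝ)⁻¹)) {n : ℤ}
    (hn : (h : ℤ) ^ 1022 < n) :
    ∃ x ∈ box h, PP G {ω | Deep2 n h x ω} ≤ ENNReal.ofReal (2 * (h : ℝ)⁻¹) := by
  classical
  have hz := hP.hundred
  have hz0 : 0 < h := by omega
  have hn0 : (0 : ℤ) ≤ n := le_trans (by positivity) hn.le
  have hs := sum_measure_le G (box h) (fun u => {ω | Deep h ω (-(n, 0)) u (0, (h : ℤ))})
    (fun u _ => measurableSet_Deep h _ u _) {ω | ¬ Good4 N S Λ h ω} (h ^ 2039) (by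
      intro ω hω J hJ hA
      have hω' : Good4 N S Λ h ω := by simpa using hω
      refine le_trans (Finset.card_le_card ?_)
        (local_count hP hω' (-(n, 0)) (0, (h : ℤ)) (by simp [nm]) (by
          rw [nm_neg]; simp only [nm, abs_zero]; rw [abs_of_nonneg hn0]
          exact lt_max_of_lt_left hn))
      intro j hj
      exact Finset.mem_filter.2 ⟨hJ hj, hA j hj⟩)
  have hcard := card_box h
  have hne : (box h).Nonempty := Finset.card_pos.1 (lt_of_lt_of_le (pow_pos hz0 _) hcard)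
  obtain ⟨u, hu, hmin⟩ := (box h).exists_min_image
    (fun u => PP G {ω | Deep h ω (-(n, 0)) u (0, (h : ℤ))}) hne
  have hb : PP G {ω | Deep h ω (-(n, 0)) u (0, (h : ℤ))} ≤ ENNReal.ofReal (2 * (h : ℝ)⁻¹) := by
    refine avg_bound (J := (box h).card) (m := h ^ 2039) (by exact_mod_cast hz0)
      (Finset.card_pos.2 hne) hg ?_ (le_trans ?_ hs)
    · have : ((h ^ 2040 : ℕ) : ℝ) ≤ ((box h).card : ℝ) := by exact_mod_cast hcard
      refine le_trans (le_of_eq ?_) this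
      push_cast
      rw [← pow_succ]
    · rw [← nsmul_eq_mul]
      exact Finset.card_nsmul_le_sum _ _ _ hmin
  refine ⟨-u, mem_box.2 (by rw [nm_neg]; exact mem_box.1 hu), le_trans ?_ hb⟩
  refine le_trans (measure_mono ?_) (measure_pull_le G (sh (-u + (n, 0))) _)
  intro ω hω
  exact deep2_sub hz0 hu hω

end Pool.Agent.FPP
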