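import Pool.Agent.P.MP_ecb9f8_pr.Defs2

open MeasureTheory ProbabilityTheory Set Filter

noncomputable section

namespace Pool.Agent.FPP

theorem colb_pt (b a y : ℤ) : colb b (pt b a y) = a := by
  simp [colb, pt]

theorem colb_add (b : ℤ) (u v : V) : colb b (u + v) = colb b u + colb b v := by
  simp only [colb, Prod.fst_add, Prod.snd_add]
  ring

theorem colb_sub (b : ℤ) (u v : V) : colb b (u - v) = colb b u - colb b v := by
  simp only [colb, Prod.fst_sub, Prod.snd_sub]
  ring

theorem eq_pt (b : ℤ) (v : V) : v = pt b (colb b v) v.2 := by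
  refine Prod.ext ?_ rfl
  simp [colb, pt]

theorem fib_zero (p : ℕ → V) (a : ℤ) : fib 0 p a = fi p a := by
  simp [fib, fi, colb]

theorem htb_zero (p : ℕ → V) : htb 0 p = ht p := by
  funext a
  rw [htb, ht, fib_zero]

theorem Adj.colb_le {b : ℤ} (hb : b = 0 ∨ b = 1) {u v : V} (h : Adj u v) :
    |colb b v - colb b u| ≤ 1 := by
  have h1 := Strip_adj h
  rw [abs_le]
  unfold colb
  rcases hb with rfl | rfl <;> omega

theorem ColB_fib_eq {b : ℤ} {p : ℕ → V} {a : ℤ} {t : ℕ} (h : colb b (p t) = a)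
    (h' : ∀ s < t, colb b (p s) < a) : fib b p a = t :=
  le_antisymm (Nat.sInf_le h) (not_lt.1 fun h1 =>
    (h' _ h1).ne (Nat.sInf_mem (s := {i : ℕ | colb b (p i) = a}) ⟨t, h⟩))

theorem Chain.fib_spec {b : ℤ} (hb : b = 0 ∨ b = 1) {p : ℕ → V} {k : ℕ} (h : Chain p k) {a : ℤ}
    (h1 : colb b (p 0) < a) (h2 : a ≤ colb b (p k)) :
    fib b p a ≤ k ∧ 0 < fib b p a ∧ p (fib b p a) = pt b a (htb b p a) ∧
      (p (fib b p a - 1) = pt b a (htb b p a) - (1, 0) ∨
        p (fib b p a - 1) = pt b a (htb b p a) - (0, 1)) ∧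
      ∀ i < fib b p a, colb b (p i) < a := by
  obtain ⟨t, -, h3, h4, h5⟩ := h.ivt (colb b) (fun u v huv => by
    have := (abs_le.1 (huv.colb_le hb)).2
    linarith) (Nat.zero_le k) le_rfl h1.le h2
  have h6 : ∀ s < t, colb b (p s) < a := fun s hs => h5 s (Nat.zero_le s) hs
  rw [htb, ColB_fib_eq h4 h6]
  obtain ⟨s, rfl⟩ : ∃ s, t = s + 1 := by
    cases t with
    | zero => exact absurd h4 h1.ne
    | succ s => exact ⟨s, rfl⟩
  have h7 := Strip_adj (h s h3)
  have h8 := h6 s (by omega)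
  refine ⟨h3, by omega, ?_, ?_, h6⟩
  · rw [← h4]
    exact eq_pt b _
  · simp only [Nat.add_sub_cancel, Prod.ext_iff, pt, Prod.fst_sub, Prod.snd_sub]
    unfold colb at h4 h8
    rcases hb with rfl | rfl <;> omega

theorem Chain.fib_lt {b : ℤ} (hb : b = 0 ∨ b = 1) {p : ℕ → V} {k : ℕ} (h : Chain p k) {a a' : ℤ}
    (h1 : colb b (p 0) < a) (hab : a < a') (h2 : a' ≤ colb b (p k)) :
    fib b p a < fib b p a' := by
  obtain ⟨-, -, a3, -, a5⟩ := h.fib_spec hb h1 (hab.le.trans h2)
  obtain ⟨-, -, b3, -, -⟩ := h.fib_spec hb (h1.trans hab) h2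
  have a6 : colb b (p (fib b p a)) = a := by rw [a3, colb_pt]
  have b6 : colb b (p (fib b p a')) = a' := by rw [b3, colb_pt]
  by_contra h3
  rcases (not_lt.1 h3).eq_or_lt with h4 | h4
  · rw [h4] at b6
    omega
  · have := a5 _ h4
    omega

theorem fib_congr {b : ℤ} (hb : b = 0 ∨ b = 1) {p q : ℕ → V} {k : ℕ} (h : Chain p k)
    (hq : ∀ t ≤ k, p t = q t) {a : ℤ} (h1 : colb b (p 0) < a) (h2 : a ≤ colb b (p k)) :
    fib b q a = fib b p a ∧ htb b q a = htb b p a := by
  obtain ⟨a1, -, a3, -, a5⟩ := h.fib_spec hb h1 h2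
  have e : fib b q a = fib b p a := ColB_fib_eq (by rw [← hq _ a1, a3, colb_pt]) fun s hs => by
    rw [← hq s (hs.le.trans a1)]
    exact a5 s hs
  exact ⟨e, by rw [htb, htb, e, hq _ a1]⟩

theorem Dirb.mono {b s : ℤ} {p : ℕ → V} {k j : ℕ} (h : Dirb b s p k) (hj : j ≤ k) :
    Dirb b s p j := by
  exact fun u v huv hv => h u v huv (hv.trans hj)

theorem ColB_ver {p : ℕ → V} {k : ℕ} (hp : Chain p k) {x y : ℤ}
    (h : ∀ i ≤ k, ¬ ((p i).1 = x ∧ (p i).2 = y + 1)) (h0 : (p 0).2 = y + 1 → (p 0).1 < x)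
    (hk : (p k).2 = y + 1 → x ≤ (p k).1) : Strip_c p k x y = Strip_c p k x (y + 1) := by
  have e : ∑ i ∈ Finset.range k, Strip_s x y (p i) (p (i + 1)) =
      ∑ i ∈ Finset.range k, Strip_s x (y + 1) (p i) (p (i + 1)) := by
    refine Finset.sum_congr rfl fun i hi => ?_
    rw [Finset.mem_range] at hi
    have h1 := h i hi.le
    have h2 := h (i + 1) hi
    have h3 := Strip_adj (hp i hi)
    unfold Strip_s
    split_ifs <;> omega
  have h1 := h k le_rfl
  unfold Strip_c
  rw [e]
  split_ifs <;> omega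

/-- planarity for the half plane `colb b ≤ a` -/
theorem strip_b {b : ℤ} (hb : b = 0 ∨ b = 1) {p q : ℕ → V} {k l : ℕ} {a : ℤ} (hp : Chain p k)
    (hq : Chain q l) (hpa : ∀ i ≤ k, colb b (p i) ≤ a) (hqa : ∀ j ≤ l, colb b (q j) ≤ a)
    (hpk : colb b (p k) = a) (hql : colb b (q l) = a) (h0 : (p 0).2 < (q 0).2)
    (hray1 : ∀ i ≤ k, (p i).2 = (q 0).2 → (q 0).1 < (p i).1)
    (hray2 : ∀ j ≤ l, (q j).2 = (p 0).2 → (p 0).1 < (q j).1)
    (hd : ∀ i ≤ k, ∀ j ≤ l, p i ≠ q j) : (p k).2 < (q l).2 := by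
  have off : ∀ j ≤ l, ∀ {x y : ℤ}, (q j).1 = x → (q j).2 = y →
      ∀ i ≤ k, ¬ ((p i).1 = x ∧ (p i).2 = y) := fun j hj x y hx hy i hi h =>
    hd i hi j hj (Prod.ext (h.1.trans hx.symm) (h.2.trans hy.symm))
  unfold colb at hpa hqa hpk hql
  have key : ∀ j ≤ l, Strip_c p k (q j).1 (q j).2 = 1 := by
    intro j hj
    induction j with
    | zero => exact Strip_start hp hray1 h0.le
    | succ j ih =>
      have hj' : j ≤ l := by omega
      rw [← ih hj']
      have r1 := hray2 j hj'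
      have r2 := hray2 (j + 1) hj
      have a1 := hqa j hj'
      have a2 := hqa (j + 1) hj
      rcases Strip_adj (hq j hj) with h | h | h | h
      · rw [h.1, h.2]
        exact (Strip_hor hp (off (j + 1) hj h.1 h.2)).symm
      · have e : (q j).1 = (q (j + 1)).1 + 1 := by omega
        rw [e, h.2]
        exact Strip_hor hp (off j hj' e rfl)
      · rw [h.1, h.2]
        exact (ColB_ver hp (off (j + 1) hj h.1 h.2) (by omega)
          (by rcases hb with rfl | rfl <;> omega)).symm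
      · have e : (q j).2 = (q (j + 1)).2 + 1 := by omega
        rw [e, h.1]
        exact ColB_ver hp (off j hj' rfl e) (by omega) (by rcases hb with rfl | rfl <;> omega)
  have east : ∀ n : ℕ, Strip_c p k ((q l).1 + n) (q l).2 = 1 := by
    intro n
    induction n with
    | zero => simpa using key l le_rfl
    | succ n ih =>
      rw [← ih, Nat.cast_succ, ← add_assoc]
      refine (Strip_hor hp fun i hi h => ?_).symm
      have := hpa i hi
      rcases hb with rfl | rfl <;> omega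
  have h1 : (p k).2 ≤ (q l).2 := by
    refine Strip_end (x := (q l).1 + ((((p 0).1 - (q l).1).natAbs + k : ℕ) : ℤ))
      (fun i hi => ?_) (east _)
    have h2 := (abs_le.1 ((abs_fst_le_nm _).trans (hp.nm_le (Nat.zero_le i) hi))).2
    rw [Prod.fst_sub] at h2
    omega
  refine lt_of_le_of_ne h1 fun h => hd k le_rfl l le_rfl (Prod.ext ?_ h)
  rw [h] at hpk
  linarith

/-- walks that stay together after meeting keep their order -/
theorem ord2 {b : ℤ} (hb : b = 0 ∨ b = 1) {p q : ℕ → V} {k l : ℕ} (hp : Chain p k)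
    (hq : Chain q l)
    (hm : ∀ i ≤ k, ∀ j ≤ l, p i = q j → ∀ t, i + t ≤ k → j + t ≤ l → p (i + t) = q (j + t))
    (h0 : (p 0).2 < (q 0).2)
    (hray1 : ∀ i ≤ k, (p i).2 = (q 0).2 → (q 0).1 < (p i).1)
    (hray2 : ∀ j ≤ l, (q j).2 = (p 0).2 → (p 0).1 < (q j).1) {a : ℤ}
    (h1 : colb b (p 0) < a) (h2 : colb b (q 0) < a) (h3 : a ≤ colb b (p k))
    (h4 : a ≤ colb b (q l)) : htb b p a ≤ htb b q a := by
  obtain ⟨p1, -, p2, -, p3⟩ := hp.fib_spec hb h1 h3
  obtain ⟨q1, -, q2, -, q3⟩ := hq.fib_spec hb h2 h4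
  have pa : colb b (p (fib b p a)) = a := by rw [p2, colb_pt]
  have qa : colb b (q (fib b q a)) = a := by rw [q2, colb_pt]
  by_cases hx : ∃ i ≤ fib b p a, ∃ j ≤ fib b q a, p i = q j
  · obtain ⟨i, hi, j, hj, e⟩ := hx
    have e1 : p (fib b p a) = q (fib b q a) := by
      rcases le_total (fib b p a - i) (fib b q a - j) with h | h
      · have e2 := hm i (by omega) j (by omega) e (fib b p a - i) (by omega) (by omega)
        rw [show i + (fib b p a - i) = fib b p a by omega] at e2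
        have : ¬ j + (fib b p a - i) < fib b q a := fun hh => by
          have := q3 _ hh
          rw [← e2] at this
          omega
        rwa [show j + (fib b p a - i) = fib b q a by omega] at e2
      · have e2 := hm i (by omega) j (by omega) e (fib b q a - j) (by omega) (by omega)
        rw [show j + (fib b q a - j) = fib b q a by omega] at e2
        have : ¬ i + (fib b q a - j) < fib b p a := fun hh => by
          have := p3 _ hh
          rw [e2] at this
          omega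
        rwa [show i + (fib b q a - j) = fib b p a by omega] at e2
    exact (congrArg Prod.snd e1).le
  · refine (strip_b hb (a := a) (hp.mono p1) (hq.mono q1) (fun i hi => ?_) (fun j hj => ?_) pa qa
      h0 (fun i hi => hray1 i (hi.trans p1)) (fun j hj => hray2 j (hj.trans q1))
      fun i hi j hj e => hx ⟨i, hi, j, hj, e⟩).le
    · rcases hi.eq_or_lt with rfl | hi
      · exact pa.le
      · exact (p3 i hi).le
    · rcases hj.eq_or_lt with rfl | hj
      · exact qa.le
      · exact (q3 j hj).le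

end Pool.Agent.FPP
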