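import Pool.Agent.P.MP_ecb9f8_pr.Mix

open MeasureTheory ProbabilityTheory Set Filter

noncomputable section

namespace Pool.Agent.FPP

theorem ES_mix_one (e : E) (w w' : Env) :
    mix ({e} : Set E) w w' = Function.update w e (w' e) := by
  funext f
  by_cases h : f = e
  · subst h; simp [mix]
  · simp [mix, h]

theorem ES_mix_a {T : Set E} {e : E} (he : e ∉ T) (w w' : Env) :
    mix T (mix {e} w w') (mix {e} w' w) = mix (insert e T) w w' := by
  funext f
  by_cases h : f = e
  · subst h; simp [mix, he]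
  · by_cases hT : f ∈ T <;> simp [mix, h, hT]

theorem ES_mix_b {T : Set E} {e : E} (he : e ∉ T) (w w' : Env) :
    mix (insert e T) (mix {e} w w') (mix {e} w' w) = mix T w w' := by
  funext f
  by_cases h : f = e
  · subst h; simp [mix, he]
  · by_cases hT : f ∈ T <;> simp [mix, h, hT]

theorem ES_mix_c {T : Set E} {e : E} (he : e ∉ T) (w w' : Env) :
    mix {e} (mix T w w') (mix T w' w) = mix (insert e T) w w' := by
  funext f
  by_cases h : f = e
  · subst h; simp [mix, he]
  · by_cases hT : f ∈ T <;> simp [mix, h, hT]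

theorem ES_mix_d (e : E) (w w' : Env) :
    mix {e} (mix {e} w w') (mix {e} w' w) = w := by
  funext f
  by_cases h : f = e
  · subst h; simp [mix]
  · simp [mix, h]

theorem ES_int_comp {α β : Type*} [MeasurableSpace α] [MeasurableSpace β] {μ : Measure α}
    {ν : Measure β} {φ : α → β} (h : MeasurePreserving φ μ ν) {f : β → ℝ} (mf : Measurable f) :
    ∫ x, f (φ x) ∂μ = ∫ y, f y ∂ν := by
  rw [← h.map_eq, integral_map h.measurable.aemeasurable mf.aestronglyMeasurable]

theorem ES_integrable {α : Type*} [MeasurableSpace α] {μ : Measure α} [IsFiniteMeasure μ]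
    {f : α → ℝ} (mf : Measurable f) (c : ℝ) (hc : ∀ x, |f x| ≤ c) : Integrable f μ :=
  Integrable.of_bound mf.aestronglyMeasurable c (Eventually.of_forall fun x => hc x)

theorem ES_abs_mul {u v b : ℝ} (hu : |u| ≤ b) (hv : |v| ≤ b) : |u * v| ≤ b * b := by
  rw [abs_mul]
  exact mul_le_mul hu hv (abs_nonneg _) ((abs_nonneg _).trans hu)

theorem ES_abs_sub {u v b : ℝ} (hu : |u| ≤ b) (hv : |v| ≤ b) : |u - v| ≤ 2 * b := by
  have := abs_sub u v
  linarith

theorem ES_abs_sq {u b : ℝ} (hu : |u| ≤ b) : |u ^ 2| ≤ b * b := by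
  rw [sq]; exact ES_abs_mul hu hu

theorem ES_abs_max {u b : ℝ} (hu : |u| ≤ b) : |max u 0| ≤ b := by
  rcases le_total u 0 with h | h
  · rw [max_eq_right h, abs_zero]; exact (abs_nonneg _).trans hu
  · rwa [max_eq_left h]

theorem ES_step (G : Measure ℝ) [IsProbabilityMeasure G] {F : Env → ℝ}
    (mF : Measurable F) {b : ℝ} (hb : ∀ ω, |F ω| ≤ b) {T : Set E} {e : E} (he : e ∉ T) :
    ∫ x, F x.1 * F (mix T x.1 x.2) ∂((PP G).prod (PP G)) -
        ∫ x, F x.1 * F (mix (insert e T) x.1 x.2) ∂((PP G).prod (PP G)) ≤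
      ∫ x, (max (F (mix {e} x.1 x.2) - F x.1) 0) ^ 2 ∂((PP G).prod (PP G)) := by
  set μ := (PP G).prod (PP G) with hμ
  have m1 : Measurable fun x : Env × Env => F x.1 := mF.comp measurable_fst
  have mm : ∀ U : Set E, Measurable fun x : Env × Env => F (mix U x.1 x.2) :=
    fun U => mF.comp (measurable_mix U)
  have hσ := mp_swap G ({e} : Set E)
  have hτ := mp_swap G T
  have a1 : ∫ x, F (mix {e} x.1 x.2) * F (mix (insert e T) x.1 x.2) ∂μ =
      ∫ x, F x.1 * F (mix T x.1 x.2) ∂μ := by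
    rw [← ES_int_comp hσ (f := fun x => F x.1 * F (mix T x.1 x.2)) (m1.mul (mm T))]
    simp only [ES_mix_a he, hμ]
  have a2 : ∫ x, F (mix {e} x.1 x.2) * F (mix T x.1 x.2) ∂μ =
      ∫ x, F x.1 * F (mix (insert e T) x.1 x.2) ∂μ := by
    rw [← ES_int_comp hσ (f := fun x => F x.1 * F (mix (insert e T) x.1 x.2))
      (m1.mul (mm (insert e T)))]
    simp only [ES_mix_b he, hμ]
  have a3 : ∫ x, (F (mix (insert e T) x.1 x.2) - F (mix T x.1 x.2)) ^ 2 ∂μ =
      ∫ x, (F (mix {e} x.1 x.2) - F x.1) ^ 2 ∂μ := by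
    rw [← ES_int_comp hτ (f := fun x => (F (mix {e} x.1 x.2) - F x.1) ^ 2)
      (((mm {e}).sub m1).pow_const 2)]
    simp only [ES_mix_c he, hμ]
  have a4 : ∫ x, (max (F x.1 - F (mix {e} x.1 x.2)) 0) ^ 2 ∂μ =
      ∫ x, (max (F (mix {e} x.1 x.2) - F x.1) 0) ^ 2 ∂μ := by
    rw [← ES_int_comp hσ (f := fun x => (max (F (mix {e} x.1 x.2) - F x.1) 0) ^ 2)
      ((((mm {e}).sub m1).max measurable_const).pow_const 2)]
    simp only [ES_mix_d, hμ]
  have i1 : Integrable (fun x : Env × Env => F x.1 * F (mix T x.1 x.2)) μ :=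
    ES_integrable (m1.mul (mm T)) _ fun x => ES_abs_mul (hb _) (hb _)
  have i2 : Integrable (fun x : Env × Env => F x.1 * F (mix (insert e T) x.1 x.2)) μ :=
    ES_integrable (m1.mul (mm _)) _ fun x => ES_abs_mul (hb _) (hb _)
  have i3 : Integrable (fun x : Env × Env => F (mix {e} x.1 x.2) * F (mix T x.1 x.2)) μ :=
    ES_integrable ((mm _).mul (mm _)) _ fun x => ES_abs_mul (hb _) (hb _)
  have i4 : Integrable
      (fun x : Env × Env => F (mix {e} x.1 x.2) * F (mix (insert e T) x.1 x.2)) μ :=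
    ES_integrable ((mm _).mul (mm _)) _ fun x => ES_abs_mul (hb _) (hb _)
  have i5 : Integrable
      (fun x : Env × Env => (F (mix (insert e T) x.1 x.2) - F (mix T x.1 x.2)) ^ 2) μ :=
    ES_integrable (((mm _).sub (mm _)).pow_const 2) _ fun x => ES_abs_sq (ES_abs_sub (hb _) (hb _))
  have i6 : Integrable (fun x : Env × Env => (F (mix {e} x.1 x.2) - F x.1) ^ 2) μ :=
    ES_integrable (((mm _).sub m1).pow_const 2) _ fun x => ES_abs_sq (ES_abs_sub (hb _) (hb _))
  have i7 : Integrable (fun x : Env × Env => (max (F (mix {e} x.1 x.2) - F x.1) 0) ^ 2) μ :=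
    ES_integrable ((((mm _).sub m1).max measurable_const).pow_const 2) _
      fun x => ES_abs_sq (ES_abs_max (ES_abs_sub (hb _) (hb _)))
  have i8 : Integrable (fun x : Env × Env => (max (F x.1 - F (mix {e} x.1 x.2)) 0) ^ 2) μ :=
    ES_integrable (((m1.sub (mm _)).max measurable_const).pow_const 2) _
      fun x => ES_abs_sq (ES_abs_max (ES_abs_sub (hb _) (hb _)))
  have a5 : ∫ x, (F (mix {e} x.1 x.2) - F x.1) ^ 2 ∂μ =
      ∫ x, (max (F (mix {e} x.1 x.2) - F x.1) 0) ^ 2 ∂μ +
        ∫ x, (max (F x.1 - F (mix {e} x.1 x.2)) 0) ^ 2 ∂μ := by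
    rw [← integral_add i7 i8]
    refine integral_congr_ae (Eventually.of_forall fun x => ?_)
    dsimp only
    rcases le_total (F x.1) (F (mix {e} x.1 x.2)) with h | h
    · rw [max_eq_left (sub_nonneg.2 h), max_eq_right (sub_nonpos.2 h)]; ring
    · rw [max_eq_right (sub_nonpos.2 h), max_eq_left (sub_nonneg.2 h)]; ring
  have a6 : ∫ x, (2 * ((F x.1 * F (mix T x.1 x.2) +
        F (mix {e} x.1 x.2) * F (mix (insert e T) x.1 x.2)) -
        (F x.1 * F (mix (insert e T) x.1 x.2) + F (mix {e} x.1 x.2) * F (mix T x.1 x.2)))) ∂μ ≤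
      ∫ x, ((F (mix (insert e T) x.1 x.2) - F (mix T x.1 x.2)) ^ 2 +
        (F (mix {e} x.1 x.2) - F x.1) ^ 2) ∂μ := by
    refine integral_mono (((i1.add i4).sub (i2.add i3)).const_mul 2) (i5.add i6) fun x => ?_
    dsimp only
    nlinarith [sq_nonneg ((F (mix (insert e T) x.1 x.2) - F (mix T x.1 x.2)) -
      (F (mix {e} x.1 x.2) - F x.1))]
  have i14 : Integrable (fun x : Env × Env => F x.1 * F (mix T x.1 x.2) +
      F (mix {e} x.1 x.2) * F (mix (insert e T) x.1 x.2)) μ := i1.add i4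
  have i23 : Integrable (fun x : Env × Env => F x.1 * F (mix (insert e T) x.1 x.2) +
      F (mix {e} x.1 x.2) * F (mix T x.1 x.2)) μ := i2.add i3
  rw [integral_const_mul, integral_sub i14 i23, integral_add i1 i4,
    integral_add i2 i3, integral_add i5 i6] at a6
  linarith

/-- Efron-Stein inequality for a bounded function of finitely many weights -/
theorem efron_stein (G : Measure ℝ) [IsProbabilityMeasure G] (S : Finset E) {F : Env → ℝ}
    (mF : Measurable F) {b : ℝ} (hb : ∀ ω, |F ω| ≤ b)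
    (hdep : ∀ ω ω' : Env, (∀ e ∈ S, ω e = ω' e) → F ω = F ω') :
    ∫ ω, F ω ^ 2 ∂(PP G) - (∫ ω, F ω ∂(PP G)) ^ 2 ≤
      ∫ ω, (∑ e ∈ S, ∫ x, (max (F (Function.update ω e x) - F ω) 0) ^ 2 ∂G) ∂(PP G) := by
  classical
  have key : ∀ T : Finset E, ∫ ω, F ω ^ 2 ∂(PP G) -
      ∫ x, F x.1 * F (mix (T : Set E) x.1 x.2) ∂((PP G).prod (PP G)) ≤
      ∑ e ∈ T, ∫ x, (max (F (mix {e} x.1 x.2) - F x.1) 0) ^ 2 ∂((PP G).prod (PP G)) := by
    intro T
    induction T using Finset.induction_on with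
    | empty =>
      have hm : ∀ x : Env × Env, mix ((∅ : Finset E) : Set E) x.1 x.2 = x.1 := by
        intro x; funext f; simp [mix]
      simp only [hm, Finset.sum_empty, ← sq]
      rw [ES_int_comp (measurePreserving_fst (μ := PP G) (ν := PP G)) (mF.pow_const 2), sub_self]
    | insert e T he ih =>
      rw [Finset.sum_insert he, Finset.coe_insert]
      have := ES_step G mF hb (T := (T : Set E)) (e := e) (by simpa using he)
      linarith
  have hS : ∫ x, F x.1 * F (mix (S : Set E) x.1 x.2) ∂((PP G).prod (PP G)) =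
      (∫ ω, F ω ∂(PP G)) ^ 2 := by
    have : ∀ x : Env × Env, F (mix (S : Set E) x.1 x.2) = F x.2 := by
      intro x
      refine hdep _ _ fun e he => ?_
      simp [mix, he]
    simp only [this]
    rw [integral_prod_mul, sq]
  have mK : ∀ e : E, Measurable fun y : Env × ℝ =>
      (max (F (Function.update y.1 e y.2) - F y.1) 0) ^ 2 := fun e =>
    (((mF.comp measurable_update').sub (mF.comp measurable_fst)).max measurable_const).pow_const 2
  have iK : ∀ e : E, Integrable (fun y : Env × ℝ =>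
      (max (F (Function.update y.1 e y.2) - F y.1) 0) ^ 2) ((PP G).prod G) := fun e =>
    ES_integrable (mK e) _ fun x => ES_abs_sq (ES_abs_max (ES_abs_sub (hb _) (hb _)))
  have hK : ∀ e : E, ∫ x, (max (F (mix {e} x.1 x.2) - F x.1) 0) ^ 2 ∂((PP G).prod (PP G)) =
      ∫ ω, ∫ x, (max (F (Function.update ω e x) - F ω) 0) ^ 2 ∂G ∂(PP G) := by
    intro e
    rw [← integral_prod _ (iK e),
      ← ES_int_comp ((MeasurePreserving.id (PP G)).prod (mp_eval G e)) (mK e)]
    simp only [ES_mix_one, Prod.map_fst, Prod.map_snd, id]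
  rw [integral_finsetSum _ fun e _ => (iK e).integral_prod_left, ← hS]
  refine (key S).trans (le_of_eq ?_)
  exact Finset.sum_congr rfl fun e _ => hK e

end Pool.Agent.FPP
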