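import Pool.Agent.P.MP_ecb9f8_pr.Path4
import Pool.Agent.P.MP_ecb9f8_pr.ES

open MeasureTheory ProbabilityTheory Set Filter

noncomputable section

namespace Pool.Agent.FPP

open Classical in
theorem Conc1_W (ω : Env) {p : ℕ → V} {k : ℕ} (hs : SA p k) (e : E) (t : ℝ) :
    W (Function.update ω e t) p 0 k ≤
      W ω p 0 k + if e ∈ (Finset.range k).image (ed p) then max t 0 else 0 := by
  have h1 : ∀ e', wt (Function.update ω e t) e' ≤ wt ω e' + if e' = e then max t 0 else 0 :=
    fun e' => by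
      split_ifs with h
      · rw [h, wt, Function.update_self]
        exact le_add_of_nonneg_left (wt_nonneg ω e)
      · rw [wt, Function.update_of_ne h, add_zero, wt]
  rw [W_range, W_range]
  refine (Finset.sum_le_sum fun i _ => h1 (ed p i)).trans ?_
  rw [Finset.sum_add_distrib]
  refine add_le_add le_rfl (le_of_eq ?_)
  split_ifs with h
  · obtain ⟨i, hi, rfl⟩ := Finset.mem_image.1 h
    rw [Finset.sum_eq_single_of_mem i hi fun j hj hne => if_neg fun e =>
      hne (hs.ed_inj (Finset.mem_range.1 hj) (Finset.mem_range.1 hi) e), if_pos rfl]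
  · exact Finset.sum_eq_zero fun j hj => if_neg fun e' => h (Finset.mem_image.2 ⟨j, hj, e'⟩)

theorem Conc1_step {σ l X X' t : ℝ} (hσ : (σ = 1 ∧ 0 ≤ l) ∨ (σ = -1 ∧ l ≤ 0)) (ht : 0 ≤ t)
    (h : X' ≤ X + t) : σ * Real.exp (l / 2 * X') - σ * Real.exp (l / 2 * X) ≤
      Real.exp (l / 2 * X) * (|l| / 2 * t * Real.exp (|l| / 2 * t)) := by
  have hy : 0 ≤ |l| / 2 * t := by positivity
  have hE := Real.exp_pos (l / 2 * X)
  have h1 := Real.add_one_le_exp (-(|l| / 2 * t))
  have h2 : Real.exp (|l| / 2 * t) * Real.exp (-(|l| / 2 * t)) = 1 := by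
    rw [← Real.exp_add, add_neg_cancel, Real.exp_zero]
  have h3 := Real.one_le_exp hy
  rcases hσ with ⟨rfl, hl⟩ | ⟨rfl, hl⟩
  · have h4 : Real.exp (l / 2 * X') ≤ Real.exp (l / 2 * X) * Real.exp (|l| / 2 * t) := by
      rw [← Real.exp_add, abs_of_nonneg hl, ← mul_add]
      exact Real.exp_le_exp.2 (mul_le_mul_of_nonneg_left h (by positivity))
    have h5 : Real.exp (|l| / 2 * t) - 1 ≤ |l| / 2 * t * Real.exp (|l| / 2 * t) := by nlinarith
    nlinarith
  · have h4 : Real.exp (l / 2 * X) * Real.exp (-(|l| / 2 * t)) ≤ Real.exp (l / 2 * X') := by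
      rw [← Real.exp_add, abs_of_nonpos hl]
      exact Real.exp_le_exp.2 (by nlinarith)
    have h5 : 1 - Real.exp (-(|l| / 2 * t)) ≤ |l| / 2 * t * Real.exp (|l| / 2 * t) := by nlinarith
    nlinarith

theorem Conc1_sq {a σ l X X' t : ℝ} (ha : 0 < a) (hl : |l| ≤ a / 2)
    (hσ : (σ = 1 ∧ 0 ≤ l) ∨ (σ = -1 ∧ l ≤ 0)) (h : X' ≤ X + max t 0) :
    (max (σ * Real.exp (l / 2 * X') - σ * Real.exp (l / 2 * X)) 0) ^ 2 ≤
      4 / a ^ 2 * l ^ 2 * Real.exp (l * X) * (1 + Real.exp (a * t)) := by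
  have h0 : 0 ≤ max t 0 := le_max_right _ _
  generalize hu : max t 0 = u at h h0
  have h1 : u ≤ 4 / a * Real.exp (a / 4 * u) := by
    have := Real.add_one_le_exp (a / 4 * u)
    rw [div_mul_eq_mul_div, le_div_iff₀ ha]
    linarith
  have h2 : Real.exp (|l| / 2 * u) ≤ Real.exp (a / 4 * u) :=
    Real.exp_le_exp.2 (mul_le_mul_of_nonneg_right (by linarith) h0)
  have h3 : max (σ * Real.exp (l / 2 * X') - σ * Real.exp (l / 2 * X)) 0 ≤
      Real.exp (l / 2 * X) * (|l| / 2 * (4 / a * Real.exp (a / 4 * u)) * Real.exp (a / 4 * u)) := by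
    refine max_le ((Conc1_step hσ h0 h).trans ?_) (by positivity)
    gcongr
  have h4 : Real.exp (a * u) ≤ 1 + Real.exp (a * t) := by
    rw [← hu]
    rcases le_total t 0 with ht | ht
    · rw [max_eq_right ht, mul_zero, Real.exp_zero]
      exact le_add_of_nonneg_right (Real.exp_pos _).le
    · rw [max_eq_left ht]
      exact le_add_of_nonneg_left zero_le_one
  refine (pow_le_pow_left₀ (le_max_right _ _) h3 2).trans ?_
  have e1 : Real.exp (l * X) = Real.exp (l / 2 * X) ^ 2 := by
    rw [← Real.exp_nat_mul]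
    congr 1
    push_cast
    ring
  have e2 : Real.exp (a * u) = Real.exp (a / 4 * u) ^ 4 := by
    rw [← Real.exp_nat_mul]
    congr 1
    push_cast
    ring
  refine le_of_eq_of_le ?_ (mul_le_mul_of_nonneg_left h4 (by positivity))
  rw [e1, e2, ← sq_abs l]
  field_simp
  ring

/-- the variance bound for exponentials of the truncated restricted passage time -/
theorem var_exp (G : Measure ℝ) [IsProbabilityMeasure G] (hG : Law G) :
    ∃ κ l₀ : ℝ, 0 < κ ∧ 0 < l₀ ∧ ∀ (x y : V) (K : ℕ) (b : ℝ), 0 ≤ b →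
      |y.1 - x.1| + |y.2 - x.2| ≤ (K : ℤ) → ∀ l : ℝ, |l| ≤ l₀ →
      ∫ ω, Real.exp (l * min (TK ω x y K) b) ∂(PP G) -
          (∫ ω, Real.exp (l / 2 * min (TK ω x y K) b) ∂(PP G)) ^ 2 ≤
        κ * K * l ^ 2 * ∫ ω, Real.exp (l * min (TK ω x y K) b) ∂(PP G) := by
  classical
  obtain ⟨-, ⟨a, ha, hint⟩, -⟩ := hG
  have hint' : Integrable (fun x : ℝ => 1 + Real.exp (a * x)) G := (integrable_const 1).add hint
  have hM : 0 < ∫ x, (1 + Real.exp (a * x)) ∂G := by
    rw [integral_add (integrable_const 1) hint]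
    have : 0 ≤ ∫ x, Real.exp (a * x) ∂G := integral_nonneg fun x => (Real.exp_pos _).le
    simp only [integral_const, probReal_univ, smul_eq_mul, mul_one]
    linarith
  refine ⟨4 / a ^ 2 * ∫ x, (1 + Real.exp (a * x)) ∂G, a / 2, by positivity, by positivity,
    fun x y K b hb hK l hl => ?_⟩
  obtain ⟨S, hS⟩ := TK_dep x y K
  obtain ⟨σ, hσ, hσ'⟩ : ∃ σ : ℝ, σ ^ 2 = 1 ∧ ((σ = 1 ∧ 0 ≤ l) ∨ (σ = -1 ∧ l ≤ 0)) := by
    rcases le_total 0 l with h | h
    · exact ⟨1, by norm_num, Or.inl ⟨rfl, h⟩⟩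
    · exact ⟨-1, by norm_num, Or.inr ⟨rfl, h⟩⟩
  have mX : Measurable fun ω : Env => min (TK ω x y K) b := (measurable_TK x y K).min measurable_const
  have bX : ∀ (s : ℝ) (ω : Env), Real.exp (s * min (TK ω x y K) b) ≤ Real.exp (|s| * b) :=
    fun s ω => Real.exp_le_exp.2 ((mul_le_mul_of_nonneg_right (le_abs_self s)
      (le_min (TK_nonneg ω x y K) hb)).trans
        (mul_le_mul_of_nonneg_left (min_le_right _ _) (abs_nonneg s)))
  have hσ1 : |σ| = 1 := by rcases hσ' with ⟨rfl, -⟩ | ⟨rfl, -⟩ <;> simp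
  have h1 := efron_stein G S (F := fun ω => σ * Real.exp (l / 2 * min (TK ω x y K) b))
    ((mX.const_mul _).exp.const_mul _) (b := Real.exp (|l / 2| * b))
    (fun ω => by rw [abs_mul, hσ1, one_mul, abs_of_pos (Real.exp_pos _)]; exact bX _ ω)
    (fun ω ω' h => by simp only [hS ω ω' h])
  have e1 : ∀ ω : Env, (σ * Real.exp (l / 2 * min (TK ω x y K) b)) ^ 2 =
      Real.exp (l * min (TK ω x y K) b) := fun ω => by
    rw [mul_pow, hσ, one_mul, ← Real.exp_nat_mul]
    congr 1
    push_cast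
    ring
  simp only [e1] at h1
  rw [integral_const_mul, mul_pow, hσ, one_mul] at h1
  refine h1.trans ?_
  rw [← integral_const_mul]
  refine integral_mono_of_nonneg (Eventually.of_forall fun ω => Finset.sum_nonneg fun e _ =>
    integral_nonneg fun x => sq_nonneg _) (Integrable.const_mul (Integrable.of_bound
      (mX.const_mul l).exp.aestronglyMeasurable (Real.exp (|l| * b)) (Eventually.of_forall fun ω =>
        (Real.norm_of_nonneg (Real.exp_pos _).le).trans_le (bX l ω))) _)
    (Eventually.of_forall fun ω => ?_)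
  obtain ⟨p, k, hk, hc, hs, rfl, rfl, hW⟩ := TK_attained ω hK
  set c : ℝ := (4 / a ^ 2 * ∫ x, (1 + Real.exp (a * x)) ∂G) * l ^ 2 *
    Real.exp (l * min (TK ω (p 0) (p k) K) b) with hc'
  have hc0 : 0 ≤ c := by positivity
  have h2 : ∀ e, ∫ t, (max (σ * Real.exp (l / 2 * min (TK (Function.update ω e t) (p 0) (p k) K) b) -
      σ * Real.exp (l / 2 * min (TK ω (p 0) (p k) K) b)) 0) ^ 2 ∂G ≤
        if e ∈ (Finset.range k).image (ed p) then c else 0 := fun e => by
    have h3 : ∀ t, min (TK (Function.update ω e t) (p 0) (p k) K) b ≤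
        min (TK ω (p 0) (p k) K) b + if e ∈ (Finset.range k).image (ed p) then max t 0 else 0 :=
      fun t => by
        have h4 := (TK_le_W (Function.update ω e t) hc hk).trans (Conc1_W ω hs e t)
        rw [hW] at h4
        rw [← min_add_add_right]
        refine min_le_min h4 (le_add_of_nonneg_right ?_)
        split_ifs
        · exact le_max_right _ _
        · exact le_rfl
    split_ifs with he
    · simp only [if_pos he] at h3
      refine (integral_mono_of_nonneg (Eventually.of_forall fun t => sq_nonneg _)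
        (hint'.const_mul (4 / a ^ 2 * l ^ 2 * Real.exp (l * min (TK ω (p 0) (p k) K) b)))
        (Eventually.of_forall fun t => Conc1_sq ha hl hσ' (h3 t))).trans_eq ?_
      rw [integral_const_mul, hc']
      ring
    · simp only [if_neg he] at h3
      refine le_of_eq (integral_eq_zero_of_ae (Eventually.of_forall fun t => ?_))
      have h4 := Conc1_step hσ' le_rfl (h3 t)
      rw [mul_zero, zero_mul, mul_zero] at h4
      simp only [max_eq_right h4]
      simp
  refine (Finset.sum_le_sum fun e _ => h2 e).trans ?_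
  rw [Finset.sum_ite_mem, Finset.sum_const, nsmul_eq_mul]
  have h5 : ((S ∩ (Finset.range k).image (ed p)).card : ℝ) ≤ K := by
    have h6 := (Finset.card_le_card (Finset.inter_subset_right (s₁ := S))).trans
      (Finset.card_image_le (s := Finset.range k) (f := ed p))
    rw [Finset.card_range] at h6
    exact_mod_cast h6.trans hk
  refine (mul_le_mul_of_nonneg_right h5 hc0).trans_eq ?_
  rw [hc']
  ring

end Pool.Agent.FPP
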