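import Pool.Agent.P.MP_ecb9f8_pr.Mix

open MeasureTheory ProbabilityTheory Set Filter

noncomputable section

namespace Pool.Agent.FPP

variable (G : Measure ℝ) [IsProbabilityMeasure G]

/-- functions of disjoint sets of weights are independent -/
theorem lintegral_prod_dep {ι : Type*} (I : Finset ι) (R : ι → Set E)
    (hR : ∀ i ∈ I, ∀ j ∈ I, i ≠ j → Disjoint (R i) (R j)) (φ : ι → Env → ENNReal)
    (mφ : ∀ i ∈ I, Measurable (φ i))
    (hdep : ∀ i ∈ I, ∀ ω ω' : Env, (∀ e ∈ R i, ω e = ω' e) → φ i ω = φ i ω') :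
    ∫⁻ ω, ∏ i ∈ I, φ i ω ∂(PP G) = ∏ i ∈ I, ∫⁻ ω, φ i ω ∂(PP G) := by
  classical
  induction I using Finset.induction_on with
  | empty => simp
  | insert a I ha ih =>
    have m1 : Measurable fun ω => ∏ i ∈ I, φ i ω :=
      Finset.measurable_prod _ fun i hi => mφ i (Finset.mem_insert_of_mem hi)
    have m0 := mφ a (Finset.mem_insert_self _ _)
    simp only [Finset.prod_insert ha]
    rw [← ih (fun i hi j hj => hR i (Finset.mem_insert_of_mem hi) j (Finset.mem_insert_of_mem hj))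
      (fun i hi => mφ i (Finset.mem_insert_of_mem hi))
      (fun i hi => hdep i (Finset.mem_insert_of_mem hi)),
      ← (mp_mix G (R a)).lintegral_comp (f := fun ω => φ a ω * ∏ i ∈ I, φ i ω) (m0.mul m1),
      mul_comm,
      ← lintegral_prod_mul m1.aemeasurable m0.aemeasurable]
    refine lintegral_congr fun x => ?_
    rw [mul_comm]
    congr 1
    · refine Finset.prod_congr rfl fun i hi => hdep i (Finset.mem_insert_of_mem hi) _ _ ?_
      intro e he
      have : e ∉ R a := fun h => Set.disjoint_left.1 (hR a (Finset.mem_insert_self _ _) i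
        (Finset.mem_insert_of_mem hi) (fun h => ha (h ▸ hi))) h he
      simp [mix, this]
    · refine hdep a (Finset.mem_insert_self _ _) _ _ fun e he => ?_
      simp [mix, he]

theorem lintegral_prod_edges (S : Finset E) {φ : ℝ → ENNReal} (mφ : Measurable φ) :
    ∫⁻ ω, ∏ e ∈ S, φ (ω e) ∂(PP G) = (∫⁻ x, φ x ∂G) ^ S.card := by
  rw [lintegral_prod_dep G S (fun e => {e}) (fun i _ j _ h => Set.disjoint_singleton.2 h)
    (fun e ω => φ (ω e)) (fun e _ => mφ.comp (measurable_pi_apply e))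
    (fun e _ ω ω' h => by rw [h e rfl]), ← Finset.prod_const]
  exact Finset.prod_congr rfl fun e _ => (mp_eval G e).lintegral_comp mφ

theorem lintegral_prod_path {p : ℕ → V} {k : ℕ}
    (hp : ∀ i < k, ∀ j < k, ed p i = ed p j → i = j) {φ : ℝ → ENNReal} (mφ : Measurable φ) :
    ∫⁻ ω, ∏ i ∈ Finset.range k, φ (ω (ed p i)) ∂(PP G) = (∫⁻ x, φ x ∂G) ^ k := by
  rw [lintegral_prod_dep G (Finset.range k) (fun i => {ed p i})
    (fun i hi j hj h => Set.disjoint_singleton.2 fun h' =>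
      h (hp i (Finset.mem_range.1 hi) j (Finset.mem_range.1 hj) h'))
    (fun i ω => φ (ω (ed p i))) (fun i _ => mφ.comp (measurable_pi_apply _))
    (fun i _ ω ω' h => by rw [h _ rfl])]
  rw [Finset.prod_congr rfl fun i _ => (mp_eval G (ed p i)).lintegral_comp mφ,
    Finset.prod_const, Finset.card_range]

open Classical in
/-- lower tail for the number of independent events that occur -/
theorem chernoff {ι : Type*} (I : Finset ι) (R : ι → Set E)
    (hR : ∀ i ∈ I, ∀ j ∈ I, i ≠ j → Disjoint (R i) (R j)) (B : ι → Set Env)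
    (mB : ∀ i ∈ I, MeasurableSet (B i))
    (hdep : ∀ i ∈ I, ∀ ω ω' : Env, (∀ e ∈ R i, ω e = ω' e) → ω ∈ B i → ω' ∈ B i) (m : ℕ)
    (hm : 4 * (m : ℝ) ≤ ∑ i ∈ I, (PP G (B i)).toReal) :
    PP G {ω | (I.filter (fun i => ω ∈ B i)).card < m} ≤ ENNReal.ofReal (Real.exp (-(m : ℝ))) := by
  set φ : ι → Env → ENNReal := fun i ω => if ω ∈ B i then 2⁻¹ else 1 with hφ
  have mφ : ∀ i ∈ I, Measurable (φ i) := fun i hi =>
    Measurable.ite (mB i hi) measurable_const measurable_const
  have h1 := lintegral_prod_dep G I R hR φ mφ (fun i hi ω ω' h => by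
    have : ω ∈ B i ↔ ω' ∈ B i := ⟨hdep i hi ω ω' h, hdep i hi ω' ω fun e he => (h e he).symm⟩
    simp only [hφ, this])
  have h2 : ∀ i ∈ I, ∫⁻ ω, φ i ω ∂(PP G) ≤
      ENNReal.ofReal (Real.exp (-(PP G (B i)).toReal / 2)) := by
    intro i hi
    have e1 : ∫⁻ ω, φ i ω ∂(PP G) = 2⁻¹ * PP G (B i) + PP G (B i)ᶜ := by
      rw [← lintegral_add_compl _ (mB i hi),
        setLIntegral_congr_fun (mB i hi) (g := fun _ => 2⁻¹) (fun ω h => if_pos h),
        setLIntegral_congr_fun (mB i hi).compl (g := fun _ => 1) (fun ω h => if_neg h)]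
      simp
    rw [e1, ENNReal.le_ofReal_iff_toReal_le (by finiteness) (Real.exp_pos _).le,
      ENNReal.toReal_add (by finiteness) (by finiteness), ENNReal.toReal_mul,
      prob_compl_eq_one_sub (mB i hi), ENNReal.toReal_sub_of_le prob_le_one (by simp)]
    have := Real.add_one_le_exp (-(PP G (B i)).toReal / 2)
    simp only [ENNReal.toReal_inv, ENNReal.toReal_ofNat, ENNReal.toReal_one]
    linarith
  have h3 : ∫⁻ ω, ∏ i ∈ I, φ i ω ∂(PP G) ≤ ENNReal.ofReal (Real.exp (-(2 * m : ℝ))) := by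
    rw [h1]
    refine (Finset.prod_le_prod' h2).trans ?_
    rw [← ENNReal.ofReal_prod_of_nonneg fun _ _ => (Real.exp_pos _).le, ← Real.exp_sum]
    refine ENNReal.ofReal_le_ofReal (Real.exp_le_exp.2 ?_)
    rw [← Finset.sum_div, Finset.sum_neg_distrib]
    linarith
  have h4 := mul_meas_ge_le_lintegral (μ := PP G) (Finset.measurable_prod I mφ)
    (ENNReal.ofReal (Real.exp (-(m : ℝ))))
  have h5 : {ω : Env | (I.filter (fun i => ω ∈ B i)).card < m} ⊆
      {ω | ENNReal.ofReal (Real.exp (-(m : ℝ))) ≤ ∏ i ∈ I, φ i ω} := by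
    intro ω hω
    simp only [Set.mem_ofPred_eq, hφ] at hω ⊢
    rw [Finset.prod_ite, Finset.prod_const, Finset.prod_const_one, mul_one]
    have a1 : ENNReal.ofReal (Real.exp (-1)) ≤ 2⁻¹ := by
      rw [← ENNReal.ofReal_ofNat, ← ENNReal.ofReal_inv_of_pos (by norm_num), Real.exp_neg]
      refine ENNReal.ofReal_le_ofReal (inv_anti₀ (by norm_num) ?_)
      linarith [Real.add_one_le_exp 1]
    calc ENNReal.ofReal (Real.exp (-(m : ℝ))) = ENNReal.ofReal (Real.exp (-1)) ^ m := by
          rw [← ENNReal.ofReal_pow (Real.exp_pos _).le, ← Real.exp_nat_mul]; simp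
      _ ≤ 2⁻¹ ^ m := pow_le_pow_left' a1 m
      _ ≤ _ := pow_le_pow_right_of_le_one' (by simp) hω.le
  have h6 := (mul_le_mul_right (measure_mono h5) _).trans (h4.trans h3)
  have e : ENNReal.ofReal (Real.exp (-(2 * m : ℝ))) =
      ENNReal.ofReal (Real.exp (-(m : ℝ))) * ENNReal.ofReal (Real.exp (-(m : ℝ))) := by
    rw [← ENNReal.ofReal_mul (Real.exp_pos _).le, ← Real.exp_add]; congr 2; ring
  rw [e] at h6
  exact (ENNReal.mul_le_mul_iff_right (by simpa using Real.exp_pos _) (by simp)).1 h6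

end Pool.Agent.FPP
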