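import Pool.Agent.P.MP_ecb9f8_pr.Path4
import Pool.Agent.P.MP_ecb9f8_pr.Indep

open MeasureTheory ProbabilityTheory Set Filter

noncomputable section

namespace Pool.Agent.FPP

variable (G : Measure ℝ) [IsProbabilityMeasure G]

theorem PathCount_markov {p : ℕ → V} {k : ℕ} (hp : SA p k) {φ : ℝ → ENNReal}
    (mφ : Measurable φ) {M c : ℝ} (hM0 : 0 ≤ M) (hM : ∫⁻ x, φ x ∂G ≤ ENNReal.ofReal M) (hc : 0 < c)
    {A : Set Env}
    (hA : ∀ ω ∈ A, ENNReal.ofReal c ≤ ∏ i ∈ Finset.range k, φ (ω (ed p i))) :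
    PP G A ≤ ENNReal.ofReal (M ^ k / c) := by
  have hm : Measurable fun ω : Env => ∏ i ∈ Finset.range k, φ (ω (ed p i)) :=
    Finset.measurable_prod _ fun i _ => mφ.comp (measurable_pi_apply _)
  refine (measure_mono hA).trans ((meas_ge_le_lintegral_div hm.aemeasurable
    (ENNReal.ofReal_pos.2 hc).ne' ENNReal.ofReal_ne_top).trans ?_)
  rw [lintegral_prod_path G (fun i hi j hj h => hp.ed_inj hi hj h) mφ,
    ENNReal.ofReal_div_of_pos hc, ENNReal.ofReal_pow hM0]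
  exact ENNReal.div_le_div_right (pow_le_pow_left' hM k) _

open Classical in
theorem PathCount_one {Bd : Set ℝ} (mB : MeasurableSet Bd) {θ : ℝ} (hθ : 1 ≤ θ)
    (hB : G Bd ≤ ENNReal.ofReal θ⁻¹) {p : ℕ → V} {k : ℕ} (hp : SA p k) (j : ℕ) :
    PP G {ω | j ≤ ((Finset.range k).filter (fun i => ω (ed p i) ∈ Bd)).card} ≤
      ENNReal.ofReal (2 ^ k / θ ^ j) := by
  have hθ0 : 0 < θ := lt_of_lt_of_le one_pos hθ
  refine PathCount_markov G hp (φ := fun x => if x ∈ Bd then ENNReal.ofReal θ else 1)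
    (Measurable.ite mB measurable_const measurable_const) (by norm_num) ?_ (pow_pos hθ0 j) ?_
  · calc ∫⁻ x, (if x ∈ Bd then ENNReal.ofReal θ else 1) ∂G
        ≤ ∫⁻ x, (Bd.indicator (fun _ => ENNReal.ofReal θ) x + 1) ∂G := by
          refine lintegral_mono fun x => ?_
          by_cases h : x ∈ Bd
          · simp [h]
          · simp [h]
      _ = ENNReal.ofReal θ * G Bd + 1 := by
          rw [lintegral_add_right _ measurable_const, lintegral_indicator_const mB]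
          simp
      _ ≤ ENNReal.ofReal θ * ENNReal.ofReal θ⁻¹ + 1 := by gcongr
      _ = ENNReal.ofReal 2 := by
          rw [← ENNReal.ofReal_mul hθ0.le, mul_inv_cancel₀ hθ0.ne', ENNReal.ofReal_one,
            one_add_one_eq_two, ENNReal.ofReal_ofNat]
  · intro ω hω
    rw [Finset.prod_ite, Finset.prod_const, Finset.prod_const_one, mul_one,
      ENNReal.ofReal_pow hθ0.le]
    exact pow_le_pow_right' (ENNReal.one_le_ofReal.2 hθ) hω

open Classical in
/-- no short self-avoiding walk has many edges with an unlikely weight -/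
theorem pathcount {Bd : Set ℝ} (mB : MeasurableSet Bd) {θ : ℝ} (hθ : 1 ≤ θ)
    (hB : G Bd ≤ ENNReal.ofReal θ⁻¹) (v : V) (K j : ℕ) :
    PP G {ω | ∃ (p : ℕ → V) (k : ℕ), k ≤ K ∧ Chain p k ∧ SA p k ∧ p 0 = v ∧
        j ≤ ((Finset.range k).filter (fun i => ω (ed p i) ∈ Bd)).card} ≤
      ENNReal.ofReal (((K : ℝ) + 1) * 8 ^ K / θ ^ j) := by
  have hθ0 : 0 < θ ^ j := pow_pos (lt_of_lt_of_le one_pos hθ) j
  have hsub : {ω : Env | ∃ (p : ℕ → V) (k : ℕ), k ≤ K ∧ Chain p k ∧ SA p k ∧ p 0 = v ∧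
        j ≤ ((Finset.range k).filter (fun i => ω (ed p i) ∈ Bd)).card} ⊆
      ⋃ k ∈ Finset.range (K + 1), ⋃ q ∈ (paths v k).filter (fun q => SA q k),
        {ω : Env | j ≤ ((Finset.range k).filter (fun i => ω (ed q i) ∈ Bd)).card} := by
    rintro ω ⟨p, k, hk, hc, hs, rfl, hj⟩
    simp only [mem_iUnion]
    refine ⟨k, Finset.mem_range.2 (Nat.lt_succ_of_le hk), fun t => p (min t k),
      Finset.mem_filter.2 ⟨norm_mem_paths hc, fun i hi i' hi' h => hs i hi i' hi' ?_⟩, ?_⟩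
    · simpa only [min_eq_left hi, min_eq_left hi'] using h
    · refine hj.trans (le_of_eq (congrArg Finset.card (Finset.filter_congr fun i hi => ?_)))
      have hi' := Finset.mem_range.1 hi
      simp only [ed, min_eq_left hi'.le, min_eq_left (Nat.succ_le_of_lt hi')]
  refine (measure_mono hsub).trans ((measure_biUnion_finset_le _ _).trans ?_)
  have h1 : ∀ k ∈ Finset.range (K + 1),
      PP G (⋃ q ∈ (paths v k).filter (fun q => SA q k),
        {ω : Env | j ≤ ((Finset.range k).filter (fun i => ω (ed q i) ∈ Bd)).card}) ≤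
      ENNReal.ofReal (8 ^ K / θ ^ j) := by
    intro k hk
    have hk' : k ≤ K := Nat.le_of_lt_succ (Finset.mem_range.1 hk)
    refine (measure_biUnion_finset_le _ _).trans ((Finset.sum_le_card_nsmul _ _ _ fun q hq =>
      PathCount_one G mB hθ hB (Finset.mem_filter.1 hq).2 j).trans ?_)
    rw [← ENNReal.ofReal_nsmul]
    refine ENNReal.ofReal_le_ofReal ?_
    have h2 : (((paths v k).filter (fun q => SA q k)).card : ℝ) ≤ 4 ^ k := by
      exact_mod_cast (Finset.card_filter_le _ _).trans (card_paths v k)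
    rw [nsmul_eq_mul, ← mul_div_assoc]
    refine div_le_div_of_nonneg_right ?_ hθ0.le
    calc _ ≤ (4 : ℝ) ^ k * 2 ^ k := mul_le_mul_of_nonneg_right h2 (by positivity)
      _ = 8 ^ k := by
          rw [← mul_pow]
          norm_num
      _ ≤ 8 ^ K := pow_le_pow_right₀ (by norm_num) hk'
  refine (Finset.sum_le_card_nsmul _ _ _ h1).trans ?_
  rw [← ENNReal.ofReal_nsmul, Finset.card_range, nsmul_eq_mul, ← mul_div_assoc]
  push_cast
  exact le_rfl

/-- upper tail of the weight of a fixed self-avoiding walk -/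
theorem upper_tail (hG : Law G) :
    ∃ β : ℕ, 1 ≤ β ∧ ∀ (K : ℕ) (p : ℕ → V) (k : ℕ), SA p k → k ≤ 2 * K →
      PP G {ω | (β : ℝ) * K ≤ W ω p 0 k} ≤ ENNReal.ofReal ((2 : ℝ) ^ K)⁻¹ := by
  obtain ⟨-, ⟨a, ha, hi⟩, -⟩ := hG
  obtain ⟨M, hM⟩ : ∃ M : ℝ, M = ∫ x, (Real.exp (a * x) + 1) ∂G := ⟨_, rfl⟩
  have hM1 : 1 ≤ M := by
    rw [hM, integral_add hi (integrable_const _)]
    have : 0 ≤ ∫ x, Real.exp (a * x) ∂G := integral_nonneg fun x => (Real.exp_pos _).le
    simpa using this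
  have hφ : ∫⁻ x, ENNReal.ofReal (Real.exp (a * max x 0)) ∂G ≤ ENNReal.ofReal M := by
    rw [hM, ofReal_integral_eq_lintegral_ofReal (f := fun x => Real.exp (a * x) + 1)
      (hi.add (integrable_const _))
      (Eventually.of_forall fun x => add_nonneg (Real.exp_pos _).le zero_le_one)]
    refine lintegral_mono fun x => ENNReal.ofReal_le_ofReal ?_
    have h := Real.exp_pos (a * x)
    rcases le_total x 0 with hx | hx
    · rw [max_eq_right hx, mul_zero, Real.exp_zero]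
      linarith
    · rw [max_eq_left hx]
      linarith
  refine ⟨⌈2 * M ^ 2 / a⌉₊ + 1, Nat.le_add_left _ _, fun K p k hp hk => ?_⟩
  obtain ⟨β, hβ⟩ : ∃ β : ℕ, β = ⌈2 * M ^ 2 / a⌉₊ + 1 := ⟨_, rfl⟩
  rw [← hβ]
  have h1 : 2 * M ^ 2 ≤ Real.exp (a * β) := by
    have h2 : 2 * M ^ 2 / a ≤ β := by
      rw [hβ]
      push_cast
      linarith [Nat.le_ceil (2 * M ^ 2 / a)]
    rw [div_le_iff₀ ha] at h2
    linarith [Real.add_one_le_exp (a * β)]
  refine (PathCount_markov G hp (φ := fun x => ENNReal.ofReal (Real.exp (a * max x 0)))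
    (by fun_prop) (by linarith) hφ (Real.exp_pos (a * (β * K))) ?_).trans
    (ENNReal.ofReal_le_ofReal ?_)
  · intro ω hω
    rw [← ENNReal.ofReal_prod_of_nonneg fun i _ => (Real.exp_pos _).le, ← Real.exp_sum,
      ← Finset.mul_sum]
    refine ENNReal.ofReal_le_ofReal (Real.exp_le_exp.2 (mul_le_mul_of_nonneg_left ?_ ha.le))
    have h2 : (β : ℝ) * K ≤ W ω p 0 k := hω
    rwa [W_range] at h2
  · rw [div_le_iff₀ (Real.exp_pos _), inv_mul_eq_div, le_div_iff₀ (by positivity),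
      ← mul_assoc, mul_comm (a * β), Real.exp_nat_mul]
    calc M ^ k * 2 ^ K ≤ M ^ (2 * K) * 2 ^ K :=
          mul_le_mul_of_nonneg_right (pow_le_pow_right₀ hM1 hk) (by positivity)
      _ = (2 * M ^ 2) ^ K := by rw [pow_mul, mul_pow, mul_comm]
      _ ≤ _ := pow_le_pow_left₀ (by positivity) h1 K

theorem PathCount_eps (hG : Law G) :
    ∃ ε : ℝ, 0 < ε ∧ G (Iic ε) ≤ ENNReal.ofReal (1024 : ℝ)⁻¹ := by
  have h0 : G (⋂ r > (0 : ℝ), Iic r) = 0 := by
    refine measure_mono_null (t := Iio 0 ∪ {0}) (fun x hx => ?_)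
      (measure_union_null hG.1 (hG.2.2 Real.volume_singleton))
    rw [Iio_union_right]
    simp only [mem_iInter, mem_Iic] at hx ⊢
    exact le_of_forall_gt_imp_ge_of_dense hx
  have h1 := tendsto_measure_biInter_gt (μ := G) (s := fun r : ℝ => Iic r) (a := 0)
    (fun r _ => measurableSet_Iic.nullMeasurableSet) (fun i j _ h => Iic_subset_Iic.2 h)
    ⟨1, one_pos, measure_ne_top _ _⟩
  rw [h0] at h1
  have h2 := h1.eventually (ge_mem_nhds (ENNReal.ofReal_pos.2
    (by norm_num : (0 : ℝ) < (1024 : ℝ)⁻¹)))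
  obtain ⟨ε, h3, h4⟩ := (h2.and self_mem_nhdsWithin).exists
  exact ⟨ε, h4, h3⟩

theorem PathCount_num {K n : ℕ} (h : K ≤ n) :
    (((2 * n : ℕ) : ℝ) + 1) * 8 ^ (2 * n) / 1024 ^ n ≤ ((2 : ℝ) ^ K)⁻¹ := by
  have h1 : ((2 * n : ℕ) : ℝ) + 1 ≤ 8 ^ n := by
    have := one_add_mul_le_pow (a := (7 : ℝ)) (by norm_num) n
    have h0 : (0 : ℝ) ≤ n := Nat.cast_nonneg n
    push_cast
    norm_num at this
    linarith
  have h2 : (2 : ℝ) ^ K ≤ 2 ^ n := pow_le_pow_right₀ (by norm_num) h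
  rw [div_le_iff₀ (by positivity), inv_mul_eq_div, le_div_iff₀ (by positivity)]
  calc _ ≤ (8 : ℝ) ^ n * 8 ^ (2 * n) * 2 ^ n := by gcongr
    _ = 1024 ^ n := by
        rw [pow_mul, ← mul_pow, ← mul_pow]
        norm_num

open Classical in
theorem PathCount_many {ω : Env} {p : ℕ → V} {ε : ℝ} (hε : 0 < ε) {n : ℕ}
    (h : W ω p 0 (2 * n) ≤ ε * n) :
    n ≤ ((Finset.range (2 * n)).filter (fun i => ω (ed p i) ∈ Iic ε)).card := by
  have h1 := Finset.card_filter_add_card_filter_not (s := Finset.range (2 * n))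
    (fun i => ω (ed p i) ∈ Iic ε)
  rw [Finset.card_range] at h1
  have h2 : (((Finset.range (2 * n)).filter (fun i => ¬ ω (ed p i) ∈ Iic ε)).card : ℝ) * ε ≤
      ε * n := by
    refine le_trans ?_ h
    rw [W_range, ← nsmul_eq_mul]
    refine (Finset.card_nsmul_le_sum _ (fun i => wt ω (ed p i)) ε fun i hi => ?_).trans
      (Finset.sum_le_sum_of_subset_of_nonneg (Finset.filter_subset _ _)
        fun i _ _ => wt_nonneg _ _)
    have h3 := (Finset.mem_filter.1 hi).2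
    rw [mem_Iic, not_le] at h3
    exact h3.le.trans (le_max_left _ _)
  rw [mul_comm] at h2
  have h3 := le_of_mul_le_mul_left h2 hε
  have h4 : ((Finset.range (2 * n)).filter (fun i => ¬ ω (ed p i) ∈ Iic ε)).card ≤ n := by
    exact_mod_cast h3
  omega

theorem len_pt (hG : Law G) :
    ∃ Λ β : ℕ, 2 ≤ Λ ∧ 1 ≤ β ∧ ∀ K : ℕ, ∀ x y : V, nm (y - x) ≤ (K : ℤ) →
      PP G {ω | ¬ LenOK ω x y (Λ * K) ((β : ℝ) * K)} ≤ ENNReal.ofReal (2 * ((2 : ℝ) ^ K)⁻¹) := by
  classical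
  obtain ⟨β, hβ, hup⟩ := upper_tail G hG
  obtain ⟨ε, hε, hGε⟩ := PathCount_eps G hG
  obtain ⟨L, hL1, hL⟩ : ∃ L : ℕ, 1 ≤ L ∧ (β : ℝ) ≤ ε * L := by
    refine ⟨⌈β / ε⌉₊ + 1, Nat.le_add_left _ _, ?_⟩
    rw [← div_le_iff₀' hε]
    push_cast
    linarith [Nat.le_ceil (β / ε)]
  refine ⟨2 * L, β, by omega, hβ, fun K x y hxy => ?_⟩
  obtain ⟨q, l, hq1, hq2, rfl, rfl, hl⟩ := exists_straight x y
  have hl' : l ≤ 2 * K := by
    have h1 := nm_le_iff.1 hxy
    simp only [Prod.fst_sub, Prod.snd_sub] at h1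
    omega
  have hKL : K ≤ L * K := Nat.le_mul_of_pos_left K hL1
  have hsub : {ω | ¬ LenOK ω (q 0) (q l) (2 * L * K) ((β : ℝ) * K)} ⊆
      {ω | (β : ℝ) * K ≤ W ω q 0 l} ∪
        {ω | ∃ (p : ℕ → V) (k : ℕ), k ≤ 2 * (L * K) ∧ Chain p k ∧ SA p k ∧ p 0 = q 0 ∧
          L * K ≤ ((Finset.range k).filter (fun i => ω (ed p i) ∈ Iic ε)).card} := by
    intro ω hω
    rw [mem_ofPred_eq, LenOK, not_and_or, mul_assoc] at hω
    rcases hω with h | h
    · exact Or.inl ((not_le.1 h).le.trans (TK_le_W ω hq1 (by omega)))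
    · push Not at h
      obtain ⟨p, k, h1, h2, h3, h4, h5⟩ := h
      refine Or.inr ⟨p, 2 * (L * K), le_rfl, h1.mono h4,
        fun i hi j hj => h2 i (hi.trans h4) j (hj.trans h4), h3, PathCount_many hε ?_⟩
      refine (W_mono ω p le_rfl h4).trans (h5.trans ?_)
      push_cast
      rw [← mul_assoc]
      exact mul_le_mul_of_nonneg_right hL (Nat.cast_nonneg K)
  refine (measure_mono hsub).trans ((measure_union_le _ _).trans ?_)
  rw [two_mul ((2 : ℝ) ^ K)⁻¹, ENNReal.ofReal_add (by positivity) (by positivity)]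
  refine add_le_add (hup K q l hq2 hl') ?_
  have h := pathcount G measurableSet_Iic (by norm_num) hGε (q 0) (2 * (L * K)) (L * K)
  refine le_trans (le_of_eq ?_) (h.trans (ENNReal.ofReal_le_ofReal (PathCount_num hKL)))
  congr

end Pool.Agent.FPP
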