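import Pool.Agent.P.MP_ecb9f8_pr.Conc1
import Pool.Agent.P.MP_ecb9f8_pr.AS
import Pool.Agent.P.MP_ecb9f8_pr.PathCount
import Pool.Agent.P.MP_ecb9f8_pr.Mean

open MeasureTheory ProbabilityTheory Set Filter

noncomputable section

namespace Pool.Agent.FPP

variable (G : Measure ℝ) [IsProbabilityMeasure G]

theorem Conc2_sq (K : ℕ) : (K : ℝ) ^ 2 ≤ 4 * 2 ^ K := by
  have h : ∀ K : ℕ, K ^ 2 ≤ 4 * 2 ^ K := fun K => by
    induction K with
    | zero => norm_num
    | succ K ih =>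
      have := K.lt_two_pow_self
      rcases Nat.eq_zero_or_pos K with rfl | h0
      · norm_num
      · rw [pow_succ 2]
        nlinarith
  exact_mod_cast h K

/-- two variables that agree off a small set have close means -/
theorem Conc2_mean {Ω : Type*} [MeasurableSpace Ω] (μ : Measure Ω) [IsProbabilityMeasure μ]
    {X D : Ω → ℝ} (mX : Measurable X) (mD : Measurable D) (hD : MemLp D 2 μ) {b k C p : ℝ}
    (hk : 1 ≤ k) (hb : 0 ≤ b) (h0 : ∀ ω, 0 ≤ D ω) (hX : ∀ ω, |X ω| ≤ b * k)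
    (hC : ∫ ω, D ω ^ 2 ∂μ ≤ C * k ^ 2) (hp : μ.real {ω | X ω ≠ D ω} ≤ p) :
    |∫ ω, X ω ∂μ - ∫ ω, D ω ∂μ| ≤ C + (b + 1) * (k ^ 2 * p) := by
  have mA : MeasurableSet {ω | X ω ≠ D ω} := (measurableSet_eq_fun mX mD).compl
  have iX : Integrable X μ := Integrable.of_bound mX.aestronglyMeasurable _ (ae_of_all _ hX)
  have k2 : 0 < k ^ 2 := by positivity
  have i1 : Integrable (fun ω => D ω ^ 2 / k ^ 2) μ := hD.integrable_sq.div_const _
  have i2 : Integrable ({ω | X ω ≠ D ω}.indicator fun _ => (b + 1) * k ^ 2) μ :=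
    (integrable_const _).indicator mA
  rw [← integral_sub iX (hD.integrable one_le_two), ← Real.norm_eq_abs]
  refine (norm_integral_le_of_norm_le (i1.add i2) (ae_of_all _ fun ω => ?_)).trans ?_
  · rw [Real.norm_eq_abs, Pi.add_apply]
    by_cases h : X ω = D ω
    · rw [h, sub_self, abs_zero, indicator_of_notMem (by simpa using h)]
      positivity
    · rw [indicator_of_mem (show ω ∈ {ω | X ω ≠ D ω} from h)]
      have h1 : D ω ≤ D ω ^ 2 / k ^ 2 + k ^ 2 := by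
        rw [← sub_le_iff_le_add, le_div_iff₀ k2]
        nlinarith [sq_nonneg (D ω - k ^ 2), mul_nonneg (h0 ω) k2.le]
      have h2 := abs_sub (X ω) (D ω)
      rw [abs_of_nonneg (h0 ω)] at h2
      have h3 : b * k ≤ b * k ^ 2 := mul_le_mul_of_nonneg_left (by nlinarith) hb
      linarith [hX ω]
  · rw [integral_add' i1 i2, integral_div, integral_indicator_const _ mA, smul_eq_mul]
    refine add_le_add ((div_le_iff₀ k2).2 hC) ?_
    rw [mul_comm, mul_assoc]
    exact mul_le_mul_of_nonneg_left (mul_le_mul_of_nonneg_left hp k2.le) (by linarith)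

/-- exponential concentration of passage times at the scale of the square root of the distance -/
theorem conc (hG : Law G) :
    ∃ c C : ℝ, 0 < c ∧ 0 < C ∧ ∀ ρ : ℕ, ∀ x y : V, nm (y - x) ≤ (ρ : ℤ) ^ 2 → ∀ u : ℝ, 0 ≤ u →
      u ≤ ρ → PP G {ω | u * ρ < |d ω x y - g G (y - x)|} ≤
        ENNReal.ofReal (C * Real.exp (-(c * u))) := by
  obtain ⟨κ, l₀, hκ, hl₀, hv⟩ := var_exp G hG
  obtain ⟨Λ, β, hΛ, hβ, hlen⟩ := len_pt G hG
  obtain ⟨C, hC, hm, -⟩ := moment_d G hG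
  have hΛ' : (0 : ℝ) < Λ := by exact_mod_cast lt_of_lt_of_le two_pos hΛ
  obtain ⟨a, a0, a1, a2, a3⟩ : ∃ a : ℝ, 0 < a ∧ a ≤ l₀ ∧ a ≤ 1 ∧ κ * Λ * a ≤ 1 / 4 := by
    refine ⟨min (min l₀ 1) (1 / 4 / (κ * Λ)), by positivity,
      (min_le_left _ _).trans (min_le_left _ _), (min_le_left _ _).trans (min_le_right _ _), ?_⟩
    rw [mul_comm]
    exact (le_div_iff₀ (by positivity)).1 (min_le_right _ _)
  obtain ⟨B, hB⟩ : ∃ B : ℝ, B = C + ((β : ℝ) + 1) * 8 := ⟨_, rfl⟩
  have B0 : 0 < B := by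
    rw [hB]
    positivity
  refine ⟨a / 2, 8 + Real.exp (a * B), by positivity, by positivity, fun ρ x y hxy u u0 u1 => ?_⟩
  have ep := Real.exp_pos (-(a / 2 * u))
  rcases lt_or_ge u (2 * B) with hu | hu
  · refine prob_le_one.trans (ENNReal.one_le_ofReal.2 ?_)
    have : 1 ≤ Real.exp (a * B) * Real.exp (-(a / 2 * u)) := by
      rw [← Real.exp_add]
      exact Real.one_le_exp (by nlinarith)
    nlinarith
  have r0 : (0 : ℝ) < ρ := by linarith
  have r1 : (1 : ℝ) ≤ ρ := by exact_mod_cast (Nat.cast_pos.1 r0 : 0 < ρ)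
  obtain ⟨K, hK⟩ : ∃ K : ℕ, K = ρ ^ 2 := ⟨_, rfl⟩
  have hKr : (K : ℝ) = (ρ : ℝ) ^ 2 := by rw [hK, Nat.cast_pow]
  have hxy' : nm (y - x) ≤ (K : ℤ) := by rwa [hK, Nat.cast_pow]
  have hst : |y.1 - x.1| + |y.2 - x.2| ≤ ((Λ * K : ℕ) : ℤ) := by
    have h1 := (nm_le_iff.1 hxy').1
    have h2 := (nm_le_iff.1 hxy').2
    have h3 : ((2 * K : ℕ) : ℤ) ≤ ((Λ * K : ℕ) : ℤ) := by exact_mod_cast Nat.mul_le_mul_right K hΛ
    rw [Prod.fst_sub] at h1
    rw [Prod.snd_sub] at h2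
    rw [Nat.cast_mul, Nat.cast_ofNat] at h3
    linarith
  have b0 : (0 : ℝ) ≤ β * K := by positivity
  have hv' := hv x y (Λ * K) (β * K) b0 hst
  have mX : Measurable fun ω => min (TK ω x y (Λ * K)) ((β : ℝ) * K) :=
    (measurable_TK x y _).min measurable_const
  have hX : ∀ ω, |min (TK ω x y (Λ * K)) ((β : ℝ) * K)| ≤ β * K := fun ω => by
    rw [abs_of_nonneg (le_min (TK_nonneg _ _ _ _) b0)]
    exact min_le_right _ _
  have hA : PP G {ω | min (TK ω x y (Λ * K)) ((β : ℝ) * K) ≠ d ω x y} ≤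
      ENNReal.ofReal (2 * ((2 : ℝ) ^ K)⁻¹) := by
    refine le_trans (measure_mono fun ω hω => ?_) (hlen K x y hxy')
    exact fun h => hω (by rw [min_eq_left h.1, h.d_eq hst])
  have k1 : (1 : ℝ) ≤ K := by
    rw [hKr]
    exact one_le_pow₀ r1
  have p2 : (0 : ℝ) < 2 ^ K := by positivity
  have hmean := Conc2_mean (PP G) mX (measurable_d x y) (memLp_d G hG x y) (C := C) k1
    (Nat.cast_nonneg β) (fun ω => d_nonneg ω x y) hX ((hm x y).trans
      (mul_le_mul_of_nonneg_left (pow_le_pow_left₀ (by exact_mod_cast nm_nonneg _)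
        (by exact_mod_cast hxy') 2) (by linarith)))
    (ENNReal.toReal_le_of_le_ofReal (by positivity) hA)
  have h8 : (K : ℝ) ^ 2 * (2 * ((2 : ℝ) ^ K)⁻¹) ≤ 8 := by
    rw [← mul_assoc, ← div_eq_mul_inv, div_le_iff₀ p2]
    linarith [Conc2_sq K]
  have hmean' := hmean.trans (add_le_add le_rfl (mul_le_mul_of_nonneg_left h8 (by positivity)))
  rw [← hB, integral_d] at hmean'
  have htail := aida_stroock_tail (PP G) mX hX (κ := κ * (Λ * K : ℕ)) (by positivity) hv'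
    (l := a / ρ) (by positivity) ((div_le_self a0.le r1).trans a1) (by
      have e : κ * ((Λ * K : ℕ) : ℝ) * (a / ρ) ^ 2 = κ * Λ * a * a := by
        rw [Nat.cast_mul, hKr]
        field_simp
      rw [e]
      nlinarith) (u * ρ / 2)
  have e : a / ρ * (u * ρ / 2) = a / 2 * u := by field_simp
  rw [e] at htail
  have h2 : ((2 : ℝ) ^ K)⁻¹ ≤ Real.exp (-(a / 2 * u)) := by
    rw [Real.exp_neg]
    refine inv_anti₀ (Real.exp_pos _) ?_
    rw [← Real.exp_log p2, Real.log_pow]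
    refine Real.exp_le_exp.2 ?_
    have := Real.log_two_gt_d9
    have h3 : u ≤ K := by nlinarith
    nlinarith
  refine le_trans (measure_mono fun ω hω => ?_) ((measure_union_le _ _).trans
    ((add_le_add hA htail).trans ?_))
  · refine or_iff_not_imp_left.2 fun h => ?_
    rw [mem_ofPred_eq, not_not] at h
    rw [mem_ofPred_eq, h]
    have h4 := abs_sub_le (d ω x y) (∫ ω, min (TK ω x y (Λ * K)) ((β : ℝ) * K) ∂(PP G))
      (g G (y - x))
    have h5 : u * ρ < _ := hω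
    nlinarith
  · rw [← ENNReal.ofReal_add (by positivity) (by positivity)]
    refine ENNReal.ofReal_le_ofReal ?_
    nlinarith [Real.exp_pos (a * B)]

end Pool.Agent.FPP
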