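import Pool.Agent.P.MP_ecb9f8_pr.Defs

open MeasureTheory ProbabilityTheory Set Filter

noncomputable section

namespace Pool.Agent.FPP

theorem Conv1_le (N : Seminorm ℝ (ℝ × ℝ)) (v : ℝ × ℝ) : N v ≤ (N (1, 0) + N (0, 1)) * ‖v‖ := by
  have e : v = v.1 • ((1 : ℝ), (0 : ℝ)) + v.2 • ((0 : ℝ), (1 : ℝ)) := by simp
  have h1 := map_add_le_add N (v.1 • ((1 : ℝ), (0 : ℝ))) (v.2 • ((0 : ℝ), (1 : ℝ)))
  rw [← e, map_smul_eq_mul, map_smul_eq_mul] at h1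
  have h2 := mul_le_mul_of_nonneg_right (norm_fst_le v) (apply_nonneg N (1, 0))
  have h3 := mul_le_mul_of_nonneg_right (norm_snd_le v) (apply_nonneg N (0, 1))
  linarith

theorem Conv1_cont (N : Seminorm ℝ (ℝ × ℝ)) : Continuous N := by
  refine (LipschitzWith.of_dist_le' (K := N (1, 0) + N (0, 1)) fun a b => ?_).continuous
  rw [Real.dist_eq, dist_eq_norm]
  exact (abs_sub_map_le_sub N a b).trans (Conv1_le N _)

theorem Conv1_zero (N : Seminorm ℝ (ℝ × ℝ)) {e w : ℝ × ℝ}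
    (he : e ∈ extremePoints ℝ (N.closedBall 0 1)) (h : N e + N w ≤ 1) : w = 0 := by
  have h1 : e + w ∈ N.closedBall 0 1 := N.mem_closedBall_zero.2 ((map_add_le_add N e w).trans h)
  have h2 : e - w ∈ N.closedBall 0 1 := N.mem_closedBall_zero.2 ((map_sub_le_add N e w).trans h)
  have h3 := (mem_extremePoints.1 he).2 _ h1 _ h2
    ⟨1 / 2, 1 / 2, by norm_num, by norm_num, by norm_num, by module⟩
  simpa using h3.1

theorem Conv1_par (N : Seminorm ℝ (ℝ × ℝ)) {u v : ℝ × ℝ}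
    (he : u + v ∈ extremePoints ℝ (N.closedBall 0 1)) (hu : 0 < N u) (hv : 0 < N v)
    (h : N u + N v = 1) : (N u)⁻¹ • u = u + v := by
  have h1 : ∀ w, 0 < N w → (N w)⁻¹ • w ∈ N.closedBall 0 1 := fun w hw => by
    rw [N.mem_closedBall_zero, map_smul_eq_mul, Real.norm_of_nonneg (inv_nonneg.2 hw.le),
      inv_mul_cancel₀ hw.ne']
  exact ((mem_extremePoints.1 he).2 _ (h1 u hu) _ (h1 v hv)
    ⟨N u, N v, hu, hv, h, by rw [smul_inv_smul₀ hu.ne', smul_inv_smul₀ hv.ne']⟩).1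

theorem Conv1_one (N : Seminorm ℝ (ℝ × ℝ)) {e : ℝ × ℝ}
    (he : e ∈ extremePoints ℝ (N.closedBall 0 1)) : N e = 1 ∧ ∀ v, v ≠ 0 → 0 < N v := by
  have h1 : N e ≤ 1 := N.mem_closedBall_zero.1 he.1
  have h2 : ∀ v, v ≠ 0 → 0 < N v := fun v hv =>
    (apply_nonneg N v).lt_of_ne' fun h => hv (Conv1_zero N he (by linarith))
  refine ⟨h1.antisymm (not_lt.1 fun h => ?_), h2⟩
  have h3 := h2 (1, 0) (by simp)
  have h4 := div_pos (sub_pos.2 h) h3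
  have h5 := Conv1_zero N he (w := ((1 - N e) / N (1, 0)) • ((1 : ℝ), (0 : ℝ))) (by
    rw [map_smul_eq_mul, Real.norm_of_nonneg h4.le, div_mul_cancel₀ _ h3.ne']
    linarith)
  exact h4.ne' (by simpa using congrArg Prod.fst h5)

theorem Conv1_strict (N : Seminorm ℝ (ℝ × ℝ)) {S : ℝ} {e : ℝ × ℝ}
    (he : e ∈ extremePoints ℝ (N.closedBall 0 1)) (he1 : 0 < e.1) (he2 : e.2 = S * e.1)
    {a b : ℝ × ℝ} (ha : a.2 < S * a.1) (hb : S * b.1 < b.2) : N (a + b) < N a + N b := by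
  obtain ⟨h1, hpos⟩ := Conv1_one N he
  have pa : 0 < N a := hpos a fun h => by simp [h] at ha
  have pb : 0 < N b := hpos b fun h => by simp [h] at hb
  by_contra hn
  obtain ⟨s, hs, es⟩ : ∃ s, 0 < s ∧ s = b.2 - S * b.1 := ⟨_, sub_pos.2 hb, rfl⟩
  obtain ⟨t, ht, et⟩ : ∃ t, 0 < t ∧ t = S * a.1 - a.2 := ⟨_, sub_pos.2 ha, rfl⟩
  obtain ⟨μ, hμ⟩ : ∃ μ : ℝ, μ • e = s • a + t • b := by
    refine ⟨(s * a.1 + t * b.1) / e.1, Prod.ext ?_ ?_⟩
    · simp [div_mul_cancel₀ _ he1.ne']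
    · simp only [Prod.smul_snd, Prod.snd_add, smul_eq_mul, he2]
      field_simp
      rw [es, et]
      ring
  have n : ∀ (r : ℝ) (v : ℝ × ℝ), 0 < r → N (r • v) = r * N v := fun r v hr => by
    rw [map_smul_eq_mul, Real.norm_of_nonneg hr.le]
  have h2 : |μ| = s * N a + t * N b := by
    have a1 : N (s • a + t • b) = |μ| := by rw [← hμ, map_smul_eq_mul, h1, mul_one]; rfl
    have a2 := map_add_le_add N (s • a) (t • b)
    have a3 := map_add_le_add N (s • a + t • b) (t • a + s • b)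
    have a4 := map_add_le_add N (t • a) (s • b)
    have a5 : s • a + t • b + (t • a + s • b) = (s + t) • (a + b) := by module
    rw [a5, n _ _ (add_pos hs ht)] at a3
    rw [n _ _ hs, n _ _ ht] at a2 a4
    have a6 := mul_le_mul_of_nonneg_left (not_lt.1 hn) (add_pos hs ht).le
    linarith
  have h3 : 0 < |μ| := by rw [h2]; positivity
  have h4 : μ ≠ 0 := abs_pos.1 h3
  have h5 : μ⁻¹ • s • a + μ⁻¹ • t • b = e := by rw [← smul_add, ← hμ, inv_smul_smul₀ h4]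
  have h6 : ∀ v, N (μ⁻¹ • v) = |μ|⁻¹ * N v := fun v => by
    rw [map_smul_eq_mul, norm_inv]; rfl
  have p1 : 0 < N (μ⁻¹ • s • a) := by rw [h6, n _ _ hs]; positivity
  have h7 := Conv1_par N (h5 ▸ he) p1 (by rw [h6, n _ _ ht]; positivity)
    (by rw [h6, h6, n _ _ hs, n _ _ ht, ← mul_add, ← h2, inv_mul_cancel₀ h3.ne'])
  rw [h5] at h7
  have h8 : (N (μ⁻¹ • s • a))⁻¹ * (μ⁻¹ * (s * t)) = 0 := by
    have a1 := congrArg Prod.fst h7
    have a2 := congrArg Prod.snd h7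
    simp only [Prod.smul_fst, Prod.smul_snd, smul_eq_mul] at a1 a2
    rw [et]
    linear_combination S * a1 - a2 - he2
  exact mul_ne_zero (inv_ne_zero p1.ne') (mul_ne_zero (inv_ne_zero h4) (mul_pos hs ht).ne') h8

/-- a strict triangle inequality across an extreme direction of slope `S` -/
theorem exc_of_extreme (N : Seminorm ℝ (ℝ × ℝ)) (hpos : ∀ v, v ≠ 0 → 0 < N v)
    (hsym : ∀ x y : ℝ, N (x, -y) = N (x, y)) {S₀ S S₁ : ℝ} (h0 : 0 < S₀) (h1 : S₀ < S)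
    (h2 : S < S₁) {e : ℝ × ℝ} (he : e ∈ extremePoints ℝ (N.closedBall 0 1)) (he1 : 0 < e.1)
    (he2 : e.2 = S * e.1) :
    ∃ c : ℝ, 0 < c ∧ ∀ a b : ℝ × ℝ, |a.2| ≤ S₀ * a.1 → S₁ * b.1 ≤ |b.2| →
      c * min ‖a‖ ‖b‖ ≤ N a + N b - N (a + b) := by
  have hK : IsCompact ((Metric.sphere (0 : ℝ × ℝ) 1 ×ˢ Metric.sphere (0 : ℝ × ℝ) 1) ∩
      ({p | |p.1.2| ≤ S₀ * p.1.1} ∩ {p | S₁ * p.2.1 ≤ |p.2.2|})) :=
    ((isCompact_sphere _ _).prod (isCompact_sphere _ _)).inter_right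
      ((isClosed_le (by fun_prop) (by fun_prop)).inter (isClosed_le (by fun_prop) (by fun_prop)))
  have hN := Conv1_cont N
  obtain ⟨c, hc, H⟩ := hK.exists_forall_le' (f := fun p => N p.1 + N p.2 - N (p.1 + p.2)) (a := 0)
    (by fun_prop) (by
      rintro ⟨⟨a1, a2⟩, b1, b2⟩ ⟨⟨ha, hb⟩, h3, h4⟩
      have h5 : |a2| ≤ S₀ * a1 := h3
      have h6 : S₁ * b1 ≤ |b2| := h4
      have h7 : |a2| < S * a1 := by
        have a0 : 0 ≤ a1 := nonneg_of_mul_nonneg_right ((abs_nonneg _).trans h5) h0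
        rcases a0.eq_or_lt with rfl | a0
        · have : a2 = 0 := by simpa using h5
          simp [this] at ha
        · exact h5.trans_lt (mul_lt_mul_of_pos_right h1 a0)
      have h8 : S * b1 < |b2| := by
        rcases lt_trichotomy b1 0 with b0 | rfl | b0
        · exact (mul_neg_of_pos_of_neg (h0.trans h1) b0).trans_le (abs_nonneg _)
        · rw [mul_zero, abs_pos]
          rintro rfl
          simp at hb
        · exact (mul_lt_mul_of_pos_right h2 b0).trans_le h6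
      refine sub_pos.2 ?_
      rcases lt_abs.1 h8 with h9 | h9
      · exact Conv1_strict N he he1 he2 (abs_lt.1 h7).2 h9
      · have := Conv1_strict N he he1 he2 (a := (a1, -a2)) (b := (b1, -b2))
          (neg_lt.1 (abs_lt.1 h7).1) h9
        rwa [Prod.mk_add_mk, ← neg_add, hsym, hsym, hsym] at this)
  refine ⟨c, hc, fun a b ha hb => ?_⟩
  have tri := sub_nonneg.2 (map_add_le_add N a b)
  rcases (norm_nonneg a).eq_or_lt with pa | pa
  · rwa [← pa, min_eq_left (norm_nonneg b), mul_zero]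
  rcases (norm_nonneg b).eq_or_lt with pb | pb
  · rwa [← pb, min_eq_right (norm_nonneg a), mul_zero]
  have u : ∀ v : ℝ × ℝ, 0 < ‖v‖ → ‖v‖⁻¹ • v ∈ Metric.sphere (0 : ℝ × ℝ) 1 := fun v hv => by
    rw [mem_sphere_zero_iff_norm, norm_smul, norm_inv, norm_norm, inv_mul_cancel₀ hv.ne']
  have h3 := H (‖a‖⁻¹ • a, ‖b‖⁻¹ • b) ⟨⟨u a pa, u b pb⟩, by
    change |‖a‖⁻¹ * a.2| ≤ S₀ * (‖a‖⁻¹ * a.1)
    rw [abs_mul, abs_of_pos (inv_pos.2 pa), mul_left_comm]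
    exact mul_le_mul_of_nonneg_left ha (inv_pos.2 pa).le, by
    change S₁ * (‖b‖⁻¹ * b.1) ≤ |‖b‖⁻¹ * b.2|
    rw [abs_mul, abs_of_pos (inv_pos.2 pb), mul_left_comm]
    exact mul_le_mul_of_nonneg_left hb (inv_pos.2 pb).le⟩
  obtain ⟨a', ea, ea'⟩ : ∃ a', ‖a‖⁻¹ • a = a' ∧ ‖a‖ • a' = a := ⟨_, rfl, smul_inv_smul₀ pa.ne' a⟩
  obtain ⟨b', eb, eb'⟩ : ∃ b', ‖b‖⁻¹ • b = b' ∧ ‖b‖ • b' = b := ⟨_, rfl, smul_inv_smul₀ pb.ne' b⟩
  simp only [ea, eb] at h3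
  have n : ∀ (r : ℝ) (v : ℝ × ℝ), 0 ≤ r → N (r • v) = r * N v := fun r v hr => by
    rw [map_smul_eq_mul, Real.norm_of_nonneg hr]
  have m0 := (lt_min pa pb).le
  have m1 := sub_nonneg.2 (min_le_left ‖a‖ ‖b‖)
  have m2 := sub_nonneg.2 (min_le_right ‖a‖ ‖b‖)
  generalize min ‖a‖ ‖b‖ = m at m0 m1 m2 ⊢
  have a1 := map_add_le_add N (m • (a' + b')) ((‖a‖ - m) • a' + (‖b‖ - m) • b')
  have a2 := map_add_le_add N ((‖a‖ - m) • a') ((‖b‖ - m) • b')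
  have a3 : m • (a' + b') + ((‖a‖ - m) • a' + (‖b‖ - m) • b') = ‖a‖ • a' + ‖b‖ • b' := by module
  rw [a3, ea', eb', n _ _ m0] at a1
  rw [n _ _ m1, n _ _ m2] at a2
  have a4 := n _ a' pa.le
  have a5 := n _ b' pb.le
  rw [ea'] at a4
  rw [eb'] at a5
  have a6 := mul_le_mul_of_nonneg_left h3 m0
  linarith

theorem seminorm_le (N : Seminorm ℝ (ℝ × ℝ)) : ∃ C : ℝ, 0 ≤ C ∧ ∀ v, N v ≤ C * ‖v‖ :=
  ⟨_, add_nonneg (apply_nonneg N _) (apply_nonneg N _), Conv1_le N⟩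

theorem pos_of_extreme (N : Seminorm ℝ (ℝ × ℝ)) {e : ℝ × ℝ}
    (he : e ∈ extremePoints ℝ (N.closedBall 0 1)) : N e = 1 ∧ ∀ v, v ≠ 0 → 0 < N v :=
  Conv1_one N he

end Pool.Agent.FPP
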