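import Pool.Agent.P.MP_ecb9f8_pr.Conv1

open MeasureTheory ProbabilityTheory Set Filter

noncomputable section

namespace Pool.Agent.FPP

theorem Conv2_map (N : Seminorm ℝ (ℝ × ℝ)) (L : (ℝ × ℝ) ≃ₗ[ℝ] (ℝ × ℝ)) (hL : ∀ v, N (L v) = N v)
    {e : ℝ × ℝ} (he : e ∈ extremePoints ℝ (N.closedBall 0 1)) :
    L e ∈ extremePoints ℝ (N.closedBall 0 1) := by
  have h : L '' N.closedBall 0 1 = N.closedBall 0 1 := by
    ext v
    constructor
    · rintro ⟨w, hw, rfl⟩
      rwa [Seminorm.mem_closedBall_zero, hL, ← Seminorm.mem_closedBall_zero]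
    · intro hv
      refine ⟨L.symm v, ?_, L.apply_symm_apply v⟩
      rwa [Seminorm.mem_closedBall_zero, ← hL, L.apply_symm_apply, ← Seminorm.mem_closedBall_zero]
  rw [← h, ← image_extremePoints]
  exact mem_image_of_mem _ he

theorem Conv2_swap (N : Seminorm ℝ (ℝ × ℝ)) (h2 : ∀ x y : ℝ, N (y, x) = N (x, y)) {e : ℝ × ℝ}
    (he : e ∈ extremePoints ℝ (N.closedBall 0 1)) :
    e.swap ∈ extremePoints ℝ (N.closedBall 0 1) :=
  Conv2_map N (LinearEquiv.prodComm ℝ ℝ ℝ) (fun v => h2 v.1 v.2) he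

theorem Conv2_abs2 (N : Seminorm ℝ (ℝ × ℝ)) (h1 : ∀ x y : ℝ, N (x, -y) = N (x, y)) {e : ℝ × ℝ}
    (he : e ∈ extremePoints ℝ (N.closedBall 0 1)) :
    (e.1, |e.2|) ∈ extremePoints ℝ (N.closedBall 0 1) := by
  rcases abs_choice e.2 with h | h <;> rw [h]
  · exact he
  · exact Conv2_map N ((LinearEquiv.refl ℝ ℝ).prodCongr (LinearEquiv.neg ℝ))
      (fun v => h1 v.1 v.2) he

theorem Conv2_abs (N : Seminorm ℝ (ℝ × ℝ)) (h1 : ∀ x y : ℝ, N (x, -y) = N (x, y))
    (h2 : ∀ x y : ℝ, N (y, x) = N (x, y)) {e : ℝ × ℝ}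
    (he : e ∈ extremePoints ℝ (N.closedBall 0 1)) :
    (|e.1|, |e.2|) ∈ extremePoints ℝ (N.closedBall 0 1) :=
  Conv2_swap N h2 (Conv2_abs2 N h1 (Conv2_swap N h2 (Conv2_abs2 N h1 he)))

theorem Conv2_card (N : Seminorm ℝ (ℝ × ℝ)) (h1 : ∀ x y : ℝ, N (x, -y) = N (x, y))
    (h2 : ∀ x y : ℝ, N (y, x) = N (x, y)) (T : Finset ℝ)
    (hT : ∀ t : ℝ, 1 < t → ∀ e ∈ extremePoints ℝ (N.closedBall 0 1), 0 < e.1 → e.2 = t * e.1 →
      t ∈ T) : ∃ A : Finset (ℝ × ℝ), A.card ≤ 8 * (T.card + 2) ∧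
      extremePoints ℝ (N.closedBall 0 1) ⊆ A := by
  classical
  let R₀ : Finset ℝ := insert 0 (insert 1 (T.image (·⁻¹)))
  let R : Finset ℝ := R₀ ∪ R₀.image (-·)
  let p : ℝ → ℝ × ℝ := fun r => (N (r, 1))⁻¹ • (r, 1)
  let A₀ : Finset (ℝ × ℝ) := R.image p ∪ R.image fun r => -p r
  have c0 : R₀.card ≤ T.card + 2 := (Finset.card_insert_le _ _).trans (Nat.succ_le_succ
    ((Finset.card_insert_le _ _).trans (Nat.succ_le_succ Finset.card_image_le)))
  have c1 : R.card ≤ R₀.card + R₀.card :=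
    (Finset.card_union_le _ _).trans (Nat.add_le_add_left Finset.card_image_le _)
  have c2 : A₀.card ≤ R.card + R.card :=
    (Finset.card_union_le _ _).trans (Nat.add_le_add Finset.card_image_le Finset.card_image_le)
  have c3 : (A₀ ∪ A₀.image Prod.swap).card ≤ A₀.card + A₀.card :=
    (Finset.card_union_le _ _).trans (Nat.add_le_add_left Finset.card_image_le _)
  have key : ∀ e ∈ extremePoints ℝ (N.closedBall 0 1), |e.1| ≤ |e.2| → e ∈ A₀ := by
    rintro ⟨x, y⟩ he hxy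
    have hN := (pos_of_extreme N he).1
    simp only at hxy
    have hy : y ≠ 0 := by
      rintro rfl
      obtain rfl : x = 0 := by simpa using hxy
      exact zero_ne_one ((map_zero N).symm.trans hN)
    have hy' : 0 < |y| := abs_pos.2 hy
    have m0 : |x / y| ∈ R₀ := by
      simp only [R₀, Finset.mem_insert, Finset.mem_image]
      rw [abs_div]
      rcases eq_or_ne x 0 with rfl | hx
      · exact Or.inl (by simp)
      · have hx' : 0 < |x| := abs_pos.2 hx
        rcases hxy.eq_or_lt with h | h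
        · exact Or.inr (Or.inl (by rw [h, div_self hy'.ne']))
        · exact Or.inr (Or.inr ⟨|y| / |x|, hT _ ((one_lt_div hx').2 h) _ (Conv2_abs N h1 h2 he) hx'
            (div_mul_cancel₀ _ hx'.ne').symm, inv_div _ _⟩)
    have m1 : x / y ∈ R := by
      rcases abs_choice (x / y) with h | h
      · exact Finset.mem_union_left _ (h ▸ m0)
      · exact Finset.mem_union_right _ (Finset.mem_image.2 ⟨_, m0, by rw [h, neg_neg]⟩)
    have e1 : (x, y) = y • (x / y, (1 : ℝ)) := by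
      rw [Prod.smul_mk, smul_eq_mul, smul_eq_mul, mul_one, mul_div_cancel₀ _ hy]
    have e2 : (N (x / y, 1))⁻¹ = |y| := by
      rw [e1, map_smul_eq_mul, Real.norm_eq_abs] at hN
      exact inv_eq_of_mul_eq_one_left hN
    rcases abs_choice y with h | h
    · exact Finset.mem_union_left _ (Finset.mem_image.2 ⟨_, m1, by
        simp only [p]; rw [e2, h, ← e1]⟩)
    · exact Finset.mem_union_right _ (Finset.mem_image.2 ⟨_, m1, by
        simp only [p]; rw [e2, h, neg_smul, neg_neg, ← e1]⟩)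
  refine ⟨A₀ ∪ A₀.image Prod.swap, by omega, fun e he => ?_⟩
  rcases le_total |e.1| |e.2| with h | h
  · exact Finset.mem_union_left _ (key e he h)
  · exact Finset.mem_union_right _ (Finset.mem_image.2 ⟨_, key _ (Conv2_swap N h2 he) h, rfl⟩)

/-- many extreme points give many extreme directions of slope larger than one -/
theorem slopes_of_sides (N : Seminorm ℝ (ℝ × ℝ)) (h1 : ∀ x y : ℝ, N (x, -y) = N (x, y))
    (h2 : ∀ x y : ℝ, N (y, x) = N (x, y))
    (h : (3000 : ℕ∞) ≤ (extremePoints ℝ (N.closedBall 0 1)).encard) :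
    ∃ T : ℕ → ℝ, 1 < T 0 ∧ (∀ j < 300, T j < T (j + 1)) ∧
      ∀ j ≤ 300, ∃ e ∈ extremePoints ℝ (N.closedBall 0 1), 0 < e.1 ∧ e.2 = T j * e.1 := by
  set S : Set ℝ := {t | 1 < t ∧ ∃ e ∈ extremePoints ℝ (N.closedBall 0 1), 0 < e.1 ∧ e.2 = t * e.1}
  have hS : ((301 : ℕ) : ℕ∞) ≤ S.encard := by
    by_contra h0
    have hf : S.Finite := finite_of_encard_le_coe (not_le.1 h0).le
    obtain ⟨A, hA, hE⟩ := Conv2_card N h1 h2 hf.toFinset fun t ht e he h3 h4 =>
      hf.mem_toFinset.2 ⟨ht, e, he, h3, h4⟩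
    rw [hf.encard_eq_coe_toFinset_card, Nat.cast_le] at h0
    have h5 := h.trans (encard_le_encard hE)
    rw [encard_coe_eq_coe_finsetCard] at h5
    have h6 : 3000 ≤ A.card := by exact_mod_cast h5
    omega
  obtain ⟨U, hU, hc⟩ := exists_subset_encard_eq hS
  have hf : U.Finite := finite_of_encard_eq_coe hc
  rw [hf.encard_eq_coe_toFinset_card, Nat.cast_inj] at hc
  have hm : ∀ i, hf.toFinset.orderEmbOfFin hc i ∈ S := fun i =>
    hU (hf.mem_toFinset.1 (Finset.orderEmbOfFin_mem _ hc i))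
  refine ⟨fun j => hf.toFinset.orderEmbOfFin hc ⟨min j 300, by omega⟩, (hm _).1,
    fun j hj => (hf.toFinset.orderEmbOfFin hc).strictMono ?_, fun j _ => (hm _).2⟩
  rw [Fin.mk_lt_mk]
  omega

theorem cone_of_sides (N : Seminorm ℝ (ℝ × ℝ)) (h1 : ∀ x y : ℝ, N (x, -y) = N (x, y))
    (h2 : ∀ x y : ℝ, N (y, x) = N (x, y))
    (h : (3000 : ℕ∞) ≤ (extremePoints ℝ (N.closedBall 0 1)).encard) :
    ∃ (c : ℝ) (σ : ℕ → ℝ), Cone N c σ := by
  obtain ⟨T, h0, hT, hE⟩ := slopes_of_sides N h1 h2 h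
  let σ : ℕ → ℝ := fun j => if j = 0 then 1 else T (2 * min j 130 - 1)
  have s1 : ∀ j < 130, σ j < T (2 * j) := fun j hj => by
    simp only [σ]
    split_ifs with h3
    · rw [h3]; exact h0
    · have := hT (2 * j - 1) (by omega)
      rwa [min_eq_left hj.le, show 2 * j = 2 * j - 1 + 1 by omega, Nat.add_sub_cancel]
  have s2 : ∀ j < 130, T (2 * j) < σ (j + 1) := fun j hj => by
    simp only [σ]
    rw [if_neg (by omega), min_eq_left (by omega)]
    exact hT (2 * j) (by omega)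
  have hm : Monotone σ := monotone_nat_of_le_succ fun j => by
    rcases lt_or_ge j 130 with hj | hj
    · exact ((s1 j hj).trans (s2 j hj)).le
    · simp only [σ]
      rw [if_neg (by omega), if_neg (by omega), min_eq_right hj, min_eq_right (by omega)]
  have hc : ∀ j, j < 130 → ∃ c : ℝ, 0 < c ∧ ∀ a b : ℝ × ℝ, |a.2| ≤ σ j * a.1 →
      σ (j + 1) * b.1 ≤ |b.2| → c * min ‖a‖ ‖b‖ ≤ N a + N b - N (a + b) := fun j hj => by
    obtain ⟨e, he, h3, h4⟩ := hE (2 * j) (by omega)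
    exact exc_of_extreme N (pos_of_extreme N he).2 h1 (one_pos.trans_le (hm (Nat.zero_le j)))
      (s1 j hj) (s2 j hj) he h3 h4
  choose! c hc0 hc using hc
  obtain ⟨i, hi, hmin⟩ := Finset.exists_min_image (Finset.range 130) c ⟨0, by simp⟩
  refine ⟨c i, σ, hc0 i (Finset.mem_range.1 hi), rfl, hm, fun j hj a b ha hb => ?_⟩
  exact (mul_le_mul_of_nonneg_right (hmin j (Finset.mem_range.2 hj))
    (le_min (norm_nonneg _) (norm_nonneg _))).trans (hc j hj a b ha hb)

end Pool.Agent.FPP
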