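import Pool.Agent.P.MP_ecb9f8_pr.Defs2

open MeasureTheory ProbabilityTheory Set Filter

noncomputable section

namespace Pool.Agent.FPP

theorem Ord3_sum {r : ℕ → V} {m : ℕ} (hr : Chain r m) {x y : ℤ}
    (h : ∀ i ≤ m, ¬ ((r i).1 = x ∧ (r i).2 = y + 1)) :
    ∑ i ∈ Finset.range m, Strip_s x y (r i) (r (i + 1)) =
      ∑ i ∈ Finset.range m, Strip_s x (y + 1) (r i) (r (i + 1)) := by
  refine Finset.sum_congr rfl fun i hi => ?_
  rw [Finset.mem_range] at hi
  have h1 := h i hi.le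
  have h2 := h (i + 1) hi
  have h3 := Strip_adj (hr i hi)
  unfold Strip_s
  split_ifs <;> omega

theorem Ord3_off {r : ℕ → V} {m : ℕ} {u : V} (ou : ∀ i ≤ m, r i ≠ u) {x y : ℤ} (hx : u.1 = x)
    (hy : u.2 = y) : ∀ i ≤ m, ¬ ((r i).1 = x ∧ (r i).2 = y) := fun i hi h =>
  ou i hi (Prod.ext (h.1.trans hx.symm) (h.2.trans hy.symm))

theorem Ord3_ver {r : ℕ → V} {m : ℕ} (hr : Chain r m) {x y : ℤ}
    (h : ∀ i ≤ m, ¬ ((r i).1 = x ∧ (r i).2 = y + 1)) (h0 : (r 0).2 = y + 1 → (r 0).1 < x)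
    (hk : (r m).2 = y + 1 → x < (r m).1) : Strip_c r m x y = Strip_c r m x (y + 1) := by
  unfold Strip_c
  rw [Ord3_sum hr h]
  split_ifs <;> omega

theorem Ord3_step {r : ℕ → V} {m : ℕ} (hr : Chain r m) {u v : V} (huv : Adj u v)
    (ou : ∀ i ≤ m, r i ≠ u) (ov : ∀ i ≤ m, r i ≠ v)
    (wu : (r 0).2 = u.2 → (r 0).1 < u.1) (wv : (r 0).2 = v.2 → (r 0).1 < v.1)
    (eu : (r m).2 = u.2 → u.1 < (r m).1) (ev : (r m).2 = v.2 → v.1 < (r m).1) :
    Strip_c r m u.1 u.2 = Strip_c r m v.1 v.2 := by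
  rcases Strip_adj huv with h | h | h | h
  · rw [h.1, h.2]
    exact Strip_hor hr (Ord3_off ov h.1 h.2)
  · have e : u.1 = v.1 + 1 := by omega
    rw [e, h.2]
    exact (Strip_hor hr (Ord3_off ou e rfl)).symm
  · rw [h.1, h.2]
    exact Ord3_ver hr (Ord3_off ov h.1 h.2) (by omega) (by omega)
  · have e : u.2 = v.2 + 1 := by omega
    rw [e, h.1]
    exact (Ord3_ver hr (Ord3_off ou rfl e) (by omega) (by omega)).symm

/-- crossing number of the walk closed up by two east rays -/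
def Ord3_D (r : ℕ → V) (m : ℕ) (x y : ℤ) : ℤ :=
  Strip_c r m x y - if (r 0).2 ≤ y then 1 else 0

theorem Ord3_hD {r : ℕ → V} {m : ℕ} (hr : Chain r m) {x y : ℤ}
    (h : ∀ i ≤ m, ¬ ((r i).1 = x + 1 ∧ (r i).2 = y)) :
    Ord3_D r m x y = Ord3_D r m (x + 1) y := by
  unfold Ord3_D
  rw [Strip_hor hr h]

theorem Ord3_vD {r : ℕ → V} {m : ℕ} (hr : Chain r m) {x y : ℤ}
    (h : ∀ i ≤ m, ¬ ((r i).1 = x ∧ (r i).2 = y + 1)) (h0 : (r 0).2 = y + 1 → x < (r 0).1)
    (hk : (r m).2 = y + 1 → x < (r m).1) : Ord3_D r m x y = Ord3_D r m x (y + 1) := by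
  unfold Ord3_D Strip_c
  rw [Ord3_sum hr h]
  split_ifs <;> omega

theorem Ord3_stepD {r : ℕ → V} {m : ℕ} (hr : Chain r m) {u v : V} (huv : Adj u v)
    (ou : ∀ i ≤ m, r i ≠ u) (ov : ∀ i ≤ m, r i ≠ v)
    (wu : (r 0).2 = u.2 → u.1 < (r 0).1) (wv : (r 0).2 = v.2 → v.1 < (r 0).1)
    (eu : (r m).2 = u.2 → u.1 < (r m).1) (ev : (r m).2 = v.2 → v.1 < (r m).1) :
    Ord3_D r m u.1 u.2 = Ord3_D r m v.1 v.2 := by
  rcases Strip_adj huv with h | h | h | h
  · rw [h.1, h.2]
    exact Ord3_hD hr (Ord3_off ov h.1 h.2)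
  · have e : u.1 = v.1 + 1 := by omega
    rw [e, h.2]
    exact (Ord3_hD hr (Ord3_off ou e rfl)).symm
  · rw [h.1, h.2]
    exact Ord3_vD hr (Ord3_off ov h.1 h.2) (by omega) (by omega)
  · have e : u.2 = v.2 + 1 := by omega
    rw [e, h.1]
    exact (Ord3_vD hr (Ord3_off ou rfl e) (by omega) (by omega)).symm

theorem Ord3_west {r : ℕ → V} {m : ℕ} (hr : Chain r m) {x y : ℤ}
    (h : ∀ i ≤ m, (r i).2 = y → x < (r i).1) : Ord3_D r m x y = 0 := by
  have e : ∑ i ∈ Finset.range m, Strip_s x y (r i) (r (i + 1)) =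
      (if (r 0).1 ≤ x ∧ (r 0).2 ≤ y then 1 else 0) -
        if (r m).1 ≤ x ∧ (r m).2 ≤ y then 1 else 0 := by
    rw [← Finset.sum_range_sub' (fun i => if (r i).1 ≤ x ∧ (r i).2 ≤ y then (1 : ℤ) else 0)]
    refine Finset.sum_congr rfl fun i hi => ?_
    rw [Finset.mem_range] at hi
    have h1 := h i hi.le
    have h2 := h (i + 1) hi
    have h3 := Strip_adj (hr i hi)
    unfold Strip_s
    split_ifs <;> omega
  unfold Ord3_D Strip_c
  rw [e]
  split_ifs <;> omega

theorem Ord3_east {r : ℕ → V} {m : ℕ} (hr : Chain r m) {x y : ℤ}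
    (h : ∀ i ≤ m, (r i).2 = y → (r i).1 < x) (hm : y < (r m).2) : Strip_c r m x y = 0 := by
  have e : ∑ i ∈ Finset.range m, Strip_s x y (r i) (r (i + 1)) =
      (if x < (r m).1 ∧ (r m).2 ≤ y then 1 else 0) -
        if x < (r 0).1 ∧ (r 0).2 ≤ y then 1 else 0 := by
    rw [← Finset.sum_range_sub (fun i => if x < (r i).1 ∧ (r i).2 ≤ y then (1 : ℤ) else 0)]
    refine Finset.sum_congr rfl fun i hi => ?_
    rw [Finset.mem_range] at hi
    have h1 := h i hi.le
    have h2 := h (i + 1) hi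
    have h3 := Strip_adj (hr i hi)
    unfold Strip_s
    split_ifs <;> omega
  unfold Strip_c
  rw [e]
  split_ifs <;> omega

theorem Ord3_end {r : ℕ → V} {m : ℕ} {x y : ℤ} (h : ∀ i ≤ m, (r i).1 ≤ x)
    (hc : Strip_c r m x y = 0) : y < (r m).2 := by
  have e : ∑ i ∈ Finset.range m, Strip_s x y (r i) (r (i + 1)) = 0 := by
    refine Finset.sum_eq_zero fun i hi => ?_
    rw [Finset.mem_range] at hi
    have h1 := h i hi.le
    have h2 := h (i + 1) hi
    unfold Strip_s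
    split_ifs <;> omega
  have h1 := h 0 (Nat.zero_le _)
  have h2 := h m le_rfl
  unfold Strip_c at hc
  rw [e] at hc
  split_ifs at hc <;> omega

theorem Ord3_split (q : ℕ → V) (f m : ℕ) (x y : ℤ) :
    Strip_c q (f + m) x y = Strip_c q f x y + Ord3_D (fun t => q (f + t)) m x y := by
  unfold Ord3_D Strip_c
  rw [Finset.sum_range_add (fun i => Strip_s x y (q i) (q (i + 1))) f m]
  simp only [Nat.add_zero, Nat.add_assoc]
  split_ifs <;> omega

theorem Ord3_const {F : ℕ → ℤ} {b e : ℕ} (hbe : b ≤ e)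
    (h : ∀ i, b ≤ i → i < e → F i = F (i + 1)) : F b = F e := by
  induction e, hbe using Nat.le_induction with
  | base => rfl
  | succ n hn ih => rw [ih fun i h1 h2 => h i h1 (by omega), h n hn (by omega)]

theorem Ord3_main {p q : ℕ → V} {k l : ℕ} {a : ℤ} (hp : Chain p k) (hq : Chain q l) (sq : SA q l)
    {f f' i j : ℕ} (p1 : f ≤ k) (q1 : f' ≤ l) (pa : (p f).1 = a) (qa : (q f').1 = a)
    (p3 : ∀ t < f, (p t).1 < a) (q3 : ∀ t < f', (q t).1 < a) (h4 : a ≤ (q l).1)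
    (hi : i < f) (hj : j < f') (e : p i = q j) (hoff : ∀ t, i < t → t ≤ k → ∀ s ≤ l, q s ≠ p t)
    (hw1 : ∀ i ≤ k, (p i).2 = (q 0).2 → (q 0).1 < (p i).1)
    (hw3 : ∀ j ≤ l, f' ≤ j → (q j).2 = (q 0).2 → (q 0).1 < (q j).1)
    (he : (p k).2 < (q l).2)
    (he1 : ∀ i ≤ k, (p i).2 = (q l).2 → (p i).1 < (q l).1)
    (he2 : ∀ j ≤ l, (q j).2 = (p k).2 → (q j).1 < (p k).1) : (p f).2 < (q f').2 := by
  obtain ⟨m, rfl⟩ := Nat.exists_eq_add_of_le q1
  have hr : Chain (fun t => q (f' + t)) m := fun t ht => hq (f' + t) (by omega)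
  have ef : ∀ t, i < t → t ≤ f → (q f').2 = (p t).2 → (p t).1 < (q f').1 := by
    intro t h1 h2 h3
    rcases h2.eq_or_lt with rfl | h2
    · exact absurd (Prod.ext (qa.trans pa.symm) h3) (hoff t h1 p1 f' q1)
    · rw [qa]
      exact p3 t h2
  have offq : ∀ s < f', ∀ t ≤ m, q (f' + t) ≠ q s := fun s hs t ht h => by
    have := sq (f' + t) (by omega) s (by omega) h
    omega
  have c2 : Strip_c q (f' + m) (p (i + 1)).1 (p (i + 1)).2 = 0 := by
    rw [Ord3_const (F := fun t => Strip_c q (f' + m) (p t).1 (p t).2) (b := i + 1) (e := k)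
      (by omega) fun t h1 h2 => Ord3_step hq (hp t h2) (hoff t (by omega) h2.le)
        (hoff (t + 1) (by omega) h2) (fun h => hw1 t h2.le h.symm) (fun h => hw1 (t + 1) h2 h.symm)
        (fun h => he1 t h2.le h.symm) (fun h => he1 (t + 1) h2 h.symm)]
    exact Ord3_east hq he2 he
  have d0 : Ord3_D (fun t => q (f' + t)) m (q 0).1 (q 0).2 = 0 :=
    Ord3_west hr fun t ht h => hw3 (f' + t) (by omega) (by omega) h
  have d1 : Ord3_D (fun t => q (f' + t)) m (q 0).1 (q 0).2 =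
      Ord3_D (fun t => q (f' + t)) m (q j).1 (q j).2 :=
    Ord3_const (F := fun s => Ord3_D (fun t => q (f' + t)) m (q s).1 (q s).2) (b := 0) (e := j)
      (Nat.zero_le _) fun s _ h2 => Ord3_stepD hr (hq s (by omega)) (offq s (by omega))
        (offq (s + 1) (by omega)) (fun _ => (q3 s (by omega)).trans_eq qa.symm)
        (fun _ => (q3 (s + 1) (by omega)).trans_eq qa.symm)
        (fun _ => (q3 s (by omega)).trans_le h4) (fun _ => (q3 (s + 1) (by omega)).trans_le h4)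
  have d2 : Ord3_D (fun t => q (f' + t)) m (p i).1 (p i).2 =
      Ord3_D (fun t => q (f' + t)) m (p (i + 1)).1 (p (i + 1)).2 :=
    Ord3_stepD hr (hp i (by omega)) (fun t ht => by rw [e]; exact offq j hj t ht)
      (fun t ht => hoff (i + 1) (by omega) (by omega) (f' + t) (by omega))
      (fun _ => (p3 i hi).trans_eq qa.symm) (ef (i + 1) (by omega) hi)
      (fun _ => (p3 i hi).trans_le h4) (fun h => he1 (i + 1) (by omega) h.symm)
  have c1 : Strip_c q f' (p (i + 1)).1 (p (i + 1)).2 = 0 := by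
    have := Ord3_split q f' m (p (i + 1)).1 (p (i + 1)).2
    rw [c2, ← d2, e, ← d1, d0] at this
    omega
  have c3 : Strip_c q f' (p (i + 1)).1 (p (i + 1)).2 = Strip_c q f' (p f).1 (p f).2 :=
    Ord3_const (F := fun t => Strip_c q f' (p t).1 (p t).2) (b := i + 1) (e := f) hi
      fun t h1 h2 => Ord3_step (hq.mono q1) (hp t (by omega))
        (fun s hs => hoff t (by omega) (by omega) s (by omega))
        (fun s hs => hoff (t + 1) (by omega) (by omega) s (by omega))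
        (fun h => hw1 t (by omega) h.symm) (fun h => hw1 (t + 1) (by omega) h.symm)
        (ef t (by omega) h2.le) (ef (t + 1) (by omega) h2)
  refine Ord3_end (x := (p f).1) (fun s hs => ?_) (c3.symm.trans c1)
  rw [pa]
  rcases hs.eq_or_lt with rfl | hs
  · exact qa.le
  · exact (q3 s hs).le

/-- walks with ordered starts and ordered ends that share at most one segment keep their order -/
theorem ord3 {p q : ℕ → V} {k l : ℕ} {a : ℤ} (hp : Chain p k) (hq : Chain q l) (sq : SA q l)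
    (hseg : ∀ i i' j j' : ℕ, i ≤ i' → i' ≤ k → j ≤ l → j' ≤ l → p i = q j → p i' = q j' →
      (j ≤ j' ∧ j' - j = i' - i ∧ ∀ t ≤ i' - i, p (i + t) = q (j + t)) ∨
      (j' ≤ j ∧ j - j' = i' - i ∧ ∀ t ≤ i' - i, p (i + t) = q (j - t)))
    (h1 : (p 0).1 < a) (h2 : (q 0).1 < a) (h3 : a ≤ (p k).1) (h4 : a ≤ (q l).1)
    (hs : (p 0).2 < (q 0).2)
    (hw1 : ∀ i ≤ k, (p i).2 = (q 0).2 → (q 0).1 < (p i).1)
    (hw2 : ∀ j ≤ l, (q j).2 = (p 0).2 → (p 0).1 < (q j).1)
    (hw3 : ∀ j ≤ l, fi q a ≤ j → (q j).2 = (q 0).2 → (q 0).1 < (q j).1)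
    (he : (p k).2 < (q l).2)
    (he1 : ∀ i ≤ k, (p i).2 = (q l).2 → (p i).1 < (q l).1)
    (he2 : ∀ j ≤ l, (q j).2 = (p k).2 → (q j).1 < (p k).1) : ht p a ≤ ht q a := by
  classical
  obtain ⟨p1, -, p2, -, p3⟩ := hp.fi_spec h1 h3
  obtain ⟨q1, q0, q2, -, q3⟩ := hq.fi_spec h2 h4
  have pa : (p (fi p a)).1 = a := by rw [p2]
  have qa : (q (fi q a)).1 = a := by rw [q2]
  have pm : ∀ t, (p t).1 = a → fi p a ≤ t := fun t ht => by
    by_contra hc
    have := p3 t (not_le.1 hc)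
    omega
  have qm : ∀ t, (q t).1 = a → fi q a ≤ t := fun t ht => by
    by_contra hc
    have := q3 t (not_le.1 hc)
    omega
  by_cases hx : ∃ i ≤ fi p a, ∃ j ≤ fi q a, p i = q j
  · obtain ⟨i, hi, j, hj, e⟩ := hx
    have hP : ∃ s ≤ l, q s = p i := ⟨j, hj.trans q1, e.symm⟩
    have g1 : i ≤ Nat.findGreatest (fun t => ∃ s ≤ l, q s = p t) k :=
      Nat.le_findGreatest (P := fun t => ∃ s ≤ l, q s = p t) (hi.trans p1) hP
    have g2 : Nat.findGreatest (fun t => ∃ s ≤ l, q s = p t) k ≤ k := Nat.findGreatest_le k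
    have g3 : ∃ s ≤ l, q s = p (Nat.findGreatest (fun t => ∃ s ≤ l, q s = p t) k) :=
      Nat.findGreatest_spec (P := fun t => ∃ s ≤ l, q s = p t) (hi.trans p1) hP
    have g4 : ∀ t, Nat.findGreatest (fun t => ∃ s ≤ l, q s = p t) k < t → t ≤ k →
        ∀ s ≤ l, q s ≠ p t := fun t h5 h6 s hs h7 =>
      Nat.findGreatest_is_greatest (P := fun t => ∃ s ≤ l, q s = p t) h5 h6 ⟨s, hs, h7⟩
    generalize Nat.findGreatest (fun t => ∃ s ≤ l, q s = p t) k = i' at g1 g2 g3 g4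
    obtain ⟨j', hj', e'⟩ := g3
    by_cases hc : i' < fi p a ∧ j' < fi q a
    · exact (Ord3_main hp hq sq p1 q1 pa qa p3 q3 h4 hc.1 hc.2 e'.symm g4 hw1 hw3 he he1 he2).le
    · have e1 : p (fi p a) = q (fi q a) := by
        rcases hseg i i' j j' g1 g2 (hj.trans q1) hj' e e'.symm with ⟨s1, s2, s3⟩ | ⟨s1, s2, s3⟩
        · have k1 : fi p a - i ≤ i' - i → fi q a ≤ j + (fi p a - i) := fun h => by
            have := s3 _ h
            rw [show i + (fi p a - i) = fi p a by omega] at this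
            exact qm _ (by rw [← this, pa])
          have k2 : fi q a - j ≤ i' - i → fi p a ≤ i + (fi q a - j) := fun h => by
            have := s3 _ h
            rw [show j + (fi q a - j) = fi q a by omega] at this
            exact pm _ (by rw [this, qa])
          have k3 : fi p a - i ≤ i' - i ∧ j + (fi p a - i) = fi q a := by omega
          have := s3 _ k3.1
          rwa [show i + (fi p a - i) = fi p a by omega, k3.2] at this
        · have k1 : fi p a - i ≤ i' - i → fi q a ≤ j - (fi p a - i) := fun h => by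
            have := s3 _ h
            rw [show i + (fi p a - i) = fi p a by omega] at this
            exact qm _ (by rw [← this, pa])
          have k2 : j = fi q a → fi p a ≤ i := fun h => pm _ (by rw [e, h, qa])
          have k3 : i = fi p a ∧ j = fi q a := by omega
          rw [← k3.1, ← k3.2]
          exact e
      exact (congrArg Prod.snd e1).le
  · refine (strip (a := a) (hp.mono p1) (hq.mono q1) (fun i hi => ?_) (fun j hj => ?_) pa qa
      hs (fun i hi => hw1 i (hi.trans p1)) (fun j hj => hw2 j (hj.trans q1))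
      fun i hi j hj e => hx ⟨i, hi, j, hj, e⟩).le
    · rcases hi.eq_or_lt with rfl | hi
      · exact pa.le
      · exact (p3 i hi).le
    · rcases hj.eq_or_lt with rfl | hj
      · exact qa.le
      · exact (q3 j hj).le

end Pool.Agent.FPP
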