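import Pool.Agent.P.MP_ecb9f8_pr.DirF
import Pool.Agent.P.MP_ecb9f8_pr.AttDet2
import Pool.Agent.P.MP_ecb9f8_pr.OnL
import Pool.Agent.P.MP_ecb9f8_pr.Ord3

open MeasureTheory ProbabilityTheory Set Filter

noncomputable section

namespace Pool.Agent.FPP

/-- the directed initial piece of a geodesic that stays in the horizontal face -/
theorem cross_dir {N : Seminorm ℝ (ℝ × ℝ)} {Kc : Finset ℝ} {Φ : Finset (ℝ × ℝ)} {c : ℝ}
    (hP : Poly N Kc Φ c) {G : Measure ℝ} {Λ z : ℕ} (hz : Sz N c Λ z) {ω : Env}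
    (hg : MG N G Λ z ((z : ℤ) ^ 1310) ω) {p : ℕ → V} {k : ℕ} (hp : Geo ω p k)
    (h0 : (p 0).1 = 0) (h1 : |(p 0).2| ≤ 2 * (z : ℤ) ^ 1020) (h2 : (z : ℤ) ^ 1021 ≤ (p k).1)
    (hc : ConeO N (N (1, 0), 0) ((z : ℤ) ^ 20) ω (p 0) (p k)) :
    (∃ k' ≤ k, Dirb 0 ((z : ℤ) ^ 772) p k' ∧ (p k').1 = (z : ℤ) ^ 1021 ∧
      ∀ i ≤ k', nm (p i - p 0) ≤ (z : ℤ) ^ 1022) ∧
    ∀ i ≤ k, i ≤ z ^ 21 ∧ nm (p i - p 0) ≤ (z : ℤ) ^ 20 ∨ 0 < (p i).1 := by
  have hz2 := hz.hundred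
  have hz1 : (100 : ℤ) ≤ z := by exact_mod_cast hz2
  have e0 : (0 : ℤ) < (z : ℤ) ^ 20 := pow_pos (by omega) _
  have e1 := Base_pow hz1 (by norm_num : 20 < 1020)
  have e2 := Base_pow hz1 (by norm_num : 1020 < 1021)
  have e3 := Base_pow hz1 (by norm_num : 1021 < 1022)
  have e4 := Base_pow hz1 (by norm_num : 1022 < 1023)
  have e5 := Base_pow hz1 (by norm_num : 1023 < 1310)
  have hF := hP.frameE_axis
  have c1 : ∀ i ≤ k, nm (p i - p 0) ≤ (z : ℤ) ^ 20 ∨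
      N (rv (p i - p 0)) = lin (N (1, 0), 0) (rv (p i - p 0)) :=
    fun i hi => hc (p i) (hp.add (Nat.zero_le _) hi le_rfl)
  have c2 : ∀ i ≤ k, nm (p i - p 0) ≤ (z : ℤ) ^ 20 ∨ nm (p i - p 0) ≤ (p i).1 := fun i hi =>
    (c1 i hi).imp_right fun h => by
      have h3 := (hF.cone hP.pos h).1
      rwa [colb, zero_mul, add_zero, Prod.fst_sub, h0, sub_zero] at h3
  have c3 : nm (p 0) ≤ 2 * (z : ℤ) ^ 1020 := nm_le_iff.2 ⟨by rw [h0, abs_zero]; linarith, h1⟩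
  have c4 : ∀ i, nm (p i) ≤ nm (p i - p 0) + nm (p 0) := fun i => by
    simpa using nm_add_le (p i - p 0) (p 0)
  constructor
  · obtain ⟨t, -, t1, t2, t3⟩ := hp.1.ivt (fun v => v.1) (fun a b h => by
      have h4 := abs_nonneg (a.2 - b.2)
      have h5 := neg_abs_le (a.1 - b.1)
      unfold Adj at h
      linarith) (Nat.zero_le k) le_rfl (a := (z : ℤ) ^ 1021) (by rw [h0]; linarith) h2
    have c5 : ∀ i ≤ t, nm (p i - p 0) ≤ (z : ℤ) ^ 1021 := fun i hi => by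
      have h4 : (p i).1 ≤ (z : ℤ) ^ 1021 := by
        rcases hi.lt_or_eq with h | rfl
        · exact (t3 i (Nat.zero_le _) h).le
        · exact t2.le
      rcases c2 i (hi.trans t1) with h | h <;> linarith
    refine ⟨t, t1, dir_of_face hz hF hg (hp.mono t1) (fun i hi => ?_) ((c1 t t1).resolve_left ?_),
      t2, fun i hi => by linarith [c5 i hi]⟩
    · linarith [c4 i, c5 i hi]
    · have h4 := (le_abs_self _).trans (abs_fst_le_nm (p t - p 0))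
      rw [Prod.fst_sub, h0, sub_zero, t2] at h4
      linarith
  · intro i hi
    by_cases h : nm (p i - p 0) ≤ (z : ℤ) ^ 20
    · refine Or.inl ⟨?_, h⟩
      have h4 := hg.len p i (hp.mono hi) (by linarith) (by linarith [c4 i]) (z ^ 20)
        (Nat.le_self_pow (by norm_num) z) (by rwa [Nat.cast_pow])
      rw [pow_succ' z 20]
      exact h4.trans (Nat.mul_le_mul_right _ (by linarith [hz.lam]))
    · exact Or.inr (by linarith [(c2 i hi).resolve_left h, not_le.1 h])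

/-- a geodesic from column `0` to column `n` that leaves both ends in the horizontal direction -/
def Cross_R (z : ℕ) (n : ℤ) (ω : Env) (p : ℕ → V) (k k' : ℕ) : Prop :=
  Geo ω p k ∧ (p 0).1 = 0 ∧ (p k).1 = n ∧ nm (p 0) ≤ 2 * (z : ℤ) ^ 1020 ∧
    (k' ≤ k ∧ Dirb 0 ((z : ℤ) ^ 772) p k' ∧ (p k').1 = (z : ℤ) ^ 1021 ∧
      ∀ i ≤ k', nm (p i - p 0) ≤ (z : ℤ) ^ 1022) ∧
    (∀ i ≤ k, i ≤ z ^ 21 ∧ nm (p i - p 0) ≤ (z : ℤ) ^ 20 ∨ 0 < (p i).1) ∧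
    ∀ i ≤ k, nm (p i - p k) ≤ (z : ℤ) ^ 20 ∨ (p i).1 < n

theorem Cross_ex {N : Seminorm ℝ (ℝ × ℝ)} {Kc : Finset ℝ} {Φ : Finset (ℝ × ℝ)} {c : ℝ}
    (hP : Poly N Kc Φ c) {G : Measure ℝ} {Λ z : ℕ} (hz : Sz N c Λ z) {ω : Env}
    (hg : MG N G Λ z ((z : ℤ) ^ 1310) ω) {n : ℤ} (hn : (z : ℤ) ^ 1021 ≤ n) {x o : V}
    (h0 : x.1 = 0) (h1 : |x.2| ≤ 2 * (z : ℤ) ^ 1020) (h2 : o.1 = n)
    (hc : ConeO N (N (1, 0), 0) ((z : ℤ) ^ 20) ω x o)
    (hc' : ConeO N (-N (1, 0), 0) ((z : ℤ) ^ 20) ω o x) :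
    ∃ (p : ℕ → V) (k k' : ℕ), p 0 = x ∧ p k = o ∧ Cross_R z n ω p k k' := by
  obtain ⟨p, k, hp, rfl, rfl⟩ := hg.nice.2.1 x o
  obtain ⟨⟨k', a1⟩, a2⟩ := cross_dir hP hz hg hp h0 h1 (h2 ▸ hn) hc
  refine ⟨p, k, k', rfl, rfl, hp, h0, h2,
    nm_le_iff.2 ⟨by rw [h0, abs_zero]; exact (abs_nonneg _).trans h1, h1⟩, a1, a2, fun i hi => ?_⟩
  by_cases h : nm (p i - p k) ≤ (z : ℤ) ^ 20
  · exact Or.inl h
  · have b1 := (hc' (p i) (hp.add (Nat.zero_le _) hi le_rfl).symm).resolve_left h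
    have b2 := hP.low (rv (p i - p k))
    have b3 : 0 < N (1, 0) := hP.pos.trans_le hP.c_le
    rw [b1, norm_rv, lin, zero_mul, add_zero, neg_mul, ← mul_neg] at b2
    have b4 : nm (p i - p k) ≤ -(p i - p k).1 := by
      have b5 := le_of_mul_le_mul_left b2 b3
      simp only [rv] at b5
      exact_mod_cast b5
    have b6 : (0 : ℤ) ≤ (z : ℤ) ^ 20 := by positivity
    rw [Prod.fst_sub, h2] at b4
    exact Or.inr (by linarith [not_le.1 h])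

theorem Cross_ord {z : ℕ} (hz : (100 : ℤ) ≤ z) {n : ℤ} (hn : (z : ℤ) ^ 1021 ≤ n) {ω : Env}
    (hω : Nice ω) {p q : ℕ → V} {k k' l l' : ℕ} (hp : Cross_R z n ω p k k')
    (hq : Cross_R z n ω q l l') (hs : (p 0).2 + (z : ℤ) ^ 20 < (q 0).2)
    (he : (p k).2 + (z : ℤ) ^ 20 < (q l).2) {a : ℤ} (h1 : cA2 z ≤ a) (h2 : a ≤ cB2 z) :
    htb 0 p a ≤ htb 0 q a := by
  obtain ⟨p1, p2, p3, -, -, p4, p5⟩ := hp
  obtain ⟨q1, q2, q3, -, -, q4, q5⟩ := hq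
  have e0 : (0 : ℤ) < (z : ℤ) ^ 20 := pow_pos (by omega) _
  have e1 := Base_pow hz (by norm_num : 20 < 21)
  have e2 := Base_pow hz (by norm_num : 21 < 1020)
  have e3 := Base_pow hz (by norm_num : 1020 < 1021)
  rw [cA2] at h1
  rw [cB2] at h2
  have b : ∀ u v : V, nm (u - v) ≤ (z : ℤ) ^ 20 →
      u.2 ≤ v.2 + (z : ℤ) ^ 20 ∧ v.2 ≤ u.2 + (z : ℤ) ^ 20 := fun u v h => by
    have h3 := abs_le.1 ((abs_snd_le_nm _).trans h)
    rw [Prod.snd_sub] at h3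
    constructor <;> linarith [h3.1, h3.2]
  rw [htb_zero, htb_zero]
  refine ord3 p1.1 q1.1 (q1.sa hω.1) (hω.seg p1 q1) (by linarith) (by linarith) (by linarith)
    (by linarith) (by linarith) (fun i hi e => ?_) (fun i hi e => ?_) (fun i hi f _ => ?_)
    (by linarith) (fun i hi e => ?_) fun i hi e => ?_
  · rcases p4 i hi with h | h
    · linarith [(b _ _ h.2).1]
    · linarith
  · rcases q4 i hi with h | h
    · linarith [(b _ _ h.2).2]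
    · linarith
  · rcases q4 i hi with h | h
    · obtain ⟨f1, -, f2, -⟩ := q1.1.fi_spec (a := a) (by linarith) (by linarith)
      have f3 := ((le_abs_self _).trans (abs_fst_le_nm _)).trans (q1.1.nm_le (Nat.zero_le _) f1)
      rw [Prod.fst_sub, f2, q2] at f3
      have f4 : ((fi q a : ℕ) : ℤ) ≤ (z : ℤ) ^ 21 := by exact_mod_cast f.trans h.1
      simp only [Nat.cast_zero, sub_zero] at f3
      linarith
    · linarith
  · rcases p5 i hi with h | h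
    · linarith [(b _ _ h).1]
    · linarith
  · rcases q5 i hi with h | h
    · linarith [(b _ _ h).2]
    · linarith

theorem Cross_R.ins {z : ℕ} (hz : (100 : ℤ) ≤ z) {n : ℤ} {ω : Env} {p : ℕ → V} {k k' : ℕ}
    (hp : Cross_R z n ω p k k') : InS2 0 z (p 0) ∧ cB2 z ≤ colb 0 (p k') ∧
      fib 0 p (cB2 z) ≤ k' := by
  obtain ⟨p1, p2, -, p3, ⟨p4, -, p5, -⟩, -⟩ := hp
  have e0 : (0 : ℤ) < (z : ℤ) ^ 1020 := pow_pos (by omega) _
  have e3 := Base_pow hz (by norm_num : 1020 < 1021)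
  have a1 : colb 0 (p 0) = 0 := by rw [colb, p2, zero_mul, add_zero]
  have a2 : cB2 z ≤ colb 0 (p k') := by
    rw [colb, p5, zero_mul, add_zero, cB2]
    linarith
  refine ⟨⟨p3, by rw [a1, cA2]; linarith⟩, a2,
    ((p1.1.mono p4).fib_spec (Or.inl rfl) ?_ a2).1⟩
  rw [a1, cB2]
  linarith

theorem Cross_main {N : Seminorm ℝ (ℝ × ℝ)} {Kc : Finset ℝ} {Φ : Finset (ℝ × ℝ)} {c : ℝ}
    (hP : Poly N Kc Φ c) {G : Measure ℝ} {Λ z : ℕ} (hz : Sz N c Λ z) {ω : Env}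
    (hg : Good2 N G Λ z ω) {n h : ℤ} (hn : (z : ℤ) ^ 1021 ≤ n) (h0 : 0 ≤ h) (hh : h ≤ (z : ℤ))
    (I : Finset ℤ) (hI : ∀ j ∈ I, 0 ≤ j ∧ j ≤ (z : ℤ) ^ 999 ∧
      CEv N z n h (0, j * (z : ℤ) ^ 21) ω) : I.card ≤ z ^ 985 := by
  obtain ⟨hg, hatt, -⟩ := hg
  have hz2 := hz.hundred
  have hz1 : (100 : ℤ) ≤ z := by exact_mod_cast hz2
  have e0 : (0 : ℤ) < (z : ℤ) ^ 21 := pow_pos (by omega) _
  have e1 := Base_pow hz1 (by norm_num : 1 < 20)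
  have e2 := Base_pow hz1 (by norm_num : 20 < 21)
  have e3 := Base_pow hz1 (by norm_num : 21 < 1020)
  rw [pow_one] at e1
  have H : ∀ j : ℤ, ∃ (p : ℕ → V) (k k' : ℕ) (q : ℕ → V) (l l' : ℕ), j ∈ I →
      Cross_R z n ω p k k' ∧ Cross_R z n ω q l l' ∧ (p 0).2 = j * (z : ℤ) ^ 21 ∧
      (q 0).2 = j * (z : ℤ) ^ 21 + h ∧ (p k).2 = j * (z : ℤ) ^ 21 ∧
      (q l).2 = j * (z : ℤ) ^ 21 ∧ (z : ℤ) ^ 1056 ≤ gap2 z (htb 0 p) (htb 0 q) := fun j => by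
    by_cases hj : j ∈ I
    swap
    · exact ⟨fun _ => 0, 0, 0, fun _ => 0, 0, 0, fun h => absurd h hj⟩
    obtain ⟨j1, j2, c0, c1, c2, c3, c4⟩ := hI j hj
    have j3 : j * (z : ℤ) ^ 21 ≤ (z : ℤ) ^ 1020 := by
      rw [show (z : ℤ) ^ 1020 = (z : ℤ) ^ 999 * (z : ℤ) ^ 21 by rw [← pow_add]]
      exact mul_le_mul_of_nonneg_right j2 e0.le
    have j4 : (0 : ℤ) ≤ j * (z : ℤ) ^ 21 := by positivity
    obtain ⟨p, k, k', p1, p2, hp⟩ := Cross_ex hP hz hg hn rfl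
      (by rw [abs_of_nonneg j4]; linarith) (zero_add n) c1 c3
    obtain ⟨q, l, l', q1, q2, hq⟩ := Cross_ex hP hz hg hn (add_zero 0)
      (by rw [Prod.snd_add, abs_of_nonneg (add_nonneg j4 h0)]; linarith) (zero_add n) c2 c4
    obtain ⟨a1, a2, a3⟩ := hp.ins hz1
    obtain ⟨b1, b2, b3⟩ := hq.ins hz1
    refine ⟨p, k, k', q, l, l', fun _ => ⟨hp, hq, by rw [p1], by rw [q1]; rfl,
      by rw [p2]; exact add_zero _, by rw [q2]; exact add_zero _, ?_⟩⟩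
    obtain ⟨g1, -, -, -, ⟨g2, g3, -, g4⟩, -⟩ := hp
    obtain ⟨f1, -, -, -, ⟨f2, f3, -, -⟩, -⟩ := hq
    refine hatt p k' q l' (g1.mono g2) (f1.mono f2) g3 f3 a1 b1 a2 b2
      fun i hi i' hi' e => c0 ⟨p i, ?_, ?_, ?_⟩
    · rw [← p2, ← p1]
      exact g1.add (Nat.zero_le _) ((hi.trans a3).trans g2) le_rfl
    · rw [← q2, ← q1, e]
      exact f1.add (Nat.zero_le _) ((hi'.trans b3).trans f2) le_rfl
    · rw [← p1]
      exact g4 i (hi.trans a3)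
  choose p k k' q l l' H using H
  have hb : ∀ {r : ℕ → V} {m m' : ℕ}, Cross_R z n ω r m m' → ∀ a, cA2 z ≤ a → a ≤ cB2 z →
      |htb 0 r a| ≤ 11 * (z : ℤ) ^ 1020 := fun hr a a1 a2 =>
    htb_bound (Or.inl rfl) hz2 (hr.1.1.mono hr.2.2.2.2.1.1) hr.2.2.2.2.1.2.1 (hr.ins hz1).1
      (hr.ins hz1).2.1 a1 a2
  have h1 := sum_gap2_le hz2 I (fun j => htb 0 (p j)) (fun j => htb 0 (q j))
    (H := 2 * (11 * (z : ℤ) ^ 1020)) fun a a1 a2 => by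
      refine sum_abs_le I (fun j => j) _ _ (by positivity) (fun i _ j _ e => e)
        (fun j hj => ⟨hb (H j hj).1 a a1 a2, hb (H j hj).2.1 a a1 a2⟩) fun i hi j hj e => ?_
      obtain ⟨r1, r2, r3, r4, r5, r6, -⟩ := H i hi
      obtain ⟨s1, s2, s3, s4, s5, s6, -⟩ := H j hj
      have c : i * (z : ℤ) ^ 21 + (z : ℤ) ^ 21 ≤ j * (z : ℤ) ^ 21 := by
        rw [← add_one_mul]
        exact mul_le_mul_of_nonneg_right (Int.add_one_le_of_lt e) e0.le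
      exact max_le
        (le_min (Cross_ord hz1 hn hg.nice r1 s1 (by linarith) (by linarith) a1 a2)
          (Cross_ord hz1 hn hg.nice r1 s2 (by linarith) (by linarith) a1 a2))
        (le_min (Cross_ord hz1 hn hg.nice r2 s1 (by linarith) (by linarith) a1 a2)
          (Cross_ord hz1 hn hg.nice r2 s2 (by linarith) (by linarith) a1 a2))
  have h2 := (Finset.card_nsmul_le_sum I _ _ fun j hj => (H j hj).2.2.2.2.2.2).trans h1
  have e7 : 4 * (z : ℤ) ^ 1020 * (2 * (11 * (z : ℤ) ^ 1020)) =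
      88 * (z : ℤ) ^ 984 * (z : ℤ) ^ 1056 := by
    have u1 : (z : ℤ) ^ 1020 * (z : ℤ) ^ 1020 = (z : ℤ) ^ 984 * (z : ℤ) ^ 1056 := by
      rw [← pow_add, ← pow_add]
    rw [mul_assoc (88 : ℤ), ← u1]
    generalize (z : ℤ) ^ 1020 = A
    ring
  rw [nsmul_eq_mul, e7] at h2
  have e8 := le_of_mul_le_mul_right h2 (pow_pos (by omega) _)
  have e9 := Base_pow hz1 (by norm_num : 984 < 985)
  have e10 : (0 : ℤ) < (z : ℤ) ^ 984 := pow_pos (by omega) _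
  have e11 : ((I.card : ℕ) : ℤ) ≤ ((z ^ 985 : ℕ) : ℤ) := by
    rw [Nat.cast_pow]
    linarith
  exact Int.ofNat_le.1 e11

open Classical in
theorem cross_count {N : Seminorm ℝ (ℝ × ℝ)} {Kc : Finset ℝ} {Φ : Finset (ℝ × ℝ)} {c : ℝ}
    (hP : Poly N Kc Φ c) {G : Measure ℝ} {Λ z : ℕ} (hz : Sz N c Λ z) {ω : Env}
    (hg : Good2 N G Λ z ω) {n h : ℤ} (hn : (z : ℤ) ^ 1021 ≤ n) (h0 : 0 ≤ h) (hh : h ≤ (z : ℤ)) :
    ((Finset.range (z ^ 999)).filter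
      (fun j => CEv N z n h (0, (j : ℤ) * (z : ℤ) ^ 21) ω)).card ≤ z ^ 985 := by
  refine Cross_main hP hz hg hn h0 hh _ fun j hj => ?_
  obtain ⟨h1, h2⟩ := Finset.mem_filter.1 hj
  simp only [Finset.bind_def, Finset.pure_def, Finset.mem_sup, Finset.mem_singleton,
    Finset.mem_range] at h1
  obtain ⟨a, h3, rfl⟩ := h1
  exact ⟨Int.natCast_nonneg a, by exact_mod_cast h3.le, h2⟩

theorem cross_prob {N : Seminorm ℝ (ℝ × ℝ)} {Kc : Finset ℝ} {Φ : Finset (ℝ × ℝ)} {c : ℝ}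
    (hP : Poly N Kc Φ c) (G : Measure ℝ) [IsProbabilityMeasure G] {Λ z : ℕ} (hz : Sz N c Λ z)
    (hg : PP G {ω | ¬ Good2 N G Λ z ω} ≤ ENNReal.ofReal ((z : ℝ)⁻¹)) {n h : ℤ}
    (hn : (z : ℤ) ^ 1021 ≤ n) (h0 : 0 ≤ h) (hh : h ≤ (z : ℤ)) :
    PP G {ω | CEv N z n h 0 ω} ≤ ENNReal.ofReal (2 * (z : ℝ)⁻¹) := by
  classical
  have hz2 := hz.hundred
  have hz0 : 0 < z := by omega
  have key : ∀ x : V, PP G {ω | CEv N z n h x ω} = PP G {ω | CEv N z n h 0 ω} := by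
    intro x
    have : {ω | CEv N z n h x ω} = pull (sh x) ⁻¹' {ω | CEv N z n h 0 ω} := by
      ext ω; exact (CEv_shift N z n h x ω).symm
    rw [this]
    exact (mp_pull G _).measure_preimage (measurableSet_CEv N z n h 0).nullMeasurableSet
  have hs := sum_measure_le G (Finset.range (z ^ 999))
    (fun j : ℕ => {ω | CEv N z n h (0, (j : ℤ) * (z : ℤ) ^ 21) ω})
    (fun j _ => measurableSet_CEv N z n h _) {ω | ¬ Good2 N G Λ z ω} (z ^ 985) (by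
      intro ω hω J hJ hA
      have hω' : Good2 N G Λ z ω := by simpa using hω
      rw [← Finset.card_image_of_injective J (Nat.cast_injective (R := ℤ))]
      refine Cross_main hP hz hω' hn h0 hh _ fun j hj => ?_
      obtain ⟨a, h3, rfl⟩ := Finset.mem_image.1 hj
      exact ⟨Int.natCast_nonneg a, by exact_mod_cast (Finset.mem_range.1 (hJ h3)).le, hA a h3⟩)
  simp only [key, Finset.sum_const, Finset.card_range, nsmul_eq_mul] at hs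
  refine avg_bound (J := z ^ 999) (m := z ^ 985) (by exact_mod_cast hz0) (pow_pos hz0 _) hg ?_ hs
  rw [Nat.cast_pow, Nat.cast_pow, ← pow_succ]
  exact pow_le_pow_right₀ (by exact_mod_cast hz0) (by norm_num)

end Pool.Agent.FPP
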