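import Pool.Agent.P.MP_ecb9f8_pr.Path1

open MeasureTheory ProbabilityTheory Set Filter

noncomputable section

namespace Pool.Agent.FPP

theorem On.symm {ω : Env} {x w y : V} (h : On ω x w y) : On ω y w x := by
  unfold On at *
  rw [d_comm ω y w, d_comm ω w x, d_comm ω y x, add_comm]
  exact h

theorem Geo.sub {ω : Env} {p : ℕ → V} {k i j : ℕ} (h : Geo ω p k) (hij : i ≤ j) (hjk : j ≤ k) :
    W ω p i j = d ω (p i) (p j) := by
  have hik := hij.trans hjk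
  have h1 := W_add ω p (Nat.zero_le i) hij
  have h2 := W_add ω p (Nat.zero_le j) hjk
  have h3 := d_le_W ω h.1 (Nat.zero_le i) hik
  have h4 := d_le_W ω h.1 hij hjk
  have h5 := d_le_W ω h.1 hjk le_rfl
  have h6 := d_triangle ω (p 0) (p j) (p k)
  have h7 := d_triangle ω (p 0) (p i) (p j)
  have h8 := h.2
  linarith

theorem Geo.add {ω : Env} {p : ℕ → V} {k i j l : ℕ} (h : Geo ω p k) (hij : i ≤ j) (hjl : j ≤ l)
    (hlk : l ≤ k) : On ω (p i) (p j) (p l) := by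
  unfold On
  rw [← h.sub hij (hjl.trans hlk), ← h.sub hjl hlk, ← h.sub (hij.trans hjl) hlk, W_add ω p hij hjl]

theorem Geo.mono {ω : Env} {p : ℕ → V} {k j : ℕ} (h : Geo ω p k) (hjk : j ≤ k) :
    Geo ω p j :=
  ⟨h.1.mono hjk, h.sub (Nat.zero_le j) hjk⟩

theorem Geo.shift {ω : Env} {p : ℕ → V} {k i j : ℕ} (h : Geo ω p k) (hij : i ≤ j) (hjk : j ≤ k) :
    Geo ω (fun t => p (i + t)) (j - i) := by
  refine ⟨h.1.shift hjk, ?_⟩
  rw [W_shift, h.sub hij hjk]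
  simp only [Nat.add_zero, Nat.add_sub_cancel' hij]

theorem Geo.rev {ω : Env} {p : ℕ → V} {k : ℕ} (h : Geo ω p k) :
    Geo ω (fun t => p (k - t)) k := by
  refine ⟨h.1.rev, ?_⟩
  rw [W_rev, h.2, d_comm]
  simp only [Nat.sub_zero, Nat.sub_self]

theorem Geo.congr {ω : Env} {p q : ℕ → V} {k : ℕ} (h : Geo ω p k) (hq : ∀ t ≤ k, p t = q t) :
    Geo ω q k := by
  refine ⟨fun i hi => ?_, ?_⟩
  · rw [← hq i hi.le, ← hq (i + 1) hi]
    exact h.1 i hi
  · rw [← W_congr ω hq, ← hq 0 (Nat.zero_le k), ← hq k le_rfl, h.2]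

theorem Geo.sa {ω : Env} (hpos : ∀ e, 0 < ω e) {p : ℕ → V} {k : ℕ} (h : Geo ω p k) :
    SA p k := by
  have key : ∀ i j, i < j → j ≤ k → p i ≠ p j := fun i j hij hj e => by
    have h1 := h.sub hij.le hj
    rw [e, d_self] at h1
    have h2 : W ω p i (i + 1) ≤ W ω p i j := W_mono ω p le_rfl hij
    rw [h1, W, Nat.Ico_succ_singleton, Finset.sum_singleton] at h2
    exact (lt_max_of_lt_left (hpos _)).not_ge h2
  intro i hi j hj e
  rcases lt_trichotomy i j with h1 | h1 | h1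
  · exact absurd e (key i j h1 hj)
  · exact h1
  · exact absurd e.symm (key j i h1 hi)

theorem Geo.append {ω : Env} {p q : ℕ → V} {k l : ℕ} (hp : Geo ω p k) (hq : Geo ω q l)
    (h : p k = q 0) (hon : On ω (p 0) (p k) (q l)) :
    ∃ r : ℕ → V, Geo ω r (k + l) ∧ (∀ t ≤ k, r t = p t) ∧ (∀ t, r (k + t) = q t) := by
  obtain ⟨r, h1, h2, h3, h4⟩ := exists_append ω hp.1 hq.1 h
  refine ⟨r, ⟨h1, ?_⟩, h2, h3⟩
  rw [h4, hp.2, hq.2, h2 0 (Nat.zero_le k), h3, ← h]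
  exact hon

/-- an initial piece of a geodesic towards `o` -/
theorem Geo.on_of_on {ω : Env} {p : ℕ → V} {k i : ℕ} {o : V} (h : Geo ω p k)
    (ho : On ω (p 0) (p k) o) (hi : i ≤ k) : On ω (p 0) (p i) o ∧ On ω (p i) (p k) o := by
  have h1 := h.add (Nat.zero_le i) hi le_rfl
  have h2 := d_triangle ω (p 0) (p i) o
  have h3 := d_triangle ω (p i) (p k) o
  unfold On at *
  constructor <;> linarith

theorem Nice.on_iff {ω : Env} (hn : Nice ω) {p : ℕ → V} {k : ℕ} (h : Geo ω p k) (w : V) :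
    On ω (p 0) w (p k) ↔ ∃ i ≤ k, p i = w := by
  constructor
  · intro ho
    obtain ⟨a, m, ha, a0, rfl⟩ := hn.2.1 (p 0) w
    obtain ⟨b, n, hb, b0, b1⟩ := hn.2.1 (a m) (p k)
    obtain ⟨r, h1, h2, h3⟩ := ha.append hb b0.symm (by rwa [a0, b1])
    obtain ⟨rfl, h4⟩ := hn.2.2 p k r (m + n) h h1 (by rw [h2 0 (Nat.zero_le m), a0]) (by rw [h3, b1])
    exact ⟨m, Nat.le_add_right m n, (h4 m (Nat.le_add_right m n)).trans (h2 m le_rfl)⟩
  · rintro ⟨i, hi, rfl⟩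
    exact h.add (Nat.zero_le i) hi le_rfl

/-- full geodesics with the same end stay together after meeting -/
theorem Nice.merge {ω : Env} (hn : Nice ω) {p q : ℕ → V} {k l i j : ℕ} (hp : Geo ω p k)
    (hq : Geo ω q l) (he : p k = q l) (hi : i ≤ k) (hj : j ≤ l) (h : p i = q j) :
    k - i = l - j ∧ ∀ t, i + t ≤ k → p (i + t) = q (j + t) := by
  obtain ⟨h1, h2⟩ := hn.2.2 _ _ _ _ (hp.shift hi le_rfl) (hq.shift hj le_rfl) h
    (by simpa only [Nat.add_sub_cancel' hi, Nat.add_sub_cancel' hj] using he)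
  exact ⟨h1, fun t ht => h2 t (Nat.le_sub_of_add_le' ht)⟩

/-- initial pieces of geodesics towards the same point stay together after meeting -/
theorem Nice.ray_merge {ω : Env} (hn : Nice ω) {p q : ℕ → V} {k l : ℕ} {o : V} (hp : Geo ω p k)
    (hq : Geo ω q l) (hpo : On ω (p 0) (p k) o) (hqo : On ω (q 0) (q l) o) :
    ∀ i ≤ k, ∀ j ≤ l, p i = q j → ∀ t, i + t ≤ k → j + t ≤ l → p (i + t) = q (j + t) := by
  intro i hi j hj e t hit hjt
  obtain ⟨a, m, ha, a0, a1⟩ := hn.2.1 (p k) o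
  obtain ⟨b, n, hb, b0, b1⟩ := hn.2.1 (q l) o
  obtain ⟨r, r1, r2, r3⟩ := hp.append ha a0.symm (by rwa [a1])
  obtain ⟨s, s1, s2, s3⟩ := hq.append hb b0.symm (by rwa [b1])
  have h1 := (hn.merge r1 s1 (by rw [r3, s3, a1, b1]) (hi.trans (Nat.le_add_right k m))
    (hj.trans (Nat.le_add_right l n)) (by rw [r2 i hi, s2 j hj, e])).2 t
    (hit.trans (Nat.le_add_right k m))
  rwa [r2 _ hit, s2 _ hjt] at h1

/-- geodesics with a common start that pass through a common point `w` differ only after it -/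
theorem Nice.sdc_le {ω : Env} (hn : Nice ω) {p q : ℕ → V} {k l i j : ℕ} (hp : Geo ω p k)
    (hq : Geo ω q l) (h0 : p 0 = q 0) (hi : i ≤ k) (hj : j ≤ l) (h : p i = q j) :
    sdc p k q l ≤ (k - i) + (l - j) := by
  obtain ⟨rfl, h1⟩ := hn.2.2 _ _ _ _ (hp.mono hi) (hq.mono hj) h0 h
  have h2 : ∀ t < i, ed p t = ed q t := fun t ht => by rw [ed, ed, h1 t ht.le, h1 (t + 1) ht]
  unfold sdc
  refine (Finset.card_le_card (t := (Finset.Ico i k).image (ed p) ∪ (Finset.Ico i l).image (ed q))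
    fun e he => ?_).trans ((Finset.card_union_le _ _).trans (add_le_add
      (Finset.card_image_le.trans_eq (Nat.card_Ico _ _))
      (Finset.card_image_le.trans_eq (Nat.card_Ico _ _))))
  simp only [Finset.mem_symmDiff, Finset.mem_image, Finset.mem_range, Finset.mem_union,
    Finset.mem_Ico] at he ⊢
  rcases he with ⟨⟨t, ht, rfl⟩, h3⟩ | ⟨⟨t, ht, rfl⟩, h3⟩
  · exact Or.inl ⟨t, ⟨le_of_not_gt fun h4 => h3 ⟨t, h4.trans_le hj, (h2 t h4).symm⟩, ht⟩, rfl⟩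
  · exact Or.inr ⟨t, ⟨le_of_not_gt fun h4 => h3 ⟨t, h4.trans_le hi, h2 t h4⟩, ht⟩, rfl⟩

theorem d_le_TK (ω : Env) {x y : V} {K : ℕ} (h : |y.1 - x.1| + |y.2 - x.2| ≤ (K : ℤ)) :
    d ω x y ≤ TK ω x y K := by
  obtain ⟨p, k, h1, -, h2, h3, h4⟩ := exists_straight x y
  refine le_csInf ⟨_, p, k, by exact_mod_cast h4.trans_le h, h1, h2, h3, rfl⟩ ?_
  rintro _ ⟨q, l, -, h5, rfl, rfl, rfl⟩
  exact d_le_W ω h5 (Nat.zero_le l) le_rfl

theorem TK_nonneg (ω : Env) (x y : V) (K : ℕ) : 0 ≤ TK ω x y K :=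
  Real.sInf_nonneg (by
    rintro _ ⟨q, l, -, -, -, -, rfl⟩
    exact W_nonneg ω q 0 l)

theorem TK_le_W (ω : Env) {p : ℕ → V} {k K : ℕ} (h : Chain p k) (hk : k ≤ K) :
    TK ω (p 0) (p k) K ≤ W ω p 0 k :=
  csInf_le ⟨0, by
    rintro _ ⟨q, l, -, -, -, -, rfl⟩
    exact W_nonneg ω q 0 l⟩ ⟨p, k, hk, h, rfl, rfl, rfl⟩

end Pool.Agent.FPP
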