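import Pool.Agent.P.MP_ecb9f8_pr.Defs

open MeasureTheory ProbabilityTheory Set Filter

noncomputable section

namespace Pool.Agent.FPP

theorem Zono_round {ι : Type*} [DecidableEq ι] (v : ι → ℝ × ℝ) {R : ℝ} (hR : 0 ≤ R) (n : ℕ) :
    ∀ (I : Finset ι) (l : ι → ℝ), I.card = n → (∀ i ∈ I, ‖v i‖ ≤ R) →
      (∀ i ∈ I, 0 ≤ l i ∧ l i ≤ 1) →
      ∃ J : Finset ι, J ⊆ I ∧ ‖∑ i ∈ J, v i - ∑ i ∈ I, l i • v i‖ ≤ 2 * R := by
  induction n with
  | zero =>
    intro I l hI _ _
    obtain rfl := Finset.card_eq_zero.mp hI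
    exact ⟨∅, subset_rfl, by simp; positivity⟩
  | succ n ih =>
    intro I l hI h hl
    by_cases h2 : I.card ≤ 2
    · refine ⟨∅, Finset.empty_subset _, ?_⟩
      rw [Finset.sum_empty, zero_sub, norm_neg]
      calc ‖∑ i ∈ I, l i • v i‖ ≤ ∑ i ∈ I, ‖l i • v i‖ := norm_sum_le _ _
        _ ≤ ∑ _i ∈ I, R := Finset.sum_le_sum fun i hi => by
          rw [norm_smul, Real.norm_of_nonneg (hl i hi).1]
          nlinarith [h i hi, hl i hi, norm_nonneg (v i)]
        _ = I.card * R := by simp
        _ ≤ 2 * R := by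
          have : (I.card : ℝ) ≤ 2 := by exact_mod_cast h2
          nlinarith
    · have hdep : ¬ LinearIndepOn ℝ v I := fun hli => by
        have := LinearIndependent.fintype_card_le_finrank hli
        simp at this
        exact h2 this
      obtain ⟨m, hm, i1, hi1, hm1⟩ := not_linearIndepOn_finset_iff.mp hdep
      obtain ⟨i0, hi0, hmin⟩ := Finset.exists_min_image (I.filter fun i => m i ≠ 0)
        (fun i => if 0 < m i then (1 - l i) / m i else l i / (-m i))
        ⟨i1, Finset.mem_filter.mpr ⟨hi1, hm1⟩⟩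
      obtain ⟨hi0, hm0⟩ := Finset.mem_filter.mp hi0
      set t := if 0 < m i0 then (1 - l i0) / m i0 else l i0 / (-m i0) with ht
      have t0 : 0 ≤ t := by
        rw [ht]
        split_ifs with c
        · exact div_nonneg (by linarith [(hl i0 hi0).2]) c.le
        · exact div_nonneg (hl i0 hi0).1 (by linarith)
      have hl' : ∀ i ∈ I, 0 ≤ l i + t * m i ∧ l i + t * m i ≤ 1 := by
        intro i hi
        obtain ⟨a, b⟩ := hl i hi
        rcases lt_trichotomy (m i) 0 with c | c | c
        · have := hmin i (Finset.mem_filter.mpr ⟨hi, c.ne⟩)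
          rw [if_neg c.not_gt, le_div_iff₀ (by linarith)] at this
          constructor <;> nlinarith
        · simp [c, a, b]
        · have := hmin i (Finset.mem_filter.mpr ⟨hi, c.ne'⟩)
          rw [if_pos c, le_div_iff₀ c] at this
          constructor <;> nlinarith
      have hs : ∑ i ∈ I, l i • v i =
          (l i0 + t * m i0) • v i0 + ∑ i ∈ I.erase i0, (l i + t * m i) • v i := by
        rw [Finset.add_sum_erase I (fun i => (l i + t * m i) • v i) hi0]
        simp only [add_smul, mul_smul, Finset.sum_add_distrib, ← Finset.smul_sum, hm, smul_zero,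
          add_zero]
      obtain ⟨J, hJ, hJ2⟩ := ih (I.erase i0) (fun i => l i + t * m i)
        (by rw [Finset.card_erase_of_mem hi0, hI]; rfl)
        (fun i hi => h i (Finset.mem_of_mem_erase hi))
        (fun i hi => hl' i (Finset.mem_of_mem_erase hi))
      by_cases c : 0 < m i0
      · have e : l i0 + t * m i0 = 1 := by
          rw [ht, if_pos c]
          field_simp
          ring
        have hn : i0 ∉ J := fun f => Finset.notMem_erase i0 I (hJ f)
        refine ⟨insert i0 J, Finset.insert_subset hi0 (hJ.trans (Finset.erase_subset _ _)), ?_⟩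
        rw [hs, e, Finset.sum_insert hn, one_smul, add_sub_add_left_eq_sub]
        exact hJ2
      · have e : l i0 + t * m i0 = 0 := by
          rw [ht, if_neg c]
          field_simp
          ring
        refine ⟨J, hJ.trans (Finset.erase_subset _ _), ?_⟩
        rw [hs, e, zero_smul, zero_add]
        exact hJ2

/-- a finite family of short plane vectors has a subfamily with about half the sum -/
theorem zono {ι : Type*} (I : Finset ι) (v : ι → ℝ × ℝ) {R : ℝ} (hR : 0 ≤ R)
    (h : ∀ i ∈ I, ‖v i‖ ≤ R) :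
    ∃ J : Finset ι, J ⊆ I ∧ ‖∑ i ∈ J, v i - (1 / 2 : ℝ) • ∑ i ∈ I, v i‖ ≤ 2 * R := by
  classical
  rw [Finset.smul_sum]
  exact Zono_round v hR _ I (fun _ => 1 / 2) rfl h fun _ _ => by norm_num

end Pool.Agent.FPP
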