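import Pool.Agent.P.MP_ecb9f8_pr.Events
import Pool.Agent.P.MP_ecb9f8_pr.Zono
import Pool.Agent.P.MP_ecb9f8_pr.Path2

open MeasureTheory ProbabilityTheory Set Filter

noncomputable section

namespace Pool.Agent.FPP

theorem Dbl_rv_sum {ι : Type*} (I : Finset ι) (u : ι → V) :
    rv (∑ i ∈ I, u i) = ∑ i ∈ I, rv (u i) := by
  classical
  induction I using Finset.induction_on with
  | empty => simp [rv]
  | insert a I ha ih => rw [Finset.sum_insert ha, Finset.sum_insert ha, rv_add, ih]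

theorem Dbl_W_sum (ω : Env) (p : ℕ → V) (t : ℕ → ℕ) (ht : Monotone t) (n : ℕ) :
    ∑ i ∈ Finset.range n, W ω p (t i) (t (i + 1)) = W ω p (t 0) (t n) := by
  induction n with
  | zero => simp [W]
  | succ n ih => rw [Finset.sum_range_succ, ih, W_add ω p (ht (Nat.zero_le n)) (ht n.le_succ)]

theorem Dbl_split (G : Measure ℝ) [IsProbabilityMeasure G] (hG : Law G) {C : ℝ} (hC0 : 0 ≤ C)
    (hC : ∀ v : V, g G v ≤ C * (nm v : ℝ)) {ι : Type*} (I : Finset ι) (u : ι → V) (v : V)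
    (hs : ∑ i ∈ I, u i = (2 : ℕ) • v) {R : ℝ} (hR : 0 ≤ R) (hu : ∀ i ∈ I, (nm (u i) : ℝ) ≤ R) :
    2 * g G v ≤ ∑ i ∈ I, g G (u i) + 4 * C * R := by
  classical
  obtain ⟨J, hJ, hz⟩ := zono I (fun i => rv (u i)) hR (fun i hi => by rw [norm_rv]; exact hu i hi)
  rw [← Dbl_rv_sum, ← Dbl_rv_sum, hs, rv_nsmul, smul_smul] at hz
  norm_num at hz
  rw [← rv_sub, norm_rv] at hz
  have h1 := Finset.sum_sdiff hJ (f := u)
  have h2 := Finset.sum_sdiff hJ (f := fun i => g G (u i))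
  have h3 := g_sum_le G hG J u
  have h4 := g_sum_le G hG (I \ J) u
  set A := ∑ i ∈ J, u i
  set A' := ∑ i ∈ I \ J, u i
  have h5 := g_add_le G hG A (v - A)
  have h6 := g_add_le G hG A' (A - v)
  have e : A' + (A - v) = v := by
    rw [← add_sub_assoc, h1, hs, two_nsmul, add_sub_cancel_right]
  rw [add_sub_cancel] at h5
  rw [e] at h6
  have h7 := hC (A - v)
  have h8 := hC (v - A)
  rw [nm_sub_comm] at h8
  have h9 := mul_le_mul_of_nonneg_left hz hC0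
  linarith

/-- approximate doubling of the mean passage time -/
theorem dbl (G : Measure ℝ) [IsProbabilityMeasure G] (hG : Law G) :
    ∃ C : ℝ, 0 ≤ C ∧ ∀ᶠ x : ℕ in atTop, ∀ v : V, nm v ≤ (x : ℤ) ^ 8 →
      2 * g G v ≤ g G ((2 : ℕ) • v) + C * (x : ℝ) ^ 6 := by
  obtain ⟨Λ, hΛ, hlen⟩ := sp_len hG
  obtain ⟨C, hC1, -, hC⟩ := moment_d G hG
  have hsp := (((SP.of_ae (ae_nice G hG)).union (sp_con hG)).union hlen).nonempty
  refine ⟨2 + 2 * Λ + 4 * C, by positivity, ?_⟩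
  filter_upwards [hsp, eventually_ge_atTop (2 * Λ)] with x ⟨ω, hω⟩ hx v hv
  simp only [mem_union, mem_ofPred_eq, not_or, not_not] at hω
  obtain ⟨⟨hn, hcon⟩, hl⟩ := hω
  obtain ⟨p, k, hg, h0, hk⟩ := hn.2.1 0 ((2 : ℕ) • v)
  have hx1 : 1 ≤ x := by omega
  have hbig : Λ * (2 * x ^ 8) ≤ x ^ 1024 :=
    calc Λ * (2 * x ^ 8) = 2 * Λ * x ^ 8 := by ring
      _ ≤ x * x ^ 8 := Nat.mul_le_mul_right _ hx
      _ = x ^ 9 := by ring
      _ ≤ x ^ 1024 := Nat.pow_le_pow_right hx1 (by norm_num)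
  have hbig' : ∀ m : ℕ, m ≤ Λ * (2 * x ^ 8) → (m : ℤ) ≤ (x : ℤ) ^ 1024 := fun m hm => by
    rw [← Nat.cast_pow, Nat.cast_le]
    exact hm.trans hbig
  have hpw : ∀ a : ℕ, a ≠ 0 → x ≤ 2 * x ^ a := fun a ha =>
    (Nat.le_self_pow ha x).trans (Nat.le_mul_of_pos_left _ two_pos)
  have h2v : nm ((2 : ℕ) • v) ≤ ((2 * x ^ 8 : ℕ) : ℤ) := by
    have := nm_add_le v v
    rw [two_nsmul]
    push_cast
    linarith
  have h00 : nm (0 : V) ≤ (x : ℤ) ^ 1024 := by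
    have : nm (0 : V) = ((0 : ℕ) : ℤ) := by simp [nm]
    rw [this]
    exact hbig' 0 (Nat.zero_le _)
  have h2v' : nm ((2 : ℕ) • v) ≤ (x : ℤ) ^ 1024 :=
    h2v.trans (hbig' _ (Nat.le_mul_of_pos_left _ hΛ))
  have hkl : k ≤ Λ * (2 * x ^ 8) :=
    hl p k hg (h0 ▸ h00) (hk ▸ h2v') (2 * x ^ 8) (hpw 8 (by norm_num))
      (by rw [h0, hk, sub_zero]; exact h2v)
  have hbox : ∀ i ≤ k, nm (p i) ≤ (x : ℤ) ^ 1024 := fun i hi => by
    have := hg.1.nm_le (Nat.zero_le i) hi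
    rw [h0, sub_zero, Nat.cast_zero, sub_zero] at this
    exact this.trans (hbig' i (hi.trans hkl))
  set t : ℕ → ℕ := fun i => min (i * x ^ 6) k with ht
  have htm : Monotone t := fun a b hab => min_le_min_right _ (Nat.mul_le_mul_right _ hab)
  have htk : ∀ i, t i ≤ k := fun i => min_le_right _ _
  have ht0 : t 0 = 0 := by simp [ht]
  have htn : t (2 * Λ * x ^ 2) = k := by
    refine min_eq_right (hkl.trans (le_of_eq ?_))
    ring
  have hstep : ∀ i, nm (p (t (i + 1)) - p (t i)) ≤ (x : ℤ) ^ 6 := fun i => by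
    refine (hg.1.nm_le (htm i.le_succ) (htk _)).trans ?_
    have : t (i + 1) ≤ t i + x ^ 6 := by
      simp only [ht, Nat.succ_mul]
      omega
    rw [sub_le_iff_le_add', ← Nat.cast_pow, ← Nat.cast_add, Nat.cast_le]
    exact this
  have hsplit := Dbl_split G hG (by linarith) hC (Finset.range (2 * Λ * x ^ 2))
    (fun i => p (t (i + 1)) - p (t i)) v
    (by rw [Finset.sum_range_sub (fun i => p (t i)), ht0, htn, h0, hk, sub_zero])
    (R := (x : ℝ) ^ 6) (by positivity) (fun i _ => by exact_mod_cast hstep i)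
  have hblock : ∀ i, g G (p (t (i + 1)) - p (t i)) ≤ W ω p (t i) (t (i + 1)) + (x : ℝ) ^ 4 :=
    fun i => by
      have := hcon (p (t i)) (p (t (i + 1))) (hbox _ (htk _)) (hbox _ (htk _)) (x ^ 3)
        (Nat.le_self_pow (by norm_num) x)
        ((hstep i).trans (le_of_eq (by push_cast; ring)))
      rw [hg.sub (htm i.le_succ) (htk _)]
      have h1 := (abs_le.1 this).1
      have h2 : (x : ℝ) * ((x ^ 3 : ℕ) : ℝ) = (x : ℝ) ^ 4 := by push_cast; ring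
      linarith
  have hsum := Finset.sum_le_sum fun i (_ : i ∈ Finset.range (2 * Λ * x ^ 2)) => hblock i
  rw [Finset.sum_add_distrib, Dbl_W_sum ω p t htm, ht0, htn, Finset.sum_const,
    Finset.card_range, nsmul_eq_mul, hg.2, h0, hk] at hsum
  have hall := hcon 0 ((2 : ℕ) • v) h00 h2v' (2 * x ^ 4) (hpw 4 (by norm_num)) (by
    rw [sub_zero]
    refine h2v.trans ?_
    have : (0 : ℤ) ≤ (x : ℤ) ^ 8 := by positivity
    push_cast
    linarith [show (2 * (x : ℤ) ^ 4) ^ 2 = 4 * (x : ℤ) ^ 8 by ring])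
  rw [sub_zero] at hall
  have h1 := (abs_le.1 hall).2
  have h2 : (x : ℝ) * ((2 * x ^ 4 : ℕ) : ℝ) = 2 * (x : ℝ) ^ 5 := by push_cast; ring
  have h3 : ((2 * Λ * x ^ 2 : ℕ) : ℝ) * (x : ℝ) ^ 4 = 2 * Λ * (x : ℝ) ^ 6 := by push_cast; ring
  have h4 : (x : ℝ) ^ 5 ≤ (x : ℝ) ^ 6 :=
    pow_le_pow_right₀ (by exact_mod_cast hx1) (by norm_num)
  linarith

end Pool.Agent.FPP
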