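import Mathlib

/-!
First-passage percolation on the square lattice: definitions used in the proof of
length-independent coalescence.  Paths are functions `p : ℕ → V` together with a length `k`.
-/

open MeasureTheory ProbabilityTheory Set Filter

noncomputable section

namespace Pool.Agent.FPP

abbrev V : Type := ℤ × ℤ
abbrev E : Type := Sym2 V
abbrev Env : Type := E → ℝ

/-- sup norm of a lattice vector -/
def nm (v : V) : ℤ := max |v.1| |v.2|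

/-- the real vector of a lattice vector -/
def rv (v : V) : ℝ × ℝ := ((v.1 : ℝ), (v.2 : ℝ))

/-- nearest neighbours -/
def Adj (a b : V) : Prop := |a.1 - b.1| + |a.2 - b.2| = 1

/-- `p 0, ..., p k` is a nearest-neighbour walk -/
def Chain (p : ℕ → V) (k : ℕ) : Prop := ∀ i < k, Adj (p i) (p (i + 1))

/-- self-avoiding on `0..k` -/
def SA (p : ℕ → V) (k : ℕ) : Prop := ∀ i ≤ k, ∀ j ≤ k, p i = p j → i = j

/-- the `i`-th edge -/
def ed (p : ℕ → V) (i : ℕ) : E := s(p i, p (i + 1))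

/-- weight of an edge (negative values are cut off) -/
def wt (ω : Env) (e : E) : ℝ := max (ω e) 0

/-- weight of the piece of `p` between the indices `i` and `j` -/
def W (ω : Env) (p : ℕ → V) (i j : ℕ) : ℝ := ∑ t ∈ Finset.Ico i j, wt ω (ed p t)

/-- passage time -/
def d (ω : Env) (x y : V) : ℝ :=
  sInf {s : ℝ | ∃ (p : ℕ → V) (k : ℕ), Chain p k ∧ p 0 = x ∧ p k = y ∧ s = W ω p 0 k}

/-- passage time among walks with at most `K` steps -/
def TK (ω : Env) (x y : V) (K : ℕ) : ℝ :=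
  sInf {s : ℝ | ∃ (p : ℕ → V) (k : ℕ), k ≤ K ∧ Chain p k ∧ p 0 = x ∧ p k = y ∧ s = W ω p 0 k}

/-- geodesic -/
def Geo (ω : Env) (p : ℕ → V) (k : ℕ) : Prop := Chain p k ∧ W ω p 0 k = d ω (p 0) (p k)

/-- `w` lies metrically between `x` and `y` -/
def On (ω : Env) (x w y : V) : Prop := d ω x w + d ω w y = d ω x y

/-- positive weights, existence and uniqueness of geodesics -/
def Nice (ω : Env) : Prop :=
  (∀ e, 0 < ω e) ∧
  (∀ x y : V, ∃ (p : ℕ → V) (k : ℕ), Geo ω p k ∧ p 0 = x ∧ p k = y) ∧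
  (∀ (p : ℕ → V) (k : ℕ) (q : ℕ → V) (l : ℕ), Geo ω p k → Geo ω q l → p 0 = q 0 → p k = q l →
    k = l ∧ ∀ i ≤ k, p i = q i)

/-- the four neighbours -/
def nbrs (a : V) : Finset V :=
  {(a.1 + 1, a.2), (a.1 - 1, a.2), (a.1, a.2 + 1), (a.1, a.2 - 1)}

open Classical in
/-- all walks with `k` steps from `v`, normalised to be constant from index `k` on -/
def paths (v : V) : ℕ → Finset (ℕ → V)
  | 0 => {fun _ => v}
  | k + 1 => (paths v k).biUnion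
      (fun p => (nbrs (p k)).image (fun w => fun i => if i ≤ k then p i else w))

/-- the environment seen through a relabelling of the vertices -/
def pull (φ : V → V) (ω : Env) : Env := fun e => ω (Sym2.map φ e)

open Classical in
/-- replace the coordinates in `S` by those of `ω'` -/
def mix (S : Set E) (ω ω' : Env) : Env := fun e => if e ∈ S then ω' e else ω e

/-- the i.i.d. law -/
def PP (G : Measure ℝ) : Measure Env := Measure.infinitePi (fun _ : E => G)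

instance (G : Measure ℝ) [IsProbabilityMeasure G] : IsProbabilityMeasure (PP G) := by
  unfold PP; infer_instance

/-- the standing assumptions on the weight law -/
def Law (G : Measure ℝ) : Prop :=
  G (Iio 0) = 0 ∧ (∃ a : ℝ, 0 < a ∧ Integrable (fun x : ℝ => Real.exp (a * x)) G) ∧ G ≪ volume

/-- mean passage time -/
def g (G : Measure ℝ) (v : V) : ℝ := ∫ ω, d ω 0 v ∂(PP G)

/-- super-polynomially small probability -/
def SP (G : Measure ℝ) (A : ℕ → Set Env) : Prop :=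
  ∀ k : ℕ, ∀ᶠ z : ℕ in atTop, PP G (A z) ≤ ENNReal.ofReal (((z : ℝ) ^ k)⁻¹)

/-- short walks are good enough and long self-avoiding walks are too heavy -/
def LenOK (ω : Env) (x y : V) (K : ℕ) (b : ℝ) : Prop :=
  TK ω x y K ≤ b ∧
    ∀ (p : ℕ → V) (k : ℕ), Chain p k → SA p k → p 0 = x → K ≤ k → b < W ω p 0 k

/-- concentration in the box of radius `z ^ 1024` -/
def CON (G : Measure ℝ) (z : ℕ) (ω : Env) : Prop :=
  ∀ x y : V, nm x ≤ (z : ℤ) ^ 1024 → nm y ≤ (z : ℤ) ^ 1024 → ∀ ρ : ℕ, z ≤ ρ →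
    nm (y - x) ≤ (ρ : ℤ) ^ 2 → |d ω x y - g G (y - x)| ≤ (z : ℝ) * ρ

/-- geodesics in the box have linear length -/
def LEN (Λ z : ℕ) (ω : Env) : Prop :=
  ∀ (p : ℕ → V) (k : ℕ), Geo ω p k → nm (p 0) ≤ (z : ℤ) ^ 1024 → nm (p k) ≤ (z : ℤ) ^ 1024 →
    ∀ K : ℕ, z ≤ K → nm (p k - p 0) ≤ (K : ℤ) → k ≤ Λ * K

/-- passage times in the box are close to the norm -/
def APP (N : Seminorm ℝ (ℝ × ℝ)) (z : ℕ) (ω : Env) : Prop :=
  ∀ x y : V, nm x ≤ (z : ℤ) ^ 1024 → nm y ≤ (z : ℤ) ^ 1024 → ∀ X : ℕ, z ≤ X →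
    nm (y - x) ≤ (X : ℤ) ^ 8 → |d ω x y - N (rv (y - x))| ≤ (z : ℝ) * (X : ℝ) ^ 6

/-- nested cones `|y| ≤ σ j * x` with a strict triangle inequality across each gap -/
def Cone (N : Seminorm ℝ (ℝ × ℝ)) (c : ℝ) (σ : ℕ → ℝ) : Prop :=
  0 < c ∧ σ 0 = 1 ∧ Monotone σ ∧
    ∀ j < 130, ∀ a b : ℝ × ℝ, |a.2| ≤ σ j * a.1 → σ (j + 1) * b.1 ≤ |b.2| →
      c * min ‖a‖ ‖b‖ ≤ N a + N b - N (a + b)

/-- the constants are small with respect to the scale parameter `z` -/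
def Par (N : Seminorm ℝ (ℝ × ℝ)) (c : ℝ) (σ : ℕ → ℝ) (S Λ z : ℕ) : Prop :=
  Cone N c σ ∧ σ 130 ≤ (S : ℝ) ∧ 1 ≤ S ∧ 1 ≤ Λ ∧ 100 * (S + 1) * Λ ≤ z ∧ 100 ≤ c * z ∧
    ∀ v : ℝ × ℝ, N v ≤ (z : ℝ) * ‖v‖

/-- almost directed to the right -/
def Dir (S s : ℤ) (p : ℕ → V) (k : ℕ) : Prop :=
  ∀ i j : ℕ, i ≤ j → j ≤ k → |(p j).2 - (p i).2| ≤ S * ((p j).1 - (p i).1) + s

/-- first index at which `p` is in column `a` -/
def fi (p : ℕ → V) (a : ℤ) : ℕ := sInf {i : ℕ | (p i).1 = a}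

/-- height of the first visit to column `a` -/
def ht (p : ℕ → V) (a : ℤ) : ℤ := (p (fi p a)).2

def cA (z : ℕ) : ℤ := 2 * (z : ℤ) ^ 1020
def cB (z : ℕ) : ℤ := 3 * (z : ℤ) ^ 1020
def aC (z i : ℕ) : ℤ := cA z + (i : ℤ) * (z : ℤ) ^ 760
def bC (z i : ℕ) : ℤ := aC z i + (z : ℤ) ^ 40 + 1

/-- admissible starting points -/
def InS (z : ℕ) (v : V) : Prop := nm v ≤ (z : ℤ) ^ 1021 ∧ v.1 < cA z

/-- weighted total distance between two height functions -/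
def gap (z : ℕ) (f f' : ℤ → ℤ) : ℤ :=
  ∑ a ∈ Finset.Icc (cA z) (cB z), |f a - f' a| +
    (z : ℤ) ^ 760 * ∑ i ∈ Finset.range (z ^ 260),
      (|f (bC z i) - f' (bC z i)| + |f (aC z (i + 1)) - f' (aC z (i + 1))|)

/-- attraction: disjoint directed geodesics crossing the strip are far apart -/
def ATT (S z : ℕ) (ω : Env) : Prop :=
  ∀ (p : ℕ → V) (k : ℕ) (q : ℕ → V) (l : ℕ), Geo ω p k → Geo ω q l →
    Dir S ((z : ℤ) ^ 40) p k → Dir S ((z : ℤ) ^ 40) q l → InS z (p 0) → InS z (q 0) →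
    cB z ≤ (p k).1 → cB z ≤ (q l).1 →
    (∀ i ≤ fi p (cB z), ∀ j ≤ fi q (cB z), p i ≠ q j) →
    (z : ℤ) ^ 1066 ≤ gap z (ht p) (ht q)

/-- the good event of scale `z` -/
def Good (N : Seminorm ℝ (ℝ × ℝ)) (S Λ z : ℕ) (ω : Env) : Prop :=
  Nice ω ∧ APP N z ω ∧ LEN Λ z ω ∧ ATT S z ω

open Classical in
/-- horizontal edges near the graph of `f` over the `i`-th interval of columns -/
def Tube (z : ℕ) (f : ℤ → ℤ) (i : ℕ) : Finset E :=
  (Finset.Ioc (bC z i) (aC z (i + 1))).biUnion (fun a =>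
    (Finset.Icc (f a - (z : ℤ) ^ 240) (f a + (z : ℤ) ^ 240)).image
      (fun y => s(((a - 1, y) : V), ((a, y) : V))))

open Classical in
/-- competitors of the graph of `f` over the `i`-th interval -/
def Comp (L z : ℕ) (f : ℤ → ℤ) (i : ℕ) (q : ℕ → V) (l : ℕ) : Prop :=
  l ≤ L * z ^ 760 ∧ Chain q l ∧ SA q l ∧
    (q 0).1 = bC z i ∧ |(q 0).2 - f (bC z i)| ≤ (z : ℤ) ^ 240 ∧
    (q l).1 = aC z (i + 1) ∧ |(q l).2 - f (aC z (i + 1))| ≤ (z : ℤ) ^ 240 ∧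
    (∀ j ≤ l, aC z i < (q j).1 ∧ (q j).1 ≤ aC z (i + 1)) ∧
    z ^ 760 ≤ 2 * ((Finset.range l).filter (fun j => ed q j ∈ Tube z f i)).card

/-- the `i`-th interval is attractive -/
def Attr (L z : ℕ) (f : ℤ → ℤ) (Φ : Set E) (lam : ℝ) (i : ℕ) (ω : Env) : Prop :=
  ∀ (q : ℕ → V) (l : ℕ), Comp L z f i q l → (∀ j < l, ed q j ∉ Φ) →
    lam + 2 * (z : ℝ) ^ 241 < W ω q 0 l

open Classical in
/-- few intervals are attractive -/
def Bad (L z : ℕ) (f : ℤ → ℤ) (Φ : Set E) (lam : ℕ → ℝ) (ω : Env) : Prop :=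
  ((Finset.range (z ^ 260)).filter (fun i => Attr L z f Φ (lam i) i ω)).card < z ^ 67

/-- the two ends of the `i`-th interval on the graph of `f` -/
def uL (z : ℕ) (f : ℤ → ℤ) (i : ℕ) : V := (bC z i, f (bC z i))
def uR (z : ℕ) (f : ℤ → ℤ) (i : ℕ) : V := (aC z (i + 1), f (aC z (i + 1)))

/-- admissible heights and thresholds -/
def Thr (G : Measure ℝ) (z : ℕ) (f : ℤ → ℤ) (lam : ℕ → ℝ) : Prop :=
  (∀ i < z ^ 260, |f (aC z (i + 1)) - f (bC z i)| ≤ (z : ℤ) ^ 761) ∧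
  (∀ i < z ^ 260, g G (uR z f i - uL z f i) - lam i ≤ (z : ℝ) ^ 382) ∧
  -(z : ℝ) ^ 514 ≤ ∑ i ∈ Finset.range (z ^ 260), (g G (uR z f i - uL z f i) - lam i)

/-- weight of `p` over the `i`-th interval -/
def lamOf (z : ℕ) (ω : Env) (p : ℕ → V) (i : ℕ) : ℝ :=
  W ω p (fi p (bC z i)) (fi p (aC z (i + 1)))

/-- normalised directed walks from an admissible start to the first visit of column `cB z` -/
def Cls (S z : ℕ) (p : ℕ → V) (k : ℕ) : Prop :=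
  p ∈ paths (p 0) k ∧ Dir S ((z : ℤ) ^ 40) p k ∧ InS z (p 0) ∧ (p k).1 = cB z ∧ fi p (cB z) = k

/-- every directed geodesic has many attractive intervals -/
def NoBad (S L z : ℕ) (ω : Env) : Prop :=
  ∀ (p : ℕ → V) (k : ℕ), Cls S z p k → Geo ω p k →
    ¬ Bad L z (ht p) {e | ∃ j < k, e = ed p j} (lamOf z ω p) ω

/-- the geodesics from `u` and `u + η` to `o` do not meet in the box of radius `z ^ 1022` -/
def Deep (z : ℕ) (ω : Env) (o u η : V) : Prop :=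
  ¬ ∃ w : V, nm w ≤ (z : ℤ) ^ 1022 ∧ On ω u w o ∧ On ω (u + η) w o

/-- the box of radius `z ^ 1020` -/
def box (z : ℕ) : Finset V :=
  Finset.Icc (-(z : ℤ) ^ 1020) ((z : ℤ) ^ 1020) ×ˢ Finset.Icc (-(z : ℤ) ^ 1020) ((z : ℤ) ^ 1020)

/-- the two geodesics leave the big box in different directions -/
def RidgeE (σ : ℕ → ℝ) (z : ℕ) (ω : Env) (o u η : V) : Prop :=
  ∃ y y' : V, nm y = (z : ℤ) ^ 1022 ∧ nm y' = (z : ℤ) ^ 1022 ∧ On ω u y o ∧ On ω (u + η) y' o ∧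
    |(y - u).2| ≤ (y - u).1 ∧ σ 1 * (rv (y' - (u + η))).1 ≤ |(rv (y' - (u + η))).2|

/-- both geodesics leave the big box to the right -/
def DirE (σ : ℕ → ℝ) (z : ℕ) (ω : Env) (o u η : V) : Prop :=
  ∃ y y' : V, nm y = (z : ℤ) ^ 1022 ∧ nm y' = (z : ℤ) ^ 1022 ∧ On ω u y o ∧ On ω (u + η) y' o ∧
    |(rv (y - u)).2| ≤ σ 1 * (rv (y - u)).1 ∧
    |(rv (y' - (u + η))).2| ≤ σ 1 * (rv (y' - (u + η))).1

/-- a directed initial piece of the geodesic to `o` that crosses the strip -/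
def Ray (S z : ℕ) (ω : Env) (o : V) (p : ℕ → V) (k : ℕ) : Prop :=
  Geo ω p k ∧ Dir S ((z : ℤ) ^ 40) p k ∧ cB z ≤ (p k).1 ∧ On ω (p 0) (p k) o

def xs (z j : ℕ) : V := (0, (2 * (j : ℤ) - 1) * (z : ℤ) ^ 41)
def ws (z : ℕ) (n η : ℤ) (j : ℕ) : V := (n, 2 * (j : ℤ) * (z : ℤ) ^ 41 + η)

/-- the geodesics from `xs j` and `xs (j+1)` to `ws j` do not meet left of column `cB z` -/
def NoMerge (z : ℕ) (ω : Env) (n η : ℤ) (j : ℕ) : Prop :=
  ¬ ∃ w : V, w.1 ≤ cB z ∧ On ω (xs z j) w (ws z n η j) ∧ On ω (xs z (j + 1)) w (ws z n η j)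

open Classical in
/-- number of edges in exactly one of two walks -/
def sdc (p : ℕ → V) (k : ℕ) (q : ℕ → V) (l : ℕ) : ℕ :=
  (symmDiff ((Finset.range k).image (ed p)) ((Finset.range l).image (ed q))).card

/-- the event of the problem -/
def Far (n h : ℕ) (R : ℕ) (ω : Env) : Prop :=
  ∃ (p : ℕ → V) (k : ℕ) (q : ℕ → V) (l : ℕ), Geo ω p k ∧ Geo ω q l ∧ p 0 = 0 ∧ q 0 = 0 ∧
    p k = ((n : ℤ), 0) ∧ q l = ((n : ℤ), (h : ℤ)) ∧ R ≤ sdc p k q l

end Pool.Agent.FPP
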