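import Pool.Agent.P.MP_ecb9f8_pr.BaseP

/-!
First-passage percolation on the square lattice: definitions for the case of a polygonal
limit shape.
-/

open MeasureTheory ProbabilityTheory Set Filter

noncomputable section

namespace Pool.Agent.FPP

/-! ### frames and polygons -/

abbrev Fr : Type := Bool × Bool × Bool

/-- the eight symmetries of the square -/
def fr {α : Type} [Neg α] (t : Fr) (v : α × α) : α × α :=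
  (if t.2.1 then -(if t.1 then v.2 else v.1) else (if t.1 then v.2 else v.1),
   if t.2.2 then -(if t.1 then v.1 else v.2) else (if t.1 then v.1 else v.2))

/-- the inverse of `fr t` -/
def fri {α : Type} [Neg α] (t : Fr) (v : α × α) : α × α :=
  (if t.1 then (if t.2.2 then -v.2 else v.2) else (if t.2.1 then -v.1 else v.1),
   if t.1 then (if t.2.1 then -v.1 else v.1) else (if t.2.2 then -v.2 else v.2))

def frm (t : Fr) : V ≃ V :=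
  ⟨fr t, fri t,
    fun v => by obtain ⟨a, b, c⟩ := t; cases a <;> cases b <;> cases c <;> simp [fr, fri],
    fun v => by obtain ⟨a, b, c⟩ := t; cases a <;> cases b <;> cases c <;> simp [fr, fri]⟩

/-- `v ↦ fr t v + u` -/
def aff (t : Fr) (u : V) : V ≃ V := (frm t).trans (sh u)

def lin (φ v : ℝ × ℝ) : ℝ := φ.1 * v.1 + φ.2 * v.2

/-- lateral coordinate with respect to the direction `(1, κ)` -/
def lat (κ : ℝ) (v : ℝ × ℝ) : ℝ := v.2 - κ * v.1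

/-- the direction `(1, κ)` is a corner of the unit ball of `N`, with supporting functional `φ` -/
def Corner (N : Seminorm ℝ (ℝ × ℝ)) (κ c : ℝ) (φ : ℝ × ℝ) : Prop :=
  |κ| ≤ 1 ∧ (∀ v, lin φ v ≤ N v) ∧ lin φ (1, κ) = N (1, κ) ∧
    ∀ v : ℝ × ℝ, c * (|lat κ v| + max (-v.1) 0) ≤ N v - lin φ v

/-- `Y` is close to a corner direction -/
def NearC (Kc : Finset ℝ) (Y : V) : Prop :=
  ∃ t : Fr, ∃ κ ∈ Kc, 0 ≤ (fri t Y).1 ∧ |lat κ (rv (fri t Y))| ^ 5 ≤ (nm Y : ℝ) ^ 4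

/-- deviation from the cone `|y| ≤ x` (`b = 0`) or from the first quadrant (`b = 1`) -/
def dev (b : ℤ) (v : ℝ × ℝ) : ℝ :=
  if b = 0 then |v.2| - v.1 else (|v.1| - v.1) + (|v.2| - v.2)

/-- the face of `ψ` lies in the cone of type `b` -/
def FrameE (N : Seminorm ℝ (ℝ × ℝ)) (c : ℝ) (ψ : ℝ × ℝ) (b : ℤ) : Prop :=
  (b = 0 ∨ b = 1) ∧ (∀ v, lin ψ v ≤ N v) ∧ ∀ v, c * dev b v ≤ N v - lin ψ v

/-- `N` is linear on the ball of radius `ρ` about `Y` -/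
def FaceAt (N : Seminorm ℝ (ℝ × ℝ)) (φ : ℝ × ℝ) (Y : V) (ρ : ℝ) : Prop :=
  ∀ x : ℝ × ℝ, ‖x - rv Y‖ ≤ ρ → N x = lin φ x

/-- the unit ball of `N` is a symmetric polygon with corner slopes `Kc` and faces `Φ` -/
structure Poly (N : Seminorm ℝ (ℝ × ℝ)) (Kc : Finset ℝ) (Φ : Finset (ℝ × ℝ)) (c : ℝ) : Prop where
  pos : 0 < c
  sym : ∀ (t : Fr) (v : ℝ × ℝ), N (fr t v) = N v
  c_le : c ≤ N (1, 0)
  low : ∀ v : ℝ × ℝ, N (1, 0) * ‖v‖ ≤ N v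
  corner : ∀ κ ∈ Kc, ∃ φ, Corner N κ c φ
  stab : ∀ (Y : V) (ρ : ℝ), 0 ≤ ρ → 2 * ρ < (nm Y : ℝ) → (2 * ρ) ^ 5 ≤ (nm Y : ℝ) ^ 4 →
    ¬ NearC Kc Y → ∃ φ ∈ Φ, FaceAt N φ Y ρ
  sep : ∀ φ ∈ Φ, ∀ φ' ∈ Φ, φ ≠ φ' → c ≤ ‖φ - φ'‖
  frame : ∀ φ ∈ Φ, ∃ (t : Fr) (b : ℤ), FrameE N c (fri t φ) b

/-- the constants are small with respect to the scale parameter `z` -/
structure Sz (N : Seminorm ℝ (ℝ × ℝ)) (c : ℝ) (Λ z : ℕ) : Prop where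
  one : 1 ≤ Λ
  lam : 100 * Λ ≤ z
  cz : 100 ≤ c * z
  up : ∀ v : ℝ × ℝ, N v ≤ (z : ℝ) * ‖v‖

/-! ### good events -/

/-- the good event of scale `z` in the box of radius `B` -/
structure MG (N : Seminorm ℝ (ℝ × ℝ)) (G : Measure ℝ) (Λ z : ℕ) (B : ℤ) (ω : Env) : Prop where
  nice : Nice ω
  con : ∀ x y : V, nm x ≤ B → nm y ≤ B → ∀ ρ : ℕ, z ≤ ρ → nm (y - x) ≤ (ρ : ℤ) ^ 2 →
    |d ω x y - g G (y - x)| ≤ (z : ℝ) * ρ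
  len : ∀ (p : ℕ → V) (k : ℕ), Geo ω p k → nm (p 0) ≤ B → nm (p k) ≤ B →
    ∀ K : ℕ, z ≤ K → nm (p k - p 0) ≤ (K : ℤ) → k ≤ Λ * K
  app : ∀ x y : V, nm x ≤ B → nm y ≤ B → ∀ X : ℕ, z ≤ X → nm (y - x) ≤ (X : ℤ) ^ 8 →
    |d ω x y - N (rv (y - x))| ≤ (z : ℝ) * (X : ℝ) ^ 6
  upb : ∀ x y : V, nm x ≤ B → nm y ≤ B → ∀ K : ℕ, z ^ 2 ≤ K → nm (y - x) ≤ (K : ℤ) →
    d ω x y ≤ (z : ℝ) * K
  low : ∀ x y : V, nm x ≤ B → nm y ≤ B → ∀ ρ : ℕ, z ≤ ρ → nm (y - x) ≤ (ρ : ℤ) ^ 2 →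
    N (rv (y - x)) - (z : ℝ) * ρ ≤ d ω x y

/-- linear length of geodesics at all scales above `z` around the anchor `u` -/
def LBA (Λ z : ℕ) (u : V) (ω : Env) : Prop :=
  ∀ (p : ℕ → V) (k K : ℕ), Geo ω p k → z ≤ K → nm (p 0 - u) ≤ (K : ℤ) → nm (p k - u) ≤ (K : ℤ) →
    k ≤ Λ * K

/-! ### generic tools -/

/-- a family of maps that lower the weights -/
structure LowF (G : Measure ℝ) (Sg : Set ℝ) (δ : ℝ) (lam J : ℝ → ℝ → ℝ) : Prop where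
  mlam : ∀ τ, Measurable (lam τ)
  mJ : ∀ τ, Measurable (J τ)
  nonneg : ∀ τ, 0 ≤ τ → τ ≤ 1 / 2 → ∀ x, 0 ≤ J τ x
  map : ∀ τ, 0 ≤ τ → τ ≤ 1 / 2 →
    (G.withDensity (fun x => ENNReal.ofReal (J τ x))).map (lam τ) = G
  mom : ∀ τ, 0 ≤ τ → τ ≤ 1 / 2 → ∀ k : ℕ, (k : ℝ) * τ ≤ 1 →
    ∫⁻ x, ENNReal.ofReal (J τ x ^ k) ∂G ≤ ENNReal.ofReal (1 + (k : ℝ) ^ 2 * τ ^ 2)
  le : ∀ τ, 0 ≤ τ → τ ≤ 1 / 2 → ∀ x, lam τ x ≤ x
  anti : ∀ τ τ', 0 ≤ τ → τ ≤ τ' → τ' ≤ 1 / 2 → ∀ x, lam τ' x ≤ lam τ x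
  sep : ∀ τ τ', 0 ≤ τ → τ ≤ τ' → τ' ≤ 1 / 2 → ∀ x, lam τ' x ∈ Sg →
    lam τ' x + δ * (τ' - τ) ≤ lam τ x

open Classical in
/-- the geodesic from `x` to `o` avoids the edge set attached to its label, while an almost
optimal route uses many edges of that set -/
def ACev (Y : Finset ℤ) (T : ℤ → Finset E) (St : ℤ → Finset V) (lab : (ℕ → V) → ℤ) (x o : V)
    (L b : ℕ) (w : ℝ) (ω : Env) : Prop :=
  ∃ y ∈ Y, (∃ (q : ℕ → V) (l : ℕ), Geo ω q l ∧ q 0 = x ∧ q l = o ∧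
      lab (fun t => q (min t l)) = y ∧ ∀ j < l, ed q j ∉ T y) ∧
    ∃ (r : ℕ → V) (m : ℕ), Chain r m ∧ SA r m ∧ r 0 ∈ St y ∧ m ≤ L * b ∧
      b ≤ ((Finset.range m).filter (fun j => ed r j ∈ T y)).card ∧
      d ω x (r 0) + W ω r 0 m + d ω (r m) o ≤ d ω x o + w

/-- the edges of a walk -/
def edges (p : ℕ → V) (k : ℕ) : Set E := {e | ∃ j < k, e = ed p j}

/-- all competitors that avoid `Φ` are heavier than `θ` -/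
def AttrG (C : (ℕ → V) → ℕ → Prop) (Φ : Set E) (θ : ℝ) (ω : Env) : Prop :=
  ∀ (q : ℕ → V) (l : ℕ), C q l → (∀ j < l, ed q j ∉ Φ) → θ < W ω q 0 l

open Classical in
/-- few intervals are attractive -/
def BadG (I : Finset ℕ) (C : ℕ → (ℕ → V) → ℕ → Prop) (Φ : Set E) (θ : ℕ → ℝ) (m : ℕ)
    (ω : Env) : Prop :=
  (I.filter (fun i => AttrG (C i) Φ (θ i) ω)).card < m

/-- a family of walks that only looks at the vertices `0..l` -/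
def Fam (C : (ℕ → V) → ℕ → Prop) : Prop :=
  (∀ q l, C q l → Chain q l) ∧ ∀ q q' l, (∀ t ≤ l, q t = q' t) → C q l → C q' l

/-! ### attraction with columns `x + b y` -/

def colb (b : ℤ) (v : V) : ℤ := v.1 + b * v.2
def fib (b : ℤ) (p : ℕ → V) (a : ℤ) : ℕ := sInf {i : ℕ | colb b (p i) = a}
def htb (b : ℤ) (p : ℕ → V) (a : ℤ) : ℤ := (p (fib b p a)).2
/-- the point of column `a` at height `y` -/
def pt (b a y : ℤ) : V := (a - b * y, y)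

def Dirb (b s : ℤ) (p : ℕ → V) (k : ℕ) : Prop :=
  ∀ i j : ℕ, i ≤ j → j ≤ k → |(p j).2 - (p i).2| ≤ colb b (p j) - colb b (p i) + s

def cA2 (z : ℕ) : ℤ := 3 * (z : ℤ) ^ 1020
def cB2 (z : ℕ) : ℤ := 4 * (z : ℤ) ^ 1020
def a2 (z i : ℕ) : ℤ := cA2 z + (i : ℤ) * (z : ℤ) ^ 800

def InS2 (b : ℤ) (z : ℕ) (v : V) : Prop := nm v ≤ 2 * (z : ℤ) ^ 1020 ∧ colb b v < cA2 z

def gap2 (z : ℕ) (f f' : ℤ → ℤ) : ℤ :=
  ∑ a ∈ Finset.Icc (cA2 z) (cB2 z), |f a - f' a| +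
    (z : ℤ) ^ 800 * ∑ i ∈ Finset.range (z ^ 220),
      (|f (a2 z i) - f' (a2 z i)| + |f (a2 z (i + 1)) - f' (a2 z (i + 1))|)

/-- attraction: disjoint directed geodesics crossing the strip are far apart -/
def ATT2 (b : ℤ) (z : ℕ) (ω : Env) : Prop :=
  ∀ (p : ℕ → V) (k : ℕ) (q : ℕ → V) (l : ℕ), Geo ω p k → Geo ω q l →
    Dirb b ((z : ℤ) ^ 772) p k → Dirb b ((z : ℤ) ^ 772) q l → InS2 b z (p 0) → InS2 b z (q 0) →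
    cB2 z ≤ colb b (p k) → cB2 z ≤ colb b (q l) →
    (∀ i ≤ fib b p (cB2 z), ∀ j ≤ fib b q (cB2 z), p i ≠ q j) →
    (z : ℤ) ^ 1056 ≤ gap2 z (htb b p) (htb b q)

open Classical in
def Tube2 (b : ℤ) (z : ℕ) (f : ℤ → ℤ) (i : ℕ) : Finset E :=
  (Finset.Ioc (a2 z i) (a2 z (i + 1))).biUnion (fun a =>
    (Finset.Icc (f a - (z : ℤ) ^ 200) (f a + (z : ℤ) ^ 200)).biUnion
      (fun y => {s(pt b a y - (1, 0), pt b a y), s(pt b a y - (0, 1), pt b a y)}))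

open Classical in
def Comp2 (b : ℤ) (L z : ℕ) (f : ℤ → ℤ) (i : ℕ) (q : ℕ → V) (l : ℕ) : Prop :=
  l ≤ L * z ^ 800 ∧ Chain q l ∧ SA q l ∧
    colb b (q 0) = a2 z i ∧ |(q 0).2 - f (a2 z i)| ≤ (z : ℤ) ^ 200 ∧
    colb b (q l) = a2 z (i + 1) ∧ |(q l).2 - f (a2 z (i + 1))| ≤ (z : ℤ) ^ 200 ∧
    (∀ j ≤ l, a2 z i - (z : ℤ) ^ 800 < colb b (q j) ∧ colb b (q j) ≤ a2 z (i + 1)) ∧
    z ^ 800 ≤ 2 * ((Finset.range l).filter (fun j => ed q j ∈ Tube2 b z f i)).card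

def Cls2 (b : ℤ) (z : ℕ) (p : ℕ → V) (k : ℕ) : Prop :=
  p ∈ paths (p 0) k ∧ Dirb b ((z : ℤ) ^ 772) p k ∧ InS2 b z (p 0) ∧ colb b (p k) = cB2 z ∧
    fib b p (cB2 z) = k

/-- weight of `p` over the `i`-th interval -/
def lam2 (b : ℤ) (z : ℕ) (ω : Env) (p : ℕ → V) (i : ℕ) : ℝ :=
  W ω p (fib b p (a2 z i)) (fib b p (a2 z (i + 1)))

def NoBad2 (b : ℤ) (L z : ℕ) (ω : Env) : Prop :=
  ∀ (p : ℕ → V) (k : ℕ), Cls2 b z p k → Geo ω p k →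
    ¬ BadG (Finset.range (z ^ 220)) (Comp2 b L z (htb b p)) (edges p k)
      (fun i => lam2 b z ω p i + 2 * (z : ℝ) ^ 201) (z ^ 57) ω

/-- the displacement over the `i`-th interval -/
def st2 (b : ℤ) (z : ℕ) (f : ℤ → ℤ) (i : ℕ) : V :=
  pt b (a2 z (i + 1)) (f (a2 z (i + 1))) - pt b (a2 z i) (f (a2 z i))

def Thr2 (b : ℤ) (G : Measure ℝ) (z : ℕ) (f : ℤ → ℤ) (lam : ℕ → ℝ) : Prop :=
  (∀ i < z ^ 220, nm (st2 b z f i) ≤ 3 * (z : ℤ) ^ 800) ∧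
  (∀ i < z ^ 220, g G (st2 b z f i) - lam i ≤ (z : ℝ) ^ 402) ∧
  -(z : ℝ) ^ 513 ≤ ∑ i ∈ Finset.range (z ^ 220), (g G (st2 b z f i) - lam i)

/-- the good event of scale `z` for the local and the crossing argument -/
def Good2 (N : Seminorm ℝ (ℝ × ℝ)) (G : Measure ℝ) (Λ z : ℕ) (ω : Env) : Prop :=
  MG N G Λ z ((z : ℤ) ^ 1310) ω ∧ ATT2 0 z ω ∧ ATT2 1 z ω

def Good8 (N : Seminorm ℝ (ℝ × ℝ)) (G : Measure ℝ) (Λ z : ℕ) (ω : Env) : Prop :=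
  Good2 N G Λ z ω ∧ ∀ t : Fr, Good2 N G Λ z (pull (frm t) ω)

/-! ### the local and the crossing argument -/

/-- the geodesics from `x` and `x'` to `o` do not meet within distance `R` of `u` -/
def NM (ω : Env) (x x' o u : V) (R : ℤ) : Prop :=
  ¬ ∃ m : V, On ω x m o ∧ On ω x' m o ∧ nm (m - u) ≤ R

/-- no corner run at the scales between `s` and `s'` -/
def NoRun (Kc : Finset ℝ) (s s' : ℤ) (ω : Env) (x o : V) : Prop :=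
  ∀ y : V, On ω x y o → s ≤ nm (y - x) → nm (y - x) ≤ s' → ¬ NearC Kc (y - x)

/-- no corner run at the scales above `s` -/
def NoRunA (Kc : Finset ℝ) (s : ℤ) (ω : Env) (x o : V) : Prop :=
  ∀ y : V, On ω x y o → s ≤ nm (y - x) → ¬ NearC Kc (y - x)

/-- the geodesic from `x` to `o` stays in the face of `φ` outside the box of radius `K` -/
def ConeO (N : Seminorm ℝ (ℝ × ℝ)) (φ : ℝ × ℝ) (K : ℤ) (ω : Env) (x o : V) : Prop :=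
  ∀ y : V, On ω x y o → nm (y - x) ≤ K ∨ N (rv (y - x)) = lin φ (rv (y - x))

/-- an initial piece of the geodesic to `o` that stays in the face of `φ` -/
def RayF (N : Seminorm ℝ (ℝ × ℝ)) (φ : ℝ × ℝ) (z : ℕ) (ω : Env) (o : V) (p : ℕ → V)
    (k : ℕ) : Prop :=
  Geo ω p k ∧ On ω (p 0) (p k) o ∧ nm (p k) = (z : ℤ) ^ 1300 ∧
    FaceAt N φ (p k - p 0) (3 * (z : ℝ) ^ 1020) ∧
    ∀ i ≤ k, i ≤ z ^ 20 ∨ N (rv (p i - p 0)) = lin φ (rv (p i - p 0))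

def HasRay (N : Seminorm ℝ (ℝ × ℝ)) (φ : ℝ × ℝ) (z : ℕ) (ω : Env) (o u : V) : Prop :=
  ∃ (p : ℕ → V) (k : ℕ), p 0 = u ∧ RayF N φ z ω o p k

/-- the event of the crossing argument, for the configuration translated by `x` -/
def CEv (N : Seminorm ℝ (ℝ × ℝ)) (z : ℕ) (n h : ℤ) (x : V) (ω : Env) : Prop :=
  NM ω x (x + (0, h)) (x + (n, 0)) x ((z : ℤ) ^ 1022) ∧
    ConeO N (N (1, 0), 0) ((z : ℤ) ^ 20) ω x (x + (n, 0)) ∧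
    ConeO N (N (1, 0), 0) ((z : ℤ) ^ 20) ω (x + (0, h)) (x + (n, 0)) ∧
    ConeO N (-N (1, 0), 0) ((z : ℤ) ^ 20) ω (x + (n, 0)) x ∧
    ConeO N (-N (1, 0), 0) ((z : ℤ) ^ 20) ω (x + (n, 0)) (x + (0, h))

/-! ### corner runs -/

def TT (ζ : ℕ) : ℤ := (ζ : ℤ) ^ 120000

/-- a corner run of the first geodesic, and no common vertex in the annulus -/
def RunEv (κ : ℝ) (ζ : ℕ) (ω : Env) (xP oP xQ oQ : V) : Prop :=
  (∃ y : V, On ω xP y oP ∧ 10 * TT ζ ≤ y.1 ∧ y.1 ≤ (ζ : ℤ) ^ 120005 ∧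
    |lat κ (rv y)| ≤ (ζ : ℝ) ^ 97000) ∧
  ¬ ∃ m : V, On ω xP m oP ∧ On ω xQ m oQ ∧ TT ζ ≤ 2 * nm m ∧ nm m ≤ 20 * TT ζ

/-- the same at some scale above `h`, in some frame, anchored at `xP` -/
def Rare (Kc : Finset ℝ) (h : ℕ) (ω : Env) (xP oP xQ oQ : V) : Prop :=
  ∃ ζ : ℕ, h ≤ ζ ∧ ∃ t : Fr, ∃ κ ∈ Kc,
    RunEv κ ζ (pull (aff t xP) ω) 0 ((aff t xP).symm oP) ((aff t xP).symm xQ) ((aff t xP).symm oQ)

/-- the walk reaches far along the corner direction -/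
def Tub (κ : ℝ) (ζ : ℕ) (p : ℕ → V) (k : ℕ) : Prop :=
  ∃ i ≤ k, 4 * TT ζ ≤ (p i).1 ∧ (p i).1 ≤ (ζ : ℤ) ^ 120005 ∧ |lat κ (rv (p i))| ≤ (ζ : ℝ) ^ 97004

/-- index of the first visit to column `3 T` -/
def k3 (ζ : ℕ) (p : ℕ → V) : ℕ := fi p (3 * TT ζ)

/-- the walk crosses the tube and does not come back -/
structure Tube3 (κ : ℝ) (ζ : ℕ) (p : ℕ → V) (k : ℕ) : Prop where
  chain : Chain p k
  start : nm (p 0) ≤ (ζ : ℤ)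
  le : k3 ζ p ≤ k
  col : (p (k3 ζ p)).1 = 3 * TT ζ
  tube : ∀ j ≤ k3 ζ p, |lat κ (rv (p j))| ≤ (ζ : ℝ) ^ 97006 ∧ nm (p j) ≤ 4 * TT ζ
  back : ∀ i j, i ≤ j → j ≤ k3 ζ p → (p i).1 - (ζ : ℤ) ^ 97006 ≤ (p j).1
  noret : ∀ j, k3 ζ p ≤ j → j ≤ k → 0 ≤ (p j).1 → |lat κ (rv (p j))| ≤ (ζ : ℝ) ^ 97010 →
    5 * TT ζ ≤ 2 * (p j).1

open Classical in
/-- horizontal edges entering the columns `(a, b]` at heights between `lo` and `hi` -/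
def TubeH (a b : ℤ) (lo hi : ℤ → ℤ) : Finset E :=
  (Finset.Ioc a b).biUnion (fun x =>
    (Finset.Icc (lo x) (hi x)).image (fun y => s(((x - 1, y) : V), ((x, y) : V))))

/-- the same with lateral coordinate between `lo` and `hi` -/
def Band (κ : ℝ) (a b : ℤ) (lo hi : ℝ) : Finset E :=
  TubeH a b (fun x => ⌈κ * x + lo⌉) (fun x => ⌊κ * x + hi⌋)

/-- the points of column `a` with lateral coordinate between `lo` and `hi` -/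
def Seg (κ : ℝ) (a : ℤ) (lo hi : ℝ) : Finset V :=
  (Finset.Icc ⌈κ * a + lo⌉ ⌊κ * a + hi⌋).image (fun y => ((a, y) : V))

/-- the second geodesic avoids the tube -/
def AC0 (κ : ℝ) (Λ ζ : ℕ) (x o : V) (ω : Env) : Prop :=
  ACev {0} (fun _ => Band κ (5 * TT ζ) (6 * TT ζ) (-(ζ : ℝ) ^ 97003) ((ζ : ℝ) ^ 97003))
    (fun _ => Seg κ (5 * TT ζ) (-(ζ : ℝ) ^ 97003) ((ζ : ℝ) ^ 97003)) (fun _ => 0) x o
    (2 * Λ) (ζ ^ 120000) (4 * (ζ : ℝ) ^ 3) ω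

def aR (ζ o i : ℕ) : ℤ := TT ζ + (o : ℤ) + (i : ℤ) * (ζ : ℤ) ^ 30000

open Classical in
/-- last visit to column `a` before the first visit to column `b` -/
def la (p : ℕ → V) (a b : ℤ) : ℕ := Nat.findGreatest (fun j => (p j).1 = a) (fi p b)

def sR (ζ o : ℕ) (p : ℕ → V) (i : ℕ) : ℕ := la p (aR ζ o i) (aR ζ o (i + 1))
def eR (ζ o : ℕ) (p : ℕ → V) (i : ℕ) : ℕ := fi p (aR ζ o (i + 1))

/-- lateral oscillation over the `i`-th interval -/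
def Osc (κ : ℝ) (ζ o : ℕ) (p : ℕ → V) (i : ℕ) : ℝ :=
  |lat κ (rv (p (eR ζ o p i) - p (sR ζ o p i)))| +
    |(((p (sR ζ o p i)).2 - ht p (aR ζ o i) : ℤ) : ℝ)|

def OscS (κ : ℝ) (ζ o : ℕ) (p : ℕ → V) : ℝ := ∑ i ∈ Finset.range (ζ ^ 90000), Osc κ ζ o p i

def Tame (ζ o : ℕ) (p : ℕ → V) : Finset ℕ :=
  (Finset.range (ζ ^ 90000)).filter
    (fun i => nm (p (eR ζ o p i) - p (sR ζ o p i)) ≤ 3 * (ζ : ℤ) ^ 30000)

/-- walks from near `u` to near `v` that stay strictly between the two columns -/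
def Conf (u v : V) (r : ℤ) (q : ℕ → V) (l : ℕ) : Prop :=
  Chain q l ∧ (q 0).1 = u.1 ∧ |(q 0).2 - u.2| ≤ r ∧ (q l).1 = v.1 ∧ |(q l).2 - v.2| ≤ r ∧
    ∀ j, 0 < j → j < l → u.1 < (q j).1 ∧ (q j).1 < v.1

/-- the edges that such walks can use -/
def Reg (a b : ℤ) : Set E := {e | (∀ v ∈ e, a ≤ v.1 ∧ v.1 ≤ b) ∧ ∃ v ∈ e, a < v.1 ∧ v.1 < b}

open Classical in
def Comp3 (tb : Bool) (L ζ : ℕ) (r : ℤ) (o : ℕ) (p : ℕ → V) (i : ℕ) (q : ℕ → V) (l : ℕ) : Prop :=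
  l ≤ L * ζ ^ 30000 ∧ SA q l ∧ Conf (p (sR ζ o p i)) (p (eR ζ o p i)) r q l ∧
    (tb = true → ζ ^ 30000 ≤ 2 * ((Finset.range l).filter (fun j => ed q j ∈
      TubeH (aR ζ o i) (aR ζ o (i + 1)) (fun x => ht p x - r) (fun x => ht p x + r))).card)

def Cls3 (κ : ℝ) (ζ : ℕ) (p : ℕ → V) (k : ℕ) : Prop :=
  p ∈ paths (p 0) k ∧ nm (p 0) ≤ (ζ : ℤ) ∧ (p k).1 = 3 * TT ζ ∧ k3 ζ p = k ∧
    ∀ j ≤ k, |lat κ (rv (p j))| ≤ (ζ : ℝ) ^ 97006 ∧ nm (p j) ≤ 4 * TT ζ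

def lam3 (ζ o : ℕ) (ω : Env) (p : ℕ → V) (i : ℕ) : ℝ := W ω p (sR ζ o p i) (eR ζ o p i)

/-- geodesics with large oscillation have many attractive intervals -/
def NoBadF (κ : ℝ) (L ζ : ℕ) (ω : Env) : Prop :=
  ∀ o < ζ ^ 30000, ∀ (p : ℕ → V) (k : ℕ), Cls3 κ ζ p k → (ζ : ℝ) ^ 102240 ≤ OscS κ ζ o p →
    Geo ω p k →
    ¬ BadG (Tame ζ o p) (Comp3 false L ζ ((ζ : ℤ) ^ 12236) o p) (edges p k)
      (fun i => lam3 ζ o ω p i + 2 * (ζ : ℝ) ^ 12237) (ζ ^ 87234) ω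

/-- geodesics with small oscillation have many attractive intervals -/
def NoBadE (κ : ℝ) (L ζ : ℕ) (ω : Env) : Prop :=
  ∀ o < ζ ^ 30000, ∀ (p : ℕ → V) (k : ℕ), Cls3 κ ζ p k → OscS κ ζ o p ≤ (ζ : ℝ) ^ 102240 →
    Geo ω p k →
    ¬ BadG (Tame ζ o p) (Comp3 true L ζ ((ζ : ℤ) ^ 6000) o p) (edges p k)
      (fun i => lam3 ζ o ω p i + 2 * (ζ : ℝ) ^ 6001) (ζ ^ 89233) ω

/-- all confined walks between two coarse segments have weight at least `n` -/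
def GE (ζ o i : ℕ) (k k' n : ℤ) : Set Env :=
  {ω | ∀ (q : ℕ → V) (l : ℕ),
    Conf (aR ζ o i, (ζ : ℤ) ^ 11990 * k) (aR ζ o (i + 1), (ζ : ℤ) ^ 11990 * k')
      (2 * (ζ : ℤ) ^ 11990) q l → (n : ℝ) ≤ W ω q 0 l}

/-- the confined passage time is exceptionally large -/
def LowP (G : Measure ℝ) (ζ o i : ℕ) (k k' : ℤ) (ω : Env) : Prop :=
  ∃ n : ℤ, ω ∈ GE ζ o i k k' n ∧ PP G (GE ζ o i k k' n) < ENNReal.ofReal ((ζ : ℝ) ^ 510)⁻¹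

open Classical in
/-- along every coarse route of small variation many intervals are not exceptional -/
def ENT (G : Measure ℝ) (κ : ℝ) (ζ : ℕ) (ω : Env) : Prop :=
  ∀ o < ζ ^ 30000, ∀ H k : ℕ → ℤ, |H 0| ≤ (ζ : ℤ) ^ 120001 →
    ∑ i ∈ Finset.range (ζ ^ 90000), (|k i - H i| + |H (i + 1) - k i - ⌊κ * (ζ : ℝ) ^ 18010⌋|) ≤
      2 * (ζ : ℤ) ^ 90250 →
    ζ ^ 90000 ≤ 100 * ((Finset.range (ζ ^ 90000)).filter
      (fun i => ¬ LowP G ζ o i (k i) (H (i + 1)) ω)).card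

/-- in column `x` the two walks have vertices more than `r` apart -/
def FarC (r : ℤ) (p : ℕ → V) (k : ℕ) (q : ℕ → V) (l : ℕ) (x : ℤ) : Prop :=
  ∃ i ≤ k, ∃ j ≤ l, (p i).1 = x ∧ (q j).1 = x ∧ r < |(p i).2 - (q j).2|

open Classical in
def FarN (ζ : ℕ) (r : ℤ) (p q : ℕ → V) : ℕ :=
  ((Finset.Icc (TT ζ) (2 * TT ζ + (ζ : ℤ) ^ 30000)).filter
    (fun x => FarC r p (k3 ζ p) q (k3 ζ q) x)).card

/-- two geodesics in the tube that are far apart in many columns -/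
def SlotB (κ : ℝ) (ζ R Mx : ℕ) (ω : Env) (xP oP xQ oQ : V) : Prop :=
  ∃ (p : ℕ → V) (k : ℕ) (q : ℕ → V) (l : ℕ), Geo ω p k ∧ Geo ω q l ∧ p 0 = xP ∧ p k = oP ∧
    q 0 = xQ ∧ q l = oQ ∧ Tube3 κ ζ p k ∧ Tube3 κ ζ q l ∧
    ζ ^ 120000 ≤ ζ ^ Mx * FarN ζ ((ζ : ℤ) ^ R) p q

/-- left end of the slot `s` of width `t` -/
def alS (ζ t s : ℕ) : ℤ := TT ζ + (s : ℤ) * (t : ℤ)

/-- small lateral oscillation over the inner part of the slot -/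
def GoodSlot (κ : ℝ) (ζ γ t : ℕ) (p : ℕ → V) (s : ℕ) : Prop :=
  ∀ j ≤ k3 ζ p, alS ζ t s ≤ (p j).1 → (p j).1 ≤ alS ζ t (s + 1) - (γ : ℤ) →
    10 * |lat κ (rv (p j)) - lat κ (rv (p (fi p (alS ζ t s))))| ≤ (γ : ℝ)

def loS (γ : ℕ) (σ y : ℤ) : ℝ := (y : ℝ) * γ / 10 + σ * (3 / 2 * γ) - 11 / 10 * γ
def hiS (γ : ℕ) (σ y : ℤ) : ℝ := (y : ℝ) * γ / 10 + σ * (3 / 2 * γ) + 11 / 10 * γ

/-- the anti-concentration event of the slot `s` for the gap class `γ` and the sign `σ` -/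
def SlotAC (κ : ℝ) (Λ ζ γ t : ℕ) (σ : ℤ) (s : ℕ) (x o : V) (ω : Env) : Prop :=
  ACev (Finset.Icc (-(11 * (ζ : ℤ) ^ 97006)) (11 * (ζ : ℤ) ^ 97006))
    (fun y => Band κ (alS ζ t s) (alS ζ t (s + 1) - (γ : ℤ)) (loS γ σ y) (hiS γ σ y))
    (fun y => Seg κ (alS ζ t s) (loS γ σ y) (hiS γ σ y))
    (fun q => ⌊10 * lat κ (rv (q (fi q (alS ζ t s)))) / γ⌋) x o
    (2 * Λ) (t - γ) (4 * (ζ : ℝ) ^ 3) ω

end Pool.Agent.FPP
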