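import Pool.Agent.P.MP_ecb9f8_pr.FrameL

open MeasureTheory ProbabilityTheory Set Filter

noncomputable section

namespace Pool.Agent.FPP

/-- the excess of the three pieces of a geodesic -/
theorem excess_le {N : Seminorm ℝ (ℝ × ℝ)} {G : Measure ℝ} {Λ z : ℕ} {B : ℤ} {ω : Env}
    (hg : MG N G Λ z B ω) {φ : ℝ × ℝ} (hφ : ∀ v, lin φ v ≤ N v) {p : ℕ → V} {k X : ℕ}
    (hp : Geo ω p k) (hB : ∀ i ≤ k, nm (p i) ≤ B) (hX : z ≤ X)
    (hd : ∀ i ≤ k, ∀ j ≤ k, nm (p j - p i) ≤ (X : ℤ) ^ 8) {i j : ℕ} (hij : i ≤ j) (hj : j ≤ k) :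
    N (rv (p j - p i)) - lin φ (rv (p j - p i)) ≤
      N (rv (p k - p 0)) - lin φ (rv (p k - p 0)) + 4 * ((z : ℝ) * (X : ℝ) ^ 6) := by
  have hi := hij.trans hj
  have e1 : d ω (p 0) (p i) + d ω (p i) (p j) = d ω (p 0) (p j) := hp.add (Nat.zero_le i) hij hj
  have e2 : d ω (p 0) (p j) + d ω (p j) (p k) = d ω (p 0) (p k) := hp.add (Nat.zero_le j) hj le_rfl
  have h := fun a (ha : a ≤ k) b (hb : b ≤ k) =>
    abs_le.1 (hg.app (p a) (p b) (hB a ha) (hB b hb) X hX (hd a ha b hb))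
  have h1 := (h 0 (Nat.zero_le k) i hi).1
  have h2 := (h i hi j hj).1
  have h3 := (h j hj k le_rfl).1
  have h4 := (h 0 (Nat.zero_le k) k le_rfl).2
  have h5 := hφ (rv (p i - p 0))
  have h6 := hφ (rv (p k - p j))
  have e3 : lin φ (rv (p k - p 0)) =
      lin φ (rv (p i - p 0)) + lin φ (rv (p j - p i)) + lin φ (rv (p k - p j)) := by
    simp only [lin, rv, Prod.fst_sub, Prod.snd_sub, Int.cast_sub]
    ring
  linarith

theorem DirF_le {c z x A : ℝ} (hc : 0 < c) (hcz : 100 ≤ c * z) (hA : 0 ≤ A)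
    (h : c * x ≤ 100 * A) : x ≤ z * A := by
  refine le_of_mul_le_mul_left (h.trans ?_) hc
  rw [← mul_assoc]
  exact mul_le_mul_of_nonneg_right hcz hA

theorem DirF_nm {p : ℕ → V} {k : ℕ} (h : Chain p k) {i j : ℕ} (hi : i ≤ k) (hj : j ≤ k) :
    nm (p j - p i) ≤ (k : ℤ) := by
  rcases le_total i j with hij | hij
  · have := h.nm_le hij hj
    omega
  · have := h.nm_le hij hi
    rw [nm_sub_comm]
    omega

/-- a geodesic whose displacement lies in a face is almost directed -/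
theorem dir_of_face {N : Seminorm ℝ (ℝ × ℝ)} {c : ℝ} {G : Measure ℝ} {Λ z : ℕ}
    (hz : Sz N c Λ z) {ψ : ℝ × ℝ} {b : ℤ} (hψ : FrameE N c ψ b) {ω : Env}
    (hg : MG N G Λ z ((z : ℤ) ^ 1310) ω) {p : ℕ → V} {k : ℕ} (hp : Geo ω p k)
    (hB : ∀ i ≤ k, nm (p i) ≤ (z : ℤ) ^ 1023)
    (hY : N (rv (p k - p 0)) = lin ψ (rv (p k - p 0))) : Dirb b ((z : ℤ) ^ 772) p k := by
  intro i j hij hj
  have h100 := hz.hundred
  have hz1 : 1 ≤ z := by omega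
  have h1 : ∀ a ≤ k, ∀ b ≤ k, nm (p b - p a) ≤ ((z ^ 128 : ℕ) : ℤ) ^ 8 := by
    intro a ha b hb
    have h2 := nm_sub_le (p b) (p a)
    have h3 := hB a ha
    have h4 := hB b hb
    have h5 : 2 * (z : ℤ) ^ 1023 ≤ (z : ℤ) ^ (128 * 8) :=
      ThrL_mul_pow_le hz1 (by omega) (by norm_num)
    rw [Nat.cast_pow, ← pow_mul]
    linarith
  have h2 := excess_le hg hψ.2.1 hp (fun a ha => (hB a ha).trans (ThrL_pow_le hz1 (by norm_num)))
    (ThrL_nat_le_pow hz1 (by norm_num)) h1 hij hj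
  have h3 : (z : ℝ) * ((z ^ 128 : ℕ) : ℝ) ^ 6 ≤ (z : ℝ) ^ 771 := by
    rw [Nat.cast_pow, ← pow_mul, ← pow_succ']
    exact ThrL_rpow_le hz1 (by norm_num)
  have h4 : (0 : ℝ) ≤ (z : ℝ) ^ 771 := pow_nonneg (Nat.cast_nonneg z) _
  have h5 := DirF_le hz.pos hz.cz h4 (x := dev b (rv (p j - p i)))
    ((hψ.2.2 _).trans (by linarith))
  rw [← pow_succ'] at h5
  have h6 : ((z : ℝ) ^ (771 + 1)) = (((z : ℤ) ^ 772 : ℤ) : ℝ) := by
    rw [Int.cast_pow, Int.cast_natCast]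
  rw [h6] at h5
  generalize (z : ℤ) ^ 772 = A at h5 ⊢
  rcases hψ.1 with rfl | rfl
  · simp only [dev, if_true, rv, Prod.fst_sub, Prod.snd_sub] at h5
    have h7 : |(p j).2 - (p i).2| - ((p j).1 - (p i).1) ≤ A := by exact_mod_cast h5
    simp only [colb]
    linarith
  · simp only [dev, one_ne_zero, if_false, rv, Prod.fst_sub, Prod.snd_sub] at h5
    have h7 : |(p j).1 - (p i).1| - ((p j).1 - (p i).1) +
        (|(p j).2 - (p i).2| - ((p j).2 - (p i).2)) ≤ A := by exact_mod_cast h5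
    have h8 := abs_nonneg ((p j).1 - (p i).1)
    simp only [colb]
    linarith

/-- a vector of the face lies in the cone -/
theorem FrameE.cone {N : Seminorm ℝ (ℝ × ℝ)} {c : ℝ} (hc : 0 < c) {ψ : ℝ × ℝ} {b : ℤ}
    (hψ : FrameE N c ψ b) {Y : V} (hY : N (rv Y) = lin ψ (rv Y)) :
    nm Y ≤ colb b Y ∧ 0 ≤ Y.1 ∧ (b = 0 → |Y.2| ≤ Y.1) ∧ (b = 1 → 0 ≤ Y.2) := by
  have h1 := hψ.2.2 (rv Y)
  rw [hY, sub_self] at h1
  have h2 : dev b (rv Y) ≤ 0 := le_of_mul_le_mul_left (by rwa [mul_zero]) hc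
  rcases hψ.1 with rfl | rfl
  · simp only [dev, if_true, rv] at h2
    have h3 : |Y.2| - Y.1 ≤ 0 := by exact_mod_cast h2
    have h4 := abs_nonneg Y.2
    have h5 : |Y.1| = Y.1 := abs_of_nonneg (by omega)
    refine ⟨nm_le_iff.2 ⟨?_, ?_⟩, by omega, fun _ => by omega, fun h => by omega⟩ <;>
      simp only [colb] <;> omega
  · simp only [dev, one_ne_zero, if_false, rv] at h2
    have h3 : |Y.1| - Y.1 + (|Y.2| - Y.2) ≤ 0 := by exact_mod_cast h2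
    have h4 := abs_nonneg Y.1
    have h5 := abs_nonneg Y.2
    have h6 := le_abs_self Y.1
    have h7 := le_abs_self Y.2
    refine ⟨nm_le_iff.2 ⟨?_, ?_⟩, by omega, fun h => by omega, fun _ => by omega⟩ <;>
      simp only [colb] <;> omega

theorem corner_exc {N : Seminorm ℝ (ℝ × ℝ)} {κ c : ℝ} {φ : ℝ × ℝ} (h : Corner N κ c φ) {z : ℝ}
    (hz : ∀ v : ℝ × ℝ, N v ≤ z * ‖v‖) {s : ℝ} (hs : 0 ≤ s) (r : ℝ × ℝ) :
    N (s • ((1 : ℝ), κ) + r) - lin φ (s • ((1 : ℝ), κ) + r) ≤ 2 * z * ‖r‖ := by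
  have h1 := map_add_le_add N (s • ((1 : ℝ), κ)) r
  rw [map_smul_eq_mul, Real.norm_of_nonneg hs] at h1
  have h2 := h.2.1 (-r)
  rw [map_neg_eq_map, lin_neg] at h2
  have h3 := hz r
  rw [lin_add, lin_smul, h.2.2.1]
  linarith

theorem corner_exc' {N : Seminorm ℝ (ℝ × ℝ)} {κ c : ℝ} {φ : ℝ × ℝ} (h : Corner N κ c φ) {z : ℝ}
    (hz : ∀ v : ℝ × ℝ, N v ≤ z * ‖v‖) {v : ℝ × ℝ} (hv : 0 ≤ v.1) :
    N v - lin φ v ≤ 2 * z * |lat κ v| := by
  have h1 := corner_exc h hz hv (0, lat κ v)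
  have e1 : v.1 • ((1 : ℝ), κ) + (0, lat κ v) = v := by
    ext
    · simp
    · simp only [lat, Prod.snd_add, Prod.smul_snd, smul_eq_mul]
      ring
  have e2 : ‖((0 : ℝ), lat κ v)‖ = |lat κ v| := by simp [Prod.norm_def]
  rwa [e1, e2] at h1

/-- confinement along a corner direction -/
theorem conf {N : Seminorm ℝ (ℝ × ℝ)} {κ c : ℝ} {φ : ℝ × ℝ} (hC : Corner N κ c φ)
    {G : Measure ℝ} {Λ ζ : ℕ} (hz : Sz N c Λ ζ) {ω : Env}
    (hg : MG N G Λ ζ ((ζ : ℤ) ^ 120010) ω) {p : ℕ → V} {k : ℕ} (hp : Geo ω p k)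
    (h0 : nm (p 0) ≤ (ζ : ℤ)) (h1 : 0 ≤ (p k).1) (h2 : (p k).1 ≤ (ζ : ℤ) ^ 120005) {a : ℕ}
    (ha : 97000 ≤ a) (ha' : a ≤ 100000) (h3 : |lat κ (rv (p k))| ≤ (ζ : ℝ) ^ a) :
    (∀ j ≤ k, |lat κ (rv (p j))| ≤ (ζ : ℝ) ^ (a + 2)) ∧
      ∀ i j, i ≤ j → j ≤ k → (p i).1 - (ζ : ℤ) ^ (a + 2) ≤ (p j).1 := by
  have h100 := hz.hundred
  have hz1 : 1 ≤ ζ := by omega
  have hr : (100 : ℝ) ≤ ζ := by exact_mod_cast h100
  have hi : (100 : ℤ) ≤ ζ := by exact_mod_cast h100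
  have hκ : ∀ v : ℝ × ℝ, |κ * v.1| ≤ |v.1| := fun v => by
    rw [abs_mul]
    exact mul_le_of_le_one_left (abs_nonneg _) hC.1
  have p1 : (ζ : ℤ) ≤ (ζ : ℤ) ^ 120005 := by
    have := ThrL_pow_le hz1 (by norm_num : 1 ≤ 120005)
    rwa [pow_one] at this
  have p2 : (ζ : ℝ) ≤ (ζ : ℝ) ^ a := by
    have := ThrL_rpow_le hz1 (by omega : 1 ≤ a)
    rwa [pow_one] at this
  have p3 : 3 * (ζ : ℤ) ^ 120005 ≤ (ζ : ℤ) ^ 120010 := ThrL_mul_pow_le hz1 (by omega) (by norm_num)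
  have b1 : nm (p k) ≤ 2 * (ζ : ℤ) ^ 120005 := by
    have q1 : (ζ : ℝ) ^ a ≤ (ζ : ℝ) ^ 120005 := ThrL_rpow_le hz1 (by omega)
    have q2 : (ζ : ℝ) ^ 120005 = (((ζ : ℤ) ^ 120005 : ℤ) : ℝ) := by
      rw [Int.cast_pow, Int.cast_natCast]
    have q3 := hκ (rv (p k))
    have q4 := abs_add_le (lat κ (rv (p k))) (κ * (rv (p k)).1)
    rw [lat, sub_add_cancel, ← lat] at q4
    rw [q2] at q1
    generalize (ζ : ℤ) ^ 120005 = A at q1 h2 ⊢
    have q5 : |(p k).1| ≤ A := by rwa [abs_of_nonneg h1]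
    have q6 : |(rv (p k)).1| ≤ (A : ℝ) := by
      simp only [rv]
      exact_mod_cast q5
    have q7 : |(rv (p k)).2| ≤ 2 * (A : ℝ) := by linarith
    simp only [rv] at q7
    exact nm_le_iff.2 ⟨by omega, by exact_mod_cast q7⟩
  have b2 : k ≤ Λ * (3 * ζ ^ 120005) := by
    refine hg.len p k hp (by linarith) (by linarith) _
      ((ThrL_nat_le_pow hz1 (by norm_num)).trans (Nat.le_mul_of_pos_left _ (by norm_num))) ?_
    have := nm_sub_le (p k) (p 0)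
    rw [Nat.cast_mul, Nat.cast_pow, Nat.cast_ofNat]
    linarith
  have b3 : (k : ℤ) ≤ (ζ : ℤ) ^ 120006 := by
    have q1 : (k : ℤ) ≤ ((Λ * (3 * ζ ^ 120005) : ℕ) : ℤ) := Int.ofNat_le.2 b2
    have q2 : (100 : ℤ) * Λ ≤ ζ := by exact_mod_cast hz.lam
    rw [Nat.cast_mul, Nat.cast_mul, Nat.cast_pow, Nat.cast_ofNat, ← mul_assoc] at q1
    exact q1.trans (ThrL_mul_pow_le hz1 (by omega) (by norm_num))
  have b4 : ∀ i ≤ k, nm (p i) ≤ (ζ : ℤ) ^ 120010 := by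
    intro i hik
    have q1 := nm_add_le (p i - p 0) (p 0)
    rw [sub_add_cancel] at q1
    have q2 := DirF_nm hp.1 (Nat.zero_le k) hik
    have q3 : (ζ : ℤ) ^ 120005 ≤ (ζ : ℤ) ^ 120006 := ThrL_pow_le hz1 (by norm_num)
    have q4 : 2 * (ζ : ℤ) ^ 120006 ≤ (ζ : ℤ) ^ 120010 :=
      ThrL_mul_pow_le hz1 (by omega) (by norm_num)
    linarith
  have b5 : ∀ i ≤ k, ∀ j ≤ k, nm (p j - p i) ≤ ((ζ ^ 15001 : ℕ) : ℤ) ^ 8 := by
    intro i hik j hjk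
    rw [Nat.cast_pow, ← pow_mul]
    exact ((DirF_nm hp.1 hik hjk).trans b3).trans (ThrL_pow_le hz1 (by norm_num))
  have b6 : (ζ : ℝ) * ((ζ ^ 15001 : ℕ) : ℝ) ^ 6 ≤ ζ * (ζ : ℝ) ^ a := by
    rw [Nat.cast_pow, ← pow_mul]
    exact mul_le_mul_of_nonneg_left (ThrL_rpow_le hz1 (by omega)) (Nat.cast_nonneg ζ)
  have n0 : ‖rv (p 0)‖ ≤ ζ := by
    rw [norm_rv]
    exact_mod_cast h0
  have b7 : N (rv (p k - p 0)) - lin φ (rv (p k - p 0)) ≤ 4 * (ζ * (ζ : ℝ) ^ a) := by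
    have q1 := corner_exc hC hz.up (s := (rv (p k)).1) (by simp only [rv]; exact_mod_cast h1)
      ((0, lat κ (rv (p k))) - rv (p 0))
    have e1 : (rv (p k)).1 • ((1 : ℝ), κ) + ((0, lat κ (rv (p k))) - rv (p 0)) =
        rv (p k - p 0) := by
      rw [rv_sub]
      ext
      · simp [sub_eq_add_neg]
      · simp only [lat, Prod.snd_add, Prod.smul_snd, smul_eq_mul, Prod.snd_sub]
        ring
    have e2 : ‖((0 : ℝ), lat κ (rv (p k)))‖ = |lat κ (rv (p k))| := by simp [Prod.norm_def]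
    have q2 := norm_sub_le ((0 : ℝ), lat κ (rv (p k))) (rv (p 0))
    rw [e1] at q1
    rw [e2] at q2
    refine q1.trans ((mul_le_mul_of_nonneg_left (q2.trans (add_le_add h3 (n0.trans p2)))
      (by linarith)).trans (le_of_eq ?_))
    ring
  have e3 : (ζ : ℝ) ^ (a + 2) = ζ * (ζ * (ζ : ℝ) ^ a) := by ring
  have p4 : 0 ≤ ζ * (ζ : ℝ) ^ a := by positivity
  have key : ∀ i j, i ≤ j → j ≤ k → |lat κ (rv (p j - p i))| + max (-(rv (p j - p i)).1) 0 ≤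
      (ζ : ℝ) ^ (a + 2) / 2 := by
    intro i j hij hj
    have q1 := excess_le hg hC.2.1 hp b4 (ThrL_nat_le_pow hz1 (by norm_num)) b5 hij hj
    have q2 := DirF_le hz.pos hz.cz (A := ζ * (ζ : ℝ) ^ a / 2) (by linarith)
      ((hC.2.2.2 (rv (p j - p i))).trans (by linarith))
    rw [e3]
    linarith
  refine ⟨fun j hj => ?_, fun i j hij hj => ?_⟩
  · have q1 := key 0 j (Nat.zero_le j) hj
    have q2 := le_max_right (-(rv (p j - p 0)).1) 0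
    have q3 := abs_add_le (lat κ (rv (p j - p 0))) (lat κ (rv (p 0)))
    rw [← lat_add, ← rv_add, sub_add_cancel] at q3
    have q4 : |lat κ (rv (p 0))| ≤ |(rv (p 0)).2| + |κ * (rv (p 0)).1| := abs_sub _ _
    have q5 := hκ (rv (p 0))
    have q6 : |(rv (p 0)).1| ≤ ζ := (norm_fst_le (rv (p 0))).trans n0
    have q7 : |(rv (p 0)).2| ≤ ζ := (norm_snd_le (rv (p 0))).trans n0
    have q8 : 4 * (ζ : ℝ) ^ 1 ≤ (ζ : ℝ) ^ (a + 2) := ThrL_rmul_pow_le hz1 (by linarith) (by omega)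
    rw [pow_one] at q8
    linarith
  · have q1 := key i j hij hj
    have q2 := le_max_left (-(rv (p j - p i)).1) 0
    have q3 := abs_nonneg (lat κ (rv (p j - p i)))
    have q4 : (0 : ℝ) ≤ (ζ : ℝ) ^ (a + 2) := by positivity
    have q5 : -(rv (p j - p i)).1 ≤ (ζ : ℝ) ^ (a + 2) := by linarith
    simp only [rv, Prod.fst_sub] at q5
    have q6 : -((p j).1 - (p i).1) ≤ (ζ : ℤ) ^ (a + 2) := by exact_mod_cast q5
    linarith

end Pool.Agent.FPP
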