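import Pool.Agent.P.MP_ecb9f8_pr.Conv1

open MeasureTheory ProbabilityTheory Set Filter

noncomputable section

namespace Pool.Agent.FPP

theorem Ext_compact (N : Seminorm ℝ (ℝ × ℝ)) (hpos : ∀ v, v ≠ 0 → 0 < N v) :
    IsCompact (N.closedBall 0 1) := by
  have hN := Conv1_cont N
  obtain ⟨c, hc, H⟩ := (isCompact_sphere (0 : ℝ × ℝ) 1).exists_forall_le' (f := fun v => N v)
    (a := 0) hN.continuousOn (fun v hv => hpos v (by
      rintro rfl
      simp at hv))
  have hcl : IsClosed (N.closedBall 0 1) := by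
    have e : N.closedBall 0 1 = {v | N v ≤ 1} := by
      ext v
      exact N.mem_closedBall_zero
    rw [e]
    exact isClosed_le hN continuous_const
  refine (isCompact_closedBall (0 : ℝ × ℝ) c⁻¹).of_isClosed_subset hcl fun v hv => ?_
  have h1 : N v ≤ 1 := N.mem_closedBall_zero.1 hv
  rw [mem_closedBall_zero_iff]
  rcases (norm_nonneg v).eq_or_lt with pv | pv
  · rw [← pv]
    exact (inv_pos.2 hc).le
  have h2 := H (‖v‖⁻¹ • v) (by
    rw [mem_sphere_zero_iff_norm, norm_smul, norm_inv, norm_norm, inv_mul_cancel₀ pv.ne'])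
  simp only [map_smul_eq_mul, norm_inv, norm_norm] at h2
  have h3 : c * ‖v‖ ≤ N v := by
    have := mul_le_mul_of_nonneg_right h2 pv.le
    rwa [mul_comm ‖v‖⁻¹, mul_assoc, inv_mul_cancel₀ pv.ne', mul_one] at this
  rw [← one_div, le_div_iff₀ hc]
  linarith

theorem Ext_side (N : Seminorm ℝ (ℝ × ℝ)) {u w : ℝ × ℝ} {s t : ℝ}
    (h1 : N (s • u + t • w) ≤ 1) (h2 : 1 < s * N u + t * N w) : 0 < t := by
  by_contra ht
  have ht' : t ≤ 0 := not_lt.1 ht
  have a1 := map_sub_le_add N (s • u + t • w) (t • w)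
  rw [add_sub_cancel_right, map_smul_eq_mul, map_smul_eq_mul, Real.norm_eq_abs, Real.norm_eq_abs,
    abs_of_nonpos ht'] at a1
  have a2 := mul_le_mul_of_nonneg_right (le_abs_self s) (apply_nonneg N u)
  linarith

/-- a strict triangle inequality produces an extreme point strictly between the two directions -/
theorem extreme_of_strict (N : Seminorm ℝ (ℝ × ℝ)) (hpos : ∀ v, v ≠ 0 → 0 < N v) {A B α β : ℝ}
    (hAB : B < A) (hα : 0 ≤ α) (hβ : 0 ≤ β)
    (h : N (α • (A, (1 : ℝ)) + β • (B, (1 : ℝ))) < α * N (A, 1) + β * N (B, 1)) :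
    ∃ e ∈ extremePoints ℝ (N.closedBall 0 1), 0 < e.2 ∧ B * e.2 < e.1 ∧ e.1 < A * e.2 := by
  have hd : 0 < A - B := sub_pos.2 hAB
  have hK := Ext_compact N hpos
  obtain ⟨φ, hφ⟩ : ∃ φ : StrongDual ℝ (ℝ × ℝ), ∀ s t : ℝ,
      φ (s • (A, (1 : ℝ)) + t • (B, (1 : ℝ))) = s * N (A, 1) + t * N (B, 1) := by
    refine ⟨((N (A, 1) - N (B, 1)) / (A - B)) • ContinuousLinearMap.fst ℝ ℝ ℝ +
      ((A * N (B, 1) - B * N (A, 1)) / (A - B)) • ContinuousLinearMap.snd ℝ ℝ ℝ, fun s t => ?_⟩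
    simp only [ContinuousLinearMap.add_apply, ContinuousLinearMap.smul_apply,
      ContinuousLinearMap.coe_fst', ContinuousLinearMap.coe_snd', Prod.fst_add, Prod.snd_add,
      Prod.smul_fst, Prod.smul_snd, smul_eq_mul]
    field_simp
    ring
  obtain ⟨u, hu⟩ : ∃ u, u = α • (A, (1 : ℝ)) + β • (B, (1 : ℝ)) := ⟨_, rfl⟩
  rw [← hφ, ← hu] at h
  have hu0 : 0 < N u := hpos u (by
    rintro rfl
    simp at h)
  have hu1 : (N u)⁻¹ • u ∈ N.closedBall 0 1 := by
    rw [N.mem_closedBall_zero, map_smul_eq_mul, Real.norm_of_nonneg (inv_nonneg.2 hu0.le),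
      inv_mul_cancel₀ hu0.ne']
  have hu2 : 1 < φ ((N u)⁻¹ • u) := by
    rw [map_smul, smul_eq_mul, ← div_eq_inv_mul, one_lt_div hu0]
    exact h
  have hF := ContinuousLinearMap.toExposed.isExposed (l := φ) (A := N.closedBall 0 1)
  have hne : (φ.toExposed (N.closedBall 0 1)).Nonempty := by
    obtain ⟨x, hx, hx'⟩ := hK.exists_isMaxOn ⟨_, hu1⟩ φ.continuous.continuousOn
    exact ⟨x, hx, fun y hy => hx' hy⟩
  obtain ⟨e, he⟩ := (hF.isCompact hK).extremePoints_nonempty hne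
  have he1 : N e ≤ 1 := N.mem_closedBall_zero.1 he.1.1
  have he2 : 1 < φ e := hu2.trans_le (he.1.2 _ hu1)
  obtain ⟨s, hs⟩ : ∃ s, s = (e.1 - B * e.2) / (A - B) := ⟨_, rfl⟩
  obtain ⟨t, ht⟩ : ∃ t, t = (A * e.2 - e.1) / (A - B) := ⟨_, rfl⟩
  have ee : e = s • (A, (1 : ℝ)) + t • (B, (1 : ℝ)) := by
    refine Prod.ext ?_ ?_
    · simp only [Prod.fst_add, Prod.smul_fst, smul_eq_mul, hs, ht]
      field_simp
      ring
    · simp only [Prod.snd_add, Prod.smul_snd, smul_eq_mul, hs, ht]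
      field_simp
      ring
  have k1 : N (s • (A, (1 : ℝ)) + t • (B, (1 : ℝ))) ≤ 1 := ee ▸ he1
  have k2 : 1 < s * N (A, 1) + t * N (B, 1) := by rw [← hφ, ← ee]; exact he2
  have t0 : 0 < t := Ext_side N k1 k2
  have s0 : 0 < s := Ext_side N (by rwa [add_comm] at k1) (by rwa [add_comm] at k2)
  have e2 : e.2 = s + t := by
    have := congrArg Prod.snd ee
    simpa using this
  refine ⟨e, hF.isExtreme.extremePoints_subset_extremePoints he, by rw [e2]; positivity, ?_, ?_⟩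
  · rw [hs] at s0
    exact sub_pos.1 ((div_pos_iff_of_pos_right hd).1 s0)
  · rw [ht] at t0
    exact sub_pos.1 ((div_pos_iff_of_pos_right hd).1 t0)

/-- a symmetric seminorm that is not zero at `(A, 1)` is a norm -/
theorem pos_of_symm (N : Seminorm ℝ (ℝ × ℝ)) (h1 : ∀ x y : ℝ, N (x, -y) = N (x, y))
    (h2 : ∀ x y : ℝ, N (y, x) = N (x, y)) {w : ℝ × ℝ} (hw : 0 < N w) :
    ∀ v, v ≠ 0 → 0 < N v := by
  intro v hv
  obtain ⟨x, y⟩ := v
  by_contra hn
  have z : N (x, y) = 0 := le_antisymm (not_lt.1 hn) (apply_nonneg N _)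
  have key : ∀ a b : ℝ, N (a, b) = 0 → a ≠ 0 → N (1, 0) = 0 := fun a b hab ha => by
    have a1 := map_add_le_add N (a, b) (a, -b)
    have a2 : ((a, b) : ℝ × ℝ) + (a, -b) = (2 * a) • ((1 : ℝ), (0 : ℝ)) := by
      refine Prod.ext ?_ ?_
      · simp
        ring
      · simp
    rw [a2, map_smul_eq_mul, h1, hab, add_zero] at a1
    have a3 : 0 < ‖2 * a‖ := norm_pos_iff.2 (mul_ne_zero two_ne_zero ha)
    exact le_antisymm (nonpos_of_mul_nonpos_right a1 a3) (apply_nonneg N _)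
  have k : N (1, 0) = 0 := by
    by_cases hx : x = 0
    · refine key y x (by rw [h2, z]) fun hy => hv ?_
      rw [hx, hy]
      rfl
    · exact key x y z hx
  have k' : N (0, 1) = 0 := by rw [h2, k]
  have := Conv1_le N w
  rw [k, k', add_zero, zero_mul] at this
  exact absurd hw (not_lt.2 this)

theorem sides_of_gaps (N : Seminorm ℝ (ℝ × ℝ)) (K : ℕ) (T : ℕ → ℝ) (hT : Monotone T)
    (h : ∀ j < K, ∃ e ∈ extremePoints ℝ (N.closedBall 0 1),
      0 < e.2 ∧ T j * e.2 < e.1 ∧ e.1 < T (j + 1) * e.2) :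
    (K : ℕ∞) ≤ (extremePoints ℝ (N.closedBall 0 1)).encard := by
  choose! e he using h
  have hlt : ∀ i < K, ∀ j < K, i < j → e i ≠ e j := fun i hi j hj hij heq => by
    obtain ⟨-, -, -, a⟩ := he i hi
    obtain ⟨-, p, b, -⟩ := he j hj
    rw [heq] at a
    have := mul_le_mul_of_nonneg_right (hT (Nat.succ_le_of_lt hij)) p.le
    linarith
  have hinj : InjOn e (Finset.range K : Set ℕ) := fun i hi j hj heq => by
    have hi' : i < K := by simpa using hi
    have hj' : j < K := by simpa using hj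
    rcases lt_trichotomy i j with hij | hij | hij
    · exact absurd heq (hlt i hi' j hj' hij)
    · exact hij
    · exact absurd heq.symm (hlt j hj' i hi' hij)
  have h1 : (e '' (Finset.range K : Set ℕ)).encard = K := by
    rw [hinj.encard_image, encard_coe_eq_coe_finsetCard, Finset.card_range]
  rw [← h1]
  refine encard_le_encard ?_
  rintro _ ⟨j, hj, rfl⟩
  exact (he j (by simpa using hj)).1

end Pool.Agent.FPP
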