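import Pool.Agent.P.MP_ecb9f8_pr.FrameL
import Pool.Agent.P.MP_ecb9f8_pr.OnL

open MeasureTheory ProbabilityTheory Set Filter

noncomputable section

namespace Pool.Agent.FPP

theorem Face_le {N : Seminorm ℝ (ℝ × ℝ)} {φ : ℝ × ℝ} {Y : V} {ρ ρ' : ℝ} (h : FaceAt N φ Y ρ)
    (hρ : ρ' ≤ ρ) : FaceAt N φ Y ρ' := fun x hx => h x (hx.trans hρ)

/-- a walk without corner runs stays in one face -/
theorem facepath {N : Seminorm ℝ (ℝ × ℝ)} {Kc : Finset ℝ} {Φ : Finset (ℝ × ℝ)} {c : ℝ}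
    (hP : Poly N Kc Φ c) {p : ℕ → V} {k K : ℕ} {s : ℤ} (hs : 6 ≤ s) (hp : Chain p k)
    (hrun : ∀ i ≤ k, s ≤ nm (p i - p 0) → ¬ NearC Kc (p i - p 0))
    (hlen : ∀ i ≤ k, nm (p i - p 0) < s → i ≤ K) {φ : ℝ × ℝ} (hφ : FaceAt N φ (p k - p 0) 1) :
    ∀ i ≤ k, i ≤ K ∨ N (rv (p i - p 0)) = lin φ (rv (p i - p 0)) := by
  have key : ∀ i ≤ k, i ≤ K ∨ FaceAt N φ (p i - p 0) 1 := fun i hi => by
    induction hi using Nat.decreasingInduction with
    | self => exact Or.inr hφ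
    | of_succ i hi ih =>
      rcases ih with ih | ih
      · exact Or.inl (by omega)
      rcases lt_or_ge (nm (p i - p 0)) s with h1 | h1
      · exact Or.inl (hlen i hi.le h1)
      have h2 : (6 : ℝ) ≤ nm (p i - p 0) := by exact_mod_cast hs.trans h1
      obtain ⟨ψ, -, h3⟩ := hP.stab _ 2 zero_le_two (by linarith)
        (le_trans (by norm_num) (pow_le_pow_left₀ (by norm_num) h2 4)) (hrun i hi.le h1)
      have h4 : (nm (p (i + 1) - p 0 - (p i - p 0)) : ℝ) ≤ 1 := by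
        rw [sub_sub_sub_cancel_right]
        exact_mod_cast (hp i hi).nm_le
      exact Or.inr ((h3.mono (by linarith)).eq ih ▸ Face_le h3 one_le_two)
  exact fun i hi => (key i hi).imp_right fun h => h.self zero_le_one

/-- the face of an almost horizontal direction -/
theorem face_axis {N : Seminorm ℝ (ℝ × ℝ)} {Kc : Finset ℝ} {Φ : Finset (ℝ × ℝ)} {c : ℝ}
    (hP : Poly N Kc Φ c) {σ n H : ℤ} (hσ : σ = 1 ∨ σ = -1) {Y : V} (h1 : Y.1 = σ * n)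
    (h2 : |Y.2| ≤ H) (h3 : (2 * (H + 2)) ^ 2 ≤ n) (hY : ¬ NearC Kc Y) :
    FaceAt N (σ * N (1, 0), 0) Y 1 := by
  have h4 : (0 : ℝ) ≤ H := by exact_mod_cast (abs_nonneg _).trans h2
  have h5 : (2 * ((H : ℝ) + 2)) ^ 2 ≤ n := by exact_mod_cast h3
  have h6 : (0 : ℝ) < n := lt_of_lt_of_le (by positivity) h5
  have h7 : |(σ : ℝ) * n| = n := by
    rcases hσ with rfl | rfl <;> simp [abs_of_pos h6]
  have h8 : (n : ℝ) ≤ nm Y := by
    rw [← h7]
    exact_mod_cast h1 ▸ abs_fst_le_nm Y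
  obtain ⟨ψ, -, h9⟩ := hP.stab Y (H + 2) (by positivity) (by nlinarith)
    ((pow_le_pow_right₀ (by linarith) (by norm_num : 5 ≤ 2 * 4)).trans
      ((pow_mul _ 2 4).trans_le (pow_le_pow_left₀ (by positivity) (h5.trans h8) 4))) hY
  have key : ∀ y : ℝ, |y| ≤ 1 → N (σ * n, y) = ψ.1 * (σ * n) + ψ.2 * y := fun y hy => h9 _ (by
    have a1 : |(Y.2 : ℝ)| ≤ H := by exact_mod_cast h2
    have a2 := abs_sub y Y.2
    rw [Prod.norm_def, max_le_iff]
    simp only [rv, h1, Prod.fst_sub, Prod.snd_sub, Int.cast_mul, sub_self, norm_zero,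
      Real.norm_eq_abs]
    constructor <;> linarith)
  have a1 := key 1 (by simp)
  have a2 := key (-1) (by simp)
  have a3 := key 0 (by simp)
  have a4 : N (σ * n, -1) = N (σ * n, 1) := hP.sym (false, false, true) (σ * n, 1)
  have a5 : N (σ * n, 0) = n * N (1, 0) := by
    simpa only [Real.norm_eq_abs, h7, Prod.smul_mk, smul_eq_mul, mul_one, mul_zero] using
      map_smul_eq_mul N ((σ : ℝ) * n) ((1 : ℝ), (0 : ℝ))
  have a6 : ψ = (σ * N (1, 0), 0) := by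
    refine Prod.ext (mul_left_cancel₀ h6.ne' ?_) (by linarith)
    rcases hσ with rfl | rfl <;> push_cast at a3 a5 ⊢ <;> linarith
  exact a6 ▸ Face_le h9 (by linarith)

theorem cone_of_norun {N : Seminorm ℝ (ℝ × ℝ)} {Kc : Finset ℝ} {Φ : Finset (ℝ × ℝ)} {c : ℝ}
    (hP : Poly N Kc Φ c) {ω : Env} (hn : Nice ω) {Λ z s : ℕ} {u x o : V} (hl : LBA Λ z u ω)
    (hs : 6 ≤ s) (hz : z ≤ s) (hx : nm (x - u) ≤ (s : ℤ)) {σ n H : ℤ} (hσ : σ = 1 ∨ σ = -1)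
    (h1 : (o - x).1 = σ * n) (h2 : |(o - x).2| ≤ H) (h3 : (2 * (H + 2)) ^ 2 ≤ n)
    (h4 : (s : ℤ) ≤ n) (hr : NoRunA Kc (s : ℤ) ω x o) :
    ConeO N (σ * N (1, 0), 0) (2 * Λ * s) ω x o := by
  obtain ⟨p, k, hp, rfl, rfl⟩ := hn.2.1 x o
  intro y hy
  obtain ⟨i, hi, rfl⟩ := (hn.on_iff hp y).1 hy
  have h5 : (s : ℤ) ≤ nm (p k - p 0) := by
    have a1 := abs_fst_le_nm (p k - p 0)
    have a2 := le_abs_self n
    rcases hσ with rfl | rfl <;> simp only [h1, one_mul, neg_mul, abs_neg] at a1 <;> omega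
  refine (facepath hP (K := Λ * (2 * s)) (s := s) (by exact_mod_cast hs) hp.1
    (fun j hj => hr _ (hp.add (Nat.zero_le j) hj le_rfl))
    (fun j hj h6 => hl p j _ (hp.mono hj) (by omega) (by omega) ?_)
    (face_axis hP hσ h1 h2 h3 (hr _ (On.right _ _) h5)) i hi).imp_left fun h6 => ?_
  · have := nm_tri u (p 0) (p j)
    omega
  · have a1 := hp.1.nm_le (Nat.zero_le i) hi
    have a2 : (i : ℤ) ≤ Λ * (2 * s) := by exact_mod_cast h6
    push_cast at a1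
    linarith

theorem ray_of_norun {N : Seminorm ℝ (ℝ × ℝ)} {Kc : Finset ℝ} {Φ : Finset (ℝ × ℝ)} {c : ℝ}
    (hP : Poly N Kc Φ c) {G : Measure ℝ} {Λ z : ℕ} (hz : Sz N c Λ z) {ω : Env}
    (hg : MG N G Λ z ((z : ℤ) ^ 1310) ω) {u o : V} (hu : nm u ≤ 2 * (z : ℤ) ^ 1020)
    (ho : (z : ℤ) ^ 1300 ≤ nm o) (hr : NoRun Kc ((z : ℤ) ^ 19) (2 * (z : ℤ) ^ 1300) ω u o) :
    ∃ φ ∈ Φ, HasRay N φ z ω o u := by
  obtain ⟨p, k, hp, rfl, rfl⟩ := hg.nice.2.1 u o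
  have h0 := hz.hundred
  have h1 := AttDet_pow h0 (by norm_num : 1020 < 1021)
  have h2 := ThrL_pow_le (z := z) (by omega) (by norm_num : 1021 ≤ 1299)
  have h3 := AttDet_pow h0 (by norm_num : 1299 < 1300)
  have h4 := ThrL_pow_le (z := z) (by omega) (by norm_num : 1300 ≤ 1310)
  have h5 := ThrL_pow_le (z := z) (by omega) (by norm_num : 19 ≤ 1020)
  have h6 : z ≤ z ^ 19 := Nat.le_self_pow (by norm_num) z
  have h7 : (z : ℤ) ≤ (z : ℤ) ^ 19 := by exact_mod_cast h6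
  obtain ⟨t, -, ht, e, he⟩ := hp.1.ivt nm (fun a b h => by
    have h1 := nm_add_le a (b - a)
    have h2 := h.nm_le
    rw [add_sub_cancel] at h1
    omega) (Nat.zero_le k) le_rfl (a := (z : ℤ) ^ 1300) (by omega) ho
  have h8 : ∀ i ≤ t, nm (p i) ≤ (z : ℤ) ^ 1300 := fun i hi =>
    hi.eq_or_lt.elim (fun h => h ▸ e.le) fun h => (he i (Nat.zero_le i) h).le
  have h9 : ∀ i ≤ t, (z : ℤ) ^ 19 ≤ nm (p i - p 0) → ¬ NearC Kc (p i - p 0) := fun i hi h =>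
    hr _ (hp.add (Nat.zero_le i) (hi.trans ht) le_rfl) h (by
      have := nm_sub_le (p i) (p 0)
      have := h8 i hi
      have := h8 0 (Nat.zero_le t)
      omega)
  have a1 : (z : ℤ) ^ 1299 ≤ nm (p t - p 0) := by
    have := nm_add_le (p 0) (p t - p 0)
    rw [add_sub_cancel] at this
    omega
  have a2 : (2 * (3 * (z : ℤ) ^ 1020)) ^ 5 ≤ nm (p t - p 0) ^ 4 :=
    calc _ ≤ ((z : ℤ) ^ 1021) ^ 5 := pow_le_pow_left₀ (by positivity) (by omega) 5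
      _ ≤ ((z : ℤ) ^ 1299) ^ 4 := by
        rw [← pow_mul, ← pow_mul]
        exact ThrL_pow_le (by omega) (by norm_num)
      _ ≤ _ := pow_le_pow_left₀ (by positivity) a1 4
  have a3 : 2 * (3 * (z : ℤ) ^ 1020) < nm (p t - p 0) := by omega
  have a4 : (1 : ℤ) ≤ 3 * (z : ℤ) ^ 1020 := by omega
  obtain ⟨φ, hφ, a5⟩ := hP.stab (p t - p 0) (3 * (z : ℝ) ^ 1020) (by positivity)
    (by exact_mod_cast a3) (by exact_mod_cast a2) (h9 t le_rfl (by omega))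
  refine ⟨φ, hφ, p, t, rfl, hp.mono ht, hp.add (Nat.zero_le t) ht le_rfl, e, a5,
    facepath hP (s := (z : ℤ) ^ 19) (by omega) (hp.1.mono ht) h9 (fun i hi h => ?_)
      (Face_le a5 (by exact_mod_cast a4))⟩
  refine (hg.len p i (hp.mono (hi.trans ht)) ((h8 0 (Nat.zero_le t)).trans h4)
    ((h8 i hi).trans h4) _ h6 (by exact_mod_cast h.le)).trans ?_
  rw [pow_succ' z 19]
  exact Nat.mul_le_mul_right _ (by have := hz.lam; omega)

/-- change of frame -/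
theorem HasRay.pull {N : Seminorm ℝ (ℝ × ℝ)} (hsym : ∀ (t : Fr) (v : ℝ × ℝ), N (fr t v) = N v)
    {φ : ℝ × ℝ} {z : ℕ} {ω : Env} {o u : V} (h : HasRay N φ z ω o u) (t : Fr) :
    HasRay N (fri t φ) z (pull (frm t) ω) (fri t o) (fri t u) := by
  obtain ⟨p, k, rfl, h1, h2, h3, h4, h5⟩ := h
  refine ⟨fun i => fri t (p i), k, rfl, (Geo_pull _ (frm_adj t) _ _ _).2 ?_,
    (On_pull _ (frm_adj t) _ _ _ _).2 ?_, (nm_fri _ _).trans h3, fun x hx => ?_, fun i hi => ?_⟩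
  · simpa only [frm_apply, fr_fri] using h1
  · simpa only [frm_apply, fr_fri] using h2
  · rw [← hsym t, ← lin_fr]
    refine h4 _ (le_of_eq_of_le ?_ hx)
    rw [← fri_sub, rv_fri, ← norm_fri t, fri_sub, fri_fr]
  · simpa only [← fri_sub, rv_fri, sym_fri hsym, lin_fri] using h5 i hi

end Pool.Agent.FPP
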