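import Pool.Agent.P.MP_ecb9f8_pr.TDef
import Pool.Agent.P.MP_ecb9f8_pr.Path2

open MeasureTheory ProbabilityTheory Set Filter

noncomputable section

namespace Pool.Agent.FPP

/-- the square lattice as a graph -/
abbrev Lat : SimpleGraph V := SimpleGraph.boxProd (SimpleGraph.hasse ℤ) (SimpleGraph.hasse ℤ)

theorem lat_adj (a b : V) : Lat.Adj a b ↔ Adj a b := by
  rw [SimpleGraph.boxProd_adj, SimpleGraph.hasse_adj, SimpleGraph.hasse_adj,
    Order.covBy_iff_add_one_eq, Order.covBy_iff_add_one_eq, Order.covBy_iff_add_one_eq,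
    Order.covBy_iff_add_one_eq, Adj]
  rcases abs_cases (a.1 - b.1) with h | h <;> rcases abs_cases (a.2 - b.2) with h' | h' <;> omega

theorem chain_of_walk {x y : V} (p : Lat.Walk x y) :
    Chain p.getVert p.length ∧ p.edges = (List.range p.length).map (ed p.getVert) := by
  refine ⟨fun i hi => (lat_adj _ _).1 (p.adj_getVert_succ hi), ?_⟩
  refine List.ext_getElem (by simp) fun i h1 h2 => ?_
  rw [SimpleGraph.Walk.getElem_edges, List.getElem_map, List.getElem_range]
  rfl

theorem walk_of_chain {p : ℕ → V} {k : ℕ} (h : Chain p k) :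
    ∃ w : Lat.Walk (p 0) (p k), w.edges = (List.range k).map (ed p) := by
  induction k with
  | zero => exact ⟨SimpleGraph.Walk.nil, rfl⟩
  | succ k ih =>
    obtain ⟨w, hw⟩ := ih fun i hi => h i (hi.trans k.lt_succ_self)
    refine ⟨w.concat ((lat_adj _ _).2 (h k k.lt_succ_self)), ?_⟩
    rw [SimpleGraph.Walk.edges_concat, hw, List.range_succ, List.map_append, List.concat_eq_append]
    rfl

theorem Transfer_sum {ω : Env} (h : ∀ e, 0 ≤ ω e) (p : ℕ → V) (k : ℕ) :
    (((List.range k).map (ed p)).map ω).sum = W ω p 0 k := by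
  rw [W_range]
  induction k with
  | zero => rfl
  | succ k ih =>
    rw [Finset.sum_range_succ, ← ih, List.range_succ, List.map_append, List.map_append,
      List.sum_append, wt, max_eq_left (h _)]
    simp

theorem Transfer_geo {ω : Env} (h : ∀ e, 0 ≤ ω e) {x y : V} (p : Lat.Walk x y)
    (hp : ∀ p' : Lat.Walk x y, (p.edges.map ω).sum ≤ (p'.edges.map ω).sum) :
    Geo ω p.getVert p.length := by
  obtain ⟨h1, h2⟩ := chain_of_walk p
  refine ⟨h1, le_antisymm (le_d ω fun q l hq e0 e1 => ?_) (d_le_W ω h1 (Nat.zero_le _) le_rfl)⟩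
  rw [p.getVert_zero] at e0
  rw [p.getVert_length] at e1
  subst e0 e1
  obtain ⟨w, hw⟩ := walk_of_chain hq
  rw [← Transfer_sum h, ← Transfer_sum h, ← h2, ← hw]
  exact hp w

theorem Transfer_fin (p : ℕ → V) (k : ℕ) [DecidableEq E] :
    ((List.range k).map (ed p)).toFinset = (Finset.range k).image (ed p) := by
  ext e
  simp

theorem passage_eq_d {ω : Env} (h : ∀ e, 0 ≤ ω e) (x y : V) : passage ω x y = d ω x y := by
  rw [passage, d, iInf]
  refine congrArg sInf (Set.ext fun s => ⟨?_, ?_⟩)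
  · rintro ⟨p, rfl⟩
    obtain ⟨h1, h2⟩ := chain_of_walk p
    refine ⟨p.getVert, p.length, h1, p.getVert_zero, p.getVert_length, ?_⟩
    rw [← Transfer_sum h, ← h2]
  · rintro ⟨p, k, hp, rfl, rfl, rfl⟩
    obtain ⟨w, hw⟩ := walk_of_chain hp
    exact ⟨w, by rw [← Transfer_sum h, ← hw]⟩

/-- the event of the problem, written with walks of the graph, implies `Far` -/
theorem far_of_walks {ω : Env} (hpos : ∀ e, 0 ≤ ω e) {n h R : ℕ}
    (p : Lat.Walk ((0 : ℤ), (0 : ℤ)) ((n : ℤ), (0 : ℤ)))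
    (q : Lat.Walk ((0 : ℤ), (0 : ℤ)) ((n : ℤ), (h : ℤ)))
    (hp : ∀ p' : Lat.Walk ((0 : ℤ), (0 : ℤ)) ((n : ℤ), (0 : ℤ)),
      (p.edges.map ω).sum ≤ (p'.edges.map ω).sum)
    (hq : ∀ q' : Lat.Walk ((0 : ℤ), (0 : ℤ)) ((n : ℤ), (h : ℤ)),
      (q.edges.map ω).sum ≤ (q'.edges.map ω).sum)
    (hR : R ≤ (symmDiff p.edges.toFinset q.edges.toFinset).card) : Far n h R ω := by
  refine ⟨p.getVert, p.length, q.getVert, q.length, Transfer_geo hpos p hp, Transfer_geo hpos q hq,
    p.getVert_zero, q.getVert_zero, p.getVert_length, q.getVert_length, hR.trans (le_of_eq ?_)⟩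
  rw [(chain_of_walk p).2, (chain_of_walk q).2, Transfer_fin, Transfer_fin, sdc]

end Pool.Agent.FPP
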