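import Pool.Agent.P.MP_ecb9f8_pr.Main
import Pool.Agent.P.MP_ecb9f8_pr.Transfer

open MeasureTheory ProbabilityTheory Filter

namespace Pool.Agent.FPP

theorem law_map {G : Measure ℝ} {Ω : Type} [MeasureSpace Ω]
    [IsProbabilityMeasure (volume : Measure Ω)] {t : Sym2 (ℤ × ℤ) → Ω → ℝ}
    (hm : ∀ e, Measurable (t e)) (hi : iIndepFun t (μ := (volume : Measure Ω)))
    (hl : ∀ e, Measure.map (t e) (volume : Measure Ω) = G) :
    Measure.map (fun ω e => t e ω) (volume : Measure Ω) = PP G := by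
  rw [hi.map_fun_eq_infinitePi_map hm]
  simp only [hl, PP]

theorem isTC_of {G : Measure ℝ} [IsProbabilityMeasure G] (hG : Law G) {Ω : Type} [MeasureSpace Ω]
    [IsProbabilityMeasure (volume : Measure Ω)] {t : Sym2 (ℤ × ℤ) → Ω → ℝ}
    (hm : ∀ e, Measurable (t e)) (hi : iIndepFun t (μ := (volume : Measure Ω)))
    (hl : ∀ e, Measure.map (t e) (volume : Measure Ω) = G) {μ : Seminorm ℝ (ℝ × ℝ)}
    (h : ∀ v : ℤ × ℤ, Tendsto
      (fun k : ℕ => (∫ ω, passage (fun e => t e ω) (0, 0) (k * v.1, k * v.2)) / (k : ℝ))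
      atTop (nhds (μ ((v.1 : ℝ), (v.2 : ℝ))))) : IsTC G μ := by
  intro v
  have hX : Measurable (fun ω e => t e ω : Ω → Env) := measurable_pi_lambda _ hm
  have hmap := law_map hm hi hl
  have hpos : ∀ᵐ ω ∂(volume : Measure Ω), ∀ e, 0 < t e ω := by
    have := ae_pos G hG
    rw [← hmap] at this
    exact ae_of_ae_map hX.aemeasurable this
  refine (h v).congr (fun k => ?_)
  congr 1
  have e1 : ((k * v.1, k * v.2) : ℤ × ℤ) = k • v := by ext <;> simp
  rw [e1, g, ← hmap, integral_map hX.aemeasurable (measurable_d _ _).aestronglyMeasurable]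
  refine integral_congr_ae ?_
  filter_upwards [hpos] with ω hω
  exact passage_eq_d (fun e => (hω e).le) _ _

theorem final :
    ∃ (K : ℕ) (α₁ α₂ : ℝ), 0 < α₁ ∧ 0 < α₂ ∧
      ∀ G : Measure ℝ, IsProbabilityMeasure G → G (Set.Iio 0) = 0 →
        (∃ a : ℝ, 0 < a ∧ Integrable (fun x : ℝ => Real.exp (a * x)) G) →
        G ≪ volume →
        ∀ μ : Seminorm ℝ (ℝ × ℝ),
        (K : ℕ∞) ≤ (Set.extremePoints ℝ {v : ℝ × ℝ | μ v ≤ 1}).encard →
        ∃ C : ℝ, 0 < C ∧
          ∀ (Ω : Type) [MeasureSpace Ω] [IsProbabilityMeasure (volume : Measure Ω)]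
            (t : Sym2 (ℤ × ℤ) → Ω → ℝ),
            (∀ e, Measurable (t e)) →
            iIndepFun t (μ := (volume : Measure Ω)) →
            (∀ e, Measure.map (t e) (volume : Measure Ω) = G) →
            (∀ v : ℤ × ℤ, Tendsto
              (fun k : ℕ => (∫ ω, passage (fun e => t e ω) (0, 0) (k * v.1, k * v.2)) / (k : ℝ))
              atTop (nhds (μ ((v.1 : ℝ), (v.2 : ℝ))))) →
            ∀ n h : ℕ, 0 < n → 0 < h →
              (volume : Measure Ω)
                {ω | ∃ p : (SimpleGraph.boxProd (SimpleGraph.hasse ℤ) (SimpleGraph.hasse ℤ)).Walk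
                        ((0 : ℤ), (0 : ℤ)) ((n : ℤ), (0 : ℤ)),
                      ∃ q : (SimpleGraph.boxProd (SimpleGraph.hasse ℤ) (SimpleGraph.hasse ℤ)).Walk
                        ((0 : ℤ), (0 : ℤ)) ((n : ℤ), (h : ℤ)),
                      (∀ p' : (SimpleGraph.boxProd (SimpleGraph.hasse ℤ) (SimpleGraph.hasse ℤ)).Walk
                          ((0 : ℤ), (0 : ℤ)) ((n : ℤ), (0 : ℤ)),
                        (p.edges.map (fun e => t e ω)).sum ≤ (p'.edges.map (fun e => t e ω)).sum) ∧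
                      (∀ q' : (SimpleGraph.boxProd (SimpleGraph.hasse ℤ) (SimpleGraph.hasse ℤ)).Walk
                          ((0 : ℤ), (0 : ℤ)) ((n : ℤ), (h : ℤ)),
                        (q.edges.map (fun e => t e ω)).sum ≤ (q'.edges.map (fun e => t e ω)).sum) ∧
                      (h : ℝ) ^ α₁ ≤ ((symmDiff p.edges.toFinset q.edges.toFinset).card : ℝ)}
                ≤ ENNReal.ofReal (C * (h : ℝ) ^ (-α₂)) := by
  refine ⟨3000, ((1041421 : ℕ) : ℝ), 1, by positivity, one_pos, ?_⟩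
  intro G hG1 hG2 hG3 hG4 μ hK
  have hG : Law G := ⟨hG2, hG3, hG4⟩
  by_cases hN : IsTC G μ
  swap
  · exact ⟨1, one_pos, fun Ω _ _ t hm hi hl h => absurd (isTC_of hG hm hi hl h) hN⟩
  have hball : {v : ℝ × ℝ | μ v ≤ 1} = μ.closedBall 0 1 := by
    ext v; simp [Seminorm.mem_closedBall]
  rw [hball] at hK
  obtain ⟨c, σ, hc⟩ := cone_of_sides μ (tc_refl G hN) (tc_swap G hN) (by exact_mod_cast hK)
  obtain ⟨C, hC, hfar⟩ := far_all G hG hN hc
  refine ⟨C, hC, fun Ω _ _ t hm hi hl _ n h _ hh => ?_⟩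
  have hX : Measurable (fun ω e => t e ω : Ω → Env) := measurable_pi_lambda _ hm
  have hmap := law_map hm hi hl
  have hpos : ∀ᵐ ω ∂(volume : Measure Ω), ∀ e, 0 < t e ω := by
    have := ae_pos G hG
    rw [← hmap] at this
    exact ae_of_ae_map hX.aemeasurable this
  have h1 := hfar n h hh
  rw [← hmap] at h1
  have h2 := le_trans (Measure.le_map_apply hX.aemeasurable _) h1
  rw [Real.rpow_neg_one]
  refine le_trans (measure_mono_ae ?_) h2
  filter_upwards [hpos] with ω hω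
  rintro ⟨p, q, hp, hq, hR⟩
  refine far_of_walks (ω := fun e => t e ω) (fun e => (hω e).le) p q hp hq ?_
  rw [Real.rpow_natCast] at hR
  exact_mod_cast hR

end Pool.Agent.FPP
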