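import Pool.Agent.P.MP_ecb9f8_pr.Low1
import Pool.Agent.P.MP_ecb9f8_pr.TCex

open MeasureTheory ProbabilityTheory Set Filter

noncomputable section

namespace Pool.Agent.FPP

theorem Low2_markov (G : Measure ℝ) [IsProbabilityMeasure G] {t q L : ℝ} (ht : 0 ≤ t)
    (hq : 0 ≤ q)
    (h : ∫⁻ x, ENNReal.ofReal (Real.exp (-(t * max x 0))) ∂G ≤ ENNReal.ofReal q)
    {p : ℕ → V} {k : ℕ} (hp : SA p k) :
    PP G {ω | W ω p 0 k < L} ≤ ENNReal.ofReal (Real.exp (t * L) * q ^ k) := by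
  have mφ : Measurable (fun x : ℝ => ENNReal.ofReal (Real.exp (-(t * max x 0)))) := by
    fun_prop
  have mP : Measurable (fun ω : Env => ∏ i ∈ Finset.range k,
      ENNReal.ofReal (Real.exp (-(t * max (ω (ed p i)) 0)))) :=
    Finset.measurable_prod _ fun i _ => mφ.comp (measurable_pi_apply _)
  refine (meas_le_lintegral₀ (mP.const_mul (ENNReal.ofReal (Real.exp (t * L)))).aemeasurable
    fun ω hω => ?_).trans ?_
  · rw [← ENNReal.ofReal_prod_of_nonneg fun i _ => (Real.exp_pos _).le, ← Real.exp_sum,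
      ← ENNReal.ofReal_mul (Real.exp_pos _).le, ← Real.exp_add, ENNReal.one_le_ofReal]
    refine Real.one_le_exp ?_
    have h1 : W ω p 0 k < L := hω
    rw [W_range] at h1
    rw [Finset.sum_neg_distrib, ← Finset.mul_sum]
    have h2 := mul_le_mul_of_nonneg_left h1.le ht
    unfold wt at h2
    linarith
  · rw [lintegral_const_mul _ mP, lintegral_prod_path G (fun i hi j hj => hp.ed_inj hi hj) mφ,
      ENNReal.ofReal_mul (Real.exp_pos _).le, ENNReal.ofReal_pow hq]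
    exact mul_le_mul_right (pow_le_pow_left' h k) _

open Classical in
theorem Low2_union (G : Measure ℝ) [IsProbabilityMeasure G] {t q L θ c : ℝ} (ht : 0 ≤ t)
    (hq : 0 ≤ q) (hθ : 0 < θ) (hθ1 : θ ≤ 1) (hc : 0 ≤ c)
    (h : ∫⁻ x, ENNReal.ofReal (Real.exp (-(t * max x 0))) ∂G ≤ ENNReal.ofReal q) (n m : ℕ)
    (hb : ∀ i : ℕ, (1 + 3 * θ) ^ (n + m + i) / θ ^ (m + i) * (Real.exp (t * L) * q ^ (n + m + i)) ≤
      c * (1 / 2) ^ i) :
    PP G {ω | d ω 0 ((n : ℤ), (m : ℤ)) < L} ≤ ENNReal.ofReal (2 * c) := by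
  let S : ℕ → Finset (ℕ → V) := fun k =>
    ((paths 0 k).filter (fun p => p k = ((n : ℤ), (m : ℤ)))).filter (fun p => SA p k)
  have h1 : {ω | d ω 0 ((n : ℤ), (m : ℤ)) < L} ⊆
      ⋃ i : ℕ, ⋃ p ∈ S (n + m + i), {ω : Env | W ω p 0 (n + m + i) < L} := by
    intro ω hω
    by_contra hn
    refine absurd hω (not_lt.2 (le_d ω fun p k hp h0 hk => not_lt.1 fun hW => hn ?_))
    obtain ⟨u, l, -, hu, hs, e0, el, hw⟩ := exists_SA ω hp
    obtain ⟨i, rfl⟩ := Nat.exists_eq_add_of_le (nonEast_le hu (e0.trans h0) (el.trans hk)).1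
    simp only [Set.mem_iUnion]
    refine ⟨i, fun t => u (min t (n + m + i)), ?_, ?_⟩
    · refine Finset.mem_filter.2 ⟨Finset.mem_filter.2 ⟨?_, ?_⟩, ?_⟩
      · have := norm_mem_paths hu
        rwa [e0, h0] at this
      · simp only [min_self]
        exact el.trans hk
      · intro a ha b hb hab
        simp only [min_eq_left ha, min_eq_left hb] at hab
        exact hs a ha b hb hab
    · change W ω _ 0 _ < L
      rw [W_congr ω (q := u) fun t ht => by simp only [min_eq_left ht]]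
      exact hw.trans_lt hW
  refine (measure_mono h1).trans ((measure_iUnion_le _).trans ?_)
  have h2 : HasSum (fun i : ℕ => c * ((1 : ℝ) / 2) ^ i) (2 * c) := by
    rw [mul_comm 2 c]
    exact hasSum_geometric_two.mul_left c
  rw [← h2.tsum_eq, ENNReal.ofReal_tsum_of_nonneg (fun i => by positivity) h2.summable]
  refine ENNReal.tsum_le_tsum fun i => (measure_biUnion_finset_le _ _).trans ?_
  refine (Finset.sum_le_card_nsmul _ _ _ fun p hp =>
    Low2_markov G ht hq h (Finset.mem_filter.1 hp).2).trans ?_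
  rw [nsmul_eq_mul, ← ENNReal.ofReal_natCast, ← ENNReal.ofReal_mul (Nat.cast_nonneg _)]
  refine ENNReal.ofReal_le_ofReal (le_trans ?_ (hb i))
  refine mul_le_mul_of_nonneg_right ?_ (by positivity)
  have h3 := card_paths_to_le hθ hθ1 n m (n + m + i)
  rw [add_assoc, Nat.add_sub_cancel_left, ← add_assoc] at h3
  exact le_trans (Nat.cast_le.2 (Finset.card_filter_le _ _)) h3

theorem Low2_num {s y lam : ℝ} (hs : 1 ≤ s) (hy : 2 ≤ y) (hl : y * (5 + 3 * y + s) ≤ lam)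
    (Y : ℕ) (hY : (Y : ℝ) = y ^ 3) (r i : ℕ) :
    (1 + 3 * (y ^ 3)⁻¹) ^ (r * Y + r + i) / (y ^ 3)⁻¹ ^ (r + i) *
      (Real.exp (y⁻¹ * (r * (lam * (y ^ 3 + 1) - 20 * s * y ^ 2))) *
        Real.exp (-(y⁻¹ * lam) + s * y⁻¹ ^ 2) ^ (r * Y + r + i)) ≤
      Real.exp (-(r : ℝ)) * (1 / 2) ^ i := by
  have y0 : 0 < y := by linarith
  have h1 : 1 + 3 * (y ^ 3)⁻¹ ≤ Real.exp (3 * (y ^ 3)⁻¹) := by
    rw [add_comm]; exact Real.add_one_le_exp _
  have h2 : y ^ 3 ≤ Real.exp (3 * y) := by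
    have := Real.add_one_le_exp y
    rw [show 3 * y = (3 : ℕ) * y by norm_num, Real.exp_nat_mul]
    exact pow_le_pow_left₀ y0.le (by linarith) 3
  have h3 : Real.exp (-1) ≤ 1 / 2 := by
    have := Real.add_one_le_exp 1
    rw [Real.exp_neg, one_div]
    exact inv_anti₀ (by norm_num) (by linarith)
  refine le_trans ?_ (mul_le_mul_of_nonneg_left (pow_le_pow_left₀ (Real.exp_pos _).le h3 i)
    (Real.exp_pos _).le)
  rw [inv_pow, div_inv_eq_mul]
  refine (mul_le_mul_of_nonneg_right (mul_le_mul (pow_le_pow_left₀ (by positivity) h1 _)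
    (pow_le_pow_left₀ (by positivity) h2 _) (by positivity) (by positivity))
    (by positivity)).trans ?_
  simp only [← Real.exp_nat_mul, ← Real.exp_add]
  refine Real.exp_le_exp.2 ?_
  push_cast
  rw [hY]
  obtain ⟨u, hu⟩ : ∃ u : ℝ, u = y⁻¹ := ⟨_, rfl⟩
  have hu1 : u * y = 1 := by rw [hu]; exact inv_mul_cancel₀ y0.ne'
  have u0 : 0 < u := by rw [hu]; positivity
  have u1 : u ≤ 1 := by nlinarith
  have u2 : u ^ 2 ≤ 1 := pow_le_one₀ u0.le u1
  have u3 : u ^ 3 ≤ 1 := pow_le_one₀ u0.le u1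
  rw [← inv_pow, ← hu]
  have e1 : (r * y ^ 3 + r + i) * (3 * u ^ 3) + (r + i) * (3 * y) +
      (u * (r * (lam * (y ^ 3 + 1) - 20 * s * y ^ 2)) +
        (r * y ^ 3 + r + i) * (-(u * lam) + s * u ^ 2)) =
      r * (3 * (u * y) ^ 3 + 3 * u ^ 3 + 3 * y - 20 * s * (u * y) * y + s * (u * y) ^ 2 * y +
        s * u ^ 2) + i * (3 * u ^ 3 + 3 * y - u * lam + s * u ^ 2) := by ring
  rw [e1, hu1]
  have h4 : 5 + 3 * y + s ≤ u * lam := by
    have := mul_le_mul_of_nonneg_left hl u0.le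
    rwa [← mul_assoc, hu1, one_mul] at this
  have h5 : s * u ^ 2 ≤ s := by nlinarith
  have h6 : (r : ℝ) * (3 * 1 ^ 3 + 3 * u ^ 3 + 3 * y - 20 * s * 1 * y + s * 1 ^ 2 * y +
      s * u ^ 2) ≤ r * (-1) := mul_le_mul_of_nonneg_left (by nlinarith) (Nat.cast_nonneg r)
  have h7 : (i : ℝ) * (3 * u ^ 3 + 3 * y - u * lam + s * u ^ 2) ≤ i * (-1) :=
    mul_le_mul_of_nonneg_left (by linarith) (Nat.cast_nonneg i)
  linarith

/-- lower tail of the passage time in a direction close to the axis, for heavy weights -/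
theorem low_tail (s : ℝ) (hs : 1 ≤ s) (y : ℕ) (hy : 2 ≤ y) :
    ∃ M₀ : ℝ, ∀ (G : Measure ℝ) [IsProbabilityMeasure G] (lam : ℝ), M₀ ≤ lam →
      (∀ t : ℝ, 0 ≤ t → t ≤ 1 →
        ∫⁻ x, ENNReal.ofReal (Real.exp (-(t * max x 0))) ∂G ≤
          ENNReal.ofReal (Real.exp (-(t * lam) + s * t ^ 2))) →
      ∀ r : ℕ, PP G {ω | d ω 0 (((r * y ^ 3 : ℕ) : ℤ), (r : ℤ)) <
          r * (lam * ((y : ℝ) ^ 3 + 1) - 20 * s * (y : ℝ) ^ 2)} ≤
        ENNReal.ofReal (2 * Real.exp (-(r : ℝ))) := by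
  refine ⟨y * (5 + 3 * y + s), fun G _ lam hl h r => ?_⟩
  have hy' : (2 : ℝ) ≤ y := by exact_mod_cast hy
  have h1 : (1 : ℝ) ≤ y := by linarith
  exact Low2_union G (t := (y : ℝ)⁻¹) (θ := ((y : ℝ) ^ 3)⁻¹) (by positivity) (Real.exp_pos _).le
    (by positivity) (inv_le_one_of_one_le₀ (one_le_pow₀ h1)) (Real.exp_pos _).le
    (h _ (by positivity) (inv_le_one_of_one_le₀ h1)) (r * y ^ 3) r
    (Low2_num hs hy' hl (y ^ 3) (by push_cast; rfl) r)

theorem low_tc (s : ℝ) (hs : 1 ≤ s) (y : ℕ) (hy : 2 ≤ y) :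
    ∃ M₀ : ℝ, ∀ (G : Measure ℝ) [IsProbabilityMeasure G] (lam : ℝ), Law G → M₀ ≤ lam →
      (∀ t : ℝ, 0 ≤ t → t ≤ 1 →
        ∫⁻ x, ENNReal.ofReal (Real.exp (-(t * max x 0))) ∂G ≤
          ENNReal.ofReal (Real.exp (-(t * lam) + s * t ^ 2))) →
      ∀ N : Seminorm ℝ (ℝ × ℝ), IsTC G N →
        lam * ((y : ℝ) ^ 3 + 1) - 20 * s * (y : ℝ) ^ 2 ≤ N ((y : ℝ) ^ 3, 1) := by
  obtain ⟨M, hM⟩ := low_tail s hs y hy
  refine ⟨M, fun G _ lam hG hl h N hN => ?_⟩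
  have h1 := hM G lam hl h
  generalize lam * ((y : ℝ) ^ 3 + 1) - 20 * s * (y : ℝ) ^ 2 = l at h1 ⊢
  rcases le_total l 0 with h0 | h0
  · exact h0.trans (apply_nonneg N _)
  have h2 := hN (((y ^ 3 : ℕ) : ℤ), 1)
  have h3 : rv (((y ^ 3 : ℕ) : ℤ), 1) = ((y : ℝ) ^ 3, 1) := by simp [rv]
  rw [h3] at h2
  have h4 : Tendsto (fun r : ℕ => l * (1 - 2 * Real.exp (-(r : ℝ)))) atTop
      (nhds (l * (1 - 2 * 0))) :=
    (((Real.tendsto_exp_neg_atTop_nhds_zero.comp tendsto_natCast_atTop_atTop).const_mul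
      2).const_sub 1).const_mul l
  rw [mul_zero, sub_zero, mul_one] at h4
  refine le_of_tendsto_of_tendsto h4 h2 ((eventually_gt_atTop 0).mono fun r hr => ?_)
  have hr' : (0 : ℝ) < r := by exact_mod_cast hr
  have h5 : r • ((((y ^ 3 : ℕ) : ℤ), 1) : V) = (((r * y ^ 3 : ℕ) : ℤ), (r : ℤ)) := by simp
  have h6 := mul_meas_ge_le_integral_of_nonneg
    (Eventually.of_forall fun ω => d_nonneg ω 0 (((r * y ^ 3 : ℕ) : ℤ), (r : ℤ)))
    (integrable_d G hG _ _) (r * l)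
  have h7 : {ω : Env | r * l ≤ d ω 0 (((r * y ^ 3 : ℕ) : ℤ), (r : ℤ))} =
      {ω : Env | d ω 0 (((r * y ^ 3 : ℕ) : ℤ), (r : ℤ)) < r * l}ᶜ := by
    ext ω
    simp only [Set.mem_ofPred_eq, Set.mem_compl_iff, not_lt]
  rw [h7, probReal_compl_eq_one_sub (measurableSet_lt (measurable_d _ _) measurable_const)] at h6
  have h8 := ENNReal.toReal_le_of_le_ofReal (by positivity) (h1 r)
  change l * (1 - 2 * Real.exp (-(r : ℝ))) ≤ g G _ / r
  rw [h5, le_div_iff₀ hr', g]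
  refine le_trans ?_ h6
  rw [mul_comm, ← mul_assoc]
  exact mul_le_mul_of_nonneg_left (sub_le_sub_left h8 1) (by positivity)

end Pool.Agent.FPP
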