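import Pool.Agent.P.MP_ecb9f8_pr.Up1

open MeasureTheory ProbabilityTheory Set Filter

noncomputable section

namespace Pool.Agent.FPP

theorem Up2_le {ω : Env} (h : ∀ e, 0 ≤ ω e) {M : ℝ} (hM : 0 ≤ M) {p : ℕ → V} {k : ℕ}
    (hp : Chain p k) (sp : SA p k) :
    d (fun e => ω e + M) (p 0) (p k) ≤ ∑ e ∈ (Finset.range k).image (ed p), ω e + k * M := by
  refine (d_le_W _ hp (Nat.zero_le k) le_rfl).trans_eq ?_
  rw [W_range, Finset.sum_image fun i hi j hj e =>
    sp.ed_inj (Finset.mem_range.1 hi) (Finset.mem_range.1 hj) e,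
    Finset.sum_congr (f := fun t => wt (fun e => ω e + M) (ed p t)) rfl
      fun t _ => max_eq_left (add_nonneg (h (ed p t)) hM),
    Finset.sum_add_distrib, Finset.sum_const, Finset.card_range, nsmul_eq_mul]

theorem Up2_card {p : ℕ → V} {k : ℕ} (sp : SA p k) :
    ((Finset.range k).image (ed p)).card = k := by
  rw [Finset.card_image_of_injOn fun i hi j hj e =>
    sp.ed_inj (Finset.mem_range.1 hi) (Finset.mem_range.1 hj) e, Finset.card_range]

theorem Up2_sets {Y : ℕ} (hY : 1 ≤ Y) : ∃ S T : Finset E, Disjoint S T ∧ S.card = Y + 1 ∧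
    T.card = Y + 1 ∧ ∀ (ω : Env) (M : ℝ), (∀ e, 0 ≤ ω e) → 0 ≤ M →
      d (fun e => ω e + M) 0 ((Y : ℤ), 1) ≤ ∑ e ∈ S, ω e + (Y + 1) * M ∧
      d (fun e => ω e + M) 0 ((Y : ℤ), 1) ≤ ∑ e ∈ T, ω e + (Y + 1) * M := by
  let p : ℕ → V := fun t => if t = 0 then (0, 0) else ((t : ℤ) - 1, 1)
  let q : ℕ → V := fun t => if t ≤ Y then ((t : ℤ), 0) else ((Y : ℤ), 1)
  have cp : Chain p (Y + 1) := by
    intro i _
    simp only [p, Adj, Nat.add_one_ne_zero, if_false]
    split_ifs <;> simp only [Int.abs_eq_natAbs] <;> omega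
  have cq : Chain q (Y + 1) := by
    intro i _
    simp only [q, Adj]
    split_ifs <;> simp only [Int.abs_eq_natAbs] <;> omega
  have sp : SA p (Y + 1) := by
    intro i _ j _
    simp only [p]
    split_ifs <;> simp only [Prod.mk.injEq] <;> omega
  have sq : SA q (Y + 1) := by
    intro i _ j _
    simp only [q]
    split_ifs <;> simp only [Prod.mk.injEq] <;> omega
  refine ⟨_, _, ?_, Up2_card sp, Up2_card sq, fun ω M h hM => ⟨?_, ?_⟩⟩
  · rw [Finset.disjoint_left]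
    intro e h1 h2
    obtain ⟨i, hi, rfl⟩ := Finset.mem_image.1 h1
    obtain ⟨j, hj, e⟩ := Finset.mem_image.1 h2
    rw [Finset.mem_range] at hi hj
    revert e
    simp only [ed, p, q, Sym2.eq_iff]
    split_ifs <;> simp only [Prod.mk.injEq] <;> omega
  · simpa [p, Prod.mk_zero_zero] using Up2_le h hM cp sp
  · simpa [q, Prod.mk_zero_zero] using Up2_le h hM cq sq

/-- choosing the better of two disjoint walks from `0` to `(Y, 1)` -/
theorem up_g (G : Measure ℝ) [IsProbabilityMeasure G] (hG : Law G) :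
    ∃ c : ℝ, 0 < c ∧ ∀ M : ℝ, 0 ≤ M → ∀ Y : ℕ, 1 ≤ Y →
      g (shiftLaw G M) ((Y : ℤ), 1) ≤ (M + ∫ x, x ∂G) * ((Y : ℝ) + 1) - c * Real.sqrt (Y : ℝ) := by
  obtain ⟨c, hc, h⟩ := abs_diff_ge G hG
  refine ⟨c / 2, half_pos hc, fun M hM Y hY => ?_⟩
  obtain ⟨S, T, hd, hS, hT, hle⟩ := Up2_sets hY
  have h0 : ∀ᵐ x ∂G, 0 ≤ x := by
    rw [ae_iff]
    simp only [not_le]
    exact hG.1
  have h1 : ∀ᵐ ω ∂(PP G), ∀ e, 0 ≤ ω e :=
    ae_all_iff.2 fun e => (mp_eval G e).quasiMeasurePreserving.ae h0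
  have h2 : Integrable (fun x : ℝ => x) G :=
    ((Mean_aux1 G hG).integrable one_le_two).congr (h0.mono fun x hx => max_eq_left hx)
  have h3 : ∀ e, Integrable (fun ω : Env => ω e) (PP G) := fun e =>
    (mp_eval G e).integrable_comp_of_integrable h2
  have h4 : ∀ U : Finset E, Integrable (fun ω : Env => ∑ e ∈ U, ω e) (PP G) := fun U =>
    integrable_finsetSum _ fun e _ => h3 e
  have h5 : ∀ U : Finset E, ∫ ω : Env, ∑ e ∈ U, ω e ∂(PP G) = U.card * ∫ x, x ∂G := fun U => by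
    rw [integral_finsetSum _ fun e _ => h3 e,
      Finset.sum_congr rfl fun e _ => Mean_aux3 G (fun x => x) measurable_id e, Finset.sum_const,
      nsmul_eq_mul]
  have h6 := h S T hd (hS.trans hT.symm)
  have h7 : Real.sqrt (Y : ℝ) ≤ Real.sqrt (S.card : ℝ) :=
    Real.sqrt_le_sqrt (by rw [hS]; push_cast; linarith)
  have i2 : Integrable (fun ω : Env => ∑ e ∈ S, ω e + ∑ e ∈ T, ω e) (PP G) := (h4 S).add (h4 T)
  have i3 : Integrable (fun ω : Env => |∑ e ∈ S, ω e - ∑ e ∈ T, ω e|) (PP G) :=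
    ((h4 S).sub (h4 T)).abs
  have i1 : Integrable (fun ω : Env => (∑ e ∈ S, ω e + ∑ e ∈ T, ω e) -
      |∑ e ∈ S, ω e - ∑ e ∈ T, ω e|) (PP G) := i2.sub i3
  rw [g, ← (mp_shift G M).map_eq, integral_map (mp_shift G M).aemeasurable
    (measurable_d _ _).aestronglyMeasurable]
  refine (integral_mono_of_nonneg (g := fun ω : Env => ((∑ e ∈ S, ω e + ∑ e ∈ T, ω e) -
    |∑ e ∈ S, ω e - ∑ e ∈ T, ω e|) / 2 + (Y + 1) * M) (ae_of_all _ fun ω => d_nonneg _ _ _)
    ((i1.div_const 2).add (integrable_const _)) (h1.mono fun ω hω => ?_)).trans ?_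
  · obtain ⟨a1, a2⟩ := hle ω M hω hM
    dsimp only
    rcases abs_cases (∑ e ∈ S, ω e - ∑ e ∈ T, ω e) with h | h <;> linarith [h.1]
  · rw [integral_add (i1.div_const 2) (integrable_const _), integral_div,
      integral_sub i2 i3, integral_add (h4 S) (h4 T), h5, h5,
      integral_const, probReal_univ, one_smul, hS, hT]
    push_cast
    nlinarith

end Pool.Agent.FPP
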