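import Pool.Agent.P.MP_ecb9f8_pr.Ext
import Pool.Agent.P.MP_ecb9f8_pr.Low2
import Pool.Agent.P.MP_ecb9f8_pr.Up2

open MeasureTheory ProbabilityTheory Set Filter

noncomputable section

namespace Pool.Agent.FPP

/-- the tower of scales -/
def Sides_y (y₀ : ℕ) : ℕ → ℕ
  | 0 => y₀
  | j + 1 => Sides_y y₀ j ^ 4

theorem Sides_y_le {y₀ : ℕ} (j : ℕ) : Sides_y y₀ j ≤ Sides_y y₀ (j + 1) :=
  Nat.le_self_pow (by norm_num) _

theorem Sides_y_ge {y₀ : ℕ} (j : ℕ) : y₀ ≤ Sides_y y₀ j :=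
  monotone_nat_of_le_succ (Sides_y_le (y₀ := y₀)) (Nat.zero_le j)

/-- one gap between two consecutive scales -/
theorem Sides_gap (N : Seminorm ℝ (ℝ × ℝ)) (hpos : ∀ v, v ≠ 0 → 0 < N v) {y lam s c : ℝ}
    (hy : 2 ≤ y) (hs : 1 ≤ s) (hc : 40 * s < c * y)
    (h1 : lam * (y ^ 3 + 1) - 20 * s * y ^ 2 ≤ N (y ^ 3, 1))
    (h2 : lam * ((y ^ 4) ^ 3 + 1) - 20 * s * (y ^ 4) ^ 2 ≤ N ((y ^ 4) ^ 3, 1))
    (h3 : N (y ^ 6, 1) ≤ lam * (y ^ 6 + 1) - c * y ^ 3) :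
    ∃ e ∈ extremePoints ℝ (N.closedBall 0 1),
      0 < e.2 ∧ y ^ 3 * e.2 < e.1 ∧ e.1 < (y ^ 4) ^ 3 * e.2 := by
  have hy0 : 0 < y := by linarith
  have hy1 : 1 < y := by linarith
  have hD : 0 < y ^ 6 + y ^ 3 + 1 := by positivity
  set α : ℝ := (y ^ 6 + y ^ 3 + 1)⁻¹ with hα
  have hα0 : 0 < α := inv_pos.2 hD
  have hαD : α * (y ^ 6 + y ^ 3 + 1) = 1 := inv_mul_cancel₀ hD.ne'
  have h6 : 0 < y ^ 6 := by positivity
  have h3' : 0 < y ^ 3 := by positivity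
  have h2' : 0 < y ^ 2 := by positivity
  have hα6 : α * y ^ 6 ≤ 1 := by nlinarith [mul_pos hα0 h3']
  have hα1 : α ≤ 1 := by nlinarith [mul_pos hα0 h3', mul_pos hα0 h6]
  have hx : α * (y ^ 4) ^ 3 + (1 - α) * y ^ 3 = y ^ 6 := by
    linear_combination (y ^ 6 - y ^ 3) * hαD
  refine extreme_of_strict N hpos (A := (y ^ 4) ^ 3) (B := y ^ 3) (α := α) (β := 1 - α) ?_ hα0.le
    (by linarith) ?_
  · rw [← pow_mul]
    exact pow_lt_pow_right₀ hy1 (by norm_num)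
  · have e : α • ((y ^ 4) ^ 3, (1 : ℝ)) + (1 - α) • (y ^ 3, (1 : ℝ)) = (y ^ 6, 1) := by
      ext
      · simpa using hx
      · simp
    rw [e]
    have k1 := mul_le_mul_of_nonneg_left h2 hα0.le
    have k2 := mul_le_mul_of_nonneg_left h1 (sub_nonneg.2 hα1)
    have k3 : α * (y ^ 4) ^ 2 ≤ y ^ 2 := by
      have : α * (y ^ 4) ^ 2 = α * y ^ 6 * y ^ 2 := by ring
      rw [this]
      exact mul_le_of_le_one_left h2'.le hα6
    have k4 : (1 - α) * y ^ 2 ≤ y ^ 2 := mul_le_of_le_one_left h2'.le (by linarith)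
    have k5 : 40 * s * y ^ 2 < c * y ^ 3 := by
      have := mul_lt_mul_of_pos_right hc h2'
      calc 40 * s * y ^ 2 < c * y * y ^ 2 := this
        _ = c * y ^ 3 := by ring
    have hs0 : 0 ≤ 20 * s := by linarith
    have k6 := mul_le_mul_of_nonneg_left k3 hs0
    have k7 := mul_le_mul_of_nonneg_left k4 hs0
    have k8 : α * (lam * ((y ^ 4) ^ 3 + 1) - 20 * s * (y ^ 4) ^ 2) +
        (1 - α) * (lam * (y ^ 3 + 1) - 20 * s * y ^ 2) =
        lam * (y ^ 6 + 1) - 20 * s * (α * (y ^ 4) ^ 2) - 20 * s * ((1 - α) * y ^ 2) := by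
      linear_combination lam * hx
    linarith

/-- the limit shape of a sufficiently shifted law has many sides -/
theorem many_sides (G : Measure ℝ) [IsProbabilityMeasure G] (hG : Law G) (K : ℕ) :
    ∃ M₀ : ℝ, 0 ≤ M₀ ∧ ∀ M : ℝ, M₀ ≤ M → ∀ N : Seminorm ℝ (ℝ × ℝ), IsTC (shiftLaw G M) N →
      (K : ℕ∞) ≤ (extremePoints ℝ (N.closedBall 0 1)).encard := by
  obtain ⟨s, hs, hmgf⟩ := mgf_shift G hG
  obtain ⟨c, hc, hup⟩ := up_g G hG
  obtain ⟨y₁, hy₁⟩ := exists_nat_gt (40 * s / c)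
  set y₀ : ℕ := y₁ + 2 with hy₀
  have hy2 : ∀ j, 2 ≤ Sides_y y₀ j := fun j => le_trans (by omega) (Sides_y_ge j)
  have hyc : ∀ j, 40 * s < c * (Sides_y y₀ j : ℝ) := fun j => by
    have h1 : (y₁ : ℝ) ≤ Sides_y y₀ j := by
      exact_mod_cast le_trans (by omega) (Sides_y_ge (y₀ := y₀) j)
    rw [div_lt_iff₀ hc] at hy₁
    nlinarith
  choose M₁ hM₁ using fun j => low_tc s hs (Sides_y y₀ j) (hy2 j)
  set μ : ℝ := ∫ x, x ∂G with hμ
  have hsum : 0 ≤ ∑ j ∈ Finset.range (K + 1), |M₁ j| :=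
    Finset.sum_nonneg fun _ _ => abs_nonneg _
  refine ⟨∑ j ∈ Finset.range (K + 1), |M₁ j| + |μ| + 20 * s, by positivity, ?_⟩
  intro M hM N hN
  have hμ' := neg_abs_le μ
  have hμ0 := abs_nonneg μ
  have hM0 : 0 ≤ M := by linarith
  have hL := law_shift G hG hM0
  have hlow : ∀ j ≤ K, (M + μ) * ((Sides_y y₀ j : ℝ) ^ 3 + 1) - 20 * s * (Sides_y y₀ j : ℝ) ^ 2 ≤
      N ((Sides_y y₀ j : ℝ) ^ 3, 1) := fun j hj => by
    refine hM₁ j (shiftLaw G M) (M + μ) hL ?_ (hmgf M hM0) N hN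
    have h1 : |M₁ j| ≤ ∑ j ∈ Finset.range (K + 1), |M₁ j| :=
      Finset.single_le_sum (f := fun j => |M₁ j|) (fun _ _ => abs_nonneg _)
        (Finset.mem_range.2 (by omega))
    have h2 := le_abs_self (M₁ j)
    linarith
  have hpos : ∀ v, v ≠ 0 → 0 < N v := by
    refine pos_of_symm N (tc_refl _ hN) (tc_swap _ hN) (w := ((Sides_y y₀ 0 : ℝ) ^ 3, 1)) ?_
    refine lt_of_lt_of_le ?_ (hlow 0 (Nat.zero_le K))
    have h1 : (2 : ℝ) ≤ Sides_y y₀ 0 := by exact_mod_cast hy2 0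
    generalize (Sides_y y₀ 0 : ℝ) = y at h1 ⊢
    have h2 : y ^ 2 ≤ y ^ 3 := pow_le_pow_right₀ (by linarith) (by norm_num)
    have h3 : 20 * s ≤ M + μ := by linarith
    have h4 : 0 < y ^ 3 + 1 := by positivity
    have h5 := mul_le_mul_of_nonneg_right h3 h4.le
    nlinarith
  refine sides_of_gaps N K (fun j => (Sides_y y₀ j : ℝ) ^ 3) ?_ fun j hj => ?_
  · refine monotone_nat_of_le_succ fun j => ?_
    have h1 : (Sides_y y₀ j : ℝ) ≤ Sides_y y₀ (j + 1) := by exact_mod_cast Sides_y_le j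
    exact pow_le_pow_left₀ (Nat.cast_nonneg _) h1 3
  · have e : (Sides_y y₀ (j + 1) : ℝ) = (Sides_y y₀ j : ℝ) ^ 4 := by simp [Sides_y]
    have h2 := hlow (j + 1) hj
    simp only [e] at h2 ⊢
    have hy : (2 : ℝ) ≤ Sides_y y₀ j := by exact_mod_cast hy2 j
    refine Sides_gap N hpos hy hs (hyc j) (hlow j hj.le) h2 ?_
    have h3 := hup M hM0 (Sides_y y₀ j ^ 6) (Nat.one_le_pow _ _ (by have := hy2 j; omega))
    have h4 := tc_le_g (shiftLaw G M) hL hN (((Sides_y y₀ j ^ 6 : ℕ) : ℤ), 1)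
    have h5 : Real.sqrt ((Sides_y y₀ j ^ 6 : ℕ) : ℝ) = (Sides_y y₀ j : ℝ) ^ 3 := by
      rw [Real.sqrt_eq_iff_mul_self_eq (by positivity) (by positivity)]
      push_cast
      ring
    rw [h5] at h3
    have h6 : rv (((Sides_y y₀ j ^ 6 : ℕ) : ℤ), 1) = ((Sides_y y₀ j : ℝ) ^ 6, 1) := by
      simp [rv]
    rw [h6] at h4
    push_cast at h3 h4
    exact h4.trans h3

end Pool.Agent.FPP
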