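import Pool.Agent.P.MP_ecb9f8_pr.FrameL

open MeasureTheory ProbabilityTheory Set Filter

noncomputable section

namespace Pool.Agent.FPP

/-- two different faces through the direction `(1, κ)` make it a corner -/
theorem corner_of_two (N : Seminorm ℝ (ℝ × ℝ)) (hpos : ∀ v, v ≠ 0 → 0 < N v) {κ : ℝ}
    (hκ : |κ| ≤ 1) {φ φ' : ℝ × ℝ} (hne : φ ≠ φ') (h1 : ∀ v, lin φ v ≤ N v)
    (h2 : ∀ v, lin φ' v ≤ N v) (e1 : lin φ (1, κ) = N (1, κ)) (e2 : lin φ' (1, κ) = N (1, κ)) :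
    ∃ (c : ℝ) (ψ : ℝ × ℝ), 0 < c ∧ Corner N κ c ψ := by
  have hn : 0 < N (1, κ) := hpos _ fun h => one_ne_zero (congrArg Prod.fst h)
  have a1 : ∀ v : ℝ × ℝ, lin φ v = N (1, κ) * v.1 + φ.2 * lat κ v := fun v => by
    rw [← e1]
    simp only [lin, lat]
    ring
  have a2 : ∀ v : ℝ × ℝ, lin φ' v = N (1, κ) * v.1 + φ'.2 * lat κ v := fun v => by
    rw [← e2]
    simp only [lin, lat]
    ring
  have hγ : 0 < |φ.2 - φ'.2| := by
    refine abs_pos.2 fun h => hne ?_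
    have h' : φ.2 = φ'.2 := sub_eq_zero.1 h
    have := e1.trans e2.symm
    simp only [lin, h'] at this
    exact Prod.ext (by linarith) h'
  have a3 : ∀ v : ℝ × ℝ, lin ((φ.1 + φ'.1) / 2, (φ.2 + φ'.2) / 2) v = (lin φ v + lin φ' v) / 2 :=
    fun v => by
      simp only [lin]
      ring
  set n := N (1, κ) with hn'
  set γ := |φ.2 - φ'.2| with hγ'
  have hK : 0 < 2 / γ + (1 + 2 * |φ.2 + φ'.2| / γ) / (2 * n) := by positivity
  refine ⟨(2 / γ + (1 + 2 * |φ.2 + φ'.2| / γ) / (2 * n))⁻¹, ((φ.1 + φ'.1) / 2, (φ.2 + φ'.2) / 2),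
    inv_pos.2 hK, hκ, fun v => ?_, ?_, fun v => ?_⟩
  · rw [a3]
    linarith [h1 v, h2 v]
  · rw [a3, e1, e2]
    ring
  · rw [a3, inv_mul_le_iff₀ hK]
    have b1 := h1 v
    have b2 := h2 v
    have b3 := h1 (-v)
    have b4 := h2 (-v)
    rw [lin_neg, map_neg_eq_map] at b3 b4
    obtain ⟨D, hD⟩ : ∃ D, D = N v - (lin φ v + lin φ' v) / 2 := ⟨_, rfl⟩
    rw [← hD]
    have d0 : 0 ≤ D := by linarith
    have c1 : |lat κ v| ≤ 2 / γ * D := by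
      rw [div_mul_eq_mul_div, le_div_iff₀ hγ, hγ', ← abs_mul, abs_le]
      constructor <;> linarith [a1 v, a2 v]
    have c2 : (φ.2 + φ'.2) * lat κ v ≤ |φ.2 + φ'.2| * (2 / γ * D) :=
      (le_abs_self _).trans ((abs_mul _ _).trans_le (mul_le_mul_of_nonneg_left c1 (abs_nonneg _)))
    have c3 : max (-v.1) 0 ≤ (1 + 2 * |φ.2 + φ'.2| / γ) / (2 * n) * D := by
      refine max_le ?_ (by positivity)
      rw [div_mul_eq_mul_div, le_div_iff₀ (by positivity)]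
      have e : (1 + 2 * |φ.2 + φ'.2| / γ) * D = D + |φ.2 + φ'.2| * (2 / γ * D) := by ring
      rw [e]
      linarith [a1 v, a2 v]
    linarith

theorem Corner.mono {N : Seminorm ℝ (ℝ × ℝ)} {κ c c' : ℝ} {φ : ℝ × ℝ} (h : Corner N κ c φ)
    (hc : c' ≤ c) : Corner N κ c' φ :=
  ⟨h.1, h.2.1, h.2.2.1, fun v => (mul_le_mul_of_nonneg_right hc
    (add_nonneg (abs_nonneg _) (le_max_right _ _))).trans (h.2.2.2 v)⟩

theorem PolyB_unif (N : Seminorm ℝ (ℝ × ℝ)) (K : Finset ℝ)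
    (h : ∀ κ ∈ K, ∃ (c : ℝ) (φ : ℝ × ℝ), 0 < c ∧ Corner N κ c φ) :
    ∃ c : ℝ, 0 < c ∧ ∀ κ ∈ K, ∃ φ, Corner N κ c φ := by
  classical
  induction K using Finset.induction_on with
  | empty => exact ⟨1, one_pos, fun _ h => absurd h (Finset.notMem_empty _)⟩
  | insert a K _ ih =>
    obtain ⟨c, hc, hK⟩ := ih fun κ hκ => h κ (Finset.mem_insert_of_mem hκ)
    obtain ⟨c', φ, hc', hφ⟩ := h a (Finset.mem_insert_self a K)
    refine ⟨min c c', lt_min hc hc', fun κ hκ => ?_⟩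
    rcases Finset.mem_insert.1 hκ with rfl | hκ
    · exact ⟨φ, hφ.mono (min_le_right _ _)⟩
    · obtain ⟨ψ, hψ⟩ := hK κ hκ
      exact ⟨ψ, hψ.mono (min_le_left _ _)⟩

theorem PolyB_finite (N : Seminorm ℝ (ℝ × ℝ)) (Φ : Finset (ℝ × ℝ)) :
    {κ : ℝ | |κ| ≤ 1 ∧ ∃ t : Fr, ∃ φ ∈ Φ, ∃ φ' ∈ Φ, φ ≠ φ' ∧ lin (fri t φ) (1, κ) = N (1, κ) ∧
      lin (fri t φ') (1, κ) = N (1, κ)}.Finite := by
  refine (((finite_univ (α := Fr)).prod (Φ.finite_toSet.prod Φ.finite_toSet)).image fun a =>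
    -((fri a.1 a.2.1).1 - (fri a.1 a.2.2).1) / ((fri a.1 a.2.1).2 - (fri a.1 a.2.2).2)).subset ?_
  rintro κ ⟨-, t, φ, hφ, φ', hφ', hne, e1, e2⟩
  refine ⟨(t, φ, φ'), ⟨trivial, hφ, hφ'⟩, ?_⟩
  have e := e1.trans e2.symm
  simp only [lin] at e
  have h : (fri t φ).2 - (fri t φ').2 ≠ 0 := fun h => hne (by
    have h' : (fri t φ).2 = (fri t φ').2 := sub_eq_zero.1 h
    rw [h'] at e
    rw [← fr_fri t φ, Prod.ext (by linarith : (fri t φ).1 = (fri t φ').1) h', fr_fri])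
  simp only
  rw [div_eq_iff h]
  linarith

theorem exists_corners (N : Seminorm ℝ (ℝ × ℝ)) (hpos : ∀ v, v ≠ 0 → 0 < N v)
    (hsym : ∀ (t : Fr) (v : ℝ × ℝ), N (fr t v) = N v) {Φ : Finset (ℝ × ℝ)}
    (h1 : ∀ φ ∈ Φ, ∀ v, lin φ v ≤ N v) (h2 : ∀ v, ∃ φ ∈ Φ, N v = lin φ v) :
    ∃ (Kc : Finset ℝ) (c : ℝ), 0 < c ∧ (∀ κ ∈ Kc, ∃ φ, Corner N κ c φ) ∧
      ∀ (Y : V) (ρ : ℝ), 0 ≤ ρ → 2 * ρ < (nm Y : ℝ) → (2 * ρ) ^ 5 ≤ (nm Y : ℝ) ^ 4 →
        ¬ NearC Kc Y → ∃ φ ∈ Φ, FaceAt N φ Y ρ := by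
  classical
  have hfin := PolyB_finite N Φ
  obtain ⟨c, hc, hK⟩ := PolyB_unif N hfin.toFinset fun κ hκ => by
    obtain ⟨k1, t, φ, hφ, φ', hφ', hne, e1, e2⟩ := hfin.mem_toFinset.1 hκ
    have b : ∀ ψ ∈ Φ, ∀ v, lin (fri t ψ) v ≤ N v := fun ψ hψ v => by
      rw [← lin_fr, ← hsym t v]
      exact h1 ψ hψ _
    exact corner_of_two N hpos k1 (fun h => hne (by rw [← fr_fri t φ, h, fr_fri])) (b φ hφ)
      (b φ' hφ') e1 e2
  refine ⟨hfin.toFinset, c, hc, hK, fun Y ρ h0 hρ h5 hn => ?_⟩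
  have two : ∀ x : ℝ × ℝ, ‖x - rv Y‖ ≤ ρ → ∀ φ ∈ Φ, ∀ φ' ∈ Φ, N x = lin φ x → N x = lin φ' x →
      φ = φ' := by
    intro x hx φ hφ φ' hφ' e1 e2
    by_contra hne
    obtain ⟨t, t1, t2, t3⟩ := exists_frame x
    have n1 : (nm Y : ℝ) - ρ ≤ ‖x‖ := by
      have := norm_sub_norm_le (rv Y) x
      rw [norm_rv, norm_sub_rev] at this
      linarith
    have hr : 0 < (fri t x).1 := by linarith
    obtain ⟨κ, hκ⟩ : ∃ κ, κ = (fri t x).2 / (fri t x).1 := ⟨_, rfl⟩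
    have k0 : (fri t x).2 = κ * (fri t x).1 := by rw [hκ, div_mul_cancel₀ _ hr.ne']
    have k1 : |κ| ≤ 1 := by
      rw [hκ, abs_of_nonneg (div_nonneg t2 hr.le)]
      exact div_le_one_of_le₀ t3 hr.le
    have k2 : fri t x = (fri t x).1 • ((1, κ) : ℝ × ℝ) :=
      Prod.ext (mul_one _).symm (k0.trans (mul_comm _ _))
    have act : ∀ ψ, N x = lin ψ x → lin (fri t ψ) (1, κ) = N (1, κ) := fun ψ e => by
      rw [← lin_fri t, ← sym_fri hsym t x, k2, lin_smul, map_smul_eq_mul,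
        Real.norm_of_nonneg hr.le] at e
      exact (mul_left_cancel₀ hr.ne' e).symm
    have n2 : ‖fri t x - rv (fri t Y)‖ ≤ ρ := by rwa [rv_fri, ← fri_sub, norm_fri]
    have n3 : |(fri t x).1 - (rv (fri t Y)).1| ≤ ρ := (norm_fst_le (fri t x - rv (fri t Y))).trans n2
    have n4 : |(fri t x).2 - (rv (fri t Y)).2| ≤ ρ := (norm_snd_le (fri t x - rv (fri t Y))).trans n2
    refine hn ⟨t, κ, hfin.mem_toFinset.2 ⟨k1, t, φ, hφ, φ', hφ', hne, act φ e1, act φ' e2⟩, ?_,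
      le_trans (pow_le_pow_left₀ (abs_nonneg _) ?_ 5) h5⟩
    · have : (0 : ℝ) ≤ (rv (fri t Y)).1 := by linarith [(abs_le.1 n3).2]
      exact Int.cast_nonneg_iff.1 this
    · have e : lat κ (rv (fri t Y)) = κ * ((fri t x).1 - (rv (fri t Y)).1) -
          ((fri t x).2 - (rv (fri t Y)).2) := by
        rw [k0, lat]
        ring
      have n5 : |κ * ((fri t x).1 - (rv (fri t Y)).1)| ≤ 1 * ρ := by
        rw [abs_mul]
        exact mul_le_mul k1 n3 (abs_nonneg _) zero_le_one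
      rw [e]
      linarith [abs_sub (κ * ((fri t x).1 - (rv (fri t Y)).1)) ((fri t x).2 - (rv (fri t Y)).2)]
  obtain ⟨φ, hφ, e0⟩ := h2 (rv Y)
  have cl : ∀ ψ ∈ Φ, IsClosed {x | N x = lin ψ x} := fun ψ hψ => by
    have e : {x | N x = lin ψ x} = ⋂ χ ∈ Φ, {x | lin χ x ≤ lin ψ x} := by
      ext x
      simp only [mem_ofPred_eq, mem_iInter]
      refine ⟨fun h χ hχ => h ▸ h1 χ hχ x, fun h => le_antisymm ?_ (h1 ψ hψ x)⟩
      obtain ⟨χ, hχ, e⟩ := h2 x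
      exact e ▸ h χ hχ
    rw [e]
    exact isClosed_biInter fun χ _ => isClosed_le (by unfold lin; fun_prop) (by unfold lin; fun_prop)
  have dis : Metric.closedBall (rv Y) ρ ∩ ({x | N x = lin φ x} ∩
      ⋃ ψ ∈ Φ.erase φ, {x | N x = lin ψ x}) = ∅ := by
    refine eq_empty_of_forall_notMem fun x ⟨a1, a2, a3⟩ => ?_
    obtain ⟨ψ, hψ, a4⟩ := mem_iUnion₂.1 a3
    obtain ⟨b1, b2⟩ := Finset.mem_erase.1 hψ
    exact b1 (two x (mem_closedBall_iff_norm.1 a1) ψ b2 φ hφ a4 a2)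
  rcases isPreconnected_iff_subset_of_disjoint_closed.1
    (convex_closedBall (rv Y) ρ).isPreconnected _ _ (cl φ hφ)
    (isClosed_biUnion_finset fun ψ hψ => cl ψ (Finset.mem_of_mem_erase hψ)) (fun x _ => by
      obtain ⟨ψ, hψ, e⟩ := h2 x
      rcases eq_or_ne ψ φ with rfl | hne
      · exact Or.inl e
      · exact Or.inr (mem_iUnion₂.2 ⟨ψ, Finset.mem_erase.2 ⟨hne, hψ⟩, e⟩)) dis with a | a
  · exact ⟨φ, hφ, fun x hx => a (mem_closedBall_iff_norm.2 hx)⟩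
  · have m := Metric.mem_closedBall_self (x := rv Y) h0
    exact absurd (dis.le ⟨m, e0, a m⟩) (notMem_empty _)

end Pool.Agent.FPP
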