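import Pool.Agent.P.MP_ecb9f8_pr.PolyA
import Pool.Agent.P.MP_ecb9f8_pr.PolyB
import Pool.Agent.P.MP_ecb9f8_pr.TCex
import Pool.Agent.P.MP_ecb9f8_pr.Ext

open MeasureTheory ProbabilityTheory Set Filter

noncomputable section

namespace Pool.Agent.FPP

theorem PolyC_abs (N : Seminorm ℝ (ℝ × ℝ)) (hsym : ∀ (t : Fr) (v : ℝ × ℝ), N (fr t v) = N v)
    (v : ℝ × ℝ) : N (|v.1|, |v.2|) = N v := by
  rcases abs_choice v.1 with h1 | h1 <;> rcases abs_choice v.2 with h2 | h2 <;> rw [h1, h2]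
  exacts [hsym (false, false, true) v, hsym (false, true, false) v, hsym (false, true, true) v]

theorem exists_frameE (N : Seminorm ℝ (ℝ × ℝ))
    (hsym : ∀ (t : Fr) (v : ℝ × ℝ), N (fr t v) = N v) {φ : ℝ × ℝ} (h0 : φ ≠ 0)
    (h1 : ∀ v, lin φ v ≤ N v) :
    ∃ c₀ : ℝ, 0 < c₀ ∧ ∃ (t : Fr) (b : ℤ), ∀ c, 0 ≤ c → c ≤ c₀ → FrameE N c (fri t φ) b := by
  obtain ⟨t, e1, e2, e3⟩ := exists_frame φ
  have a1 : ∀ v, lin (fri t φ) v ≤ N v := fun v => by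
    rw [← lin_fr, ← hsym t v]
    exact h1 _
  have a2 : ∀ v : ℝ × ℝ, (fri t φ).1 * |v.1| + (fri t φ).2 * |v.2| ≤ N v := fun v =>
    (a1 (|v.1|, |v.2|)).trans_eq (PolyC_abs N hsym v)
  rcases e2.eq_or_lt with e4 | e4
  · refine ⟨(fri t φ).1, e1 ▸ norm_pos_iff.2 h0, t, 0, fun c hc hc' =>
      ⟨Or.inl rfl, a1, fun v => ?_⟩⟩
    have a3 : (fri t φ).1 * |v.2| + (fri t φ).2 * |v.1| ≤ N v :=
      (a2 (v.2, v.1)).trans_eq (hsym (true, false, false) v)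
    have a4 := a1 v
    rw [dev, if_pos rfl]
    rw [lin, ← e4] at a4 ⊢
    rw [← e4] at a3
    rcases le_total (|v.2| - v.1) 0 with h | h
    · linarith [mul_nonpos_of_nonneg_of_nonpos hc h]
    · linarith [mul_le_mul_of_nonneg_right hc' h]
  · refine ⟨(fri t φ).2, e4, t, 1, fun c hc hc' => ⟨Or.inr rfl, a1, fun v => ?_⟩⟩
    rw [dev, if_neg one_ne_zero, lin]
    linarith [a2 v, mul_le_mul_of_nonneg_right hc' (sub_nonneg.2 (le_abs_self v.2)),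
      mul_le_mul_of_nonneg_right (hc'.trans e3) (sub_nonneg.2 (le_abs_self v.1))]

theorem low_of_sym (N : Seminorm ℝ (ℝ × ℝ))
    (hsym : ∀ (t : Fr) (v : ℝ × ℝ), N (fr t v) = N v) (v : ℝ × ℝ) : N (1, 0) * ‖v‖ ≤ N v := by
  obtain ⟨t, e1, -, -⟩ := exists_frame v
  have a1 := map_add_le_add N (fri t v) (fr (false, false, true) (fri t v))
  have a2 : fri t v + fr (false, false, true) (fri t v) = (2 * ‖v‖) • ((1 : ℝ), (0 : ℝ)) := by
    ext <;> simp [fr, e1, two_mul]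
  rw [a2, hsym, sym_fri hsym, map_smul_eq_mul, Real.norm_of_nonneg (by positivity)] at a1
  linarith

/-- the time constant is positive -/
theorem tc_pos (G : Measure ℝ) [IsProbabilityMeasure G] (hG : Law G) {N : Seminorm ℝ (ℝ × ℝ)}
    (hN : IsTC G N) : 0 < N (1, 0) := by
  obtain ⟨Λ, β, hΛ, hβ, h⟩ := len_pt G hG
  have hΛ' : (0 : ℝ) < Λ := by exact_mod_cast (by omega : 0 < Λ)
  have hβ' : (0 : ℝ) < β := by exact_mod_cast hβ
  have key : ∀ K : ℕ, 2 ≤ K →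
      (β : ℝ) / (2 * Λ) ≤ g G ((Λ * K) • ((1, 0) : V)) / ((Λ * K : ℕ) : ℝ) := by
    intro K hK
    have hK' : (0 : ℝ) < K := by exact_mod_cast (by omega : 0 < K)
    have a1 := mul_meas_ge_le_integral_of_nonneg
      (ae_of_all _ fun ω => d_nonneg ω 0 ((Λ * K) • ((1, 0) : V))) (integrable_d G hG _ _)
      ((β : ℝ) * K)
    have a2 : {ω | (β : ℝ) * K ≤ d ω 0 ((Λ * K) • ((1, 0) : V))}ᶜ ⊆
        {ω | ¬ LenOK ω 0 0 (Λ * K) ((β : ℝ) * K)} := fun ω h1 h2 => h1 (le_d ω fun p k hp p0 pk => by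
      obtain ⟨q, l, -, c1, c2, c3, c4, c5⟩ := exists_SA ω hp
      have c6 := c1.nm_le (Nat.zero_le l) le_rfl
      rw [c3, c4, p0, pk, sub_zero, NRF_nm] at c6
      refine (h2.2 q l c1 c2 (c3.trans p0) ?_).le.trans c5
      rw [show nm (1, 0) = 1 by simp [nm]] at c6
      omega)
    have a3 : 2 * ((2 : ℝ) ^ K)⁻¹ ≤ 1 / 2 := by
      have := inv_anti₀ (by positivity) (pow_le_pow_right₀ (one_le_two (α := ℝ)) hK)
      linarith
    have a4 := ENNReal.toReal_le_of_le_ofReal (by norm_num) (((measure_mono a2).trans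
      (h K 0 0 (by simp [nm]))).trans (ENNReal.ofReal_le_ofReal a3))
    rw [← measureReal_def, probReal_compl_eq_one_sub
      (measurableSet_le measurable_const (measurable_d _ _))] at a4
    have a5 := mul_le_mul_of_nonneg_left (sub_le_comm.1 a4) (mul_pos hβ' hK').le
    rw [le_div_iff₀ (by positivity)]
    refine le_trans (le_of_eq ?_) (a5.trans a1)
    push_cast
    field_simp
    norm_num
  have hl := (hN (1, 0)).comp (tendsto_id.const_mul_atTop' (by omega : 0 < Λ))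
  have e : rv (1, 0) = (1, 0) := by simp [rv]
  exact lt_of_lt_of_le (by positivity) (e ▸ ge_of_tendsto hl (eventually_atTop.2 ⟨2, key⟩))

theorem exists_poly (G : Measure ℝ) [IsProbabilityMeasure G] (hG : Law G)
    {N : Seminorm ℝ (ℝ × ℝ)} (hN : IsTC G N)
    (hfin : (extremePoints ℝ (N.closedBall 0 1)).Finite) :
    ∃ (Kc : Finset ℝ) (Φ : Finset (ℝ × ℝ)) (c : ℝ), Poly N Kc Φ c := by
  have hsym := sym_of_refl_swap N (tc_refl G hN) (tc_swap G hN)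
  have h0 := tc_pos G hG hN
  have hpos := pos_of_symm N (tc_refl G hN) (tc_swap G hN) h0
  obtain ⟨Φ, f1, f2⟩ := exists_faces N hpos hfin
  obtain ⟨Kc, c₁, hc₁, k1, k2⟩ := exists_corners N hpos hsym (fun φ hφ => (f1 φ hφ).2) f2
  have ev : ∀ a : ℝ, 0 < a → ∀ᶠ c in nhdsWithin 0 (Ioi 0), 0 < c ∧ c ≤ a := fun a ha =>
    Ioc_mem_nhdsGT ha
  have e1 : ∀ᶠ c in nhdsWithin 0 (Ioi (0 : ℝ)), ∀ φ ∈ Φ, ∀ φ' ∈ Φ, φ ≠ φ' → c ≤ ‖φ - φ'‖ := by
    refine (Φ.eventually_all).2 fun φ _ => (Φ.eventually_all).2 fun φ' _ => ?_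
    rcases eq_or_ne φ φ' with h | h
    · exact Eventually.of_forall fun _ h' => absurd h h'
    · exact (ev _ (norm_pos_iff.2 (sub_ne_zero.2 h))).mono fun c hc _ => hc.2
  have e2 : ∀ᶠ c in nhdsWithin 0 (Ioi (0 : ℝ)), ∀ φ ∈ Φ,
      ∃ (t : Fr) (b : ℤ), FrameE N c (fri t φ) b := by
    refine (Φ.eventually_all).2 fun φ hφ => ?_
    obtain ⟨c₀, hc₀, t, b, h⟩ := exists_frameE N hsym (f1 φ hφ).1 (f1 φ hφ).2
    exact (ev _ hc₀).mono fun c hc => ⟨t, b, h c hc.1.le hc.2⟩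
  obtain ⟨c, a1, a2, a3, a4⟩ := ((ev _ h0).and ((ev _ hc₁).and (e1.and e2))).exists
  exact ⟨Kc, Φ, c, a1.1, hsym, a1.2, low_of_sym N hsym,
    fun κ hκ => (k1 κ hκ).imp fun φ h => h.mono a2.2, k2, a3, a4⟩

end Pool.Agent.FPP
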