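import Pool.Agent.P.MP_ecb9f8_pr.Main2
import Pool.Agent.P.MP_ecb9f8_pr.PolyC
import Pool.Agent.P.MP_ecb9f8_pr.Final

open MeasureTheory ProbabilityTheory Filter

namespace Pool.Agent.FPP

theorem Far.mono {n h R R' : ℕ} {ω : Env} (H : Far n h R ω) (hR : R' ≤ R) : Far n h R' ω := by
  obtain ⟨p, k, q, l, hp, hq, p0, q0, pk, ql, h1⟩ := H
  exact ⟨p, k, q, l, hp, hq, p0, q0, pk, ql, le_trans hR h1⟩

/-- the bound for every admissible law -/
theorem far_all3 (G : Measure ℝ) [IsProbabilityMeasure G] (hG : Law G) :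
    ∃ C : ℝ, 0 < C ∧ ∀ n h : ℕ, 0 < h →
      PP G {ω | Far n h (h ^ expA) ω} ≤ ENNReal.ofReal (C * (h : ℝ)⁻¹) := by
  obtain ⟨N, hN⟩ := exists_tc G hG
  by_cases hfin : (Set.extremePoints ℝ (N.closedBall 0 1)).Finite
  · obtain ⟨Kc, Φ, c, hP⟩ := exists_poly G hG hN hfin
    exact far_all2 G hG hN hP
  · have hK : (3000 : ℕ∞) ≤ (Set.extremePoints ℝ (N.closedBall 0 1)).encard := by
      rw [Set.Infinite.encard_eq hfin]
      exact le_top
    obtain ⟨c, σ, hc⟩ := cone_of_sides N (tc_refl G hN) (tc_swap G hN) hK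
    obtain ⟨C, hC, hfar⟩ := far_all G hG hN hc
    refine ⟨C, hC, fun n h hh => le_trans (measure_mono fun ω hω => ?_) (hfar n h hh)⟩
    exact Far.mono hω (Nat.pow_le_pow_right hh (by unfold expA; norm_num))

theorem final3 :
    ∃ α₁ α₂ : ℝ, 0 < α₁ ∧ 0 < α₂ ∧
      ∀ G : Measure ℝ, IsProbabilityMeasure G → G (Set.Iio 0) = 0 →
        (∃ a : ℝ, 0 < a ∧ Integrable (fun x : ℝ => Real.exp (a * x)) G) →
        G ≪ volume →
        ∃ C : ℝ, 0 < C ∧
          ∀ (Ω : Type) [MeasureSpace Ω] [IsProbabilityMeasure (volume : Measure Ω)]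
            (t : Sym2 (ℤ × ℤ) → Ω → ℝ),
            (∀ e, Measurable (t e)) →
            iIndepFun t (μ := (volume : Measure Ω)) →
            (∀ e, Measure.map (t e) (volume : Measure Ω) = G) →
            ∀ n h : ℕ, 0 < n → 0 < h →
              (volume : Measure Ω)
                {ω | ∃ p : (SimpleGraph.boxProd (SimpleGraph.hasse ℤ) (SimpleGraph.hasse ℤ)).Walk
                        ((0 : ℤ), (0 : ℤ)) ((n : ℤ), (0 : ℤ)),
                      ∃ q : (SimpleGraph.boxProd (SimpleGraph.hasse ℤ) (SimpleGraph.hasse ℤ)).Walk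
                        ((0 : ℤ), (0 : ℤ)) ((n : ℤ), (h : ℤ)),
                      (∀ p' : (SimpleGraph.boxProd (SimpleGraph.hasse ℤ) (SimpleGraph.hasse ℤ)).Walk
                          ((0 : ℤ), (0 : ℤ)) ((n : ℤ), (0 : ℤ)),
                        (p.edges.map (fun e => t e ω)).sum ≤ (p'.edges.map (fun e => t e ω)).sum) ∧
                      (∀ q' : (SimpleGraph.boxProd (SimpleGraph.hasse ℤ) (SimpleGraph.hasse ℤ)).Walk
                          ((0 : ℤ), (0 : ℤ)) ((n : ℤ), (h : ℤ)),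
                        (q.edges.map (fun e => t e ω)).sum ≤ (q'.edges.map (fun e => t e ω)).sum) ∧
                      (h : ℝ) ^ α₁ ≤ ((symmDiff p.edges.toFinset q.edges.toFinset).card : ℝ)}
                ≤ ENNReal.ofReal (C * (h : ℝ) ^ (-α₂)) := by
  refine ⟨((expA : ℕ) : ℝ), 1, Nat.cast_pos.2 (by unfold expA; norm_num), one_pos, ?_⟩
  intro G hG1 hG2 hG3 hG4
  have hG : Law G := ⟨hG2, hG3, hG4⟩
  obtain ⟨C, hC, hfar⟩ := far_all3 G hG
  refine ⟨C, hC, fun Ω _ _ t hm hi hl n h _ hh => ?_⟩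
  have hX : Measurable (fun ω e => t e ω : Ω → Env) := measurable_pi_lambda _ hm
  have hmap := law_map hm hi hl
  have hpos : ∀ᵐ ω ∂(volume : Measure Ω), ∀ e, 0 < t e ω := by
    have := ae_pos G hG
    rw [← hmap] at this
    exact ae_of_ae_map hX.aemeasurable this
  have h1 := hfar n h hh
  rw [← hmap] at h1
  have h2 := le_trans (Measure.le_map_apply hX.aemeasurable _) h1
  rw [Real.rpow_neg_one]
  refine le_trans (measure_mono_ae ?_) h2
  filter_upwards [hpos] with ω hω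
  rintro ⟨p, q, hp, hq, hR⟩
  refine far_of_walks (ω := fun e => t e ω) (fun e => (hω e).le) p q hp hq ?_
  rw [Real.rpow_natCast] at hR
  exact_mod_cast hR

end Pool.Agent.FPP
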