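import Pool.Agent.P.MP_ecb9f8_pr.MW1

open MeasureTheory ProbabilityTheory Set Filter

noncomputable section

namespace Pool.Agent.FPP

theorem MW2_lint {f Φ : ℝ → ℝ} {b : ℝ} (hb : 0 ≤ b) (hd : ∀ u ∈ Icc 0 b, HasDerivAt Φ (f u) u)
    (hc : ContinuousOn f (Icc 0 b)) (hn : ∀ u ∈ Icc 0 b, 0 ≤ f u) :
    ∫⁻ u in Icc 0 b, ENNReal.ofReal (f u) = ENNReal.ofReal (Φ b - Φ 0) := by
  rw [← ofReal_integral_eq_lintegral_ofReal hc.integrableOn_Icc
    (ae_restrict_of_forall_mem measurableSet_Icc hn), integral_Icc_eq_integral_Ioc,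
    ← intervalIntegral.integral_of_le hb,
    intervalIntegral.integral_eq_sub_of_hasDerivAt (by rwa [uIcc_of_le hb])
      (ContinuousOn.intervalIntegrable (by rwa [uIcc_of_le hb]))]

theorem MW2_quant (G : Measure ℝ) [IsProbabilityMeasure G] {v : ℝ} (h0 : 0 < v) (h1 : v < 1)
    (x : ℝ) : sInf {y | v ≤ cdf G y} ≤ x ↔ v ≤ cdf G x := by
  have hm := monotone_cdf G
  obtain ⟨a, ha⟩ := ((tendsto_cdf_atBot G).eventually (gt_mem_nhds h0)).exists
  obtain ⟨b, hb⟩ := ((tendsto_cdf_atTop G).eventually (lt_mem_nhds h1)).exists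
  have hbd : BddBelow {y | v ≤ cdf G y} :=
    ⟨a, fun y hy => le_of_not_gt fun h => (ha.trans_le hy).not_ge (hm h.le)⟩
  refine ⟨fun h => le_trans ?_ (hm h), fun h => csInf_le hbd h⟩
  have hr := ((cdf G).right_continuous (sInf {y | v ≤ cdf G y})).mono Ioi_subset_Ici_self
  refine ge_of_tendsto hr.tendsto (eventually_nhdsWithin_of_forall fun y hy => ?_)
  obtain ⟨z, hz, hzy⟩ := exists_lt_of_csInf_lt (s := {y | v ≤ cdf G y}) ⟨b, hb.le⟩ hy
  exact le_trans hz (hm hzy.le)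

theorem MW2_level {τ w : ℝ} (h0 : 0 < τ) (h1 : τ ≤ 1 / 2) (hw0 : 0 ≤ w) (hw1 : w ≤ 1) :
    ∫⁻ u in {u : ℝ | u + τ * u * (1 - u) ≤ w} ∩ Icc 0 1, ENNReal.ofReal (1 + τ * (1 - 2 * u)) =
      ENNReal.ofReal w := by
  obtain ⟨b, hb, hbw⟩ := intermediate_value_Icc (f := fun u : ℝ => u + τ * u * (1 - u))
    zero_le_one (by fun_prop) (show w ∈ Icc _ _ from ⟨by simpa using hw0, by simpa using hw1⟩)
  have e : {u : ℝ | u + τ * u * (1 - u) ≤ w} ∩ Icc 0 1 = Icc 0 b := by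
    ext u
    simp only [mem_inter_iff, mem_setOf_eq, mem_Icc, ← hbw]
    have key : ∀ s t : ℝ, s ≤ 1 → t ≤ 1 → 0 ≤ s → 0 ≤ t → 0 < 1 + τ * (1 - s - t) :=
      fun s t _ _ _ _ => by nlinarith
    constructor
    · rintro ⟨h, h2, h3⟩
      refine ⟨h2, le_of_not_gt fun h4 => ?_⟩
      nlinarith [mul_pos (sub_pos.2 h4) (key u b h3 hb.2 h2 hb.1)]
    · rintro ⟨h2, h3⟩
      refine ⟨?_, h2, h3.trans hb.2⟩
      nlinarith [mul_nonneg (sub_nonneg.2 h3) (key u b (h3.trans hb.2) hb.2 h2 hb.1).le]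
  rw [e, MW2_lint (Φ := fun u : ℝ => u + τ * u * (1 - u)) hb.1 (fun u _ => ?_) (by fun_prop)
    fun u hu => by nlinarith [hu.1, hu.2, hb.2]]
  · simp only at hbw
    simp [hbw]
  · refine ((hasDerivAt_id' u).fun_add (((hasDerivAt_id' u).const_mul τ).fun_mul
      ((hasDerivAt_id' u).const_sub 1))).congr_deriv ?_
    ring

theorem MW2_sq {τ : ℝ} (h0 : 0 < τ) (h1 : τ ≤ 1 / 2) :
    ∫⁻ u in Icc (0 : ℝ) 1, ENNReal.ofReal (((1 + τ * (1 - 2 * u)) ^ 2)⁻¹) ≤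
      ENNReal.ofReal (1 + 2 * τ ^ 2) := by
  have hp : ∀ u ∈ Icc (0 : ℝ) 1, 0 < 1 + τ * (1 - 2 * u) := fun u hu => by nlinarith [hu.1, hu.2]
  rw [MW2_lint (f := fun u : ℝ => ((1 + τ * (1 - 2 * u)) ^ 2)⁻¹)
    (Φ := fun u : ℝ => (2 * τ)⁻¹ * (1 + τ * (1 - 2 * u))⁻¹) zero_le_one (fun u hu => ?_)
    (ContinuousOn.inv₀ (by fun_prop) fun u hu => (pow_pos (hp u hu) 2).ne')
    fun u _ => by positivity]
  · refine ENNReal.ofReal_le_ofReal ?_
    have h2 : 0 < 1 - τ := by linarith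
    have h3 : 0 < 1 + τ := by linarith
    have e : (2 * τ)⁻¹ * (1 + τ * (1 - 2 * 1))⁻¹ - (2 * τ)⁻¹ * (1 + τ * (1 - 2 * 0))⁻¹ =
        1 / ((1 - τ) * (1 + τ)) := by
      rw [show 1 + τ * (1 - 2 * 1) = 1 - τ by ring, show 1 + τ * (1 - 2 * 0) = 1 + τ by ring]
      field_simp
      ring
    rw [e, div_le_iff₀ (mul_pos h2 h3)]
    have h4 : τ ^ 2 ≤ 1 / 4 := by nlinarith
    nlinarith [mul_nonneg (sq_nonneg τ) (sub_nonneg.2 h4)]
  · have h2 := hp u hu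
    refine ((((((hasDerivAt_id' u).const_mul 2).const_sub 1).const_mul τ).const_add 1).fun_inv
      h2.ne').const_mul (2 * τ)⁻¹ |>.congr_deriv ?_
    field_simp

theorem exists_tilt (G : Measure ℝ) [IsProbabilityMeasure G] (hG : G ≪ volume)
    (h0 : G (Iio 0) = 0) {ε : ℝ} (hε : 0 < ε) :
    ∃ (Sg : Set ℝ) (δ : ℝ), MeasurableSet Sg ∧ Sg ⊆ Ici 0 ∧ G Sgᶜ ≤ ENNReal.ofReal ε ∧ 0 < δ ∧
      ∀ τ : ℝ, 0 < τ → τ ≤ 1 / 2 → ∃ θ J : ℝ → ℝ, Tilt G Sg δ τ θ J := by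
  classical
  obtain ⟨Sg, D, η, hS, hS0, hSε, hD, hη, hg⟩ := exists_good_set G hG h0 hε
  refine ⟨Sg, min 1 (η ^ 2 / (2 * D)), hS, hS0, hSε, lt_min one_pos (by positivity),
    fun τ t0 t1 => ?_⟩
  have hU := map_cdf_uniform G hG
  have mF : Measurable (cdf G) := (monotone_cdf G).measurable
  obtain ⟨θ, hθ⟩ : ∃ θ : ℝ → ℝ, θ = fun x => if 0 < cdf G x ∧ cdf G x < 1 then
      sInf {y | cdf G x + τ * cdf G x * (1 - cdf G x) ≤ cdf G y} else x := ⟨_, rfl⟩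
  have h1 : ∀ x, 0 < cdf G x → cdf G x < 1 → ∀ c,
      θ x ≤ c ↔ cdf G x + τ * cdf G x * (1 - cdf G x) ≤ cdf G c := fun x a b c => by
    have h2 : 0 < τ * cdf G x * (1 - cdf G x) := mul_pos (mul_pos t0 a) (sub_pos.2 b)
    have h3 : 0 < (1 - cdf G x) * (1 - τ * cdf G x) := mul_pos (sub_pos.2 b) (by nlinarith)
    rw [hθ]
    simp only [if_pos (And.intro a b)]
    exact MW2_quant G (by linarith) (by linarith) c
  have h2 : ∀ x, ¬(0 < cdf G x ∧ cdf G x < 1) → θ x = x := fun x hx => by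
    rw [hθ]
    exact if_neg hx
  have mψ : Measurable fun u : ℝ => u + τ * u * (1 - u) := by fun_prop
  have mθ : Measurable θ := measurable_of_Iic fun c => by
    have e : θ ⁻¹' Iic c = (cdf G ⁻¹' Ioo 0 1 ∩ cdf G ⁻¹' {u | u + τ * u * (1 - u) ≤ cdf G c}) ∪
        ((cdf G ⁻¹' Ioo 0 1)ᶜ ∩ Iic c) := by
      ext x
      by_cases hx : 0 < cdf G x ∧ cdf G x < 1
      · simp [h1 x hx.1 hx.2, hx]
      · simp only [mem_preimage, mem_Iic, h2 x hx, mem_union, mem_inter_iff, mem_Ioo, hx,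
          false_and, mem_compl_iff, not_false_eq_true, true_and, false_or]
    rw [e]
    exact ((mF measurableSet_Ioo).inter (mF (measurableSet_le mψ measurable_const))).union
      ((mF measurableSet_Ioo).compl.inter measurableSet_Iic)
  have mJ : Measurable fun u : ℝ => ENNReal.ofReal (1 + τ * (1 - 2 * u)) := by fun_prop
  refine ⟨θ, fun x => 1 + τ * (1 - 2 * cdf G x), mθ, by fun_prop, fun x => ?_, fun x => ?_,
    fun x hx => ?_, ?_, ?_⟩
  · nlinarith [cdf_nonneg G x, cdf_le_one G x]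
  · by_cases hx : 0 < cdf G x ∧ cdf G x < 1
    · refine le_of_not_gt fun h => ?_
      have h3 := (h1 x hx.1 hx.2 x).1 h.le
      have h4 := mul_pos (mul_pos t0 hx.1) (sub_pos.2 hx.2)
      linarith
    · exact (h2 x hx).ge
  · obtain ⟨g1, g2, g3⟩ := hg x hx
    refine le_of_not_gt fun h => ?_
    have h3 := (h1 x (by linarith) (by linarith) _).1 h.le
    have h4 : 0 < min 1 (η ^ 2 / (2 * D)) := lt_min one_pos (by positivity)
    have h5 := g3 _ (mul_pos h4 t0) (mul_le_one₀ (min_le_left _ _) t0.le (by linarith))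
    have h6 : D * min 1 (η ^ 2 / (2 * D)) ≤ η ^ 2 / 2 := by
      refine (mul_le_mul_of_nonneg_left (min_le_right _ _) hD.le).trans (le_of_eq ?_)
      field_simp
    have h7 : η * η ≤ cdf G x * (1 - cdf G x) :=
      mul_le_mul g1 (by linarith) hη.le (by linarith)
    have h8 := mul_le_mul_of_nonneg_right h6 t0.le
    have h9 := mul_le_mul_of_nonneg_left h7 t0.le
    have h10 := mul_pos t0 (mul_pos hη hη)
    nlinarith
  · refine (Measure.ext_of_Iic G _ fun c => ?_).symm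
    have mL : MeasurableSet {u : ℝ | u + τ * u * (1 - u) ≤ cdf G c} :=
      measurableSet_le mψ measurable_const
    have hae : ∀ᵐ x ∂G, cdf G x ∈ Ioo (0 : ℝ) 1 := by
      refine ae_of_ae_map mF.aemeasurable (p := fun u => u ∈ Ioo (0 : ℝ) 1) ?_
      rw [hU, ← Measure.restrict_congr_set Ioo_ae_eq_Icc]
      exact ae_restrict_mem measurableSet_Ioo
    have e : (θ ⁻¹' Iic c : Set ℝ) =ᵐ[G]
        (cdf G ⁻¹' {u : ℝ | u + τ * u * (1 - u) ≤ cdf G c} : Set ℝ) := by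
      filter_upwards [hae] with x hx using propext (h1 x hx.1 hx.2 c)
    rw [Measure.map_apply mθ measurableSet_Iic, withDensity_apply _ (mθ measurableSet_Iic),
      setLIntegral_congr e, ← setLIntegral_map mL mJ mF, hU, Measure.restrict_restrict mL,
      MW2_level t0 t1 (cdf_nonneg G c) (cdf_le_one G c), ofReal_cdf]
  · have mK : Measurable fun u : ℝ => ENNReal.ofReal (((1 + τ * (1 - 2 * u)) ^ 2)⁻¹) := by fun_prop
    rw [← lintegral_map mK mF, hU]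
    exact MW2_sq t0 t1

end Pool.Agent.FPP
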