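import Pool.Agent.P.MP_ecb9f8_pr.MW1
import Pool.Agent.P.MP_ecb9f8_pr.Indep

open MeasureTheory ProbabilityTheory Set Filter

noncomputable section

namespace Pool.Agent.FPP

theorem MW3_one (G : Measure ℝ) [IsProbabilityMeasure G] {θ : ℝ → ℝ} {j : ℝ → ENNReal}
    (mθ : Measurable θ) (mj : Measurable j) (h : (G.withDensity j).map θ = G) (a : E)
    {f : Env → ENNReal} (mf : Measurable f) :
    ∫⁻ ω, j (ω a) * f (Function.update ω a (θ (ω a))) ∂(PP G) = ∫⁻ ω, f ω ∂(PP G) := by
  have mu := (mp_upd G a).measurable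
  have m1 : Measurable fun ω : Env => j (ω a) * f (Function.update ω a (θ (ω a))) :=
    (mj.comp (measurable_pi_apply a)).mul
      (mf.comp (mu.comp (measurable_id.prodMk (mθ.comp (measurable_pi_apply a)))))
  rw [← (mp_upd G a).lintegral_comp m1, ← (mp_upd G a).lintegral_comp mf]
  refine (lintegral_prod _ (m1.comp mu).aemeasurable).trans
    (Eq.trans ?_ (lintegral_prod _ (mf.comp mu).aemeasurable).symm)
  refine lintegral_congr fun ω => ?_
  have m2 : Measurable fun y : ℝ => f (Function.update ω a y) :=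
    mf.comp (mu.comp (measurable_const.prodMk measurable_id))
  simp only [Function.comp, Function.update_self, Function.update_idem]
  conv_rhs => rw [← h]
  rw [lintegral_map m2 mθ]
  exact (lintegral_withDensity_eq_lintegral_mul _ mj (m2.comp mθ)).symm

open Classical in
theorem MW3_meas {θ : ℝ → ℝ} (mθ : Measurable θ) (S : Finset E) :
    Measurable fun (ω : Env) (e : E) => if e ∈ S then θ (ω e) else ω e :=
  measurable_pi_lambda _ fun e => by
    split_ifs
    · exact mθ.comp (measurable_pi_apply e)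
    · exact measurable_pi_apply e

open Classical in
theorem MW3_key (G : Measure ℝ) [IsProbabilityMeasure G] {θ : ℝ → ℝ} {j : ℝ → ENNReal}
    (mθ : Measurable θ) (mj : Measurable j) (h : (G.withDensity j).map θ = G) (S : Finset E)
    {f : Env → ENNReal} (mf : Measurable f) :
    ∫⁻ ω, (∏ e ∈ S, j (ω e)) * f (fun e => if e ∈ S then θ (ω e) else ω e) ∂(PP G) =
      ∫⁻ ω, f ω ∂(PP G) := by
  induction S using Finset.induction_on with
  | empty => simp
  | insert a S ha ih =>
    have m1 : Measurable fun ω : Env =>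
        (∏ e ∈ S, j (ω e)) * f fun e => if e ∈ S then θ (ω e) else ω e :=
      (Finset.measurable_prod S fun e _ => mj.comp (measurable_pi_apply e)).mul
        (mf.comp (MW3_meas mθ S))
    rw [← ih, ← MW3_one G mθ mj h a m1]
    refine lintegral_congr fun ω => ?_
    have e1 : ∀ e ∈ S, Function.update ω a (θ (ω a)) e = ω e := fun e he =>
      Function.update_of_ne (ne_of_mem_of_not_mem he ha) _ _
    rw [Finset.prod_insert ha, mul_assoc]
    refine congrArg _ (congrArg₂ _ (Finset.prod_congr rfl fun e he => by rw [e1 e he])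
      (congrArg f (funext fun e => ?_)))
    by_cases h1 : e ∈ S
    · rw [if_pos h1, if_pos (Finset.mem_insert_of_mem h1), e1 e h1]
    rw [if_neg h1]
    by_cases h2 : e = a
    · rw [h2, if_pos (Finset.mem_insert_self _ _), Function.update_self]
    · rw [if_neg (by simp [h1, h2]), Function.update_of_ne h2]

open Classical in
/-- Mermin-Wagner estimate -/
theorem mw_prod (G : Measure ℝ) [IsProbabilityMeasure G] {Sg : Set ℝ} {δ τ : ℝ} {θ J : ℝ → ℝ}
    (h : Tilt G Sg δ τ θ J) (S : Finset E) {A B : Set Env} (mB : MeasurableSet B)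
    (hAB : ∀ ω ∈ A, (fun e => if e ∈ S then θ (ω e) else ω e) ∈ B) :
    PP G A ^ 3 ≤ PP G B ^ 2 * ENNReal.ofReal (1 + 2 * τ ^ 2) ^ S.card := by
  obtain ⟨mθ, mJ, hJ, -, -, hm, hi⟩ := h
  have mj : Measurable fun x => ENNReal.ofReal (J x) := mJ.ennreal_ofReal
  have mq : Measurable fun x => ENNReal.ofReal (J x ^ 2)⁻¹ := (mJ.pow_const 2).inv.ennreal_ofReal
  have mf : Measurable (B.indicator (1 : Env → ENNReal)) := measurable_one.indicator mB
  have h1 := ENNReal.lintegral_mul_norm_pow_le (μ := PP G)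
    (f := fun ω => (∏ e ∈ S, ENNReal.ofReal (J (ω e))) *
      B.indicator 1 fun e => if e ∈ S then θ (ω e) else ω e)
    (g := fun ω => ∏ e ∈ S, ENNReal.ofReal (J (ω e) ^ 2)⁻¹)
    ((Finset.measurable_prod S fun e _ => mj.comp (measurable_pi_apply e)).mul
      (mf.comp (MW3_meas mθ S))).aemeasurable
    (Finset.measurable_prod S fun e _ => mq.comp (measurable_pi_apply e)).aemeasurable
    (p := 2 / 3) (q := 1 / 3) (by norm_num) (by norm_num) (by norm_num)
  rw [MW3_key G mθ mj hm S mf, lintegral_prod_edges G S mq, lintegral_indicator_one mB] at h1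
  have h2 : PP G A ≤ PP G B ^ (2 / 3 : ℝ) *
      ((∫⁻ x, ENNReal.ofReal (J x ^ 2)⁻¹ ∂G) ^ S.card) ^ (1 / 3 : ℝ) := by
    refine le_trans ?_ h1
    refine (measure_mono (t := (fun (ω : Env) (e : E) => if e ∈ S then θ (ω e) else ω e) ⁻¹' B)
      hAB).trans ?_
    rw [← lintegral_indicator_one (MW3_meas mθ S mB)]
    refine lintegral_mono fun ω => Set.indicator_apply_le' (fun hω => le_of_eq ?_) fun _ => zero_le
    rw [Set.indicator_of_mem (Set.mem_preimage.1 hω), Pi.one_apply, Pi.one_apply, mul_one,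
      show (2 / 3 : ℝ) = (2 : ℕ) * (1 / 3) by norm_num, ENNReal.rpow_mul, ENNReal.rpow_natCast,
      ← ENNReal.mul_rpow_of_nonneg _ _ (by norm_num), ← Finset.prod_pow, ← Finset.prod_mul_distrib,
      Finset.prod_eq_one, ENNReal.one_rpow]
    intro e _
    rw [← ENNReal.ofReal_pow (hJ _).le, ← ENNReal.ofReal_mul (sq_nonneg _),
      mul_inv_cancel₀ (pow_pos (hJ _) 2).ne', ENNReal.ofReal_one]
  refine (pow_le_pow_left' h2 3).trans ?_
  rw [mul_pow, ← ENNReal.rpow_natCast _ 3, ← ENNReal.rpow_natCast _ 3, ← ENNReal.rpow_mul,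
    ← ENNReal.rpow_mul, show (2 / 3 * (3 : ℕ) : ℝ) = (2 : ℕ) by norm_num,
    show (1 / 3 * (3 : ℕ) : ℝ) = 1 by norm_num, ENNReal.rpow_natCast, ENNReal.rpow_one]
  exact mul_le_mul_right (pow_le_pow_left' hi _) _

end Pool.Agent.FPP
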