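import Pool.Agent.P.MP_ecb9f8_pr.Events
import Pool.Agent.P.MP_ecb9f8_pr.MW2
import Pool.Agent.P.MP_ecb9f8_pr.MW3

open MeasureTheory ProbabilityTheory Set Filter

noncomputable section

namespace Pool.Agent.FPP

open Classical in
theorem Fresh1_gain {Sg Bd : Set ℝ} (hB : Bd = Sgᶜ) (hS : Sg ⊆ Ici 0) {θ : ℝ → ℝ} {γ : ℝ} (hγ : 0 ≤ γ)
    (h1 : ∀ x, x ≤ θ x) (h2 : ∀ x ∈ Sg, x + γ ≤ θ x) (T : Finset E) (ω : Env) (q : ℕ → V) (l : ℕ) :
    W ω q 0 l + γ * (((Finset.range l).filter (fun j => ed q j ∈ T)).card -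
      ((Finset.range l).filter (fun j => ω (ed q j) ∈ Bd)).card) ≤
        W (fun e => if e ∈ T then θ (ω e) else ω e) q 0 l := by
  rw [W_range, W_range, Finset.card_filter, Finset.card_filter]
  push_cast
  rw [← Finset.sum_sub_distrib, Finset.mul_sum, ← Finset.sum_add_distrib]
  refine Finset.sum_le_sum fun j _ => ?_
  simp only [wt]
  by_cases a : ed q j ∈ T
  · by_cases b : ω (ed q j) ∈ Sg
    · have := h2 _ b
      have h0 : 0 ≤ ω (ed q j) := hS b
      have b' : ω (ed q j) ∉ Bd := by rw [hB]; exact fun h => h b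
      simp only [a, if_true, b', if_false, max_eq_left h0]
      linarith [le_max_left (θ (ω (ed q j))) 0]
    · have b' : ω (ed q j) ∈ Bd := by rw [hB]; exact b
      simp only [a, if_true, b', sub_self, mul_zero, add_zero]
      exact max_le_max (h1 _) le_rfl
  · simp only [a, if_false]
    split_ifs <;> nlinarith

theorem Fresh1_card (z : ℕ) (hz : 1 ≤ z) (f : ℤ → ℤ) (i : ℕ) :
    (Tube z f i).card ≤ 3 * z ^ 1000 := by
  classical
  have h1 : ∀ c : ℤ, (Finset.Icc (c - (z : ℤ) ^ 240) (c + (z : ℤ) ^ 240)).card ≤ 3 * z ^ 240 := by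
    intro c
    have : (1 : ℤ) ≤ (z : ℤ) ^ 240 := one_le_pow₀ (by exact_mod_cast hz)
    rw [Int.card_Icc, Int.toNat_le]
    push_cast
    linarith
  have h2 : (Finset.Ioc (bC z i) (aC z (i + 1))).card ≤ z ^ 760 := by
    have : (0 : ℤ) ≤ (z : ℤ) ^ 40 := by positivity
    rw [Int.card_Ioc, Int.toNat_le, bC, aC, aC]
    push_cast
    linarith
  unfold Tube
  refine (Finset.card_biUnion_le_card_mul _ _ (3 * z ^ 240)
    fun a _ => Finset.card_image_le.trans (h1 _)).trans ?_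
  calc _ ≤ z ^ 760 * (3 * z ^ 240) := Nat.mul_le_mul_right _ h2
    _ = 3 * z ^ 1000 := by ring

theorem Fresh1_two {z : ℝ} (hz : 4 ≤ z) {n : ℕ} (hn : (n : ℝ) ≤ 3 * z ^ 1000) :
    (1 + 2 * ((z ^ 501)⁻¹) ^ 2) ^ n ≤ 2 := by
  have h0 : 0 < z := by linarith
  have h1 : (1 + 2 * ((z ^ 501)⁻¹) ^ 2) ^ n ≤ Real.exp (2 * ((z ^ 501)⁻¹) ^ 2) ^ n :=
    pow_le_pow_left₀ (by positivity) (by linarith [Real.add_one_le_exp (2 * ((z ^ 501)⁻¹) ^ 2)]) n
  refine h1.trans ?_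
  rw [← Real.exp_nat_mul]
  have h2 : (n : ℝ) * (2 * ((z ^ 501)⁻¹) ^ 2) ≤ 1 / 2 := by
    have e : (3 * z ^ 1000) * (2 * ((z ^ 501)⁻¹) ^ 2) = 6 / z ^ 2 := by
      field_simp
      ring
    refine (mul_le_mul_of_nonneg_right hn (by positivity)).trans ?_
    rw [e, div_le_iff₀ (by positivity)]
    nlinarith
  refine (Real.exp_le_exp.2 h2).trans ?_
  have h3 : Real.exp (1 / 2) * Real.exp (1 / 2) = Real.exp 1 := by
    rw [← Real.exp_add]; norm_num
  nlinarith [Real.exp_one_lt_d9, Real.exp_pos (1 / 2)]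

theorem Fresh1_pc (L z : ℕ) (hz : 8 ≤ z) :
    (((L * z ^ 760 : ℕ) : ℝ) + 1) * 8 ^ (L * z ^ 760) / ((16 : ℝ) ^ (8 * L + 8)) ^ (z ^ 760 / 4) ≤
      1 * Real.exp (-(1 * z)) := by
  have hT : z ≤ z ^ 760 := Nat.le_self_pow (by norm_num) z
  generalize z ^ 760 = T at *
  have h1 : ((L * T : ℕ) : ℝ) + 1 ≤ 2 ^ (L * T) := by
    exact_mod_cast Nat.lt_two_pow_self
  have h2 : L * T + z ≤ (8 * L + 8) * (T / 4) := by
    have : T ≤ 8 * (T / 4) := by omega
    nlinarith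
  have h3 : Real.exp z ≤ 16 ^ z := by
    rw [← Real.exp_one_pow]
    exact pow_le_pow_left₀ (Real.exp_pos 1).le (by linarith [Real.exp_one_lt_d9]) z
  rw [one_mul, one_mul, Real.exp_neg, ← pow_mul, div_le_iff₀ (by positivity), inv_mul_eq_div,
    le_div_iff₀ (Real.exp_pos _)]
  calc _ ≤ 2 ^ (L * T) * 8 ^ (L * T) * (16 : ℝ) ^ z := by gcongr
    _ = 16 ^ (L * T + z) := by rw [← mul_pow, pow_add]; norm_num
    _ ≤ _ := pow_le_pow_right₀ (by norm_num) h2

theorem Fresh1_col (G : Measure ℝ) [IsProbabilityMeasure G] (hG : Law G) :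
    ∀ᶠ z : ℕ in atTop, ∀ (x : V) (y : ℤ), |y| ≤ (z : ℤ) ^ 240 →
      PP G {ω | (z : ℝ) ^ 241 < d ω x (x.1, x.2 + y)} ≤ ENNReal.ofReal (((z : ℝ) ^ 441)⁻¹) := by
  obtain ⟨c, C, hc, -, h⟩ := conc G hG
  obtain ⟨M, hM, -, hg⟩ := moment_d G hG
  filter_upwards [ev_exp hc C 441, eventually_ge_atTop 1,
    tendsto_natCast_atTop_atTop.eventually_ge_atTop (M + 1)] with z h1 hz hz' x y hy
  have hz1 : (1 : ℝ) ≤ z := by exact_mod_cast hz
  have hn : nm ((x.1, x.2 + y) - x) ≤ (z : ℤ) ^ 240 := by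
    simp [nm, hy]
  refine le_trans (measure_mono ?_) ((h (z ^ 120) x (x.1, x.2 + y) ?_ z (by positivity) ?_).trans
    (ENNReal.ofReal_le_ofReal h1))
  · intro ω hω
    simp only [mem_ofPred_eq] at hω ⊢
    have h2 := hg ((x.1, x.2 + y) - x)
    have h3 : (nm ((x.1, x.2 + y) - x) : ℝ) ≤ (z : ℝ) ^ 240 := by exact_mod_cast hn
    have h4 : (z : ℝ) * z ^ 120 ≤ z ^ 240 := by
      rw [← pow_succ']; exact pow_le_pow_right₀ hz1 (by norm_num)
    have h5 : (z : ℝ) ^ 241 = z * z ^ 240 := by ring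
    have h6 : (0 : ℝ) ≤ (z : ℝ) ^ 240 := by positivity
    refine lt_of_lt_of_le ?_ (le_abs_self _)
    push_cast
    generalize (z : ℝ) ^ 240 = A at *
    generalize (z : ℝ) ^ 120 = B at *
    generalize (z : ℝ) ^ 241 = D at *
    nlinarith [mul_le_mul_of_nonneg_left h3 (by linarith : 0 ≤ M)]
  · refine hn.trans (le_of_eq ?_)
    push_cast
    ring
  · push_cast
    exact le_self_pow₀ hz1 (by norm_num)

theorem Fresh1_num {z δ : ℝ} (hz : 1 ≤ z) (hδ : 20 ≤ δ * z) :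
    z ^ 256 + 4 * z ^ 241 ≤ δ * (z ^ 501)⁻¹ * (z ^ 760 / 4) := by
  have h0 : 0 < z := by linarith
  have e : δ * (z ^ 501)⁻¹ * (z ^ 760 / 4) = δ * z / 4 * z ^ 258 := by
    field_simp
  have h1 : z ^ 256 ≤ z ^ 258 := pow_le_pow_right₀ hz (by norm_num)
  have h2 : z ^ 241 ≤ z ^ 258 := pow_le_pow_right₀ hz (by norm_num)
  have h3 : 0 ≤ z ^ 258 := by positivity
  rw [e]
  generalize z ^ 258 = A at *
  generalize z ^ 256 = B at *
  generalize z ^ 241 = D at *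
  nlinarith

/-- one interval: the Mermin-Wagner shift makes it attractive -/
theorem fresh_one (G : Measure ℝ) [IsProbabilityMeasure G] (hG : Law G) (L : ℕ) :
    ∀ᶠ z : ℕ in atTop, ∀ (f : ℤ → ℤ) (i : ℕ) (lam a : ℝ), 0 ≤ a →
      a + ((z : ℝ) ^ 200)⁻¹ ≤
        (PP G {ω | lam - (z : ℝ) ^ 256 < d ω (uL z f i) (uR z f i)}).toReal →
      a ^ 3 ≤ 2 * (PP G {ω | Attr L z f ∅ lam i ω}).toReal ^ 2 := by
  classical
  have hθ : (1 : ℝ) ≤ 16 ^ (8 * L + 8) := one_le_pow₀ (by norm_num)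
  obtain ⟨Sg, δ, mS, hS, hε, hδ, ht⟩ := exists_tilt G hG.2.2 hG.1
    (ε := ((16 : ℝ) ^ (8 * L + 8))⁻¹) (by positivity)
  obtain ⟨Bd, hBd⟩ : ∃ Bd, Bd = Sgᶜ := ⟨_, rfl⟩
  filter_upwards [Fresh1_col G hG, ev_exp one_pos 1 441, eventually_ge_atTop 9,
    tendsto_natCast_atTop_atTop.eventually_ge_atTop (20 / δ)] with z hc he hz hz' f i lam a ha h
  have hz9 : (9 : ℝ) ≤ z := by exact_mod_cast hz
  have hz1 : (1 : ℝ) ≤ z := by linarith
  have hτ : ((z : ℝ) ^ 501)⁻¹ ≤ 1 / 2 := by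
    rw [one_div]
    exact inv_anti₀ (by norm_num) (le_trans (by linarith) (le_self_pow₀ hz1 (by norm_num)))
  obtain ⟨θ, J, hT⟩ := ht ((z : ℝ) ^ 501)⁻¹ (by positivity) hτ
  set I : Finset ℤ := Finset.Icc (-(z : ℤ) ^ 240) ((z : ℤ) ^ 240) with hI
  set B : ℤ → Set Env := fun y =>
    ({ω | (z : ℝ) ^ 241 < d ω (uL z f i) ((uL z f i).1, (uL z f i).2 + y)} ∪
      {ω | (z : ℝ) ^ 241 < d ω (uR z f i) ((uR z f i).1, (uR z f i).2 + y)}) ∪
      {ω | ∃ (p : ℕ → V) (k : ℕ), k ≤ L * z ^ 760 ∧ Chain p k ∧ SA p k ∧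
        p 0 = ((uL z f i).1, (uL z f i).2 + y) ∧
          z ^ 760 / 4 ≤ ((Finset.range k).filter (fun j => ω (ed p j) ∈ Bd)).card} with hB
  have hBy : ∀ y ∈ I, PP G (B y) ≤ ENNReal.ofReal (3 * ((z : ℝ) ^ 441)⁻¹) := by
    intro y hy
    have hy' : |y| ≤ (z : ℤ) ^ 240 := abs_le.2 (Finset.mem_Icc.1 hy)
    have h3 := (pathcount G (Bd := Bd) (hBd ▸ mS.compl) hθ (hBd ▸ hε) ((uL z f i).1, (uL z f i).2 + y) (L * z ^ 760)
      (z ^ 760 / 4)).trans (ENNReal.ofReal_le_ofReal ((Fresh1_pc L z (by omega)).trans he))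
    refine (measure_union_le _ _).trans ((add_le_add ((measure_union_le _ _).trans
      (add_le_add (hc _ y hy') (hc _ y hy'))) h3).trans (le_of_eq ?_))
    rw [← ENNReal.ofReal_add (by positivity) (by positivity),
      ← ENNReal.ofReal_add (by positivity) (by positivity)]
    congr 1
    ring
  have hU : PP G (⋃ y ∈ I, B y) ≤ ENNReal.ofReal (((z : ℝ) ^ 200)⁻¹) := by
    refine (measure_biUnion_finset_le _ _).trans ((Finset.sum_le_card_nsmul _ _ _ hBy).trans ?_)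
    rw [nsmul_eq_mul, ← ENNReal.ofReal_natCast, ← ENNReal.ofReal_mul (by positivity)]
    refine ENNReal.ofReal_le_ofReal ?_
    have h1 : (I.card : ℝ) ≤ 3 * (z : ℝ) ^ 240 := by
      have : (1 : ℤ) ≤ (z : ℤ) ^ 240 := one_le_pow₀ (by omega)
      have h2 : I.card ≤ 3 * z ^ 240 := by
        rw [hI, Int.card_Icc, Int.toNat_le]
        push_cast
        linarith
      exact_mod_cast h2
    refine (mul_le_mul_of_nonneg_right h1 (by positivity)).trans ?_
    have e : 3 * (z : ℝ) ^ 240 * (3 * ((z : ℝ) ^ 441)⁻¹) = 9 / z * ((z : ℝ) ^ 200)⁻¹ := by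
      field_simp
      ring
    rw [e]
    exact mul_le_of_le_one_left (by positivity) ((div_le_one (by linarith)).2 hz9)
  set A0 := {ω : Env | lam - (z : ℝ) ^ 256 < d ω (uL z f i) (uR z f i)} with hA0
  have hA : a ≤ (PP G (A0 \ ⋃ y ∈ I, B y)).toReal := by
    have h1 : PP G A0 ≤ PP G (A0 \ ⋃ y ∈ I, B y) + ENNReal.ofReal (((z : ℝ) ^ 200)⁻¹) :=
      (measure_mono (subset_sdiff_union _ _)).trans ((measure_union_le _ _).trans
        (add_le_add le_rfl hU))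
    have h2 := ENNReal.toReal_mono (by finiteness) h1
    rw [ENNReal.toReal_add (by finiteness) (by finiteness),
      ENNReal.toReal_ofReal (by positivity)] at h2
    linarith
  have key := mw_prod G hT (Tube z f i) (A := A0 \ ⋃ y ∈ I, B y)
    (measurableSet_Attr L z f ∅ lam i) (by
      rintro ω ⟨h0, hn⟩ q l ⟨c1, c2, c3, c4, c5, c6, c7, -, c9⟩ -
      simp only [mem_iUnion, not_exists] at hn
      have q0 : q 0 = ((uL z f i).1, (uL z f i).2 + ((q 0).2 - f (bC z i))) :=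
        Prod.ext c4 (by simp [uL])
      have ql : q l = ((uR z f i).1, (uR z f i).2 + ((q l).2 - f (aC z (i + 1)))) :=
        Prod.ext c6 (by simp [uR])
      have n1 := hn _ (Finset.mem_Icc.2 (abs_le.1 c5))
      have n2 := hn _ (Finset.mem_Icc.2 (abs_le.1 c7))
      simp only [hB, mem_union, mem_ofPred_eq, not_or, not_lt] at n1 n2
      have d1 := n1.1.1
      have d2 := n2.1.2
      rw [← q0] at d1
      rw [← ql] at d2
      have n3 : ((Finset.range l).filter (fun j => ω (ed q j) ∈ Bd)).card < z ^ 760 / 4 :=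
        lt_of_not_ge fun hh => n1.2 ⟨q, l, c1, c2, c3, q0, hh⟩
      have g1 := Fresh1_gain hBd hS (γ := δ * ((z : ℝ) ^ 501)⁻¹) (by positivity) hT.2.2.2.1
        hT.2.2.2.2.1 (Tube z f i) ω q l
      have g2 : (z : ℝ) ^ 760 / 4 ≤
          (((Finset.range l).filter (fun j => ed q j ∈ Tube z f i)).card : ℝ) -
            ((Finset.range l).filter (fun j => ω (ed q j) ∈ Bd)).card := by
        have a1 : 4 * ((Finset.range l).filter (fun j => ω (ed q j) ∈ Bd)).card ≤ z ^ 760 := by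
          generalize z ^ 760 = T at *
          omega
        have a2 : (4 : ℝ) * ((Finset.range l).filter (fun j => ω (ed q j) ∈ Bd)).card ≤
          (z : ℝ) ^ 760 := by exact_mod_cast a1
        have a3 : (z : ℝ) ^ 760 ≤
            2 * ((Finset.range l).filter (fun j => ed q j ∈ Tube z f i)).card := by
          exact_mod_cast c9
        linarith
      have g3 := mul_le_mul_of_nonneg_left g2 (show 0 ≤ δ * ((z : ℝ) ^ 501)⁻¹ by positivity)
      have g4 := Fresh1_num hz1 (δ := δ) (by rwa [div_le_iff₀' hδ] at hz')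
      have g5 := d_le_W ω c2 (Nat.zero_le l) le_rfl
      have g6 := d_triangle ω (uL z f i) (q 0) (uR z f i)
      have g7 := d_triangle ω (q 0) (q l) (uR z f i)
      rw [d_comm ω (q l)] at g7
      have g8 : lam - (z : ℝ) ^ 256 < d ω (uL z f i) (uR z f i) := h0
      linarith)
  have h2 : ENNReal.ofReal (1 + 2 * (((z : ℝ) ^ 501)⁻¹) ^ 2) ^ (Tube z f i).card ≤ 2 := by
    rw [← ENNReal.ofReal_pow (by positivity), ← ENNReal.ofReal_ofNat]
    exact ENNReal.ofReal_le_ofReal (Fresh1_two (by linarith)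
      (by exact_mod_cast Fresh1_card z (by omega) f i))
  have h3 := ENNReal.toReal_mono (by finiteness) (key.trans (mul_le_mul_right h2 _))
  rw [ENNReal.toReal_pow, ENNReal.toReal_mul, ENNReal.toReal_pow, ENNReal.toReal_ofNat] at h3
  linarith [pow_le_pow_left₀ ha hA 3]

end Pool.Agent.FPP
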