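import Pool.Agent.P.MP_ecb9f8_pr.Events

open MeasureTheory ProbabilityTheory Set Filter

noncomputable section

namespace Pool.Agent.FPP

theorem Fresh2_core {Ω : Type*} [MeasurableSpace Ω] (μ : Measure Ω) [IsProbabilityMeasure μ]
    {Z : Ω → ℝ} (hm : Measurable Z) (h2 : MemLp Z 2 μ) (h0 : ∀ ω, 0 ≤ Z ω) {lam T U M : ℝ}
    (hT : T ≤ U) (hU : 0 ≤ U) (hM : 0 < M) (h1 : ∫ ω, Z ω ∂μ - lam ≤ U)
    (h3 : ∫ ω, Z ω ^ 2 ∂μ ≤ M) (h4 : μ.real {ω | U < |Z ω - ∫ ω, Z ω ∂μ|} ≤ M⁻¹) :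
    ∫ ω, Z ω ∂μ - lam + T ≤ 3 * U * μ.real {ω | lam - T < Z ω} + 1 := by
  have m0 : 0 ≤ ∫ ω, Z ω ∂μ := integral_nonneg h0
  have i1 : Integrable Z μ := h2.integrable one_le_two
  generalize hm' : ∫ ω, Z ω ∂μ = m at *
  have mA : MeasurableSet {ω | lam - T < Z ω} := measurableSet_lt measurable_const hm
  have mB : MeasurableSet {ω | U < |Z ω - m|} :=
    measurableSet_lt measurable_const (hm.sub_const m).abs
  have iA := (integrable_const (μ := μ) (3 * U)).indicator mA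
  have iB := (integrable_const (μ := μ) (M / 2)).indicator mB
  have i2 := h2.integrable_sq.const_mul (2 * M)⁻¹
  have key := integral_mono (i1.add (integrable_const (T - lam))) ((iA.add i2).add iB) fun ω => by
    have z := h0 ω
    have s : 0 ≤ (2 * M)⁻¹ * Z ω ^ 2 := by positivity
    have s' : Z ω ≤ (2 * M)⁻¹ * Z ω ^ 2 + M / 2 := by
      have : (2 * M)⁻¹ * Z ω ^ 2 + M / 2 - Z ω = (2 * M)⁻¹ * (Z ω - M) ^ 2 := by
        field_simp
        ring
      have : 0 ≤ (2 * M)⁻¹ * (Z ω - M) ^ 2 := by positivity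
      linarith
    simp only [Pi.add_apply, indicator, mem_ofPred_eq]
    split_ifs with a b b
    · linarith
    · linarith [le_abs_self (Z ω - m), not_lt.1 b]
    · linarith [not_lt.1 a]
    · linarith [not_lt.1 a]
  rw [integral_add' i1 (integrable_const _), integral_add' (iA.add i2) iB, integral_add' iA i2,
    integral_indicator_const _ mA, integral_indicator_const _ mB, integral_const_mul, hm'] at key
  simp only [integral_const, probReal_univ, smul_eq_mul, one_mul] at key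
  have e1 : (2 * M)⁻¹ * ∫ ω, Z ω ^ 2 ∂μ ≤ 1 / 2 :=
    (mul_le_mul_of_nonneg_left h3 (by positivity)).trans (le_of_eq (by field_simp))
  have e2 : μ.real {ω | U < |Z ω - m|} * (M / 2) ≤ 1 / 2 :=
    (mul_le_mul_of_nonneg_right h4 (by positivity)).trans (le_of_eq (by field_simp))
  linarith

/-- one interval: the mean against the probability of not being far below the threshold -/
theorem fresh_mean (G : Measure ℝ) [IsProbabilityMeasure G] (hG : Law G) :
    ∀ᶠ z : ℕ in atTop, ∀ (x y : V) (lam : ℝ), nm (y - x) ≤ (z : ℤ) ^ 762 →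
      g G (y - x) - lam ≤ (z : ℝ) ^ 382 →
      g G (y - x) - lam + (z : ℝ) ^ 256 ≤
        3 * (z : ℝ) ^ 382 * (PP G {ω | lam - (z : ℝ) ^ 256 < d ω x y}).toReal + 1 := by
  obtain ⟨c, C, hc, -, H⟩ := conc G hG
  obtain ⟨C₁, -, H₁, -⟩ := moment_d G hG
  filter_upwards [ev_exp hc C 1525, tendsto_natCast_atTop_atTop.eventually_ge_atTop C₁,
    eventually_ge_atTop 1] with z h1 h2 h3 x y lam h4 h5
  have z1 : (1 : ℝ) ≤ z := by exact_mod_cast h3
  have z0 : (0 : ℝ) < z := by linarith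
  rw [← integral_d G x y] at h5 ⊢
  refine Fresh2_core (PP G) (measurable_d x y) (memLp_d G hG x y) (fun ω => d_nonneg ω x y)
    (pow_le_pow_right₀ z1 (by norm_num)) (pow_pos z0 _).le (pow_pos z0 1525) h5
    ((H₁ x y).trans ?_) ?_
  · have n0 : (0 : ℝ) ≤ nm (y - x) := by exact_mod_cast le_max_of_le_left (abs_nonneg _)
    have n1 : (nm (y - x) : ℝ) ≤ (z : ℝ) ^ 762 := by exact_mod_cast h4
    rw [show (z : ℝ) ^ 1525 = z * (z ^ 762) ^ 2 by rw [← pow_mul, ← pow_succ']]
    exact mul_le_mul h2 (pow_le_pow_left₀ n0 n1 2) (sq_nonneg _) z0.le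
  · have h6 := H (z ^ 381) x y (by rwa [Nat.cast_pow, ← pow_mul]) z z0.le
      (by rw [Nat.cast_pow]; exact le_self_pow₀ z1 (by norm_num))
    rw [Nat.cast_pow, ← pow_succ', ← integral_d G x y] at h6
    exact ENNReal.toReal_le_of_le_ofReal (by positivity) (h6.trans (ENNReal.ofReal_le_ofReal h1))

end Pool.Agent.FPP
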