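import Pool.Agent.P.MP_ecb9f8_pr.Fresh1
import Pool.Agent.P.MP_ecb9f8_pr.Fresh2

open MeasureTheory ProbabilityTheory Set Filter

noncomputable section

namespace Pool.Agent.FPP

theorem Fresh3_aux1 {u ε π P : ℝ} (hu : 0 < u) (hP : 0 ≤ P)
    (h : ∀ a : ℝ, 0 ≤ a → a + ε ≤ π → a ^ 3 ≤ 2 * P ^ 2) :
    π - (u ^ 2)⁻¹ - ε ≤ 2 * u * P := by
  have h0 : 0 < (u ^ 2)⁻¹ := by positivity
  have h1 : 0 ≤ 2 * u * P := by positivity
  rcases le_total (π - ε) (u ^ 2)⁻¹ with h2 | h2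
  · linarith
  · have h3 := h (π - ε) (by linarith) (by linarith)
    generalize ha : π - ε = a at h2 h3
    have h4 : 1 ≤ a * u ^ 2 := by
      have := mul_le_mul_of_nonneg_right h2 (sq_nonneg u)
      rwa [inv_mul_cancel₀ (by positivity)] at this
    have h5 : a ^ 2 ≤ (2 * u * P) ^ 2 := by
      have h6 := mul_le_mul_of_nonneg_left h4 (sq_nonneg a)
      have h7 := mul_le_mul_of_nonneg_right h3 (sq_nonneg u)
      have h8 : 0 ≤ P ^ 2 * u ^ 2 := by positivity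
      nlinarith
    have h9 := (abs_le_of_sq_le_sq' h5 h1).2
    linarith

/-- pure arithmetic -/
theorem fresh_alg {z : ℕ} (hz : 100 ≤ z) (D π P : ℕ → ℝ) (hP : ∀ i, 0 ≤ P i)
    (h1 : -(z : ℝ) ^ 514 ≤ ∑ i ∈ Finset.range (z ^ 260), D i)
    (h2 : ∀ i < z ^ 260, D i + (z : ℝ) ^ 256 ≤ 3 * (z : ℝ) ^ 382 * π i + 1)
    (h3 : ∀ i < z ^ 260, ∀ a : ℝ, 0 ≤ a → a + ((z : ℝ) ^ 200)⁻¹ ≤ π i → a ^ 3 ≤ 2 * P i ^ 2) :
    4 * (z : ℝ) ^ 67 ≤ ∑ i ∈ Finset.range (z ^ 260), P i := by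
  have hz' : (100 : ℝ) ≤ z := by exact_mod_cast hz
  have hN : ((z ^ 260 : ℕ) : ℝ) = (z : ℝ) ^ 260 := Nat.cast_pow _ _
  generalize z ^ 260 = N at h1 h2 h3 hN ⊢
  generalize (z : ℝ) = x at h1 h2 h3 hN hz' ⊢
  have hx : 0 < x := by linarith
  have hx1 : 1 ≤ x := by linarith
  have s2 := Finset.sum_le_sum (s := Finset.range N) fun i hi => h2 i (Finset.mem_range.1 hi)
  have s3 := Finset.sum_le_sum (s := Finset.range N) fun i hi =>
    Fresh3_aux1 (pow_pos hx 64) (hP i) (h3 i (Finset.mem_range.1 hi))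
  rw [Finset.sum_add_distrib, Finset.sum_add_distrib, ← Finset.mul_sum, Finset.sum_const,
    Finset.sum_const, Finset.card_range, nsmul_eq_mul, nsmul_eq_mul, hN, mul_one] at s2
  rw [Finset.sum_sub_distrib, Finset.sum_sub_distrib, ← Finset.mul_sum, Finset.sum_const,
    Finset.sum_const, Finset.card_range, nsmul_eq_mul, nsmul_eq_mul, hN] at s3
  generalize ∑ i ∈ Finset.range N, D i = sD at h1 s2
  generalize ∑ i ∈ Finset.range N, π i = T at s2 s3
  generalize ∑ i ∈ Finset.range N, P i = Q at s3 ⊢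
  have e1 : x ^ 260 * ((x ^ 64) ^ 2)⁻¹ = x ^ 132 := by
    rw [mul_inv_eq_iff_eq_mul₀ (by positivity)]
    ring
  have e2 : x ^ 260 * (x ^ 200)⁻¹ = x ^ 60 := by
    rw [mul_inv_eq_iff_eq_mul₀ (by positivity)]
    ring
  have e3 : x ^ 260 * x ^ 256 = x ^ 2 * x ^ 514 := by ring
  rw [e1, e2] at s3
  rw [e3] at s2
  have l1 : x ^ 260 ≤ x ^ 514 := pow_le_pow_right₀ hx1 (by norm_num)
  have l2 : x ^ 60 ≤ x ^ 132 := pow_le_pow_right₀ hx1 (by norm_num)
  have l3 : x ^ 131 ≤ x ^ 132 := pow_le_pow_right₀ hx1 (by norm_num)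
  have l4 : 10000 * x ^ 514 ≤ x ^ 2 * x ^ 514 :=
    mul_le_mul_of_nonneg_right (by nlinarith) (by positivity)
  have l5 : 10 * x ^ 132 ≤ T := by
    have e4 : x ^ 514 = x ^ 382 * x ^ 132 := by ring
    have l6 : 3 * x ^ 382 * (10 * x ^ 132) ≤ 3 * x ^ 382 * T := by
      have l7 : 0 < x ^ 514 := by positivity
      have e5 : 3 * x ^ 382 * (10 * x ^ 132) = 30 * x ^ 514 := by ring
      rw [e5]
      linarith
    exact le_of_mul_le_mul_left l6 (by positivity)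
  have l8 : 2 * x ^ 64 * (4 * x ^ 67) ≤ 2 * x ^ 64 * Q := by
    have e6 : 2 * x ^ 64 * (4 * x ^ 67) = 8 * x ^ 131 := by ring
    rw [e6]
    linarith
  exact le_of_mul_le_mul_left l8 (by positivity)

theorem Fresh3_aux2 (z : ℕ) {i j : ℕ} (h : i ≤ j) : aC z i ≤ aC z j := by
  unfold aC
  have h1 : (i : ℤ) ≤ j := by exact_mod_cast h
  have h2 := mul_le_mul_of_nonneg_right h1 (pow_nonneg (Int.natCast_nonneg z) 760)
  linarith

theorem Fresh3_aux3 {z : ℕ} (hz : 100 ≤ z) (f : ℤ → ℤ) (i : ℕ)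
    (h : |f (aC z (i + 1)) - f (bC z i)| ≤ (z : ℤ) ^ 761) :
    nm (uR z f i - uL z f i) ≤ (z : ℤ) ^ 762 := by
  have hz' : (100 : ℤ) ≤ z := by exact_mod_cast hz
  have hx1 : (1 : ℤ) ≤ z := by linarith
  refine nm_le_iff.2 ⟨?_, h.trans (pow_le_pow_right₀ hx1 (by norm_num))⟩
  have e : (uR z f i - uL z f i).1 = (z : ℤ) ^ 760 - (z : ℤ) ^ 40 - 1 := by
    simp only [uR, uL, bC, aC, Prod.fst_sub]
    push_cast
    ring
  have l1 : (z : ℤ) ^ 760 ≤ (z : ℤ) ^ 762 := pow_le_pow_right₀ hx1 (by norm_num)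
  have l2 : (z : ℤ) ^ 40 ≤ (z : ℤ) ^ 762 := pow_le_pow_right₀ hx1 (by norm_num)
  have l3 : 1 ≤ (z : ℤ) ^ 760 := one_le_pow₀ hx1
  have l4 : 1 ≤ (z : ℤ) ^ 40 := one_le_pow₀ hx1
  rw [e, abs_le]
  constructor <;> linarith

/-- in a fresh environment many intervals are attractive -/
theorem fresh (G : Measure ℝ) [IsProbabilityMeasure G] (hG : Law G) (L k : ℕ) :
    ∀ᶠ z : ℕ in atTop, ∀ (f : ℤ → ℤ) (lam : ℕ → ℝ), Thr G z f lam →
      PP G {ω | Bad L z f ∅ lam ω} ≤ ENNReal.ofReal (((z : ℝ) ^ k)⁻¹) := by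
  filter_upwards [fresh_one G hG L, fresh_mean G hG, eventually_ge_atTop 100,
    ev_exp one_pos 1 k] with z h1 h2 hz h4 f lam hT
  obtain ⟨t1, t2, t3⟩ := hT
  have hsum := fresh_alg hz (fun i => g G (uR z f i - uL z f i) - lam i)
    (fun i => (PP G {ω | lam i - (z : ℝ) ^ 256 < d ω (uL z f i) (uR z f i)}).toReal)
    (fun i => (PP G {ω | Attr L z f ∅ (lam i) i ω}).toReal) (fun _ => ENNReal.toReal_nonneg) t3
    (fun i hi => h2 _ _ _ (Fresh3_aux3 hz f i (t1 i hi)) (t2 i hi))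
    (fun i _ a ha h => h1 f i (lam i) a ha h)
  have hc := chernoff G (Finset.range (z ^ 260))
    (fun i => {e : E | ∀ v ∈ e, aC z i < v.1 ∧ v.1 ≤ aC z (i + 1)}) ?_
    (fun i => {ω | Attr L z f ∅ (lam i) i ω}) (fun i _ => measurableSet_Attr L z f ∅ (lam i) i) ?_
    (z ^ 67) (by rw [Nat.cast_pow]; exact hsum)
  · refine le_trans hc (ENNReal.ofReal_le_ofReal (le_trans ?_ h4))
    rw [one_mul, one_mul, Real.exp_le_exp, neg_le_neg_iff]
    exact_mod_cast Nat.le_self_pow (by norm_num) z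
  · intro i _ j _ hij
    rw [Set.disjoint_left]
    intro e hi hj
    induction e using Sym2.ind with
    | _ a b =>
      have ha := hi a (Sym2.mem_mk_left a b)
      have hb := hj a (Sym2.mem_mk_left a b)
      rcases lt_or_gt_of_ne hij with h | h
      · have := Fresh3_aux2 z (Nat.succ_le_of_lt h)
        exact absurd (ha.2.trans this) (not_le.2 hb.1)
      · have := Fresh3_aux2 z (Nat.succ_le_of_lt h)
        exact absurd (hb.2.trans this) (not_le.2 ha.1)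
  · intro i _ ω ω' he hω q l hq hΦ
    have e : W ω' q 0 l = W ω q 0 l := by
      rw [W_range, W_range]
      refine Finset.sum_congr rfl fun t ht => ?_
      have ht' := Finset.mem_range.1 ht
      have hcol := hq.2.2.2.2.2.2.2.1
      unfold wt
      rw [he (ed q t) fun v hv => ?_]
      rcases Sym2.mem_iff.1 hv with rfl | rfl
      · exact hcol t ht'.le
      · exact hcol (t + 1) ht'
    rw [e]
    exact hω q l hq hΦ

end Pool.Agent.FPP
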