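import Pool.Agent.P.MP_ecb9f8_pr.Thr2L
import Pool.Agent.P.MP_ecb9f8_pr.MeanG
import Pool.Agent.P.MP_ecb9f8_pr.ProbT
import Pool.Agent.P.MP_ecb9f8_pr.ColB
import Pool.Agent.P.MP_ecb9f8_pr.Fresh3

open MeasureTheory ProbabilityTheory Set Filter

noncomputable section

namespace Pool.Agent.FPP

theorem FreshB_alg {z : ℕ} (hz : 100 ≤ z) (D π P : ℕ → ℝ) (hP : ∀ i, 0 ≤ P i)
    (h1 : -(z : ℝ) ^ 513 ≤ ∑ i ∈ Finset.range (z ^ 220), D i)
    (h2 : ∀ i < z ^ 220, D i + (z : ℝ) ^ 296 ≤ 4 * (z : ℝ) ^ 402 * π i + 1)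
    (h3 : ∀ i < z ^ 220, ∀ a : ℝ, 0 ≤ a → a + 2 * ((z : ℝ) ^ 200)⁻¹ ≤ π i →
      a ^ 3 ≤ 2 * P i ^ 2) :
    8 * (z : ℝ) ^ 57 ≤ ∑ i ∈ Finset.range (z ^ 220), P i := by
  have hz' : (100 : ℝ) ≤ z := by exact_mod_cast hz
  have hN : ((z ^ 220 : ℕ) : ℝ) = (z : ℝ) ^ 220 := Nat.cast_pow _ _
  generalize z ^ 220 = N at h1 h2 h3 hN ⊢
  generalize (z : ℝ) = x at h1 h2 h3 hN hz' ⊢
  have hx : 0 < x := by linarith
  have hx1 : 1 ≤ x := by linarith
  have s2 := Finset.sum_le_sum (s := Finset.range N) fun i hi => h2 i (Finset.mem_range.1 hi)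
  have s3 := Finset.sum_le_sum (s := Finset.range N) fun i hi =>
    Fresh3_aux1 (pow_pos hx 54) (hP i) (h3 i (Finset.mem_range.1 hi))
  rw [Finset.sum_add_distrib, Finset.sum_add_distrib, ← Finset.mul_sum, Finset.sum_const,
    Finset.sum_const, Finset.card_range, nsmul_eq_mul, nsmul_eq_mul, hN, mul_one] at s2
  rw [Finset.sum_sub_distrib, Finset.sum_sub_distrib, Finset.sum_const, Finset.sum_const,
    ← Finset.mul_sum, Finset.card_range, nsmul_eq_mul, nsmul_eq_mul, hN] at s3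
  generalize ∑ i ∈ Finset.range N, D i = sD at h1 s2
  generalize ∑ i ∈ Finset.range N, π i = T at s2 s3
  generalize ∑ i ∈ Finset.range N, P i = Q at s3 ⊢
  have e1 : x ^ 220 * ((x ^ 54) ^ 2)⁻¹ = x ^ 112 := by
    rw [mul_inv_eq_iff_eq_mul₀ (by positivity)]
    ring
  have e2 : x ^ 220 * (2 * (x ^ 200)⁻¹) = 2 * x ^ 20 := by
    rw [mul_left_comm, mul_right_inj' two_ne_zero, mul_inv_eq_iff_eq_mul₀ (by positivity)]
    ring
  have e3 : x ^ 220 * x ^ 296 = x ^ 2 * x ^ 514 := by ring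
  rw [e1, e2] at s3
  rw [e3] at s2
  have l0 : x ^ 513 ≤ x ^ 514 := pow_le_pow_right₀ hx1 (by norm_num)
  have l1 : x ^ 220 ≤ x ^ 514 := pow_le_pow_right₀ hx1 (by norm_num)
  have l2 : x ^ 20 ≤ x ^ 112 := pow_le_pow_right₀ hx1 (by norm_num)
  have l3 : x ^ 111 ≤ x ^ 112 := pow_le_pow_right₀ hx1 (by norm_num)
  have l4 : 10000 * x ^ 514 ≤ x ^ 2 * x ^ 514 :=
    mul_le_mul_of_nonneg_right (by nlinarith) (by positivity)
  have l5 : 20 * x ^ 112 ≤ T := by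
    have l6 : 4 * x ^ 402 * (20 * x ^ 112) ≤ 4 * x ^ 402 * T := by
      have l7 : 0 < x ^ 514 := by positivity
      have e5 : 4 * x ^ 402 * (20 * x ^ 112) = 80 * x ^ 514 := by ring
      rw [e5]
      linarith
    exact le_of_mul_le_mul_left l6 (by positivity)
  have l8 : 2 * x ^ 54 * (8 * x ^ 57) ≤ 2 * x ^ 54 * Q := by
    have e6 : 2 * x ^ 54 * (8 * x ^ 57) = 16 * x ^ 111 := by ring
    have l9 : 0 < x ^ 112 := by positivity
    rw [e6]
    linarith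
  exact le_of_mul_le_mul_left l8 (by positivity)

/-- the points of column `a` near the height `y` -/
def FreshB_col (b : ℤ) (z : ℕ) (a y : ℤ) : Finset V :=
  (Finset.Icc (y - (z : ℤ) ^ 200) (y + (z : ℤ) ^ 200)).image (pt b a)

theorem FreshB_card (b : ℤ) {z : ℕ} (hz : 3 ≤ z) (a y : ℤ) :
    (FreshB_col b z a y).card ≤ z ^ 201 := by
  refine Finset.card_image_le.trans ?_
  have h1 : 3 * (z : ℤ) ^ 200 ≤ (z : ℤ) ^ 201 :=
    ThrL_mul_pow_le (by omega) (by exact_mod_cast hz) (by norm_num)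
  have h2 : 1 ≤ (z : ℤ) ^ 200 := one_le_pow₀ (by exact_mod_cast (by omega : 1 ≤ z))
  rw [Int.card_Icc, Int.toNat_le, Nat.cast_pow]
  linarith

theorem FreshB_nm {b : ℤ} (hb : b = 0 ∨ b = 1) (z : ℕ) (a y : ℤ) :
    ∀ x ∈ FreshB_col b z a y, nm (x - pt b a y) ≤ ((z ^ 200 : ℕ) : ℤ) := by
  intro x hx
  obtain ⟨t, ht, rfl⟩ := Finset.mem_image.1 hx
  rw [Finset.mem_Icc] at ht
  rw [Nat.cast_pow]
  have h0 : 0 ≤ (z : ℤ) ^ 200 := by positivity
  generalize (z : ℤ) ^ 200 = K at *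
  refine nm_le_iff.2 ?_
  simp only [pt, Prod.fst_sub, Prod.snd_sub, abs_le]
  rcases hb with rfl | rfl <;> omega

theorem FreshB_mem {b : ℤ} {z : ℕ} {a y : ℤ} {x : V} (h1 : colb b x = a)
    (h2 : |x.2 - y| ≤ (z : ℤ) ^ 200) : x ∈ FreshB_col b z a y := by
  refine Finset.mem_image.2 ⟨x.2, ?_, by rw [← h1]; exact (eq_pt b x).symm⟩
  rw [abs_le] at h2
  rw [Finset.mem_Icc]
  constructor <;> linarith [h2.1, h2.2]

theorem FreshB_one {b : ℤ} (hb : b = 0 ∨ b = 1) (G : Measure ℝ) [IsProbabilityMeasure G]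
    (hG : Law G) (L : ℕ) :
    ∀ᶠ z : ℕ in atTop, ∀ (f : ℤ → ℤ) (i : ℕ) (lam a : ℝ), 0 ≤ a →
      a + 2 * ((z : ℝ) ^ 200)⁻¹ ≤ (PP G {ω | lam - (z : ℝ) ^ 296 <
        d ω (pt b (a2 z i) (f (a2 z i))) (pt b (a2 z (i + 1)) (f (a2 z (i + 1))))}).toReal →
      a ^ 3 ≤ 2 * (PP G {ω | AttrG (Comp2 b L z f i) ∅ (lam + 2 * (z : ℝ) ^ 201) ω}).toReal ^ 2 := by
  filter_upwards [comp_ge G hG 201 200, shift_gen G hG L 201 200, eventually_ge_atTop 100]
    with z h1 h2 hz f i lam a ha h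
  have z1 : 1 ≤ z := by omega
  have zr : (100 : ℝ) ≤ z := by exact_mod_cast hz
  have e1 := h1 (Comp2 b L z f i) _ _ _ _ (z ^ 200) (lam - (z : ℝ) ^ 296)
    (Nat.pow_le_pow_right z1 (by norm_num)) (FreshB_card b (by omega) _ _)
    (FreshB_card b (by omega) _ _) (FreshB_nm hb z (a2 z i) (f (a2 z i)))
    (FreshB_nm hb z (a2 z (i + 1)) (f (a2 z (i + 1))))
    (fun q l hq => ⟨hq.2.1, FreshB_mem hq.2.2.2.1 hq.2.2.2.2.1,
      FreshB_mem hq.2.2.2.2.2.1 hq.2.2.2.2.2.2.1⟩)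
  have e0 : (z : ℝ) * ((z ^ 200 : ℕ) : ℝ) = (z : ℝ) ^ 201 := by
    rw [Nat.cast_pow, ← pow_succ']
  rw [e0] at e1
  have e2 := h2 (Comp2 b L z f i) _ (Tube2 b z f i) (z ^ 800) (6 * z ^ 1000)
    (lam - (z : ℝ) ^ 296 - 2 * (z : ℝ) ^ 201) (2 * (z : ℝ) ^ 296) a (fam_comp2 b L z f i)
    (ThrL_nat_le_pow z1 (by norm_num)) (FreshB_card b (by omega) (a2 z i) (f (a2 z i)))
    (card_tube2 b z1 f i) (Nat.succ_le_of_lt (by positivity)) (by positivity) ?_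
    (fun q l hq => ⟨hq.2.2.1, FreshB_mem hq.2.2.2.1 hq.2.2.2.2.1, hq.1,
      by convert hq.2.2.2.2.2.2.2.2⟩) ha ?_
  · refine e2.trans (mul_le_mul_of_nonneg_left (pow_le_pow_left₀ ENNReal.toReal_nonneg
      (ENNReal.toReal_mono (measure_ne_top _ _) (measure_mono fun ω hω q l hq _ => ?_)) 2)
      zero_le_two)
    have e3 := hω q l hq
    have e4 : 5 * (z : ℝ) ^ 201 ≤ (z : ℝ) ^ 296 :=
      ThrL_rmul_pow_le z1 (by linarith) (by norm_num)
    have e5 : 0 < (z : ℝ) ^ 201 := by positivity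
    linarith
  · have e4 : 24 * (z : ℝ) ^ 1594 ≤ (z : ℝ) ^ 1600 :=
      ThrL_rmul_pow_le z1 (by linarith) (by norm_num)
    rw [Nat.cast_mul, Nat.cast_pow, Nat.cast_pow, Nat.cast_ofNat]
    generalize (z : ℝ) = x at e4 ⊢
    calc _ = 24 * x ^ 1594 := by ring
      _ ≤ x ^ 1600 := e4
      _ = _ := by rw [← pow_mul]
  · have e3 : (PP G {ω | ∀ q l, Comp2 b L z f i q l →
          lam - (z : ℝ) ^ 296 - 2 * (z : ℝ) ^ 201 < W ω q 0 l}).toReal ≤
        (PP G {ω | ∀ q l, Comp2 b L z f i q l →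
          lam - (z : ℝ) ^ 296 - 2 * (z : ℝ) ^ 201 ≤ W ω q 0 l}).toReal :=
      ENNReal.toReal_mono (measure_ne_top _ _) (measure_mono fun ω hω q l hq => (hω q l hq).le)
    linarith

theorem FreshB_a2 (z : ℕ) {i j : ℕ} (h : i + 2 ≤ j) : a2 z (i + 1) ≤ a2 z j - (z : ℤ) ^ 800 := by
  unfold a2
  have h1 : (i : ℤ) + 2 ≤ j := by exact_mod_cast h
  have h2 := mul_le_mul_of_nonneg_right h1 (pow_nonneg (Int.natCast_nonneg z) 800)
  rw [Nat.cast_succ]
  generalize (z : ℤ) ^ 800 = K at *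
  linarith

/-- in a fresh environment many intervals are attractive -/
theorem fresh2 {b : ℤ} (hb : b = 0 ∨ b = 1) (G : Measure ℝ) [IsProbabilityMeasure G] (hG : Law G)
    (L k : ℕ) :
    ∀ᶠ z : ℕ in atTop, ∀ (f : ℤ → ℤ) (lam : ℕ → ℝ), Thr2 b G z f lam →
      PP G {ω | BadG (Finset.range (z ^ 220)) (Comp2 b L z f) ∅
        (fun i => lam i + 2 * (z : ℝ) ^ 201) (z ^ 57) ω} ≤ ENNReal.ofReal (((z : ℝ) ^ k)⁻¹) := by
  filter_upwards [FreshB_one hb G hG L, mean_gen G hG 401, eventually_ge_atTop 100,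
    ev_exp one_pos 1 k] with z h1 h2 hz h4 f lam hT
  obtain ⟨t1, t2, t3⟩ := hT
  have z1 : 1 ≤ z := by omega
  have hsum := FreshB_alg hz (fun i => g G (st2 b z f i) - lam i)
    (fun i => (PP G {ω | lam i - (z : ℝ) ^ 296 <
      d ω (pt b (a2 z i) (f (a2 z i))) (pt b (a2 z (i + 1)) (f (a2 z (i + 1))))}).toReal)
    (fun i => (PP G {ω | AttrG (Comp2 b L z f i) ∅ (lam i + 2 * (z : ℝ) ^ 201) ω}).toReal)
    (fun _ => ENNReal.toReal_nonneg) t3 (fun i hi => ?_) (fun i _ a ha h => h1 f i (lam i) a ha h)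
  · have hc := chernoff2 G (z ^ 220)
      (fun i => {e : E | ∀ v ∈ e, a2 z i - (z : ℤ) ^ 800 < colb b v ∧ colb b v ≤ a2 z (i + 1)}) ?_
      (fun i => {ω | AttrG (Comp2 b L z f i) ∅ (lam i + 2 * (z : ℝ) ^ 201) ω})
      (fun i _ => measurableSet_AttrG (fam_comp2 b L z f i) ∅ measurable_const) ?_
      (z ^ 57) (by rw [Nat.cast_pow]; exact hsum)
    · refine le_trans hc (ENNReal.ofReal_le_ofReal (le_trans ?_ h4))
      rw [one_mul, one_mul, Real.exp_le_exp, neg_le_neg_iff]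
      exact_mod_cast Nat.le_self_pow (by norm_num) z
    · intro i _ j _ hij
      rw [Set.disjoint_left]
      intro e hi hj
      induction e using Sym2.ind with
      | _ u v =>
        exact absurd ((hi u (Sym2.mem_mk_left u v)).2.trans (FreshB_a2 z hij))
          (not_le.2 (hj u (Sym2.mem_mk_left u v)).1)
    · intro i _ ω ω' he hω q l hq hΦ
      have e : W ω' q 0 l = W ω q 0 l := by
        rw [W_range, W_range]
        refine Finset.sum_congr rfl fun t ht => ?_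
        have ht' := Finset.mem_range.1 ht
        have hcol := hq.2.2.2.2.2.2.2.1
        unfold wt
        rw [he (ed q t) fun v hv => ?_]
        rcases Sym2.mem_iff.1 hv with rfl | rfl
        · exact hcol t ht'.le
        · exact hcol (t + 1) ht'
      rw [e]
      exact hω q l hq hΦ
  · have l1 : (z : ℝ) ^ 296 ≤ (z : ℝ) ^ 402 := ThrL_rpow_le z1 (by norm_num)
    have l2 := t2 i hi
    have l3 := h2 (pt b (a2 z i) (f (a2 z i))) (pt b (a2 z (i + 1)) (f (a2 z (i + 1))))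
      (2 * z ^ 400) (lam i - (z : ℝ) ^ 296) (2 * (z : ℝ) ^ 402)
      ((ThrL_nat_le_pow z1 (by norm_num)).trans (Nat.le_mul_of_pos_left _ two_pos))
      (by rw [pow_succ' z 400]; exact Nat.mul_le_mul_right _ (by omega)) ?_ ?_
      (by unfold st2 at l2; linarith)
    · unfold st2
      linarith
    · refine (t1 i hi).trans ?_
      rw [Nat.cast_mul, Nat.cast_pow, Nat.cast_ofNat, mul_pow, ← pow_mul]
      exact mul_le_mul_of_nonneg_right (by norm_num) (by positivity)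
    · have l4 : (z : ℝ) ^ 401 ≤ (z : ℝ) ^ 402 := ThrL_rpow_le z1 (by norm_num)
      rw [Nat.cast_mul, Nat.cast_pow, Nat.cast_ofNat, mul_left_comm, ← pow_succ']
      exact mul_le_mul_of_nonneg_left l4 zero_le_two

end Pool.Agent.FPP
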