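import Pool.Agent.P.MP_ecb9f8_pr.Path2
import Pool.Agent.P.MP_ecb9f8_pr.Strip
import Pool.Agent.P.MP_ecb9f8_pr.DirL
import Pool.Agent.P.MP_ecb9f8_pr.AttDet

open MeasureTheory ProbabilityTheory Set Filter

noncomputable section

namespace Pool.Agent.FPP

theorem NonRidge_par {N : Seminorm ℝ (ℝ × ℝ)} {c : ℝ} {σ : ℕ → ℝ} {S Λ z : ℕ}
    (hP : Par N c σ S Λ z) : 1 ≤ S ∧ 100 * (S + 1) ≤ z :=
  ⟨hP.2.2.1, (Nat.le_mul_of_pos_right _ hP.2.2.2.1).trans hP.2.2.2.2.1⟩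

theorem NonRidge_pow {z : ℕ} (hz : 2 ≤ z) {a b : ℕ} (h : a < b) : 2 * (z : ℤ) ^ a ≤ (z : ℤ) ^ b := by
  have z2 : (2 : ℤ) ≤ z := by exact_mod_cast hz
  refine le_trans ?_ (pow_le_pow_right₀ (by linarith) (Nat.succ_le_of_lt h))
  rw [pow_succ']
  exact mul_le_mul_of_nonneg_right z2 (by positivity)

theorem NonRidge_start {S z : ℕ} (hS : 1 ≤ S) (hz : 100 * (S + 1) ≤ z) {η u : V}
    (hη : nm η ≤ (z : ℤ)) (hu : u ∈ box z) :
    nm u < 2 * (z : ℤ) ^ 1020 ∧ nm (u + η) < 2 * (z : ℤ) ^ 1020 := by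
  have h1 : nm u ≤ (z : ℤ) ^ 1020 := by
    simp only [box, Finset.mem_product, Finset.mem_Icc] at hu
    exact nm_le_iff.2 ⟨abs_le.2 hu.1, abs_le.2 hu.2⟩
  have h2 := NonRidge_pow (z := z) (by omega) (by norm_num : 1 < 1020)
  have h3 := nm_add_le u η
  have h4 : (0 : ℤ) < z := by omega
  rw [pow_one] at h2
  constructor <;> linarith

theorem NonRidge_inS {z : ℕ} (hz : 2 ≤ z) {x : V} (hx : nm x < 2 * (z : ℤ) ^ 1020) : InS z x :=
  ⟨hx.le.trans (NonRidge_pow hz (by norm_num)),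
    ((le_abs_self _).trans (abs_fst_le_nm x)).trans_lt hx⟩

theorem NonRidge_box {S z : ℕ} (hS : 1 ≤ S) (hz : 100 * (S + 1) ≤ z) {p : ℕ → V} {k i : ℕ}
    (dp : Dir S ((z : ℤ) ^ 40) p k) (h0 : nm (p 0) < 2 * (z : ℤ) ^ 1020) (hi : i ≤ k)
    (h : (p i).1 ≤ cB z) : nm (p i) < (z : ℤ) ^ 1022 := by
  have h1 := dp 0 i (Nat.zero_le i) hi
  have h2 := dp.back (by exact_mod_cast hS) (by positivity) (Nat.zero_le i) hi
  have h3 := NonRidge_pow (z := z) (by omega) (by norm_num : 40 < 1020)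
  have h4 := NonRidge_pow (z := z) (by omega) (by norm_num : 1021 < 1022)
  have h5 := abs_lt.1 ((abs_fst_le_nm _).trans_lt h0)
  have h6 := abs_lt.1 ((abs_snd_le_nm _).trans_lt h0)
  have h7 : (0 : ℤ) < (z : ℤ) ^ 40 := pow_pos (by omega) _
  have h8 : (100 * (S + 1) : ℤ) ≤ z := by exact_mod_cast hz
  have h9 : (0 : ℤ) ≤ S := by positivity
  rw [pow_succ' _ 1020] at h4
  unfold cB at h
  rw [nm, max_lt_iff, abs_lt, abs_lt]
  have h10 := abs_le.1 h1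
  generalize (z : ℤ) ^ 1022 = C at *
  generalize (z : ℤ) ^ 1020 = A at *
  generalize (z : ℤ) ^ 40 = B at *
  have h11 : S * ((p i).1 - (p 0).1) ≤ S * (5 * A) := mul_le_mul_of_nonneg_left (by linarith) h9
  have h12 : 100 * (S + 1) * A ≤ z * A := mul_le_mul_of_nonneg_right h8 (by linarith)
  have h13 : 0 ≤ S * A := mul_nonneg h9 (by linarith)
  refine ⟨⟨?_, ?_⟩, ?_, ?_⟩ <;> linarith

theorem NonRidge_ray {N : Seminorm ℝ (ℝ × ℝ)} {c : ℝ} {σ : ℕ → ℝ} {S Λ z : ℕ}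
    (hP : Par N c σ S Λ z) {ω : Env} (hg : Good N S Λ z ω) {o x y : V}
    (hx : nm x < 2 * (z : ℤ) ^ 1020) (hy : nm y = (z : ℤ) ^ 1022) (ho : On ω x y o)
    (hd : |(rv (y - x)).2| ≤ σ 1 * (rv (y - x)).1) : ∃ (p : ℕ → V) (k : ℕ), Ray S z ω o p k ∧
      p 0 = x ∧ ∀ i ≤ fi p (cB z), nm (p i) ≤ (z : ℤ) ^ 1022 ∧ On ω x (p i) o := by
  obtain ⟨hS, hz⟩ := NonRidge_par hP
  obtain ⟨p, k, gp, rfl, rfl⟩ := hg.1.2.1 x y
  have h1 := NonRidge_pow (z := z) (by omega) (by norm_num : 1015 < 1020)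
  have h2 := NonRidge_pow (z := z) (by omega) (by norm_num : 1020 < 1021)
  have h3 := NonRidge_pow (z := z) (by omega) (by norm_num : 1021 < 1022)
  have h4 : (0 : ℤ) < (z : ℤ) ^ 1015 := pow_pos (by omega) _
  have h5 := nm_add_le (p k - p 0) (p 0)
  rw [sub_add_cancel] at h5
  have dp := dir_of_len hP hg.2.1 hg.2.2.1 gp (by linarith) hy.le hd (by linarith)
  have h6 : cB z ≤ (p k).1 := le_of_not_gt fun h =>
    (NonRidge_box hS hz dp hx le_rfl h.le).ne hy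
  have h7 : (p 0).1 < cB z := by
    have := (NonRidge_inS (by omega) hx).2
    unfold cA at this
    unfold cB
    linarith
  obtain ⟨f1, -, f3, -, f5⟩ := gp.1.fi_spec h7 h6
  refine ⟨p, k, ⟨gp, dp, h6, ho⟩, rfl, fun i hi => ⟨(NonRidge_box hS hz dp hx (hi.trans f1) ?_).le,
    (gp.on_of_on ho (hi.trans f1)).1⟩⟩
  rcases hi.eq_or_lt with e | e
  · rw [e, f3]
  · exact (f5 i e).le

theorem NonRidge_ord {S z : ℕ} (hS : 1 ≤ S) (hz : 100 * (S + 1) ≤ z) {ω : Env} (hn : Nice ω) {o : V}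
    {p q : ℕ → V} {k l : ℕ} (hp : Ray S z ω o p k) (hq : Ray S z ω o q l) (ip : InS z (p 0))
    (iq : InS z (q 0)) (h1 : |(q 0).1 - (p 0).1| ≤ z) (h2 : (z : ℤ) ^ 41 - z ≤ (q 0).2 - (p 0).2)
    {a : ℤ} (ha : cA z ≤ a) (ha' : a ≤ cB z) : ht p a ≤ ht q a := by
  refine ord (by positivity) hp.1.1 hq.1.1 hp.2.1 hq.2.1
    (hn.ray_merge hp.1 hq.1 hp.2.2.2 hq.2.2.2) (lt_of_lt_of_le ?_ h2) (ip.2.trans_le ha)
    (iq.2.trans_le ha) (ha'.trans hp.2.2.1) (ha'.trans hq.2.2.1)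
  have h3 := NonRidge_pow (z := z) (by omega) (by norm_num : 40 < 41)
  have h4 := NonRidge_pow (z := z) (by omega) (by norm_num : 2 < 40)
  have h5 : (100 * (S + 1) : ℤ) ≤ z := by exact_mod_cast hz
  have h6 : (0 : ℤ) ≤ S := by positivity
  have h7 := mul_le_mul_of_nonneg_left h1 h6
  have h8 : (0 : ℤ) < z := by linarith
  generalize (z : ℤ) ^ 41 = C at *
  generalize (z : ℤ) ^ 40 = B at *
  nlinarith

/-- the two directed geodesics of a deep pair -/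
theorem rays_of_dirE {N : Seminorm ℝ (ℝ × ℝ)} {c : ℝ} {σ : ℕ → ℝ} {S Λ z : ℕ}
    (hP : Par N c σ S Λ z) {ω : Env} (hg : Good N S Λ z ω) {o η u : V} (hη : nm η ≤ (z : ℤ))
    (hu : u ∈ box z) (hd : Deep z ω o u η) (he : DirE σ z ω o u η) :
    ∃ (p : ℕ → V) (k : ℕ) (q : ℕ → V) (l : ℕ), Ray S z ω o p k ∧ Ray S z ω o q l ∧ p 0 = u ∧
      q 0 = u + η ∧ (z : ℤ) ^ 1066 ≤ gap z (ht p) (ht q) := by
  obtain ⟨hS, hz⟩ := NonRidge_par hP
  obtain ⟨h1, h2⟩ := NonRidge_start hS hz hη hu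
  obtain ⟨y, y', y1, y2, y3, y4, y5, y6⟩ := he
  obtain ⟨p, k, p1, p2, p3⟩ := NonRidge_ray hP hg h1 y1 y3 y5
  obtain ⟨q, l, q1, q2, q3⟩ := NonRidge_ray hP hg h2 y2 y4 y6
  exact ⟨p, k, q, l, p1, q1, p2, q2, hg.2.2.2 p k q l p1.1 q1.1 p1.2.1 q1.2.1
    (p2 ▸ NonRidge_inS (by omega) h1) (q2 ▸ NonRidge_inS (by omega) h2) p1.2.2.1 q1.2.2.1
    fun i hi j hj e => hd ⟨p i, (p3 i hi).1, (p3 i hi).2, e ▸ (q3 j hj).2⟩⟩

/-- disjoint intervals inside `[-H, H]` -/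
theorem sum_abs_le {ι : Type*} (I : Finset ι) (key : ι → ℤ) (a b : ι → ℤ) {H : ℤ} (hH : 0 ≤ H)
    (hinj : ∀ i ∈ I, ∀ j ∈ I, key i = key j → i = j)
    (hb : ∀ i ∈ I, |a i| ≤ H ∧ |b i| ≤ H)
    (ho : ∀ i ∈ I, ∀ j ∈ I, key i < key j → max (a i) (b i) ≤ min (a j) (b j)) :
    ∑ i ∈ I, |a i - b i| ≤ 2 * H := by
  have h1 : ∀ i, |a i - b i| = ((Finset.Ico (min (a i) (b i)) (max (a i) (b i))).card : ℤ) :=
    fun i => by rw [Int.card_Ico_of_le _ _ min_le_max, max_sub_min_eq_abs']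
  have h2 : (I : Set ι).PairwiseDisjoint fun i => Finset.Ico (min (a i) (b i)) (max (a i) (b i)) := by
    intro i hi j hj e
    refine Finset.disjoint_left.2 fun x x1 x2 => ?_
    rw [Finset.mem_Ico] at x1 x2
    rcases lt_trichotomy (key i) (key j) with h | h | h
    · linarith [ho i hi j hj h]
    · exact e (hinj i hi j hj h)
    · linarith [ho j hj i hi h]
  have h3 : I.biUnion (fun i => Finset.Ico (min (a i) (b i)) (max (a i) (b i))) ⊆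
      Finset.Ico (-H) H := Finset.biUnion_subset.2 fun i hi =>
    Finset.Ico_subset_Ico (le_min (abs_le.1 (hb i hi).1).1 (abs_le.1 (hb i hi).2).1)
      (max_le (abs_le.1 (hb i hi).1).2 (abs_le.1 (hb i hi).2).2)
  have h4 := Int.card_Ico_of_le (-H) H (by linarith)
  have h5 := Finset.card_le_card h3
  rw [Finset.card_biUnion h2] at h5
  simp only [h1]
  rw [← Nat.cast_sum]
  linarith [(Int.ofNat_le.2 h5 : _)]

open Classical in
theorem nonridge_count {N : Seminorm ℝ (ℝ × ℝ)} {c : ℝ} {σ : ℕ → ℝ} {S Λ z : ℕ}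
    (hP : Par N c σ S Λ z) {ω : Env} (hg : Good N S Λ z ω) (o η : V) (hη : nm η ≤ (z : ℤ)) :
    ((box z).filter (fun u => Deep z ω o u η ∧ DirE σ z ω o u η)).card ≤ 30 * z ^ 2037 := by
  obtain ⟨hS, hz⟩ := NonRidge_par hP
  have z0 : (0 : ℤ) < z := by omega
  have H : ∀ u : V, ∃ (p : ℕ → V) (k : ℕ) (q : ℕ → V) (l : ℕ),
      u ∈ (box z).filter (fun u => Deep z ω o u η ∧ DirE σ z ω o u η) →
        (Ray S z ω o p k ∧ Ray S z ω o q l ∧ p 0 = u ∧ q 0 = u + η ∧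
          (z : ℤ) ^ 1066 ≤ gap z (ht p) (ht q)) ∧ InS z (p 0) ∧ InS z (q 0) := fun u => by
    by_cases hu : u ∈ (box z).filter (fun u => Deep z ω o u η ∧ DirE σ z ω o u η)
    · obtain ⟨u1, u2, u3⟩ := Finset.mem_filter.1 hu
      obtain ⟨p, k, q, l, h⟩ := rays_of_dirE hP hg hη u1 u2 u3
      obtain ⟨h1, h2⟩ := NonRidge_start hS hz hη u1
      exact ⟨p, k, q, l, fun _ => ⟨h, h.2.2.1 ▸ NonRidge_inS (by omega) h1,
        h.2.2.2.1 ▸ NonRidge_inS (by omega) h2⟩⟩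
    · exact ⟨fun _ => u, 0, fun _ => u, 0, fun h => absurd h hu⟩
  have hD : ∀ u ∈ (box z).filter (fun u => Deep z ω o u η ∧ DirE σ z ω o u η), u ∈ box z :=
    fun u hu => (Finset.mem_filter.1 hu).1
  generalize (box z).filter (fun u => Deep z ω o u η ∧ DirE σ z ω o u η) = D at H hD ⊢
  choose p k q l H using H
  obtain ⟨e1, e2⟩ := nm_le_iff.1 hη
  refine (Finset.card_le_mul_card_image_of_maps_to (f := fun u : V => (u.1, u.2 % (z : ℤ) ^ 41))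
    (t := Finset.Icc (-(z : ℤ) ^ 1020) ((z : ℤ) ^ 1020) ×ˢ Finset.Ico 0 ((z : ℤ) ^ 41))
    (fun u hu => ?_) (8 * z ^ 976) fun b _ => ?_).trans ?_
  · exact Finset.mem_product.2 ⟨(Finset.mem_product.1 (hD u hu)).1, Finset.mem_Ico.2
      ⟨Int.emod_nonneg _ (pow_pos z0 _).ne', Int.emod_lt_of_pos _ (pow_pos z0 _)⟩⟩
  · have hI : ∀ u ∈ D.filter (fun u : V => (u.1, u.2 % (z : ℤ) ^ 41) = b),
        u ∈ D ∧ u.1 = b.1 ∧ u.2 % (z : ℤ) ^ 41 = b.2 := fun u hu =>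
      ⟨(Finset.mem_filter.1 hu).1, Prod.ext_iff.1 (Finset.mem_filter.1 hu).2⟩
    generalize D.filter (fun u : V => (u.1, u.2 % (z : ℤ) ^ 41) = b) = I at hI ⊢
    have h1 := sum_gap_le (z := z) (by omega) I (fun u => ht (p u)) (fun u => ht (q u))
      (H := 2 * (z : ℤ) ^ 1022) fun a a1 a2 => by
        refine sum_abs_le I (fun u => u.2) _ _ (by positivity)
          (fun u hu v hv e => Prod.ext ((hI u hu).2.1.trans (hI v hv).2.1.symm) e)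
          (fun u hu => ?_) fun u hu v hv e => ?_
        · obtain ⟨⟨r1, r2, -⟩, i1, i2⟩ := H u (hI u hu).1
          have b1 := ht_bound hS hz r1.1.1 r1.2.1 i1 r1.2.2.1 a1 a2
          have b2 := ht_bound hS hz r2.1.1 r2.2.1 i2 r2.2.2.1 a1 a2
          exact ⟨by linarith [abs_nonneg (ht (p u) a)], by linarith [abs_nonneg (ht (q u) a)]⟩
        · obtain ⟨⟨r1, r2, r3, r4, -⟩, i1, i2⟩ := H u (hI u hu).1
          obtain ⟨⟨s1, s2, s3, s4, -⟩, j1, j2⟩ := H v (hI v hv).1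
          have c1 : v.1 = u.1 := (hI v hv).2.1.trans (hI u hu).2.1.symm
          have c2 : (z : ℤ) ^ 41 ≤ v.2 - u.2 := Int.le_of_dvd (sub_pos.2 e)
            (Int.ModEq.dvd ((hI u hu).2.2.trans (hI v hv).2.2.symm))
          have c3 := abs_le.1 e1
          have c4 := abs_le.1 e2
          refine max_le (le_min (NonRidge_ord hS hz hg.1 r1 s1 i1 j1 ?_ ?_ a1 a2)
            (NonRidge_ord hS hz hg.1 r1 s2 i1 j2 ?_ ?_ a1 a2))
            (le_min (NonRidge_ord hS hz hg.1 r2 s1 i2 j1 ?_ ?_ a1 a2)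
              (NonRidge_ord hS hz hg.1 r2 s2 i2 j2 ?_ ?_ a1 a2))
          all_goals simp only [r3, r4, s3, s4, Prod.fst_add, Prod.snd_add, abs_le]
          all_goals first | (constructor <;> linarith) | linarith
    have h2 := Finset.card_nsmul_le_sum I _ _ fun u hu => (H u (hI u hu).1).1.2.2.2.2
    have h3 := h2.trans h1
    rw [nsmul_eq_mul, show 4 * (z : ℤ) ^ 1020 * (2 * (z : ℤ) ^ 1022) =
      8 * (z : ℤ) ^ 976 * (z : ℤ) ^ 1066 by ring] at h3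
    exact_mod_cast le_of_mul_le_mul_right h3 (pow_pos z0 _)
  · have h1 := Int.card_Icc_of_le (-(z : ℤ) ^ 1020) ((z : ℤ) ^ 1020)
      (by linarith [pow_pos z0 1020])
    have h2 := Int.card_Ico_of_le 0 ((z : ℤ) ^ 41) (pow_pos z0 _).le
    have h3 : (1 : ℤ) ≤ (z : ℤ) ^ 1020 := pow_pos z0 _
    rw [Finset.card_product]
    zify
    rw [h1, h2, sub_zero]
    calc 8 * (z : ℤ) ^ 976 * (((z : ℤ) ^ 1020 + 1 - -(z : ℤ) ^ 1020) * (z : ℤ) ^ 41)
        ≤ 10 * (z : ℤ) ^ 976 * (3 * (z : ℤ) ^ 1020 * (z : ℤ) ^ 41) :=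
          mul_le_mul (mul_le_mul_of_nonneg_right (by norm_num) (by positivity))
            (mul_le_mul_of_nonneg_right (by linarith) (by positivity))
            (mul_nonneg (by linarith) (by positivity)) (by positivity)
      _ = 30 * (z : ℤ) ^ 2037 := by ring

end Pool.Agent.FPP
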