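import Pool.Agent.P.MP_ecb9f8_pr.Ridge
import Pool.Agent.P.MP_ecb9f8_pr.NonRidge

open MeasureTheory ProbabilityTheory Set Filter

noncomputable section

namespace Pool.Agent.FPP

def fr1 : V ≃ V := ⟨fun v => (-v.1, v.2), fun v => (-v.1, v.2), fun v => by simp, fun v => by simp⟩
def fr2 : V ≃ V := ⟨fun v => (v.2, v.1), fun v => (v.2, v.1), fun v => by simp, fun v => by simp⟩
def fr3 : V ≃ V := ⟨fun v => (v.2, -v.1), fun v => (-v.2, v.1), fun v => by simp, fun v => by simp⟩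

/-- the good event in the four frames -/
def Good4 (N : Seminorm ℝ (ℝ × ℝ)) (S Λ z : ℕ) (ω : Env) : Prop :=
  Good N S Λ z ω ∧ Good N S Λ z (pull fr1 ω) ∧ Good N S Λ z (pull fr2 ω) ∧
    Good N S Λ z (pull fr3 ω)

theorem Local_mem_box {z : ℕ} {u : V} : u ∈ box z ↔ nm u ≤ (z : ℤ) ^ 1020 := by
  simp only [box, Finset.mem_product, Finset.mem_Icc, nm_le_iff, abs_le]

theorem Local_exit {ω : Env} (hn : Nice ω) {v o : V} {M : ℤ} (h1 : nm v ≤ M) (h2 : M ≤ nm o) :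
    ∃ y, nm y = M ∧ On ω v y o := by
  obtain ⟨p, k, hp, rfl, rfl⟩ := hn.2.1 v o
  obtain ⟨t, -, ht, e, -⟩ := hp.1.ivt nm (fun a b h => by
    have h1 := nm_add_le a (b - a)
    have h2 := h.nm_le
    rw [add_sub_cancel] at h1
    omega) (Nat.zero_le k) le_rfl h1 h2
  exact ⟨p t, e, hp.add (Nat.zero_le t) ht le_rfl⟩

theorem Local_z {N : Seminorm ℝ (ℝ × ℝ)} {c : ℝ} {σ : ℕ → ℝ} {S Λ z : ℕ}
    (hP : Par N c σ S Λ z) : 200 ≤ z := by
  obtain ⟨-, -, h1, h2, h3, -⟩ := hP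
  nlinarith

theorem Local_pow {z : ℕ} (h : 200 ≤ z) : (z : ℤ) ^ 1020 + z ≤ (z : ℤ) ^ 1022 := by
  have h0 : (200 : ℤ) ≤ z := by exact_mod_cast h
  have h1 : (z : ℤ) ≤ (z : ℤ) ^ 1020 := le_self_pow₀ (by linarith) (by norm_num)
  have h2 : (z : ℤ) ^ 1022 = (z : ℤ) ^ 1020 * (z * z) := by ring
  rw [h2]
  generalize (z : ℤ) ^ 1020 = A at h1 ⊢
  have : (2 : ℤ) ≤ z * z := by nlinarith
  nlinarith

open Classical in
/-- one frame -/
theorem east_count {N : Seminorm ℝ (ℝ × ℝ)} {c : ℝ} {σ : ℕ → ℝ} {S Λ z : ℕ}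
    (hP : Par N c σ S Λ z) {ω : Env} (hg : Good N S Λ z ω) (o η : V) (hη : nm η ≤ (z : ℤ))
    (ho : (z : ℤ) ^ 1022 < nm o) :
    ((box z).filter (fun u => Deep z ω o u η ∧ ∃ y : V, nm y = (z : ℤ) ^ 1022 ∧ On ω u y o ∧
      |(y - u).2| ≤ (y - u).1)).card ≤ 31 * z ^ 2037 := by
  have hz := Local_z hP
  have h1 := ridge_count hP hg.2.1 o η hη
  have h2 := nonridge_count hP hg o η hη
  have h3 : z ^ 1800 ≤ z ^ 2037 := Nat.pow_le_pow_right (by omega) (by norm_num)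
  have hσ : 1 ≤ σ 1 := hP.1.2.1 ▸ hP.1.2.2.1 (Nat.zero_le 1)
  refine ((Finset.card_le_card ?_).trans (Finset.card_union_le _ _)).trans
    ((add_le_add (h1.trans h3) h2).trans_eq (by ring))
  intro u hu
  obtain ⟨hb, hd, y, y1, y2, y3⟩ := Finset.mem_filter.1 hu
  obtain ⟨y', y1', y2'⟩ := Local_exit hg.1 (v := u + η) (((nm_add_le u η).trans
    (add_le_add (Local_mem_box.1 hb) hη)).trans (Local_pow hz)) ho.le
  rcases le_total (σ 1 * (rv (y' - (u + η))).1) |(rv (y' - (u + η))).2| with e | e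
  · exact Finset.mem_union_left _ (Finset.mem_filter.2 ⟨hb, y, y', y1, y1', y2, y2', y3, e⟩)
  · refine Finset.mem_union_right _
      (Finset.mem_filter.2 ⟨hb, hd, y, y', y1, y1', y2, y2', ?_, e⟩)
    have h4 : |(rv (y - u)).2| ≤ (rv (y - u)).1 := by
      change |((y - u).2 : ℝ)| ≤ ((y - u).1 : ℝ)
      exact_mod_cast y3
    exact h4.trans (le_mul_of_one_le_left ((abs_nonneg _).trans h4) hσ)

open Classical in
theorem Local_frame {N : Seminorm ℝ (ℝ × ℝ)} {c : ℝ} {σ : ℕ → ℝ} {S Λ z : ℕ}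
    (hP : Par N c σ S Λ z) {ω : Env} (φ : V ≃ V) (hφ : ∀ a b, Adj (φ a) (φ b) ↔ Adj a b)
    (ha : ∀ a b, φ (a + b) = φ a + φ b) (hn : ∀ a, nm (φ a) = nm a)
    (hg : Good N S Λ z (pull φ ω)) (o η : V) (hη : nm η ≤ (z : ℤ)) (ho : (z : ℤ) ^ 1022 < nm o) :
    ((box z).filter (fun u => Deep z ω o u η ∧ ∃ y : V, nm y = (z : ℤ) ^ 1022 ∧ On ω u y o ∧
      |(φ.symm y - φ.symm u).2| ≤ (φ.symm y - φ.symm u).1)).card ≤ 31 * z ^ 2037 := by
  obtain ⟨o, rfl⟩ := φ.surjective o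
  obtain ⟨η, rfl⟩ := φ.surjective η
  rw [hn] at hη ho
  refine (Finset.card_le_card_of_injOn φ.symm (fun u hu => ?_) φ.symm.injective.injOn).trans
    (east_count hP hg o η hη ho)
  obtain ⟨u, rfl⟩ := φ.surjective u
  obtain ⟨hb, hd, y, y1, y2, y3⟩ := Finset.mem_filter.1 hu
  obtain ⟨y, rfl⟩ := φ.surjective y
  rw [φ.symm_apply_apply, φ.symm_apply_apply] at y3
  rw [φ.symm_apply_apply]
  refine Finset.mem_filter.2 ⟨Local_mem_box.2 (hn u ▸ Local_mem_box.1 hb), ?_, y, hn y ▸ y1,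
    (On_pull φ hφ ω _ _ _).2 y2, y3⟩
  rintro ⟨w, w1, w2, w3⟩
  exact hd ⟨φ w, (hn w).trans_le w1, (On_pull φ hφ ω _ _ _).1 w2,
    ha u η ▸ (On_pull φ hφ ω _ _ _).1 w3⟩

open Classical in
theorem local_count {N : Seminorm ℝ (ℝ × ℝ)} {c : ℝ} {σ : ℕ → ℝ} {S Λ z : ℕ}
    (hP : Par N c σ S Λ z) {ω : Env} (hg : Good4 N S Λ z ω) (o η : V) (hη : nm η ≤ (z : ℤ))
    (ho : (z : ℤ) ^ 1022 < nm o) :
    ((box z).filter (fun u => Deep z ω o u η)).card ≤ z ^ 2039 := by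
  have hz := Local_z hP
  have n : ∀ a b : ℤ, |-a - -b| = |a - b| := fun a b => by rw [neg_sub_neg, abs_sub_comm]
  have h0 := east_count hP hg.1 o η hη ho
  have h1 := Local_frame hP fr1 (fun a b => by simp only [Adj, fr1, Equiv.coe_fn_mk, n])
    (fun a b => Prod.ext (neg_add _ _) rfl)
    (fun a => by simp only [nm, fr1, Equiv.coe_fn_mk, abs_neg]) hg.2.1 o η hη ho
  have h2 := Local_frame hP fr2 (fun a b => by simp only [Adj, fr2, Equiv.coe_fn_mk, add_comm])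
    (fun a b => rfl) (fun a => max_comm _ _) hg.2.2.1 o η hη ho
  have h3 := Local_frame hP fr3 (fun a b => by simp only [Adj, fr3, Equiv.coe_fn_mk, n, add_comm])
    (fun a b => Prod.ext rfl (neg_add _ _))
    (fun a => by simp only [nm, fr3, Equiv.coe_fn_mk, abs_neg, max_comm]) hg.2.2.2 o η hη ho
  have h4 : 31 * z ^ 2037 + 31 * z ^ 2037 + (31 * z ^ 2037 + 31 * z ^ 2037) ≤ z ^ 2039 := by
    have : z ^ 2039 = z * z * z ^ 2037 := by ring
    rw [this]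
    generalize z ^ 2037 = A
    have : 124 ≤ z * z := by nlinarith
    nlinarith
  refine ((Finset.card_le_card ?_).trans ((Finset.card_union_le _ _).trans (add_le_add
    ((Finset.card_union_le _ _).trans (add_le_add h0 h1))
    ((Finset.card_union_le _ _).trans (add_le_add h2 h3))))).trans h4
  intro u hu
  obtain ⟨hb, hd⟩ := Finset.mem_filter.1 hu
  obtain ⟨y, y1, y2⟩ := Local_exit hg.1.1 (((le_add_of_nonneg_right (Int.natCast_nonneg z)).trans'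
    (Local_mem_box.1 hb)).trans (Local_pow hz)) ho.le
  have : (|y.2 - u.2| ≤ y.1 - u.1 ∨ |y.2 - u.2| ≤ -y.1 - -u.1) ∨
      |y.1 - u.1| ≤ y.2 - u.2 ∨ |y.1 - u.1| ≤ -y.2 - -u.2 := by
    simp only [abs_le]
    omega
  simp only [Finset.mem_union, Finset.mem_filter]
  rcases this with (e | e) | e | e
  · exact Or.inl (Or.inl ⟨hb, hd, y, y1, y2, e⟩)
  · exact Or.inl (Or.inr ⟨hb, hd, y, y1, y2, e⟩)
  · exact Or.inr (Or.inl ⟨hb, hd, y, y1, y2, e⟩)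
  · exact Or.inr (Or.inr ⟨hb, hd, y, y1, y2, e⟩)

end Pool.Agent.FPP
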