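import Pool.Agent.P.MP_ecb9f8_pr.Dbl
import Pool.Agent.P.MP_ecb9f8_pr.Conv1

open MeasureTheory ProbabilityTheory Set Filter

noncomputable section

namespace Pool.Agent.FPP

variable (G : Measure ℝ) [IsProbabilityMeasure G]

/-- `N` is the time constant -/
def IsTC (G : Measure ℝ) (N : Seminorm ℝ (ℝ × ℝ)) : Prop :=
  ∀ v : V, Tendsto (fun k : ℕ => g G (k • v) / (k : ℝ)) atTop (nhds (N (rv v)))

theorem NRF_nm (k : ℕ) (v : V) : nm (k • v) = k * nm v := by
  rw [nm, nm, Prod.smul_fst, Prod.smul_snd, mul_max_of_nonneg _ _ (Int.natCast_nonneg k)]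
  simp only [nsmul_eq_mul, abs_mul, Nat.abs_cast]

theorem NRF_nm_nonneg (v : V) : 0 ≤ nm v := (abs_nonneg _).trans (le_max_left _ _)

/-- eight doublings -/
theorem NRF_eight {f : V → ℝ} {C : ℝ} (hC : 0 ≤ C) {x₀ : ℕ}
    (h : ∀ x ≥ x₀, ∀ v : V, nm v ≤ (x : ℤ) ^ 8 → 2 * f v ≤ f ((2 : ℕ) • v) + C * (x : ℝ) ^ 6)
    {x : ℕ} (hx : x₀ ≤ x) {v : V} (hv : nm v ≤ (x : ℤ) ^ 8) :
    f v ≤ f ((256 : ℕ) • v) / 256 + 64 * (C * (x : ℝ) ^ 6) := by
  have key : ∀ j ≤ 8, 2 ^ j * f v ≤ f ((2 ^ j : ℕ) • v) + (2 ^ j - 1) * (64 * (C * (x : ℝ) ^ 6)) := by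
    intro j
    induction j with
    | zero => simp
    | succ j ih =>
      intro hj
      have h1 := ih (by omega)
      have h2 := h (2 * x) (by omega) ((2 ^ j : ℕ) • v) (by
        rw [NRF_nm]
        have : ((2 ^ j : ℕ) : ℤ) ≤ 2 ^ 8 := by
          exact_mod_cast Nat.pow_le_pow_right (by norm_num) (by omega)
        have h0 := NRF_nm_nonneg v
        push_cast at this ⊢
        rw [mul_pow]
        exact mul_le_mul this hv h0 (by norm_num))
      rw [smul_smul, ← pow_succ'] at h2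
      push_cast at h2
      rw [pow_succ (2 : ℝ) j]
      nlinarith
  have h8 := key 8 le_rfl
  have : 0 ≤ C * (x : ℝ) ^ 6 := by positivity
  norm_num at h8 ⊢
  linarith

theorem nrf (hG : Law G) {N : Seminorm ℝ (ℝ × ℝ)} (hN : IsTC G N) :
    ∃ C : ℝ, 0 ≤ C ∧ ∀ᶠ x : ℕ in atTop, ∀ v : V, nm v ≤ (x : ℤ) ^ 8 →
      N (rv v) ≤ g G v ∧ g G v ≤ N (rv v) + C * (x : ℝ) ^ 6 := by
  obtain ⟨C, hC, h⟩ := dbl G hG
  obtain ⟨x₀, h⟩ := eventually_atTop.mp h
  refine ⟨128 * C, by positivity, eventually_atTop.mpr ⟨x₀, fun x hx v hv => ⟨?_, ?_⟩⟩⟩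
  · refine le_of_tendsto (hN v) (eventually_atTop.mpr ⟨1, fun k hk => ?_⟩)
    have h1 := g_sum_le G hG (Finset.range k) fun _ => v
    simp only [Finset.sum_const, Finset.card_range] at h1
    rw [div_le_iff₀ (by exact_mod_cast hk), mul_comm, ← nsmul_eq_mul]
    exact h1
  · have hK : 0 ≤ C * (x : ℝ) ^ 6 := by positivity
    have key : ∀ m : ℕ, g G v ≤ g G ((256 ^ m : ℕ) • v) / ((256 ^ m : ℕ) : ℝ) +
        128 * (C * (x : ℝ) ^ 6) * (1 - (1 / 4) ^ m) := by
      intro m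
      induction m with
      | zero => simp
      | succ m ih =>
        have h2 := NRF_eight hC h (x := 2 ^ m * x)
          (hx.trans (Nat.le_mul_of_pos_left _ (by positivity))) (v := (256 ^ m : ℕ) • v) (by
            rw [NRF_nm]
            push_cast
            rw [mul_pow, ← pow_mul, mul_comm m 8, pow_mul]
            norm_num
            exact hv)
        rw [smul_smul, ← pow_succ'] at h2
        have h3 := div_le_div_of_nonneg_right h2 (show (0 : ℝ) ≤ 256 ^ m by positivity)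
        have e : (g G ((256 ^ (m + 1) : ℕ) • v) / 256 + 64 * (C * ((2 ^ m * x : ℕ) : ℝ) ^ 6)) /
            256 ^ m = g G ((256 ^ (m + 1) : ℕ) • v) / 256 ^ (m + 1) +
              64 * (C * (x : ℝ) ^ 6) * (1 / 4) ^ m := by
          have e1 : (256 : ℝ) ^ m = (2 ^ m) ^ 6 * 4 ^ m := by
            rw [← pow_mul, mul_comm m 6, pow_mul, ← mul_pow]
            norm_num
          push_cast
          rw [pow_succ (256 : ℝ) m, e1, one_div, inv_pow]
          field_simp
        rw [e] at h3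
        push_cast at ih ⊢
        rw [pow_succ (1 / 4 : ℝ) m]
        have : 0 ≤ C * (x : ℝ) ^ 6 * (1 / 4) ^ m := by positivity
        nlinarith
    have lim := ((hN v).comp (tendsto_pow_atTop_atTop_of_one_lt (show 1 < 256 by norm_num))).add_const
      (128 * C * (x : ℝ) ^ 6)
    refine ge_of_tendsto' lim fun m => (key m).trans ?_
    have : 0 ≤ C * (x : ℝ) ^ 6 * (1 / 4) ^ m := by positivity
    simp only [Function.comp]
    nlinarith

theorem app_of_con (hG : Law G) {N : Seminorm ℝ (ℝ × ℝ)} (hN : IsTC G N) :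
    ∀ᶠ z : ℕ in atTop, ∀ ω, CON G z ω → APP N z ω := by
  obtain ⟨C, hC, h⟩ := nrf G hG hN
  obtain ⟨x₀, h⟩ := eventually_atTop.mp h
  filter_upwards [eventually_ge_atTop x₀, eventually_ge_atTop 2,
    tendsto_natCast_atTop_atTop.eventually_ge_atTop (2 * C)] with z h1 h2 h3
  intro ω hω x y hx hy X hX hxy
  have h4 := hω x y hx hy (X ^ 4) (hX.trans (Nat.le_self_pow (by norm_num) X))
    (by push_cast; rwa [← pow_mul])
  obtain ⟨h5, h6⟩ := h X (h1.trans hX) _ hxy
  have hX2 : (2 : ℝ) ≤ X := by exact_mod_cast h2.trans hX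
  have hz : (0 : ℝ) ≤ z := Nat.cast_nonneg z
  have h7 : 2 * (X : ℝ) ^ 4 ≤ (X : ℝ) ^ 6 := by
    have : (X : ℝ) ^ 6 = X ^ 2 * X ^ 4 := by ring
    rw [this]
    exact mul_le_mul_of_nonneg_right (by nlinarith) (by positivity)
  have h8 := mul_le_mul_of_nonneg_left h7 hz
  have h9 := mul_le_mul_of_nonneg_right h3 (show 0 ≤ (X : ℝ) ^ 6 by positivity)
  push_cast at h4
  rw [abs_le] at h4 ⊢
  constructor <;> nlinarith [h4.1, h4.2]

theorem NRF_cont (N : Seminorm ℝ (ℝ × ℝ)) : Continuous N := by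
  obtain ⟨C, hC, h⟩ := seminorm_le N
  refine (LipschitzWith.of_dist_le' (K := C) fun a b => ?_).continuous
  rw [Real.dist_eq, dist_eq_norm]
  exact (abs_sub_map_le_sub N a b).trans (h _)

theorem NRF_ext (N M : Seminorm ℝ (ℝ × ℝ)) (h : ∀ v : V, N (rv v) = M (rv v)) (w : ℝ × ℝ) :
    N w = M w := by
  have hd : DenseRange (Prod.map ((↑) : ℚ → ℝ) ((↑) : ℚ → ℝ)) :=
    Rat.denseRange_cast.prodMap Rat.denseRange_cast
  refine congrFun (hd.equalizer (NRF_cont N) (NRF_cont M) (funext fun q => ?_)) w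
  have e : Prod.map ((↑) : ℚ → ℝ) ((↑) : ℚ → ℝ) q =
      ((q.1.den : ℝ) * q.2.den)⁻¹ • rv (q.1.num * q.2.den, q.2.num * q.1.den) := by
    have h1 : (q.1.den : ℝ) ≠ 0 := by exact_mod_cast q.1.den_ne_zero
    have h2 : (q.2.den : ℝ) ≠ 0 := by exact_mod_cast q.2.den_ne_zero
    refine Prod.ext ?_ ?_
    · simp only [rv, Prod.map_fst, Prod.smul_fst, smul_eq_mul, Rat.cast_def]
      push_cast
      field_simp
    · simp only [rv, Prod.map_snd, Prod.smul_snd, smul_eq_mul, Rat.cast_def]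
      push_cast
      field_simp
  simp only [Function.comp, e, map_smul_eq_mul, h]

theorem tc_refl {N : Seminorm ℝ (ℝ × ℝ)} (hN : IsTC G N) (x y : ℝ) : N (x, -y) = N (x, y) := by
  have := NRF_ext (N.comp (LinearMap.prodMap LinearMap.id (-LinearMap.id))) N (fun v => ?_) (x, y)
  · simpa using this
  · have h1 := hN (v.1, -v.2)
    have e : ∀ k : ℕ, g G (k • (v.1, -v.2)) = g G (k • v) := fun k => by
      rw [Prod.smul_mk, smul_neg]
      exact g_refl G (k • v).1 (k • v).2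
    simp only [e] at h1
    simpa [rv] using tendsto_nhds_unique h1 (hN v)

theorem tc_swap {N : Seminorm ℝ (ℝ × ℝ)} (hN : IsTC G N) (x y : ℝ) : N (y, x) = N (x, y) := by
  have := NRF_ext (N.comp (LinearEquiv.prodComm ℝ ℝ ℝ).toLinearMap) N (fun v => ?_) (x, y)
  · simpa using this
  · have h1 := hN (v.2, v.1)
    have e : ∀ k : ℕ, g G (k • (v.2, v.1)) = g G (k • v) := fun k => g_swap G (k • v).1 (k • v).2
    simp only [e] at h1
    simpa [rv] using tendsto_nhds_unique h1 (hN v)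

end Pool.Agent.FPP
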