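import Pool.Agent.P.MP_ecb9f8_pr.AttProb
import Pool.Agent.P.MP_ecb9f8_pr.AttDet
import Pool.Agent.P.MP_ecb9f8_pr.NRF
import Pool.Agent.P.MP_ecb9f8_pr.Conv2
import Pool.Agent.P.MP_ecb9f8_pr.Local

open MeasureTheory ProbabilityTheory Set Filter

noncomputable section

namespace Pool.Agent.FPP

theorem GoodP_semi (N : Seminorm ℝ (ℝ × ℝ)) (v : ℝ × ℝ) :
    N v ≤ (N (1, 0) + N (0, 1)) * ‖v‖ := by
  have h : v = v.1 • ((1, 0) : ℝ × ℝ) + v.2 • ((0, 1) : ℝ × ℝ) := by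
    ext <;> simp
  have h1 : ‖v.1‖ ≤ ‖v‖ := norm_fst_le v
  have h2 : ‖v.2‖ ≤ ‖v‖ := norm_snd_le v
  have a1 := apply_nonneg N (1, 0)
  have a2 := apply_nonneg N (0, 1)
  calc N v = N (v.1 • ((1, 0) : ℝ × ℝ) + v.2 • ((0, 1) : ℝ × ℝ)) := by rw [← h]
    _ ≤ N (v.1 • ((1, 0) : ℝ × ℝ)) + N (v.2 • ((0, 1) : ℝ × ℝ)) := map_add_le_add N _ _
    _ = ‖v.1‖ * N (1, 0) + ‖v.2‖ * N (0, 1) := by rw [map_smul_eq_mul, map_smul_eq_mul]
    _ ≤ ‖v‖ * N (1, 0) + ‖v‖ * N (0, 1) :=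
        add_le_add (mul_le_mul_of_nonneg_right h1 a1) (mul_le_mul_of_nonneg_right h2 a2)
    _ = (N (1, 0) + N (0, 1)) * ‖v‖ := by ring

theorem GoodP_pull {G : Measure ℝ} [IsProbabilityMeasure G] {A : ℕ → Set Env} (h : SP G A)
    (φ : V ≃ V) : SP G (fun z => {ω | pull φ ω ∈ A z}) := by
  intro k
  filter_upwards [h k] with z hz
  exact (measure_pull_le G φ (A z)).trans hz

theorem GoodP_short (G : Measure ℝ) [IsProbabilityMeasure G] (hG : Law G) :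
    ∀ᶠ z : ℕ in atTop, ∀ ω, CON G z ω → ∀ x y : V, nm x ≤ (z : ℤ) ^ 1024 →
      nm y ≤ (z : ℤ) ^ 1024 → nm (y - x) ≤ (z : ℤ) ^ 240 → d ω x y ≤ (z : ℝ) ^ 241 := by
  obtain ⟨C, hC1, -, hC⟩ := moment_d G hG
  filter_upwards [eventually_ge_atTop (⌈C + 1⌉₊)] with z hz ω hcon x y hx hy hxy
  have hzC : C + 1 ≤ (z : ℝ) := (Nat.le_ceil _).trans (by exact_mod_cast hz)
  have hz1 : (1 : ℝ) ≤ z := by linarith
  have hz1' : 1 ≤ z := by exact_mod_cast hz1
  have hρ : z ≤ z ^ 120 := Nat.le_self_pow (by norm_num) z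
  have hsq : nm (y - x) ≤ ((z ^ 120 : ℕ) : ℤ) ^ 2 := by
    have : ((z ^ 120 : ℕ) : ℤ) ^ 2 = (z : ℤ) ^ 240 := by
      rw [Nat.cast_pow, ← pow_mul]
    rw [this]; exact hxy
  have h1 := hcon x y hx hy (z ^ 120) hρ hsq
  have h2 : d ω x y ≤ g G (y - x) + (z : ℝ) * ((z ^ 120 : ℕ) : ℝ) := by
    have := (abs_le.1 h1).2
    linarith
  have h3 : ((nm (y - x) : ℤ) : ℝ) ≤ (z : ℝ) ^ 240 := by exact_mod_cast hxy
  have h4 : g G (y - x) ≤ C * (z : ℝ) ^ 240 :=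
    (hC _).trans (mul_le_mul_of_nonneg_left h3 (by linarith))
  have h5 : (z : ℝ) * ((z ^ 120 : ℕ) : ℝ) ≤ (z : ℝ) ^ 240 := by
    rw [Nat.cast_pow, ← pow_succ']
    exact pow_le_pow_right₀ hz1 (by norm_num)
  have h6 : (z : ℝ) ^ 241 = (z : ℝ) * (z : ℝ) ^ 240 := by rw [← pow_succ']
  have h7 : (0 : ℝ) ≤ (z : ℝ) ^ 240 := by positivity
  rw [h6]
  generalize (z : ℝ) ^ 240 = A at *
  nlinarith

theorem GoodP_good (G : Measure ℝ) [IsProbabilityMeasure G] (hG : Law G)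
    {N : Seminorm ℝ (ℝ × ℝ)} (hN : IsTC G N) {S Λ : ℕ} (hS : 1 ≤ S)
    (hl : SP G (fun z => {ω | ¬ LEN Λ z ω})) : SP G (fun z => {ω | ¬ Good N S Λ z ω}) := by
  have h := (((SP.of_ae (ae_nice G hG)).union (sp_con hG)).union hl).union
    (sp_nobad G hG S (Λ * (S + 1)) hS)
  refine h.mono ?_
  filter_upwards [app_of_con G hG hN, GoodP_short G hG, eventually_ge_atTop (100 * (S + 1))]
    with z h1 h2 h3 ω hω
  by_contra hn
  simp only [mem_union, mem_setOf_eq, not_or, not_not] at hn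
  obtain ⟨⟨⟨a1, a2⟩, a3⟩, a4⟩ := hn
  exact hω ⟨a1, h1 ω a2, a3, att_det hS h3 a1.1 a3 (h2 ω a2) a4⟩

/-- the constants and the good event -/
theorem exists_par (G : Measure ℝ) [IsProbabilityMeasure G] (hG : Law G)
    {N : Seminorm ℝ (ℝ × ℝ)} (hN : IsTC G N) {c : ℝ} {σ : ℕ → ℝ} (hc : Cone N c σ) :
    ∃ S Λ : ℕ, (∀ᶠ z : ℕ in atTop, Par N c σ S Λ z) ∧
      SP G (fun z => {ω | ¬ Good4 N S Λ z ω}) := by
  obtain ⟨Λ, hΛ, hl⟩ := sp_len hG
  have hS : 1 ≤ ⌈σ 130⌉₊ + 1 := Nat.le_add_left 1 _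
  refine ⟨⌈σ 130⌉₊ + 1, Λ, ?_, ?_⟩
  · filter_upwards [eventually_ge_atTop (100 * (⌈σ 130⌉₊ + 1 + 1) * Λ),
      eventually_ge_atTop ⌈100 / c⌉₊, eventually_ge_atTop ⌈N (1, 0) + N (0, 1)⌉₊] with z h1 h2 h3
    refine ⟨hc, ?_, hS, hΛ, h1, ?_, ?_⟩
    · have := Nat.le_ceil (σ 130)
      push_cast
      linarith
    · have h4 : 100 / c ≤ (z : ℝ) := (Nat.le_ceil _).trans (by exact_mod_cast h2)
      rw [div_le_iff₀ hc.1] at h4
      linarith
    · intro v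
      have h4 : N (1, 0) + N (0, 1) ≤ (z : ℝ) := (Nat.le_ceil _).trans (by exact_mod_cast h3)
      exact (GoodP_semi N v).trans (mul_le_mul_of_nonneg_right h4 (norm_nonneg v))
  · have h0 := GoodP_good G hG hN hS hl
    have h := ((h0.union (GoodP_pull h0 fr1)).union (GoodP_pull h0 fr2)).union
      (GoodP_pull h0 fr3)
    refine h.mono (Eventually.of_forall fun z ω hω => ?_)
    by_contra hn
    simp only [mem_union, mem_setOf_eq, not_or, not_not] at hn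
    obtain ⟨⟨⟨a1, a2⟩, a3⟩, a4⟩ := hn
    exact hω ⟨a1, a2, a3, a4⟩

/-- averaging: a deterministic bound on the number of events that occur -/
theorem sum_measure_le {ι : Type*} (G : Measure ℝ) [IsProbabilityMeasure G] (I : Finset ι)
    (A : ι → Set Env) (mA : ∀ i ∈ I, MeasurableSet (A i)) (B : Set Env) (m : ℕ)
    (h : ∀ ω, ω ∉ B → ∀ J : Finset ι, J ⊆ I → (∀ i ∈ J, ω ∈ A i) → J.card ≤ m) :
    ∑ i ∈ I, PP G (A i) ≤ (I.card : ENNReal) * PP G B + (m : ENNReal) := by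
  classical
  have mB : MeasurableSet (toMeasurable (PP G) B) := measurableSet_toMeasurable _ _
  have e1 : ∑ i ∈ I, PP G (A i)
      = ∫⁻ ω, ∑ i ∈ I, (A i).indicator (fun _ => (1 : ENNReal)) ω ∂(PP G) := by
    rw [lintegral_finset_sum _ (fun i hi => measurable_const.indicator (mA i hi))]
    refine Finset.sum_congr rfl fun i hi => ?_
    rw [lintegral_indicator_const (mA i hi), one_mul]
  have e2 : ∫⁻ ω, ((toMeasurable (PP G) B).indicator (fun _ => (I.card : ENNReal)) ω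
      + (m : ENNReal)) ∂(PP G) = (I.card : ENNReal) * PP G B + (m : ENNReal) := by
    rw [lintegral_add_right _ measurable_const, lintegral_indicator_const mB,
      measure_toMeasurable, lintegral_const, measure_univ, mul_one]
  rw [e1, ← e2]
  refine lintegral_mono fun ω => ?_
  have e3 : ∑ i ∈ I, (A i).indicator (fun _ => (1 : ENNReal)) ω
      = ((I.filter (fun i => ω ∈ A i)).card : ENNReal) := by
    rw [Finset.card_filter]
    push_cast
    refine Finset.sum_congr rfl fun i _ => ?_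
    by_cases hi : ω ∈ A i <;> simp [hi]
  show ∑ i ∈ I, (A i).indicator (fun _ => (1 : ENNReal)) ω ≤ _
  rw [e3]
  by_cases hω : ω ∈ toMeasurable (PP G) B
  · rw [indicator_of_mem hω]
    have : ((I.filter (fun i => ω ∈ A i)).card : ENNReal) ≤ (I.card : ENNReal) := by
      exact_mod_cast Finset.card_filter_le _ _
    exact this.trans le_self_add
  · have hB : ω ∉ B := fun hb => hω (subset_toMeasurable _ _ hb)
    have := h ω hB (I.filter (fun i => ω ∈ A i)) (Finset.filter_subset _ _)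
      (fun i hi => (Finset.mem_filter.1 hi).2)
    have h2 : ((I.filter (fun i => ω ∈ A i)).card : ENNReal) ≤ (m : ENNReal) := by
      exact_mod_cast this
    exact h2.trans le_add_self

end Pool.Agent.FPP
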