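import Pool.Agent.P.MP_ecb9f8_pr.FreshB
import Pool.Agent.P.MP_ecb9f8_pr.HarG
import Pool.Agent.P.MP_ecb9f8_pr.MGp
import Pool.Agent.P.MP_ecb9f8_pr.FrameL

open MeasureTheory ProbabilityTheory Set Filter

noncomputable section

namespace Pool.Agent.FPP

variable (G : Measure ℝ) [IsProbabilityMeasure G]

/-- pairs of points in a box -/
def GoodQ_box (R : ℤ) : Finset (V × V) :=
  (Finset.Icc (-R) R ×ˢ Finset.Icc (-R) R) ×ˢ (Finset.Icc (-R) R ×ˢ Finset.Icc (-R) R)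

theorem GoodQ_mem {R : ℤ} {x y : V} (hx : nm x ≤ R) (hy : nm y ≤ R) : (x, y) ∈ GoodQ_box R := by
  rw [nm_le_iff, abs_le, abs_le] at hx hy
  simp only [GoodQ_box, Finset.mem_product, Finset.mem_Icc]
  exact ⟨hx, hy⟩

theorem GoodQ_card {z : ℕ} (hz : 3 ≤ z) (a : ℕ) :
    (GoodQ_box ((z : ℤ) ^ a)).card ≤ z ^ ((a + 1) * 4) := by
  have h1 : (Finset.Icc (-(z : ℤ) ^ a) ((z : ℤ) ^ a)).card ≤ z ^ (a + 1) := by
    rw [Int.card_Icc]
    have h3 : 1 ≤ z ^ a := Nat.one_le_pow _ _ (by omega)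
    rw [pow_succ', ← Nat.cast_pow]
    generalize z ^ a = A at h3 ⊢
    have : 3 * A ≤ z * A := Nat.mul_le_mul_right _ hz
    omega
  unfold GoodQ_box
  rw [Finset.card_product, Finset.card_product, pow_mul]
  generalize (Finset.Icc (-(z : ℤ) ^ a) ((z : ℤ) ^ a)).card = c at h1 ⊢
  generalize z ^ (a + 1) = B at h1 ⊢
  calc c * c * (c * c) = c ^ 4 := by ring
    _ ≤ B ^ 4 := Nat.pow_le_pow_left h1 4

theorem GoodQ_num {z n a k : ℕ} (hz : 2 ≤ z) (hn : n ≤ z ^ a) {P : ENNReal}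
    (hP : P ≤ ENNReal.ofReal (((z : ℝ) ^ (k + a + 1))⁻¹)) :
    (n : ENNReal) * (P + ENNReal.ofReal (((z : ℝ) ^ (k + a + 1))⁻¹)) ≤
      ENNReal.ofReal (((z : ℝ) ^ k)⁻¹) := by
  have hz0 : (0 : ℝ) < z := by exact_mod_cast (by omega : 0 < z)
  have hz2 : (2 : ℝ) ≤ z := by exact_mod_cast hz
  have hn' : (n : ℝ) ≤ (z : ℝ) ^ a := by exact_mod_cast hn
  refine le_trans (mul_le_mul_right (add_le_add hP le_rfl) _) ?_
  rw [← ENNReal.ofReal_add (by positivity) (by positivity), ← ENNReal.ofReal_natCast,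
    ← ENNReal.ofReal_mul (by positivity)]
  refine ENNReal.ofReal_le_ofReal ?_
  have hk : (0 : ℝ) < (z : ℝ) ^ k := by positivity
  have ha : (0 : ℝ) < (z : ℝ) ^ a := by positivity
  rw [pow_succ, pow_add]
  generalize (z : ℝ) ^ k = A at hk ⊢
  generalize (z : ℝ) ^ a = B at ha hn' ⊢
  rw [← two_mul, ← div_eq_mul_inv, ← mul_div_assoc, ← one_div,
    div_le_div_iff₀ (by positivity) hk]
  have : (n : ℝ) * 2 ≤ B * z := mul_le_mul hn' hz2 (by norm_num) ha.le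
  nlinarith

theorem sp_nobad2 {b : ℤ} (hb : b = 0 ∨ b = 1) (hG : Law G) {N : Seminorm ℝ (ℝ × ℝ)} {Λ : ℕ}
    (hmg : SP G (fun z => {ω | ¬ MG N G Λ z ((z : ℤ) ^ 1310) ω})) (L : ℕ) :
    SP G (fun z => {ω | ¬ NoBad2 b L z ω}) := by
  intro k
  filter_upwards [eventually_ge_atTop 100, fresh2 hb G hG L (k + (1021 + 1) * 4 + 1),
    hmg (k + (1021 + 1) * 4 + 1)] with z hz hfr hm
  have key := har_gen G hG (Cls2 b z) (fun _ => Finset.range (z ^ 220))
    (fun p => Comp2 b L z (htb b p)) (fun p i => fib b p (a2 z i))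
    (fun p i => fib b p (a2 z (i + 1))) (2 * (z : ℝ) ^ 201) (z ^ 57)
    (GoodQ_box ((z : ℤ) ^ 1021)) {ω | MG N G Λ z ((z : ℤ) ^ 1310) ω}
    (ENNReal.ofReal (((z : ℝ) ^ (k + (1021 + 1) * 4 + 1))⁻¹))
    (fun p i => fam_comp2 b L z _ i)
    (fun p k' hc => by
      obtain ⟨h1, h2, h3, B, h4⟩ := cls2_bounds hb hz L hc
      exact ⟨hc.1, GoodQ_mem h1 h2, fun i hi => h3 i (Finset.mem_range.1 hi), B,
        fun i hi => h4 i (Finset.mem_range.1 hi)⟩)
    (fun ω hω p k' hc hp => hfr _ _ (thr2_of_mg hb G hG hz hω hc hp))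
  refine le_trans (measure_mono ?_) (le_trans key
    (GoodQ_num (by omega) (GoodQ_card (by omega) 1021) hm))
  intro ω hω
  simp only [mem_ofPred_eq, NoBad2] at hω
  push Not at hω
  exact hω

theorem sp_good8 (hG : Law G) {N : Seminorm ℝ (ℝ × ℝ)} {Λ : ℕ}
    (hmg : SP G (fun z => {ω | ¬ MG N G Λ z ((z : ℤ) ^ 1310) ω})) :
    SP G (fun z => {ω | ¬ Good8 N G Λ z ω}) := by
  have h0 : SP G (fun z => {ω | ¬ Good2 N G Λ z ω}) := by
    refine ((hmg.union (sp_nobad2 G (Or.inl rfl) hG hmg (3 * Λ))).union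
      (sp_nobad2 G (Or.inr rfl) hG hmg (3 * Λ))).mono ?_
    filter_upwards [eventually_ge_atTop 100] with z hz ω hω
    by_contra hn
    simp only [mem_union, mem_ofPred_eq, not_or, not_not] at hn
    obtain ⟨⟨a1, a2⟩, a3⟩ := hn
    exact hω ⟨a1, att2_det (Or.inl rfl) hz a1 a2, att2_det (Or.inr rfl) hz a1 a3⟩
  have h1 : SP G (fun z => ⋃ t ∈ (Finset.univ : Finset Fr),
      {ω | pull (frm t) ω ∈ {ω | ¬ Good2 N G Λ z ω}}) := by
    refine SP.biUnion (fun _ => Finset.univ) _ 1 ?_ ?_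
    · filter_upwards [eventually_ge_atTop 8] with z hz
      simpa using hz
    · intro k
      filter_upwards [h0 k] with z hz t _
      exact le_trans (measure_pull_le G (frm t) _) hz
  refine (h0.union h1).mono (Eventually.of_forall fun z ω hω => ?_)
  by_contra hn
  simp only [mem_union, mem_ofPred_eq, not_or, not_not, mem_iUnion, not_exists] at hn
  exact hω ⟨hn.1, fun t => hn.2 t (Finset.mem_univ t)⟩

end Pool.Agent.FPP
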