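import Pool.Agent.P.MP_ecb9f8_pr.DirF
import Pool.Agent.P.MP_ecb9f8_pr.AttDet2
import Pool.Agent.P.MP_ecb9f8_pr.OnL

open MeasureTheory ProbabilityTheory Set Filter

noncomputable section

namespace Pool.Agent.FPP

theorem NonRidge2_colb {b : ℤ} (hb : b = 0 ∨ b = 1) (v : V) : |colb b v| ≤ 2 * nm v := by
  have h1 := abs_le.1 (abs_fst_le_nm v)
  have h2 := abs_le.1 (abs_snd_le_nm v)
  have h3 := nm_nonneg v
  unfold colb
  rw [abs_le]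
  rcases hb with rfl | rfl <;> constructor <;> linarith

/-- the directed initial piece of a ray -/
theorem RayF.dir {N : Seminorm ℝ (ℝ × ℝ)} {c : ℝ} {G : Measure ℝ} {Λ z : ℕ} (hz : Sz N c Λ z)
    {ψ : ℝ × ℝ} {b : ℤ} (hψ : FrameE N c ψ b) {ω : Env} (hg : MG N G Λ z ((z : ℤ) ^ 1310) ω)
    {o : V} {p : ℕ → V} {k : ℕ} (h : RayF N ψ z ω o p k) (h0 : nm (p 0) ≤ 2 * (z : ℤ) ^ 1020) :
    ∃ k' ≤ k, Dirb b ((z : ℤ) ^ 772) p k' ∧ cB2 z ≤ colb b (p k') ∧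
      ∀ i ≤ k', nm (p i) ≤ (z : ℤ) ^ 1021 := by
  have z1 := hz.hundred
  obtain ⟨gp, -, hk, -, hf⟩ := h
  have e1 := AttDet_pow z1 (by norm_num : 20 < 1020)
  have e2 := AttDet_pow z1 (by norm_num : 1020 < 1021)
  have e3 := AttDet_pow z1 (by norm_num : 1021 < 1300)
  have e4 := AttDet_pow z1 (by norm_num : 1021 < 1023)
  have e5 : (0 : ℤ) < (z : ℤ) ^ 20 := pow_pos (by omega) _
  obtain ⟨t, -, t2, t3, t4⟩ := gp.1.ivt nm (fun a b hab => by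
      have h1 := hab.nm_le
      have h2 := nm_add_le (b - a) a
      rw [sub_add_cancel] at h2
      linarith) (Nat.zero_le k) le_rfl (a := (z : ℤ) ^ 1021) (by linarith) (by linarith)
  have hB : ∀ i ≤ t, nm (p i) ≤ (z : ℤ) ^ 1021 := fun i hi => by
    rcases hi.eq_or_lt with e | e
    · rw [e, t3]
    · exact (t4 i (Nat.zero_le i) e).le
  have h1 := nm_add_le (p t - p 0) (p 0)
  rw [sub_add_cancel] at h1
  have h2 := gp.1.nm_le (Nat.zero_le t) t2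
  have hY : N (rv (p t - p 0)) = lin ψ (rv (p t - p 0)) := by
    refine (hf t t2).resolve_left fun h3 => ?_
    have h4 : (t : ℤ) ≤ (z : ℤ) ^ 20 := by exact_mod_cast h3
    rw [Nat.cast_zero] at h2
    linarith
  refine ⟨t, t2, dir_of_face hz hψ hg (gp.mono t2) (fun i hi => by linarith [hB i hi]) hY, ?_, hB⟩
  have h5 := (hψ.cone hz.pos hY).1
  rw [colb_sub] at h5
  have h6 := abs_le.1 (NonRidge2_colb hψ.1 (p 0))
  unfold cB2
  linarith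

/-- the data of a directed initial piece -/
def NonRidge2_R (N : Seminorm ℝ (ℝ × ℝ)) (ψ : ℝ × ℝ) (b : ℤ) (z : ℕ) (ω : Env) (o : V)
    (p : ℕ → V) (k : ℕ) : Prop :=
  Geo ω p k ∧ On ω (p 0) (p k) o ∧
    (∀ i ≤ k, i ≤ z ^ 20 ∨ N (rv (p i - p 0)) = lin ψ (rv (p i - p 0))) ∧
    Dirb b ((z : ℤ) ^ 772) p k ∧ cB2 z ≤ colb b (p k) ∧ InS2 b z (p 0) ∧
    ∀ i ≤ k, nm (p i) ≤ (z : ℤ) ^ 1021

theorem NonRidge2_ray {N : Seminorm ℝ (ℝ × ℝ)} {c : ℝ} {G : Measure ℝ} {Λ z : ℕ} (hz : Sz N c Λ z)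
    {ψ : ℝ × ℝ} {b : ℤ} (hψ : FrameE N c ψ b) {ω : Env} (hg : MG N G Λ z ((z : ℤ) ^ 1310) ω)
    {o x : V} (h : HasRay N ψ z ω o x) (h0 : nm x ≤ (z : ℤ) ^ 1020 + z) :
    ∃ (p : ℕ → V) (k : ℕ), p 0 = x ∧ NonRidge2_R N ψ b z ω o p k := by
  obtain ⟨p, k, rfl, h⟩ := h
  have e1 := AttDet_pow hz.hundred (by norm_num : 1 < 1020)
  rw [pow_one] at e1
  have e2 : (100 : ℤ) ≤ z := by exact_mod_cast hz.hundred
  obtain ⟨k', k1, k2, k3, k4⟩ := h.dir hz hψ hg (by linarith)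
  refine ⟨p, k', rfl, h.1.mono k1, (h.1.on_of_on h.2.1 k1).1, fun i hi => h.2.2.2.2 i (hi.trans k1),
    k2, k3, ⟨by linarith, ?_⟩, k4⟩
  have h6 := abs_le.1 (NonRidge2_colb hψ.1 (p 0))
  unfold cA2
  linarith

theorem NonRidge2_far {N : Seminorm ℝ (ℝ × ℝ)} {c : ℝ} (hc : 0 < c) {ψ : ℝ × ℝ} {b : ℤ}
    (hψ : FrameE N c ψ b) {z : ℕ} {ω : Env} {o : V} {p : ℕ → V} {k : ℕ}
    (hp : NonRidge2_R N ψ b z ω o p k) {i : ℕ} (hi : i ≤ k)
    (h : (z : ℤ) ^ 20 < |(p i).2 - (p 0).2|) :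
    0 ≤ (p i).1 - (p 0).1 ∧ (b = 0 → |(p i).2 - (p 0).2| ≤ (p i).1 - (p 0).1) ∧
      (b = 1 → 0 ≤ (p i).2 - (p 0).2) := by
  have hY : N (rv (p i - p 0)) = lin ψ (rv (p i - p 0)) := by
    refine (hp.2.2.1 i hi).resolve_left fun h3 => ?_
    have h4 : (i : ℤ) ≤ (z : ℤ) ^ 20 := by exact_mod_cast h3
    have h2 := hp.1.1.nm_le (Nat.zero_le i) hi
    have h5 := abs_snd_le_nm (p i - p 0)
    rw [Nat.cast_zero] at h2
    rw [Prod.snd_sub] at h5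
    linarith
  exact (hψ.cone hc hY).2

theorem NonRidge2_ord {N : Seminorm ℝ (ℝ × ℝ)} {c : ℝ} (hc : 0 < c) {ψ : ℝ × ℝ} {b : ℤ}
    (hψ : FrameE N c ψ b) {z : ℕ} (hz : 100 ≤ z) {ω : Env} (hn : Nice ω) {o : V}
    {p q : ℕ → V} {k l : ℕ} (hp : NonRidge2_R N ψ b z ω o p k) (hq : NonRidge2_R N ψ b z ω o q l)
    (h1 : |colb b (q 0) - colb b (p 0)| ≤ 2 * z) (h2 : (z : ℤ) ^ 21 - z ≤ (q 0).2 - (p 0).2)
    {a : ℤ} (ha : cA2 z ≤ a) (ha' : a ≤ cB2 z) : htb b p a ≤ htb b q a := by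
  have e1 := AttDet_pow hz (by norm_num : 1 < 20)
  have e2 := AttDet_pow hz (by norm_num : 20 < 21)
  rw [pow_one] at e1
  have e3 : (100 : ℤ) ≤ z := by exact_mod_cast hz
  obtain ⟨c1, c2⟩ := abs_le.1 h1
  refine ord2 hψ.1 hp.1.1 hq.1.1 (hn.ray_merge hp.1 hq.1 hp.2.1 hq.2.1) (by linarith)
    (fun i hi e => ?_) (fun j hj e => ?_) (hp.2.2.2.2.2.1.2.trans_le ha)
    (hq.2.2.2.2.2.1.2.trans_le ha) (ha'.trans hp.2.2.2.2.1) (ha'.trans hq.2.2.2.2.1)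
  · obtain ⟨f1, f2, -⟩ := NonRidge2_far hc hψ hp hi (lt_abs.2 (Or.inl (by linarith)))
    unfold colb at c1 c2
    rcases hψ.1 with rfl | rfl
    · have f4 := (le_abs_self _).trans (f2 rfl)
      linarith
    · linarith
  · obtain ⟨f1, f2, f3⟩ := NonRidge2_far hc hψ hq hj (lt_abs.2 (Or.inr (by linarith)))
    unfold colb at c1 c2
    rcases hψ.1 with rfl | rfl
    · have f4 := (neg_le_abs _).trans (f2 rfl)
      linarith
    · have f4 := f3 rfl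
      linarith

theorem NonRidge2_pair {N : Seminorm ℝ (ℝ × ℝ)} {c : ℝ} {G : Measure ℝ} {Λ z : ℕ}
    (hz : Sz N c Λ z) {ψ : ℝ × ℝ} {b : ℤ} (hψ : FrameE N c ψ b) {ω : Env} (hg : Good2 N G Λ z ω)
    {o η u : V} (hη : nm η ≤ (z : ℤ)) (hu : u ∈ box z)
    (h1 : NM ω u (u + η) o 0 ((z : ℤ) ^ 1301)) (h2 : HasRay N ψ z ω o u)
    (h3 : HasRay N ψ z ω o (u + η)) :
    ∃ (p : ℕ → V) (k : ℕ) (q : ℕ → V) (l : ℕ), NonRidge2_R N ψ b z ω o p k ∧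
      NonRidge2_R N ψ b z ω o q l ∧ p 0 = u ∧ q 0 = u + η ∧
      (z : ℤ) ^ 1056 ≤ gap2 z (htb b p) (htb b q) := by
  have u1 : nm u ≤ (z : ℤ) ^ 1020 := by
    simp only [box, Finset.mem_product, Finset.mem_Icc] at hu
    exact nm_le_iff.2 ⟨abs_le.2 hu.1, abs_le.2 hu.2⟩
  have u2 := nm_add_le u η
  have z0 : (0 : ℤ) ≤ z := by positivity
  obtain ⟨p, k, p0, rp⟩ := NonRidge2_ray hz hψ hg.1 h2 (by linarith)
  obtain ⟨q, l, q0, rq⟩ := NonRidge2_ray hz hψ hg.1 h3 (by linarith)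
  have hA : ATT2 b z ω := by
    rcases hψ.1 with e | e
    · rw [e]; exact hg.2.1
    · rw [e]; exact hg.2.2
  have hAB : cA2 z ≤ cB2 z := by
    unfold cA2 cB2
    have : (0 : ℤ) ≤ (z : ℤ) ^ 1020 := by positivity
    linarith
  refine ⟨p, k, q, l, rp, rq, p0, q0, hA p k q l rp.1 rq.1 rp.2.2.2.1 rq.2.2.2.1 rp.2.2.2.2.2.1
    rq.2.2.2.2.2.1 rp.2.2.2.2.1 rq.2.2.2.2.1 fun i hi j hj e => h1 ⟨p i, ?_, ?_, ?_⟩⟩
  · rw [← p0]
    exact (rp.1.on_of_on rp.2.1 (hi.trans (rp.1.1.fib_spec hψ.1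
      (rp.2.2.2.2.2.1.2.trans_le hAB) rp.2.2.2.2.1).1)).1
  · rw [← q0, e]
    exact (rq.1.on_of_on rq.2.1 (hj.trans (rq.1.1.fib_spec hψ.1
      (rq.2.2.2.2.2.1.2.trans_le hAB) rq.2.2.2.2.1).1)).1
  · rw [sub_zero]
    have e1 := AttDet_pow hz.hundred (by norm_num : 1021 < 1301)
    have e2 : (0 : ℤ) ≤ (z : ℤ) ^ 1021 := pow_nonneg z0 _
    have e3 := rp.2.2.2.2.2.2 i (hi.trans (rp.1.1.fib_spec hψ.1
      (rp.2.2.2.2.2.1.2.trans_le hAB) rp.2.2.2.2.1).1)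
    linarith

open Classical in
theorem nonridge2 {N : Seminorm ℝ (ℝ × ℝ)} {c : ℝ} {G : Measure ℝ} {Λ z : ℕ} (hz : Sz N c Λ z)
    {ψ : ℝ × ℝ} {b : ℤ} (hψ : FrameE N c ψ b) {ω : Env} (hg : Good2 N G Λ z ω) (o η : V)
    (hη : nm η ≤ (z : ℤ)) :
    ((box z).filter (fun u => NM ω u (u + η) o 0 ((z : ℤ) ^ 1301) ∧ HasRay N ψ z ω o u ∧
      HasRay N ψ z ω o (u + η))).card ≤ z ^ 2027 := by
  have z1 := hz.hundred
  have z0 : (0 : ℤ) < z := Int.natCast_pos.2 (lt_of_lt_of_le (by norm_num) z1)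
  have H : ∀ u : V, ∃ (p : ℕ → V) (k : ℕ) (q : ℕ → V) (l : ℕ),
      u ∈ (box z).filter (fun u => NM ω u (u + η) o 0 ((z : ℤ) ^ 1301) ∧ HasRay N ψ z ω o u ∧
        HasRay N ψ z ω o (u + η)) →
        NonRidge2_R N ψ b z ω o p k ∧ NonRidge2_R N ψ b z ω o q l ∧ p 0 = u ∧ q 0 = u + η ∧
          (z : ℤ) ^ 1056 ≤ gap2 z (htb b p) (htb b q) := fun u => by
    by_cases hu : u ∈ (box z).filter (fun u => NM ω u (u + η) o 0 ((z : ℤ) ^ 1301) ∧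
        HasRay N ψ z ω o u ∧ HasRay N ψ z ω o (u + η))
    · obtain ⟨u1, u2, u3, u4⟩ := Finset.mem_filter.1 hu
      obtain ⟨p, k, q, l, h⟩ := NonRidge2_pair hz hψ hg hη u1 u2 u3 u4
      exact ⟨p, k, q, l, fun _ => h⟩
    · exact ⟨fun _ => u, 0, fun _ => u, 0, fun h => absurd h hu⟩
  have hD : ∀ u ∈ (box z).filter (fun u => NM ω u (u + η) o 0 ((z : ℤ) ^ 1301) ∧
      HasRay N ψ z ω o u ∧ HasRay N ψ z ω o (u + η)), nm u ≤ (z : ℤ) ^ 1020 := fun u hu => by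
    have hu' := (Finset.mem_filter.1 hu).1
    simp only [box, Finset.mem_product, Finset.mem_Icc] at hu'
    exact nm_le_iff.2 ⟨abs_le.2 hu'.1, abs_le.2 hu'.2⟩
  generalize (box z).filter (fun u => NM ω u (u + η) o 0 ((z : ℤ) ^ 1301) ∧
      HasRay N ψ z ω o u ∧ HasRay N ψ z ω o (u + η)) = D at H hD ⊢
  choose p k q l H using H
  have e1 := NonRidge2_colb hψ.1 η
  have e2 := (nm_le_iff.1 hη).2
  refine (Finset.card_le_mul_card_image_of_maps_to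
    (f := fun u : V => (colb b u, u.2 % (z : ℤ) ^ 21))
    (t := Finset.Icc (-(2 * (z : ℤ) ^ 1020)) (2 * (z : ℤ) ^ 1020) ×ˢ Finset.Ico 0 ((z : ℤ) ^ 21))
    (fun u hu => ?_) (88 * z ^ 984) fun s _ => ?_).trans ?_
  · refine Finset.mem_product.2 ⟨Finset.mem_Icc.2 (abs_le.1 ?_), Finset.mem_Ico.2
      ⟨Int.emod_nonneg _ (pow_pos z0 _).ne', Int.emod_lt_of_pos _ (pow_pos z0 _)⟩⟩
    have h1 := NonRidge2_colb hψ.1 u
    have h2 := hD u hu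
    show |colb b u| ≤ _
    linarith
  · have hI : ∀ u ∈ D.filter (fun u : V => (colb b u, u.2 % (z : ℤ) ^ 21) = s),
        u ∈ D ∧ colb b u = s.1 ∧ u.2 % (z : ℤ) ^ 21 = s.2 := fun u hu =>
      ⟨(Finset.mem_filter.1 hu).1, Prod.ext_iff.1 (Finset.mem_filter.1 hu).2⟩
    generalize D.filter (fun u : V => (colb b u, u.2 % (z : ℤ) ^ 21) = s) = I at hI ⊢
    have h1 := sum_gap2_le z1 I (fun u => htb b (p u)) (fun u => htb b (q u))
      (H := 2 * (11 * (z : ℤ) ^ 1020)) fun a a1 a2 => by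
        refine sum_abs_le I (fun u => u.2) _ _ (by positivity)
          (fun u hu v hv e => ?_) (fun u hu => ?_) fun u hu v hv e => ?_
        · have e' : u.2 = v.2 := e
          rw [eq_pt b u, eq_pt b v, (hI u hu).2.1, (hI v hv).2.1, e']
        · obtain ⟨r1, r2, -⟩ := H u (hI u hu).1
          exact ⟨htb_bound hψ.1 z1 r1.1.1 r1.2.2.2.1 r1.2.2.2.2.2.1 r1.2.2.2.2.1 a1 a2,
            htb_bound hψ.1 z1 r2.1.1 r2.2.2.2.1 r2.2.2.2.2.2.1 r2.2.2.2.2.1 a1 a2⟩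
        · obtain ⟨r1, r2, r3, r4, -⟩ := H u (hI u hu).1
          obtain ⟨s1, s2, s3, s4, -⟩ := H v (hI v hv).1
          have c1 : colb b v = colb b u := (hI v hv).2.1.trans (hI u hu).2.1.symm
          have c2 : (z : ℤ) ^ 21 ≤ v.2 - u.2 := Int.le_of_dvd (sub_pos.2 e)
            (Int.ModEq.dvd ((hI u hu).2.2.trans (hI v hv).2.2.symm))
          have c3 := abs_le.1 e1
          have c4 := abs_le.1 e2
          refine max_le (le_min (NonRidge2_ord hz.pos hψ z1 hg.1.nice r1 s1 ?_ ?_ a1 a2)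
            (NonRidge2_ord hz.pos hψ z1 hg.1.nice r1 s2 ?_ ?_ a1 a2))
            (le_min (NonRidge2_ord hz.pos hψ z1 hg.1.nice r2 s1 ?_ ?_ a1 a2)
              (NonRidge2_ord hz.pos hψ z1 hg.1.nice r2 s2 ?_ ?_ a1 a2))
          all_goals simp only [r3, r4, s3, s4, colb_add, Prod.snd_add, abs_le]
          all_goals first | (constructor <;> linarith) | linarith
    have h2 := Finset.card_nsmul_le_sum I _ _ fun u hu => (H u (hI u hu).1).2.2.2.2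
    have h3 := h2.trans h1
    rw [nsmul_eq_mul, show 4 * (z : ℤ) ^ 1020 * (2 * (11 * (z : ℤ) ^ 1020)) =
      88 * (z : ℤ) ^ 984 * (z : ℤ) ^ 1056 by ring] at h3
    exact_mod_cast le_of_mul_le_mul_right h3 (pow_pos z0 _)
  · have h1 := Int.card_Icc_of_le (-(2 * (z : ℤ) ^ 1020)) (2 * (z : ℤ) ^ 1020)
      (by linarith [pow_pos z0 1020])
    have h2 := Int.card_Ico_of_le 0 ((z : ℤ) ^ 21) (pow_pos z0 _).le
    have h3 : (1 : ℤ) ≤ (z : ℤ) ^ 1020 := pow_pos z0 _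
    have h4 := AttDet_pow z1 (by norm_num : 2025 < 2026)
    have h5 := AttDet_pow z1 (by norm_num : 2026 < 2027)
    have h6 : (0 : ℤ) < (z : ℤ) ^ 2025 := pow_pos z0 _
    rw [Finset.card_product]
    zify
    rw [h1, h2, sub_zero]
    calc 88 * (z : ℤ) ^ 984 * ((2 * (z : ℤ) ^ 1020 + 1 - -(2 * (z : ℤ) ^ 1020)) * (z : ℤ) ^ 21)
        ≤ 88 * (z : ℤ) ^ 984 * (5 * (z : ℤ) ^ 1020 * (z : ℤ) ^ 21) :=
          mul_le_mul_of_nonneg_left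
            (mul_le_mul_of_nonneg_right (by linarith) (by positivity)) (by positivity)
      _ = 440 * (z : ℤ) ^ 2025 := by ring
      _ ≤ (z : ℤ) ^ 2027 := by linarith

end Pool.Agent.FPP
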