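import Pool.Agent.P.MP_ecb9f8_pr.Ridge2
import Pool.Agent.P.MP_ecb9f8_pr.NonRidge2
import Pool.Agent.P.MP_ecb9f8_pr.Face

open MeasureTheory ProbabilityTheory Set Filter

noncomputable section

namespace Pool.Agent.FPP

open Classical in
theorem LocCount_frame {N : Seminorm ℝ (ℝ × ℝ)} {Kc : Finset ℝ} {Φ : Finset (ℝ × ℝ)} {c : ℝ}
    (hP : Poly N Kc Φ c) {G : Measure ℝ} {Λ z : ℕ} (hz : Sz N c Λ z)
    {ω : Env} (hg : Good8 N G Λ z ω) (o η : V) (hη : nm η ≤ (z : ℤ)) {φ : ℝ × ℝ} (hφ : φ ∈ Φ) :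
    ((box z).filter (fun u => NM ω u (u + η) o 0 ((z : ℤ) ^ 1301) ∧ HasRay N φ z ω o u ∧
      HasRay N φ z ω o (u + η))).card ≤ z ^ 2027 := by
  obtain ⟨t, b, hF⟩ := hP.frame φ hφ
  refine (Finset.card_le_card_of_injOn (fri t) (fun u hu => ?_)
    (frm t).symm.injective.injOn).trans
    (nonridge2 hz hF (hg.2 t) (fri t o) (fri t η) (by rw [nm_fri]; exact hη))
  obtain ⟨hb, hd, r1, r2⟩ := Finset.mem_filter.1 hu
  refine Finset.mem_filter.2 ⟨mem_box.2 (by rw [nm_fri]; exact mem_box.1 hb), ?_,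
    r1.pull hP.sym t, ?_⟩
  · rintro ⟨w, w1, w2, w3⟩
    rw [On_pull _ (frm_adj t)] at w1 w2
    simp only [frm_apply, fr_add, fr_fri] at w1 w2
    exact hd ⟨fr t w, w1, w2, by rw [sub_zero] at w3 ⊢; rwa [nm_fr]⟩
  · rw [← fri_add]
    exact r2.pull hP.sym t

open Classical in
theorem loc_count {N : Seminorm ℝ (ℝ × ℝ)} {Kc : Finset ℝ} {Φ : Finset (ℝ × ℝ)} {c : ℝ}
    (hP : Poly N Kc Φ c) {G : Measure ℝ} {Λ z : ℕ} (hz : Sz N c Λ z) (hΦ : Φ.card ≤ z)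
    {ω : Env} (hg : Good8 N G Λ z ω) (o η : V) (hη : nm η ≤ (z : ℤ))
    (ho : (z : ℤ) ^ 1300 ≤ nm o) :
    ((box z).filter (fun u => NM ω u (u + η) o 0 ((z : ℤ) ^ 1301) ∧
      NoRun Kc ((z : ℤ) ^ 19) (2 * (z : ℤ) ^ 1300) ω u o ∧
      NoRun Kc ((z : ℤ) ^ 19) (2 * (z : ℤ) ^ 1300) ω (u + η) o)).card ≤ z ^ 2030 := by
  have h100 := hz.hundred
  have hz1 : (1 : ℤ) ≤ z := by exact_mod_cast (by omega : 1 ≤ z)
  have e1 : (z : ℤ) ≤ (z : ℤ) ^ 1020 := le_self_pow₀ hz1 (by norm_num)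
  have e0 : (0 : ℤ) ≤ (z : ℤ) ^ 1020 := by positivity
  have hsub : (box z).filter (fun u => NM ω u (u + η) o 0 ((z : ℤ) ^ 1301) ∧
      NoRun Kc ((z : ℤ) ^ 19) (2 * (z : ℤ) ^ 1300) ω u o ∧
      NoRun Kc ((z : ℤ) ^ 19) (2 * (z : ℤ) ^ 1300) ω (u + η) o) ⊆
      (Φ ×ˢ Φ).biUnion (fun a => (box z).filter (fun u => NM ω u (u + η) o 0 ((z : ℤ) ^ 1301) ∧
        HasRay N a.1 z ω o u ∧ HasRay N a.2 z ω o (u + η))) := by
    intro u hu
    obtain ⟨hb, hd, r1, r2⟩ := Finset.mem_filter.1 hu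
    have hu1 := mem_box.1 hb
    obtain ⟨φ, hφ, s1⟩ := ray_of_norun hP hz hg.1.1 (by linarith) ho r1
    obtain ⟨φ', hφ', s2⟩ := ray_of_norun hP hz hg.1.1
      (by have := nm_add_le u η; linarith) ho r2
    exact Finset.mem_biUnion.2 ⟨(φ, φ'), Finset.mem_product.2 ⟨hφ, hφ'⟩,
      Finset.mem_filter.2 ⟨hb, hd, s1, s2⟩⟩
  refine (Finset.card_le_card hsub).trans ((Finset.card_biUnion_le_card_mul _ _ (z ^ 2027)
    ?_).trans ?_)
  · rintro ⟨φ, φ'⟩ ha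
    obtain ⟨h1, h2⟩ := Finset.mem_product.1 ha
    by_cases he : φ = φ'
    · subst he
      exact LocCount_frame hP hz hg o η hη h1
    · refine le_trans (Finset.card_le_card ?_) ((ridge2 hz hg.1.1 (hP.sep φ h1 φ' h2 he) o η
        hη).trans (Nat.pow_le_pow_right (by omega) (by norm_num)))
      intro u hu
      obtain ⟨hb, -, r1, r2⟩ := Finset.mem_filter.1 hu
      exact Finset.mem_filter.2 ⟨hb, r1, r2⟩
  · rw [Finset.card_product]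
    calc Φ.card * Φ.card * z ^ 2027 ≤ z * z * z ^ 2027 :=
          Nat.mul_le_mul_right _ (Nat.mul_le_mul hΦ hΦ)
      _ = z ^ 2029 := by rw [mul_assoc, ← pow_succ', ← pow_succ']
      _ ≤ z ^ 2030 := Nat.pow_le_pow_right (by omega) (by norm_num)

end Pool.Agent.FPP
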