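import Pool.Agent.P.MP_ecb9f8_pr.Acr

open MeasureTheory ProbabilityTheory Set Filter

noncomputable section

namespace Pool.Agent.FPP

theorem RareP_sum (K h : ℕ) (hK : K + 2 ≤ h) (n : ℕ) :
    ∑ i ∈ Finset.range n, (K : ℝ) * ((((h + i : ℕ) : ℝ)) ^ 3)⁻¹ ≤
      (h : ℝ)⁻¹ - ((h : ℝ) - 1) / h * (((h + n : ℕ) : ℝ) - 1)⁻¹ := by
  have hh : (K : ℝ) + 2 ≤ h := by exact_mod_cast hK
  have hK0 : (0 : ℝ) ≤ K := Nat.cast_nonneg K
  have h0 : (0 : ℝ) < h := by linarith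
  induction n with
  | zero =>
    have h1 : (h : ℝ) - 1 ≠ 0 := by
      have : (0 : ℝ) < h - 1 := by linarith
      exact ne_of_gt this
    simp only [Finset.range_zero, Finset.sum_empty, Nat.add_zero]
    have : ((h : ℝ) - 1) / h * ((h : ℝ) - 1)⁻¹ = (h : ℝ)⁻¹ := by field_simp
    rw [this]; linarith
  | succ n ih =>
    rw [Finset.sum_range_succ]
    have hn : (0 : ℝ) ≤ n := Nat.cast_nonneg n
    have key : (K : ℝ) * ((((h + n : ℕ) : ℝ)) ^ 3)⁻¹ ≤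
        ((h : ℝ) - 1) / h * (((h + n : ℕ) : ℝ) - 1)⁻¹ -
          ((h : ℝ) - 1) / h * (((h + (n + 1) : ℕ) : ℝ) - 1)⁻¹ := by
      push_cast
      set x : ℝ := (h : ℝ) + n with hx
      have hx1 : (0 : ℝ) < x - 1 := by rw [hx]; linarith
      have hx0 : (0 : ℝ) < x := by linarith
      have hxh : (h : ℝ) ≤ x := by rw [hx]; linarith
      have e1 : (h : ℝ) + (n + 1) - 1 = x := by rw [hx]; ring
      rw [e1]
      have e2 : ((h : ℝ) - 1) / h * (x - 1)⁻¹ - ((h : ℝ) - 1) / h * x⁻¹ =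
          ((h : ℝ) - 1) / (h * (x * (x - 1))) := by
        field_simp; ring
      rw [e2, ← div_eq_mul_inv, div_le_div_iff₀ (by positivity) (by positivity)]
      have a1 : (K : ℝ) ≤ h - 1 := by linarith
      have a2 : (h : ℝ) * (x * (x - 1)) ≤ x ^ 3 := by
        have : (h : ℝ) * (x * (x - 1)) ≤ x * (x * x) :=
          mul_le_mul hxh (by nlinarith) (by positivity) hx0.le
        nlinarith
      exact mul_le_mul a1 a2 (by positivity) (by linarith)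
    linarith

theorem rare_prob (G : Measure ℝ) [IsProbabilityMeasure G] (hG : Law G) {N : Seminorm ℝ (ℝ × ℝ)}
    (hN : IsTC G N) {Kc : Finset ℝ} {Φ : Finset (ℝ × ℝ)} {c : ℝ} (hP : Poly N Kc Φ c) :
    ∀ᶠ h : ℕ in atTop, ∀ xP oP xQ oQ : V, nm (xQ - xP) ≤ (h : ℤ) → nm (oQ - oP) ≤ (h : ℤ) →
      PP G {ω | Rare Kc h ω xP oP xQ oQ} ≤ ENNReal.ofReal ((h : ℝ)⁻¹) := by
  have hall : ∀ᶠ ζ : ℕ in atTop, ∀ κ ∈ Kc, ∀ xP oP xQ oQ : V, nm xP ≤ (ζ : ℤ) →
      nm xQ ≤ (ζ : ℤ) → nm (oQ - oP) ≤ (ζ : ℤ) →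
      PP G {ω | RunEv κ ζ ω xP oP xQ oQ} ≤ ENNReal.ofReal (((ζ : ℝ) ^ 3)⁻¹) := by
    rw [Filter.eventually_all_finset]
    intro κ hκ
    obtain ⟨φ, hφ⟩ := hP.corner κ hκ
    exact acr G hG hN hP.pos hφ
  obtain ⟨z0, hz0⟩ := eventually_atTop.1 hall
  filter_upwards [eventually_ge_atTop z0, eventually_ge_atTop (8 * Kc.card + 2)] with h h1 h2
  intro xP oP xQ oQ hx ho
  set A : ℕ → Fr → ℝ → Set Env := fun i t κ =>
    {ω | pull (aff t xP) ω ∈ {ω | RunEv κ (h + i) ω 0 ((aff t xP).symm oP) ((aff t xP).symm xQ)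
      ((aff t xP).symm oQ)}} with hA
  have hsub : {ω | Rare Kc h ω xP oP xQ oQ} ⊆
      ⋃ i : ℕ, ⋃ t ∈ (Finset.univ : Finset Fr), ⋃ κ ∈ Kc, A i t κ := by
    intro ω hω
    obtain ⟨ζ, hζ, t, κ, hκ, hR⟩ := hω
    obtain ⟨i, rfl⟩ := Nat.exists_eq_add_of_le hζ
    simp only [mem_iUnion]
    exact ⟨i, t, Finset.mem_univ t, κ, hκ, hR⟩
  have hone : ∀ i t, ∀ κ ∈ Kc, PP G (A i t κ) ≤
      ENNReal.ofReal (((((h + i : ℕ) : ℝ)) ^ 3)⁻¹) := by
    intro i t κ hκ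
    refine (measure_pull_le G (aff t xP) _).trans ?_
    have hi : (h : ℤ) ≤ ((h + i : ℕ) : ℤ) := by push_cast; omega
    refine hz0 (h + i) (by omega) κ hκ _ _ _ _ ?_ ?_ ?_
    · have : nm (0 : V) = 0 := by simp [nm]
      rw [this]; positivity
    · rw [aff_symm_apply, nm_fri]; exact hx.trans hi
    · rw [aff_symm_apply, aff_symm_apply, ← fri_sub, nm_fri]
      have : oQ - xP - (oP - xP) = oQ - oP := by abel
      rw [this]; exact ho.trans hi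
  have htwo : ∀ i, PP G (⋃ t ∈ (Finset.univ : Finset Fr), ⋃ κ ∈ Kc, A i t κ) ≤
      ENNReal.ofReal (((8 * Kc.card : ℕ) : ℝ) * ((((h + i : ℕ) : ℝ)) ^ 3)⁻¹) := by
    intro i
    refine (measure_biUnion_finset_le _ _).trans ?_
    have h3 : ∀ t ∈ (Finset.univ : Finset Fr), PP G (⋃ κ ∈ Kc, A i t κ) ≤
        (Kc.card : ENNReal) * ENNReal.ofReal (((((h + i : ℕ) : ℝ)) ^ 3)⁻¹) := by
      intro t _
      refine (measure_biUnion_finset_le _ _).trans ?_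
      refine (Finset.sum_le_card_nsmul _ _ _ (fun κ hκ => hone i t κ hκ)).trans ?_
      rw [nsmul_eq_mul]
    refine (Finset.sum_le_card_nsmul _ _ _ h3).trans ?_
    have hc : (Finset.univ : Finset Fr).card = 8 := by
      simp [Fr, Finset.card_univ]
    rw [hc, nsmul_eq_mul, ENNReal.ofReal_mul (by positivity), ENNReal.ofReal_natCast, ← mul_assoc]
    push_cast
    exact le_rfl
  refine (measure_mono hsub).trans ((measure_iUnion_le _).trans ?_)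
  refine (ENNReal.tsum_le_tsum htwo).trans ?_
  refine ENNReal.tsum_le_of_sum_range_le fun n => ?_
  rw [← ENNReal.ofReal_sum_of_nonneg (fun i _ => by positivity)]
  refine ENNReal.ofReal_le_ofReal ((RareP_sum (8 * Kc.card) h h2 n).trans ?_)
  have hh : (2 : ℝ) ≤ h := by exact_mod_cast (show 2 ≤ h by omega)
  have hn : (0 : ℝ) ≤ n := Nat.cast_nonneg n
  have : 0 ≤ ((h : ℝ) - 1) / h * (((h + n : ℕ) : ℝ) - 1)⁻¹ := by
    push_cast
    have a : (0 : ℝ) ≤ h - 1 := by linarith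
    have b : (0 : ℝ) ≤ (h : ℝ) + n - 1 := by linarith
    positivity
  linarith

end Pool.Agent.FPP
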