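import Pool.Agent.P.MP_ecb9f8_pr.FrameL
import Pool.Agent.P.MP_ecb9f8_pr.OnL

open MeasureTheory ProbabilityTheory Set Filter

noncomputable section

namespace Pool.Agent.FPP

theorem rare_use {Kc : Finset ℝ} (hK : ∀ κ ∈ Kc, |κ| ≤ 1) {h ζ : ℕ} (hh : h ≤ ζ) (hz : 2 ≤ ζ)
    {ω : Env} {xP oP xQ oQ y : V} (hr : ¬ Rare Kc h ω xP oP xQ oQ) (hy : On ω xP y oP)
    (hc : NearC Kc (y - xP)) (h1 : 20 * TT ζ ≤ nm (y - xP))
    (h2 : nm (y - xP) ≤ (ζ : ℤ) ^ 120004) :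
    ∃ m : V, On ω xP m oP ∧ On ω xQ m oQ ∧ TT ζ ≤ 2 * nm (m - xP) ∧ nm (m - xP) ≤ 20 * TT ζ := by
  obtain ⟨t, κ, hκ, c1, c2⟩ := hc
  have hz1 : (1 : ℤ) ≤ ζ := by exact_mod_cast (by omega : 1 ≤ ζ)
  have hr1 : (1 : ℝ) ≤ ζ := by exact_mod_cast hz1
  have e0 : aff t xP 0 = xP := by rw [aff_apply, fr_zero, zero_add]
  have hl : |lat κ (rv (fri t (y - xP)))| ≤ (ζ : ℝ) ^ 97000 := by
    refine le_of_pow_le_pow_left₀ (n := 5) (by norm_num) (by positivity) (c2.trans ?_)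
    have a1 : (nm (y - xP) : ℝ) ≤ (ζ : ℝ) ^ 120004 := by exact_mod_cast h2
    have a2 : (0 : ℝ) ≤ (nm (y - xP) : ℝ) := by exact_mod_cast nm_nonneg _
    refine (pow_le_pow_left₀ a2 a1 4).trans ?_
    rw [← pow_mul, ← pow_mul]
    exact pow_le_pow_right₀ hr1 (by norm_num)
  have hy1 : (fri t (y - xP)).1 ≤ nm (y - xP) := by
    rw [← nm_fri t]
    exact (le_abs_self _).trans (le_max_left _ _)
  have hy2 : nm (y - xP) ≤ (fri t (y - xP)).1 + TT ζ := by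
    have a1 : (ζ : ℝ) ^ 97000 ≤ (ζ : ℝ) ^ 120000 := pow_le_pow_right₀ hr1 (by norm_num)
    have a2 : ((TT ζ : ℤ) : ℝ) = (ζ : ℝ) ^ 120000 := by rw [TT, Int.cast_pow, Int.cast_natCast]
    have a3 : (0 : ℝ) ≤ (ζ : ℝ) ^ 120000 := by positivity
    rw [← a2] at a1 a3
    rw [← nm_fri t]
    generalize fri t (y - xP) = v at *
    have a4 : (0 : ℝ) ≤ (v.1 : ℝ) := by exact_mod_cast c1
    have a5 : |κ * (v.1 : ℝ)| ≤ v.1 := by
      rw [abs_mul, abs_of_nonneg a4]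
      exact mul_le_of_le_one_left a4 (hK κ hκ)
    have a6 : |(v.2 : ℝ)| ≤ v.1 + TT ζ := by
      have a7 : (v.2 : ℝ) = lat κ (rv v) + κ * v.1 := by simp [lat, rv]
      rw [a7]
      linarith [abs_add_le (lat κ (rv v)) (κ * v.1)]
    refine max_le ?_ (by exact_mod_cast a6)
    have a8 : (0 : ℤ) ≤ TT ζ := by exact_mod_cast a3
    rw [abs_of_nonneg c1]
    linarith
  have hT : (0 : ℤ) ≤ TT ζ := by unfold TT; positivity
  by_contra hcon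
  refine hr ⟨ζ, hh, t, κ, hκ, ⟨fri t (y - xP), ?_, by linarith,
    hy1.trans (h2.trans (pow_le_pow_right₀ hz1 (by norm_num))), hl⟩, ?_⟩
  · rw [On_pull _ (aff_adj t xP), e0, ← aff_symm_apply, Equiv.apply_symm_apply,
      Equiv.apply_symm_apply]
    exact hy
  · rintro ⟨m, m1, m2, m3, m4⟩
    rw [On_pull _ (aff_adj t xP), e0, Equiv.apply_symm_apply] at m1
    rw [On_pull _ (aff_adj t xP), Equiv.apply_symm_apply, Equiv.apply_symm_apply] at m2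
    have e1 : nm (aff t xP m - xP) = nm m := by rw [aff_apply, add_sub_cancel_right, nm_fr]
    exact hcon ⟨aff t xP m, m1, m2, e1 ▸ m3, e1 ▸ m4⟩

theorem RareU_scales (C a b : ℕ) (hC : 1 ≤ C) (ha : 1 ≤ a) (hb : a + 1 ≤ b) :
    ∀ᶠ h : ℕ in atTop, ∀ t : ℤ, (h : ℤ) ^ b ≤ t → ∃ ζ₁ ζ₂ : ℕ, h ≤ ζ₂ ∧ ζ₂ ≤ ζ₁ ∧
      (C : ℤ) * (ζ₁ : ℤ) ^ a ≤ t ∧ t ≤ (ζ₂ : ℤ) ^ b ∧ (C : ℤ) * (ζ₂ : ℤ) ^ a ≤ (ζ₁ : ℤ) ^ a := by
  filter_upwards [eventually_ge_atTop (C ^ (a + 1) * 2 ^ b), eventually_ge_atTop 2] with h h1 h2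
    t ht
  obtain ⟨t, rfl⟩ := Int.eq_ofNat_of_zero_le (le_trans (by positivity) ht)
  have hb0 : b ≠ 0 := by omega
  have ex : ∃ n : ℕ, t ≤ n ^ b := ⟨t, Nat.le_self_pow hb0 t⟩
  have s1 := Nat.find_spec ex
  have ht' : h ^ b ≤ t := by exact_mod_cast ht
  have s2 : h ≤ Nat.find ex := (Nat.pow_le_pow_iff_left hb0).1 (ht'.trans s1)
  have s3 := Nat.find_min ex (m := Nat.find ex - 1) (by omega)
  generalize Nat.find ex = n at *
  refine ⟨C * n, n, s2, Nat.le_mul_of_pos_left n hC, ?_, by exact_mod_cast s1, ?_⟩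
  · have a1 : n ^ b ≤ 2 ^ b * (n - 1) ^ b := by
      rw [← mul_pow]
      exact Nat.pow_le_pow_left (by omega) b
    have a2 : n * n ^ a ≤ n ^ b := by
      rw [← pow_succ']
      exact Nat.pow_le_pow_right (by omega) hb
    have a3 : 2 ^ b * (C * (C * n) ^ a) ≤ 2 ^ b * t := by
      calc 2 ^ b * (C * (C * n) ^ a) = C ^ (a + 1) * 2 ^ b * n ^ a := by
            rw [mul_pow, pow_succ]; ring
        _ ≤ n * n ^ a := Nat.mul_le_mul_right _ (h1.trans s2)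
        _ ≤ 2 ^ b * t := a2.trans (a1.trans (Nat.mul_le_mul_left _ (not_le.1 s3).le))
    exact_mod_cast Nat.le_of_mul_le_mul_left a3 (by positivity)
  · have a1 : C * n ^ a ≤ (C * n) ^ a := by
      rw [mul_pow]
      exact Nat.mul_le_mul_right _ (Nat.le_self_pow (by omega) C)
    exact_mod_cast a1

theorem RareU_T {h ζ : ℕ} (h1 : 1 ≤ h) (hh : h ≤ ζ) : (h : ℤ) ^ 3 ≤ TT ζ := by
  have a1 : (1 : ℤ) ≤ h := by exact_mod_cast h1
  have a2 : (h : ℤ) ≤ ζ := by exact_mod_cast hh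
  exact (pow_le_pow_left₀ (by positivity) a2 3).trans
    (pow_le_pow_right₀ (a1.trans a2) (by norm_num))

theorem RareU_near {ω : Env} (hn : Nice ω) {Λ z h : ℕ} (hl : LBA Λ z 0 ω) (hz : z ≤ h)
    {x m m₀ : V} (hx : nm x ≤ (h : ℤ)) (hm : nm m₀ ≤ (h : ℤ) ^ 2) (ho : On ω x m m₀) :
    nm m ≤ (Λ : ℤ) * (h : ℤ) ^ 2 + h := by
  have a1 : h ≤ h ^ 2 := Nat.le_self_pow (by norm_num) h
  have a2 : (h : ℤ) ≤ (h : ℤ) ^ 2 := by exact_mod_cast a1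
  have a3 := hl.on hn (K := h ^ 2) ho (hz.trans a1) (by rw [sub_zero]; push_cast; linarith)
    (by rw [sub_zero]; push_cast; exact hm)
  have a4 := nm_add_le (m - x) x
  rw [sub_add_cancel] at a4
  push_cast at a3
  linarith

/-- two separated scales that both fit the length `t` -/
theorem two_scales (C : ℕ) (hC : 1 ≤ C) :
    ∀ᶠ h : ℕ in atTop, ∀ t : ℤ, (h : ℤ) ^ 120004 ≤ t → ∃ ζ₁ ζ₂ : ℕ, h ≤ ζ₂ ∧ ζ₂ ≤ ζ₁ ∧
      (C : ℤ) * TT ζ₁ ≤ t ∧ t ≤ (ζ₂ : ℤ) ^ 120004 ∧ (C : ℤ) * TT ζ₂ ≤ TT ζ₁ := by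
  exact RareU_scales C 120000 120004 hC (by norm_num) (by norm_num)

/-- a corner run at the start -/
theorem run_start {Kc : Finset ℝ} (hK : ∀ κ ∈ Kc, |κ| ≤ 1) (Λ : ℕ) (hΛ : 1 ≤ Λ) :
    ∀ᶠ h : ℕ in atTop, ∀ (ω : Env) (z : ℕ) (x x' o o' m₀ : V), Nice ω → z ≤ h → LBA Λ z 0 ω →
      nm x ≤ (h : ℤ) → nm x' ≤ (h : ℤ) → nm m₀ ≤ (h : ℤ) ^ 2 → On ω x m₀ o' → On ω x' m₀ o' →
      ¬ Rare Kc h ω x o x o' → ¬ Rare Kc h ω x o x' o → ¬ Rare Kc h ω x o x' o' →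
      ¬ NoRunA Kc ((h : ℤ) ^ 120004) ω x o → On ω x m₀ o ∧ On ω x' m₀ o := by
  filter_upwards [two_scales (100 * Λ) (by omega), eventually_ge_atTop (100 * Λ)] with h hs hL ω z
    x x' o o' m₀ hn hz hl hx hx' hm a1 a2 r1 r2 r3 hrun
  simp only [NoRunA, not_forall, not_not] at hrun
  obtain ⟨y, hy, ht, hc⟩ := hrun
  obtain ⟨ζ₁, ζ₂, s1, s2, s3, s4, s5⟩ := hs _ ht
  have s6 : nm (y - x) ≤ (ζ₁ : ℤ) ^ 120004 :=
    s4.trans (pow_le_pow_left₀ (by positivity) (by exact_mod_cast s2) _)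
  have hT := RareU_T (by omega) s1
  have hΛ' : (1 : ℤ) ≤ Λ := by exact_mod_cast hΛ
  have hL' : 100 * (Λ : ℤ) ≤ h := by exact_mod_cast hL
  push_cast at s3 s5
  have b1 : 100 * (Λ : ℤ) * (h : ℤ) ^ 2 ≤ (h : ℤ) ^ 3 := by nlinarith [sq_nonneg (h : ℤ)]
  have b2 : (h : ℤ) ≤ Λ * (h : ℤ) ^ 2 := by nlinarith
  have b3 : 0 < TT ζ₂ := by linarith
  have b4 : TT ζ₂ ≤ Λ * TT ζ₂ := le_mul_of_one_le_left b3.le hΛ'
  have b5 : TT ζ₁ ≤ Λ * TT ζ₁ := le_mul_of_one_le_left (by linarith) hΛ'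
  obtain ⟨m₁, p1, p2, p3, -⟩ := rare_use hK s1 (by omega) r1 hy hc (by linarith) s4
  obtain ⟨m₂, q1, q2, q3, q4⟩ := rare_use hK s1 (by omega) r2 hy hc (by linarith) s4
  obtain ⟨m₃, u1, u2, u3, -⟩ := rare_use hK (s1.trans s2) (by omega) r3 hy hc (by linarith) s6
  refine on_core hn a1 a2 p1 p2 q1 q2 u2 ((hn.order q1 u1).resolve_right fun e => ?_)
    (fun e => ?_) (fun e => ?_) fun e => ?_
  · obtain ⟨K, hK'⟩ := Int.eq_ofNat_of_zero_le (by linarith : 0 ≤ 21 * TT ζ₂)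
    have c1 := nm_add_le (m₂ - x) x
    rw [sub_add_cancel] at c1
    have c2 : (z : ℤ) ≤ h := by exact_mod_cast hz
    have c3 := hl.on hn (K := K) e (by exact_mod_cast (by linarith : (z : ℤ) ≤ K))
      (by rw [sub_zero]; linarith) (by rw [sub_zero]; linarith)
    rw [← hK'] at c3
    linarith
  · linarith [RareU_near hn hl hz hx hm e, nm_sub_le m₁ x]
  · linarith [RareU_near hn hl hz hx hm e, nm_sub_le m₂ x]
  · linarith [RareU_near hn hl hz hx' hm e, nm_sub_le m₃ x]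

/-- a corner run at the end -/
theorem run_end {Kc : Finset ℝ} (hK : ∀ κ ∈ Kc, |κ| ≤ 1) (Λ : ℕ) (hΛ : 1 ≤ Λ) :
    ∀ᶠ h : ℕ in atTop, ∀ (ω : Env) (z : ℕ) (x x' o o' m₀ : V), Nice ω → z ≤ h → LBA Λ z 0 ω →
      LBA Λ z o ω → nm x ≤ (h : ℤ) → nm x' ≤ (h : ℤ) → nm m₀ ≤ (h : ℤ) ^ 2 →
      (h : ℤ) ^ 4 ≤ nm o → On ω x m₀ o' → On ω x' m₀ o' →
      ¬ Rare Kc h ω o x o' x → ¬ Rare Kc h ω o x o x' → ¬ Rare Kc h ω o x o' x' →
      ¬ NoRunA Kc ((h : ℤ) ^ 120004) ω o x → On ω x m₀ o ∧ On ω x' m₀ o := by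
  filter_upwards [two_scales (100 * Λ) (by omega), eventually_ge_atTop (100 * Λ)] with h hs hL ω z
    x x' o o' m₀ hn hz hl hlo hx hx' hm ho a1 a2 r1 r2 r3 hrun
  simp only [NoRunA, not_forall, not_not] at hrun
  obtain ⟨y, hy, ht, hc⟩ := hrun
  obtain ⟨ζ₁, ζ₂, s1, s2, s3, s4, s5⟩ := hs _ ht
  have s6 : nm (y - o) ≤ (ζ₁ : ℤ) ^ 120004 :=
    s4.trans (pow_le_pow_left₀ (by positivity) (by exact_mod_cast s2) _)
  have hT := RareU_T (by omega) s1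
  have hΛ' : (1 : ℤ) ≤ Λ := by exact_mod_cast hΛ
  have hL' : 100 * (Λ : ℤ) ≤ h := by exact_mod_cast hL
  push_cast at s3 s5
  have b1 : 100 * (Λ : ℤ) * (h : ℤ) ^ 2 ≤ (h : ℤ) ^ 3 := by nlinarith [sq_nonneg (h : ℤ)]
  have b2 : (h : ℤ) ≤ Λ * (h : ℤ) ^ 2 := by nlinarith
  have b3 : 0 < TT ζ₂ := by linarith
  have b4 : TT ζ₂ ≤ Λ * TT ζ₂ := le_mul_of_one_le_left b3.le hΛ'
  have b5 : TT ζ₁ ≤ Λ * TT ζ₁ := le_mul_of_one_le_left (by linarith) hΛ'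
  have b6 : (h : ℤ) ^ 3 ≤ (h : ℤ) ^ 4 := pow_le_pow_right₀ (by linarith) (by norm_num)
  have c2 : (z : ℤ) ≤ h := by exact_mod_cast hz
  have b7 : 100 * TT ζ₁ ≤ nm o + h := by
    obtain ⟨K, hK'⟩ := Int.eq_ofNat_of_zero_le (by linarith : 0 ≤ nm o + h)
    have c3 := hl.on hn (K := K) hy (by exact_mod_cast (by linarith : (z : ℤ) ≤ K))
      (by rw [sub_zero]; linarith) (by rw [sub_zero]; linarith)
    rw [← hK'] at c3
    refine le_of_mul_le_mul_left (a := (Λ : ℤ)) (by linarith) (by linarith)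
  obtain ⟨m₁, p1, p2, -, p4⟩ := rare_use hK s1 (by omega) r1 hy hc (by linarith) s4
  obtain ⟨m₂, q1, q2, q3, q4⟩ := rare_use hK (s1.trans s2) (by omega) r2 hy hc (by linarith) s6
  obtain ⟨m₃, u1, u2, -, u4⟩ := rare_use hK s1 (by omega) r3 hy hc (by linarith) s4
  have far : ∀ m : V, nm o ≤ nm (m - o) + nm m := fun m => by
    have := nm_add_le (o - m) m
    rwa [sub_add_cancel, nm_sub_comm] at this
  refine on_core hn a1 a2 p1.symm p2.symm q1.symm q2.symm u2.symm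
    (On.trans_left ((hn.order u1 q1).resolve_right fun e => ?_) q1).2.symm
    (fun e => ?_) (fun e => ?_) fun e => ?_
  · obtain ⟨K, hK'⟩ := Int.eq_ofNat_of_zero_le (by linarith : 0 ≤ 20 * TT ζ₂)
    have c3 := hlo.on hn (K := K) e (by exact_mod_cast (by linarith : (z : ℤ) ≤ K))
      (by rw [sub_self]; simp [nm]) (by linarith)
    rw [← hK'] at c3
    linarith
  · linarith [RareU_near hn hl hz hx hm e, far m₁]
  · linarith [RareU_near hn hl hz hx hm e, far m₂]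
  · linarith [RareU_near hn hl hz hx' hm e, far m₃]

end Pool.Agent.FPP
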