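import Pool.Agent.P.MP_ecb9f8_pr.LocCount
import Pool.Agent.P.MP_ecb9f8_pr.RareP
import Pool.Agent.P.MP_ecb9f8_pr.RareU
import Pool.Agent.P.MP_ecb9f8_pr.GoodQ

open MeasureTheory ProbabilityTheory Set Filter

noncomputable section

namespace Pool.Agent.FPP

theorem LocProb_norun {Kc : Finset ℝ} (hK : ∀ κ ∈ Kc, |κ| ≤ 1) {h : ℕ} (h2 : 2 ≤ h)
    (hs : ∀ t : ℤ, (h : ℤ) ^ 120004 ≤ t → ∃ ζ₁ ζ₂ : ℕ, h ≤ ζ₂ ∧ ζ₂ ≤ ζ₁ ∧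
      ((20 : ℕ) : ℤ) * TT ζ₁ ≤ t ∧ t ≤ (ζ₂ : ℤ) ^ 120004 ∧ ((20 : ℕ) : ℤ) * TT ζ₂ ≤ TT ζ₁)
    {s s' R : ℤ} (hs1 : (h : ℤ) ^ 120004 ≤ s) {ω : Env} {x x' o : V} (hx : nm x + s' ≤ R)
    (hr : ¬ Rare Kc h ω x o x' o)
    (hn : ¬ ∃ m : V, On ω x m o ∧ On ω x' m o ∧ nm (m - 0) ≤ R) :
    NoRun Kc s s' ω x o := by
  intro y hy h3 h4 hc
  obtain ⟨ζ₁, ζ₂, a1, -, a3, a4, a5⟩ := hs _ (hs1.trans h3)
  have hT : 0 ≤ TT ζ₁ := pow_nonneg (Int.natCast_nonneg _) _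
  have c20 : ((20 : ℕ) : ℤ) = 20 := rfl
  rw [c20] at a3 a5
  have b : 20 * TT ζ₂ ≤ nm (y - x) := by linarith
  obtain ⟨m, m1, m2, -, m4⟩ := rare_use hK a1 (h2.trans a1) hr hy hc b a4
  refine hn ⟨m, m1, m2, ?_⟩
  have h5 := nm_tri 0 x m
  rw [sub_zero x] at h5
  linarith

theorem LocProb_core (G : Measure ℝ) [IsProbabilityMeasure G] {N : Seminorm ℝ (ℝ × ℝ)}
    {Kc : Finset ℝ} {Φ : Finset (ℝ × ℝ)} {c : ℝ} (hP : Poly N Kc Φ c) {Λ Z h : ℕ}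
    (hz : Sz N c Λ Z) (hΦ : Φ.card ≤ Z)
    (hg : PP G {ω | ¬ Good8 N G Λ Z ω} ≤ ENNReal.ofReal ((Z : ℝ)⁻¹)) (h2 : 2 ≤ h) (hZ : h ≤ Z)
    (hZ' : (h : ℤ) ^ 120004 ≤ (Z : ℤ) ^ 19)
    (hs : ∀ t : ℤ, (h : ℤ) ^ 120004 ≤ t → ∃ ζ₁ ζ₂ : ℕ, h ≤ ζ₂ ∧ ζ₂ ≤ ζ₁ ∧
      ((20 : ℕ) : ℤ) * TT ζ₁ ≤ t ∧ t ≤ (ζ₂ : ℤ) ^ 120004 ∧ ((20 : ℕ) : ℤ) * TT ζ₂ ≤ TT ζ₁)
    (hr : ∀ xP oP xQ oQ : V, nm (xQ - xP) ≤ (h : ℤ) → nm (oQ - oP) ≤ (h : ℤ) →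
      PP G {ω | Rare Kc h ω xP oP xQ oQ} ≤ ENNReal.ofReal ((h : ℝ)⁻¹))
    (o η : V) (hη : nm η ≤ (h : ℤ)) (ho : (Z : ℤ) ^ 1300 ≤ nm o) :
    ∃ k : V, nm k ≤ (Z : ℤ) ^ 1020 ∧
      PP G {ω | NM ω 0 η (o + k) 0 (2 * (Z : ℤ) ^ 1301)} ≤ ENNReal.ofReal (5 * (h : ℝ)⁻¹) := by
  classical
  have hK : ∀ κ ∈ Kc, |κ| ≤ 1 := fun κ hκ => by
    obtain ⟨φ, hφ⟩ := hP.corner κ hκ
    exact hφ.1
  have h100 := hz.hundred
  have hz0 : 0 < Z := by omega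
  have hZi : (h : ℤ) ≤ (Z : ℤ) := by exact_mod_cast hZ
  have h100i : (100 : ℤ) ≤ (Z : ℤ) := by exact_mod_cast h100
  have hA : ∀ u : V, MeasurableSet {ω : Env | NM ω u (u + η) o 0 ((Z : ℤ) ^ 1301) ∧
      NoRun Kc ((Z : ℤ) ^ 19) (2 * (Z : ℤ) ^ 1300) ω u o ∧
      NoRun Kc ((Z : ℤ) ^ 19) (2 * (Z : ℤ) ^ 1300) ω (u + η) o} := fun u =>
    (measurableSet_NM _ _ _ _ _).inter
      ((measurableSet_NoRun _ _ _ _ _).inter (measurableSet_NoRun _ _ _ _ _))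
  have hsum := sum_measure_le G (box Z) (fun u => {ω : Env | NM ω u (u + η) o 0 ((Z : ℤ) ^ 1301) ∧
      NoRun Kc ((Z : ℤ) ^ 19) (2 * (Z : ℤ) ^ 1300) ω u o ∧
      NoRun Kc ((Z : ℤ) ^ 19) (2 * (Z : ℤ) ^ 1300) ω (u + η) o})
    (fun u _ => hA u) {ω | ¬ Good8 N G Λ Z ω} (Z ^ 2030) (by
      intro ω hω J hJ hA'
      have hω' : Good8 N G Λ Z ω := not_not.1 hω
      refine le_trans (Finset.card_le_card ?_)
        (loc_count hP hz hΦ hω' o η (hη.trans hZi) ho)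
      intro j hj
      exact Finset.mem_filter.2 ⟨hJ hj, hA' j hj⟩)
  have hcard := card_box Z
  have hne : (box Z).Nonempty := Finset.card_pos.1 (lt_of_lt_of_le (pow_pos hz0 _) hcard)
  obtain ⟨u, hu, hmin⟩ := (box Z).exists_min_image
    (fun u => PP G {ω : Env | NM ω u (u + η) o 0 ((Z : ℤ) ^ 1301) ∧
      NoRun Kc ((Z : ℤ) ^ 19) (2 * (Z : ℤ) ^ 1300) ω u o ∧
      NoRun Kc ((Z : ℤ) ^ 19) (2 * (Z : ℤ) ^ 1300) ω (u + η) o}) hne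
  have hb : PP G {ω : Env | NM ω u (u + η) o 0 ((Z : ℤ) ^ 1301) ∧
      NoRun Kc ((Z : ℤ) ^ 19) (2 * (Z : ℤ) ^ 1300) ω u o ∧
      NoRun Kc ((Z : ℤ) ^ 19) (2 * (Z : ℤ) ^ 1300) ω (u + η) o} ≤
      ENNReal.ofReal (2 * (Z : ℝ)⁻¹) := by
    refine avg_bound (J := (box Z).card) (m := Z ^ 2030) (by exact_mod_cast hz0)
      (Finset.card_pos.2 hne) hg ?_ (le_trans ?_ hsum)
    · have e1 : Z ^ 2030 * Z ≤ (box Z).card := by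
        refine le_trans ?_ hcard
        rw [← pow_succ]
        exact Nat.pow_le_pow_right hz0 (by norm_num)
      have e2 : ((Z ^ 2030 * Z : ℕ) : ℝ) ≤ ((box Z).card : ℝ) := Nat.cast_le.2 e1
      rwa [Nat.cast_mul] at e2
    · rw [← nsmul_eq_mul]
      exact Finset.card_nsmul_le_sum _ _ _ hmin
  have hu' : nm u ≤ (Z : ℤ) ^ 1020 := mem_box.1 hu
  have p1 : 100 * (Z : ℤ) ^ 1020 ≤ (Z : ℤ) ^ 1300 := Base_pow h100i (by norm_num)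
  have p2 : 100 * (Z : ℤ) ^ 1300 ≤ (Z : ℤ) ^ 1301 := Base_pow h100i (by norm_num)
  have p3 : (Z : ℤ) ≤ (Z : ℤ) ^ 1020 := le_self_pow₀ (by omega) (by norm_num)
  have p4 : nm (u + η) ≤ nm u + nm η := nm_add_le u η
  have q1 : nm u + 2 * (Z : ℤ) ^ 1300 ≤ (Z : ℤ) ^ 1301 := by linarith
  have q2 : nm (u + η) + 2 * (Z : ℤ) ^ 1300 ≤ (Z : ℤ) ^ 1301 := by linarith
  have q3 : (Z : ℤ) ^ 1301 + nm u ≤ 2 * (Z : ℤ) ^ 1301 := by linarith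
  have hsub : {ω : Env | NM ω u (u + η) o 0 ((Z : ℤ) ^ 1301)} ⊆
      ({ω : Env | NM ω u (u + η) o 0 ((Z : ℤ) ^ 1301) ∧
        NoRun Kc ((Z : ℤ) ^ 19) (2 * (Z : ℤ) ^ 1300) ω u o ∧
        NoRun Kc ((Z : ℤ) ^ 19) (2 * (Z : ℤ) ^ 1300) ω (u + η) o} ∪
        {ω | Rare Kc h ω u o (u + η) o}) ∪ {ω | Rare Kc h ω (u + η) o u o} := by
    intro ω hω
    by_cases r1 : Rare Kc h ω u o (u + η) o
    · exact Or.inl (Or.inr r1)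
    by_cases r2 : Rare Kc h ω (u + η) o u o
    · exact Or.inr r2
    refine Or.inl (Or.inl ⟨hω, LocProb_norun hK h2 hs hZ' q1 r1 hω,
      LocProb_norun hK h2 hs hZ' q2 r2 ?_⟩)
    rintro ⟨m, m1, m2, m3⟩
    exact hω ⟨m, m2, m1, m3⟩
  have hoo : nm (o - o) ≤ (h : ℤ) := by
    rw [sub_self]
    simp [nm]
  have r1 := hr u o (u + η) o (by rw [add_sub_cancel_left]; exact hη) hoo
  have r2 := hr (u + η) o u o (by rw [nm_sub_comm, add_sub_cancel_left]; exact hη) hoo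
  have hh0 : (0 : ℝ) < h := by exact_mod_cast (by omega : 0 < h)
  have hinv : (Z : ℝ)⁻¹ ≤ (h : ℝ)⁻¹ := inv_anti₀ hh0 (by exact_mod_cast hZ)
  have hi0 : (0 : ℝ) ≤ (h : ℝ)⁻¹ := by positivity
  have hi1 : (0 : ℝ) ≤ (Z : ℝ)⁻¹ := by positivity
  have htot : PP G {ω : Env | NM ω u (u + η) o 0 ((Z : ℤ) ^ 1301)} ≤
      ENNReal.ofReal (5 * (h : ℝ)⁻¹) := by
    refine (measure_mono hsub).trans ((measure_union_le _ _).trans ?_)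
    refine (add_le_add ((measure_union_le _ _).trans (add_le_add hb r1)) r2).trans ?_
    rw [← ENNReal.ofReal_add (by positivity) hi0, ← ENNReal.ofReal_add (by positivity) hi0]
    exact ENNReal.ofReal_le_ofReal (by linarith)
  refine ⟨-u, by rw [nm_neg]; exact hu', le_trans ?_ htot⟩
  refine le_trans (measure_mono ?_) (measure_pull_le G (sh (-u)) _)
  intro ω hω
  rintro ⟨m, m1, m2, m3⟩
  rw [On_pull _ (sh_adj _)] at m1 m2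
  have e1 : sh (-u) u = 0 := by rw [sh_apply]; abel
  have e2 : sh (-u) (u + η) = η := by rw [sh_apply]; abel
  have e3 : sh (-u) o = o + -u := sh_apply _ _
  rw [e1, e3] at m1
  rw [e2, e3] at m2
  refine hω ⟨_, m1, m2, ?_⟩
  have e4 : sh (-u) m - 0 = (m - 0) - u := by rw [sh_apply]; abel
  rw [e4]
  have h3 := nm_sub_le (m - 0) u
  linarith

/-- local coalescence for a suitable shift of the target -/
theorem loc_prob (G : Measure ℝ) [IsProbabilityMeasure G] (hG : Law G) {N : Seminorm ℝ (ℝ × ℝ)}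
    (hN : IsTC G N) {Kc : Finset ℝ} {Φ : Finset (ℝ × ℝ)} {c : ℝ} (hP : Poly N Kc Φ c) :
    ∀ᶠ h : ℕ in atTop, ∀ o η : V, nm η ≤ (h : ℤ) → ((h ^ 6400 : ℕ) : ℤ) ^ 1300 ≤ nm o →
      ∃ k : V, nm k ≤ ((h ^ 6400 : ℕ) : ℤ) ^ 1020 ∧
        PP G {ω | NM ω 0 η (o + k) 0 (2 * ((h ^ 6400 : ℕ) : ℤ) ^ 1301)} ≤
          ENNReal.ofReal (5 * (h : ℝ)⁻¹) := by
  obtain ⟨Λ₀, hΛ₀⟩ := sp_mg G hG hN
  have hmg := hΛ₀ (max Λ₀ 1) (le_max_left _ _) 1310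
  have hg := sp_good8 G hG hmg 1
  have hsz := eventually_sz N hP.pos (le_max_right Λ₀ 1)
  have ht : Tendsto (fun h : ℕ => h ^ 6400) atTop atTop := tendsto_pow_atTop (by norm_num)
  filter_upwards [ht.eventually hg, ht.eventually hsz, ht.eventually (eventually_ge_atTop Φ.card),
    eventually_ge_atTop 2, two_scales 20 (by norm_num), rare_prob G hG hN hP]
    with h a1 a2 a3 a4 a5 a6
  intro o η hη ho
  rw [pow_one] at a1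
  have b1 : h ≤ h ^ 6400 := Nat.le_self_pow (by norm_num) h
  have b2 : (h : ℤ) ^ 120004 ≤ ((h ^ 6400 : ℕ) : ℤ) ^ 19 := by
    rw [Nat.cast_pow, ← pow_mul]
    exact pow_le_pow_right₀ (by exact_mod_cast (by omega : 1 ≤ h)) (by norm_num)
  exact LocProb_core G hP a2 a3 a1 a4 b1 b2 a5 a6 o η hη ho

end Pool.Agent.FPP
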