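import Pool.Agent.P.MP_ecb9f8_pr.PathCount

open MeasureTheory ProbabilityTheory Set Filter

noncomputable section

namespace Pool.Agent.FPP

theorem Low1_aux1 {α β : Type*} [DecidableEq β] (s : Finset α) (t : α → Finset β) (f : β → ℝ)
    (hf : ∀ b, 0 ≤ f b) : ∑ b ∈ s.biUnion t, f b ≤ ∑ a ∈ s, ∑ b ∈ t a, f b := by
  classical
  induction s using Finset.induction_on with
  | empty => simp
  | insert a s ha ih =>
    rw [Finset.biUnion_insert, Finset.sum_insert ha]
    have h1 := Finset.sum_union_inter (s₁ := t a) (s₂ := s.biUnion t) (f := f)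
    have h2 : 0 ≤ ∑ b ∈ t a ∩ s.biUnion t, f b := Finset.sum_nonneg fun b _ => hf b
    linarith

open Classical in
theorem Low1_aux2 (θ : ℝ) (a : V) :
    ∑ w ∈ nbrs a, (if w ≠ (a.1 + 1, a.2) then θ else 1) = 1 + 3 * θ := by
  have h1 : a.1 - 1 ≠ a.1 + 1 := by omega
  have h2 : a.1 ≠ a.1 + 1 := by omega
  have h3 : a.1 - 1 ≠ a.1 := by omega
  have h4 : a.2 + 1 ≠ a.2 - 1 := by omega
  rw [nbrs, Finset.sum_insert (by simp [h1.symm]), Finset.sum_insert (by simp [h3]),
    Finset.sum_insert (by simp [h4]), Finset.sum_singleton, if_neg (by simp), if_pos (by simp [h1]),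
    if_pos (by simp), if_pos (by simp)]
  ring

open Classical in
/-- generating function of the walks by the number of steps that are not east steps -/
theorem sum_paths_le {θ : ℝ} (hθ : 0 ≤ θ) (v : V) (k : ℕ) :
    ∑ p ∈ paths v k, θ ^ ((Finset.range k).filter
      (fun i => p (i + 1) ≠ ((p i).1 + 1, (p i).2))).card ≤ (1 + 3 * θ) ^ k := by
  induction k with
  | zero => simp [paths]
  | succ k ih =>
    rw [paths]
    refine (Low1_aux1 _ _ _ fun _ => pow_nonneg hθ _).trans ?_
    rw [pow_succ]
    refine le_trans ?_ (mul_le_mul_of_nonneg_right ih (by linarith))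
    rw [Finset.sum_mul]
    refine Finset.sum_le_sum fun p _ => ?_
    refine (Finset.sum_image_le_of_nonneg fun _ _ => pow_nonneg hθ _).trans ?_
    refine le_trans (Finset.sum_le_sum fun w _ => ?_) (le_trans (Finset.mul_sum _ _ _).ge
      (mul_le_mul_of_nonneg_left (Low1_aux2 θ (p k)).le (pow_nonneg hθ _)))
    rw [Finset.range_add_one, Finset.filter_insert]
    have e : (Finset.range k).filter (fun i => (if i + 1 ≤ k then p (i + 1) else w) ≠
        ((if i ≤ k then p i else w).1 + 1, (if i ≤ k then p i else w).2)) =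
        (Finset.range k).filter (fun i => p (i + 1) ≠ ((p i).1 + 1, (p i).2)) := by
      refine Finset.filter_congr fun i hi => ?_
      have hi' := Finset.mem_range.1 hi
      rw [if_pos (show i + 1 ≤ k from hi'), if_pos hi'.le]
    rw [e]
    simp only [if_neg (show ¬ k + 1 ≤ k by omega), if_pos (le_refl k)]
    split_ifs
    · rw [Finset.card_insert_of_notMem (by simp), pow_succ]
    · rw [mul_one]

open Classical in
/-- a walk from `0` to `(n, m)` with `k` steps has at most `k - n` steps that are not east steps -/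
theorem nonEast_le {p : ℕ → V} {k n m : ℕ} (hp : Chain p k) (h0 : p 0 = 0)
    (hk : p k = ((n : ℤ), (m : ℤ))) :
    n + m ≤ k ∧ ((Finset.range k).filter
      (fun i => p (i + 1) ≠ ((p i).1 + 1, (p i).2))).card ≤ k - n := by
  have key : ∀ k, Chain p k → (p k).1 + (p k).2 ≤ k ∧ (p k).1 + (((Finset.range k).filter
      (fun i => p (i + 1) ≠ ((p i).1 + 1, (p i).2))).card : ℤ) ≤ k := by
    intro k
    induction k with
    | zero => intro _; simp [h0]
    | succ k ih =>
      intro h
      obtain ⟨h1, h2⟩ := ih (h.mono k.le_succ)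
      have h3 := mem_nbrs.2 (h k k.lt_succ_self)
      rw [Finset.range_add_one, Finset.filter_insert]
      simp only [nbrs, Finset.mem_insert, Finset.mem_singleton] at h3
      split_ifs with h4
      · rw [Finset.card_insert_of_notMem (by simp)]
        rcases h3 with h3 | h3 | h3 | h3
        · exact absurd h3 h4
        all_goals
          rw [h3]
          push_cast
          constructor <;> linarith
      · rw [not_not.1 h4]
        push_cast
        constructor <;> linarith
  obtain ⟨h1, h2⟩ := key k hp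
  rw [hk] at h1 h2
  dsimp only at h1 h2
  omega

open Classical in
theorem card_paths_to_le {θ : ℝ} (hθ : 0 < θ) (hθ1 : θ ≤ 1) (n m k : ℕ) :
    (((paths 0 k).filter (fun p => p k = ((n : ℤ), (m : ℤ)))).card : ℝ) ≤
      (1 + 3 * θ) ^ k / θ ^ (k - n) := by
  rw [le_div_iff₀ (pow_pos hθ _), ← nsmul_eq_mul, ← Finset.sum_const]
  refine le_trans ?_ (sum_paths_le hθ.le 0 k)
  refine le_trans (Finset.sum_le_sum fun p hp => ?_) (Finset.sum_le_sum_of_subset_of_nonneg
    (Finset.filter_subset _ _) fun _ _ _ => pow_nonneg hθ.le _)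
  obtain ⟨h1, h2⟩ := Finset.mem_filter.1 hp
  obtain ⟨h3, h4, -⟩ := mem_paths.1 h1
  exact pow_le_pow_of_le_one hθ.le hθ1 (nonEast_le h3 h4 h2).2

end Pool.Agent.FPP
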