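import Pool.Agent.P.MP_ecb9f8_pr.Defs2
import Pool.Agent.P.MP_ecb9f8_pr.MW2

open MeasureTheory ProbabilityTheory Set Filter

noncomputable section

namespace Pool.Agent.FPP

theorem LowFam_level {τ w : ℝ} (h0 : 0 ≤ τ) (h1 : τ ≤ 1 / 2) (hw0 : 0 ≤ w) (hw1 : w ≤ 1) :
    ∫⁻ u in {u : ℝ | u - τ * u * (1 - u) ≤ w} ∩ Icc 0 1, ENNReal.ofReal (1 - τ * (1 - 2 * u)) =
      ENNReal.ofReal w := by
  obtain ⟨b, hb, hbw⟩ := intermediate_value_Icc (f := fun u : ℝ => u - τ * u * (1 - u))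
    zero_le_one (by fun_prop) (show w ∈ Icc _ _ from ⟨by simpa using hw0, by simpa using hw1⟩)
  have e : {u : ℝ | u - τ * u * (1 - u) ≤ w} ∩ Icc 0 1 = Icc 0 b := by
    ext u
    simp only [mem_inter_iff, mem_ofPred_eq, mem_Icc, ← hbw]
    have key : ∀ s t : ℝ, s ≤ 1 → t ≤ 1 → 0 ≤ s → 0 ≤ t → 0 < 1 - τ * (1 - s - t) :=
      fun s t _ _ _ _ => by nlinarith
    constructor
    · rintro ⟨h, h2, h3⟩
      refine ⟨h2, le_of_not_gt fun h4 => ?_⟩
      nlinarith [mul_pos (sub_pos.2 h4) (key u b h3 hb.2 h2 hb.1)]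
    · rintro ⟨h2, h3⟩
      refine ⟨?_, h2, h3.trans hb.2⟩
      nlinarith [mul_nonneg (sub_nonneg.2 h3) (key u b (h3.trans hb.2) hb.2 h2 hb.1).le]
  rw [e, MW2_lint (Φ := fun u : ℝ => u - τ * u * (1 - u)) hb.1 (fun u _ => ?_) (by fun_prop)
    fun u hu => by nlinarith [hu.1, hu.2, hb.2]]
  · simp only at hbw
    simp [hbw]
  · refine ((hasDerivAt_id' u).fun_sub (((hasDerivAt_id' u).const_mul τ).fun_mul
      ((hasDerivAt_id' u).const_sub 1))).congr_deriv ?_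
    ring

theorem LowFam_mom {τ : ℝ} (h0 : 0 ≤ τ) (h1 : τ ≤ 1 / 2) (k : ℕ) (hk : (k : ℝ) * τ ≤ 1) :
    ∫⁻ u in Icc (0 : ℝ) 1, ENNReal.ofReal ((1 - τ * (1 - 2 * u)) ^ k) ≤
      ENNReal.ofReal (1 + (k : ℝ) ^ 2 * τ ^ 2) := by
  have hc : 0 ≤ (k : ℝ) * τ := by positivity
  obtain ⟨c, hc'⟩ : ∃ c, c = (k : ℝ) * τ := ⟨_, rfl⟩
  rw [← mul_pow, ← hc']
  rw [← hc'] at hk hc
  have h2 : ∫⁻ u in Icc (0 : ℝ) 1, ENNReal.ofReal (1 - c * (1 - 2 * u) + c ^ 2) =
      ENNReal.ofReal (1 + c ^ 2) := by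
    rw [MW2_lint (Φ := fun u : ℝ => u - c * (u - u * u) + c ^ 2 * u) zero_le_one (fun u _ => ?_)
      (by fun_prop) fun u hu => by nlinarith [hu.1, hu.2, sq_nonneg c]]
    · simp
    · refine (((hasDerivAt_id' u).fun_sub (((hasDerivAt_id' u).fun_sub
        ((hasDerivAt_id' u).fun_mul (hasDerivAt_id' u))).const_mul c)).fun_add
        ((hasDerivAt_id' u).const_mul (c ^ 2))).congr_deriv ?_
      ring
  rw [← h2]
  refine setLIntegral_mono' measurableSet_Icc fun u hu => ENNReal.ofReal_le_ofReal ?_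
  have a1 : 0 ≤ 1 - τ * (1 - 2 * u) := by nlinarith [hu.1, hu.2]
  have a2 : 1 - τ * (1 - 2 * u) ≤ Real.exp (-(τ * (1 - 2 * u))) := by
    linarith [Real.add_one_le_exp (-(τ * (1 - 2 * u)))]
  have a3 := pow_le_pow_left₀ a1 a2 k
  have a4 : (k : ℝ) * -(τ * (1 - 2 * u)) = -(c * (1 - 2 * u)) := by
    rw [hc']
    ring
  rw [← Real.exp_nat_mul, a4] at a3
  have a5 : |-(c * (1 - 2 * u))| ≤ c := abs_le.2 ⟨by nlinarith [hu.1, hu.2], by
    nlinarith [hu.1, hu.2]⟩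
  have a6 := (abs_le.1 (Real.abs_exp_sub_one_sub_id_le (a5.trans hk))).2
  have a7 := sq_le_sq' (abs_le.1 a5).1 (abs_le.1 a5).2
  linarith

theorem exists_lowF (G : Measure ℝ) [IsProbabilityMeasure G] (hG : G ≪ volume)
    (h0 : G (Iio 0) = 0) {ε : ℝ} (hε : 0 < ε) :
    ∃ (Sg : Set ℝ) (δ : ℝ) (lam J : ℝ → ℝ → ℝ), MeasurableSet Sg ∧ Sg ⊆ Ici 0 ∧
      G Sgᶜ ≤ ENNReal.ofReal ε ∧ 0 < δ ∧ LowF G Sg δ lam J := by
  classical
  obtain ⟨Sg, D, η, hS, hS0, hSε, hD, hη, hg⟩ := exists_good_set G hG h0 hε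
  have hU := map_cdf_uniform G hG
  have hc := MW1_continuous G hG
  have mF : Measurable (cdf G) := (monotone_cdf G).measurable
  obtain ⟨θ, hθ⟩ : ∃ θ : ℝ → ℝ → ℝ, θ = fun τ x =>
      if (0 ≤ τ ∧ τ ≤ 1 / 2) ∧ 0 < cdf G x ∧ cdf G x < 1 then
      sInf {y | cdf G x - τ * cdf G x * (1 - cdf G x) ≤ cdf G y} else x := ⟨_, rfl⟩
  have h1 : ∀ τ, 0 ≤ τ → τ ≤ 1 / 2 → ∀ x, 0 < cdf G x → cdf G x < 1 → ∀ c,
      θ τ x ≤ c ↔ cdf G x - τ * cdf G x * (1 - cdf G x) ≤ cdf G c := fun τ t0 t1 x a b c => by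
    have h2 : 0 ≤ τ * cdf G x * (1 - cdf G x) :=
      mul_nonneg (mul_nonneg t0 a.le) (sub_pos.2 b).le
    have h3 : 0 < cdf G x * (1 - τ * (1 - cdf G x)) := mul_pos a (by nlinarith)
    rw [hθ]
    simp only [if_pos (And.intro (And.intro t0 t1) (And.intro a b))]
    exact MW2_quant G (by linarith) (by linarith) c
  have h2 : ∀ τ x, ¬(0 < cdf G x ∧ cdf G x < 1) → θ τ x = x := fun τ x hx => by
    rw [hθ]
    exact if_neg fun h => hx h.2
  have mψ : ∀ τ : ℝ, Measurable fun u : ℝ => u - τ * u * (1 - u) := fun τ => by fun_prop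
  have mθ : ∀ τ, Measurable (θ τ) := fun τ => by
    by_cases ht : 0 ≤ τ ∧ τ ≤ 1 / 2
    · refine measurable_of_Iic fun c => ?_
      have e : θ τ ⁻¹' Iic c = (cdf G ⁻¹' Ioo 0 1 ∩
          cdf G ⁻¹' {u | u - τ * u * (1 - u) ≤ cdf G c}) ∪ ((cdf G ⁻¹' Ioo 0 1)ᶜ ∩ Iic c) := by
        ext x
        by_cases hx : 0 < cdf G x ∧ cdf G x < 1
        · simp only [mem_preimage, mem_Iic, h1 τ ht.1 ht.2 x hx.1 hx.2, mem_union, mem_inter_iff,
            mem_Ioo, hx, mem_ofPred_eq, and_self, true_and, mem_compl_iff, not_true_eq_false,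
            false_and, or_false]
        · simp only [mem_preimage, mem_Iic, h2 τ x hx, mem_union, mem_inter_iff, mem_Ioo, hx,
            false_and, mem_compl_iff, not_false_eq_true, true_and, false_or]
      rw [e]
      exact ((mF measurableSet_Ioo).inter (mF (measurableSet_le (mψ τ) measurable_const))).union
        ((mF measurableSet_Ioo).compl.inter measurableSet_Iic)
    · have e : θ τ = id := by
        rw [hθ]
        exact funext fun x => if_neg fun h => ht h.1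
      rw [e]
      exact measurable_id
  have hδ : 0 < min 1 (η ^ 2 / (4 * D)) := lt_min one_pos (by positivity)
  refine ⟨Sg, min 1 (η ^ 2 / (4 * D)), θ, fun τ x => 1 - τ * (1 - 2 * cdf G x), hS, hS0, hSε, hδ,
    mθ, fun τ => by fun_prop, fun τ t0 t1 x => ?_, fun τ t0 t1 => ?_, fun τ t0 t1 k hk => ?_,
    fun τ t0 t1 x => ?_, fun τ τ' t0 t1 t2 x => ?_, fun τ τ' t0 t1 t2 x hx => ?_⟩
  · nlinarith [cdf_nonneg G x, cdf_le_one G x]
  · have mJ : Measurable fun u : ℝ => ENNReal.ofReal (1 - τ * (1 - 2 * u)) := by fun_prop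
    refine (Measure.ext_of_Iic G _ fun c => ?_).symm
    have mL : MeasurableSet {u : ℝ | u - τ * u * (1 - u) ≤ cdf G c} :=
      measurableSet_le (mψ τ) measurable_const
    have hae : ∀ᵐ x ∂G, cdf G x ∈ Ioo (0 : ℝ) 1 := by
      refine ae_of_ae_map mF.aemeasurable (p := fun u => u ∈ Ioo (0 : ℝ) 1) ?_
      rw [hU, ← Measure.restrict_congr_set Ioo_ae_eq_Icc]
      exact ae_restrict_mem measurableSet_Ioo
    have e : (θ τ ⁻¹' Iic c : Set ℝ) =ᵐ[G]
        (cdf G ⁻¹' {u : ℝ | u - τ * u * (1 - u) ≤ cdf G c} : Set ℝ) := by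
      filter_upwards [hae] with x hx using propext (h1 τ t0 t1 x hx.1 hx.2 c)
    rw [Measure.map_apply (mθ τ) measurableSet_Iic, withDensity_apply _ (mθ τ measurableSet_Iic),
      setLIntegral_congr e, ← setLIntegral_map mL mJ mF, hU, Measure.restrict_restrict mL,
      LowFam_level t0 t1 (cdf_nonneg G c) (cdf_le_one G c), ofReal_cdf]
  · have mK : Measurable fun u : ℝ => ENNReal.ofReal ((1 - τ * (1 - 2 * u)) ^ k) := by fun_prop
    rw [← lintegral_map mK mF, hU]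
    exact LowFam_mom t0 t1 k hk
  · by_cases hx : 0 < cdf G x ∧ cdf G x < 1
    · refine (h1 τ t0 t1 x hx.1 hx.2 x).2 ?_
      linarith [mul_nonneg (mul_nonneg t0 hx.1.le) (sub_pos.2 hx.2).le]
    · exact (h2 τ x hx).le
  · by_cases hx : 0 < cdf G x ∧ cdf G x < 1
    · refine (h1 τ' (t0.trans t1) t2 x hx.1 hx.2 _).2
        (le_trans ?_ ((h1 τ t0 (t1.trans t2) x hx.1 hx.2 _).1 le_rfl))
      nlinarith [mul_nonneg (mul_nonneg (sub_nonneg.2 t1) hx.1.le) (sub_pos.2 hx.2).le]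
    · rw [h2 τ x hx, h2 τ' x hx]
  · obtain ⟨g1, g2, g3⟩ := hg _ hx
    rcases t1.eq_or_lt with rfl | t1'
    · simp
    have hu : 0 < cdf G x ∧ cdf G x < 1 := by
      by_contra hn
      rw [h2 τ' x hn] at g1 g2
      exact hn ⟨by linarith, by linarith⟩
    have a1 := h1 τ' (t0.trans t1) t2 x hu.1 hu.2
    have a2 := (a1 _).1 le_rfl
    have a3 : cdf G (θ τ' x) ≤ cdf G x - τ' * cdf G x * (1 - cdf G x) :=
      le_of_tendsto ((hc.tendsto _).mono_left (nhdsWithin_le_nhds (s := Iio (θ τ' x))))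
        (eventually_nhdsWithin_of_forall fun z hz =>
          le_of_not_ge fun h => absurd ((a1 z).2 h) (not_le.2 hz))
    refine le_of_not_gt fun h => ?_
    have a4 := (h1 τ t0 (t1.trans t2) x hu.1 hu.2 _).1 h.le
    have a5 := sub_pos.2 t1'
    have a6 := g3 _ (mul_pos hδ a5) (mul_le_one₀ (min_le_left _ _) a5.le (by linarith))
    have a7 : D * min 1 (η ^ 2 / (4 * D)) ≤ η ^ 2 / 4 := by
      refine (mul_le_mul_of_nonneg_left (min_le_right _ _) hD.le).trans (le_of_eq ?_)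
      field_simp
    obtain ⟨u0, u1⟩ := hu
    generalize cdf G x = u at *
    have b0 := mul_nonneg (mul_nonneg (t0.trans t1) u0.le) (sub_pos.2 u1).le
    have b1 : τ' * u * (1 - u) ≤ 1 * (1 - u) :=
      mul_le_mul_of_nonneg_right (by nlinarith) (sub_pos.2 u1).le
    have b2 : η * (η / 2) ≤ u * (1 - u) :=
      mul_le_mul (by linarith) (by linarith) (by positivity) u0.le
    have b3 := mul_le_mul_of_nonneg_right a7 a5.le
    have b4 := mul_le_mul_of_nonneg_left b2 a5.le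
    have b5 := mul_pos a5 (mul_pos hη hη)
    nlinarith

end Pool.Agent.FPP
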