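import Pool.Agent.P.MP_ecb9f8_pr.Defs

open MeasureTheory ProbabilityTheory Set Filter

noncomputable section

namespace Pool.Agent.FPP

/-- a tilted law that is carried back to `G` by a map that raises most weights -/
def Tilt (G : Measure ℝ) (Sg : Set ℝ) (δ τ : ℝ) (θ J : ℝ → ℝ) : Prop :=
  Measurable θ ∧ Measurable J ∧ (∀ x, 0 < J x) ∧ (∀ x, x ≤ θ x) ∧
    (∀ x ∈ Sg, x + δ * τ ≤ θ x) ∧
    (G.withDensity (fun x => ENNReal.ofReal (J x))).map θ = G ∧
    ∫⁻ x, ENNReal.ofReal (((J x) ^ 2)⁻¹) ∂G ≤ ENNReal.ofReal (1 + 2 * τ ^ 2)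

theorem MW1_continuous (G : Measure ℝ) [IsProbabilityMeasure G] (hG : G ≪ volume) :
    Continuous (cdf G) := by
  refine continuous_iff_continuousAt.2 fun x => ?_
  rw [(monotone_cdf G).continuousAt_iff_leftLim_eq_rightLim, StieltjesFunction.rightLim_eq]
  have h := (cdf G).measure_singleton x
  rw [measure_cdf, hG (measure_singleton x), eq_comm, ENNReal.ofReal_eq_zero] at h
  exact le_antisymm ((monotone_cdf G).leftLim_le le_rfl) (by linarith)

theorem MW1_sublevel (G : Measure ℝ) [IsProbabilityMeasure G] (hG : G ≪ volume) {c : ℝ}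
    (h0 : 0 ≤ c) (h1 : c < 1) : G (cdf G ⁻¹' Iic c) = ENNReal.ofReal c := by
  have hc := MW1_continuous G hG
  rcases (cdf G ⁻¹' Iic c).eq_empty_or_nonempty with h | h
  · have h2 : c ≤ 0 := ge_of_tendsto' (tendsto_cdf_atBot G) fun x => by
      by_contra h3
      exact (h ▸ (show x ∈ cdf G ⁻¹' Iic c from (not_le.1 h3).le) : x ∈ (∅ : Set ℝ))
    rw [h, measure_empty, ENNReal.ofReal_eq_zero.2 h2]
  · obtain ⟨b, hb⟩ := eventually_atTop.1 ((tendsto_cdf_atTop G).eventually (lt_mem_nhds h1))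
    have hbd : BddAbove (cdf G ⁻¹' Iic c) := ⟨b, fun x hx => by
      by_contra h3
      exact absurd hx (not_le.2 (hb x (not_le.1 h3).le))⟩
    have hs := (isClosed_Iic.preimage hc).csSup_mem h hbd
    have e : cdf G ⁻¹' Iic c = Iic (sSup (cdf G ⁻¹' Iic c)) :=
      Set.ext fun x => ⟨fun hx => le_csSup hbd hx, fun hx => (monotone_cdf G hx).trans hs⟩
    generalize sSup (cdf G ⁻¹' Iic c) = s at hs e
    have h3 : c ≤ cdf G s := by
      refine ge_of_tendsto ((hc.tendsto s).mono_left (nhdsWithin_le_nhds (s := Ioi s))) ?_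
      refine eventually_nhdsWithin_of_forall fun x hx => ?_
      by_contra h4
      have h5 : x ∈ Iic s := e ▸ (show x ∈ cdf G ⁻¹' Iic c from (not_le.1 h4).le)
      exact absurd (mem_Iic.1 h5) (not_le.2 hx)
    rw [e, ← ofReal_cdf, le_antisymm hs h3]

theorem MW1_lip (G : Measure ℝ) {x : ℝ} (h : DifferentiableAt ℝ (cdf G) x) :
    ∃ D : ℝ, ∀ t : ℝ, 0 < t → cdf G (x + t) - cdf G x ≤ D * t := by
  obtain ⟨C, hC⟩ := h.isBigO_sub.bound
  obtain ⟨δ, hδ, hb⟩ := Metric.eventually_nhds_iff.1 hC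
  refine ⟨max C δ⁻¹, fun t ht => ?_⟩
  rcases lt_or_ge t δ with h1 | h1
  · have h2 := hb (y := x + t) (by rwa [Real.dist_eq, add_sub_cancel_left, abs_of_pos ht])
    rw [add_sub_cancel_left, Real.norm_eq_abs, Real.norm_eq_abs, abs_of_pos ht] at h2
    exact ((le_abs_self _).trans h2).trans (mul_le_mul_of_nonneg_right (le_max_left _ _) ht.le)
  · have h2 := cdf_le_one G (x + t)
    have h3 := cdf_nonneg G x
    have h4 : 1 ≤ δ⁻¹ * t := by rwa [le_inv_mul_iff₀ hδ, mul_one]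
    have h5 := mul_le_mul_of_nonneg_right (le_max_right C δ⁻¹) ht.le
    linarith

/-- the distribution function of an atomless law is uniformly distributed -/
theorem map_cdf_uniform (G : Measure ℝ) [IsProbabilityMeasure G] (hG : G ≪ volume) :
    G.map (cdf G) = volume.restrict (Icc (0 : ℝ) 1) := by
  refine Measure.ext_of_Iic _ _ fun c => ?_
  rw [Measure.map_apply (MW1_continuous G hG).measurable measurableSet_Iic,
    Measure.restrict_apply measurableSet_Iic]
  rcases lt_or_ge c 0 with h0 | h0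
  · rw [Set.eq_empty_of_forall_notMem (s := cdf G ⁻¹' Iic c)
      fun x hx => absurd ((cdf_nonneg G x).trans hx) (not_le.2 h0),
      Set.eq_empty_of_forall_notMem (s := Iic c ∩ Icc 0 1)
      fun x hx => absurd (hx.2.1.trans hx.1) (not_le.2 h0), measure_empty, measure_empty]
  · rcases lt_or_ge c 1 with h1 | h1
    · have e : Iic c ∩ Icc 0 1 = Icc 0 c :=
        Set.ext fun x => ⟨fun hx => ⟨hx.2.1, hx.1⟩, fun hx => ⟨hx.2, hx.1, hx.2.trans h1.le⟩⟩
      rw [MW1_sublevel G hG h0 h1, e, Real.volume_Icc, sub_zero]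
    · rw [Set.eq_univ_of_forall (s := cdf G ⁻¹' Iic c) fun x => (cdf_le_one G x).trans h1,
        Set.inter_eq_right.2 fun x hx => hx.2.trans h1, measure_univ, Real.volume_Icc, sub_zero,
        ENNReal.ofReal_one]

/-- for most points the distribution function is Lipschitz from the right -/
theorem exists_good_set (G : Measure ℝ) [IsProbabilityMeasure G] (hG : G ≪ volume)
    (h0 : G (Iio 0) = 0) {ε : ℝ} (hε : 0 < ε) :
    ∃ (Sg : Set ℝ) (D η : ℝ), MeasurableSet Sg ∧ Sg ⊆ Ici 0 ∧ G Sgᶜ ≤ ENNReal.ofReal ε ∧ 0 < D ∧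
      0 < η ∧ ∀ x ∈ Sg, η ≤ cdf G x ∧ cdf G x ≤ 1 - η ∧
        ∀ t : ℝ, 0 < t → t ≤ 1 → cdf G (x + t) - cdf G x ≤ D * t := by
  have hc := MW1_continuous G hG
  let S : ℕ → Set ℝ := fun n => {x | 0 ≤ x ∧ 1 / ((n : ℝ) + 1) ≤ cdf G x ∧
    cdf G x ≤ 1 - 1 / ((n : ℝ) + 1) ∧
      ∀ t : ℝ, 0 < t → t ≤ 1 → cdf G (x + t) - cdf G x ≤ ((n : ℝ) + 1) * t}
  have hcl : ∀ n, IsClosed (S n) := fun n => by
    refine (isClosed_le continuous_const continuous_id).inter
      ((isClosed_le continuous_const hc).inter ((isClosed_le hc continuous_const).inter ?_))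
    change IsClosed {x | ∀ t : ℝ, 0 < t → t ≤ 1 → cdf G (x + t) - cdf G x ≤ ((n : ℝ) + 1) * t}
    simp only [ofPred_forall]
    exact isClosed_iInter fun t => isClosed_iInter fun _ => isClosed_iInter fun _ =>
      isClosed_le ((hc.comp (continuous_id.add continuous_const)).sub hc) continuous_const
  have hmono : Monotone S := fun m n hmn x hx => by
    have h1 : (m : ℝ) + 1 ≤ n + 1 := by exact_mod_cast Nat.succ_le_succ hmn
    have h2 : 1 / ((n : ℝ) + 1) ≤ 1 / ((m : ℝ) + 1) :=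
      one_div_le_one_div_of_le (by positivity) h1
    exact ⟨hx.1, h2.trans hx.2.1, hx.2.2.1.trans (by linarith), fun t ht ht1 =>
      (hx.2.2.2 t ht ht1).trans (mul_le_mul_of_nonneg_right h1 ht.le)⟩
  have a1 : ∀ᵐ x ∂G, 0 ≤ x := by
    rw [ae_iff]
    simp only [not_le]
    exact h0
  have a2 : ∀ᵐ x ∂G, cdf G x ∈ Ioo (0 : ℝ) 1 := by
    refine ae_of_ae_map hc.aemeasurable (p := fun y => y ∈ Ioo (0 : ℝ) 1) ?_
    rw [map_cdf_uniform G hG, ← Measure.restrict_congr_set Ioo_ae_eq_Icc]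
    exact ae_restrict_mem measurableSet_Ioo
  have a3 : ∀ᵐ x ∂G, DifferentiableAt ℝ (cdf G) x := hG.ae_le (monotone_cdf G).ae_differentiableAt
  have a4 : G (⋂ n, (S n)ᶜ) = 0 := by
    rw [← compl_iUnion]
    refine mem_ae_iff.1 ?_
    filter_upwards [a1, a2, a3] with x h1 h2 h3
    obtain ⟨D, hD⟩ := MW1_lip G h3
    obtain ⟨n1, hn1⟩ := exists_nat_one_div_lt h2.1
    obtain ⟨n2, hn2⟩ := exists_nat_one_div_lt (sub_pos.2 h2.2)
    obtain ⟨n3, hn3⟩ := exists_nat_ge D
    have k : ∀ m : ℕ, m ≤ n1 + n2 + n3 → 1 / (((n1 + n2 + n3 : ℕ) : ℝ) + 1) ≤ 1 / ((m : ℝ) + 1) :=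
      fun m hm => one_div_le_one_div_of_le (by positivity)
        (by exact_mod_cast Nat.succ_le_succ hm)
    refine mem_iUnion.2 ⟨n1 + n2 + n3, h1, (k n1 (by omega)).trans hn1.le, ?_, fun t ht _ =>
      (hD t ht).trans (mul_le_mul_of_nonneg_right (hn3.trans ?_) ht.le)⟩
    · have := k n2 (by omega)
      linarith
    · exact_mod_cast (by omega : n3 ≤ n1 + n2 + n3 + 1)
  have ht := tendsto_measure_iInter_atTop (μ := G) (s := fun n => (S n)ᶜ)
    (fun n => (hcl n).measurableSet.compl.nullMeasurableSet)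
    (fun m n hmn => compl_subset_compl.2 (hmono hmn)) ⟨0, measure_ne_top _ _⟩
  rw [a4] at ht
  obtain ⟨n, hn⟩ := (ht.eventually (ge_mem_nhds (ENNReal.ofReal_pos.2 hε))).exists
  exact ⟨S n, n + 1, 1 / ((n : ℝ) + 1), (hcl n).measurableSet, fun x hx => hx.1, hn,
    by positivity, by positivity, fun x hx => hx.2⟩

end Pool.Agent.FPP
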