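import Pool.Agent.P.MP_ecb9f8_pr.BaseP

open MeasureTheory ProbabilityTheory Set Filter

noncomputable section

namespace Pool.Agent.FPP

/-- the scale attached to a length -/
theorem exists_scale {h n : ℕ} (hh : 2 ≤ h) (h2 : 2 ^ 1021 ≤ h ^ 1020) (hn : h ^ 1041420 ≤ n) :
    ∃ z : ℕ, h ^ 1020 ≤ z ∧ z ^ 1021 ≤ n ∧ n ≤ z ^ 1022 := by
  classical
  have hex : ∃ z : ℕ, n < (z + 1) ^ 1021 := ⟨n, by
    calc n < n + 1 := Nat.lt_succ_self n
      _ ≤ (n + 1) ^ 1021 := Nat.le_self_pow (by norm_num) _⟩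
  have h1 := Nat.find_spec hex
  set z := Nat.find hex with hz
  have hA : (h ^ 1020) ^ 1021 ≤ n := by rw [← pow_mul]; exact hn
  have h3 : h ^ 1020 ≤ z := by
    have : (h ^ 1020) ^ 1021 < (z + 1) ^ 1021 := lt_of_le_of_lt hA h1
    have := lt_of_pow_lt_pow_left₀ 1021 (Nat.zero_le _) this
    omega
  have hpos : 0 < h ^ 1020 := pow_pos (by omega) _
  have h4 : z ^ 1021 ≤ n := by
    have := Nat.find_min hex (m := z - 1) (by omega)
    have e : z - 1 + 1 = z := by omega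
    rw [e] at this
    omega
  refine ⟨z, h3, h4, ?_⟩
  have h5 : z + 1 ≤ 2 * z := by omega
  calc n ≤ (z + 1) ^ 1021 := h1.le
    _ ≤ (2 * z) ^ 1021 := Nat.pow_le_pow_left h5 _
    _ = 2 ^ 1021 * z ^ 1021 := mul_pow _ _ _
    _ ≤ z * z ^ 1021 := Nat.mul_le_mul_right _ (le_trans h2 h3)
    _ = z ^ 1022 := by rw [← pow_succ']

/-- length of the end piece of a geodesic -/
theorem tail_len {Λ h : ℕ} (hh : 3 ≤ h) {ω : Env} {t : V} (hl : LEN Λ h (pull (sh t) ω))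
    {p : ℕ → V} {k i : ℕ} (hp : Geo ω p k) (hi : i ≤ k)
    (h1 : nm (p i - t) ≤ 2 * (h : ℤ) ^ 1022) (h2 : nm (p k - t) ≤ (h : ℤ)) :
    k - i ≤ Λ * (3 * h ^ 1022) := by
  have hh1 : (1 : ℤ) ≤ h := by exact_mod_cast (by omega : 1 ≤ h)
  have hh3 : (3 : ℤ) ≤ h := by exact_mod_cast hh
  have e1 : (h : ℤ) ≤ (h : ℤ) ^ 1022 := le_self_pow₀ hh1 (by norm_num)
  have e2 : 3 * (h : ℤ) ^ 1022 ≤ (h : ℤ) ^ 1024 := by
    have : (h : ℤ) ^ 1024 = h * h * (h : ℤ) ^ 1022 := by ring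
    rw [this]
    have h0 : (0 : ℤ) ≤ (h : ℤ) ^ 1022 := by positivity
    have : (3 : ℤ) ≤ h * h := by nlinarith
    exact mul_le_mul_of_nonneg_right this h0
  have h0 : (0 : ℤ) ≤ (h : ℤ) ^ 1022 := by positivity
  have hg : Geo (pull (sh t) ω) (fun s => p (i + s) - t) (k - i) := by
    rw [Geo_pull _ (sh_adj t)]
    have := hp.shift hi le_rfl
    simpa [sh_apply] using this
  have ek : i + (k - i) = k := by omega
  refine hl _ _ hg ?_ ?_ (3 * h ^ 1022) ?_ ?_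
  · simp only [add_zero]; linarith
  · simp only [ek]; linarith
  · have : h ≤ h ^ 1022 := Nat.le_self_pow (by norm_num) _
    omega
  · simp only [ek, add_zero]
    have := nm_sub_le (p k - t) (p i - t)
    push_cast
    linarith

theorem far_large (G : Measure ℝ) [IsProbabilityMeasure G] (hG : Law G)
    {N : Seminorm ℝ (ℝ × ℝ)} (hN : IsTC G N) {c : ℝ} {σ : ℕ → ℝ} (hc : Cone N c σ) :
    ∀ᶠ h : ℕ in atTop, ∀ n : ℕ, h ^ 1041420 ≤ n →
      PP G {ω | Far n h (h ^ 1041421) ω} ≤ ENNReal.ofReal (10 * (h : ℝ)⁻¹) := by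
  obtain ⟨S, Λ, hPar, hSP⟩ := exists_par G hG hN hc
  obtain ⟨z₀, hz₀⟩ := eventually_atTop.1 (hPar.and (hSP 1))
  simp only [pow_one] at hz₀
  filter_upwards [eventually_ge_atTop z₀, eventually_ge_atTop 4] with h hh0 hh4 n hn
  have h2 : 2 ^ 1021 ≤ h ^ 1020 := by
    calc 2 ^ 1021 ≤ 2 ^ (2 * 1020) := Nat.pow_le_pow_right (by norm_num) (by norm_num)
      _ = (2 ^ 2) ^ 1020 := pow_mul _ _ _
      _ ≤ h ^ 1020 := Nat.pow_le_pow_left (by omega) _
  obtain ⟨z, hz1, hz2, hz3⟩ := exists_scale (by omega) h2 hn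
  have hhz : h ≤ z := le_trans (Nat.le_self_pow (by norm_num) _) hz1
  obtain ⟨Ph, gh⟩ := hz₀ h hh0
  obtain ⟨Pz, gz⟩ := hz₀ z (le_trans hh0 hhz)
  have hz100 := Pz.hundred
  have hh100 := Ph.hundred
  have n1 : (z : ℤ) ^ 1021 ≤ (n : ℤ) := by exact_mod_cast hz2
  have n2 : (n : ℤ) ≤ (z : ℤ) ^ 1022 := by exact_mod_cast hz3
  have a1 : h ^ 1022 ≤ z ^ 2 := by
    calc h ^ 1022 ≤ h ^ (1020 * 2) := Nat.pow_le_pow_right (by omega) (by norm_num)
      _ = (h ^ 1020) ^ 2 := pow_mul _ _ _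
      _ ≤ z ^ 2 := Nat.pow_le_pow_left hz1 _
  have a2 : z ^ 2 ≤ z ^ 1020 := Nat.pow_le_pow_right (by omega) (by norm_num)
  have a3 : 100 * z ^ 1020 ≤ z ^ 1021 := by
    rw [pow_succ z 1020, mul_comm]; exact Nat.mul_le_mul_left _ hz100
  have a4 : 0 < z ^ 1020 := pow_pos (by omega) _
  have a5 : 5 * (z : ℤ) ^ 1020 + 2 * (h : ℤ) ^ 1022 ≤ n := by
    have : 5 * z ^ 1020 + 2 * h ^ 1022 ≤ n := by omega
    exact_mod_cast this
  have a6 : (h : ℤ) ^ 1022 < n := by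
    have : h ^ 1022 < n := by omega
    exact_mod_cast this
  obtain ⟨x, hx, hx2⟩ := deep2_avg G Ph gh a6
  have hxz : nm x ≤ (z : ℤ) := le_trans (mem_box.1 hx) (by exact_mod_cast hz1)
  have m0 := nomerge_prob G Pz gz n1 n2 (η := 0) (by simp)
  have m1 := nomerge_prob G Pz gz n1 n2 (η := (h : ℤ)) (by
    rw [abs_of_nonneg (by positivity)]; exact_mod_cast hhz)
  have m2 := le_trans (measure_pull_le G (sh ((n : ℤ), 0)) {ω | ¬ Good4 N S Λ h ω}) gh
  have hsub : {ω | Far n h (h ^ 1041421) ω} ⊆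
      {ω | ¬ Good4 N S Λ z ω} ∪ {ω | NoMerge z ω n 0 0} ∪ {ω | NoMerge z ω n (h : ℤ) 0} ∪
        {ω | Deep2 n h x ω} ∪ {ω | pull (sh ((n : ℤ), 0)) ω ∈ {ω | ¬ Good4 N S Λ h ω}} := by
    intro ω hω
    by_contra hcon
    simp only [mem_union, mem_ofPred_eq, not_or, not_not] at hcon
    obtain ⟨⟨⟨⟨g1, g2⟩, g3⟩, g4⟩, g5⟩ := hcon
    obtain ⟨p, k, q, l, hp, hq, p0, q0, pk, ql, hR⟩ := hω
    unfold Deep2 at g4
    rw [not_not] at g4
    obtain ⟨w, hw, o1, o2⟩ := g4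
    have hw1 : 5 * (z : ℤ) ^ 1020 ≤ w.1 := by
      have := (nm_le_iff.1 hw).1
      simp only [Prod.fst_sub] at this
      have := (abs_le.1 this).1
      linarith
    have h00 : nm (0 : V) ≤ (z : ℤ) := by simp [nm]
    have t1 := trap Pz g1.1 n1 n2 (η := 0) (by simp) g2 hxz h00 hw1 o1
    have t2 := trap Pz g1.1 n1 n2 (η := (h : ℤ)) (by
      rw [abs_of_nonneg (by positivity)]; exact_mod_cast hhz) g3 hxz h00 hw1 o2
    have hnice := g1.1.1
    obtain ⟨i, hi, ei⟩ := (hnice.on_iff hp w).1 (by rw [p0, pk]; exact t1)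
    obtain ⟨j, hj, ej⟩ := (hnice.on_iff hq w).1 (by rw [q0, ql]; exact t2)
    have s1 := hnice.sdc_le hp hq (by rw [p0, q0]) hi hj (by rw [ei, ej])
    have hlen : LEN Λ h (pull (sh ((n : ℤ), 0)) ω) := g5.1.2.2.1
    have l1 := tail_len (by omega) hlen hp hi (by rw [ei]; exact hw) (by rw [pk]; simp [nm])
    have l2 := tail_len (by omega) hlen hq hj (by rw [ej]; exact hw) (by rw [ql]; simp [nm])
    have hΛ : 100 * Λ ≤ h := by
      obtain ⟨-, -, hS, -, hz, -⟩ := Ph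
      nlinarith
    have b1 : h ^ 1023 ≤ h ^ 1041421 := Nat.pow_le_pow_right (by omega) (by norm_num)
    have b2 : h ^ 1023 = h * h ^ 1022 := by rw [← pow_succ']
    have b3 : 0 < h ^ 1022 := pow_pos (by omega) _
    have b4 : 100 * Λ * h ^ 1022 ≤ h * h ^ 1022 := Nat.mul_le_mul_right _ hΛ
    have b5 : 100 * h ^ 1022 ≤ h * h ^ 1022 := Nat.mul_le_mul_right _ hh100
    generalize h ^ 1041421 = R at *
    generalize h ^ 1023 = R1 at *
    generalize h ^ 1022 = A at *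
    nlinarith
  have hzh : (z : ℝ)⁻¹ ≤ (h : ℝ)⁻¹ :=
    inv_anti₀ (by exact_mod_cast (by omega : 0 < h)) (by exact_mod_cast hhz)
  have hz0 : (0 : ℝ) ≤ (z : ℝ)⁻¹ := by positivity
  have hh0' : (0 : ℝ) ≤ (h : ℝ)⁻¹ := by positivity
  calc PP G {ω | Far n h (h ^ 1041421) ω} ≤ _ := measure_mono hsub
    _ ≤ PP G {ω | ¬ Good4 N S Λ z ω} + PP G {ω | NoMerge z ω n 0 0} +
          PP G {ω | NoMerge z ω n (h : ℤ) 0} + PP G {ω | Deep2 n h x ω} +
          PP G {ω | pull (sh ((n : ℤ), 0)) ω ∈ {ω | ¬ Good4 N S Λ h ω}} := by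
        refine le_trans (measure_union_le _ _) (add_le_add ?_ le_rfl)
        refine le_trans (measure_union_le _ _) (add_le_add ?_ le_rfl)
        refine le_trans (measure_union_le _ _) (add_le_add ?_ le_rfl)
        exact measure_union_le _ _
    _ ≤ ENNReal.ofReal ((z : ℝ)⁻¹) + ENNReal.ofReal (2 * (z : ℝ)⁻¹) +
          ENNReal.ofReal (2 * (z : ℝ)⁻¹) + ENNReal.ofReal (2 * (h : ℝ)⁻¹) +
          ENNReal.ofReal ((h : ℝ)⁻¹) := by gcongr
    _ ≤ ENNReal.ofReal (10 * (h : ℝ)⁻¹) := by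
        rw [← ENNReal.ofReal_add (by positivity) (by positivity),
          ← ENNReal.ofReal_add (by positivity) (by positivity),
          ← ENNReal.ofReal_add (by positivity) (by positivity),
          ← ENNReal.ofReal_add (by positivity) (by positivity)]
        apply ENNReal.ofReal_le_ofReal
        linarith

theorem sdc_le_add (p : ℕ → V) (k : ℕ) (q : ℕ → V) (l : ℕ) : sdc p k q l ≤ k + l := by
  classical
  unfold sdc
  refine le_trans (Finset.card_le_card (symmDiff_le_sup)) ?_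
  refine le_trans (Finset.card_union_le _ _) (add_le_add ?_ ?_)
  · exact le_trans Finset.card_image_le (by simp)
  · exact le_trans Finset.card_image_le (by simp)

theorem far_small (G : Measure ℝ) [IsProbabilityMeasure G] (hG : Law G) :
    ∀ᶠ h : ℕ in atTop, ∀ n : ℕ, n ≤ h ^ 1041420 →
      PP G {ω | Far n h (h ^ 1041421) ω} ≤ ENNReal.ofReal (10 * (h : ℝ)⁻¹) := by
  obtain ⟨Λ, β, hΛ, -, hl⟩ := len_pt G hG
  filter_upwards [eventually_ge_atTop (2 * Λ)] with h hh n hn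
  have hK : h ≤ h ^ 1041420 := Nat.le_self_pow (by norm_num) _
  have hR : h ^ 1041421 = h * h ^ 1041420 := by rw [← pow_succ']
  rw [hR]
  generalize h ^ 1041420 = K at *
  have hn' : (n : ℤ) ≤ K := by exact_mod_cast hn
  have hK' : (h : ℤ) ≤ K := by exact_mod_cast hK
  have hΛ' : (2 : ℤ) ≤ Λ := by exact_mod_cast hΛ
  have m1 := hl K 0 ((n : ℤ), 0) (by simp [nm, hn])
  have m2 := hl K 0 ((n : ℤ), (h : ℤ)) (by simp [nm, hn, hK])
  have m0 : PP G {ω | ¬ ∀ e, 0 < ω e} = 0 := ae_iff.1 (ae_pos G hG)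
  have hsub : {ω | Far n h (h * K) ω} ⊆ {ω | ¬ ∀ e, 0 < ω e} ∪
      {ω | ¬ LenOK ω 0 ((n : ℤ), 0) (Λ * K) ((β : ℝ) * K)} ∪
      {ω | ¬ LenOK ω 0 ((n : ℤ), (h : ℤ)) (Λ * K) ((β : ℝ) * K)} := by
    intro ω hω
    by_contra hcon
    simp only [mem_union, mem_ofPred_eq, not_or, not_not] at hcon
    obtain ⟨⟨g1, g2⟩, g3⟩ := hcon
    obtain ⟨p, k, q, l, hp, hq, p0, q0, pk, ql, hR⟩ := hω
    have hK0 : (0 : ℤ) ≤ K := by positivity
    have l1 : k < Λ * K := by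
      refine LenOK.len_lt (by rw [p0, pk]; exact g2) ?_ g1 hp
      rw [p0, pk]; simp; nlinarith
    have l2 : l < Λ * K := by
      refine LenOK.len_lt (by rw [q0, ql]; exact g3) ?_ g1 hq
      rw [q0, ql]; simp; nlinarith
    have s1 := sdc_le_add p k q l
    have : 2 * Λ * K ≤ h * K := Nat.mul_le_mul_right _ hh
    nlinarith
  have hh0 : (0 : ℝ) < h := by exact_mod_cast (by omega : 0 < h)
  have h2 : ((2 : ℝ) ^ K)⁻¹ ≤ (h : ℝ)⁻¹ := by
    apply inv_anti₀ hh0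
    have : h < 2 ^ K := lt_of_le_of_lt hK Nat.lt_two_pow_self
    exact_mod_cast this.le
  calc PP G {ω | Far n h (h * K) ω} ≤ _ := measure_mono hsub
    _ ≤ PP G {ω | ¬ ∀ e, 0 < ω e} +
          PP G {ω | ¬ LenOK ω 0 ((n : ℤ), 0) (Λ * K) ((β : ℝ) * K)} +
          PP G {ω | ¬ LenOK ω 0 ((n : ℤ), (h : ℤ)) (Λ * K) ((β : ℝ) * K)} := by
        refine le_trans (measure_union_le _ _) (add_le_add ?_ le_rfl)
        exact measure_union_le _ _
    _ ≤ 0 + ENNReal.ofReal (2 * ((2 : ℝ) ^ K)⁻¹) + ENNReal.ofReal (2 * ((2 : ℝ) ^ K)⁻¹) := by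
        rw [m0]; gcongr
    _ ≤ ENNReal.ofReal (10 * (h : ℝ)⁻¹) := by
        rw [zero_add, ← ENNReal.ofReal_add (by positivity) (by positivity)]
        apply ENNReal.ofReal_le_ofReal
        have : (0 : ℝ) ≤ (h : ℝ)⁻¹ := by positivity
        linarith

theorem far_all (G : Measure ℝ) [IsProbabilityMeasure G] (hG : Law G)
    {N : Seminorm ℝ (ℝ × ℝ)} (hN : IsTC G N) {c : ℝ} {σ : ℕ → ℝ} (hc : Cone N c σ) :
    ∃ C : ℝ, 0 < C ∧ ∀ n h : ℕ, 0 < h →
      PP G {ω | Far n h (h ^ 1041421) ω} ≤ ENNReal.ofReal (C * (h : ℝ)⁻¹) := by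
  obtain ⟨h₀, hh₀⟩ := eventually_atTop.1 ((far_large G hG hN hc).and (far_small G hG))
  refine ⟨10 + h₀, by positivity, fun n h hh => ?_⟩
  have hh0 : (0 : ℝ) < h := by exact_mod_cast hh
  by_cases h1 : h₀ ≤ h
  · have : PP G {ω | Far n h (h ^ 1041421) ω} ≤ ENNReal.ofReal (10 * (h : ℝ)⁻¹) := by
      rcases le_total n (h ^ 1041420) with h2 | h2
      · exact (hh₀ h h1).2 n h2
      · exact (hh₀ h h1).1 n h2
    refine le_trans this (ENNReal.ofReal_le_ofReal ?_)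
    have : (0 : ℝ) ≤ (h₀ : ℝ) := by positivity
    gcongr
    linarith
  · refine le_trans prob_le_one ?_
    rw [← ENNReal.ofReal_one]
    apply ENNReal.ofReal_le_ofReal
    rw [← div_eq_mul_inv, le_div_iff₀ hh0]
    have : (h : ℝ) ≤ h₀ := by exact_mod_cast (by omega : h ≤ h₀)
    linarith

end Pool.Agent.FPP
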