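import Pool.Agent.P.MP_ecb9f8_pr.LocProb
import Pool.Agent.P.MP_ecb9f8_pr.Cross
import Pool.Agent.P.MP_ecb9f8_pr.LBAp
import Pool.Agent.P.MP_ecb9f8_pr.Main

open MeasureTheory ProbabilityTheory Set Filter

noncomputable section

namespace Pool.Agent.FPP

theorem ConeO.mono {N : Seminorm ℝ (ℝ × ℝ)} {φ : ℝ × ℝ} {K K' : ℤ} {ω : Env} {x o : V}
    (h : ConeO N φ K ω x o) (hK : K ≤ K') : ConeO N φ K' ω x o :=
  fun y hy => (h y hy).imp (fun h1 => le_trans h1 hK) id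

theorem Main2_add {μ : Measure Env} {A B : Set Env} {a b r : ℝ} (hr : 0 ≤ r) (ha : 0 ≤ a)
    (hb : 0 ≤ b) (h1 : μ A ≤ ENNReal.ofReal (a * r)) (h2 : μ B ≤ ENNReal.ofReal (b * r)) :
    μ (A ∪ B) ≤ ENNReal.ofReal ((a + b) * r) := by
  refine le_trans (measure_union_le _ _) (le_trans (add_le_add h1 h2) ?_)
  rw [← ENNReal.ofReal_add (by positivity) (by positivity), add_mul]

theorem Main2_tend (a : ℕ) (ha : 1 ≤ a) : Tendsto (fun h : ℕ => h ^ a) atTop atTop :=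
  tendsto_pow_atTop (by omega)

/-- the six unlikely events attached to an ordered pair of starting points -/
def Rare6 (Kc : Finset ℝ) (h : ℕ) (x x' o o' : V) : Set Env :=
  {ω | Rare Kc h ω x o x o'} ∪ {ω | Rare Kc h ω x o x' o} ∪ {ω | Rare Kc h ω x o x' o'} ∪
    {ω | Rare Kc h ω o x o' x} ∪ {ω | Rare Kc h ω o x o x'} ∪ {ω | Rare Kc h ω o x o' x'}

theorem rare6_prob {G : Measure ℝ} {Kc : Finset ℝ} {h : ℕ} {r : ℝ} (hr : 0 ≤ r)
    (H : ∀ xP oP xQ oQ : V, nm (xQ - xP) ≤ (h : ℤ) → nm (oQ - oP) ≤ (h : ℤ) →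
      PP G {ω | Rare Kc h ω xP oP xQ oQ} ≤ ENNReal.ofReal (1 * r))
    {x x' o o' : V} (h1 : nm (x' - x) ≤ (h : ℤ)) (h2 : nm (o' - o) ≤ (h : ℤ)) :
    PP G (Rare6 Kc h x x' o o') ≤ ENNReal.ofReal (6 * r) := by
  have h0 : ∀ v : V, nm (v - v) ≤ (h : ℤ) := fun v => by simp [nm]
  have := Main2_add hr (by norm_num) (by norm_num) (Main2_add hr (by norm_num) (by norm_num)
    (Main2_add hr (by norm_num) (by norm_num) (Main2_add hr (by norm_num) (by norm_num)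
    (Main2_add hr (by norm_num) (by norm_num) (H x o x o' (h0 _) h2) (H x o x' o h1 (h0 _)))
    (H x o x' o' h1 h2)) (H o x o' x h2 (h0 _))) (H o x o x' (h0 _) h1)) (H o x o' x' h2 h1)
  refine le_trans this (le_of_eq ?_)
  congr 1
  ring

theorem nm_prob (G : Measure ℝ) [IsProbabilityMeasure G] (hG : Law G) {N : Seminorm ℝ (ℝ × ℝ)}
    (hN : IsTC G N) {Kc : Finset ℝ} {Φ : Finset (ℝ × ℝ)} {c : ℝ} (hP : Poly N Kc Φ c) :
    ∀ᶠ h : ℕ in atTop, ∀ n : ℕ, (((h ^ 6400) ^ 1020) ^ 6400) ^ 1021 ≤ n →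
      PP G {ω | NM ω 0 (0, (h : ℤ)) ((n : ℤ), 0) 0
        (((((h ^ 6400) ^ 1020) ^ 6400 : ℕ) : ℤ) ^ 1022)} ≤ ENNReal.ofReal (21 * (h : ℝ)⁻¹) := by
  obtain ⟨Λ₁, hmg⟩ := sp_mg G hG hN
  obtain ⟨Λ₂, hlba⟩ := sp_lba G hG
  set Λ := Λ₁ + Λ₂ + 1 with hΛd
  have hΛ : 1 ≤ Λ := by omega
  have hK : ∀ κ ∈ Kc, |κ| ≤ 1 := fun κ hκ => by
    obtain ⟨φ, hφ⟩ := hP.corner κ hκ
    exact hφ.1
  have t1 : Tendsto (fun h : ℕ => (h ^ 6400) ^ 1020) atTop atTop :=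
    (Main2_tend 1020 (by norm_num)).comp (Main2_tend 6400 (by norm_num))
  have t2 : Tendsto (fun h : ℕ => ((h ^ 6400) ^ 1020) ^ 6400) atTop atTop :=
    (Main2_tend 6400 (by norm_num)).comp t1
  have g8 := sp_good8 G hG (hmg Λ (by omega) 1310) 1
  filter_upwards [hlba Λ (by omega) 1, loc_prob G hG hN hP, t1.eventually (rare_prob G hG hN hP),
    t1.eventually (run_start hK Λ hΛ), t1.eventually (run_end hK Λ hΛ),
    t2.eventually g8, t2.eventually (eventually_sz N hP.pos hΛ), eventually_ge_atTop (2 * Λ + 100)]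
    with h e1 e2 e3 e4 e5 e6 e7 hh n hn
  have hh1 : 1 ≤ h := by omega
  have a1 : h ≤ h ^ 6400 := Nat.le_self_pow (by norm_num) _
  have b1 : (h ^ 6400) ^ 1301 * h ^ 6400 ≤ ((h ^ 6400) ^ 1020) ^ 2 := by
    rw [← pow_succ, ← pow_mul (h ^ 6400) 1020 2]
    exact Nat.pow_le_pow_right (by omega) (by norm_num)
  have b2 : (h ^ 6400) ^ 1300 ≤ ((h ^ 6400) ^ 1020) ^ 4 := by
    rw [← pow_mul (h ^ 6400) 1020 4]
    exact Nat.pow_le_pow_right (by omega) (by norm_num)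
  have a2 : h ^ 6400 ≤ (h ^ 6400) ^ 1020 := Nat.le_self_pow (by norm_num) _
  have c0 : (((h ^ 6400 : ℕ) : ℤ)) ^ 1020 = (((h ^ 6400) ^ 1020 : ℕ) : ℤ) := (Nat.cast_pow _ _).symm
  have c1 : (((h ^ 6400 : ℕ) : ℤ)) ^ 1300 = (((h ^ 6400) ^ 1300 : ℕ) : ℤ) := (Nat.cast_pow _ _).symm
  have c2 : (((h ^ 6400 : ℕ) : ℤ)) ^ 1301 = (((h ^ 6400) ^ 1301 : ℕ) : ℤ) := (Nat.cast_pow _ _).symm
  rw [c0, c1, c2] at e2
  generalize (h ^ 6400) ^ 1301 = Z1 at *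
  generalize (h ^ 6400) ^ 1300 = Z0 at *
  generalize (h ^ 6400) ^ 1020 = H at *
  generalize h ^ 6400 = Z at *
  have hH : 1 ≤ H := by omega
  have a3 : H ≤ H ^ 6400 := Nat.le_self_pow (by norm_num) _
  have b3 : H ^ 120004 ≤ (H ^ 6400) ^ 19 := by
    rw [← pow_mul]
    exact Nat.pow_le_pow_right hH (by norm_num)
  have b4 : H ^ 4 ≤ H ^ 120004 := Nat.pow_le_pow_right hH (by norm_num)
  have b5 : H ^ 2 ≤ H ^ 4 := Nat.pow_le_pow_right hH (by norm_num)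
  have b6 : H ≤ H ^ 2 := Nat.le_self_pow (by norm_num) _
  have b7 : (2 * (h + 2)) ^ 2 ≤ H ^ 4 := by
    have h1 : 2 * (h + 2) ≤ H ^ 2 := by nlinarith
    calc (2 * (h + 2)) ^ 2 ≤ (H ^ 2) ^ 2 := Nat.pow_le_pow_left h1 _
      _ = H ^ 4 := by rw [← pow_mul]
  have c3 : (H : ℤ) ^ 120004 = ((H ^ 120004 : ℕ) : ℤ) := (Nat.cast_pow _ _).symm
  have c4 : (H : ℤ) ^ 4 = ((H ^ 4 : ℕ) : ℤ) := (Nat.cast_pow _ _).symm
  have c5 : (H : ℤ) ^ 2 = ((H ^ 2 : ℕ) : ℤ) := (Nat.cast_pow _ _).symm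
  rw [c3, c5] at e4
  rw [c3, c4, c5] at e5
  generalize H ^ 120004 = s at *
  generalize H ^ 4 = H4 at *
  generalize H ^ 2 = H2 at *
  generalize H ^ 6400 = z at *
  have hz : 1 ≤ z := by omega
  have b8 : z ^ 19 ≤ z ^ 1021 := Nat.pow_le_pow_right hz (by norm_num)
  have b9 : z ^ 19 ≤ z ^ 1022 := Nat.pow_le_pow_right hz (by norm_num)
  have b10 : 2 * Λ * s ≤ z ^ 20 := by
    rw [pow_succ']
    exact Nat.mul_le_mul (by omega) b3
  have n1 : (z : ℤ) ^ 1021 ≤ (n : ℤ) := by exact_mod_cast hn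
  have c6 : (z : ℤ) ^ 1022 = ((z ^ 1022 : ℕ) : ℤ) := (Nat.cast_pow _ _).symm
  have c7 : (2 * Λ * s : ℤ) ≤ (z : ℤ) ^ 20 := by exact_mod_cast b10
  have hr : (0 : ℝ) ≤ (h : ℝ)⁻¹ := by positivity
  have hinv : ∀ m : ℕ, h ≤ m → (m : ℝ)⁻¹ ≤ (h : ℝ)⁻¹ := fun m hm =>
    inv_anti₀ (by exact_mod_cast (by omega : 0 < h)) (by exact_mod_cast hm)
  rw [pow_one] at e6
  have hsub2 : {ω | ¬ Good2 N G Λ z ω} ⊆ {ω | ¬ Good8 N G Λ z ω} :=
    fun ω (hω : ¬ Good2 N G Λ z ω) (h8 : Good8 N G Λ z ω) => hω h8.1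
  have cp := cross_prob hP G e7 (le_trans (measure_mono hsub2) e6) n1 (h := (h : ℤ))
    (by positivity) (by exact_mod_cast (by omega : h ≤ z))
  generalize z ^ 1021 = z1 at *
  have hno : nm (((n : ℤ), 0) : V) = n := by simp [nm]
  have hnη : nm ((0, (h : ℤ)) : V) = h := by simp [nm]
  have hn0 : nm (0 : V) = 0 := by simp [nm]
  obtain ⟨k, hk, lp⟩ := e2 ((n : ℤ), 0) (0, (h : ℤ)) hnη.le
    (by rw [hno]; exact_mod_cast (by omega : Z0 ≤ n))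
  have e3' : ∀ xP oP xQ oQ : V, nm (xQ - xP) ≤ (H : ℤ) → nm (oQ - oP) ≤ (H : ℤ) →
      PP G {ω | Rare Kc H ω xP oP xQ oQ} ≤ ENNReal.ofReal (1 * (h : ℝ)⁻¹) := by
    intro xP oP xQ oQ h1 h2
    refine le_trans (e3 xP oP xQ oQ h1 h2) (ENNReal.ofReal_le_ofReal ?_)
    rw [one_mul]
    exact hinv H (by omega)
  have hhH : (h : ℤ) ≤ H := by exact_mod_cast (by omega : h ≤ H)
  have r1 := rare6_prob hr e3' (x := 0) (x' := (0, (h : ℤ))) (o := ((n : ℤ), 0))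
    (o' := ((n : ℤ), 0) + k) (by rw [sub_zero, hnη]; exact hhH) (by rw [add_sub_cancel_left]; exact hk)
  have r2 := rare6_prob hr e3' (x := (0, (h : ℤ))) (x' := 0) (o := ((n : ℤ), 0))
    (o' := ((n : ℤ), 0) + k) (by rw [zero_sub, nm_neg, hnη]; exact hhH)
    (by rw [add_sub_cancel_left]; exact hk)
  have l1 : PP G {ω | ¬ LBA Λ h 0 ω} ≤ ENNReal.ofReal (1 * (h : ℝ)⁻¹) := by simpa using e1 0
  have l2 : PP G {ω | ¬ LBA Λ h ((n : ℤ), 0) ω} ≤ ENNReal.ofReal (1 * (h : ℝ)⁻¹) := by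
    simpa using e1 ((n : ℤ), 0)
  have cp' : PP G {ω | CEv N z n h 0 ω} ≤ ENNReal.ofReal (2 * (h : ℝ)⁻¹) := by
    refine le_trans cp (ENNReal.ofReal_le_ofReal ?_)
    have := hinv z (by omega)
    linarith
  have nice0 : PP G {ω | ¬ Nice ω} ≤ ENNReal.ofReal (0 * (h : ℝ)⁻¹) :=
    le_trans (ae_iff.1 (ae_nice G hG)).le zero_le
  have tot := Main2_add hr (by norm_num) (by norm_num) (Main2_add hr (by norm_num) (by norm_num)
    (Main2_add hr (by norm_num) (by norm_num) (Main2_add hr (by norm_num) (by norm_num)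
    (Main2_add hr (by norm_num) (by norm_num) (Main2_add hr (by norm_num) (by norm_num)
    nice0 l1) l2) lp) r1) r2) cp'
  refine le_trans (measure_mono ?_) (le_trans tot (le_of_eq (by congr 1; ring)))
  intro ω hω
  by_contra hcon
  simp only [Rare6, mem_union, mem_ofPred_eq, not_or, not_not] at hcon
  obtain ⟨⟨⟨⟨⟨⟨g0, g1⟩, g2⟩, g3⟩, ⟨⟨⟨⟨p1, p2⟩, p3⟩, p4⟩, p5⟩, p6⟩, ⟨⟨⟨⟨q1, q2⟩, q3⟩, q4⟩, q5⟩, q6⟩,
    g4⟩ := hcon
  unfold NM at g3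
  rw [not_not] at g3
  obtain ⟨m₀, o1, o2, hm⟩ := g3
  rw [sub_zero] at hm
  have hm2 : nm m₀ ≤ (H2 : ℤ) := by
    refine le_trans hm ?_
    have : 2 * Z1 ≤ H2 := le_trans (by nlinarith) b1
    exact_mod_cast this
  have hm3 : nm (m₀ - 0) ≤ (z : ℤ) ^ 1022 := by
    rw [sub_zero, c6]
    refine le_trans hm2 ?_
    exact_mod_cast (by omega : H2 ≤ z ^ 1022)
  have x0 : nm (0 : V) ≤ (H : ℤ) := by rw [hn0]; positivity
  have x1 : nm ((0, (h : ℤ)) : V) ≤ (H : ℤ) := by rw [hnη]; exact hhH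
  have x2 : (H4 : ℤ) ≤ nm (((n : ℤ), 0) : V) := by
    rw [hno]; exact_mod_cast (by omega : H4 ≤ n)
  have hhH' : h ≤ H := by omega
  have u1 : NoRunA Kc (s : ℤ) ω 0 ((n : ℤ), 0) := by
    by_contra hc
    obtain ⟨i1, i2⟩ := e4 ω h _ _ _ _ m₀ g0 hhH' g1 x0 x1 hm2 o1 o2 p1 p2 p3 hc
    exact hω ⟨m₀, i1, i2, hm3⟩
  have u2 : NoRunA Kc (s : ℤ) ω (0, (h : ℤ)) ((n : ℤ), 0) := by
    by_contra hc
    obtain ⟨i1, i2⟩ := e4 ω h _ _ _ _ m₀ g0 hhH' g1 x1 x0 hm2 o2 o1 q1 q2 q3 hc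
    exact hω ⟨m₀, i2, i1, hm3⟩
  have u3 : NoRunA Kc (s : ℤ) ω ((n : ℤ), 0) 0 := by
    by_contra hc
    obtain ⟨i1, i2⟩ := e5 ω h _ _ _ _ m₀ g0 hhH' g1 g2 x0 x1 hm2 x2 o1 o2 p4 p5 p6 hc
    exact hω ⟨m₀, i1, i2, hm3⟩
  have u4 : NoRunA Kc (s : ℤ) ω ((n : ℤ), 0) (0, (h : ℤ)) := by
    by_contra hc
    obtain ⟨i1, i2⟩ := e5 ω h _ _ _ _ m₀ g0 hhH' g1 g2 x1 x0 hm2 x2 o2 o1 q4 q5 q6 hc
    exact hω ⟨m₀, i2, i1, hm3⟩
  have y1 : (2 * ((h : ℤ) + 2)) ^ 2 ≤ (n : ℤ) := by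
    exact_mod_cast (by omega : (2 * (h + 2)) ^ 2 ≤ n)
  have y2 : (s : ℤ) ≤ (n : ℤ) := by exact_mod_cast (by omega : s ≤ n)
  have y3 : (h : ℤ) ≤ (s : ℤ) := by exact_mod_cast (by omega : h ≤ s)
  have y4 : (0 : ℤ) ≤ (s : ℤ) := by positivity
  have v1 := (cone_of_norun hP g0 g1 (by omega) (by omega) (by rw [sub_zero, hn0]; exact y4)
    (σ := 1) (n := n) (H := h) (Or.inl rfl) (by simp) (by simp) y1 y2 u1).mono c7
  have v2 := (cone_of_norun hP g0 g1 (by omega) (by omega) (by rw [sub_zero, hnη]; exact y3)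
    (σ := 1) (n := n) (H := h) (Or.inl rfl) (by simp) (by simp) y1 y2 u2).mono c7
  have v3 := (cone_of_norun hP g0 g2 (by omega) (by omega) (by rw [sub_self, hn0]; exact y4)
    (σ := -1) (n := n) (H := h) (Or.inr rfl) (by simp) (by simp) y1 y2 u3).mono c7
  have v4 := (cone_of_norun hP g0 g2 (by omega) (by omega) (by rw [sub_self, hn0]; exact y4)
    (σ := -1) (n := n) (H := h) (Or.inr rfl) (by simp) (by simp) y1 y2 u4).mono c7
  apply g4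
  unfold CEv
  simp only [zero_add]
  simp only [Int.cast_one, one_mul, Int.cast_neg, neg_mul] at v1 v2 v3 v4
  exact ⟨hω, v1, v2, v3, v4⟩

theorem far_large2 (G : Measure ℝ) [IsProbabilityMeasure G] (hG : Law G)
    {N : Seminorm ℝ (ℝ × ℝ)} (hN : IsTC G N) {Kc : Finset ℝ} {Φ : Finset (ℝ × ℝ)} {c : ℝ}
    (hP : Poly N Kc Φ c) :
    ∀ᶠ h : ℕ in atTop, ∀ n : ℕ, (((h ^ 6400) ^ 1020) ^ 6400) ^ 1021 ≤ n →
      PP G {ω | Far n h ((((h ^ 6400) ^ 1020) ^ 6400) ^ 1023) ω} ≤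
        ENNReal.ofReal (22 * (h : ℝ)⁻¹) := by
  obtain ⟨Λ, hlba⟩ := sp_lba G hG
  filter_upwards [hlba Λ le_rfl 1, nm_prob G hG hN hP, eventually_ge_atTop (2 * Λ + 1)]
    with h e1 e2 hh n hn
  have a1 : h ≤ ((h ^ 6400) ^ 1020) ^ 6400 :=
    le_trans (Nat.le_self_pow (by norm_num) _)
      (le_trans (Nat.le_self_pow (by norm_num) _) (Nat.le_self_pow (by norm_num) _))
  have m1 := e2 n hn
  generalize ((h ^ 6400) ^ 1020) ^ 6400 = z at *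
  have hr : (0 : ℝ) ≤ (h : ℝ)⁻¹ := by positivity
  have m2 := le_trans (measure_pull_le G (aff (false, true, false) ((n : ℤ), 0)) _) m1
  have l2 : PP G {ω | ¬ LBA Λ h ((n : ℤ), 0) ω} ≤ ENNReal.ofReal (1 * (h : ℝ)⁻¹) := by
    simpa using e1 ((n : ℤ), 0)
  have nice0 : PP G {ω | ¬ Nice ω} ≤ ENNReal.ofReal (0 * (h : ℝ)⁻¹) :=
    le_trans (ae_iff.1 (ae_nice G hG)).le zero_le
  have tot := Main2_add hr (by norm_num) (by norm_num) (Main2_add hr (by norm_num) (by norm_num)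
    nice0 l2) m2
  refine le_trans (measure_mono ?_) (le_trans tot (le_of_eq (by congr 1; ring)))
  intro ω hω
  by_contra hcon
  simp only [mem_union, mem_ofPred_eq, not_or, not_not] at hcon
  obtain ⟨⟨g0, g1⟩, g2⟩ := hcon
  unfold NM at g2
  rw [not_not] at g2
  obtain ⟨m, o1, o2, hm⟩ := g2
  rw [On_pull _ (aff_adj _ _)] at o1 o2
  have f1 : aff (false, true, false) ((n : ℤ), 0) 0 = ((n : ℤ), 0) := by simp [aff_apply, fr]
  have f2 : aff (false, true, false) ((n : ℤ), 0) ((n : ℤ), 0) = 0 := by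
    simp [aff_apply, fr, Prod.ext_iff]
  have f3 : aff (false, true, false) ((n : ℤ), 0) (0, (h : ℤ)) = ((n : ℤ), (h : ℤ)) := by
    simp [aff_apply, fr]
  rw [f1, f2] at o1
  rw [f3, f2] at o2
  obtain ⟨p, k, q, l, hp, hq, p0, q0, pk, ql, hR⟩ := hω
  have hz : 1 ≤ z := by omega
  have b1 : z ≤ z ^ 1022 := Nat.le_self_pow (by norm_num) _
  have c6 : (z : ℤ) ^ 1022 = ((z ^ 1022 : ℕ) : ℤ) := (Nat.cast_pow _ _).symm
  have b2 : z ^ 1023 = z * z ^ 1022 := by rw [← pow_succ']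
  rw [c6, sub_zero] at hm
  rw [b2] at hR
  generalize z ^ 1022 = K at *
  have hhK : (h : ℤ) ≤ K := by exact_mod_cast (by omega : h ≤ K)
  have s1 := sdc_lt_of_on g0 g1 hp hq (by rw [p0, q0]) (K := K)
    (m := aff (false, true, false) ((n : ℤ), 0) m) (by rw [p0, pk]; exact o1.symm)
    (by rw [q0, ql]; exact o2.symm) (by omega)
    (by rw [aff_apply, add_sub_cancel_right, nm_fr]; exact hm)
    (by rw [pk]; simp [nm]) (by rw [ql]; simpa [nm] using hhK)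
  have : (2 * Λ + 1) * K ≤ z * K := Nat.mul_le_mul_right _ (by omega)
  nlinarith

/-- the exponent of the theorem -/
def expA : ℕ := 6400 * 1020 * 6400 * 1023

theorem far_all2 (G : Measure ℝ) [IsProbabilityMeasure G] (hG : Law G)
    {N : Seminorm ℝ (ℝ × ℝ)} (hN : IsTC G N) {Kc : Finset ℝ} {Φ : Finset (ℝ × ℝ)} {c : ℝ}
    (hP : Poly N Kc Φ c) :
    ∃ C : ℝ, 0 < C ∧ ∀ n h : ℕ, 0 < h →
      PP G {ω | Far n h (h ^ expA) ω} ≤ ENNReal.ofReal (C * (h : ℝ)⁻¹) := by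
  obtain ⟨h₀, hh₀⟩ := eventually_atTop.1 ((far_large2 G hG hN hP).and
    (far_small2 G hG (expA - 1) (by unfold expA; norm_num)))
  refine ⟨22 + h₀, by positivity, fun n h hh => ?_⟩
  have hh0 : (0 : ℝ) < h := by exact_mod_cast hh
  by_cases h1 : h₀ ≤ h
  · have : PP G {ω | Far n h (h ^ expA) ω} ≤ ENNReal.ofReal (22 * (h : ℝ)⁻¹) := by
      rcases le_total n (h ^ (expA - 1)) with h2 | h2
      · have e : expA - 1 + 1 = expA := by unfold expA; norm_num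
        have := (hh₀ h h1).2 n h2
        rw [e] at this
        refine le_trans this (ENNReal.ofReal_le_ofReal ?_)
        have : (0 : ℝ) ≤ (h : ℝ)⁻¹ := by positivity
        linarith
      · have e : (((h ^ 6400) ^ 1020) ^ 6400) ^ 1023 = h ^ expA := by
          rw [← pow_mul, ← pow_mul, ← pow_mul]
          exact congrArg (fun m => h ^ m) (by unfold expA; norm_num)
        have e2 : (((h ^ 6400) ^ 1020) ^ 6400) ^ 1021 ≤ h ^ (expA - 1) := by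
          rw [← pow_mul, ← pow_mul, ← pow_mul]
          exact Nat.pow_le_pow_right hh (by unfold expA; norm_num)
        have := (hh₀ h h1).1 n (le_trans e2 h2)
        rwa [e] at this
    refine le_trans this (ENNReal.ofReal_le_ofReal ?_)
    have : (0 : ℝ) ≤ (h₀ : ℝ) := by positivity
    gcongr
    linarith
  · refine le_trans prob_le_one ?_
    rw [← ENNReal.ofReal_one]
    apply ENNReal.ofReal_le_ofReal
    rw [← div_eq_mul_inv, le_div_iff₀ hh0]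
    have : (h : ℝ) ≤ h₀ := by exact_mod_cast (by omega : h ≤ h₀)
    linarith

end Pool.Agent.FPP
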