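import Pool.Agent.P.MP_ecb9f8_pr.Defs

open MeasureTheory ProbabilityTheory Set Filter

noncomputable section

namespace Pool.Agent.FPP

theorem wt_nonneg (ω : Env) (e : E) : 0 ≤ wt ω e := le_max_right _ _

theorem W_nonneg (ω : Env) (p : ℕ → V) (i j : ℕ) : 0 ≤ W ω p i j :=
  Finset.sum_nonneg fun _ _ => wt_nonneg _ _

theorem W_add (ω : Env) (p : ℕ → V) {i j k : ℕ} (hij : i ≤ j) (hjk : j ≤ k) :
    W ω p i j + W ω p j k = W ω p i k :=
  Finset.sum_Ico_consecutive _ hij hjk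

theorem W_mono (ω : Env) (p : ℕ → V) {i j i' j' : ℕ} (h1 : i' ≤ i) (h2 : j ≤ j') :
    W ω p i j ≤ W ω p i' j' :=
  Finset.sum_le_sum_of_subset_of_nonneg (Finset.Ico_subset_Ico h1 h2) fun _ _ _ => wt_nonneg _ _

theorem W_shift (ω : Env) (p : ℕ → V) (i j : ℕ) :
    W ω (fun t => p (i + t)) 0 (j - i) = W ω p i j := by
  unfold W
  rw [Finset.sum_Ico_eq_sum_range, Finset.sum_Ico_eq_sum_range]
  refine Finset.sum_congr rfl fun t _ => ?_
  simp only [ed, Nat.zero_add, Nat.add_assoc]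

theorem W_congr (ω : Env) {p q : ℕ → V} {i j : ℕ} (h : ∀ t ≤ j, p t = q t) :
    W ω p i j = W ω q i j := by
  refine Finset.sum_congr rfl fun t ht => ?_
  have := (Finset.mem_Ico.1 ht).2
  simp only [ed, h t (by omega), h (t + 1) (by omega)]

theorem W_range (ω : Env) (p : ℕ → V) (k : ℕ) :
    W ω p 0 k = ∑ t ∈ Finset.range k, wt ω (ed p t) := by
  rw [W, Finset.range_eq_Ico]

theorem Adj.symm {a b : V} (h : Adj a b) : Adj b a := by
  unfold Adj at *
  rw [abs_sub_comm b.1, abs_sub_comm b.2]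
  exact h

theorem Chain.shift {p : ℕ → V} {k i j : ℕ} (h : Chain p k) (hjk : j ≤ k) :
    Chain (fun t => p (i + t)) (j - i) :=
  fun t ht => h (i + t) (by omega)

theorem Chain.mono {p : ℕ → V} {k j : ℕ} (h : Chain p k) (hjk : j ≤ k) : Chain p j :=
  fun t ht => h t (by omega)

theorem Chain.rev {p : ℕ → V} {k : ℕ} (h : Chain p k) : Chain (fun t => p (k - t)) k := by
  intro t ht
  have := (h (k - (t + 1)) (by omega)).symm
  rwa [show k - (t + 1) + 1 = k - t by omega] at this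

theorem W_rev (ω : Env) (p : ℕ → V) (k : ℕ) : W ω (fun t => p (k - t)) 0 k = W ω p 0 k := by
  rw [W_range, W_range, ← Finset.sum_range_reflect]
  refine Finset.sum_congr rfl fun t ht => ?_
  have := Finset.mem_range.1 ht
  simp only [ed]
  rw [show k - (k - 1 - t) = t + 1 by omega, show k - (k - 1 - t + 1) = t by omega, Sym2.eq_swap]

theorem exists_append (ω : Env) {p q : ℕ → V} {k l : ℕ} (hp : Chain p k) (hq : Chain q l)
    (h : p k = q 0) :
    ∃ r : ℕ → V, Chain r (k + l) ∧ (∀ t ≤ k, r t = p t) ∧ (∀ t, r (k + t) = q t) ∧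
      W ω r 0 (k + l) = W ω p 0 k + W ω q 0 l := by
  set r : ℕ → V := fun t => if t ≤ k then p t else q (t - k) with hr
  have h1 : ∀ t ≤ k, r t = p t := fun t ht => if_pos ht
  have h2 : ∀ t, r (k + t) = q t := fun t => by
    rcases Nat.eq_zero_or_pos t with rfl | ht
    · rw [Nat.add_zero, h1 k le_rfl, h]
    · simp only [hr, if_neg (show ¬ k + t ≤ k by omega), Nat.add_sub_cancel_left]
  refine ⟨r, fun i hi => ?_, h1, h2, ?_⟩
  · by_cases hik : i < k
    · rw [h1 i hik.le, h1 (i + 1) hik]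
      exact hp i hik
    · obtain ⟨t, rfl⟩ := Nat.exists_eq_add_of_le (Nat.le_of_not_lt hik)
      rw [Nat.add_assoc, h2, h2]
      exact hq t (by omega)
  · rw [← W_add ω r (Nat.zero_le k) (Nat.le_add_right k l), W_congr ω h1, ← W_shift ω r k (k + l),
      Nat.add_sub_cancel_left, funext h2]

theorem exists_straight (x y : V) :
    ∃ (p : ℕ → V) (k : ℕ), Chain p k ∧ SA p k ∧ p 0 = x ∧ p k = y ∧
      (k : ℤ) = |y.1 - x.1| + |y.2 - x.2| := by
  obtain ⟨x1, x2⟩ := x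
  obtain ⟨y1, y2⟩ := y
  obtain ⟨a, ha⟩ : ∃ a : ℕ, (a : ℤ) = |y1 - x1| := ⟨_, Int.natCast_natAbs _⟩
  obtain ⟨b, hb⟩ : ∃ b : ℕ, (b : ℤ) = |y2 - x2| := ⟨_, Int.natCast_natAbs _⟩
  have ha' := ha
  have hb' := hb
  rw [abs_eq_max_neg] at ha' hb'
  refine ⟨fun t => (if x1 ≤ y1 then min (x1 + t) y1 else max (x1 - t) y1,
    if x2 ≤ y2 then max x2 (x2 + t - a) else min x2 (x2 - t + a)), a + b, ?_, ?_, ?_, ?_, ?_⟩
  · intro t ht
    simp only [Adj, abs_eq_max_neg]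
    split_ifs <;> omega
  · intro i hi j hj h
    simp only [Prod.mk.injEq] at h
    split_ifs at h <;> omega
  · simp only [Prod.mk.injEq]
    split_ifs <;> omega
  · simp only [Prod.mk.injEq]
    split_ifs <;> omega
  · simp only [← ha, ← hb, Nat.cast_add]

theorem exists_SA (ω : Env) {p : ℕ → V} {k : ℕ} (h : Chain p k) :
    ∃ (q : ℕ → V) (l : ℕ), l ≤ k ∧ Chain q l ∧ SA q l ∧ q 0 = p 0 ∧ q l = p k ∧
      W ω q 0 l ≤ W ω p 0 k := by
  induction k using Nat.strong_induction_on generalizing p with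
  | _ k ih =>
  by_cases hs : SA p k
  · exact ⟨p, k, le_rfl, h, hs, rfl, rfl, le_rfl⟩
  obtain ⟨i, j, hij, hj, e⟩ : ∃ i j, i < j ∧ j ≤ k ∧ p i = p j := by
    by_contra hc
    refine hs fun i hi j hj e => ?_
    rcases lt_trichotomy i j with h1 | h1 | h1
    · exact absurd ⟨i, j, h1, hj, e⟩ hc
    · exact h1
    · exact absurd ⟨j, i, h1, hi, e.symm⟩ hc
  obtain ⟨r, h1, h2, h3, h4⟩ := exists_append ω (h.mono (hij.le.trans hj))
    (h.shift (i := j) le_rfl) e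
  obtain ⟨q, l, g1, g2, g3, g4, g5, g6⟩ := ih (i + (k - j)) (by omega) h1
  refine ⟨q, l, by omega, g2, g3, g4.trans (h2 0 (Nat.zero_le _)), ?_, g6.trans ?_⟩
  · rw [g5, h3, Nat.add_sub_cancel' hj]
  · rw [h4, W_shift, ← W_add ω p (Nat.zero_le j) hj]
    exact add_le_add (W_mono ω p le_rfl hij.le) le_rfl

theorem d_nonneg (ω : Env) (x y : V) : 0 ≤ d ω x y :=
  Real.sInf_nonneg (by rintro _ ⟨p, k, -, -, -, rfl⟩; exact W_nonneg _ _ _ _)

theorem d_le_W (ω : Env) {p : ℕ → V} {k i j : ℕ} (h : Chain p k) (hij : i ≤ j) (hjk : j ≤ k) :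
    d ω (p i) (p j) ≤ W ω p i j := by
  refine csInf_le ⟨0, ?_⟩ ⟨fun t => p (i + t), j - i, h.shift hjk, rfl, ?_, (W_shift ω p i j).symm⟩
  · rintro _ ⟨p, k, -, -, -, rfl⟩
    exact W_nonneg _ _ _ _
  · simp only [Nat.add_sub_cancel' hij]

theorem le_d (ω : Env) {x y : V} {c : ℝ}
    (h : ∀ (p : ℕ → V) (k : ℕ), Chain p k → p 0 = x → p k = y → c ≤ W ω p 0 k) :
    c ≤ d ω x y := by
  obtain ⟨p, k, h1, -, h2, h3, -⟩ := exists_straight x y
  refine le_csInf ⟨_, p, k, h1, h2, h3, rfl⟩ ?_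
  rintro _ ⟨q, l, g1, g2, g3, rfl⟩
  exact h q l g1 g2 g3

theorem d_self (ω : Env) (x : V) : d ω x x = 0 := by
  refine le_antisymm ?_ (d_nonneg ω x x)
  have := d_le_W ω (p := fun _ => x) (k := 0) (fun _ h => absurd h (Nat.not_lt_zero _)) le_rfl le_rfl
  simpa [W] using this

theorem d_comm (ω : Env) (x y : V) : d ω x y = d ω y x := by
  have key : ∀ x y : V, d ω x y ≤ d ω y x := fun x y => le_d ω fun p k h h0 hk => by
    have := d_le_W ω h.rev (Nat.zero_le k) le_rfl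
    rwa [W_rev, Nat.sub_zero, Nat.sub_self, h0, hk] at this
  exact le_antisymm (key x y) (key y x)

theorem d_triangle (ω : Env) (x y w : V) : d ω x w ≤ d ω x y + d ω y w := by
  have : d ω x w - d ω x y ≤ d ω y w := le_d ω fun q l hq h0 hl => by
    have : d ω x w - W ω q 0 l ≤ d ω x y := le_d ω fun p k hp g0 gk => by
      obtain ⟨r, h1, h2, h3, h4⟩ := exists_append ω hp hq (gk.trans h0.symm)
      have := d_le_W ω h1 (Nat.zero_le _) le_rfl
      rw [h2 0 (Nat.zero_le _), h3, g0, hl, h4] at this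
      linarith
    linarith
  linarith

theorem d_pull (φ : V ≃ V) (hφ : ∀ a b, Adj (φ a) (φ b) ↔ Adj a b) (ω : Env) (x y : V) :
    d (pull φ ω) x y = d ω (φ x) (φ y) := by
  unfold d
  congr 1
  ext s
  constructor
  · rintro ⟨p, k, h1, h2, h3, rfl⟩
    exact ⟨fun t => φ (p t), k, fun i hi => (hφ _ _).2 (h1 i hi), congrArg φ h2, congrArg φ h3, rfl⟩
  · rintro ⟨p, k, h1, h2, h3, rfl⟩
    refine ⟨fun t => φ.symm (p t), k, fun i hi => (hφ _ _).1 ?_, ?_, ?_, ?_⟩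
    · simpa only [Equiv.apply_symm_apply] using h1 i hi
    · simp only [h2, Equiv.symm_apply_apply]
    · simp only [h3, Equiv.symm_apply_apply]
    · change _ = W ω (fun t => φ (φ.symm (p t))) 0 k
      simp only [Equiv.apply_symm_apply]

theorem W_pull (φ : V → V) (ω : Env) (p : ℕ → V) (i j : ℕ) :
    W (pull φ ω) p i j = W ω (fun t => φ (p t)) i j := rfl

theorem On_pull (φ : V ≃ V) (hφ : ∀ a b, Adj (φ a) (φ b) ↔ Adj a b) (ω : Env) (x w y : V) :
    On (pull φ ω) x w y ↔ On ω (φ x) (φ w) (φ y) := by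
  simp only [On, d_pull φ hφ]

theorem Geo_pull (φ : V ≃ V) (hφ : ∀ a b, Adj (φ a) (φ b) ↔ Adj a b) (ω : Env) (p : ℕ → V)
    (k : ℕ) : Geo (pull φ ω) p k ↔ Geo ω (fun t => φ (p t)) k := by
  simp only [Geo, d_pull φ hφ, W_pull, Chain, hφ]

end Pool.Agent.FPP
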