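import Pool.Agent.P.MP_ecb9f8_pr.Path2
import Pool.Agent.P.MP_ecb9f8_pr.Path3

open MeasureTheory ProbabilityTheory Set Filter

noncomputable section

namespace Pool.Agent.FPP

/-- the restricted passage time is attained by a self-avoiding walk -/
theorem TK_attained (ω : Env) {x y : V} {K : ℕ} (h : |y.1 - x.1| + |y.2 - x.2| ≤ (K : ℤ)) :
    ∃ (p : ℕ → V) (k : ℕ), k ≤ K ∧ Chain p k ∧ SA p k ∧ p 0 = x ∧ p k = y ∧
      W ω p 0 k = TK ω x y K := by
  have hfin : {s : ℝ | ∃ (p : ℕ → V) (k : ℕ), k ≤ K ∧ Chain p k ∧ p 0 = x ∧ p k = y ∧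
      s = W ω p 0 k}.Finite := by
    refine ((Finset.range (K + 1)).finite_toSet.biUnion fun k _ =>
      (paths x k).finite_toSet.image fun p => W ω p 0 k).subset ?_
    rintro _ ⟨p, k, hk, hp, rfl, -, rfl⟩
    refine mem_biUnion (x := k) (by simpa using Nat.lt_succ_of_le hk)
      ⟨_, norm_mem_paths hp, W_congr ω fun t ht => ?_⟩
    rw [min_eq_left ht]
  obtain ⟨p0, k0, hp0, -, a0, b0, e0⟩ := exists_straight x y
  have hne : {s : ℝ | ∃ (p : ℕ → V) (k : ℕ), k ≤ K ∧ Chain p k ∧ p 0 = x ∧ p k = y ∧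
      s = W ω p 0 k}.Nonempty := ⟨_, p0, k0, by omega, hp0, a0, b0, rfl⟩
  obtain ⟨p, k, hk, hp, a, b, e⟩ := hne.csInf_mem hfin
  obtain ⟨q, l, hl, hq, sq, a', b', hw⟩ := exists_SA ω hp
  refine ⟨q, l, hl.trans hk, hq, sq, a'.trans a, b'.trans b, le_antisymm (hw.trans e.ge) ?_⟩
  have := TK_le_W ω hq (hl.trans hk)
  rwa [a', b', a, b] at this

/-- the restricted passage time depends on finitely many weights -/
theorem TK_dep (x y : V) (K : ℕ) :
    ∃ S : Finset E, ∀ ω ω' : Env, (∀ e ∈ S, ω e = ω' e) → TK ω x y K = TK ω' x y K := by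
  classical
  refine ⟨(Finset.range (K + 1)).biUnion fun k => (paths x k).biUnion fun p =>
    (Finset.range k).image (ed p), fun ω ω' h => ?_⟩
  have key : ∀ (p : ℕ → V) (k : ℕ), k ≤ K → Chain p k → p 0 = x → W ω p 0 k = W ω' p 0 k := by
    intro p k hk hp h0
    rw [W_range, W_range]
    refine Finset.sum_congr rfl fun t ht => ?_
    have ht' := Finset.mem_range.1 ht
    rw [wt, wt, h]
    refine Finset.mem_biUnion.2 ⟨k, Finset.mem_range.2 (Nat.lt_succ_of_le hk),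
      Finset.mem_biUnion.2 ⟨_, h0 ▸ norm_mem_paths hp, Finset.mem_image.2 ⟨t, ht, ?_⟩⟩⟩
    simp only [ed, min_eq_left ht'.le, min_eq_left (Nat.succ_le_of_lt ht')]
  unfold TK
  refine congrArg sInf (Set.ext fun s => ?_)
  constructor
  · rintro ⟨p, k, hk, hp, a, b, e⟩
    exact ⟨p, k, hk, hp, a, b, e.trans (key p k hk hp a)⟩
  · rintro ⟨p, k, hk, hp, a, b, e⟩
    exact ⟨p, k, hk, hp, a, b, e.trans (key p k hk hp a).symm⟩

theorem LenOK.d_eq {ω : Env} {x y : V} {K : ℕ} {b : ℝ} (h : LenOK ω x y K b)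
    (hK : |y.1 - x.1| + |y.2 - x.2| ≤ (K : ℤ)) : d ω x y = TK ω x y K := by
  refine le_antisymm (d_le_TK ω hK) (le_d ω fun p k hp a b => ?_)
  obtain ⟨q, l, -, hq, sq, a', b', hw⟩ := exists_SA ω hp
  refine le_trans ?_ hw
  rcases le_total l K with hl | hl
  · have := TK_le_W ω hq hl
    rwa [a', b', a, b] at this
  · exact h.1.trans (h.2 q l hq sq (a'.trans a) hl).le

theorem LenOK.exists_geo {ω : Env} {x y : V} {K : ℕ} {b : ℝ} (h : LenOK ω x y K b)
    (hK : |y.1 - x.1| + |y.2 - x.2| ≤ (K : ℤ)) :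
    ∃ (p : ℕ → V) (k : ℕ), Geo ω p k ∧ p 0 = x ∧ p k = y := by
  obtain ⟨p, k, -, hp, -, a, b, e⟩ := TK_attained ω hK
  exact ⟨p, k, ⟨hp, by rw [a, b, e, h.d_eq hK]⟩, a, b⟩

theorem LenOK.len_lt {ω : Env} {K : ℕ} {b : ℝ} {p : ℕ → V} {k : ℕ}
    (h : LenOK ω (p 0) (p k) K b)
    (hK : |(p k).1 - (p 0).1| + |(p k).2 - (p 0).2| ≤ (K : ℤ)) (hpos : ∀ e, 0 < ω e)
    (hg : Geo ω p k) : k < K := by
  by_contra hk
  have h1 := h.2 p k hg.1 (hg.sa hpos) rfl (not_lt.1 hk)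
  rw [hg.2, h.d_eq hK] at h1
  exact absurd h.1 (not_le.2 h1)

theorem measurable_wt (e : E) : Measurable (fun ω : Env => wt ω e) :=
  (measurable_pi_apply e).max measurable_const

theorem measurable_W (p : ℕ → V) (i j : ℕ) : Measurable (fun ω : Env => W ω p i j) :=
  Finset.measurable_sum _ fun t _ => measurable_wt (ed p t)

/-- countable unions over walks -/
theorem measurableSet_exists_chain (A : (ℕ → V) → ℕ → Set Env)
    (hA : ∀ p k, MeasurableSet (A p k))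
    (hdep : ∀ p q k, (∀ t ≤ k, p t = q t) → A p k ⊆ A q k) :
    MeasurableSet {ω | ∃ (p : ℕ → V) (k : ℕ), Chain p k ∧ ω ∈ A p k} := by
  have e : {ω | ∃ (p : ℕ → V) (k : ℕ), Chain p k ∧ ω ∈ A p k} =
      ⋃ (v : V) (k : ℕ), ⋃ p ∈ paths v k, A p k := by
    ext ω
    simp only [mem_iUnion, mem_ofPred_eq, exists_prop]
    constructor
    · rintro ⟨p, k, hp, h⟩
      exact ⟨p 0, k, _, norm_mem_paths hp, hdep p _ k (fun t ht => by rw [min_eq_left ht]) h⟩
    · rintro ⟨v, k, p, hp, h⟩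
      exact ⟨p, k, (mem_paths.1 hp).1, h⟩
  rw [e]
  exact MeasurableSet.iUnion fun v => MeasurableSet.iUnion fun k =>
    Finset.measurableSet_biUnion _ fun p _ => hA p k

theorem Path4_aux1 (Q : ℕ → Prop) (x y : V) (a : ℝ) :
    MeasurableSet {ω : Env | ∃ (p : ℕ → V) (k : ℕ), Chain p k ∧
      ω ∈ {ω : Env | (Q k ∧ p 0 = x ∧ p k = y) ∧ W ω p 0 k < a}} := by
  refine measurableSet_exists_chain _ (fun p k => ?_) ?_
  · exact (MeasurableSet.const _).inter (measurableSet_lt (measurable_W p 0 k) measurable_const)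
  · rintro p q k h ω ⟨⟨h1, h2, h3⟩, h4⟩
    exact ⟨⟨h1, h 0 (Nat.zero_le _) ▸ h2, h k le_rfl ▸ h3⟩, W_congr ω h ▸ h4⟩

theorem measurable_d (x y : V) : Measurable (fun ω : Env => d ω x y) := by
  refine measurable_of_Iio fun a => ?_
  have e : (fun ω : Env => d ω x y) ⁻¹' Iio a = {ω : Env | ∃ (p : ℕ → V) (k : ℕ), Chain p k ∧
      ω ∈ {ω : Env | (True ∧ p 0 = x ∧ p k = y) ∧ W ω p 0 k < a}} := by
    ext ω
    simp only [mem_preimage, mem_Iio, mem_ofPred_eq, true_and]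
    constructor
    · intro h
      by_contra hc
      refine absurd h (not_lt.2 (le_d ω fun p k hp h0 hk => not_lt.1 fun hw => ?_))
      exact hc ⟨p, k, hp, ⟨h0, hk⟩, hw⟩
    · rintro ⟨p, k, hp, ⟨rfl, rfl⟩, hw⟩
      exact (d_le_W ω hp (Nat.zero_le k) le_rfl).trans_lt hw
  rw [e]
  exact Path4_aux1 (fun _ => True) x y a

theorem measurable_TK (x y : V) (K : ℕ) : Measurable (fun ω : Env => TK ω x y K) := by
  by_cases hne : ∃ (p : ℕ → V) (k : ℕ), k ≤ K ∧ Chain p k ∧ p 0 = x ∧ p k = y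
  · refine measurable_of_Iio fun a => ?_
    have e : (fun ω : Env => TK ω x y K) ⁻¹' Iio a =
        {ω : Env | ∃ (p : ℕ → V) (k : ℕ), Chain p k ∧
          ω ∈ {ω : Env | (k ≤ K ∧ p 0 = x ∧ p k = y) ∧ W ω p 0 k < a}} := by
      ext ω
      simp only [mem_preimage, mem_Iio, mem_ofPred_eq]
      constructor
      · intro h
        obtain ⟨p0, k0, h1, h2, h3, h4⟩ := hne
        unfold TK at h
        obtain ⟨_, ⟨p, k, hk, hp, a1, a2, rfl⟩, hw⟩ :=
          exists_lt_of_csInf_lt (by exact ⟨_, p0, k0, h1, h2, h3, h4, rfl⟩) h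
        exact ⟨p, k, hp, ⟨hk, a1, a2⟩, hw⟩
      · rintro ⟨p, k, hp, ⟨hk, rfl, rfl⟩, hw⟩
        exact (TK_le_W ω hp hk).trans_lt hw
    rw [e]
    exact Path4_aux1 (fun k => k ≤ K) x y a
  · have e : (fun ω : Env => TK ω x y K) = fun _ => sInf ∅ := by
      funext ω
      refine congrArg sInf (Set.eq_empty_of_forall_notMem ?_)
      rintro _ ⟨p, k, h1, h2, h3, h4, -⟩
      exact hne ⟨p, k, h1, h2, h3, h4⟩
    rw [e]
    exact measurable_const

theorem measurableSet_On (x w y : V) : MeasurableSet {ω : Env | On ω x w y} :=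
  measurableSet_eq_fun ((measurable_d x w).add (measurable_d w y)) (measurable_d x y)

theorem Path4_aux2 (Q : V → Prop) (a b c e : V) :
    MeasurableSet {ω : Env | ¬ ∃ w : V, Q w ∧ On ω a w b ∧ On ω c w e} := by
  have h : {ω : Env | ¬ ∃ w : V, Q w ∧ On ω a w b ∧ On ω c w e} =
      (⋃ w : V, {_ω : Env | Q w} ∩ ({ω : Env | On ω a w b} ∩ {ω : Env | On ω c w e}))ᶜ := by
    ext ω
    simp only [mem_ofPred_eq, mem_compl_iff, mem_iUnion, mem_inter_iff]
  rw [h]
  exact (MeasurableSet.iUnion fun w => (MeasurableSet.const _).inter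
    ((measurableSet_On a w b).inter (measurableSet_On c w e))).compl

theorem measurableSet_Deep (z : ℕ) (o u η : V) : MeasurableSet {ω : Env | Deep z ω o u η} :=
  Path4_aux2 _ _ _ _ _

theorem measurableSet_NoMerge (z : ℕ) (n η : ℤ) (j : ℕ) :
    MeasurableSet {ω : Env | NoMerge z ω n η j} :=
  Path4_aux2 _ _ _ _ _

theorem Path4_aux3 (L z : ℕ) (f : ℤ → ℤ) (Φ : Set E) {lam : Env → ℝ} (hl : Measurable lam)
    (i : ℕ) : MeasurableSet {ω : Env | Attr L z f Φ (lam ω) i ω} := by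
  classical
  have e : {ω : Env | Attr L z f Φ (lam ω) i ω} = {ω : Env | ∃ (q : ℕ → V) (l : ℕ), Chain q l ∧
      ω ∈ {ω : Env | (Comp L z f i q l ∧ ∀ j < l, ed q j ∉ Φ) ∧
        W ω q 0 l ≤ lam ω + 2 * (z : ℝ) ^ 241}}ᶜ := by
    ext ω
    simp only [mem_ofPred_eq, mem_compl_iff]
    constructor
    · rintro h ⟨q, l, -, ⟨h1, h2⟩, h3⟩
      exact absurd (h q l h1 h2) (not_lt.2 h3)
    · intro h q l h1 h2
      exact not_le.1 fun h3 => h ⟨q, l, h1.2.1, ⟨h1, h2⟩, h3⟩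
  rw [e]
  refine (measurableSet_exists_chain _ (fun p k => ?_) ?_).compl
  · exact (MeasurableSet.const _).inter
      (measurableSet_le (measurable_W p 0 k) (hl.add measurable_const))
  · rintro p q k h ω ⟨⟨⟨c1, c2, c3, c4, c5, c6, c7, c8, c9⟩, h2⟩, h4⟩
    have he : ∀ j < k, ed p j = ed q j := fun j hj => by rw [ed, ed, h j hj.le, h (j + 1) hj]
    refine ⟨⟨⟨c1, fun t ht => ?_, fun s hs t ht hst => ?_, h 0 (Nat.zero_le _) ▸ c4,
      h 0 (Nat.zero_le _) ▸ c5, h k le_rfl ▸ c6, h k le_rfl ▸ c7, fun j hj => h j hj ▸ c8 j hj,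
      c9.trans_eq ?_⟩, fun j hj => he j hj ▸ h2 j hj⟩, W_congr ω h ▸ h4⟩
    · rw [← h t ht.le, ← h (t + 1) ht]
      exact c2 t ht
    · exact c3 s hs t ht (by rw [h s hs, h t ht, hst])
    · refine congrArg (fun s : Finset ℕ => 2 * s.card) (Finset.filter_congr fun j hj => ?_)
      rw [he j (Finset.mem_range.1 hj)]

theorem measurableSet_Attr (L z : ℕ) (f : ℤ → ℤ) (Φ : Set E) (lam : ℝ) (i : ℕ) :
    MeasurableSet {ω : Env | Attr L z f Φ lam i ω} :=
  Path4_aux3 L z f Φ measurable_const i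

/-- the bad event of a fixed walk, with the thresholds read off the same environment -/
theorem measurableSet_Bad (L z : ℕ) (f : ℤ → ℤ) (Φ : Set E) (p : ℕ → V) :
    MeasurableSet {ω : Env | Bad L z f Φ (lamOf z ω p) ω} := by
  classical
  unfold Bad
  simp only [Finset.card_filter]
  refine measurableSet_lt (Finset.measurable_sum _ fun i _ => ?_) measurable_const
  exact Measurable.ite (Path4_aux3 L z f Φ (measurable_W p _ _) i) measurable_const
    measurable_const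

end Pool.Agent.FPP
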