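import Pool.Agent.P.MP_ecb9f8_pr.Defs2

open MeasureTheory ProbabilityTheory Set Filter

noncomputable section

namespace Pool.Agent.FPP

theorem PolyA_cont (φ : ℝ × ℝ) : Continuous (lin φ) := by
  unfold lin
  fun_prop

theorem PolyA_cont' (v : ℝ × ℝ) : Continuous fun φ => lin φ v := by
  unfold lin
  fun_prop

theorem PolyA_compact (N : Seminorm ℝ (ℝ × ℝ)) (hpos : ∀ v, v ≠ 0 → 0 < N v) :
    IsCompact (N.closedBall 0 1) := by
  have hc : Continuous N := N.convexOn.locallyLipschitz.continuous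
  obtain ⟨m, hm, hmin⟩ := (isCompact_sphere (0 : ℝ × ℝ) 1).exists_isMinOn
    ⟨(1, 0), by simp⟩ hc.continuousOn
  have hm0 : 0 < N m := hpos m (by
    rintro rfl
    simp at hm)
  refine (isCompact_closedBall (0 : ℝ × ℝ) (N m)⁻¹).of_isClosed_subset ?_ ?_
  · rw [Seminorm.closedBall_zero_eq]
    exact isClosed_le hc continuous_const
  · intro v hv
    rw [Seminorm.mem_closedBall_zero] at hv
    rw [mem_closedBall_zero_iff]
    rcases eq_or_ne v 0 with rfl | h0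
    · simpa using hm0.le
    · have h1 : 0 < ‖v‖ := norm_pos_iff.2 h0
      have h2 : N m ≤ N (‖v‖⁻¹ • v) := hmin (by
        rw [mem_sphere_zero_iff_norm, norm_smul, norm_inv, norm_norm, inv_mul_cancel₀ h1.ne'])
      rw [map_smul_eq_mul, norm_inv, norm_norm, le_inv_mul_iff₀ h1] at h2
      rw [← one_div, le_div_iff₀ hm0]
      linarith

theorem PolyA_le (N : Seminorm ℝ (ℝ × ℝ)) (hpos : ∀ v, v ≠ 0 → 0 < N v) (φ : ℝ × ℝ)
    (h : ∀ e ∈ extremePoints ℝ (N.closedBall 0 1), lin φ e ≤ 1) (v : ℝ × ℝ) : lin φ v ≤ N v := by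
  have hcv : Convex ℝ {x | lin φ x ≤ 1} := by
    intro x hx y hy a b ha hb hab
    simp only [mem_setOf_eq, lin, Prod.fst_add, Prod.snd_add, Prod.smul_fst, Prod.smul_snd,
      smul_eq_mul] at hx hy ⊢
    nlinarith [mul_le_mul_of_nonneg_left hx ha, mul_le_mul_of_nonneg_left hy hb]
  have hB : N.closedBall 0 1 ⊆ {x | lin φ x ≤ 1} := by
    rw [← closure_convexHull_extremePoints (PolyA_compact N hpos) (N.convex_closedBall 0 1)]
    exact closure_minimal (convexHull_min h hcv) (isClosed_le (PolyA_cont φ) continuous_const)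
  rcases eq_or_ne v 0 with rfl | h0
  · simp [lin]
  · have h1 := hpos v h0
    have h2 : lin φ ((N v)⁻¹ • v) ≤ 1 := hB (by
      rw [Seminorm.mem_closedBall_zero, map_smul_eq_mul, norm_inv, Real.norm_of_nonneg h1.le,
        inv_mul_cancel₀ h1.ne'])
    have h3 : lin φ ((N v)⁻¹ • v) = (N v)⁻¹ * lin φ v := by
      simp only [lin, Prod.smul_fst, Prod.smul_snd, smul_eq_mul]
      ring
    rw [h3, inv_mul_le_iff₀ h1, mul_one] at h2
    exact h2

theorem PolyA_hb (N : Seminorm ℝ (ℝ × ℝ)) {v : ℝ × ℝ} (hv : v ≠ 0) :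
    ∃ φ : ℝ × ℝ, (∀ w, lin φ w ≤ N w) ∧ lin φ v = N v := by
  obtain ⟨g, hg1, hg2⟩ := exists_extension_of_le_sublinear
    (LinearPMap.mkSpanSingleton v (N v) hv) N
    (fun c hc x => by rw [map_smul_eq_mul, Real.norm_of_nonneg hc.le])
    (fun x y => map_add_le_add N x y) (by
      rintro ⟨x, hx⟩
      obtain ⟨c, rfl⟩ := Submodule.mem_span_singleton.1 hx
      rw [LinearPMap.mkSpanSingleton'_apply, map_smul_eq_mul, smul_eq_mul]
      exact mul_le_mul_of_nonneg_right (le_abs_self c) (apply_nonneg N v))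
  have hl : ∀ w, lin (g (1, 0), g (0, 1)) w = g w := fun w => by
    have h : w = w.1 • ((1, 0) : ℝ × ℝ) + w.2 • ((0, 1) : ℝ × ℝ) := by simp
    conv_rhs => rw [h, map_add, map_smul, map_smul]
    simp only [lin, smul_eq_mul]
    ring
  refine ⟨(g (1, 0), g (0, 1)), fun w => (hl w).le.trans (hg2 w), ?_⟩
  rw [hl]
  exact (hg1 ⟨v, Submodule.mem_span_singleton_self v⟩).trans
    (LinearPMap.mkSpanSingleton_apply ℝ ℝ hv (N v))

theorem PolyA_dual (N : Seminorm ℝ (ℝ × ℝ)) (v : ℝ × ℝ) :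
    IsCompact {φ : ℝ × ℝ | (∀ w, lin φ w ≤ N w) ∧ lin φ v = N v} := by
  refine (isCompact_Icc (a := (-N (-1, 0), -N (0, -1))) (b := (N (1, 0), N (0, 1)))).of_isClosed_subset
    ?_ ?_
  · refine IsClosed.inter ?_ (isClosed_eq (PolyA_cont' v) continuous_const)
    change IsClosed {φ : ℝ × ℝ | ∀ w, lin φ w ≤ N w}
    rw [setOf_forall]
    exact isClosed_iInter fun w => isClosed_le (PolyA_cont' w) continuous_const
  · rintro φ ⟨h, -⟩
    have h1 := h (1, 0)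
    have h2 := h (0, 1)
    have h3 := h (-1, 0)
    have h4 := h (0, -1)
    simp only [lin] at h1 h2 h3 h4
    refine ⟨⟨?_, ?_⟩, ⟨?_, ?_⟩⟩ <;> dsimp only <;> linarith

theorem PolyA_vertex (N : Seminorm ℝ (ℝ × ℝ)) (hpos : ∀ v, v ≠ 0 → 0 < N v)
    (hfin : (extremePoints ℝ (N.closedBall 0 1)).Finite) {v : ℝ × ℝ} (hv : v ≠ 0) :
    ∃ φ : ℝ × ℝ, (∀ w, lin φ w ≤ N w) ∧ lin φ v = N v ∧
      ∃ e ∈ extremePoints ℝ (N.closedBall 0 1), ∃ e' ∈ extremePoints ℝ (N.closedBall 0 1),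
        e.1 * e'.2 - e.2 * e'.1 ≠ 0 ∧ lin φ e = 1 ∧ lin φ e' = 1 := by
  obtain ⟨φ, ⟨h1, h2⟩, hmax⟩ := (PolyA_dual N v).exists_isMaxOn (PolyA_hb N hv)
    (PolyA_cont' (-v.2, v.1)).continuousOn
  refine ⟨φ, h1, h2, ?_⟩
  by_contra hno
  push Not at hno
  obtain ⟨ψ, hψ0, hψ⟩ : ∃ ψ : ℝ × ℝ, ψ ≠ 0 ∧
      ∀ e ∈ extremePoints ℝ (N.closedBall 0 1), lin φ e = 1 → lin ψ e = 0 := by
    by_cases h : ∃ e ∈ extremePoints ℝ (N.closedBall 0 1), lin φ e = 1
    · obtain ⟨e, he, he1⟩ := h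
      refine ⟨(-e.2, e.1), fun h0 => ?_, fun e' he' he1' => ?_⟩
      · have a : -e.2 = 0 := congrArg Prod.fst h0
        have b : e.1 = 0 := congrArg Prod.snd h0
        rw [lin, b, neg_eq_zero.1 a] at he1
        simp at he1
      · by_contra h0
        refine hno e he e' he' (fun h3 => h0 ?_) he1 he1'
        simp only [lin]
        linarith
    · exact ⟨(1, 0), by simp, fun e he he1 => (h ⟨e, he, he1⟩).elim⟩
  have hadd : ∀ (ε : ℝ) (w : ℝ × ℝ), lin (φ + ε • ψ) w = lin φ w + ε * lin ψ w := fun ε w => by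
    simp only [lin, Prod.fst_add, Prod.snd_add, Prod.smul_fst, Prod.smul_snd, smul_eq_mul]
    ring
  have hev : ∀ᶠ ε in nhds (0 : ℝ), ∀ e ∈ extremePoints ℝ (N.closedBall 0 1),
      lin φ e + ε * lin ψ e ≤ 1 := by
    refine (eventually_all_finite hfin).2 fun e he => ?_
    have h3 : lin φ e ≤ 1 := (h1 e).trans (N.mem_closedBall_zero.1 (extremePoints_subset he))
    rcases h3.eq_or_lt with h4 | h4
    · exact Eventually.of_forall fun ε => by rw [hψ e he h4, mul_zero, add_zero]; exact h3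
    · have h5 : Continuous fun ε : ℝ => lin φ e + ε * lin ψ e := by fun_prop
      exact (h5.continuousAt.eventually_lt continuousAt_const (by simpa using h4)).mono
        fun ε h => h.le
  obtain ⟨δ, hδ, hev⟩ := Metric.eventually_nhds_iff.1 hev
  have hD : ∀ ε : ℝ, |ε| < δ → ∀ w, lin (φ + ε • ψ) w ≤ N w := fun ε hε =>
    PolyA_le N hpos _ fun e he => by
      rw [hadd]
      exact hev (by simpa [Real.dist_eq] using hε) e he
  have hp : |δ / 2| < δ := by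
    rw [abs_of_pos (half_pos hδ)]
    exact half_lt_self hδ
  have hn : |-(δ / 2)| < δ := by rwa [abs_neg]
  have h3 : lin ψ v = 0 := by
    have a := hD _ hp v
    have b := hD _ hn v
    rw [hadd, h2] at a b
    nlinarith
  have h4 : lin ψ (-v.2, v.1) = 0 := by
    have a : lin (φ + (δ / 2) • ψ) (-v.2, v.1) ≤ lin φ (-v.2, v.1) :=
      hmax ⟨hD _ hp, by rw [hadd, h3, h2, mul_zero, add_zero]⟩
    have b : lin (φ + (-(δ / 2)) • ψ) (-v.2, v.1) ≤ lin φ (-v.2, v.1) :=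
      hmax ⟨hD _ hn, by rw [hadd, h3, h2, mul_zero, add_zero]⟩
    rw [hadd] at a b
    nlinarith
  have h5 : v.1 ^ 2 + v.2 ^ 2 ≠ 0 := fun h => hv (Prod.ext (by
    change v.1 = 0
    nlinarith [sq_nonneg v.1, sq_nonneg v.2]) (by
    change v.2 = 0
    nlinarith [sq_nonneg v.1, sq_nonneg v.2]))
  simp only [lin] at h3 h4
  refine hψ0 (Prod.ext (mul_left_cancel₀ h5 ?_) (mul_left_cancel₀ h5 ?_))
  · rw [Prod.fst_zero]
    linear_combination v.1 * h3 - v.2 * h4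
  · rw [Prod.snd_zero]
    linear_combination v.2 * h3 + v.1 * h4

/-- a norm whose unit ball has finitely many extreme points is a finite maximum of functionals -/
theorem exists_faces (N : Seminorm ℝ (ℝ × ℝ)) (hpos : ∀ v, v ≠ 0 → 0 < N v)
    (hfin : (extremePoints ℝ (N.closedBall 0 1)).Finite) :
    ∃ Φ : Finset (ℝ × ℝ), (∀ φ ∈ Φ, φ ≠ 0 ∧ ∀ v, lin φ v ≤ N v) ∧
      ∀ v, ∃ φ ∈ Φ, N v = lin φ v := by
  have hF : {φ : ℝ × ℝ | (∀ w, lin φ w ≤ N w) ∧
      ∃ e ∈ extremePoints ℝ (N.closedBall 0 1), ∃ e' ∈ extremePoints ℝ (N.closedBall 0 1),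
        e.1 * e'.2 - e.2 * e'.1 ≠ 0 ∧ lin φ e = 1 ∧ lin φ e' = 1}.Finite := by
    refine ((hfin.prod hfin).image fun p : (ℝ × ℝ) × (ℝ × ℝ) =>
      ((p.2.2 - p.1.2) / (p.1.1 * p.2.2 - p.1.2 * p.2.1),
        (p.1.1 - p.2.1) / (p.1.1 * p.2.2 - p.1.2 * p.2.1))).subset ?_
    rintro φ ⟨-, e, he, e', he', h0, h1, h2⟩
    simp only [lin] at h1 h2
    refine ⟨(e, e'), ⟨he, he'⟩, Prod.ext ?_ ?_⟩
    · dsimp only
      rw [div_eq_iff h0]
      linear_combination e.2 * h2 - e'.2 * h1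
    · dsimp only
      rw [div_eq_iff h0]
      linear_combination e'.1 * h1 - e.1 * h2
  refine ⟨hF.toFinset, fun φ hφ => ?_, fun v => ?_⟩
  · obtain ⟨h1, e, -, -, -, -, h2, -⟩ := hF.mem_toFinset.1 hφ
    refine ⟨?_, h1⟩
    rintro rfl
    simp [lin] at h2
  · rcases eq_or_ne v 0 with rfl | hv
    · obtain ⟨φ, h1, -, h3⟩ := PolyA_vertex N hpos hfin (v := (1, 0)) (by simp)
      exact ⟨φ, hF.mem_toFinset.2 ⟨h1, h3⟩, by simp [lin]⟩
    · obtain ⟨φ, h1, h2, h3⟩ := PolyA_vertex N hpos hfin hv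
      exact ⟨φ, hF.mem_toFinset.2 ⟨h1, h3⟩, h2.symm⟩

end Pool.Agent.FPP
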