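import Pool.Agent.P.MP_ecb9f8_pr.Path2
import Pool.Agent.P.MP_ecb9f8_pr.Path3

open MeasureTheory ProbabilityTheory Set Filter

noncomputable section

namespace Pool.Agent.FPP

theorem Ridge_norm1 (N : Seminorm ℝ (ℝ × ℝ)) {z Q P : ℝ} (hz : 0 ≤ z)
    (hN : ∀ v : ℝ × ℝ, N v ≤ z * ‖v‖) (Y D : ℝ × ℝ) (hY : 0 < Y.1) (hD0 : 0 ≤ D.1)
    (hD1 : D.1 ≤ Y.1) (hQ : 0 < Q) (h1 : P * Y.1 ≤ Q * Y.2) (h2 : Q * Y.2 ≤ (P + 1) * Y.1)
    (h3 : Q * D.2 = P * D.1) : N (Y - D) - N Y ≤ -N D + 2 * (z * (D.1 / Q)) := by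
  obtain ⟨τ, hτ⟩ : ∃ τ : ℝ, τ = D.1 / Y.1 := ⟨_, rfl⟩
  have hτY : τ * Y.1 = D.1 := by rw [hτ]; field_simp
  have hτ0 : 0 ≤ τ := by rw [hτ]; positivity
  have hτ1 : τ ≤ 1 := by rw [hτ, div_le_one hY]; exact hD1
  obtain ⟨e, he⟩ : ∃ e : ℝ × ℝ, e = τ • Y - D := ⟨_, rfl⟩
  have he1 : e.1 = 0 := by rw [he]; simp [hτY]
  have he2 : e.2 = τ * Y.2 - D.2 := by rw [he]; simp
  have hQe : Q * e.2 = τ * (Q * Y.2 - P * Y.1) := by
    rw [he2]
    have : P * D.1 = τ * (P * Y.1) := by rw [← hτY]; ring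
    linarith [h3, this, mul_sub Q (τ * Y.2) D.2, mul_sub τ (Q * Y.2) (P * Y.1),
      (by ring : Q * (τ * Y.2) = τ * (Q * Y.2))]
  have he0 : 0 ≤ e.2 := by
    have : 0 ≤ Q * e.2 := by rw [hQe]; exact mul_nonneg hτ0 (by linarith)
    exact le_of_mul_le_mul_left (by simpa using this) hQ
  have heu : e.2 ≤ D.1 / Q := by
    rw [le_div_iff₀ hQ]
    have : τ * (Q * Y.2 - P * Y.1) ≤ τ * Y.1 := mul_le_mul_of_nonneg_left (by linarith) hτ0
    linarith [mul_comm e.2 Q]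
  have hne : ‖e‖ ≤ D.1 / Q := by
    rw [Prod.norm_def, he1, Real.norm_eq_abs, Real.norm_eq_abs, abs_zero, abs_of_nonneg he0]
    exact max_le (le_trans he0 heu) heu
  have hNe : N e ≤ z * (D.1 / Q) := le_trans (hN e) (mul_le_mul_of_nonneg_left hne hz)
  have a1 : Y - D = (1 - τ) • Y + e := by rw [he, sub_smul, one_smul]; abel
  have a2 : D = τ • Y + -e := by rw [he]; abel
  have b1 : N (Y - D) ≤ (1 - τ) * N Y + N e := by
    rw [a1]
    refine le_trans (map_add_le_add N _ _) ?_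
    rw [map_smul_eq_mul, Real.norm_eq_abs, abs_of_nonneg (by linarith)]
  have b2 : N D ≤ τ * N Y + N e := by
    have := map_add_le_add N (τ • Y) (-e)
    rw [← a2, map_smul_eq_mul, Real.norm_eq_abs, abs_of_nonneg hτ0, map_neg_eq_map] at this
    exact this
  linarith

theorem Ridge_pow {z : ℤ} (hz : 100 ≤ z) {a b : ℕ} (h : a < b) : 100 * z ^ a ≤ z ^ b := by
  have h1 : (1 : ℤ) ≤ z := by linarith
  have h2 : z ^ (a + 1) ≤ z ^ b := pow_le_pow_right₀ h1 h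
  have h3 : 0 ≤ z ^ a := pow_nonneg (by linarith) a
  rw [pow_succ] at h2
  nlinarith

theorem Ridge_z {N : Seminorm ℝ (ℝ × ℝ)} {c : ℝ} {σ : ℕ → ℝ} {S Λ z : ℕ}
    (hP : Par N c σ S Λ z) : 100 ≤ z := by
  obtain ⟨-, -, hS, hL, h, -⟩ := hP
  have : 1 * 1 ≤ (S + 1) * Λ := Nat.mul_le_mul (by omega) hL
  rw [mul_assoc] at h
  omega

theorem Ridge_app {N : Seminorm ℝ (ℝ × ℝ)} {z : ℕ} (hz : 100 ≤ z) {ω : Env} (happ : APP N z ω)
    (x y : V) (hx : nm x ≤ (z : ℤ) ^ 1022) (hy : nm y ≤ (z : ℤ) ^ 1022) :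
    |d ω x y - N (rv (y - x))| ≤ (z : ℝ) ^ 769 := by
  have hz' : (100 : ℤ) ≤ z := by exact_mod_cast hz
  have h1 := Ridge_pow hz' (by norm_num : 1022 < 1024)
  have h0 : (0 : ℤ) ≤ (z : ℤ) ^ 1022 := by positivity
  have hX : z ≤ z ^ 128 := by
    have := Nat.pow_le_pow_right (by omega : 0 < z) (by norm_num : 1 ≤ 128)
    rwa [pow_one] at this
  have h2 : (((z ^ 128 : ℕ) : ℤ)) ^ 8 = (z : ℤ) ^ 1024 := by
    rw [Nat.cast_pow, ← pow_mul]
  have h3 : (z : ℝ) * (((z ^ 128 : ℕ) : ℝ)) ^ 6 = (z : ℝ) ^ 769 := by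
    rw [Nat.cast_pow, ← pow_mul, ← pow_succ']
  have h4 := nm_sub_le y x
  have := happ x y (by linarith) (by linarith) (z ^ 128) hX (by rw [h2]; linarith)
  rwa [h3] at this

theorem Ridge_key {N : Seminorm ℝ (ℝ × ℝ)} {c : ℝ} {σ : ℕ → ℝ} {S Λ z : ℕ}
    (hP : Par N c σ S Λ z) {ω : Env} (happ : APP N z ω) (o η : V) (hη : nm η ≤ (z : ℤ))
    (u u' y y' : V) (hu : nm u ≤ (z : ℤ) ^ 1020) (hu' : nm u' ≤ (z : ℤ) ^ 1020)
    (hy : nm y = (z : ℤ) ^ 1022) (hy' : nm y' = (z : ℤ) ^ 1022) (on1 : On ω u y o)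
    (on2 : On ω (u' + η) y' o) (hY : |(y - u).2| ≤ (y - u).1)
    (hY' : σ 1 * (rv (y' - (u' + η))).1 ≤ |(rv (y' - (u' + η))).2|) (P : ℤ)
    (hP1 : -(z : ℤ) ^ 3 ≤ P) (hP2 : P ≤ (z : ℤ) ^ 3)
    (h1 : P * (y - u).1 ≤ (z : ℤ) ^ 3 * (y - u).2)
    (h2 : (z : ℤ) ^ 3 * (y - u).2 ≤ (P + 1) * (y - u).1)
    (h3 : (z : ℤ) ^ 3 * (u' - u).2 = P * (u' - u).1) (h4 : 0 ≤ (u' - u).1) :
    (u' - u).1 ≤ (z : ℤ) ^ 770 := by
  have hz := Ridge_z hP
  have hz' : (100 : ℤ) ≤ z := by exact_mod_cast hz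
  have hzr : (100 : ℝ) ≤ z := by exact_mod_cast hz
  obtain ⟨⟨hc, hσ, -, hcone⟩, -, -, -, -, hcz, hN⟩ := hP
  have p1 := Ridge_pow hz' (by norm_num : 1020 < 1022)
  have p2 := Ridge_pow hz' (by norm_num : 1 < 1020)
  rw [pow_one] at p2
  have hQ : (0 : ℤ) < (z : ℤ) ^ 3 := by positivity
  -- sizes
  have n1 := nm_add_le u η
  have n2 := nm_add_le u' η
  have nD := nm_sub_le u' u
  have nD1 := le_trans (le_abs_self _) (abs_fst_le_nm (u' - u))
  have nY : nm y ≤ nm (y - u) + nm u := by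
    have := nm_add_le (y - u) u
    rwa [sub_add_cancel] at this
  have nY1 : nm (y - u) ≤ (y - u).1 := by
    rw [nm_le_iff]
    exact ⟨le_of_eq (abs_of_nonneg (le_trans (abs_nonneg _) hY)), hY⟩
  have nY' : nm y' ≤ nm (y' - (u' + η)) + nm (u' + η) := by
    have := nm_add_le (y' - (u' + η)) (u' + η)
    rwa [sub_add_cancel] at this
  have hD2 : |(u' - u).2| ≤ (u' - u).1 := by
    rw [abs_le]
    constructor
    · refine le_of_mul_le_mul_left ?_ hQ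
      rw [h3]
      nlinarith
    · refine le_of_mul_le_mul_left ?_ hQ
      rw [h3]
      nlinarith
  -- approximations
  have e1 := abs_le.1 (Ridge_app hz happ u' y (by linarith) hy.le)
  have e2 := abs_le.1 (Ridge_app hz happ u y (by linarith) hy.le)
  have e3 := abs_le.1 (Ridge_app hz happ (u + η) y' (by linarith) hy'.le)
  have e4 := abs_le.1 (Ridge_app hz happ (u' + η) y' (by linarith) hy'.le)
  have e5 := abs_le.1 (Ridge_app hz happ u (u + η) (by linarith) (by linarith))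
  have e6 := abs_le.1 (Ridge_app hz happ u' (u' + η) (by linarith) (by linarith))
  rw [add_sub_cancel_left] at e5 e6
  have hNη : N (rv η) ≤ (z : ℝ) ^ 769 := by
    refine le_trans (hN _) ?_
    rw [norm_rv]
    have q1 : (nm η : ℝ) ≤ z := by exact_mod_cast hη
    have q2 : (z : ℝ) ^ 2 ≤ (z : ℝ) ^ 769 := pow_le_pow_right₀ (by linarith) (by norm_num)
    have q3 : (z : ℝ) * (nm η : ℝ) ≤ z * z := mul_le_mul_of_nonneg_left q1 (by linarith)
    rw [sq] at q2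
    linarith
  -- triangle inequalities
  have t1 := d_triangle ω u' y o
  have t2 := d_triangle ω (u + η) y' o
  have t3 := d_triangle ω u (u + η) o
  have t4 := d_triangle ω (u' + η) u' o
  rw [d_comm ω (u' + η) u'] at t4
  unfold On at on1 on2
  -- norm inequalities
  have r1 : rv (y - u') = rv (y - u) - rv (u' - u) := by rw [← rv_sub]; congr 1; abel
  have r2 : rv (y' - (u + η)) = rv (u' - u) + rv (y' - (u' + η)) := by
    rw [← rv_add]; congr 1; abel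
  have hDr : (0 : ℝ) ≤ (rv (u' - u)).1 := by
    show (0 : ℝ) ≤ (((u' - u).1 : ℤ) : ℝ)
    exact_mod_cast h4
  have k1 := Ridge_norm1 N (z := (z : ℝ)) (Q := (z : ℝ) ^ 3) (P := (P : ℝ)) (by linarith) hN
    (rv (y - u)) (rv (u' - u))
    (by
      show (0 : ℝ) < (((y - u).1 : ℤ) : ℝ)
      have : (0 : ℤ) < (y - u).1 := by linarith
      exact_mod_cast this)
    hDr
    (by
      show (((u' - u).1 : ℤ) : ℝ) ≤ (((y - u).1 : ℤ) : ℝ)
      have : (u' - u).1 ≤ (y - u).1 := by linarith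
      exact_mod_cast this)
    (by positivity)
    (by
      show (P : ℝ) * (((y - u).1 : ℤ) : ℝ) ≤ (z : ℝ) ^ 3 * (((y - u).2 : ℤ) : ℝ)
      exact_mod_cast h1)
    (by
      show (z : ℝ) ^ 3 * (((y - u).2 : ℤ) : ℝ) ≤ ((P : ℝ) + 1) * (((y - u).1 : ℤ) : ℝ)
      exact_mod_cast h2)
    (by
      show (z : ℝ) ^ 3 * (((u' - u).2 : ℤ) : ℝ) = (P : ℝ) * (((u' - u).1 : ℤ) : ℝ)
      exact_mod_cast h3)
  have k2 := hcone 0 (by norm_num) (rv (u' - u)) (rv (y' - (u' + η)))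
    (by
      rw [hσ, one_mul]
      show |(((u' - u).2 : ℤ) : ℝ)| ≤ (((u' - u).1 : ℤ) : ℝ)
      exact_mod_cast hD2)
    (by simpa using hY')
  have k3 : (rv (u' - u)).1 ≤ min ‖rv (u' - u)‖ ‖rv (y' - (u' + η))‖ := by
    rw [norm_rv, norm_rv]
    refine le_min ?_ ?_
    · show (((u' - u).1 : ℤ) : ℝ) ≤ _
      exact_mod_cast nD1
    · show (((u' - u).1 : ℤ) : ℝ) ≤ _
      have : (u' - u).1 ≤ nm (y' - (u' + η)) := by linarith
      exact_mod_cast this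
  have k4 := mul_le_mul_of_nonneg_left k3 hc.le
  rw [← r1] at k1
  rw [← r2] at k2
  have hgoal : (rv (u' - u)).1 ≤ (z : ℝ) ^ 770 := by
    generalize (rv (u' - u)).1 = x at hDr k1 k4
    have main : c * x ≤ 8 * (z : ℝ) ^ 769 + 2 * (z * (x / (z : ℝ) ^ 3)) := by linarith
    have m1 : (z : ℝ) ^ 770 = z * (z : ℝ) ^ 769 := by rw [← pow_succ']
    rw [m1]
    have m0 : (0 : ℝ) ≤ (z : ℝ) ^ 769 := by positivity
    generalize (z : ℝ) ^ 769 = A at main m0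
    have m2 : (z : ℝ) * (2 * (z * (x / (z : ℝ) ^ 3))) ≤ x := by
      have hz0 : (0 : ℝ) < z := by linarith
      have : (z : ℝ) * (2 * (z * (x / (z : ℝ) ^ 3))) = 2 * x / z := by field_simp
      rw [this, div_le_iff₀ hz0]
      nlinarith
    have m3 := mul_le_mul_of_nonneg_left main (by linarith : (0 : ℝ) ≤ z)
    have m4 : 100 * x ≤ c * z * x := mul_le_mul_of_nonneg_right hcz hDr
    have m5 : (0 : ℝ) ≤ z * A := by positivity
    nlinarith
  have : (((u' - u).1 : ℤ) : ℝ) ≤ (z : ℝ) ^ 770 := hgoal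
  exact_mod_cast this

theorem Ridge_slope {Q a b : ℤ} (hQ : 0 < Q) (ha : 0 < a) (hb : |b| ≤ a) :
    ∃ P : ℤ, -Q ≤ P ∧ P ≤ Q ∧ P * a ≤ Q * b ∧ Q * b ≤ (P + 1) * a := by
  obtain ⟨hb1, hb2⟩ := abs_le.1 hb
  have h1 : Q * b / a * a ≤ Q * b := Int.ediv_mul_le _ ha.ne'
  have h2 : Q * b < (Q * b / a + 1) * a := Int.lt_ediv_add_one_mul_self _ ha
  refine ⟨Q * b / a, ?_, ?_, h1, h2.le⟩
  · rw [Int.le_ediv_iff_mul_le ha]
    nlinarith
  · refine le_of_mul_le_mul_right (le_trans h1 ?_) ha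
    nlinarith

theorem Ridge_box {z : ℕ} {u : V} (h : u ∈ box z) : nm u ≤ (z : ℤ) ^ 1020 := by
  unfold box at h
  rw [Finset.mem_product, Finset.mem_Icc, Finset.mem_Icc] at h
  rw [nm_le_iff, abs_le, abs_le]
  exact h

theorem Ridge_num {z : ℕ} (hz : 100 ≤ z) :
    (2 * z ^ 770 + 1) * ((2 * z ^ 3 + 1) * (2 * (2 * z ^ 1023) + 1)) ≤ z ^ 1800 := by
  have h0 : 0 < z := by omega
  have a1 : 2 * z ^ 770 + 1 ≤ z ^ 771 := by
    have := Nat.one_le_pow 770 z h0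
    rw [pow_succ z 770]
    generalize z ^ 770 = A at this ⊢
    nlinarith
  have a2 : 2 * z ^ 3 + 1 ≤ z ^ 4 := by
    have := Nat.one_le_pow 3 z h0
    rw [pow_succ z 3]
    generalize z ^ 3 = A at this ⊢
    nlinarith
  have a3 : 2 * (2 * z ^ 1023) + 1 ≤ z ^ 1024 := by
    have := Nat.one_le_pow 1023 z h0
    rw [pow_succ z 1023]
    generalize z ^ 1023 = A at this ⊢
    nlinarith
  refine le_trans (Nat.mul_le_mul a1 (Nat.mul_le_mul a2 a3)) ?_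
  rw [← pow_add, ← pow_add]
  exact Nat.pow_le_pow_right h0 (by norm_num)

theorem Ridge_card (a : ℤ) (n : ℕ) : (Finset.Icc (a - n) (a + n)).card = 2 * n + 1 := by
  rw [Int.card_Icc]
  have : a + n + 1 - (a - n) = ((2 * n + 1 : ℕ) : ℤ) := by push_cast; ring
  rw [this, Int.toNat_natCast]

open Classical in
theorem ridge_count {N : Seminorm ℝ (ℝ × ℝ)} {c : ℝ} {σ : ℕ → ℝ} {S Λ z : ℕ}
    (hP : Par N c σ S Λ z) {ω : Env} (happ : APP N z ω) (o η : V) (hη : nm η ≤ (z : ℤ)) :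
    ((box z).filter (fun u => RidgeE σ z ω o u η)).card ≤ z ^ 1800 := by
  have hz := Ridge_z hP
  have hz' : (100 : ℤ) ≤ z := by exact_mod_cast hz
  have hQ : (0 : ℤ) < (z : ℤ) ^ 3 := by positivity
  have p1 := Ridge_pow hz' (by norm_num : 1020 < 1022)
  have p0 : (0 : ℤ) < (z : ℤ) ^ 1020 := by positivity
  obtain ⟨A, hA⟩ : ∃ A : Finset V, A = (box z).filter (fun u => RidgeE σ z ω o u η) := ⟨_, rfl⟩
  rw [← hA]
  have hAm : ∀ u ∈ A, nm u ≤ (z : ℤ) ^ 1020 ∧ RidgeE σ z ω o u η := by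
    intro u hu
    rw [hA, Finset.mem_filter] at hu
    exact ⟨Ridge_box hu.1, hu.2⟩
  have hex : ∀ u : V, ∃ P : ℤ, u ∈ A → (-(z : ℤ) ^ 3 ≤ P ∧ P ≤ (z : ℤ) ^ 3 ∧
      ∀ u' ∈ A, (z : ℤ) ^ 3 * (u' - u).2 = P * (u' - u).1 → 0 ≤ (u' - u).1 →
        (u' - u).1 ≤ (z : ℤ) ^ 770) := by
    intro u
    by_cases hu : u ∈ A
    · obtain ⟨hn, y, y0, hy, -, on1, -, hY, -⟩ := hAm u hu
      have nY : nm y ≤ nm (y - u) + nm u := by
        have := nm_add_le (y - u) u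
        rwa [sub_add_cancel] at this
      have nY1 : nm (y - u) ≤ (y - u).1 := by
        rw [nm_le_iff]
        exact ⟨le_of_eq (abs_of_nonneg (le_trans (abs_nonneg _) hY)), hY⟩
      obtain ⟨P, a1, a2, a3, a4⟩ := Ridge_slope hQ (by linarith : 0 < (y - u).1) hY
      refine ⟨P, fun _ => ⟨a1, a2, fun u' hu' b1 b2 => ?_⟩⟩
      obtain ⟨hn', y1, y', -, hy', -, on2, -, hY'⟩ := hAm u' hu'
      exact Ridge_key hP happ o η hη u u' y y' hn hn' hy hy' on1 on2 hY hY' P a1 a2 a3 a4 b1 b2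
    · exact ⟨0, fun h => absurd h hu⟩
  choose P hPu using hex
  refine le_trans ?_ (Ridge_num hz)
  rw [← Ridge_card 0 (z ^ 3), ← Ridge_card 0 (2 * z ^ 1023), ← Finset.card_product]
  refine Finset.card_le_mul_card_image_of_maps_to
    (f := fun u : V => ((P u, (z : ℤ) ^ 3 * u.2 - P u * u.1) : ℤ × ℤ)) ?_ _ ?_
  · intro u hu
    obtain ⟨a1, a2, -⟩ := hPu u hu
    obtain ⟨b1, b2⟩ := nm_le_iff.1 (hAm u hu).1
    obtain ⟨b1, b1'⟩ := abs_le.1 b1
    obtain ⟨b2, b2'⟩ := abs_le.1 b2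
    have e : (z : ℤ) ^ 1023 = (z : ℤ) ^ 3 * (z : ℤ) ^ 1020 := by rw [← pow_add]
    rw [Finset.mem_product, Finset.mem_Icc, Finset.mem_Icc, Nat.cast_mul, Nat.cast_pow,
      Nat.cast_pow, e]
    dsimp only
    generalize (z : ℤ) ^ 1020 = B at b1 b1' b2 b2' p0
    generalize (z : ℤ) ^ 3 = Q at a1 a2 hQ
    have c1 : |P u * u.1| ≤ Q * B := by
      rw [abs_mul]
      exact mul_le_mul (abs_le.2 ⟨a1, a2⟩) (abs_le.2 ⟨b1, b1'⟩) (abs_nonneg _) hQ.le
    obtain ⟨c1, c2⟩ := abs_le.1 c1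
    have c3 := mul_le_mul_of_nonneg_left b2 hQ.le
    have c4 := mul_le_mul_of_nonneg_left b2' hQ.le
    rw [Nat.cast_ofNat]
    refine ⟨⟨by linarith, by linarith⟩, by linarith, by linarith⟩
  · intro b _
    rcases Finset.eq_empty_or_nonempty (A.filter
      (fun u : V => ((P u, (z : ℤ) ^ 3 * u.2 - P u * u.1) : ℤ × ℤ) = b)) with h | ⟨u0, hu0⟩
    · rw [h]; exact Nat.zero_le _
    · rw [← Ridge_card u0.1 (z ^ 770)]
      have rel : ∀ u ∈ A.filter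
          (fun u : V => ((P u, (z : ℤ) ^ 3 * u.2 - P u * u.1) : ℤ × ℤ) = b), ∀ u' ∈ A.filter
          (fun u : V => ((P u, (z : ℤ) ^ 3 * u.2 - P u * u.1) : ℤ × ℤ) = b),
          (z : ℤ) ^ 3 * (u' - u).2 = P u * (u' - u).1 := by
        intro u hu u' hu'
        have h := (Finset.mem_filter.1 hu).2.trans (Finset.mem_filter.1 hu').2.symm
        have h1 : P u = P u' := congrArg Prod.fst h
        have h2 : (z : ℤ) ^ 3 * u.2 - P u * u.1 = (z : ℤ) ^ 3 * u'.2 - P u' * u'.1 :=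
          congrArg Prod.snd h
        rw [← h1] at h2
        rw [Prod.snd_sub, Prod.fst_sub]
        linarith
      have bd : ∀ u ∈ A.filter
          (fun u : V => ((P u, (z : ℤ) ^ 3 * u.2 - P u * u.1) : ℤ × ℤ) = b), ∀ u' ∈ A.filter
          (fun u : V => ((P u, (z : ℤ) ^ 3 * u.2 - P u * u.1) : ℤ × ℤ) = b),
          u'.1 - u.1 ≤ (z : ℤ) ^ 770 := by
        intro u hu u' hu'
        by_cases h0 : 0 ≤ (u' - u).1
        · exact (hPu u (Finset.mem_filter.1 hu).1).2.2 u' (Finset.mem_filter.1 hu').1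
            (rel u hu u' hu') h0
        · have : (0 : ℤ) ≤ (z : ℤ) ^ 770 := by positivity
          rw [Prod.fst_sub] at h0
          linarith [not_le.1 h0]
      refine Finset.card_le_card_of_injOn (fun u : V => u.1) ?_ ?_
      · intro u hu
        have c1 := bd u hu u0 hu0
        have c2 := bd u0 hu0 u hu
        rw [Finset.mem_coe, Finset.mem_Icc, Nat.cast_pow]
        exact ⟨by linarith, by linarith⟩
      · intro u hu u' hu' h
        have h1 : u.1 = u'.1 := h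
        have c := rel u hu u' hu'
        rw [Prod.snd_sub, Prod.fst_sub, h1, sub_self, mul_zero] at c
        rcases mul_eq_zero.1 c with c | c
        · exact absurd c hQ.ne'
        · exact Prod.ext h1 (by linarith)

end Pool.Agent.FPP
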