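import Pool.Agent.P.MP_ecb9f8_pr.FrameL
import Pool.Agent.P.MP_ecb9f8_pr.Ridge

open MeasureTheory ProbabilityTheory Set Filter

noncomputable section

namespace Pool.Agent.FPP

theorem Ridge2_count (A : Finset V) (f g : V → ℤ) (m n : ℕ)
    (inj : ∀ u u', f u = f u' → g u = g u' → u = u') (hf : ∀ u ∈ A, |f u| ≤ m)
    (hg : ∀ u ∈ A, ∀ u' ∈ A, f u = f u' → |g u - g u'| ≤ n) :
    A.card ≤ (2 * n + 1) * (2 * m + 1) := by
  rw [← Ridge_card 0 m]
  refine Finset.card_le_mul_card_image_of_maps_to (f := f) ?_ _ ?_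
  · intro u hu
    have := abs_le.1 (hf u hu)
    rw [Finset.mem_Icc]
    exact ⟨by linarith [this.1], by linarith [this.2]⟩
  · intro b _
    rcases Finset.eq_empty_or_nonempty (A.filter (fun u => f u = b)) with h | ⟨u0, hu0⟩
    · rw [h]; exact Nat.zero_le _
    · rw [← Ridge_card (g u0) n]
      obtain ⟨a0, b0⟩ := Finset.mem_filter.1 hu0
      refine Finset.card_le_card_of_injOn g ?_ ?_
      · intro u hu
        obtain ⟨a1, b1⟩ := Finset.mem_filter.1 hu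
        have := abs_le.1 (hg u a1 u0 a0 (b1.trans b0.symm))
        rw [Finset.mem_coe, Finset.mem_Icc]
        exact ⟨by linarith [this.1], by linarith [this.2]⟩
      · intro u hu u' hu' h
        exact inj u u' ((Finset.mem_filter.1 hu).2.trans (Finset.mem_filter.1 hu').2.symm) h

theorem Ridge2_app {N : Seminorm ℝ (ℝ × ℝ)} {G : Measure ℝ} {Λ z : ℕ} (hz : 100 ≤ z)
    {ω : Env} (hg : MG N G Λ z ((z : ℤ) ^ 1310) ω) (x y : V) (hx : nm x ≤ (z : ℤ) ^ 1300)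
    (hy : nm y ≤ (z : ℤ) ^ 1300) : |d ω x y - N (rv (y - x))| ≤ (z : ℝ) ^ 979 := by
  have hz' : (100 : ℤ) ≤ z := by exact_mod_cast hz
  have h1 := Ridge_pow hz' (by norm_num : 1300 < 1304)
  have h1' := Ridge_pow hz' (by norm_num : 1300 < 1310)
  have h0 : (0 : ℤ) ≤ (z : ℤ) ^ 1300 := by positivity
  have hX : z ≤ z ^ 163 := by
    have := Nat.pow_le_pow_right (by omega : 0 < z) (by norm_num : 1 ≤ 163)
    rwa [pow_one] at this
  have h2 : (((z ^ 163 : ℕ) : ℤ)) ^ 8 = (z : ℤ) ^ 1304 := by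
    rw [Nat.cast_pow, ← pow_mul]
  have h3 : (z : ℝ) * (((z ^ 163 : ℕ) : ℝ)) ^ 6 = (z : ℝ) ^ 979 := by
    rw [Nat.cast_pow, ← pow_mul, ← pow_succ']
  have h4 := nm_sub_le y x
  have := hg.app x y (by linarith) (by linarith) (z ^ 163) hX (by rw [h2]; linarith)
  rwa [h3] at this

theorem Ridge2_one {N : Seminorm ℝ (ℝ × ℝ)} {G : Measure ℝ} {Λ z : ℕ} (hz : 100 ≤ z)
    {ω : Env} (hg : MG N G Λ z ((z : ℤ) ^ 1310) ω) {φ : ℝ × ℝ} {o a a' : V}
    (h : HasRay N φ z ω o a) (ha : nm a ≤ (z : ℤ) ^ 1300) (ha' : nm a' ≤ (z : ℤ) ^ 1300)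
    (hd : nm (a' - a) ≤ 2 * (z : ℤ) ^ 1020) :
    d ω a' o - d ω a o ≤ -lin φ (rv (a' - a)) + 2 * (z : ℝ) ^ 979 := by
  obtain ⟨p, k, rfl, -, on, hy, hf, -⟩ := h
  have e1 := abs_le.1 (Ridge2_app hz hg (p 0) (p k) ha hy.le)
  have e2 := abs_le.1 (Ridge2_app hz hg a' (p k) ha' hy.le)
  have h0 : (0 : ℝ) ≤ (z : ℝ) ^ 1020 := by positivity
  have r : rv (p k - a') = rv (p k - p 0) - rv (a' - p 0) := by rw [← rv_sub]; congr 1; abel
  have f1 := hf (rv (p k - p 0)) (by rw [sub_self, norm_zero]; linarith)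
  have f2 := hf (rv (p k - a')) (by
    rw [r, sub_sub_cancel_left, norm_neg, norm_rv]
    have : ((nm (a' - p 0) : ℤ) : ℝ) ≤ 2 * (z : ℝ) ^ 1020 := by exact_mod_cast hd
    linarith)
  have f3 : lin φ (rv (p k - a')) = lin φ (rv (p k - p 0)) - lin φ (rv (a' - p 0)) := by
    rw [r]
    simp only [lin, Prod.fst_sub, Prod.snd_sub]
    ring
  have t := d_triangle ω a' (p k) o
  unfold On at on
  linarith [e1.1, e2.2]

theorem Ridge2_key {N : Seminorm ℝ (ℝ × ℝ)} {G : Measure ℝ} {Λ z : ℕ} (hz : 100 ≤ z)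
    {ω : Env} (hg : MG N G Λ z ((z : ℤ) ^ 1310) ω) {φ φ' : ℝ × ℝ} {o η u u' : V}
    (hη : nm η ≤ (z : ℤ)) (hu : nm u ≤ (z : ℤ) ^ 1020) (hu' : nm u' ≤ (z : ℤ) ^ 1020)
    (h : HasRay N φ z ω o u) (h' : HasRay N φ' z ω o (u' + η)) :
    (φ - φ').1 * ((u'.1 : ℝ) - u.1) + (φ - φ').2 * ((u'.2 : ℝ) - u.2) ≤ 5 * (z : ℝ) ^ 979 := by
  have hz' : (100 : ℤ) ≤ z := by exact_mod_cast hz
  have hzr : (100 : ℝ) ≤ z := by exact_mod_cast hz
  have p1 := Ridge_pow hz' (by norm_num : 1020 < 1300)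
  have p1' := Ridge_pow hz' (by norm_num : 1020 < 1310)
  have p2 := Ridge_pow hz' (by norm_num : 1 < 1020)
  have p3 := Ridge_pow hz' (by norm_num : 1 < 2)
  rw [pow_one] at p2 p3
  have n1 := nm_add_le u η
  have n2 := nm_add_le u' η
  have n3 := nm_sub_le u' u
  have n4 := nm_sub_le u u'
  have k1 := Ridge2_one hz hg (a' := u') h (by linarith) (by linarith) (by linarith)
  have k2 := Ridge2_one hz hg (a' := u + η) h' (by linarith) (by linarith)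
    (by rw [add_sub_add_right_eq_sub]; linarith)
  rw [add_sub_add_right_eq_sub] at k2
  have up : ∀ v : V, nm v ≤ (z : ℤ) ^ 1020 → d ω v (v + η) ≤ (z : ℝ) ^ 3 := by
    intro v hv
    have n5 := nm_add_le v η
    have := hg.upb v (v + η) (by linarith) (by linarith) (z ^ 2) le_rfl
      (by rw [add_sub_cancel_left, Nat.cast_pow]; linarith)
    rwa [Nat.cast_pow, ← pow_succ'] at this
  have t3 := d_triangle ω u (u + η) o
  have t4 := d_triangle ω (u' + η) u' o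
  rw [d_comm ω (u' + η) u'] at t4
  have q1 : (z : ℝ) ^ 4 ≤ (z : ℝ) ^ 979 := pow_le_pow_right₀ (by linarith) (by norm_num)
  have q2 : 2 * (z : ℝ) ^ 3 ≤ (z : ℝ) ^ 4 := by
    rw [pow_succ' (z : ℝ) 3]
    exact mul_le_mul_of_nonneg_right (by linarith) (by positivity)
  have u1 := up u hu
  have u2 := up u' hu'
  generalize (z : ℝ) ^ 979 = A at k1 k2 q1 ⊢
  simp only [lin, rv, Prod.fst_sub, Prod.snd_sub, Int.cast_sub] at k1 k2 ⊢
  linarith

theorem Ridge2_abs {c a : ℝ} {z : ℕ} (hcz : 100 ≤ c * z) (ha : c ≤ |a|) {x y : ℤ}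
    (h1 : a * ((x : ℝ) - y) ≤ 5 * (z : ℝ) ^ 979) (h2 : a * ((y : ℝ) - x) ≤ 5 * (z : ℝ) ^ 979) :
    |x - y| ≤ ((z ^ 980 : ℕ) : ℤ) := by
  have h3 : |a| * |(x : ℝ) - y| ≤ 5 * (z : ℝ) ^ 979 := by
    rw [← abs_mul]
    exact abs_le.2 ⟨by linarith, h1⟩
  have h4 : |(x : ℝ) - y| ≤ (z : ℝ) ^ 980 := by
    rw [pow_succ' (z : ℝ) 979]
    have m0 : (0 : ℝ) ≤ (z : ℝ) ^ 979 := by positivity
    have z0 : (0 : ℝ) ≤ z := by positivity
    have x0 := abs_nonneg ((x : ℝ) - y)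
    generalize (z : ℝ) ^ 979 = A at h3 m0
    generalize |(x : ℝ) - y| = t at h3 x0
    have m1 := mul_le_mul_of_nonneg_right ha x0
    have m2 := mul_le_mul_of_nonneg_left (m1.trans h3) z0
    have m3 := mul_le_mul_of_nonneg_right hcz x0
    have m4 := mul_nonneg z0 m0
    linarith
  exact_mod_cast h4

theorem Ridge2_num {z : ℕ} (hz : 100 ≤ z) :
    (2 * z ^ 980 + 1) * (2 * z ^ 1020 + 1) ≤ z ^ 2002 := by
  have h0 : 0 < z := by omega
  have a : ∀ k, 2 * z ^ k + 1 ≤ z ^ (k + 1) := by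
    intro k
    have := Nat.one_le_pow k z h0
    rw [pow_succ z k]
    nlinarith
  refine le_trans (Nat.mul_le_mul (a 980) (a 1020)) ?_
  rw [← pow_add]

open Classical in
theorem ridge2 {N : Seminorm ℝ (ℝ × ℝ)} {c : ℝ} {G : Measure ℝ} {Λ z : ℕ} (hz : Sz N c Λ z)
    {ω : Env} (hg : MG N G Λ z ((z : ℤ) ^ 1310) ω) {φ φ' : ℝ × ℝ} (hsep : c ≤ ‖φ - φ'‖)
    (o η : V) (hη : nm η ≤ (z : ℤ)) :
    ((box z).filter (fun u => HasRay N φ z ω o u ∧ HasRay N φ' z ω o (u + η))).card ≤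
      z ^ 2002 := by
  have hz1 : 100 ≤ z := hz.hundred
  refine le_trans ?_ (Ridge2_num hz1)
  generalize hA : (box z).filter
    (fun u => HasRay N φ z ω o u ∧ HasRay N φ' z ω o (u + η)) = A
  have hm : ∀ u ∈ A, nm u ≤ (z : ℤ) ^ 1020 ∧ HasRay N φ z ω o u ∧ HasRay N φ' z ω o (u + η) := by
    intro u hu
    rw [← hA, Finset.mem_filter] at hu
    exact ⟨Ridge_box hu.1, hu.2⟩
  have key : ∀ u ∈ A, ∀ u' ∈ A, (φ - φ').1 * ((u'.1 : ℝ) - u.1) +
      (φ - φ').2 * ((u'.2 : ℝ) - u.2) ≤ 5 * (z : ℝ) ^ 979 := fun u hu u' hu' =>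
    Ridge2_key hz1 hg hη (hm u hu).1 (hm u' hu').1 (hm u hu).2.1 (hm u' hu').2.2
  rw [Prod.norm_def, Real.norm_eq_abs, Real.norm_eq_abs] at hsep
  rcases le_max_iff.1 hsep with h | h
  · refine Ridge2_count A Prod.snd Prod.fst _ _ (fun u u' a b => Prod.ext b a)
      (fun u hu => ?_) fun u hu u' hu' e => ?_
    · rw [Nat.cast_pow]
      exact (abs_snd_le_nm u).trans (hm u hu).1
    · have k1 := key u hu u' hu'
      have k2 := key u' hu' u hu
      rw [e, sub_self, mul_zero, add_zero] at k1 k2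
      exact Ridge2_abs hz.cz h k2 k1
  · refine Ridge2_count A Prod.fst Prod.snd _ _ (fun u u' a b => Prod.ext a b)
      (fun u hu => ?_) fun u hu u' hu' e => ?_
    · rw [Nat.cast_pow]
      exact (abs_fst_le_nm u).trans (hm u hu).1
    · have k1 := key u hu u' hu'
      have k2 := key u' hu' u hu
      rw [e, sub_self, mul_zero, zero_add] at k1 k2
      exact Ridge2_abs hz.cz h k2 k1

end Pool.Agent.FPP
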