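import Pool.Agent.P.MP_ecb9f8_pr.Mean
import Pool.Agent.P.MP_ecb9f8_pr.Indep

open MeasureTheory ProbabilityTheory Set Filter

noncomputable section

namespace Pool.Agent.FPP

/-- the law of `X + M` -/
def shiftLaw (G : Measure ℝ) (M : ℝ) : Measure ℝ := G.map (fun x => x + M)

instance (G : Measure ℝ) [IsProbabilityMeasure G] (M : ℝ) : IsProbabilityMeasure (shiftLaw G M) :=
  Measure.isProbabilityMeasure_map (by fun_prop)

theorem Shift_aux1 {u : ℝ} (hu : 0 ≤ u) : Real.exp (-u) ≤ 1 - u + u ^ 2 := by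
  rw [Real.exp_neg, inv_le_iff_one_le_mul₀ (Real.exp_pos u)]
  have h1 := Real.add_one_le_exp u
  have h2 : 0 ≤ 1 - u + u ^ 2 := by nlinarith [sq_nonneg (u - 1)]
  nlinarith [mul_le_mul_of_nonneg_left h1 h2, pow_nonneg hu 3]

theorem law_shift (G : Measure ℝ) [IsProbabilityMeasure G] (hG : Law G) {M : ℝ} (hM : 0 ≤ M) :
    Law (shiftLaw G M) := by
  obtain ⟨h0, ⟨a, ha, hi⟩, hac⟩ := hG
  have hm : Measurable fun x : ℝ => x + M := by fun_prop
  refine ⟨?_, ⟨a, ha, ?_⟩, ?_⟩
  · rw [shiftLaw, Measure.map_apply hm measurableSet_Iio]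
    refine measure_mono_null (fun x hx => ?_) h0
    exact lt_of_le_of_lt (le_add_of_nonneg_right hM) hx
  · rw [shiftLaw, integrable_map_measure (by fun_prop) hm.aemeasurable]
    refine (hi.mul_const (Real.exp (a * M))).congr (Eventually.of_forall fun x => ?_)
    show _ = Real.exp (a * (x + M))
    rw [mul_add, Real.exp_add]
  · have h1 := hac.map hm
    rwa [map_add_right_eq_self volume] at h1

theorem mgf_shift (G : Measure ℝ) [IsProbabilityMeasure G] (hG : Law G) :
    ∃ s : ℝ, 1 ≤ s ∧ ∀ M : ℝ, 0 ≤ M → ∀ t : ℝ, 0 ≤ t → t ≤ 1 →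
      ∫⁻ x, ENNReal.ofReal (Real.exp (-(t * max x 0))) ∂(shiftLaw G M) ≤
        ENNReal.ofReal (Real.exp (-(t * (M + ∫ x, x ∂G)) + s * t ^ 2)) := by
  have h2 := Mean_aux1 G hG
  have i1 : Integrable (fun x : ℝ => max x 0) G := h2.integrable one_le_two
  have i2 : Integrable (fun x : ℝ => max x 0 ^ 2) G := h2.integrable_sq
  have hpos : ∀ᵐ x ∂G, 0 ≤ x := by
    rw [ae_iff]
    simp only [not_le]
    exact hG.1
  have e1 : ∫ x, x ∂G = ∫ x, max x 0 ∂G :=
    integral_congr_ae (hpos.mono fun x hx => (max_eq_left hx).symm)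
  have hs : 0 ≤ ∫ x, max x 0 ^ 2 ∂G := integral_nonneg fun x => sq_nonneg _
  refine ⟨1 + ∫ x, max x 0 ^ 2 ∂G, le_add_of_nonneg_right hs, fun M hM t ht _ => ?_⟩
  have i3 : Integrable (fun x : ℝ => 1 - t * max x 0) G := (integrable_const 1).sub (i1.const_mul t)
  have i4 : Integrable (fun x : ℝ => Real.exp (-(t * M)) * (1 - t * max x 0 + t ^ 2 * max x 0 ^ 2))
      G := (i3.add (i2.const_mul _)).const_mul _
  have hle : ∀ᵐ x ∂G, Real.exp (-(t * max (x + M) 0)) ≤
      Real.exp (-(t * M)) * (1 - t * max x 0 + t ^ 2 * max x 0 ^ 2) := hpos.mono fun x hx => by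
    rw [max_eq_left hx, max_eq_left (add_nonneg hx hM), mul_add, neg_add, Real.exp_add, mul_comm,
      ← mul_pow]
    exact mul_le_mul_of_nonneg_left (Shift_aux1 (mul_nonneg ht hx)) (Real.exp_pos _).le
  rw [shiftLaw, lintegral_map (by fun_prop) (by fun_prop)]
  refine (lintegral_mono_ae (hle.mono fun x hx => ENNReal.ofReal_le_ofReal hx)).trans ?_
  rw [← ofReal_integral_eq_lintegral_ofReal i4
    (hle.mono fun x hx => (Real.exp_pos _).le.trans hx)]
  refine ENNReal.ofReal_le_ofReal ?_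
  rw [integral_const_mul, integral_add i3 (i2.const_mul _),
    integral_sub (integrable_const 1) (i1.const_mul t), integral_const_mul, integral_const_mul,
    integral_const, probReal_univ, one_smul, e1, mul_add t, neg_add, add_assoc, Real.exp_add]
  refine mul_le_mul_of_nonneg_left (le_trans ?_ (Real.add_one_le_exp _)) (Real.exp_pos _).le
  nlinarith [sq_nonneg t]

theorem mp_shift (G : Measure ℝ) [IsProbabilityMeasure G] (M : ℝ) :
    MeasurePreserving (fun (ω : Env) (e : E) => ω e + M) (PP G) (PP (shiftLaw G M)) :=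
  ⟨by fun_prop, Measure.infinitePi_map_pi (fun _ : E => G) (f := fun _ x => x + M)
    fun _ => by fun_prop⟩

end Pool.Agent.FPP
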