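import Pool.Agent.P.MP_ecb9f8_pr.DirF
import Pool.Agent.P.MP_ecb9f8_pr.BandL

open MeasureTheory ProbabilityTheory Set Filter

noncomputable section

namespace Pool.Agent.FPP

theorem SlotBad_lin (φ : ℝ × ℝ) (a b c : V) :
    lin φ (rv (b - a)) + lin φ (rv (c - b)) = lin φ (rv (c - a)) := by
  simp only [lin, rv, Prod.fst_sub, Prod.snd_sub, Int.cast_sub]
  ring

theorem SlotBad_lat (κ : ℝ) (a b : V) : lat κ (rv (b - a)) = lat κ (rv b) - lat κ (rv a) := by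
  simp only [lat, rv, Prod.fst_sub, Prod.snd_sub, Int.cast_sub]
  ring

theorem SlotBad_find {F : ℕ → ℕ} {s j n : ℕ} (hn : s < n) (h1 : F s ≤ j) (h2 : j ≤ F n) :
    ∃ s', s ≤ s' ∧ s' < n ∧ F s' ≤ j ∧ j ≤ F (s' + 1) := by
  induction n, hn using Nat.le_induction with
  | base => exact ⟨s, le_rfl, Nat.lt_succ_self s, h1, h2⟩
  | succ n hn ih =>
    rcases le_total j (F n) with h | h
    · obtain ⟨s', a, b, c⟩ := ih h
      exact ⟨s', a, by omega, c⟩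
    · exact ⟨n, by omega, Nat.lt_succ_self n, h, h2⟩

open Classical in
theorem SlotBad_fib {D γ : ℝ} (hD : 0 ≤ D) (hγ : 0 ≤ γ) (S s' : ℕ) :
    γ * (((Finset.range S).filter
      (fun s => s ≤ s' ∧ ((s' : ℝ) - s + 1) * γ ≤ D)).card : ℝ) ≤ D := by
  set A := (Finset.range S).filter (fun s => s ≤ s' ∧ ((s' : ℝ) - s + 1) * γ ≤ D) with hA
  rcases A.eq_empty_or_nonempty with h | h
  · rw [h]; simpa using hD
  · obtain ⟨h1, h2⟩ := (Finset.mem_filter.1 (A.min'_mem h)).2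
    have h3 : A ⊆ Finset.Icc (A.min' h) s' := fun s hs =>
      Finset.mem_Icc.2 ⟨A.min'_le s hs, (Finset.mem_filter.1 hs).2.1⟩
    have h4 := Finset.card_le_card h3
    rw [Nat.card_Icc] at h4
    have h5 : (A.card : ℝ) ≤ (s' : ℝ) - A.min' h + 1 := by
      have : A.card + A.min' h ≤ s' + 1 := by omega
      have : (A.card : ℝ) + A.min' h ≤ s' + 1 := by exact_mod_cast this
      linarith
    nlinarith

/-- oscillation inside a piece costs excess -/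
theorem osc_le {N : Seminorm ℝ (ℝ × ℝ)} {κ c : ℝ} {φ : ℝ × ℝ} (hC : Corner N κ c φ)
    {G : Measure ℝ} {Λ ζ : ℕ} (hz : Sz N c Λ ζ) {B : ℤ} {ω : Env} (hg : MG N G Λ ζ B ω)
    {p : ℕ → V} {k i₀ i₁ : ℕ} (hp : Geo ω p k) (h01 : i₀ ≤ i₁) (h1 : i₁ ≤ k)
    (hB : ∀ j, i₀ ≤ j → j ≤ i₁ → nm (p j) ≤ B) {t ρ : ℕ}
    (hcol : ∀ j, i₀ ≤ j → j ≤ i₁ → (p j).1 ≤ (p i₀).1 + t) (hρ : ζ ^ 2 ≤ ρ) (ht : t ≤ ρ ^ 2)
    {i j : ℕ} (hi : i₀ ≤ i) (hij : i ≤ j) (hj : j ≤ i₁) :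
    |lat κ (rv (p j - p i))| + max (-(rv (p j - p i)).1) 0 ≤
      (ζ : ℝ) / 50 * (W ω p i₀ i₁ - lin φ (rv (p i₁ - p i₀)) + 4 * ((ζ : ℝ) * ρ)) := by
  classical
  let Dv : ℕ × ℕ → ℝ := fun q =>
    |lat κ (rv (p q.2 - p q.1))| + max (-(rv (p q.2 - p q.1)).1) 0
  let A : Finset (ℕ × ℕ) :=
    (Finset.Icc i₀ i₁ ×ˢ Finset.Icc i₀ i₁).filter (fun q => q.1 ≤ q.2)
  have hA : ∀ a b, (a, b) ∈ A ↔ i₀ ≤ a ∧ a ≤ b ∧ b ≤ i₁ := by
    intro a b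
    simp only [A, Finset.mem_filter, Finset.mem_product, Finset.mem_Icc]
    omega
  obtain ⟨⟨a, b⟩, hab, hmax⟩ := A.exists_max_image Dv ⟨(i, j), (hA _ _).2 ⟨hi, hij, hj⟩⟩
  obtain ⟨ha, hab, hb⟩ := (hA _ _).1 hab
  refine (hmax (i, j) ((hA _ _).2 ⟨hi, hij, hj⟩)).trans ?_
  obtain ⟨Dm, hDm⟩ : ∃ Dm, Dm = Dv (a, b) := ⟨_, rfl⟩
  rw [← hDm] at hmax ⊢
  have hD0 : 0 ≤ Dm := by rw [hDm]; exact add_nonneg (abs_nonneg _) (le_max_right _ _)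
  have hζ : 100 ≤ ζ := by have := hz.one; have := hz.lam; omega
  have hζρ : ζ ≤ ρ := le_trans (Nat.le_self_pow two_ne_zero ζ) hρ
  have hnm : ∀ u v, i₀ ≤ u → u ≤ v → v ≤ i₁ →
      nm (p v - p u) ≤ ((ρ + ⌊2 * Dm⌋₊.sqrt + 1 : ℕ) : ℤ) ^ 2 := by
    intro u v h2 h3 h4
    have e1 := hmax (u, v) ((hA _ _).2 ⟨h2, h3, h4⟩)
    have e2 := hmax (i₀, u) ((hA _ _).2 ⟨le_rfl, h2, h3.trans h4⟩)
    have e3 : (((p v).1 : ℤ) : ℝ) ≤ (p i₀).1 + t := by exact_mod_cast hcol v (h2.trans h3) h4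
    simp only [Dv, lat, rv, Prod.fst_sub, Prod.snd_sub, Int.cast_sub] at e1 e2
    have f1 := le_max_left (-(((p v).1 : ℝ) - (p u).1)) 0
    have f2 := le_max_right (-(((p v).1 : ℝ) - (p u).1)) 0
    have f3 := le_max_left (-(((p u).1 : ℝ) - (p i₀).1)) 0
    have f4 := abs_nonneg (((p u).2 : ℝ) - (p i₀).2 - κ * (((p u).1 : ℝ) - (p i₀).1))
    have f5 := abs_nonneg (((p v).2 : ℝ) - (p u).2 - κ * (((p v).1 : ℝ) - (p u).1))
    have ht0 : (0 : ℝ) ≤ t := Nat.cast_nonneg t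
    have g1 : |((p v).1 : ℝ) - (p u).1| ≤ t + Dm := abs_le.2 ⟨by linarith, by linarith⟩
    have g2 : |κ * (((p v).1 : ℝ) - (p u).1)| ≤ t + Dm := by
      rw [abs_mul]
      exact (mul_le_of_le_one_left (abs_nonneg _) hC.1).trans g1
    have g3 : |((p v).2 : ℝ) - (p u).2| ≤ t + 2 * Dm := by
      have := abs_add_le (((p v).2 : ℝ) - (p u).2 - κ * (((p v).1 : ℝ) - (p u).1))
        (κ * (((p v).1 : ℝ) - (p u).1))
      rw [sub_add_cancel] at this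
      linarith
    have g4 : ((nm (p v - p u) : ℤ) : ℝ) ≤ t + 2 * Dm := by
      simp only [nm, Prod.fst_sub, Prod.snd_sub, Int.cast_max, Int.cast_abs, Int.cast_sub]
      exact max_le (by linarith) g3
    have g5 : ((nm (p v - p u) : ℤ) : ℝ) < ((t + (⌊2 * Dm⌋₊ + 1) : ℤ) : ℝ) := by
      have := Nat.lt_floor_add_one (2 * Dm)
      push_cast
      linarith
    have g6 := Int.cast_lt.1 g5
    have g7 : (⌊2 * Dm⌋₊ : ℤ) < ((⌊2 * Dm⌋₊.sqrt : ℤ) + 1) ^ 2 := by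
      exact_mod_cast Nat.lt_succ_sqrt' ⌊2 * Dm⌋₊
    have g8 : (t : ℤ) ≤ (ρ : ℤ) ^ 2 := by exact_mod_cast ht
    push_cast
    have g9 : (0 : ℤ) ≤ ρ * ((⌊2 * Dm⌋₊.sqrt : ℤ) + 1) := by positivity
    nlinarith
  have hlow : ∀ u v, i₀ ≤ u → u ≤ v → v ≤ i₁ → N (rv (p v - p u)) -
      (ζ : ℝ) * (ρ + ⌊2 * Dm⌋₊.sqrt + 1 : ℕ) ≤ W ω p u v := by
    intro u v h2 h3 h4
    rw [hp.sub h3 (h4.trans h1)]
    exact hg.low _ _ (hB u h2 (h3.trans h4)) (hB v (h2.trans h3) h4) _ (by omega)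
      (hnm u v h2 h3 h4)
  have l1 := hlow i₀ a le_rfl ha (hab.trans hb)
  have l2 := hlow a b ha hab hb
  have l3 := hlow b i₁ (ha.trans hab) hb le_rfl
  have l4 := W_add ω p ha hab
  have l5 := W_add ω p (ha.trans hab) hb
  have l6 := hC.2.1 (rv (p a - p i₀))
  have l7 := hC.2.1 (rv (p i₁ - p b))
  have l8 : c * Dm ≤ N (rv (p b - p a)) - lin φ (rv (p b - p a)) := by
    rw [hDm]; exact hC.2.2.2 _
  have l9 := SlotBad_lin φ (p i₀) (p a) (p b)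
  have l10 := SlotBad_lin φ (p i₀) (p b) (p i₁)
  have s1 : ((⌊2 * Dm⌋₊.sqrt : ℕ) : ℝ) ^ 2 ≤ 2 * Dm := by
    have h2 : ((⌊2 * Dm⌋₊.sqrt : ℕ) : ℝ) ^ 2 ≤ (⌊2 * Dm⌋₊ : ℝ) := by
      exact_mod_cast Nat.sqrt_le' ⌊2 * Dm⌋₊
    exact h2.trans (Nat.floor_le (by linarith))
  push_cast at l1 l2 l3
  generalize ((⌊2 * Dm⌋₊.sqrt : ℕ) : ℝ) = s at *
  have hz1 : (100 : ℝ) ≤ ζ := by exact_mod_cast hζ
  have hz2 : (ζ : ℝ) ^ 2 ≤ ρ := by exact_mod_cast hρ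
  have hz3 : (ζ : ℝ) ≤ ρ := by exact_mod_cast hζρ
  have hcz := hz.cz
  obtain ⟨Ex, hEx⟩ : ∃ Ex, Ex = W ω p i₀ i₁ - lin φ (rv (p i₁ - p i₀)) := ⟨_, rfl⟩
  rw [← hEx]
  have m1 : c * Dm ≤ Ex + 3 * ((ζ : ℝ) * (ρ + s + 1)) := by linarith
  have m2 : 100 * Dm ≤ (ζ : ℝ) * (Ex + 3 * ((ζ : ℝ) * (ρ + s + 1))) := by
    have h2 := mul_le_mul_of_nonneg_left m1 (show (0 : ℝ) ≤ ζ by linarith)
    have h3 := mul_le_mul_of_nonneg_right hcz hD0
    linarith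
  have m3 : (ζ : ℝ) ^ 2 * (ζ : ℝ) ^ 2 ≤ (ζ : ℝ) ^ 2 * ρ :=
    mul_le_mul_of_nonneg_left hz2 (by positivity)
  have m4 : (ζ : ℝ) ^ 2 * 100 ≤ (ζ : ℝ) ^ 2 * ρ :=
    mul_le_mul_of_nonneg_left (by linarith) (by positivity)
  have m5 := sq_nonneg (5 * s - 3 / 10 * (ζ : ℝ) ^ 2)
  have m6 : (0 : ℝ) ≤ (ζ : ℝ) ^ 2 := by positivity
  nlinarith

open Classical in
/-- few slots are bad -/
theorem slot_bad {N : Seminorm ℝ (ℝ × ℝ)} {κ c : ℝ} {φ : ℝ × ℝ} (hC : Corner N κ c φ)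
    {G : Measure ℝ} {Λ ζ : ℕ} (hz : Sz N c Λ ζ) {ω : Env}
    (hg : MG N G Λ ζ ((ζ : ℤ) ^ 120010) ω) {p : ℕ → V} {k : ℕ} (hp : Geo ω p k)
    (tp : Tube3 κ ζ p k) {γ t ρ : ℕ} (hγ : 1 ≤ γ) (hγt : γ ≤ t) (ht : t ≤ ζ ^ 110000)
    (hρ : ζ ^ 2 ≤ ρ) (htρ : t ≤ ρ ^ 2) :
    γ * ((Finset.range (2 * ζ ^ 120000 / t)).filter
      (fun s => 2 * alS ζ t (s + 1) ≤ 5 * TT ζ ∧ ¬ GoodSlot κ ζ γ t p s)).card ≤
      11 * (ζ ^ 97008 + (2 * ζ ^ 120000 / t) * ζ ^ 2 * ρ) := by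
  have hζ : 100 ≤ ζ := by have := hz.one; have := hz.lam; omega
  have hζ1 : 1 ≤ ζ := by omega
  have ht0 : 0 < t := by omega
  obtain ⟨S, hS⟩ : ∃ S, S = 2 * ζ ^ 120000 / t := ⟨_, rfl⟩
  rw [← hS]
  have hT : TT ζ = ((ζ ^ 120000 : ℕ) : ℤ) := by rw [TT, Nat.cast_pow]
  have hS1 : (S : ℤ) * t ≤ 2 * TT ζ := by
    rw [hT, hS]; exact_mod_cast Nat.div_mul_le_self _ _
  have hS2 : 2 * TT ζ < (S : ℤ) * t + t := by
    rw [hT, hS]
    have := Nat.lt_div_mul_add (a := 2 * ζ ^ 120000) ht0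
    exact_mod_cast this
  have p1 : (ζ : ℤ) < TT ζ := by
    have := AttDet_pow hζ (show 1 < 120000 by norm_num)
    rw [pow_one] at this
    rw [TT]
    omega
  have p2 : 4 * TT ζ ≤ (ζ : ℤ) ^ 120010 := ThrL_mul_pow_le hζ1 (by omega) (by norm_num)
  have p3 : 8 * TT ζ ≤ ((ζ ^ 15001 : ℕ) : ℤ) ^ 8 := by
    rw [Nat.cast_pow, ← pow_mul]
    exact ThrL_mul_pow_le hζ1 (by omega) (by norm_num)
  have p4 : 100 * (t : ℤ) ≤ TT ζ := by
    have h1 := AttDet_pow hζ (show 110000 < 120000 by norm_num)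
    have h2 : (t : ℤ) ≤ (ζ : ℤ) ^ 110000 := by exact_mod_cast ht
    rw [TT]
    linarith
  have p5 : 100 * (ζ : ℤ) ^ 97006 ≤ TT ζ := AttDet_pow hζ (by norm_num)
  have hch : Chain p (k3 ζ p) := tp.chain.mono tp.le
  have h00 : (p 0).1 < TT ζ := lt_of_le_of_lt ((le_abs_self _).trans
    ((abs_fst_le_nm _).trans tp.start)) p1
  have hst : ∀ s : ℕ, (0 : ℤ) ≤ (s : ℤ) * t := fun s => by positivity
  have hal : ∀ s : ℕ, alS ζ t (s + 1) = alS ζ t s + t := fun s => by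
    simp only [alS]; push_cast; ring
  have hlo : ∀ s : ℕ, (p 0).1 < alS ζ t s := fun s => by
    have := hst s
    simp only [alS]; linarith
  have hhi : ∀ s ≤ S, alS ζ t s ≤ (p (k3 ζ p)).1 := fun s hs => by
    have : (s : ℤ) * t ≤ (S : ℤ) * t :=
      mul_le_mul_of_nonneg_right (by exact_mod_cast hs) (Nat.cast_nonneg t)
    rw [tp.col]
    simp only [alS]; linarith
  let F : ℕ → ℕ := fun s => fi p (alS ζ t s)
  have hF1 : ∀ s ≤ S, F s ≤ k3 ζ p := fun s hs => (hch.fi_spec (hlo s) (hhi s hs)).1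
  have hF2 : ∀ s ≤ S, (p (F s)).1 = alS ζ t s := fun s hs =>
    congrArg Prod.fst (hch.fi_spec (hlo s) (hhi s hs)).2.2.1
  have hF3 : ∀ s ≤ S, ∀ i < F s, (p i).1 < alS ζ t s := fun s hs =>
    (hch.fi_spec (hlo s) (hhi s hs)).2.2.2.2
  have hF4 : ∀ s < S, F s ≤ F (s + 1) := fun s hs =>
    (hch.fi_lt (hlo s) (by rw [hal]; omega) (hhi _ hs)).le
  let D : ℕ → ℝ := fun s => (ζ : ℝ) / 50 *
    (W ω p (F s) (F (s + 1)) - lin φ (rv (p (F (s + 1)) - p (F s))) + 4 * ((ζ : ℝ) * ρ))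
  have hD : ∀ s < S, ∀ i j, F s ≤ i → i ≤ j → j ≤ F (s + 1) →
      |lat κ (rv (p j - p i))| + max (-(rv (p j - p i)).1) 0 ≤ D s := by
    intro s hs i j h1 h2 h3
    refine osc_le hC hz hg hp (hF4 s hs) ((hF1 _ hs).trans tp.le)
      (fun j _ hj => ((tp.tube j (hj.trans (hF1 _ hs))).2).trans p2) (fun j _ hj => ?_) hρ htρ
      h1 h2 h3
    rw [hF2 s hs.le, ← hal]
    rcases hj.eq_or_lt with rfl | hj
    · exact (hF2 _ hs).le
    · exact (hF3 _ hs j hj).le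
  have hD0 : ∀ s < S, 0 ≤ D s := fun s hs =>
    (add_nonneg (abs_nonneg _) (le_max_right _ _)).trans (hD s hs _ _ le_rfl le_rfl (hF4 s hs))
  have htel : ∀ n ≤ S, F 0 ≤ F n ∧ ∑ s ∈ Finset.range n, D s = (ζ : ℝ) / 50 *
      (W ω p (F 0) (F n) - lin φ (rv (p (F n) - p (F 0))) + 4 * (n * ((ζ : ℝ) * ρ))) := by
    intro n
    induction n with
    | zero => intro _; simp [W, lin, rv]
    | succ n ih =>
      intro hn
      obtain ⟨h1, h2⟩ := ih (by omega)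
      refine ⟨h1.trans (hF4 n hn), ?_⟩
      rw [Finset.sum_range_succ, h2, ← W_add ω p h1 (hF4 n hn),
        ← SlotBad_lin φ (p (F 0)) (p (F n)) (p (F (n + 1)))]
      simp only [D]
      push_cast
      ring
  have hsum : ∑ s ∈ Finset.range S, D s ≤ (ζ : ℝ) ^ 97008 + S * (ζ : ℝ) ^ 2 * ρ := by
    obtain ⟨h1, h2⟩ := htel S le_rfl
    have t0 := tp.tube _ (hF1 0 (Nat.zero_le _))
    have t1 := tp.tube _ (hF1 S le_rfl)
    have a1 := (abs_le.1 (hg.app _ _ (t0.2.trans p2) (t1.2.trans p2) (ζ ^ 15001)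
      (Nat.le_self_pow (by norm_num) ζ)
      (((nm_sub_le _ _).trans (by linarith [t0.2, t1.2])).trans p3))).2
    have a2 := corner_exc' hC hz.up (v := rv (p (F S) - p (F 0))) (by
      have e : (p (F S) - p (F 0)).1 = (S : ℤ) * t := by
        rw [Prod.fst_sub, hF2 S le_rfl, hF2 0 (Nat.zero_le _)]
        simp [alS]
      simp only [rv, e]
      exact_mod_cast hst S)
    have a3 : |lat κ (rv (p (F S) - p (F 0)))| ≤ 2 * (ζ : ℝ) ^ 97006 := by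
      rw [SlotBad_lat]
      exact (abs_sub _ _).trans (by linarith [t0.1, t1.1])
    have a4 : (ζ : ℝ) * ((ζ ^ 15001 : ℕ) : ℝ) ^ 6 ≤ (ζ : ℝ) ^ 97007 := by
      rw [Nat.cast_pow, ← pow_mul]
      exact ThrL_rmul_pow_le hζ1 le_rfl (by norm_num)
    have a5 : (ζ : ℝ) ^ 97007 = ζ * (ζ : ℝ) ^ 97006 := pow_succ' _ _
    have a6 : (ζ : ℝ) ^ 97008 = ζ * (ζ : ℝ) ^ 97007 := pow_succ' _ _
    have a7 : (0 : ℝ) ≤ (ζ : ℝ) ^ 97007 := by positivity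
    have hz0 : (0 : ℝ) ≤ ζ := Nat.cast_nonneg ζ
    have a8 := mul_le_mul_of_nonneg_left a3 hz0
    rw [h2, hp.sub h1 ((hF1 S le_rfl).trans tp.le), a6]
    have a9 : d ω (p (F 0)) (p (F S)) - lin φ (rv (p (F S) - p (F 0))) ≤ 5 * (ζ : ℝ) ^ 97007 := by
      generalize (ζ : ℝ) ^ 97007 = A at *
      generalize (ζ : ℝ) ^ 97006 = A' at *
      linarith
    have a10 := mul_le_mul_of_nonneg_left a9 hz0
    have a11 := mul_nonneg hz0 a7
    have a12 : (0 : ℝ) ≤ S * (ζ : ℝ) ^ 2 * ρ := by positivity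
    generalize (ζ : ℝ) ^ 97007 = A at *
    linarith
  have hγ0 : (0 : ℝ) ≤ γ := Nat.cast_nonneg γ
  have hsub : (Finset.range S).filter
      (fun s => 2 * alS ζ t (s + 1) ≤ 5 * TT ζ ∧ ¬ GoodSlot κ ζ γ t p s) ⊆
      (Finset.range S).biUnion fun s' => (Finset.range S).filter
        (fun s => s ≤ s' ∧ ((s' : ℝ) - s + 1) * γ ≤ 11 * D s') := by
    intro s hs
    obtain ⟨hs, h1, h2⟩ := Finset.mem_filter.1 hs
    have hs' := Finset.mem_range.1 hs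
    simp only [GoodSlot, not_forall, not_le] at h2
    obtain ⟨j, hj, h2, h3, h4⟩ := h2
    have h5 : F s ≤ j := not_lt.1 fun h => absurd (hF3 s hs'.le j h) (not_lt.2 h2)
    have h6 : j ≤ F S := by
      by_contra h
      have := tp.back (F S) j (not_le.1 h).le hj
      rw [hF2 S le_rfl] at this
      simp only [alS] at this
      have h7 : (0 : ℤ) ≤ γ := Nat.cast_nonneg γ
      generalize (ζ : ℤ) ^ 97006 = A at *
      linarith
    obtain ⟨s', a1, a2, a3, a4⟩ := SlotBad_find hs' h5 h6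
    refine Finset.mem_biUnion.2 ⟨s', Finset.mem_range.2 a2, Finset.mem_filter.2 ⟨hs, a1, ?_⟩⟩
    have b1 := hD s' a2 _ j le_rfl a3 a4
    have b0 := hD0 s' a2
    rcases a1.eq_or_lt with rfl | a1
    · rw [SlotBad_lat] at b1
      have := le_max_right (-(rv (p j - p (F s))).1) 0
      rw [sub_self, zero_add, one_mul]
      linarith
    · have b2 : ((s' : ℤ) - s) * γ ≤ -(p j - p (F s')).1 := by
        rw [Prod.fst_sub, hF2 s' a2.le]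
        have c1 : (0 : ℤ) ≤ (s' : ℤ) - s - 1 := by omega
        have c2 : (γ : ℤ) ≤ t := by exact_mod_cast hγt
        have c3 := mul_le_mul_of_nonneg_left c2 c1
        simp only [alS] at h3 ⊢
        push_cast at h3
        linarith
      have b3 : ((s' : ℝ) - s) * γ ≤ -(rv (p j - p (F s'))).1 := by
        simp only [rv]
        exact_mod_cast b2
      have b4 := le_max_left (-(rv (p j - p (F s'))).1) 0
      have b5 := abs_nonneg (lat κ (rv (p j - p (F s'))))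
      have b6 : (1 : ℝ) ≤ (s' : ℝ) - s := by
        have : (s : ℝ) + 1 ≤ s' := by exact_mod_cast a1
        linarith
      have b7 := mul_le_mul_of_nonneg_right b6 hγ0
      linarith
  have hc := (Finset.card_le_card hsub).trans Finset.card_biUnion_le
  have hc' := mul_le_mul_of_nonneg_left (Nat.cast_le (α := ℝ).2 hc) hγ0
  rw [Nat.cast_sum, Finset.mul_sum] at hc'
  have hc2 := hc'.trans (Finset.sum_le_sum fun s' hs' => SlotBad_fib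
    (D := 11 * D s') (by linarith [hD0 s' (Finset.mem_range.1 hs')]) hγ0 S s')
  rw [← Finset.mul_sum] at hc2
  have hc3 := hc2.trans (mul_le_mul_of_nonneg_left hsum (by norm_num))
  exact_mod_cast hc3

end Pool.Agent.FPP
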