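import Pool.Agent.P.MP_ecb9f8_pr.TubeL

open MeasureTheory ProbabilityTheory Set Filter

noncomputable section

namespace Pool.Agent.FPP

theorem SlotOne_pow {R : Type} [CommRing R] [LinearOrder R] [IsStrictOrderedRing R] {z : R}
    (hz : 100 ≤ z) {a b : ℕ} (h : a < b) : 100 * z ^ a ≤ z ^ b := by
  have h1 : (1 : R) ≤ z := le_trans (by norm_num) hz
  refine le_trans ?_ (pow_le_pow_right₀ h1 (Nat.succ_le_of_lt h))
  rw [pow_succ, mul_comm]
  exact mul_le_mul_of_nonneg_left hz (pow_nonneg (zero_le_one.trans h1) a)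

theorem SlotOne_y {y γ w L : ℝ} (hγ : 100 ≤ γ) (hw : 1 ≤ w) (h1 : -w ≤ L) (h2 : L ≤ w)
    (y1 : y * γ ≤ 10 * L) (y2 : 10 * L < y * γ + γ) : -(11 * w) ≤ y ∧ y ≤ 11 * w := by
  constructor <;> by_contra hc <;> push Not at hc <;> nlinarith

theorem SlotOne_fi {κ : ℝ} {ζ : ℕ} (hz : 100 ≤ ζ) {p : ℕ → V} {k : ℕ} (tp : Tube3 κ ζ p k) {a : ℤ}
    (h1 : TT ζ ≤ a) (h2 : 2 * a ≤ 5 * TT ζ) :
    (p 0).1 < a ∧ a ≤ (p (k3 ζ p)).1 ∧ fi p a ≤ k3 ζ p ∧ (p (fi p a)).1 = a ∧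
      ∀ j ≤ fi p a, (p j).1 ≤ a := by
  have hz' : (100 : ℤ) ≤ ζ := by exact_mod_cast hz
  have h3 : 100 * (ζ : ℤ) ^ 1 ≤ TT ζ := SlotOne_pow hz' (by norm_num)
  rw [pow_one] at h3
  have h4 : (p 0).1 < a := by
    have := (le_abs_self _).trans ((abs_fst_le_nm _).trans tp.start)
    linarith
  have h5 : a ≤ (p (k3 ζ p)).1 := by
    rw [tp.col]
    linarith
  obtain ⟨a1, -, a3, -, a5⟩ := (tp.chain.mono tp.le).fi_spec h4 h5
  refine ⟨h4, h5, a1, by rw [a3], fun j hj => ?_⟩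
  rcases hj.eq_or_lt with rfl | hj
  · rw [a3]
  · exact (a5 j hj).le

/-- a far column in the inner part of a slot that is good for both geodesics -/
theorem slot_one {N : Seminorm ℝ (ℝ × ℝ)} {κ : ℝ} (hκ : |κ| ≤ 1) {G : Measure ℝ} {Λ ζ : ℕ}
    (hz : 100 ≤ ζ) {ω : Env} (hg : MG N G Λ ζ ((ζ : ℤ) ^ 120010) ω) {p q : ℕ → V} {k l : ℕ}
    (hp : Geo ω p k) (hq : Geo ω q l) (tp : Tube3 κ ζ p k) (tq : Tube3 κ ζ q l)
    (s1 : d ω (p 0) (q 0) ≤ (ζ : ℝ) ^ 3) (s2 : d ω (p k) (q l) ≤ (ζ : ℝ) ^ 3) {γ t s : ℕ}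
    (hγ : ζ ≤ γ) (hγ' : γ ≤ 2 * ζ ^ 97006) (hγt : 2 * γ ≤ t)
    (hs : 2 * alS ζ t (s + 1) ≤ 5 * TT ζ) (gp : GoodSlot κ ζ γ t p s)
    (gq : GoodSlot κ ζ γ t q s) {σ : ℤ} (hσ : σ = 1 ∨ σ = -1) {i j : ℕ} (hi : i ≤ k3 ζ p)
    (hj : j ≤ k3 ζ q) (hcol : (p i).1 = (q j).1) (c1 : alS ζ t s ≤ (p i).1)
    (c2 : (p i).1 ≤ alS ζ t (s + 1) - (γ : ℤ)) (g1 : (γ : ℤ) ≤ σ * ((p i).2 - (q j).2))
    (g2 : σ * ((p i).2 - (q j).2) ≤ 2 * (γ : ℤ)) :
    SlotAC κ Λ ζ γ t σ s (q 0) (q l) ω := by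
  have hzZ : (100 : ℤ) ≤ ζ := by exact_mod_cast hz
  have hzR : (100 : ℝ) ≤ ζ := by exact_mod_cast hz
  have hT0 : 0 ≤ TT ζ := pow_nonneg (by linarith) _
  have hB : 100 * TT ζ ≤ (ζ : ℤ) ^ 120010 := SlotOne_pow hzZ (by norm_num)
  have hW : 100 * (ζ : ℝ) ^ 97006 ≤ (ζ : ℝ) ^ 97010 := SlotOne_pow hzR (by norm_num)
  have hW1 : 1 ≤ (ζ : ℝ) ^ 97006 := one_le_pow₀ (by linarith)
  have hγR : (ζ : ℝ) ≤ γ := by exact_mod_cast hγ
  have hγZ : (ζ : ℤ) ≤ γ := by exact_mod_cast hγ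
  have hγ0 : (0 : ℝ) < γ := by linarith
  have hγW : (γ : ℝ) ≤ 2 * (ζ : ℝ) ^ 97006 := by
    rw [← Nat.cast_pow, ← Nat.cast_two, ← Nat.cast_mul]
    exact Nat.cast_le.2 hγ'
  obtain ⟨n, hn⟩ : ∃ n, t = γ + n := ⟨t - γ, by omega⟩
  have hn' : t - γ = n := by omega
  have hγn : γ ≤ n := by omega
  have hb : alS ζ t (s + 1) - (γ : ℤ) = alS ζ t s + (n : ℤ) := by
    rw [alS, alS, hn]
    push_cast
    ring
  have ha : TT ζ ≤ alS ζ t s := le_add_of_nonneg_right (by positivity)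
  have hn0 : (0 : ℤ) ≤ n := by positivity
  unfold SlotAC
  unfold GoodSlot at gp gq
  rw [hb] at c2 gp gq
  rw [hb, hn']
  have hs' : 2 * (alS ζ t s + n) + 2 * γ ≤ 5 * TT ζ := by linarith
  generalize alS ζ t s = a at *
  obtain ⟨p1, p2, p3, p4, -⟩ := SlotOne_fi hz tp ha (by linarith)
  obtain ⟨q1, q2, q3, -, -⟩ := SlotOne_fi hz tq ha (by linarith)
  obtain ⟨-, p5, p6, p7, p8⟩ := SlotOne_fi hz tp (a := a + n) (by linarith) (by linarith)
  set LQ := lat κ (rv (q (fi q a))) with hLQ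
  have hLQ1 := abs_le.1 (tq.tube _ q3).1
  rw [← hLQ] at hLQ1
  set y := ⌊10 * LQ / γ⌋ with hy
  have y1 : (y : ℝ) * γ ≤ 10 * LQ := (le_div_iff₀ hγ0).1 (Int.floor_le _)
  have y2 : 10 * LQ < (y : ℝ) * γ + γ := by
    have := (div_lt_iff₀ hγ0).1 (Int.lt_floor_add_one (10 * LQ / γ))
    linarith
  have hab : ∀ {u v : ℝ}, 10 * |u - v| ≤ γ → 10 * (u - v) ≤ γ ∧ -(γ : ℝ) ≤ 10 * (u - v) :=
    fun {u v} h => ⟨by linarith [le_abs_self (u - v)], by linarith [neg_abs_le (u - v)]⟩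
  refine ⟨y, ?_, ⟨q, l, hq, rfl, rfl, ?_, fun j' hj' he => ?_⟩, ?_⟩
  · have e : (((ζ : ℤ) ^ 97006 : ℤ) : ℝ) = (ζ : ℝ) ^ 97006 := by rw [Int.cast_pow, Int.cast_natCast]
    rw [Finset.mem_Icc, ← Int.cast_le (R := ℝ), ← Int.cast_le (R := ℝ), Int.cast_neg, Int.cast_mul,
      e, Int.cast_ofNat]
    exact SlotOne_y (hzR.trans hγR) hW1 hLQ1.1 hLQ1.2 y1 y2
  · have e := (fi_congr (q := fun t => q (min t l)) (tq.chain.mono tq.le)
      (fun u hu => by rw [min_eq_left (hu.trans tq.le)]) q1 q2).1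
    beta_reduce
    rw [e, min_eq_left (q3.trans tq.le)]
  · obtain ⟨x, y', x1, x2, x3, x4, e⟩ := mem_band.1 he
    obtain ⟨u, hu, eu⟩ : ∃ u ≤ l, q u = (x, y') := by
      rcases Sym2.eq_iff.1 e with h | h
      exacts [⟨j' + 1, hj', h.2⟩, ⟨j', hj'.le, h.1⟩]
    rw [loS] at x3
    rw [hiS] at x4
    rcases le_total u (k3 ζ q) with h | h
    · have := hab (gq u h (by rw [eu]; exact x1.le) (by rw [eu]; exact x2))
      rw [eu] at this
      rcases hσ with rfl | rfl <;> push_cast at x3 x4 <;> linarith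
    · have := tq.noret u h hu (by rw [eu]; linarith) (by
        rw [eu, abs_le]
        rcases hσ with rfl | rfl <;> push_cast at x3 x4 <;> constructor <;> linarith)
      rw [eu] at this
      linarith
  · have e1 : lat κ (rv (p i)) - lat κ (rv (q j)) = ((p i).2 - (q j).2 : ℤ) := by
      simp only [lat, rv, hcol]
      push_cast
      ring
    have g1' : (γ : ℝ) ≤ σ * ((p i).2 - (q j).2 : ℤ) := by exact_mod_cast g1
    have g2' : (σ : ℝ) * ((p i).2 - (q j).2 : ℤ) ≤ 2 * γ := by exact_mod_cast g2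
    rw [← e1] at g1' g2'
    have b1 := hab (gp i hi c1 c2)
    have b2 := hab (gq j hj (hcol ▸ c1) (hcol ▸ c2))
    obtain ⟨w1, w2, w3, w4⟩ := band_window (κ := κ) (tp.chain.mono tp.le) p1 p5
      (lo := loS γ σ y) (hi := hiS γ σ y) fun u hu hu' => by
        have b3 := hab (gp u (hu.trans p6) hu' (p8 u hu))
        rw [loS, hiS]
        rcases hσ with rfl | rfl <;> push_cast at g1' g2' ⊢ <;> constructor <;> linarith
    have hgs := hp.shift w1 (p6.trans tp.le)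
    have em : fi p a + (fi p (a + n) - fi p a) = fi p (a + n) := by omega
    refine ⟨fun u => p (fi p a + u), fi p (a + n) - fi p a, hgs.1, hgs.sa hg.nice.1, w3, ?_, w4, ?_⟩
    · have := hg.len _ _ hgs (by rw [add_zero]; linarith [(tp.tube _ p3).2])
        (by rw [em]; linarith [(tp.tube _ p6).2]) (2 * n) (by omega) (by
          rw [em, add_zero, nm_le_iff, Prod.fst_sub, Prod.snd_sub, p4, p7]
          refine ⟨by rw [add_sub_cancel_left, abs_of_nonneg hn0]; push_cast; linarith, ?_⟩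
          have b3 := hab (gp _ p6 (by rw [p7]; linarith) p7.le)
          simp only [lat, rv, p4, p7] at b3
          have hγn' : (γ : ℝ) ≤ n := by exact_mod_cast hγn
          have hk := abs_le.1 hκ
          rw [← Int.cast_le (R := ℝ)]
          push_cast at b3 ⊢
          rw [abs_le]
          have k1 := mul_le_mul_of_nonneg_right hk.1 (Nat.cast_nonneg (α := ℝ) n)
          have k2 := mul_le_mul_of_nonneg_right hk.2 (Nat.cast_nonneg (α := ℝ) n)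
          constructor <;> linarith [b3.1, b3.2])
      linarith
    · have := window_cost hp w1 (p6.trans tp.le) s1 s2
      beta_reduce
      rw [em]
      exact this

end Pool.Agent.FPP
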