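import Pool.Agent.P.MP_ecb9f8_pr.SlotBad
import Pool.Agent.P.MP_ecb9f8_pr.SlotOne

open MeasureTheory ProbabilityTheory Set Filter

noncomputable section

namespace Pool.Agent.FPP

theorem SlotDet_count (T : ℤ) (t γ S : ℕ) (X : Finset ℤ) (B : Finset ℕ)
    (h : ∀ x ∈ X, ∃ s < S, T + (s : ℤ) * t ≤ x ∧ x < T + ((s + 1 : ℕ) : ℤ) * t ∧
      (T + ((s + 1 : ℕ) : ℤ) * t - γ < x ∨ s ∈ B)) : X.card ≤ S * γ + B.card * t := by
  have h1 : X ⊆ (Finset.range S).biUnion (fun s => Finset.Ioc (T + ((s + 1 : ℕ) : ℤ) * t - γ)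
      (T + ((s + 1 : ℕ) : ℤ) * t)) ∪
      B.biUnion (fun s => Finset.Ico (T + (s : ℤ) * t) (T + ((s + 1 : ℕ) : ℤ) * t)) := by
    intro x hx
    obtain ⟨s, hs, a1, a2, a3⟩ := h x hx
    rw [Finset.mem_union, Finset.mem_biUnion, Finset.mem_biUnion]
    rcases a3 with a3 | a3
    · exact Or.inl ⟨s, Finset.mem_range.2 hs, Finset.mem_Ioc.2 ⟨a3, a2.le⟩⟩
    · exact Or.inr ⟨s, a3, Finset.mem_Ico.2 ⟨a1, a2⟩⟩
  refine (Finset.card_le_card h1).trans ((Finset.card_union_le _ _).trans (add_le_add ?_ ?_))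
  · refine (Finset.card_biUnion_le_card_mul _ _ γ fun s _ => ?_).trans (by rw [Finset.card_range])
    rw [Int.card_Ioc, sub_sub_cancel, Int.toNat_natCast]
  · refine Finset.card_biUnion_le_card_mul _ _ t fun s _ => ?_
    have e : T + ((s + 1 : ℕ) : ℤ) * t - (T + (s : ℤ) * t) = t := by
      push_cast
      ring
    rw [Int.card_Ico, e, Int.toNat_natCast]

theorem SlotDet_arith {z M U T E u γ S ρ bp bq ac n : ℕ} (hz : 12 ≤ z) (ht : 0 < γ * U)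
    (h1 : T ≤ M * (3 * z * n)) (h2 : n ≤ S * γ + (bp + bq + ac) * (γ * U))
    (h3 : S * (γ * U) ≤ 2 * T) (h4 : γ * bp ≤ 11 * (E + S * z ^ 2 * ρ))
    (h5 : γ * bq ≤ 11 * (E + S * z ^ 2 * ρ)) (h6 : 24 * (z * M) ≤ U)
    (h7 : 528 * (z * M * U * E) ≤ T) (h8 : ρ * u ≤ 2 * (γ * U))
    (h9 : 2112 * (z ^ 3 * M * U) ≤ u) : S ≤ M * z ^ 2 * ac := by
  have a1 : 24 * (z * M) * (S * γ) ≤ U * (S * γ) := Nat.mul_le_mul_right _ h6
  have a2 : 2112 * (z ^ 3 * M * U) * (S * ρ) ≤ u * (S * ρ) := Nat.mul_le_mul_right _ h9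
  have a3 : S * (ρ * u) ≤ S * (2 * (γ * U)) := Nat.mul_le_mul_left _ h8
  have a4 : z * M * U * (γ * bp) ≤ z * M * U * (11 * (E + S * z ^ 2 * ρ)) :=
    Nat.mul_le_mul_left _ h4
  have a5 : z * M * U * (γ * bq) ≤ z * M * U * (11 * (E + S * z ^ 2 * ρ)) :=
    Nat.mul_le_mul_left _ h5
  have a6 : M * (3 * z * n) ≤ M * (3 * z * (S * γ + (bp + bq + ac) * (γ * U))) :=
    Nat.mul_le_mul_left _ (Nat.mul_le_mul_left _ h2)
  have a7 : 12 * (z * M * ac * (γ * U)) ≤ z * (z * M * ac * (γ * U)) :=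
    Nat.mul_le_mul_right _ hz
  refine Nat.le_of_mul_le_mul_right ?_ ht
  linarith

theorem SlotDet_pow {z : ℕ} (hz : 100 ≤ z) {c a b : ℕ} (hc : c ≤ 10000) (h : a + 2 ≤ b) :
    c * z ^ a ≤ z ^ b := by
  calc c * z ^ a ≤ z * z * z ^ a :=
        Nat.mul_le_mul_right _ (hc.trans (Nat.mul_le_mul hz hz))
    _ = z ^ (a + 2) := by ring
    _ ≤ z ^ b := Nat.pow_le_pow_right (by omega) h

theorem SlotDet_class {r : ℕ} (hr : 0 < r) {g : ℤ} (hg : (r : ℤ) < |g|) :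
    ∃ (j : ℕ) (σ : ℤ), (σ = 1 ∨ σ = -1) ∧ ((r * 2 ^ j : ℕ) : ℤ) ≤ σ * g ∧
      σ * g ≤ 2 * ((r * 2 ^ j : ℕ) : ℤ) ∧ σ * g = |g| := by
  obtain ⟨σ, hσ, e⟩ : ∃ σ : ℤ, (σ = 1 ∨ σ = -1) ∧ σ * g = |g| := by
    rcases le_total 0 g with h | h
    · exact ⟨1, Or.inl rfl, by rw [abs_of_nonneg h, one_mul]⟩
    · exact ⟨-1, Or.inr rfl, by rw [abs_of_nonpos h, neg_one_mul]⟩
  obtain ⟨m, hm⟩ : ∃ m : ℕ, |g| = m := ⟨g.natAbs, (Int.natCast_natAbs g).symm⟩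
  have h1 : r ≤ m := by omega
  have h2 : m / r ≠ 0 := (Nat.div_pos h1 hr).ne'
  have h3 := (Nat.le_div_iff_mul_le hr).1 (Nat.pow_log_le_self 2 h2)
  have h4 := (Nat.div_lt_iff_lt_mul hr).1 (Nat.lt_pow_succ_log_self one_lt_two (m / r))
  refine ⟨Nat.log 2 (m / r), σ, hσ, ?_, ?_, e⟩
  · rw [e, hm, mul_comm]
    exact_mod_cast h3
  · rw [e, hm]
    have : m ≤ 2 * (r * 2 ^ Nat.log 2 (m / r)) := by
      rw [pow_succ] at h4
      linarith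
    exact_mod_cast this

theorem SlotDet_gap {κ B : ℝ} {u v : V} (h : u.1 = v.1) (hu : |lat κ (rv u)| ≤ B)
    (hv : |lat κ (rv v)| ≤ B) : ((|u.2 - v.2| : ℤ) : ℝ) ≤ 2 * B := by
  have e : ((u.2 - v.2 : ℤ) : ℝ) = lat κ (rv u) - lat κ (rv v) := by
    simp only [lat, rv, h]
    push_cast
    ring
  rw [Int.cast_abs, e]
  linarith [abs_sub (lat κ (rv u)) (lat κ (rv v))]

theorem SlotDet_slot {T l m t : ℕ} (ht : 0 < t) (htm : t ≤ m) (hl : 4 * l ≤ T) (hm : 4 * m ≤ T)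
    {x : ℤ} (h1 : (T : ℤ) ≤ x) (h2 : x ≤ 2 * (T : ℤ) + l) :
    ∃ s < 2 * T / t, (T : ℤ) + (s : ℤ) * t ≤ x ∧ x < T + ((s + 1 : ℕ) : ℤ) * t ∧
      2 * ((T : ℤ) + ((s + 1 : ℕ) : ℤ) * t) ≤ 5 * T := by
  obtain ⟨y, rfl⟩ : ∃ y : ℕ, x = T + y := ⟨(x - T).toNat, by omega⟩
  have a1 := Nat.div_mul_le_self y t
  have a2 := Nat.lt_div_mul_add (a := y) ht
  have e : (y / t + 1) * t = y / t * t + t := by ring
  refine ⟨y / t, (Nat.le_div_iff_mul_le ht).2 ?_, ?_, ?_, ?_⟩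
  · rw [Nat.succ_eq_add_one, e]
    omega
  · rw [← Nat.cast_mul]
    omega
  · rw [← Nat.cast_mul, e]
    omega
  · rw [← Nat.cast_mul, e]
    omega

open Classical in
/-- many far columns give many anti-concentration events in one gap class -/
theorem slot_det {N : Seminorm ℝ (ℝ × ℝ)} {κ c : ℝ} {φ : ℝ × ℝ} (hC : Corner N κ c φ)
    {G : Measure ℝ} {Λ ζ : ℕ} (hz : Sz N c Λ ζ) (hz2 : 2 * ζ ^ 97006 ≤ 2 ^ ζ) {ω : Env}
    (hg : MG N G Λ ζ ((ζ : ℤ) ^ 120010) ω) {R A Mx : ℕ} (h1 : Mx + 120 ≤ A)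
    (h2 : Mx + A + 10 ≤ R) (h3 : Mx ≤ 3000) (h4 : A ≤ 5000) {xP oP xQ oQ : V}
    (s1 : d ω xP xQ ≤ (ζ : ℝ) ^ 3) (s2 : d ω oP oQ ≤ (ζ : ℝ) ^ 3)
    (h : SlotB κ ζ (2 * R) Mx ω xP oP xQ oQ) :
    ∃ j ≤ ζ, ∃ σ : ℤ, (σ = 1 ∨ σ = -1) ∧ ζ ^ (2 * R) * 2 ^ j ≤ 2 * ζ ^ 97006 ∧
      2 * ζ ^ 120000 / (ζ ^ (2 * R) * 2 ^ j * ζ ^ (2 * A)) ≤ ζ ^ (Mx + 2) *
        ((Finset.range (2 * ζ ^ 120000 / (ζ ^ (2 * R) * 2 ^ j * ζ ^ (2 * A)))).filter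
          (fun s => SlotAC κ Λ ζ (ζ ^ (2 * R) * 2 ^ j) (ζ ^ (2 * R) * 2 ^ j * ζ ^ (2 * A)) σ s
            xQ oQ ω)).card := by
  obtain ⟨p, k, q, l, hp, hq, rfl, rfl, rfl, rfl, tp, tq, hF⟩ := h
  have z100 : 100 ≤ ζ := le_trans (Nat.le_mul_of_pos_right 100 hz.one) hz.lam
  have z0 : 0 < ζ := by omega
  have eT : TT ζ = ((ζ ^ 120000 : ℕ) : ℤ) := by rw [TT, Nat.cast_pow]
  let X : ℕ × ℤ → Finset ℤ := fun a =>
    (Finset.Icc (TT ζ) (2 * TT ζ + (ζ : ℤ) ^ 30000)).filter fun x =>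
      ∃ i ≤ k3 ζ p, ∃ j ≤ k3 ζ q, (p i).1 = x ∧ (q j).1 = x ∧
        ((ζ ^ (2 * R) * 2 ^ a.1 : ℕ) : ℤ) ≤ a.2 * ((p i).2 - (q j).2) ∧
        a.2 * ((p i).2 - (q j).2) ≤ 2 * ((ζ ^ (2 * R) * 2 ^ a.1 : ℕ) : ℤ)
  let K : Finset (ℕ × ℤ) := (Finset.range (ζ + 1) ×ˢ ({1, -1} : Finset ℤ)).filter
    fun a => ζ ^ (2 * R) * 2 ^ a.1 ≤ 2 * ζ ^ 97006
  have hK : K.card ≤ 3 * ζ := by
    refine (Finset.card_filter_le _ _).trans ?_
    rw [Finset.card_product, Finset.card_range]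
    exact (Nat.mul_le_mul_left _ Finset.card_le_two).trans (by omega)
  have hsub : FarN ζ ((ζ : ℤ) ^ (2 * R)) p q ≤ (K.biUnion X).card := by
    refine Finset.card_le_card fun x hx => ?_
    obtain ⟨hx, i, hi, j, hj, a1, a2, a3⟩ := Finset.mem_filter.1 hx
    obtain ⟨m, σ, b1, b2, b3, b4⟩ := SlotDet_class (pow_pos z0 (2 * R))
      (g := (p i).2 - (q j).2) (by rwa [Nat.cast_pow])
    have b5 : ζ ^ (2 * R) * 2 ^ m ≤ 2 * ζ ^ 97006 := by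
      have e := SlotDet_gap (a1.trans a2.symm) (tp.tube i hi).1 (tq.tube j hj).1
      rw [← b4] at e
      have e2 := (Int.cast_le (R := ℝ).2 b2).trans e
      rw [Int.cast_natCast, ← Nat.cast_pow] at e2
      generalize ζ ^ 97006 = a, ζ ^ (2 * R) * 2 ^ m = b at e2 ⊢
      exact_mod_cast e2
    have b6 : m ≤ ζ := (Nat.pow_le_pow_iff_right one_lt_two).1
      ((Nat.le_mul_of_pos_left _ (pow_pos z0 (2 * R))).trans (b5.trans hz2))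
    refine Finset.mem_biUnion.2 ⟨(m, σ), Finset.mem_filter.2 ⟨Finset.mem_product.2
      ⟨Finset.mem_range.2 (Nat.lt_succ_of_le b6), ?_⟩, b5⟩,
      Finset.mem_filter.2 ⟨hx, i, hi, j, hj, a1, a2, b2, b3⟩⟩
    rw [Finset.mem_insert, Finset.mem_singleton]
    exact b1
  have hne : K.Nonempty := by
    refine Finset.nonempty_iff_ne_empty.2 fun h0 => ?_
    rw [h0, Finset.biUnion_empty, Finset.card_empty, Nat.le_zero] at hsub
    rw [hsub, mul_zero] at hF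
    exact absurd hF (not_le.2 (pow_pos z0 _))
  obtain ⟨⟨m, σ⟩, hm, hmax⟩ := Finset.exists_max_image K (fun a => (X a).card) hne
  have hn : ζ ^ 120000 ≤ ζ ^ Mx * (3 * ζ * (X (m, σ)).card) :=
    hF.trans (Nat.mul_le_mul_left _ (hsub.trans ((Finset.card_biUnion_le_card_mul _ _ _
      hmax).trans (Nat.mul_le_mul_right _ hK))))
  obtain ⟨hm, hγ'⟩ := Finset.mem_filter.1 hm
  obtain ⟨hm, hσ⟩ := Finset.mem_product.1 hm
  rw [Finset.mem_insert, Finset.mem_singleton] at hσ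
  refine ⟨m, Nat.le_of_lt_succ (Finset.mem_range.1 hm), σ, hσ, hγ', ?_⟩
  have hX : ∀ x ∈ X (m, σ), (TT ζ ≤ x ∧ x ≤ 2 * TT ζ + (ζ : ℤ) ^ 30000) ∧
      ∃ i ≤ k3 ζ p, ∃ j ≤ k3 ζ q, (p i).1 = x ∧ (q j).1 = x ∧
        ((ζ ^ (2 * R) * 2 ^ m : ℕ) : ℤ) ≤ σ * ((p i).2 - (q j).2) ∧
        σ * ((p i).2 - (q j).2) ≤ 2 * ((ζ ^ (2 * R) * 2 ^ m : ℕ) : ℤ) := fun x hx =>
    ⟨Finset.mem_Icc.1 (Finset.mem_filter.1 hx).1, (Finset.mem_filter.1 hx).2⟩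
  have hr : ζ ^ (2 * R) ≤ ζ ^ (2 * R) * 2 ^ m := Nat.le_mul_of_pos_right _ (by positivity)
  dsimp only at hγ'
  generalize X (m, σ) = Y at hn hX
  generalize ζ ^ (2 * R) * 2 ^ m = γ at hγ' hX hr ⊢
  have hγ : ζ ≤ γ := (Nat.le_self_pow (by omega) ζ).trans hr
  have hU : 2 ≤ ζ ^ (2 * A) := le_trans (by omega) (Nat.le_self_pow (by omega) ζ)
  have hγt : 2 * γ ≤ γ * ζ ^ (2 * A) := by
    rw [mul_comm]
    exact Nat.mul_le_mul_left _ hU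
  have t0 : 0 < γ * ζ ^ (2 * A) := by omega
  have ht : γ * ζ ^ (2 * A) ≤ ζ ^ 110000 := by
    refine (Nat.mul_le_mul_right _ hγ').trans ?_
    rw [mul_assoc, ← pow_add]
    exact SlotDet_pow z100 (by norm_num) (by omega)
  have hu : ζ ^ (R + A) ≤ Nat.sqrt (γ * ζ ^ (2 * A)) := by
    refine Nat.le_sqrt.2 (le_trans (le_of_eq ?_) (Nat.mul_le_mul_right _ hr))
    rw [← pow_add, ← pow_add]
    congr 1
    ring
  have hρ : ζ ^ 2 ≤ Nat.sqrt (γ * ζ ^ (2 * A)) + 1 :=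
    (Nat.pow_le_pow_right z0 (by omega)).trans (hu.trans (Nat.le_succ _))
  have htρ := (Nat.lt_succ_sqrt' (γ * ζ ^ (2 * A))).le
  have bp := slot_bad hC hz hg hp tp (γ := γ) (by omega) (by omega) ht hρ htρ
  have bq := slot_bad hC hz hg hq tq (γ := γ) (by omega) (by omega) ht hρ htρ
  rw [pow_add]
  refine SlotDet_arith (u := ζ ^ (R + A)) (by omega) t0 hn ?_ (Nat.div_mul_le_self _ _) bp bq
    ?_ ?_ ?_ ?_
  · refine (SlotDet_count (TT ζ) _ γ _ Y (_ ∪ _ ∪ _) fun x hx => ?_).trans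
      (Nat.add_le_add_left (Nat.mul_le_mul_right _ ((Finset.card_union_le _ _).trans
        (Nat.add_le_add_right (Finset.card_union_le _ _) _))) _)
    obtain ⟨⟨a1, a2⟩, i, hi, j, hj, a3, a4, a5, a6⟩ := hX x hx
    rw [eT, ← Nat.cast_pow] at a2
    rw [eT] at a1
    obtain ⟨s, hs, b1, b2, b3⟩ := SlotDet_slot t0 ht
      (SlotDet_pow z100 (by norm_num) (by norm_num : 30000 + 2 ≤ 120000))
      (SlotDet_pow z100 (by norm_num) (by norm_num : 110000 + 2 ≤ 120000)) a1 a2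
    rw [← eT] at b1 b2 b3
    refine ⟨s, hs, b1, b2, (lt_or_ge _ x).imp_right fun b4 => ?_⟩
    have hs' := Finset.mem_range.2 hs
    rw [Finset.mem_union, Finset.mem_union, Finset.mem_filter, Finset.mem_filter,
      Finset.mem_filter]
    by_cases gp : GoodSlot κ ζ γ (γ * ζ ^ (2 * A)) p s
    · by_cases gq : GoodSlot κ ζ γ (γ * ζ ^ (2 * A)) q s
      · exact Or.inr ⟨hs', slot_one hC.1 z100 hg hp hq tp tq s1 s2 hγ hγ' hγt b3 gp gq hσ hi hj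
          (a3.trans a4.symm) (a3 ▸ b1) (a3 ▸ b4) a5 a6⟩
      · exact Or.inl (Or.inr ⟨hs', b3, gq⟩)
    · exact Or.inl (Or.inl ⟨hs', b3, gp⟩)
  · rw [← pow_succ']
    exact SlotDet_pow z100 (by norm_num) (by omega)
  · rw [← pow_succ', ← pow_add, ← pow_add]
    exact SlotDet_pow z100 (by norm_num) (by omega)
  · have e1 := Nat.sqrt_le (γ * ζ ^ (2 * A))
    have e2 : 1 ≤ Nat.sqrt (γ * ζ ^ (2 * A)) := (Nat.one_le_pow _ _ z0).trans hu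
    have e3 := Nat.mul_le_mul_left (Nat.sqrt (γ * ζ ^ (2 * A)) + 1) hu
    refine e3.trans (le_trans ?_ (Nat.mul_le_mul_left 2 e1))
    generalize Nat.sqrt (γ * ζ ^ (2 * A)) = w at e2 ⊢
    nlinarith only [e2]
  · rw [← pow_add, ← pow_add]
    exact SlotDet_pow z100 (by norm_num) (by omega)

end Pool.Agent.FPP
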