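import Pool.Agent.P.MP_ecb9f8_pr.SlotDet
import Pool.Agent.P.MP_ecb9f8_pr.ACgen
import Pool.Agent.P.MP_ecb9f8_pr.ProbT

open MeasureTheory ProbabilityTheory Set Filter

noncomputable section

namespace Pool.Agent.FPP

theorem SlotProb_nmul {z c a b : ℕ} (hz : 1 ≤ z) (hc : c ≤ z) (hab : a + 1 ≤ b) :
    c * z ^ a ≤ z ^ b := by
  calc c * z ^ a ≤ z * z ^ a := Nat.mul_le_mul_right _ hc
    _ = z ^ (a + 1) := (pow_succ' _ _).symm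
    _ ≤ z ^ b := Nat.pow_le_pow_right hz hab

theorem SlotProb_rmul {z c : ℝ} {a b : ℕ} (hz : 1 ≤ z) (hc : c ≤ z) (hab : a + 1 ≤ b) :
    c * z ^ a ≤ z ^ b := by
  have h0 : (0 : ℝ) ≤ z ^ a := by positivity
  calc c * z ^ a ≤ z * z ^ a := mul_le_mul_of_nonneg_right hc h0
    _ = z ^ (a + 1) := (pow_succ' _ _).symm
    _ ≤ z ^ b := pow_le_pow_right₀ hz hab

/-- `c z^a / z^b ≤ 1 / z^e` -/
theorem SlotProb_frac {z c : ℝ} {a b e : ℕ} (hz : 1 ≤ z) (hc : c ≤ z) (hab : a + e + 1 ≤ b) :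
    c * z ^ a * (z ^ b)⁻¹ ≤ (z ^ e)⁻¹ := by
  have hz0 : 0 < z := by linarith
  have h1 : c * z ^ (a + e) ≤ z ^ b := SlotProb_rmul hz hc hab
  have hb : 0 < z ^ b := by positivity
  have he : 0 < z ^ e := by positivity
  rw [pow_add] at h1
  rw [← div_eq_mul_inv, ← one_div, div_le_div_iff₀ hb he]
  linarith [mul_assoc c (z ^ a) (z ^ e)]

theorem SlotProb_inv {z : ℝ} {b e : ℕ} (hz : 1 ≤ z) (hab : e ≤ b) :
    (z ^ b)⁻¹ ≤ (z ^ e)⁻¹ := by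
  have hz0 : 0 < z := by linarith
  exact inv_anti₀ (by positivity) (pow_le_pow_right₀ hz hab)

theorem SlotProb_half {z : ℝ} {b e : ℕ} (hz : 4 ≤ z) (hab : e + 1 ≤ b) :
    4 * (z ^ b)⁻¹ ≤ (z ^ e)⁻¹ := by
  have h := SlotProb_frac (z := z) (c := 4) (a := 0) (b := b) (e := e) (by linarith) hz
    (by omega)
  simpa using h

theorem SlotProb_ev2 (k : ℕ) : ∀ᶠ z : ℕ in atTop, 2 * z ^ k ≤ 2 ^ z := by
  have h := ev_exp (c := Real.log 2) (Real.log_pos (by norm_num)) 2 k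
  filter_upwards [h, eventually_ge_atTop 1] with z hz h1
  have hz0 : (0 : ℝ) < z := by exact_mod_cast h1
  have e : Real.exp (-(Real.log 2 * z)) = ((2 : ℝ) ^ z)⁻¹ := by
    rw [Real.exp_neg, mul_comm, Real.exp_nat_mul, Real.exp_log (by norm_num)]
  rw [e] at hz
  have h2 : (0 : ℝ) < 2 ^ z := by positivity
  have h3 : (0 : ℝ) < (z : ℝ) ^ k := by positivity
  rw [← div_eq_mul_inv, ← one_div, div_le_div_iff₀ h2 h3, one_mul] at hz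
  exact_mod_cast hz

theorem SlotProb_cardY {z k a : ℕ} (hz : 23 ≤ z) (h : k + 1 ≤ a) :
    (Finset.Icc (-(11 * (z : ℤ) ^ k)) (11 * (z : ℤ) ^ k)).card ≤ z ^ a := by
  have h1 : 23 * z ^ k ≤ z ^ a := SlotProb_nmul (by omega) hz h
  have h2 : 1 ≤ z ^ k := Nat.one_le_pow _ _ (by omega)
  rw [Int.card_Icc]
  have e : ((z : ℤ) ^ k) = ((z ^ k : ℕ) : ℤ) := by push_cast; rfl
  rw [e]
  generalize z ^ k = X at *
  generalize z ^ a = Y at *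
  omega

variable (G : Measure ℝ) [IsProbabilityMeasure G]

theorem slotAC_prob (hG : Law G) (Λ A : ℕ) (hA : 6 ≤ A) :
    ∀ᶠ ζ : ℕ in atTop, ∀ (κ : ℝ) (γ s : ℕ) (σ : ℤ) (x o : V), ζ ≤ γ → γ ≤ 2 * ζ ^ 97006 →
      PP G {ω | SlotAC κ Λ ζ γ (γ * ζ ^ (2 * A)) σ s x o ω} ≤
        ENNReal.ofReal (((ζ : ℝ) ^ 3900)⁻¹ + (ζ : ℝ) ^ 107 / (ζ : ℝ) ^ A) := by
  filter_upwards [ac_gen G hG (2 * Λ) 97008, eventually_ge_atTop 100] with ζ hac hz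
  intro κ γ s σ x o hγ1 hγ2
  have hz1 : 1 ≤ ζ := by omega
  have hzr : (100 : ℝ) ≤ ζ := by exact_mod_cast hz
  have hzr1 : (1 : ℝ) ≤ ζ := by linarith
  have hzr0 : (0 : ℝ) < ζ := by linarith
  obtain ⟨B, rfl⟩ : ∃ B, A = B + 6 := ⟨A - 6, by omega⟩
  have hX : 1 ≤ ζ ^ (2 * B + 8) := Nat.one_le_pow _ _ (by omega)
  have hY : 49 * ζ ^ (2 * B + 8) ≤ ζ ^ (2 * (B + 6)) :=
    SlotProb_nmul hz1 (by omega) (by omega)
  obtain ⟨u, hu⟩ : ∃ u, ζ ^ (2 * (B + 6)) = u + 1 := ⟨ζ ^ (2 * (B + 6)) - 1, by omega⟩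
  have hu48 : 48 * ζ ^ (2 * B + 8) ≤ u := by omega
  have hb : γ * ζ ^ (2 * (B + 6)) - γ = γ * u := by
    rw [hu, Nat.mul_add, mul_one, Nat.add_sub_cancel]
  have hu1 : 1 ≤ u := by omega
  have hγ0 : 100 ≤ γ := by omega
  have hγr : (100 : ℝ) ≤ γ := by exact_mod_cast hγ0
  have hw : ∀ y : ℤ, hiS γ σ y - loS γ σ y + 1 ≤ ((3 * γ : ℕ) : ℝ) := by
    intro y
    unfold hiS loS
    push_cast
    linarith
  have hcY := SlotProb_cardY (z := ζ) (k := 97006) (a := 97008) (by omega) (by norm_num)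
  have key := hac (Finset.Icc (-(11 * (ζ : ℤ) ^ 97006)) (11 * (ζ : ℤ) ^ 97006))
    (fun y => Band κ (alS ζ (γ * ζ ^ (2 * (B + 6))) s)
      (alS ζ (γ * ζ ^ (2 * (B + 6))) (s + 1) - (γ : ℤ)) (loS γ σ y) (hiS γ σ y))
    (fun y => Seg κ (alS ζ (γ * ζ ^ (2 * (B + 6))) s) (loS γ σ y) (hiS γ σ y))
    (fun q => ⌊10 * lat κ (rv (q (fi q (alS ζ (γ * ζ ^ (2 * (B + 6))) s)))) / γ⌋) x o
    (γ * ζ ^ (2 * (B + 6)) - γ) (ζ ^ B) (γ * u * (3 * γ)) (4 * (ζ : ℝ) ^ 3) (((ζ : ℝ) ^ 101)⁻¹)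
    (by rw [hb]; exact hγ1.trans (Nat.le_mul_of_pos_right _ hu1))
    (Nat.one_le_pow _ _ (by omega))
    (Nat.mul_pos (Nat.mul_pos (by omega) hu1) (by omega))
    (by positivity) (by positivity) hcY
    (by
      intro y _
      refine ⟨?_, ?_⟩
      · refine (card_seg_le (hw y)).trans ?_
        have h6 : 6 * ζ ^ 97006 ≤ ζ ^ 97008 := SlotProb_nmul hz1 (by omega) (by norm_num)
        generalize ζ ^ 97006 = P at *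
        generalize ζ ^ 97008 = Q at *
        omega
      · refine card_band_le ?_ (hw y)
        unfold alS
        rw [hu]
        push_cast
        apply le_of_eq
        ring)
    (by
      rw [hb]
      have h48 : (48 : ℝ) * (ζ : ℝ) ^ (2 * B + 8) ≤ u := by exact_mod_cast hu48
      have e : (((ζ ^ B : ℕ) : ℝ) * (4 * (ζ : ℝ) ^ 3) * ζ) ^ 2 = 16 * (ζ : ℝ) ^ (2 * B + 8) := by
        push_cast
        ring
      rw [e]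
      push_cast
      have hur : (0 : ℝ) ≤ u := Nat.cast_nonneg u
      have hγ' : (0 : ℝ) ≤ γ := Nat.cast_nonneg γ
      generalize (ζ : ℝ) ^ (2 * B + 8) = P at *
      have h3 : (0 : ℝ) ≤ (γ : ℝ) * γ * u := by positivity
      nlinarith [mul_le_mul_of_nonneg_left h48 h3])
  refine le_trans key (ENNReal.ofReal_le_ofReal ?_)
  have hc : ((Finset.Icc (-(11 * (ζ : ℤ) ^ 97006)) (11 * (ζ : ℤ) ^ 97006)).card : ℝ) ≤
      (ζ : ℝ) ^ 97008 := by exact_mod_cast hcY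
  have e1 : (((ζ : ℝ) ^ 101)⁻¹) ^ 1000 = ((ζ : ℝ) ^ 101000)⁻¹ := by
    rw [inv_pow, ← pow_mul]
  have e2 : (((ζ ^ B : ℕ) : ℝ) * ((ζ : ℝ) ^ 101)⁻¹)⁻¹ = (ζ : ℝ) ^ 107 / (ζ : ℝ) ^ (B + 6) := by
    have e3 : (ζ : ℝ) ^ 107 = (ζ : ℝ) ^ 101 * (ζ : ℝ) ^ 6 := by rw [← pow_add]
    rw [e3, pow_add, Nat.cast_pow]
    have p1 : (0 : ℝ) < (ζ : ℝ) ^ 101 := by positivity
    have p2 : (0 : ℝ) < (ζ : ℝ) ^ 6 := by positivity
    have p3 : (0 : ℝ) < (ζ : ℝ) ^ B := by positivity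
    generalize (ζ : ℝ) ^ 101 = P at *
    generalize (ζ : ℝ) ^ 6 = Q at *
    generalize (ζ : ℝ) ^ B = R at *
    field_simp
  rw [e1, e2]
  have f1 : 2 * (ζ : ℝ) ^ 97008 * ((ζ : ℝ) ^ 101000)⁻¹ ≤ ((ζ : ℝ) ^ 3901)⁻¹ :=
    SlotProb_frac hzr1 (by linarith) (by norm_num)
  have f2 : ((ζ : ℝ) ^ 5000)⁻¹ ≤ ((ζ : ℝ) ^ 3901)⁻¹ := SlotProb_inv hzr1 (by norm_num)
  have f3 : 4 * ((ζ : ℝ) ^ 3901)⁻¹ ≤ ((ζ : ℝ) ^ 3900)⁻¹ :=
    SlotProb_half (by linarith) (by norm_num)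
  have f4 : (0 : ℝ) ≤ ((ζ : ℝ) ^ 101000)⁻¹ := by positivity
  have f5 : (0 : ℝ) ≤ ((ζ : ℝ) ^ 3901)⁻¹ := by positivity
  have f6 := mul_le_mul_of_nonneg_right hc f4
  generalize ((Finset.Icc (-(11 * (ζ : ℤ) ^ 97006)) (11 * (ζ : ℤ) ^ 97006)).card : ℝ) = C at *
  generalize ((ζ : ℝ) ^ 101000)⁻¹ = P1 at *
  generalize ((ζ : ℝ) ^ 3901)⁻¹ = P2 at *
  generalize ((ζ : ℝ) ^ 3900)⁻¹ = P3 at *
  generalize ((ζ : ℝ) ^ 5000)⁻¹ = P4 at *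
  generalize (ζ : ℝ) ^ 97008 = P5 at *
  generalize (ζ : ℝ) ^ 107 / (ζ : ℝ) ^ (B + 6) = P6 at *
  nlinarith

theorem ac0_prob (hG : Law G) (Λ : ℕ) :
    ∀ᶠ ζ : ℕ in atTop, ∀ (κ : ℝ) (x o : V),
      PP G {ω | AC0 κ Λ ζ x o ω} ≤ ENNReal.ofReal (((ζ : ℝ) ^ 10)⁻¹) := by
  filter_upwards [ac_gen G hG (2 * Λ) 97008, eventually_ge_atTop 100] with ζ hac hz
  intro κ x o
  have hz1 : 1 ≤ ζ := by omega
  have hzr : (100 : ℝ) ≤ ζ := by exact_mod_cast hz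
  have hzr1 : (1 : ℝ) ≤ ζ := by linarith
  have hzr0 : (0 : ℝ) < ζ := by linarith
  have hw : (ζ : ℝ) ^ 97003 - -(ζ : ℝ) ^ 97003 + 1 ≤ ((3 * ζ ^ 97003 : ℕ) : ℝ) := by
    have h1 : (1 : ℝ) ≤ (ζ : ℝ) ^ 97003 := one_le_pow₀ hzr1
    rw [Nat.cast_mul, Nat.cast_pow]
    generalize (ζ : ℝ) ^ 97003 = P at *
    push_cast
    linarith
  have key := hac {0}
    (fun _ => Band κ (5 * TT ζ) (6 * TT ζ) (-(ζ : ℝ) ^ 97003) ((ζ : ℝ) ^ 97003))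
    (fun _ => Seg κ (5 * TT ζ) (-(ζ : ℝ) ^ 97003) ((ζ : ℝ) ^ 97003)) (fun _ => 0) x o
    (ζ ^ 120000) (ζ ^ 11000) (ζ ^ 120000 * (3 * ζ ^ 97003)) (4 * (ζ : ℝ) ^ 3) (((ζ : ℝ) ^ 1)⁻¹)
    (Nat.le_self_pow (by norm_num) ζ)
    (Nat.one_le_pow _ _ (by omega))
    (Nat.mul_pos (Nat.pow_pos (by omega)) (Nat.mul_pos (by norm_num) (Nat.pow_pos (by omega))))
    (by positivity) (by positivity)
    (by rw [Finset.card_singleton]; exact Nat.one_le_pow _ _ (by omega))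
    (by
      intro y _
      refine ⟨?_, ?_⟩
      · exact (card_seg_le hw).trans (SlotProb_nmul hz1 (by omega) (by norm_num))
      · refine card_band_le ?_ hw
        unfold TT
        rw [Nat.cast_pow]
        generalize (ζ : ℤ) ^ 120000 = P
        omega)
    (by
      have h48 : (48 : ℝ) * (ζ : ℝ) ^ 119011 ≤ (ζ : ℝ) ^ 120000 :=
        SlotProb_rmul hzr1 (by linarith) (by norm_num)
      have e : (ζ : ℝ) ^ 119011 = ((ζ : ℝ) ^ 11000) ^ 2 * ((ζ : ℝ) ^ 3) ^ 2 * (ζ : ℝ) ^ 2 *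
          (ζ : ℝ) ^ 97003 := by
        rw [← pow_mul, ← pow_mul, ← pow_add, ← pow_add, ← pow_add]
      rw [e] at h48
      rw [Nat.cast_mul, Nat.cast_mul, Nat.cast_pow, Nat.cast_pow, Nat.cast_pow]
      have p1 : (0 : ℝ) ≤ (ζ : ℝ) ^ 120000 := by positivity
      generalize (ζ : ℝ) ^ 120000 = P at *
      generalize (ζ : ℝ) ^ 11000 = Q at *
      generalize (ζ : ℝ) ^ 97003 = R at *
      generalize (ζ : ℝ) ^ 3 = S at *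
      push_cast
      nlinarith [mul_le_mul_of_nonneg_left h48 p1])
  refine le_trans key (ENNReal.ofReal_le_ofReal ?_)
  have e1 : (((ζ : ℝ) ^ 1)⁻¹) ^ 1000 = ((ζ : ℝ) ^ 1000)⁻¹ := by
    rw [inv_pow, ← pow_mul]
  have e2 : (((ζ ^ 11000 : ℕ) : ℝ) * ((ζ : ℝ) ^ 1)⁻¹)⁻¹ =
      1 * (ζ : ℝ) ^ 1 * ((ζ : ℝ) ^ 11000)⁻¹ := by
    rw [Nat.cast_pow, mul_inv, inv_inv, one_mul, mul_comm]
  rw [e1, e2, Finset.card_singleton]
  have f1 : 1 * (ζ : ℝ) ^ 1 * ((ζ : ℝ) ^ 11000)⁻¹ ≤ ((ζ : ℝ) ^ 11)⁻¹ :=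
    SlotProb_frac hzr1 hzr1 (by norm_num)
  have f2 : ((ζ : ℝ) ^ 5000)⁻¹ ≤ ((ζ : ℝ) ^ 11)⁻¹ := SlotProb_inv hzr1 (by norm_num)
  have f3 : ((ζ : ℝ) ^ 1000)⁻¹ ≤ ((ζ : ℝ) ^ 11)⁻¹ := SlotProb_inv hzr1 (by norm_num)
  have f4 : 4 * ((ζ : ℝ) ^ 11)⁻¹ ≤ ((ζ : ℝ) ^ 10)⁻¹ :=
    SlotProb_half (by linarith) (by norm_num)
  generalize 1 * (ζ : ℝ) ^ 1 * ((ζ : ℝ) ^ 11000)⁻¹ = P1 at *
  generalize ((ζ : ℝ) ^ 5000)⁻¹ = P2 at *
  generalize ((ζ : ℝ) ^ 1000)⁻¹ = P3 at *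
  generalize ((ζ : ℝ) ^ 11)⁻¹ = P4 at *
  generalize ((ζ : ℝ) ^ 10)⁻¹ = P5 at *
  push_cast
  linarith

open Classical in
/-- the first moment bound for one class -/
theorem SlotProb_class {Ω : Type*} [MeasurableSpace Ω] (μ : Measure Ω) (S n : ℕ) (hS : 1 ≤ S)
    (A : ℕ → Set Ω) (mA : ∀ s, MeasurableSet (A s)) {ε : ℝ} (hε : 0 ≤ ε)
    (hA : ∀ s, μ (A s) ≤ ENNReal.ofReal ε) :
    μ {ω | S ≤ n * ((Finset.range S).filter (fun s => ω ∈ A s)).card} ≤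
      ENNReal.ofReal (n * ε) := by
  have h := measure_count_le μ (Finset.range S) A (fun s _ => mA s)
    {ω | S ≤ n * ((Finset.range S).filter (fun s => ω ∈ A s)).card} S n (fun ω hω => hω)
  have h2 : ∑ s ∈ Finset.range S, μ (A s) ≤ (S : ENNReal) * ENNReal.ofReal ε := by
    refine (Finset.sum_le_card_nsmul _ _ _ (fun s _ => hA s)).trans ?_
    rw [Finset.card_range, nsmul_eq_mul]
  have h3 : (S : ENNReal) * μ {ω | S ≤ n * ((Finset.range S).filter (fun s => ω ∈ A s)).card} ≤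
      (S : ENNReal) * ((n : ENNReal) * ENNReal.ofReal ε) := by
    refine h.trans ?_
    rw [mul_left_comm]
    exact mul_le_mul_right h2 _
  have hS0 : (S : ENNReal) ≠ 0 := by exact_mod_cast (by omega : S ≠ 0)
  have h4 := (ENNReal.mul_le_mul_iff_right hS0 (ENNReal.natCast_ne_top S)).1 h3
  rw [ENNReal.ofReal_mul (Nat.cast_nonneg n), ENNReal.ofReal_natCast]
  exact h4

theorem slot_prob (hG : Law G) {N : Seminorm ℝ (ℝ × ℝ)} {κ c : ℝ} {φ : ℝ × ℝ} (hc : 0 < c)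
    (hC : Corner N κ c φ) {Λ : ℕ} (hΛ : 1 ≤ Λ) {R A Mx : ℕ} (h1 : Mx + 120 ≤ A)
    (h2 : Mx + A + 10 ≤ R) (h3 : Mx ≤ 3000) (h4 : A ≤ 5000) :
    ∀ᶠ ζ : ℕ in atTop, ∀ xP oP xQ oQ : V,
      PP G {ω | MG N G Λ ζ ((ζ : ℤ) ^ 120010) ω ∧ d ω xP xQ ≤ (ζ : ℝ) ^ 3 ∧
        d ω oP oQ ≤ (ζ : ℝ) ^ 3 ∧ SlotB κ ζ (2 * R) Mx ω xP oP xQ oQ} ≤
        ENNReal.ofReal (((ζ : ℝ) ^ 5)⁻¹) := by
  classical
  filter_upwards [slotAC_prob G hG Λ A (by omega), eventually_sz N hc hΛ, SlotProb_ev2 97006,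
    eventually_ge_atTop 100] with ζ hac hsz hz2 hz
  intro xP oP xQ oQ
  have hz1 : 1 ≤ ζ := by omega
  have hzr : (100 : ℝ) ≤ ζ := by exact_mod_cast hz
  have hzr1 : (1 : ℝ) ≤ ζ := by linarith
  have hzr0 : (0 : ℝ) < ζ := by linarith
  let B : ℕ × ℤ → Set Env := fun js => {ω | ζ ^ (2 * R) * 2 ^ js.1 ≤ 2 * ζ ^ 97006 ∧
      2 * ζ ^ 120000 / (ζ ^ (2 * R) * 2 ^ js.1 * ζ ^ (2 * A)) ≤ ζ ^ (Mx + 2) *
        ((Finset.range (2 * ζ ^ 120000 / (ζ ^ (2 * R) * 2 ^ js.1 * ζ ^ (2 * A)))).filter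
          (fun s => SlotAC κ Λ ζ (ζ ^ (2 * R) * 2 ^ js.1)
            (ζ ^ (2 * R) * 2 ^ js.1 * ζ ^ (2 * A)) js.2 s xQ oQ ω)).card}
  have hB : ∀ js : ℕ × ℤ, PP G (B js) ≤ ENNReal.ofReal (((ζ : ℝ) ^ 9)⁻¹) := by
    intro js
    by_cases hγ : ζ ^ (2 * R) * 2 ^ js.1 ≤ 2 * ζ ^ 97006
    · have hγ1 : ζ ≤ ζ ^ (2 * R) * 2 ^ js.1 :=
        (Nat.le_self_pow (by omega) ζ).trans (Nat.le_mul_of_pos_right _ (Nat.pow_pos (by omega)))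
      have hS : 1 ≤ 2 * ζ ^ 120000 / (ζ ^ (2 * R) * 2 ^ js.1 * ζ ^ (2 * A)) := by
        rw [Nat.le_div_iff_mul_le (Nat.mul_pos (by omega) (Nat.pow_pos (by omega))), one_mul]
        calc ζ ^ (2 * R) * 2 ^ js.1 * ζ ^ (2 * A) ≤ 2 * ζ ^ 97006 * ζ ^ (2 * A) :=
              Nat.mul_le_mul_right _ hγ
          _ = 2 * ζ ^ (97006 + 2 * A) := by rw [mul_assoc, ← pow_add]
          _ ≤ 2 * ζ ^ 120000 := Nat.mul_le_mul_left _ (Nat.pow_le_pow_right hz1 (by omega))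
      have hcl := SlotProb_class (PP G) _ (ζ ^ (Mx + 2)) hS
        (fun s => {ω | SlotAC κ Λ ζ (ζ ^ (2 * R) * 2 ^ js.1)
            (ζ ^ (2 * R) * 2 ^ js.1 * ζ ^ (2 * A)) js.2 s xQ oQ ω})
        (fun s => measurableSet_ACev _ _ _ _ _ _ _ _ _)
        (ε := ((ζ : ℝ) ^ 3900)⁻¹ + (ζ : ℝ) ^ 107 / (ζ : ℝ) ^ A) (by positivity)
        (fun s => hac κ _ s js.2 xQ oQ hγ1 hγ)
      refine le_trans (measure_mono ?_) (hcl.trans (ENNReal.ofReal_le_ofReal ?_))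
      · intro ω hω
        have := hω.2
        simp only [Set.mem_ofPred_eq]
        convert this using 3
      · have f1 : 1 * (ζ : ℝ) ^ (Mx + 2) * ((ζ : ℝ) ^ 3900)⁻¹ ≤ ((ζ : ℝ) ^ 10)⁻¹ :=
          SlotProb_frac hzr1 hzr1 (by omega)
        have f2 : 1 * (ζ : ℝ) ^ (Mx + 2 + 107) * ((ζ : ℝ) ^ A)⁻¹ ≤ ((ζ : ℝ) ^ 10)⁻¹ :=
          SlotProb_frac hzr1 hzr1 (by omega)
        have f3 : 4 * ((ζ : ℝ) ^ 10)⁻¹ ≤ ((ζ : ℝ) ^ 9)⁻¹ :=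
          SlotProb_half (by linarith) (by norm_num)
        have f4 : (0 : ℝ) ≤ ((ζ : ℝ) ^ 10)⁻¹ := by positivity
        rw [pow_add (ζ : ℝ) (Mx + 2) 107] at f2
        rw [Nat.cast_pow, div_eq_mul_inv]
        generalize (ζ : ℝ) ^ (Mx + 2) = P1 at *
        generalize ((ζ : ℝ) ^ 3900)⁻¹ = P2 at *
        generalize ((ζ : ℝ) ^ A)⁻¹ = P3 at *
        generalize (ζ : ℝ) ^ 107 = P4 at *
        generalize ((ζ : ℝ) ^ 10)⁻¹ = P5 at *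
        generalize ((ζ : ℝ) ^ 9)⁻¹ = P6 at *
        nlinarith
    · have : B js = ∅ := Set.eq_empty_of_forall_notMem (fun ω hω => hγ hω.1)
      rw [this, measure_empty]
      exact zero_le
  have hsub : {ω | MG N G Λ ζ ((ζ : ℤ) ^ 120010) ω ∧ d ω xP xQ ≤ (ζ : ℝ) ^ 3 ∧
        d ω oP oQ ≤ (ζ : ℝ) ^ 3 ∧ SlotB κ ζ (2 * R) Mx ω xP oP xQ oQ} ⊆
      ⋃ js ∈ (Finset.range (ζ + 1)) ×ˢ ({1, -1} : Finset ℤ), B js := by
    rintro ω ⟨hg, s1, s2, hs⟩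
    obtain ⟨j, hj, σ, hσ, hj1, hj2⟩ := slot_det hC hsz hz2 hg h1 h2 h3 h4 s1 s2 hs
    simp only [Set.mem_iUnion]
    refine ⟨(j, σ), ?_, hj1, ?_⟩
    · rw [Finset.mem_product, Finset.mem_range, Finset.mem_insert, Finset.mem_singleton]
      exact ⟨by omega, hσ⟩
    · convert hj2 using 3
  refine (measure_mono hsub).trans ((measure_biUnion_finset_le _ _).trans ?_)
  refine (Finset.sum_le_card_nsmul _ _ _ (fun js _ => hB js)).trans ?_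
  have hcard : ((Finset.range (ζ + 1)) ×ˢ ({1, -1} : Finset ℤ)).card = (ζ + 1) * 2 := by
    rw [Finset.card_product, Finset.card_range, Finset.card_pair (by norm_num)]
  rw [hcard, nsmul_eq_mul, ← ENNReal.ofReal_natCast,
    ← ENNReal.ofReal_mul (Nat.cast_nonneg _)]
  refine ENNReal.ofReal_le_ofReal ?_
  have f1 : 4 * (ζ : ℝ) ^ 1 * ((ζ : ℝ) ^ 9)⁻¹ ≤ ((ζ : ℝ) ^ 5)⁻¹ :=
    SlotProb_frac hzr1 (by linarith) (by norm_num)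
  have f2 : (0 : ℝ) ≤ ((ζ : ℝ) ^ 9)⁻¹ := by positivity
  refine le_trans (mul_le_mul_of_nonneg_right ?_ f2) f1
  push_cast
  linarith

end Pool.Agent.FPP
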