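import Mathlib

noncomputable section

namespace Pool.Agent.FPP

/-- the passage time `T(x, y)`: the infimum over nearest-neighbour walks from `x` to `y` in the
square lattice of the sum of the weights `t e` of the edges of the walk -/
def passage (t : Sym2 (ℤ × ℤ) → ℝ) (x y : ℤ × ℤ) : ℝ :=
  ⨅ p : (SimpleGraph.boxProd (SimpleGraph.hasse ℤ) (SimpleGraph.hasse ℤ)).Walk x y,
    (p.edges.map t).sum

end Pool.Agent.FPP
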