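import Pool.Agent.P.MP_ecb9f8_pr.AttDet2

open MeasureTheory ProbabilityTheory Set Filter

noncomputable section

namespace Pool.Agent.FPP

/-- first visits of two columns of the strip -/
theorem Thr2L_two {b : ℤ} (hb : b = 0 ∨ b = 1) {z : ℕ} {p : ℕ → V} {k : ℕ} (hc : Cls2 b z p k)
    {a a' : ℤ} (h1 : cA2 z ≤ a) (hab : a ≤ a') (h2 : a' ≤ cB2 z) :
    fib b p a ≤ fib b p a' ∧ fib b p a' ≤ k ∧ p (fib b p a) = pt b a (htb b p a) ∧
      p (fib b p a') = pt b a' (htb b p a') ∧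
      |htb b p a' - htb b p a| ≤ a' - a + (z : ℤ) ^ 772 := by
  obtain ⟨hp, hD, hI, hk, -⟩ := hc
  have hch : Chain p k := (mem_paths.1 hp).1
  have ha0 : colb b (p 0) < a := lt_of_lt_of_le hI.2 h1
  have hb0 : colb b (p 0) < a' := lt_of_lt_of_le ha0 hab
  have hbk : a' ≤ colb b (p k) := hk ▸ h2
  have hak : a ≤ colb b (p k) := hab.trans hbk
  obtain ⟨-, -, e1, -, -⟩ := hch.fib_spec hb ha0 hak
  obtain ⟨l2, -, e2, -, -⟩ := hch.fib_spec hb hb0 hbk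
  have hle : fib b p a ≤ fib b p a' := AttDet2_fib_le hb hch ha0 hab hbk
  refine ⟨hle, l2, e1, e2, ?_⟩
  have h3 := hD _ _ hle l2
  rw [e1, e2, colb_pt, colb_pt] at h3
  exact h3

theorem Thr2L_mem (z : ℕ) {i : ℕ} (hi : i ≤ z ^ 220) : cA2 z ≤ a2 z i ∧ a2 z i ≤ cB2 z :=
  ⟨(AttDet2_zero z) ▸ AttDet2_mono z (Nat.zero_le i), (AttDet2_last z) ▸ AttDet2_mono z hi⟩

/-- concentration with radius `2 z ^ a` -/
theorem Thr2L_con {N : Seminorm ℝ (ℝ × ℝ)} {G : Measure ℝ} {Λ z : ℕ} {B : ℤ} {ω : Env}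
    (hz : 100 ≤ z) (hg : MG N G Λ z B ω) {x y : V} (hx : nm x ≤ B) (hy : nm y ≤ B) {a c : ℕ}
    (ha : 1 ≤ a) (hc : c = a * 2) (hxy : nm (y - x) ≤ 3 * (z : ℤ) ^ c) :
    |d ω x y - g G (y - x)| ≤ (z : ℝ) ^ (a + 2) := by
  have hz1 : 1 ≤ z := by omega
  have h0 : z ≤ 2 * z ^ a := by
    have := ThrL_nat_le_pow hz1 ha
    omega
  have h1 := hg.con x y hx hy (2 * z ^ a) h0 (by
    rw [Nat.cast_mul, Nat.cast_pow, mul_pow, ← pow_mul, ← hc]
    have h2 : (0 : ℤ) ≤ (z : ℤ) ^ c := by positivity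
    refine hxy.trans (mul_le_mul_of_nonneg_right ?_ h2)
    norm_num)
  refine h1.trans ?_
  rw [Nat.cast_mul, Nat.cast_pow, Nat.cast_ofNat, mul_left_comm, ← pow_succ']
  exact ThrL_rmul_pow_le hz1 (by exact_mod_cast (show 2 ≤ z by omega)) le_rfl

theorem Thr2L_nm_pt {b : ℤ} (hb : b = 0 ∨ b = 1) {a y r s : ℤ} (h1 : |a| ≤ r) (h2 : |y| ≤ s) :
    nm (pt b a y) ≤ r + s := by
  have h := AttDet2_nm_pt hb (a := 0) (a' := a) (y := 0) (y' := y) (r := r) (s := s)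
    (by rwa [sub_zero]) (by rwa [sub_zero])
  have e : pt b 0 0 = 0 := by simp [pt]
  rwa [e, sub_zero] at h

theorem Thr2L_abs {z : ℕ} {a : ℤ} (h1 : cA2 z ≤ a) (h2 : a ≤ cB2 z) :
    |a| ≤ 4 * (z : ℤ) ^ 1020 := by
  unfold cA2 at h1
  unfold cB2 at h2
  have h0 : (0 : ℤ) ≤ (z : ℤ) ^ 1020 := by positivity
  generalize (z : ℤ) ^ 1020 = A at *
  rw [abs_le]
  constructor <;> linarith

theorem thr2_of_mg {b : ℤ} (hb : b = 0 ∨ b = 1) {N : Seminorm ℝ (ℝ × ℝ)} (G : Measure ℝ)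
    [IsProbabilityMeasure G] (hG : Law G) {Λ z : ℕ} (hz : 100 ≤ z) {ω : Env}
    (hg : MG N G Λ z ((z : ℤ) ^ 1310) ω) {p : ℕ → V} {k : ℕ} (hc : Cls2 b z p k)
    (hp : Geo ω p k) : Thr2 b G z (htb b p) (lam2 b z ω p) := by
  have hz1 : 1 ≤ z := by omega
  have hA : ∀ i, i ≤ z ^ 220 → cA2 z ≤ a2 z i ∧ a2 z i ≤ cB2 z := fun i hi => Thr2L_mem z hi
  have hbox : ∀ i, i ≤ z ^ 220 → nm (pt b (a2 z i) (htb b p (a2 z i))) ≤ (z : ℤ) ^ 1310 :=
    fun i hi => AttDet2_nm hb hz hp.1 hc.2.1 hc.2.2.1 hc.2.2.2.1.ge (hA i hi).1 (hA i hi).2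
  have part1 : ∀ i < z ^ 220, nm (st2 b z (htb b p) i) ≤ 3 * (z : ℤ) ^ 800 := by
    intro i hi
    obtain ⟨-, -, -, -, h⟩ := Thr2L_two hb hc (hA i hi.le).1 (AttDet2_mono z (Nat.le_succ i))
      (hA (i + 1) hi).2
    have e : a2 z (i + 1) - a2 z i = (z : ℤ) ^ 800 := by
      rw [AttDet2_succ, add_sub_cancel_left]
    have b0 : (0 : ℤ) ≤ (z : ℤ) ^ 800 := by positivity
    have b1 : (z : ℤ) ^ 772 ≤ (z : ℤ) ^ 800 := ThrL_pow_le hz1 (by norm_num)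
    rw [e] at h
    have h2 := AttDet2_nm_pt hb (a := a2 z i) (a' := a2 z (i + 1)) (r := (z : ℤ) ^ 800)
      (by rw [e, abs_of_nonneg b0]) h
    refine h2.trans ?_
    generalize (z : ℤ) ^ 800 = A at *
    generalize (z : ℤ) ^ 772 = s at *
    linarith
  have hl : ∀ i < z ^ 220, lam2 b z ω p i =
      d ω (pt b (a2 z i) (htb b p (a2 z i))) (pt b (a2 z (i + 1)) (htb b p (a2 z (i + 1)))) := by
    intro i hi
    obtain ⟨l1, l2, e1, e2, -⟩ := Thr2L_two hb hc (hA i hi.le).1 (AttDet2_mono z (Nat.le_succ i))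
      (hA (i + 1) hi).2
    unfold lam2
    rw [hp.sub l1 l2, e1, e2]
  refine ⟨part1, ?_, ?_⟩
  · intro i hi
    have h := Thr2L_con hz hg (hbox i hi.le) (hbox (i + 1) hi) (a := 400) (c := 800)
      (by norm_num) (by norm_num) (part1 i hi)
    have h' := (abs_le.1 h).1
    change -(z : ℝ) ^ 402 ≤ _ - g G (st2 b z (htb b p) i) at h'
    rw [hl i hi]
    linarith
  · set P : ℕ → V := fun i => pt b (a2 z i) (htb b p (a2 z i)) with hP
    have hmono : ∀ i < z ^ 220, fib b p (a2 z i) ≤ fib b p (a2 z (i + 1)) := fun i hi =>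
      (Thr2L_two hb hc (hA i hi.le).1 (AttDet2_mono z (Nat.le_succ i)) (hA (i + 1) hi).2).1
    obtain ⟨-, hW⟩ := ThrL_W_tel ω p (fun i => fib b p (a2 z i)) (z ^ 220) hmono
    obtain ⟨l1, l2, e1, e2, hd⟩ := Thr2L_two hb hc (hA 0 (Nat.zero_le _)).1
      (AttDet2_mono z (Nat.zero_le (z ^ 220))) (hA _ le_rfl).2
    have hlam : ∑ i ∈ Finset.range (z ^ 220), lam2 b z ω p i = d ω (P 0) (P (z ^ 220)) := by
      have e3 : d ω (P 0) (P (z ^ 220)) =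
          W ω p (fib b p (a2 z 0)) (fib b p (a2 z (z ^ 220))) := by
        rw [hp.sub l1 l2, e1, e2]
      rw [e3, ← hW]
      rfl
    have hn : nm (P (z ^ 220) - P 0) ≤ 3 * (z : ℤ) ^ 1020 := by
      have e : a2 z (z ^ 220) - a2 z 0 = (z : ℤ) ^ 1020 := by
        rw [AttDet2_last, AttDet2_zero]
        unfold cA2 cB2
        generalize (z : ℤ) ^ 1020 = A
        ring
      have b0 : (0 : ℤ) ≤ (z : ℤ) ^ 1020 := by positivity
      have b1 : (z : ℤ) ^ 772 ≤ (z : ℤ) ^ 1020 := ThrL_pow_le hz1 (by norm_num)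
      rw [e] at hd
      have h2 := AttDet2_nm_pt hb (a := a2 z 0) (a' := a2 z (z ^ 220)) (r := (z : ℤ) ^ 1020)
        (by rw [e, abs_of_nonneg b0]) hd
      refine h2.trans ?_
      generalize (z : ℤ) ^ 1020 = A at *
      generalize (z : ℤ) ^ 772 = s at *
      linarith
    have h := Thr2L_con hz hg (x := P 0) (y := P (z ^ 220)) (hbox 0 (Nat.zero_le _))
      (hbox _ le_rfl) (a := 510) (c := 1020) (by norm_num) (by norm_num) hn
    have h' := (abs_le.1 h).2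
    change _ ≤ (z : ℝ) ^ 512 at h'
    have hg1 : g G (P (z ^ 220) - P 0) ≤
        ∑ i ∈ Finset.range (z ^ 220), g G (st2 b z (htb b p) i) := by
      rw [← ThrL_tel P (z ^ 220)]
      exact g_sum_le G hG _ _
    have b7 : (z : ℝ) ^ 512 ≤ (z : ℝ) ^ 513 := ThrL_rpow_le hz1 (by norm_num)
    rw [Finset.sum_sub_distrib, hlam]
    generalize (z : ℝ) ^ 512 = B at *
    generalize (z : ℝ) ^ 513 = D at *
    linarith

theorem fam_comp2 (b : ℤ) (L z : ℕ) (f : ℤ → ℤ) (i : ℕ) : Fam (Comp2 b L z f i) := by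
  classical
  refine ⟨fun q l h => h.2.1, fun q q' l hq h => ?_⟩
  obtain ⟨h1, h2, h3, h4, h5, h6, h7, h8, h9⟩ := h
  have e0 := hq 0 (Nat.zero_le l)
  have el := hq l le_rfl
  refine ⟨h1, fun j hj => ?_, fun j hj j' hj' e => ?_, e0 ▸ h4, e0 ▸ h5, el ▸ h6, el ▸ h7,
    fun j hj => hq j hj ▸ h8 j hj, ?_⟩
  · rw [← hq j hj.le, ← hq (j + 1) hj]
    exact h2 j hj
  · rw [← hq j hj, ← hq j' hj'] at e
    exact h3 j hj j' hj' e
  · refine h9.trans (le_of_eq ?_)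
    congr 2
    refine Finset.filter_congr fun j hj => ?_
    have hj' := Finset.mem_range.1 hj
    unfold ed
    rw [hq j hj'.le, hq (j + 1) hj']

theorem card_tube2 (b : ℤ) {z : ℕ} (hz : 1 ≤ z) (f : ℤ → ℤ) (i : ℕ) :
    (Tube2 b z f i).card ≤ 6 * z ^ 1000 := by
  classical
  unfold Tube2
  have h1 : 1 ≤ z ^ 200 := Nat.one_le_pow _ _ hz
  have hI : (Finset.Ioc (a2 z i) (a2 z (i + 1))).card = z ^ 800 := by
    rw [Int.card_Ioc, AttDet2_succ, add_sub_cancel_left, ← Nat.cast_pow, Int.toNat_natCast]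
  have hJ : ∀ c : ℤ, (Finset.Icc (c - (z : ℤ) ^ 200) (c + (z : ℤ) ^ 200)).card =
      2 * z ^ 200 + 1 := by
    intro c
    rw [Int.card_Icc, ← Nat.cast_pow]
    generalize z ^ 200 = A
    omega
  refine (Finset.card_biUnion_le_card_mul _ _ (6 * z ^ 200) fun a _ => ?_).trans (le_of_eq ?_)
  · refine (Finset.card_biUnion_le_card_mul _ _ 2 fun y _ => Finset.card_le_two).trans ?_
    rw [hJ]
    generalize z ^ 200 = A at *
    omega
  · rw [hI, mul_left_comm, ← pow_add]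

/-- end points of the walks of the class, and positions of their competitors -/
theorem cls2_bounds {b : ℤ} (hb : b = 0 ∨ b = 1) {z : ℕ} (hz : 100 ≤ z) (L : ℕ) {p : ℕ → V}
    {k : ℕ} (hc : Cls2 b z p k) :
    nm (p 0) ≤ (z : ℤ) ^ 1021 ∧ nm (p k) ≤ (z : ℤ) ^ 1021 ∧
      (∀ i < z ^ 220, fib b p (a2 z (i + 1)) ≤ k) ∧
      ∃ B : ℤ, ∀ i < z ^ 220, ∀ q l, Comp2 b L z (htb b p) i q l → ∀ j ≤ l, nm (q j) ≤ B := by
  have hz1 : 1 ≤ z := by omega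
  have hzz : (100 : ℤ) ≤ z := by exact_mod_cast hz
  have hch : Chain p k := (mem_paths.1 hc.1).1
  have hA : ∀ i, i ≤ z ^ 220 → cA2 z ≤ a2 z i ∧ a2 z i ≤ cB2 z := fun i hi => Thr2L_mem z hi
  have hht : ∀ a, cA2 z ≤ a → a ≤ cB2 z → |htb b p a| ≤ 11 * (z : ℤ) ^ 1020 := fun a h1 h2 =>
    htb_bound hb hz hch hc.2.1 hc.2.2.1 hc.2.2.2.1.ge h1 h2
  refine ⟨hc.2.2.1.1.trans (ThrL_mul_pow_le hz1 (by linarith) (by norm_num)), ?_,
    fun i hi => (Thr2L_two hb hc (hA (i + 1) hi).1 le_rfl (hA (i + 1) hi).2).2.1,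
    ⟨4 * (z : ℤ) ^ 1020 + (11 * (z : ℤ) ^ 1020 + (z : ℤ) ^ 200) + ((L * z ^ 800 : ℕ) : ℤ),
      fun i hi q l hq j hj => ?_⟩⟩
  · have h1 : cA2 z ≤ cB2 z := (AttDet2_last z) ▸ (hA _ le_rfl).1
    obtain ⟨-, -, e, -, -⟩ := Thr2L_two hb hc h1 le_rfl le_rfl
    rw [hc.2.2.2.2] at e
    rw [e]
    refine (Thr2L_nm_pt hb (Thr2L_abs h1 le_rfl) (hht _ h1 le_rfl)).trans ?_
    have b1 : (15 : ℤ) * (z : ℤ) ^ 1020 ≤ (z : ℤ) ^ 1021 :=
      ThrL_mul_pow_le hz1 (by linarith) (by norm_num)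
    generalize (z : ℤ) ^ 1020 = A at *
    generalize (z : ℤ) ^ 1021 = B at *
    linarith
  · obtain ⟨h1, h2, -, h4, h5, -⟩ := hq
    have h6 := h2.nm_le (Nat.zero_le j) hj
    have h7 : |(q 0).2| ≤ 11 * (z : ℤ) ^ 1020 + (z : ℤ) ^ 200 := by
      have h8 := hht _ (hA i hi.le).1 (hA i hi.le).2
      have h9 := abs_add_le ((q 0).2 - htb b p (a2 z i)) (htb b p (a2 z i))
      rw [sub_add_cancel] at h9
      linarith
    have h8 : nm (q 0) ≤ 4 * (z : ℤ) ^ 1020 + (11 * (z : ℤ) ^ 1020 + (z : ℤ) ^ 200) := by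
      rw [eq_pt b (q 0), h4]
      exact Thr2L_nm_pt hb (Thr2L_abs (hA i hi.le).1 (hA i hi.le).2) h7
    have h9 := nm_add_le (q 0) (q j - q 0)
    rw [add_sub_cancel] at h9
    have h10 : (j : ℤ) ≤ ((L * z ^ 800 : ℕ) : ℤ) := Int.ofNat_le.2 (hj.trans h1)
    rw [Nat.cast_zero, sub_zero] at h6
    linarith

end Pool.Agent.FPP
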