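import Pool.Agent.P.MP_ecb9f8_pr.DirF
import Pool.Agent.P.MP_ecb9f8_pr.BandL

open MeasureTheory ProbabilityTheory Set Filter

noncomputable section

namespace Pool.Agent.FPP

theorem ThrF_real {c z r : ℝ} (hz : 100 ≤ z) (hc : 100 ≤ c * z) :
    z * (z + r + 1) ≤ c / 3 * r ^ 2 + z ^ 3 := by
  have h0 : 0 < z := by linarith
  have h1 : z * r ≤ c / 3 * r ^ 2 + z ^ 3 / 2 := by
    refine le_of_mul_le_mul_left ?_ h0
    nlinarith [sq_nonneg (r - z ^ 2 / 2), mul_le_mul_of_nonneg_right hc (sq_nonneg r),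
      sq_nonneg r, sq_nonneg (z ^ 2)]
  have h2 : z * z + z ≤ z ^ 3 / 2 := by nlinarith [mul_nonneg h0.le h0.le]
  linarith

theorem ThrF_low {N : Seminorm ℝ (ℝ × ℝ)} {κ c : ℝ} {φ : ℝ × ℝ} (hC : Corner N κ c φ)
    {G : Measure ℝ} {Λ ζ : ℕ} (hz : Sz N c Λ ζ) {B : ℤ} {ω : Env} (hg : MG N G Λ ζ B ω)
    {x y : V} (hx : nm x ≤ B) (hy : nm y ≤ B)
    (h : 2 * (nm (y - x) : ℝ) ≤ 3 * |lat κ (rv (y - x))|) :
    c / 2 * |lat κ (rv (y - x))| - (ζ : ℝ) ^ 3 ≤ d ω x y - lin φ (rv (y - x)) := by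
  obtain ⟨n, hn⟩ := Int.eq_ofNat_of_zero_le (nm_nonneg (y - x))
  have h1 : nm (y - x) ≤ ((ζ + Nat.sqrt n + 1 : ℕ) : ℤ) ^ 2 := by
    rw [hn]
    exact_mod_cast (Nat.lt_succ_sqrt' n).le.trans (Nat.pow_le_pow_left (by omega) 2)
  have h2 := hg.low x y hx hy _ (by omega) h1
  have h3 := hC.2.2.2 (rv (y - x))
  have hc := hz.pos
  have h4 : c * |lat κ (rv (y - x))| ≤
      c * (|lat κ (rv (y - x))| + max (-(rv (y - x)).1) 0) :=
    mul_le_mul_of_nonneg_left (le_add_of_nonneg_right (le_max_right _ _)) hc.le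
  have h5 : ((Nat.sqrt n : ℕ) : ℝ) ^ 2 ≤ n := by exact_mod_cast Nat.sqrt_le' n
  have h6 := ThrF_real (r := (Nat.sqrt n : ℕ)) (by exact_mod_cast hz.hundred) hz.cz
  rw [hn, Int.cast_natCast] at h
  have h7 : c / 3 * ((Nat.sqrt n : ℕ) : ℝ) ^ 2 ≤ c / 2 * |lat κ (rv (y - x))| := by
    have := mul_le_mul_of_nonneg_left (show 2 * ((Nat.sqrt n : ℕ) : ℝ) ^ 2 ≤
      3 * |lat κ (rv (y - x))| by linarith) hc.le
    linarith
  push_cast at h2
  linarith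

theorem ThrF_wild {κ : ℝ} (hκ : |κ| ≤ 1) {v : V} {l : ℤ} (hl : 0 ≤ l) (h1 : v.1 = l)
    (h2 : 3 * l < nm v) : 2 * (nm v : ℝ) ≤ 3 * |lat κ (rv v)| := by
  have h3 : nm v = |v.2| := by
    refine max_eq_right (le_of_not_ge fun h => ?_)
    rw [nm, max_eq_left h, h1, abs_of_nonneg hl] at h2
    omega
  rw [h3] at h2 ⊢
  have h4 : 3 * (l : ℝ) < |(v.2 : ℝ)| := by exact_mod_cast h2
  have h5 : |κ * (l : ℝ)| ≤ l := by
    have hl' : (0 : ℝ) ≤ l := by exact_mod_cast hl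
    rw [abs_mul, abs_of_nonneg hl']
    exact mul_le_of_le_one_left hl' hκ
  have h6 := abs_sub_abs_le_abs_sub (v.2 : ℝ) (κ * l)
  simp only [lat, rv, h1, Int.cast_abs]
  linarith

/-- a geodesic with large oscillation is faster than the mean on its tame pieces -/
theorem thrF {N : Seminorm ℝ (ℝ × ℝ)} {κ c : ℝ} {φ : ℝ × ℝ} (hC : Corner N κ c φ)
    {G : Measure ℝ} (hN : ∀ v : V, N (rv v) ≤ g G v) {Λ ζ : ℕ} (hz : Sz N c Λ ζ) {ω : Env}
    (hg : MG N G Λ ζ ((ζ : ℤ) ^ 120010) ω) {p : ℕ → V} {k o : ℕ} (ho : o < ζ ^ 30000)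
    (hc : Cls3 κ ζ p k) (hO : (ζ : ℝ) ^ 102240 ≤ OscS κ ζ o p) (hp : Geo ω p k) :
    (∀ i ∈ Tame ζ o p,
      g G (p (eR ζ o p i) - p (sR ζ o p i)) - lam3 ζ o ω p i ≤ (ζ : ℝ) ^ 15002) ∧
    (ζ : ℝ) ^ 102239 ≤
      ∑ i ∈ Tame ζ o p, (g G (p (eR ζ o p i) - p (sR ζ o p i)) - lam3 ζ o ω p i) := by
  have h100 := hz.hundred
  have h1 : 1 ≤ ζ := by omega
  have hz0 : (100 : ℝ) ≤ ζ := by exact_mod_cast h100
  have hz1 : (100 : ℤ) ≤ ζ := by exact_mod_cast h100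
  have hcp := hz.pos
  obtain ⟨-, c0, ck, c3, ct⟩ := hc
  have hB : ∀ j ≤ k, nm (p j) ≤ (ζ : ℤ) ^ 120010 := fun j hj =>
    (ct j hj).2.trans (ThrL_mul_pow_le h1 (by omega) (by norm_num))
  have ps := fun i (hi : i < ζ ^ 90000) => piece_spec (by omega) ho hi hp.1 c0 ck
  refine ⟨fun i hi => ?_, ?_⟩
  · obtain ⟨hi1, hi2⟩ := Finset.mem_filter.1 hi
    obtain ⟨-, p2, p3, p4, -⟩ := ps i (Finset.mem_range.1 hi1)
    have e1 : nm (p (eR ζ o p i) - p (sR ζ o p i)) ≤ ((2 * ζ ^ 15000 : ℕ) : ℤ) ^ 2 := by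
      refine hi2.trans ?_
      rw [Nat.cast_mul, Nat.cast_pow, mul_pow, ← pow_mul]
      exact mul_le_mul_of_nonneg_right (by norm_num) (pow_nonneg (by omega) _)
    have e2 := hg.con _ _ (hB _ (p2.le.trans (p3.trans p4))) (hB _ (p3.trans p4)) _
      ((ThrL_nat_le_pow h1 (by norm_num : 1 ≤ 15000)).trans (Nat.le_mul_of_pos_left _ two_pos))
      e1
    have e3 : (ζ : ℝ) * ((2 * ζ ^ 15000 : ℕ) : ℝ) ≤ (ζ : ℝ) ^ 15002 := by
      rw [Nat.cast_mul, Nat.cast_pow, mul_left_comm, ← pow_succ']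
      exact ThrL_rmul_pow_le h1 (by exact_mod_cast (by omega : 2 ≤ ζ)) le_rfl
    rw [lam3, hp.sub p2.le (p3.trans p4)]
    linarith [(abs_le.1 e2).1]
  let f : ℕ → ℕ := fun i => fi p (aR ζ o i)
  let F : ℕ → ℝ := fun i => lin φ (rv (p (f i)))
  have key : ∀ i ∈ Finset.range (ζ ^ 90000),
      c / 2 * Osc κ ζ o p i - 2 * (ζ : ℝ) ^ 3 - (W ω p (f i) (f (i + 1)) - (F (i + 1) - F i)) ≤
      if nm (p (eR ζ o p i) - p (sR ζ o p i)) ≤ 3 * (ζ : ℤ) ^ 30000 then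
        g G (p (eR ζ o p i) - p (sR ζ o p i)) - lam3 ζ o ω p i else 0 := by
    intro i hi
    obtain ⟨p1, p2, p3, p4, p5, p6, p7, -⟩ := ps i (Finset.mem_range.1 hi)
    have hek := p3.trans p4
    have hsk := p2.le.trans hek
    have e1 : W ω p (f i) (f (i + 1)) = d ω (p (f i)) (p (sR ζ o p i)) + lam3 ζ o ω p i := by
      rw [← hp.sub p1 hsk]
      exact (W_add ω p p1 p2.le).symm
    have e2 : F (i + 1) - F i = lin φ (rv (p (sR ζ o p i) - p (f i))) +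
        lin φ (rv (p (eR ζ o p i) - p (sR ζ o p i))) := by
      rw [rv_sub, rv_sub, lin_sub, lin_sub]
      exact (sub_add_sub_cancel' _ _ _).symm
    have e3 : p (sR ζ o p i) - p (f i) = (0, (p (sR ζ o p i)).2 - ht p (aR ζ o i)) := by
      refine Prod.ext ?_ rfl
      rw [Prod.fst_sub, p6, show p (f i) = _ from p5, sub_self]
    have e4 : lat κ (rv (p (sR ζ o p i) - p (f i))) =
        (((p (sR ζ o p i)).2 - ht p (aR ζ o i) : ℤ) : ℝ) := by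
      rw [e3]
      simp [lat, rv]
    have e5 := ThrF_low hC hz hg (hB _ (p1.trans hsk)) (hB _ hsk) (by
      have e6 : nm (p (sR ζ o p i) - p (f i)) = |(p (sR ζ o p i)).2 - ht p (aR ζ o i)| := by
        rw [e3]
        simp [nm]
      change 2 * (nm (p (sR ζ o p i) - p (f i)) : ℝ) ≤ 3 * |lat κ (rv (p (sR ζ o p i) - p (f i)))|
      rw [e4, e6, Int.cast_abs]
      linarith [abs_nonneg (((p (sR ζ o p i)).2 - ht p (aR ζ o i) : ℤ) : ℝ)])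
    change c / 2 * |lat κ (rv (p (sR ζ o p i) - p (f i)))| - (ζ : ℝ) ^ 3 ≤
      d ω (p (f i)) (p (sR ζ o p i)) - lin φ (rv (p (sR ζ o p i) - p (f i))) at e5
    rw [e4] at e5
    rw [e1, e2, Osc, mul_add]
    have hz3 : (0 : ℝ) ≤ (ζ : ℝ) ^ 3 := by positivity
    split_ifs with ht
    · have e7 := hC.2.2.2 (rv (p (eR ζ o p i) - p (sR ζ o p i)))
      have e8 := hN (p (eR ζ o p i) - p (sR ζ o p i))
      have e9 := mul_nonneg hcp.le (abs_nonneg (lat κ (rv (p (eR ζ o p i) - p (sR ζ o p i)))))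
      have e10 := mul_nonneg hcp.le
        (le_max_right (-(rv (p (eR ζ o p i) - p (sR ζ o p i))).1) 0)
      linarith
    · have e7 := ThrF_low hC hz hg (hB _ hsk) (hB _ hek) (ThrF_wild hC.1
        (pow_nonneg (by omega) 30000) (by rw [Prod.fst_sub, p6, p7, aR_succ, add_sub_cancel_left])
        (not_le.1 ht))
      rw [lam3, hp.sub p2.le hek]
      linarith
  have hs := Finset.sum_le_sum key
  rw [← Finset.sum_filter, Finset.sum_sub_distrib, Finset.sum_sub_distrib, ← Finset.mul_sum,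
    Finset.sum_sub_distrib, Finset.sum_range_sub, Finset.sum_const, Finset.card_range,
    nsmul_eq_mul, Nat.cast_pow] at hs
  obtain ⟨t1, t2⟩ := ThrL_W_tel ω p f (ζ ^ 90000) fun i hi => (ps i hi).1.trans (ps i hi).2.1.le
  obtain ⟨n, hn⟩ : ∃ n, ζ ^ 90000 = n + 1 := ⟨_, (Nat.succ_pred_eq_of_pos (by positivity)).symm⟩
  have q0 := ps 0 (by positivity)
  have qn := ps n (by omega)
  have t3 : f (ζ ^ 90000) ≤ k := by
    rw [hn]
    exact qn.2.2.1.trans qn.2.2.2.1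
  have t4 : 0 ≤ (rv (p (f (ζ ^ 90000)) - p (f 0))).1 := by
    have a1 : (p (f (ζ ^ 90000))).1 = aR ζ o (n + 1) := by
      rw [hn]
      exact congrArg Prod.fst qn.2.2.2.2.2.2.1
    have a2 : (p (f 0)).1 = aR ζ o 0 := congrArg Prod.fst q0.2.2.2.2.1
    have a3 : 0 ≤ (p (f (ζ ^ 90000)) - p (f 0)).1 := by
      rw [Prod.fst_sub, a1, a2, aR, aR, add_sub_add_left_eq_sub, Nat.cast_zero, zero_mul,
        sub_zero]
      exact mul_nonneg (Int.natCast_nonneg _) (pow_nonneg (by omega) _)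
    show (0 : ℝ) ≤ (((p (f (ζ ^ 90000)) - p (f 0)).1 : ℤ) : ℝ)
    exact_mod_cast a3
  have t5 := corner_exc' hC hz.up t4
  have t6 : |lat κ (rv (p (f (ζ ^ 90000)) - p (f 0)))| ≤ 2 * (ζ : ℝ) ^ 97006 := by
    rw [rv_sub, lat_sub]
    linarith [abs_sub (lat κ (rv (p (f (ζ ^ 90000))))) (lat κ (rv (p (f 0)))), (ct _ t3).1,
      (ct _ (t1.trans t3)).1]
  have t7 : nm (p (f (ζ ^ 90000)) - p (f 0)) ≤ ((ζ ^ 15001 : ℕ) : ℤ) ^ 8 := by
    rw [Nat.cast_pow, ← pow_mul]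
    refine le_trans ?_ (ThrL_mul_pow_le (c := 8) (a := 120000) h1 (by omega) (by norm_num))
    have := (ct _ t3).2
    have := (ct _ (t1.trans t3)).2
    have := nm_sub_le (p (f (ζ ^ 90000))) (p (f 0))
    unfold TT at *
    linarith
  have t8 := (abs_le.1 (hg.app _ _ (hB _ (t1.trans t3)) (hB _ t3) _
    (ThrL_nat_le_pow h1 (by norm_num)) t7)).2
  rw [Nat.cast_pow, ← pow_mul, ← pow_succ', ← hp.sub t1 t3, ← t2] at t8
  have t9 : F (ζ ^ 90000) - F 0 = lin φ (rv (p (f (ζ ^ 90000)) - p (f 0))) := by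
    rw [rv_sub, lin_sub]
  have u1 : (ζ : ℝ) ^ (15001 * 6 + 1) ≤ (ζ : ℝ) ^ 97007 := ThrL_rpow_le h1 (by norm_num)
  have u2 : 2 * (ζ : ℝ) * |lat κ (rv (p (f (ζ ^ 90000)) - p (f 0)))| ≤ 4 * (ζ : ℝ) ^ 97007 := by
    refine (mul_le_mul_of_nonneg_left t6 (by positivity)).trans (le_of_eq ?_)
    rw [show 97007 = 97006 + 1 from rfl, pow_succ' (ζ : ℝ) 97006]
    generalize (ζ : ℝ) ^ 97006 = A
    ring
  have u3 : (ζ : ℝ) ^ 90000 * (2 * (ζ : ℝ) ^ 3) ≤ 2 * (ζ : ℝ) ^ 97007 := by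
    rw [mul_left_comm, ← pow_add]
    exact mul_le_mul_of_nonneg_left (ThrL_rpow_le h1 (by norm_num)) zero_le_two
  have u4 : (ζ : ℝ) ^ 97007 ≤ (ζ : ℝ) ^ 102239 := ThrL_rpow_le h1 (by norm_num)
  have u5 : 50 * (ζ : ℝ) ^ 102239 ≤ c / 2 * OscS κ ζ o p := by
    refine le_trans ?_ (mul_le_mul_of_nonneg_left hO (by positivity))
    have a1 := mul_le_mul_of_nonneg_right hz.cz
      (pow_nonneg (Nat.cast_nonneg (α := ℝ) ζ) 102239)
    rw [show 102240 = 102239 + 1 from rfl, pow_succ' (ζ : ℝ) 102239]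
    generalize (ζ : ℝ) ^ 102239 = A at a1 ⊢
    linarith
  have u6 : (0 : ℝ) ≤ (ζ : ℝ) ^ 102239 := pow_nonneg (Nat.cast_nonneg ζ) _
  change c / 2 * OscS κ ζ o p - _ - _ ≤ ∑ i ∈ Tame ζ o p, _ at hs
  generalize (ζ : ℝ) ^ 102239 = A at *
  generalize (ζ : ℝ) ^ 97007 = A' at *
  generalize (ζ : ℝ) ^ (15001 * 6 + 1) = A'' at *
  generalize (ζ : ℝ) ^ 90000 * (2 * (ζ : ℝ) ^ 3) = A3 at *
  linarith

end Pool.Agent.FPP
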