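import Pool.Agent.P.MP_ecb9f8_pr.DirF
import Pool.Agent.P.MP_ecb9f8_pr.BandL
import Pool.Agent.P.MP_ecb9f8_pr.OnL

open MeasureTheory ProbabilityTheory Set Filter

noncomputable section

namespace Pool.Agent.FPP

theorem TubeL_snd {κ : ℝ} (hκ : |κ| ≤ 1) {v : V} {A : ℤ} (h : |lat κ (rv v)| ≤ (A : ℝ)) :
    |v.2| ≤ |v.1| + A := by
  have q1 : |κ * (rv v).1| ≤ |(rv v).1| := by
    rw [abs_mul]
    exact mul_le_of_le_one_left (abs_nonneg _) hκ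
  have q2 := abs_add_le (lat κ (rv v)) (κ * (rv v).1)
  rw [lat, sub_add_cancel, ← lat] at q2
  have q3 : |(rv v).2| ≤ |(rv v).1| + (A : ℝ) := by linarith
  simp only [rv] at q3
  exact_mod_cast q3

theorem TubeL_cast (ζ a : ℕ) : (ζ : ℝ) ^ a = (((ζ : ℤ) ^ a : ℤ) : ℝ) := by
  rw [Int.cast_pow, Int.cast_natCast]

theorem TubeL_T {ζ : ℕ} (h100 : 100 ≤ ζ) {a : ℕ} (ha : a < 120000) :
    100 * (ζ : ℤ) ^ a ≤ TT ζ := AttDet_pow h100 ha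

theorem TubeL_T' {ζ : ℕ} (h100 : 100 ≤ ζ) {a : ℕ} (ha : 120000 < a) :
    100 * TT ζ ≤ (ζ : ℤ) ^ a := AttDet_pow h100 ha

theorem TubeL_T1 {ζ : ℕ} (h100 : 100 ≤ ζ) : 100 * (ζ : ℤ) ≤ TT ζ := by
  have := TubeL_T h100 (by norm_num : 1 < 120000)
  rwa [pow_one] at this

theorem tube_of_tub {N : Seminorm ℝ (ℝ × ℝ)} {κ c : ℝ} {φ : ℝ × ℝ} (hC : Corner N κ c φ)
    {G : Measure ℝ} {Λ ζ : ℕ} (hz : Sz N c Λ ζ) {ω : Env}
    (hg : MG N G Λ ζ ((ζ : ℤ) ^ 120010) ω) {p : ℕ → V} {k : ℕ} (hp : Geo ω p k)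
    (h0 : nm (p 0) ≤ (ζ : ℤ)) (h : Tub κ ζ p k) : Tube3 κ ζ p k := by
  obtain ⟨i, hik, t1, t2, t3⟩ := h
  have h100 := hz.hundred
  have hi : (100 : ℤ) ≤ ζ := by exact_mod_cast h100
  have a1 := TubeL_T1 h100
  have a2 := TubeL_T h100 (by norm_num : 97006 < 120000)
  have a3 := TubeL_T h100 (by norm_num : 97012 < 120000)
  have a4 := TubeL_T' h100 (by norm_num : 120000 < 120005)
  have a5 : (0 : ℤ) ≤ (ζ : ℤ) ^ 97006 := by positivity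
  have a6 : (0 : ℤ) ≤ (ζ : ℤ) ^ 97012 := by positivity
  have b0 := abs_le.1 ((abs_fst_le_nm (p 0)).trans h0)
  obtain ⟨c1, c2⟩ := conf hC hz hg (hp.mono hik) h0 (by linarith) t2 (a := 97004) (by norm_num)
    (by norm_num) t3
  obtain ⟨f1, -, f3, -, f5⟩ := (hp.1.mono hik).fi_spec (a := 3 * TT ζ) (by linarith) (by linarith)
  have col : (p (k3 ζ p)).1 = 3 * TT ζ := by
    rw [k3, f3]
  refine ⟨hp.1, h0, f1.trans hik, col, fun j hj => ?_,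
    fun a b hab hb => c2 a b hab (hb.trans f1), fun j hj hjk j0 jl => ?_⟩
  · have d1 : |lat κ (rv (p j))| ≤ (ζ : ℝ) ^ 97006 := c1 j (hj.trans f1)
    refine ⟨d1, ?_⟩
    have d2 : (p 0).1 - (ζ : ℤ) ^ 97006 ≤ (p j).1 := c2 0 j (Nat.zero_le j) (hj.trans f1)
    have d3 : (p j).1 ≤ 3 * TT ζ := by
      rcases hj.eq_or_lt with e | e
      · rw [e, col]
      · exact (f5 j e).le
    have d4 : |(p j).1| ≤ 3 * TT ζ := abs_le.2 ⟨by linarith, d3⟩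
    rw [TubeL_cast] at d1
    have d5 := TubeL_snd hC.1 d1
    exact nm_le_iff.2 ⟨by linarith, by linarith⟩
  · by_contra hn
    obtain ⟨-, e2⟩ := conf hC hz hg (hp.mono hjk) h0 j0 (by linarith) (a := 97010) (by norm_num)
      (by norm_num) jl
    have e3 : (p (k3 ζ p)).1 - (ζ : ℤ) ^ 97012 ≤ (p j).1 := e2 _ j hj le_rfl
    rw [col] at e3
    linarith

/-- the cost of the route through a window of the first geodesic -/
theorem window_cost {ω : Env} {p : ℕ → V} {k i j : ℕ} (hp : Geo ω p k) (hij : i ≤ j) (hj : j ≤ k)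
    {x o : V} {w : ℝ} (h1 : d ω (p 0) x ≤ w) (h2 : d ω (p k) o ≤ w) :
    d ω x (p i) + W ω (fun t => p (i + t)) 0 (j - i) + d ω (p j) o ≤ d ω x o + 4 * w := by
  have hi := hij.trans hj
  have e1 : d ω (p 0) (p i) + d ω (p i) (p j) = d ω (p 0) (p j) := hp.add (Nat.zero_le i) hij hj
  have e2 : d ω (p 0) (p j) + d ω (p j) (p k) = d ω (p 0) (p k) := hp.add (Nat.zero_le j) hj le_rfl
  rw [W_shift, hp.sub hij hj]
  have t1 := d_triangle ω x (p 0) (p i)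
  have t2 := d_triangle ω (p j) (p k) o
  have t3 := d_triangle ω (p 0) x (p k)
  have t4 := d_triangle ω x o (p k)
  rw [d_comm ω x (p 0)] at t1
  rw [d_comm ω o (p k)] at t4
  linarith

/-- either the second geodesic avoids the tube, or both geodesics cross it -/
theorem ac0_det {N : Seminorm ℝ (ℝ × ℝ)} {κ c : ℝ} {φ : ℝ × ℝ} (hC : Corner N κ c φ)
    {G : Measure ℝ} {Λ ζ : ℕ} (hz : Sz N c Λ ζ) {ω : Env}
    (hg : MG N G Λ ζ ((ζ : ℤ) ^ 120010) ω) {xP oP xQ oQ : V} (h1 : nm xP ≤ (ζ : ℤ))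
    (h2 : nm xQ ≤ (ζ : ℤ)) (s1 : d ω xP xQ ≤ (ζ : ℝ) ^ 3) (s2 : d ω oP oQ ≤ (ζ : ℝ) ^ 3)
    (hr : RunEv κ ζ ω xP oP xQ oQ) (ha : ¬ AC0 κ Λ ζ xQ oQ ω) :
    ∃ (p : ℕ → V) (k : ℕ) (q : ℕ → V) (l : ℕ), Geo ω p k ∧ Geo ω q l ∧ p 0 = xP ∧ p k = oP ∧
      q 0 = xQ ∧ q l = oQ ∧ Tube3 κ ζ p k ∧ Tube3 κ ζ q l ∧
      ∀ i ≤ k3 ζ p, ∀ j ≤ k3 ζ q, TT ζ ≤ (p i).1 → p i ≠ q j := by
  classical
  obtain ⟨p, k, hp, rfl, rfl⟩ := hg.nice.2.1 xP oP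
  obtain ⟨q, l, hq, rfl, rfl⟩ := hg.nice.2.1 xQ oQ
  obtain ⟨⟨y, y1, y2, y3, y4⟩, hm⟩ := hr
  obtain ⟨i, hik, rfl⟩ := (hg.nice.on_iff hp y).1 y1
  have h100 := hz.hundred
  have hz1 : 1 ≤ ζ := by omega
  have hi : (100 : ℤ) ≤ ζ := by exact_mod_cast h100
  have a1 := TubeL_T1 h100
  have a2 := TubeL_T h100 (by norm_num : 97002 < 120000)
  have a4 := TubeL_T' h100 (by norm_num : 120000 < 120005)
  have a4' := TubeL_T' h100 (by norm_num : 120000 < 120010)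
  have a5 : (0 : ℤ) ≤ (ζ : ℤ) ^ 97002 := by positivity
  have b0 := abs_le.1 ((abs_fst_le_nm (p 0)).trans h1)
  have tp : Tube3 κ ζ p k := tube_of_tub hC hz hg hp h1
    ⟨i, hik, by linarith, y3, y4.trans (ThrL_rpow_le hz1 (by norm_num))⟩
  obtain ⟨c1, -⟩ := conf hC hz hg (hp.mono hik) h1 (by linarith) y3 (a := 97000) (by norm_num)
    (by norm_num) y4
  have c1' : ∀ j ≤ i, |lat κ (rv (p j))| ≤ (ζ : ℝ) ^ 97002 := c1
  have e0 : ((ζ ^ 120000 : ℕ) : ℤ) = TT ζ := Nat.cast_pow ζ 120000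
  have e1 : 5 * TT ζ + ((ζ ^ 120000 : ℕ) : ℤ) = 6 * TT ζ := by
    rw [e0]
    linarith
  obtain ⟨f1, -, f3, -, -⟩ := (hp.1.mono hik).fi_spec (a := 6 * TT ζ) (by linarith) (by linarith)
  obtain ⟨g1, -, g3, -, -⟩ := (hp.1.mono hik).fi_spec (a := 5 * TT ζ) (by linarith) (by linarith)
  have r3 : (ζ : ℝ) ^ 97002 ≤ (ζ : ℝ) ^ 97003 := ThrL_rpow_le hz1 (by norm_num)
  have bw := band_window (κ := κ) (hp.1.mono hik) (a := 5 * TT ζ) (n := ζ ^ 120000)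
    (by linarith) (by rw [e1]; linarith) (lo := -(ζ : ℝ) ^ 97003) (hi := (ζ : ℝ) ^ 97003)
    (fun j hj _ => abs_le.1 ((c1' j (hj.trans (by rw [e1]; exact f1))).trans r3))
  rw [e1] at bw
  obtain ⟨w1, w2, w3, w4⟩ := bw
  have w2' := w2.trans hik
  have hs := hp.shift w1 w2'
  have x1 : (p (fi p (5 * TT ζ))).1 = 5 * TT ζ := by rw [g3]
  have x2 : (p (fi p (6 * TT ζ))).1 = 6 * TT ζ := by rw [f3]
  have l1 := c1' _ g1
  have l2 := c1' _ f1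
  have l3 : |lat κ (rv (p (fi p (6 * TT ζ)) - p (fi p (5 * TT ζ))))| ≤
      ((2 * (ζ : ℤ) ^ 97002 : ℤ) : ℝ) := by
    have e : lat κ (rv (p (fi p (6 * TT ζ)) - p (fi p (5 * TT ζ)))) =
        lat κ (rv (p (fi p (6 * TT ζ)))) - lat κ (rv (p (fi p (5 * TT ζ)))) := by
      rw [rv_sub]
      simp only [lat, Prod.fst_sub, Prod.snd_sub]
      ring
    rw [e, Int.cast_mul, ← TubeL_cast, Int.cast_ofNat]
    exact (abs_sub _ _).trans (by linarith)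
  rw [TubeL_cast] at l1 l2
  have m1 := TubeL_snd hC.1 l1
  have m2 := TubeL_snd hC.1 l2
  have m3 := TubeL_snd hC.1 l3
  have n1 : |(p (fi p (5 * TT ζ))).1| = 5 * TT ζ := by rw [x1, abs_of_nonneg (by linarith)]
  have n2 : |(p (fi p (6 * TT ζ))).1| = 6 * TT ζ := by rw [x2, abs_of_nonneg (by linarith)]
  have n3 : |(p (fi p (6 * TT ζ)) - p (fi p (5 * TT ζ))).1| = TT ζ := by
    rw [Prod.fst_sub, x1, x2, abs_of_nonneg (by linarith)]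
    linarith
  have z1 : fi p (5 * TT ζ) + (fi p (6 * TT ζ) - fi p (5 * TT ζ)) = fi p (6 * TT ζ) :=
    Nat.add_sub_cancel' w1
  have len : fi p (6 * TT ζ) - fi p (5 * TT ζ) ≤ Λ * (2 * ζ ^ 120000) := by
    refine hg.len _ _ hs ?_ ?_ _
      ((ThrL_nat_le_pow hz1 (by norm_num)).trans (Nat.le_mul_of_pos_left _ (by norm_num))) ?_
    · exact nm_le_iff.2 ⟨by rw [Nat.add_zero]; linarith, by rw [Nat.add_zero]; linarith⟩
    · rw [z1]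
      exact nm_le_iff.2 ⟨by linarith, by linarith⟩
    · rw [z1, Nat.add_zero, Nat.cast_mul, e0, Nat.cast_ofNat]
      exact nm_le_iff.2 ⟨by linarith, by linarith⟩
  have cost := window_cost hp w1 w2' s1 s2
  have hq' : ∃ j < l, ed q j ∈
      Band κ (5 * TT ζ) (6 * TT ζ) (-(ζ : ℝ) ^ 97003) ((ζ : ℝ) ^ 97003) := by
    by_contra hn
    refine ha ⟨0, Finset.mem_singleton_self 0, ⟨q, l, hq, rfl, rfl, rfl, fun j hj h => hn ⟨j, hj, h⟩⟩,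
      fun t => p (fi p (5 * TT ζ) + t), fi p (6 * TT ζ) - fi p (5 * TT ζ), hs.1,
      hs.sa hg.nice.1, w3, ?_, w4, ?_⟩
    · rw [mul_comm 2 Λ, mul_assoc]
      exact len
    · beta_reduce
      rw [z1, Nat.add_zero]
      exact cost
  obtain ⟨j, hj, he⟩ := hq'
  obtain ⟨x, y, u1, u2, u3, u4, u5⟩ := mem_band.1 he
  have hxy : ∃ j' ≤ l, q j' = (x, y) := by
    rcases Sym2.eq_iff.1 u5 with u | u
    · exact ⟨j + 1, hj, u.2⟩
    · exact ⟨j, hj.le, u.1⟩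
  obtain ⟨j', hj', ej⟩ := hxy
  have tq : Tube3 κ ζ q l := tube_of_tub hC hz hg hq h2
    ⟨j', hj', by rw [ej]; linarith, by rw [ej]; linarith, by
      rw [ej]
      exact (abs_le.2 ⟨u3, u4⟩).trans (ThrL_rpow_le hz1 (by norm_num))⟩
  refine ⟨p, k, q, l, hp, hq, rfl, rfl, rfl, rfl, tp, tq, fun a ha' b hb hT e => hm ⟨p a,
    (hg.nice.on_iff hp _).2 ⟨a, ha'.trans tp.le, rfl⟩,
    (hg.nice.on_iff hq _).2 ⟨b, hb.trans tq.le, e.symm⟩, ?_, ?_⟩⟩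
  · have := (le_abs_self _).trans (abs_fst_le_nm (p a))
    linarith
  · have := (tp.tube a ha').2
    linarith

end Pool.Agent.FPP
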