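import Pool.Agent.P.MP_ecb9f8_pr.Shift

open MeasureTheory ProbabilityTheory Set Filter

noncomputable section

namespace Pool.Agent.FPP

theorem Up1_sin (n : ℕ) (x : ℝ) : |Real.sin (n * x)| ≤ n * |Real.sin x| := by
  induction n with
  | zero => simp
  | succ n ih =>
    rw [Nat.cast_succ, add_mul, one_mul, Real.sin_add, add_mul, one_mul]
    refine (abs_add_le _ _).trans (add_le_add ?_ ?_)
    · rw [abs_mul]
      exact (mul_le_of_le_one_right (abs_nonneg _) (Real.abs_cos_le_one _)).trans ih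
    · rw [abs_mul]
      exact mul_le_of_le_one_left (abs_nonneg _) (Real.abs_cos_le_one _)

theorem Up1_cos (n : ℕ) (x : ℝ) : 1 - Real.cos (n * x) ≤ (n : ℝ) ^ 2 * (1 - Real.cos x) := by
  have h := pow_le_pow_left₀ (abs_nonneg _) (Up1_sin n (x / 2)) 2
  rw [mul_pow, sq_abs, sq_abs, Real.sin_sq_eq_half_sub, Real.sin_sq_eq_half_sub,
    show 2 * (n * (x / 2)) = n * x by ring, show 2 * (x / 2) = x by ring] at h
  linarith

variable (G : Measure ℝ) [IsProbabilityMeasure G]

theorem Up1_prod (U : Finset E) (a : E → ℝ) :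
    ∫ ω, ∏ e ∈ U, Complex.exp (a e * (ω e : ℝ) * Complex.I) ∂(PP G) = ∏ e ∈ U, charFun G (a e) := by
  have h : iIndepFun (fun (e : E) (ω : Env) => Complex.exp (a e * (ω e : ℝ) * Complex.I)) (PP G) :=
    iIndepFun_infinitePi (X := fun (e : E) (x : ℝ) => Complex.exp (a e * x * Complex.I))
      fun e => by fun_prop
  have h' := (h.restrict U).integral_fun_prod_eq_prod_integral
    fun e => Measurable.aestronglyMeasurable (by unfold Finset.restrict; fun_prop)
  simp only [Finset.restrict] at h'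
  rw [Finset.prod_coe_sort U fun e => ∫ ω, Complex.exp (a e * (ω e : ℝ) * Complex.I) ∂(PP G)] at h'
  simp only [fun ω : Env =>
    Finset.prod_coe_sort U fun e => Complex.exp (a e * (ω e : ℝ) * Complex.I)] at h'
  rw [h']
  refine Finset.prod_congr rfl fun e _ => ?_
  rw [charFun_apply_real]
  conv_rhs => rw [← (mp_eval G e).map_eq]
  rw [integral_map (measurable_pi_apply e).aemeasurable (by fun_prop)]

theorem Up1_int (f : Env → ℝ) (hf : Measurable f) : Integrable (fun ω => Real.cos (f ω)) (PP G) :=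
  Integrable.of_bound (by fun_prop) 1 (Eventually.of_forall fun ω => Real.abs_cos_le_one _)

theorem Up1_char {S T : Finset E} (hd : Disjoint S T) (hc : S.card = T.card) (t : ℝ) :
    ∫ ω, Real.cos (t * (∑ e ∈ S, ω e - ∑ e ∈ T, ω e)) ∂(PP G) =
      Complex.normSq (charFun G t) ^ S.card := by
  classical
  have h := Up1_prod G (S ∪ T) fun e => if e ∈ S then t else -t
  have hT : ∀ e ∈ T, (if e ∈ S then t else -t) = -t := fun e he =>
    if_neg fun h => Finset.disjoint_left.1 hd h he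
  have e1 : ∀ ω : Env, ∏ e ∈ S ∪ T, Complex.exp ((if e ∈ S then t else -t : ℝ) * (ω e : ℝ) *
      Complex.I) = Complex.exp ((t * (∑ e ∈ S, ω e - ∑ e ∈ T, ω e) : ℝ) * Complex.I) := fun ω => by
    rw [← Complex.exp_sum, Finset.sum_union hd, Finset.sum_congr rfl fun e he => by rw [if_pos he],
      Finset.sum_congr (s₁ := T) rfl fun e he => by rw [hT e he]]
    simp only [← Finset.sum_mul, ← Finset.mul_sum]
    push_cast
    ring_nf
  rw [Finset.prod_union hd, Finset.prod_congr rfl fun e he => by rw [if_pos he],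
    Finset.prod_congr (s₁ := T) rfl fun e he => by rw [hT e he], Finset.prod_const,
    Finset.prod_const, ← hc, ← mul_pow, charFun_neg, Complex.mul_conj, ← Complex.ofReal_pow] at h
  simp only [e1] at h
  have hi : Integrable (fun ω : Env =>
      Complex.exp ((t * (∑ e ∈ S, ω e - ∑ e ∈ T, ω e) : ℝ) * Complex.I)) (PP G) :=
    Integrable.of_bound (by fun_prop) 1
      (Eventually.of_forall fun ω => (Complex.norm_exp_ofReal_mul_I _).le)
  have h2 := integral_re hi
  rw [h] at h2
  simpa only [RCLike.re_to_complex, Complex.exp_ofReal_mul_I_re, Complex.ofReal_re] using h2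

theorem Up1_pair {e e' : E} (h : e ≠ e') (t : ℝ) :
    ∫ ω, Real.cos (t * (ω e - ω e')) ∂(PP G) = Complex.normSq (charFun G t) := by
  simpa using Up1_char G (S := {e}) (T := {e'}) (Finset.disjoint_singleton.2 h) rfl t

theorem Up1_ne : (s((0, 0), (0, 0)) : E) ≠ s((1, 0), (1, 0)) := by decide

theorem Up1_lt (hG : Law G) : Complex.normSq (charFun G 1) < 1 := by
  rw [← Up1_pair G Up1_ne]
  set e : E := s((0, 0), (0, 0))
  set e' : E := s((1, 0), (1, 0))
  have hi := Up1_int G (fun ω => 1 * (ω e - ω e')) (by fun_prop)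
  by_contra hlt
  have h1 : (fun ω : Env => Real.cos (1 * (ω e - ω e'))) =ᵐ[PP G] fun _ => 1 :=
    (integral_eq_iff_of_ae_le hi (integrable_const _)
      (Eventually.of_forall fun ω => Real.cos_le_one _)).1 (le_antisymm
        (integral_mono hi (integrable_const _) fun ω => Real.cos_le_one _) (by simpa using hlt))
  obtain ⟨ω, hω⟩ := (Measure.ae_ae_of_ae_prod ((mp_upd G e).quasiMeasurePreserving.ae h1)).exists
  have h2 : ∀ᵐ y ∂G, y ∉ range fun n : ℤ => ω e' + n * (2 * Real.pi) :=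
    measure_eq_zero_iff_ae_notMem.1 (hG.2.2 ((countable_range _).measure_zero _))
  obtain ⟨y, hy, hy'⟩ := (hω.and h2).exists
  have hne : e' ≠ e := Up1_ne.symm
  simp only [Function.update_self, Function.update_of_ne hne, one_mul] at hy
  obtain ⟨n, hn⟩ := (Real.cos_eq_one_iff _).1 hy
  exact hy' ⟨n, by simp [hn]⟩

theorem Up1_scale (n : ℕ) (hn : 0 < n) : 1 - Complex.normSq (charFun G 1) ≤
    (n : ℝ) ^ 2 * (1 - Complex.normSq (charFun G (n : ℝ)⁻¹)) := by
  rw [← Up1_pair G Up1_ne, ← Up1_pair G Up1_ne]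
  set e : E := s((0, 0), (0, 0))
  set e' : E := s((1, 0), (1, 0))
  have hi := fun t : ℝ => (integrable_const (1 : ℝ)).sub
    (Up1_int G (fun ω => t * (ω e - ω e')) (by fun_prop))
  have e1 : ∀ t : ℝ, 1 - ∫ ω, Real.cos (t * (ω e - ω e')) ∂(PP G) =
      ∫ ω, (1 - Real.cos (t * (ω e - ω e'))) ∂(PP G) := fun t => by
    rw [integral_sub (integrable_const _) (Up1_int G _ (by fun_prop))]
    simp
  rw [e1, e1, ← integral_const_mul]
  refine integral_mono (hi 1) ((hi _).const_mul _) fun ω => ?_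
  have h := Up1_cos n ((n : ℝ)⁻¹ * (ω e - ω e'))
  rwa [← mul_assoc, mul_inv_cancel₀ (by positivity)] at h

theorem Up1_integrable (hG : Law G) (e : E) : Integrable (fun ω : Env => ω e) (PP G) := by
  have h : Integrable (fun x : ℝ => x) G := by
    refine ((Mean_aux1 G hG).integrable one_le_two).congr ?_
    have h0 : ∀ᵐ x ∂G, x ∉ Iio (0 : ℝ) := measure_eq_zero_iff_ae_notMem.1 hG.1
    filter_upwards [h0] with x hx
    exact max_eq_left (not_lt.1 hx)
  exact (mp_eval G e).integrable_comp_of_integrable h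

/-- the difference of two independent sums of `k` weights is of order at least the square root of `k` -/
theorem abs_diff_ge (G : Measure ℝ) [IsProbabilityMeasure G] (hG : Law G) :
    ∃ c : ℝ, 0 < c ∧ ∀ S T : Finset E, Disjoint S T → S.card = T.card →
      c * Real.sqrt (S.card : ℝ) ≤ ∫ ω, |∑ e ∈ S, ω e - ∑ e ∈ T, ω e| ∂(PP G) := by
  have hb := sub_pos.2 (Up1_lt G hG)
  set b := 1 - Complex.normSq (charFun G 1) with hbd
  have hc0 : 0 < 1 - Real.exp (-(b / 4)) := sub_pos.2 (Real.exp_lt_one_iff.2 (by linarith))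
  refine ⟨1 - Real.exp (-(b / 4)), hc0, fun S T hd hc => ?_⟩
  rcases Nat.eq_zero_or_pos S.card with h0 | h0
  · rw [h0, Nat.cast_zero, Real.sqrt_zero, mul_zero]
    exact integral_nonneg fun _ => abs_nonneg _
  set k := S.card
  have hk : (1 : ℝ) ≤ √k := Real.one_le_sqrt.2 (by exact_mod_cast h0)
  set n := ⌈√(k : ℝ)⌉₊
  have hn1 : √(k : ℝ) ≤ n := Nat.le_ceil _
  have hn2 : (n : ℝ) ≤ 2 * √k := by
    have := Nat.ceil_lt_add_one (zero_le_one.trans hk)
    linarith
  have hn : (0 : ℝ) < n := by linarith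
  have hn3 : (n : ℝ) ^ 2 ≤ 4 * k := by
    have := pow_le_pow_left₀ hn.le hn2 2
    rwa [mul_pow, Real.sq_sqrt (Nat.cast_nonneg _), show (2 : ℝ) ^ 2 = 4 by norm_num] at this
  have hs := Up1_scale G n (by exact_mod_cast hn)
  set ψ := Complex.normSq (charFun G (n : ℝ)⁻¹) with hψ
  have h1 : ψ ^ k ≤ Real.exp (-(b / 4)) := by
    have h2 : ψ ≤ Real.exp (-(1 - ψ)) := by linarith [Real.add_one_le_exp (-(1 - ψ))]
    refine (pow_le_pow_left₀ (Complex.normSq_nonneg _) h2 k).trans ?_
    rw [← Real.exp_nat_mul]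
    refine Real.exp_le_exp.2 ?_
    have h3 : 0 ≤ 1 - ψ := nonneg_of_mul_nonneg_right (hb.le.trans hs) (by positivity)
    nlinarith [mul_le_mul_of_nonneg_right hn3 h3]
  have hi : Integrable (fun ω : Env => |∑ e ∈ S, ω e - ∑ e ∈ T, ω e|) (PP G) :=
    ((integrable_finsetSum S fun e _ => Up1_integrable G hG e).sub
      (integrable_finsetSum T fun e _ => Up1_integrable G hG e)).abs
  have h4 : 1 - ψ ^ k ≤ (n : ℝ)⁻¹ * ∫ ω, |∑ e ∈ S, ω e - ∑ e ∈ T, ω e| ∂(PP G) := by
    have hj := Up1_int G (fun ω => (n : ℝ)⁻¹ * (∑ e ∈ S, ω e - ∑ e ∈ T, ω e)) (by fun_prop)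
    rw [hψ, ← Up1_char G hd hc, ← integral_const_mul]
    refine le_trans ?_ (integral_mono ((integrable_const (1 : ℝ)).sub hj) (hi.const_mul _)
      fun ω => ?_)
    · rw [integral_sub' (integrable_const _) hj]
      simp
    · have h := Real.abs_cos_sub_cos_le 0 ((n : ℝ)⁻¹ * (∑ e ∈ S, ω e - ∑ e ∈ T, ω e))
      rw [Real.cos_zero, zero_sub, abs_neg, abs_mul, abs_of_pos (inv_pos.2 hn)] at h
      exact (le_abs_self _).trans h
  rw [le_inv_mul_iff₀ hn] at h4
  nlinarith [mul_le_mul_of_nonneg_left hn1 hc0.le]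

end Pool.Agent.FPP
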